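import Mathlib

set_option autoImplicit false

namespace Pool.Agent.Lib.MP_6db618_an

open scoped IntermediateField.algebraAdjoinAdjoin in
/-- In characteristic zero a transcendental element is not killed by every derivation. -/
theorem exists_derivation_eq_one {k K : Type} [Field k] [Field K] [Algebra k K] [CharZero k]
    {u : K} (hu : Transcendental k u) : ∃ D : Derivation k K K, D u = 1 := by
  classical
  have hs : AlgebraicIndepOn k id ({u} : Set K) := by
    unfold AlgebraicIndepOn
    rw [algebraicIndependent_unique_type_iff]
    simpa using hu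
  obtain ⟨t, hut, ht⟩ := exists_isTranscendenceBasis_superset hs
  set v : t → K := (↑) with hv
  let A := MvPolynomial t k
  let S := Algebra.adjoin k (Set.range v)
  let F := IntermediateField.adjoin k (Set.range v)
  let e : A ≃ₐ[k] S := ht.1.aevalEquiv
  let iAS : Algebra A S := e.toRingEquiv.toRingHom.toAlgebra
  let iAK : Algebra A K := (MvPolynomial.aeval v).toRingHom.toAlgebra
  have _ : IsScalarTower A S K := .of_algebraMap_eq fun a => by
    change MvPolynomial.aeval v a = ((e a : S) : K)
    exact (ht.1.algebraMap_aevalEquiv a).symm
  have _ : IsScalarTower k A K := .of_algebraMap_eq fun a => by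
    change algebraMap k K a = MvPolynomial.aeval v (algebraMap k A a)
    exact ((MvPolynomial.aeval v).commutes a).symm
  have _ : Algebra.FormallyEtale A S :=
    Algebra.FormallyEtale.of_equiv (R := A) (A := A) (B := S)
      { e.toRingEquiv with commutes' := fun _ => rfl }
  have _ : Algebra.FormallyEtale S F := .of_isLocalization (nonZeroDivisors _)
  have _ : Algebra.IsAlgebraic F K := ht.isAlgebraic_field
  have _ : CharZero F := algebraRat.charZero _
  have _ : Algebra.FormallyEtale F K := Algebra.FormallyEtale.of_isSeparable _ K
  have _ : Algebra.FormallyEtale S K := .comp _ F _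
  have _ : Algebra.FormallyEtale A K := .comp _ S _
  let i : t := ⟨u, hut rfl⟩
  let D1 : Derivation k A K := (Algebra.linearMap A K).compDer (MvPolynomial.pderiv i)
  let L2 := (D1.liftKaehlerDifferential).liftBaseChange K
  let E := KaehlerDifferential.tensorKaehlerEquivOfFormallyEtale k A K
  refine ⟨(L2 ∘ₗ E.symm.toLinearMap).compDer (KaehlerDifferential.D k K), ?_⟩
  have hu' : u = algebraMap A K (MvPolynomial.X i) := by
    change u = MvPolynomial.aeval v (MvPolynomial.X i)
    simp [hv, i]
  change L2 (E.symm (KaehlerDifferential.D k K u)) = 1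
  rw [hu', KaehlerDifferential.tensorKaehlerEquivOfFormallyEtale_symm_D_algebraMap]
  simp only [L2, D1, LinearMap.liftBaseChange_tmul, one_smul,
    Derivation.liftKaehlerDifferential_comp_D]
  change algebraMap A K (MvPolynomial.pderiv i (MvPolynomial.X i)) = 1
  rw [MvPolynomial.pderiv_X_self, map_one]

end Pool.Agent.Lib.MP_6db618_an
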