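import Mathlib
import Pool.Agent.Lib.MP_6db618_an.Deriv

set_option autoImplicit false

namespace Pool.Agent.Lib.MP_6db618_an

variable {K : Type} [Field K] [Algebra ℂ K]

/-- `tt w z = w / (z - w)`. -/
noncomputable def tt (w : ℂ) (z : K) : K := algebraMap ℂ K w / (z - algebraMap ℂ K w)

/-- `HH s z = ∑ z / (z - w)`, the function `z p'(z) / p(z)` for `p` with root multiset `s`. -/
noncomputable def HH (s : Multiset ℂ) (z : K) : K := (s.map fun w => 1 + tt w z).sum

/-- `Chi s z = z * d/dz (HH s z)`. -/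
noncomputable def Chi (s : Multiset ℂ) (z : K) : K :=
  (s.map fun w => -(tt w z * (1 + tt w z))).sum

/-- Not a constant. -/
def NC (z : K) : Prop := ∀ c : ℂ, z ≠ algebraMap ℂ K c

/-- A valuation subring containing the constants. -/
def HasConst (V : ValuationSubring K) : Prop := ∀ c : ℂ, algebraMap ℂ K c ∈ V

theorem NC.ne_zero {z : K} (h : NC z) : z ≠ 0 := by simpa using h 0

theorem NC.sub_ne_zero {z : K} (h : NC z) (c : ℂ) : z - algebraMap ℂ K c ≠ 0 :=
  _root_.sub_ne_zero.mpr (h c)

theorem exists_const_of_isAlgebraic {z : K} (h : IsAlgebraic ℂ z) :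
    ∃ c : ℂ, z = algebraMap ℂ K c := by
  have hi : IsIntegral ℂ z := h.isIntegral
  have hdeg := IsAlgClosed.degree_eq_one_of_irreducible ℂ (minpoly.irreducible hi)
  obtain ⟨c, hc⟩ := minpoly.mem_range_of_degree_eq_one ℂ z hdeg
  exact ⟨c, hc.symm⟩

theorem NC.transcendental {z : K} (h : NC z) : Transcendental ℂ z := fun ha => by
  obtain ⟨c, hc⟩ := exists_const_of_isAlgebraic ha
  exact h c hc

theorem NC.exists_derivation {z : K} (h : NC z) : ∃ D : Derivation ℂ K K, D z = 1 :=
  exists_derivation_eq_one h.transcendental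

theorem NC.exists_valuationSubring {z : K} (h : NC z) :
    ∃ V : ValuationSubring K, HasConst V ∧ z ∉ V := by
  by_contra hcon
  push Not at hcon
  have hz : z ∈ (integralClosure (Subring.closure (Set.range (algebraMap ℂ K))) K).toSubring := by
    rw [← iInf_valuationSubring_superset, Subring.mem_iInf]
    rintro ⟨V, hV⟩
    exact hcon V fun c => hV ⟨c, rfl⟩
  have hcl : Subring.closure (Set.range (algebraMap ℂ K)) = (algebraMap ℂ K).range := by
    rw [← RingHom.coe_range, Subring.closure_eq]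
  rw [hcl] at hz
  have hz' : IsIntegral (algebraMap ℂ K).range z := hz
  let e : ℂ ≃+* (algebraMap ℂ K).range := RingEquiv.ofBijective (algebraMap ℂ K).rangeRestrict
    ⟨(algebraMap ℂ K).rangeRestrict.injective, (algebraMap ℂ K).rangeRestrict_surjective⟩
  have hi : IsIntegral ℂ ((RingHom.id K) z) := by
    refine IsIntegral.map_of_comp_eq e.symm.toRingHom (RingHom.id K) ?_ hz'
    ext x
    obtain ⟨y, rfl⟩ := e.surjective x
    simp only [RingHom.comp_apply, RingEquiv.toRingHom_eq_coe, RingEquiv.coe_toRingHom,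
      RingEquiv.symm_apply_apply, RingHom.id_apply]
    rfl
  obtain ⟨c, hc⟩ := exists_const_of_isAlgebraic hi.isAlgebraic
  exact h c hc

theorem HasConst.const_eq_zero {V : ValuationSubring K} (hV : HasConst V) {a b : K} {c : ℂ}
    (ha : a ∉ V) (hb : b ∈ V) (h : algebraMap ℂ K c * a = b) : c = 0 := by
  by_contra hc
  apply ha
  have : a = algebraMap ℂ K c⁻¹ * b := by
    rw [← h, ← mul_assoc, ← map_mul, inv_mul_cancel₀ hc, map_one, one_mul]
  rw [this]
  exact V.mul_mem _ _ (hV _) hb

theorem HasConst.natCast_mem {V : ValuationSubring K} (hV : HasConst V) (n : ℕ) : (n : K) ∈ V := by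
  have := hV n
  rwa [map_natCast] at this

theorem HasConst.valuation_const {V : ValuationSubring K} (hV : HasConst V) {c : ℂ} (hc : c ≠ 0) :
    V.valuation (algebraMap ℂ K c) = 1 := by
  have h1 : V.valuation (algebraMap ℂ K c) ≤ 1 := (V.valuation_le_one_iff _).mpr (hV c)
  have h2 : V.valuation (algebraMap ℂ K c⁻¹) ≤ 1 := (V.valuation_le_one_iff _).mpr (hV _)
  have h3 : V.valuation (algebraMap ℂ K c) * V.valuation (algebraMap ℂ K c⁻¹) = 1 := by
    rw [← map_mul, ← map_mul, mul_inv_cancel₀ hc, map_one, map_one]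
  refine le_antisymm h1 ?_
  calc (1 : V.ValueGroup) = _ := h3.symm
    _ ≤ V.valuation (algebraMap ℂ K c) * 1 := by gcongr
    _ = _ := mul_one _

theorem HasConst.tt_mem {V : ValuationSubring K} (hV : HasConst V) {z : K} {w w' : ℂ}
    (hw : tt w z ∉ V) (hne : w' ≠ w) : tt w' z ∈ V := by
  have hw0 : w ≠ 0 := by
    rintro rfl
    apply hw
    simp [tt]
  have h1 : V.valuation (z - algebraMap ℂ K w) < 1 := by
    by_contra hcon
    apply hw
    rw [← V.valuation_le_one_iff, tt, map_div₀, hV.valuation_const hw0]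
    exact div_le_one_of_le₀ (not_lt.mp hcon) zero_le
  have h2 : V.valuation (z - algebraMap ℂ K w') = 1 := by
    have : z - algebraMap ℂ K w' = algebraMap ℂ K (w - w') + (z - algebraMap ℂ K w) := by
      rw [map_sub]; ring
    have h3 := hV.valuation_const (sub_ne_zero.mpr hne.symm)
    rw [this, Valuation.map_add_eq_of_lt_left _ (by rw [h3]; exact h1), h3]
  rw [← V.valuation_le_one_iff, tt, map_div₀, h2, div_one, V.valuation_le_one_iff]
  exact hV _

omit [Algebra ℂ K] in
theorem sum_map_mem {V : ValuationSubring K} (s : Multiset ℂ) (f : ℂ → K)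
    (h : ∀ w ∈ s, f w ∈ V) : (s.map f).sum ∈ V := by
  refine V.toSubring.multiset_sum_mem _ ?_
  intro a ha
  obtain ⟨w, hw, rfl⟩ := Multiset.mem_map.mp ha
  exact h w hw

omit [Algebra ℂ K] in
theorem sum_map_split (s : Multiset ℂ) (f : ℂ → K) (w : ℂ) :
    (s.map f).sum = (s.count w : K) * f w + ((s.filter (· ≠ w)).map f).sum := by
  classical
  conv_lhs => rw [← Multiset.filter_add_not (· = w) s]
  rw [Multiset.map_add, Multiset.sum_add, Multiset.filter_eq', Multiset.map_replicate,
    Multiset.sum_replicate, nsmul_eq_mul]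

theorem HasConst.decomp {V : ValuationSubring K} (hV : HasConst V) {z : K} {w : ℂ}
    (hw : tt w z ∉ V) (s : Multiset ℂ) :
    ∃ g e : K, g ∈ V ∧ e ∈ V ∧ HH s z = (s.count w : K) * (1 + tt w z) + g ∧
      Chi s z = (s.count w : K) * (-(tt w z * (1 + tt w z))) + e := by
  refine ⟨_, _, ?_, ?_, sum_map_split s _ w, sum_map_split s _ w⟩
  · refine sum_map_mem _ _ fun w' hw' => ?_
    exact V.add_mem _ _ V.one_mem (hV.tt_mem hw (Multiset.mem_filter.mp hw').2)
  · refine sum_map_mem _ _ fun w' hw' => ?_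
    have := hV.tt_mem hw (Multiset.mem_filter.mp hw').2
    exact V.neg_mem _ (V.mul_mem _ _ this (V.add_mem _ _ V.one_mem this))

theorem HasConst.count_eq_zero {V : ValuationSubring K} (hV : HasConst V) {z : K} {w : ℂ}
    (hw : tt w z ∉ V) {s : Multiset ℂ} (hs : HH s z ∈ V) : s.count w = 0 := by
  obtain ⟨g, e, hg, -, h1, -⟩ := hV.decomp hw s
  have : ((s.count w : ℕ) : ℂ) = 0 := by
    refine hV.const_eq_zero hw (b := HH s z - g - s.count w) ?_ ?_
    · exact V.toSubring.sub_mem (V.toSubring.sub_mem hs hg) (hV.natCast_mem _)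
    · rw [h1, map_natCast]; ring
  exact_mod_cast this

theorem HasConst.tt_mem_of_HH_mem {V : ValuationSubring K} (hV : HasConst V) {z : K}
    {s : Multiset ℂ} (hs : HH s z ∈ V) {w : ℂ} (hw : w ∈ s) : tt w z ∈ V := by
  by_contra hcon
  exact (Multiset.count_eq_zero.mp (hV.count_eq_zero hcon hs)) hw

theorem HasConst.Chi_mem {V : ValuationSubring K} (hV : HasConst V) {z : K}
    {s : Multiset ℂ} (hs : HH s z ∈ V) : Chi s z ∈ V := by
  refine sum_map_mem _ _ fun w hw => ?_
  have := hV.tt_mem_of_HH_mem hs hw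
  exact V.neg_mem _ (V.mul_mem _ _ this (V.add_mem _ _ V.one_mem this))

theorem HasConst.expand {V : ValuationSubring K} (hV : HasConst V) {z : K} (hz : NC z)
    {s : Multiset ℂ} (hs : HH s z ∉ V) :
    ∃ w : ℂ, w ≠ 0 ∧ w ∈ s ∧ ∃ g e : K, g ∈ V ∧ e ∈ V ∧
      z * (HH s z - g - s.count w) = algebraMap ℂ K w * (HH s z - g) ∧
      (s.count w : K) * Chi s z = -((HH s z - g - s.count w) * (HH s z - g)) + s.count w * e := by
  have : ∃ w ∈ s, tt w z ∉ V := by
    by_contra hcon
    push Not at hcon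
    exact hs (sum_map_mem _ _ fun w hw => V.add_mem _ _ V.one_mem (hcon w hw))
  obtain ⟨w, hws, hw⟩ := this
  have hw0 : w ≠ 0 := by
    rintro rfl
    apply hw
    simp [tt]
  obtain ⟨g, e, hg, he, h1, h2⟩ := hV.decomp hw s
  refine ⟨w, hw0, hws, g, e, hg, he, ?_, ?_⟩
  · have h3 : tt w z * (z - algebraMap ℂ K w) = algebraMap ℂ K w := by
      rw [tt, div_mul_cancel₀ _ (hz.sub_ne_zero w)]
    rw [h1]
    linear_combination (s.count w : K) * h3
  · rw [h1, h2]; ring

end Pool.Agent.Lib.MP_6db618_an
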