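import Mathlib
import Pool.Agent.Lib.MP_6db618_an.Core

set_option autoImplicit false

namespace Pool.Agent.Lib.MP_6db618_an

variable {K : Type} [Field K] [Algebra ℂ K]

/-- The valuation estimate at a place over `a = ∞` when the first polynomial has simple
non-zero roots. -/
theorem HasConst.psi_mem {V : ValuationSubring K} (hV : HasConst V) {s s' t t' : Multiset ℂ}
    (hs : ∀ w, w ≠ 0 → s.count w ≤ 1) (hs' : ∀ w, w ≠ 0 → s'.count w ≤ 1)
    {a x x' y y' : K} (hx : NC x) (hx' : NC x') (hy : NC y) (hy' : NC y')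
    (h1 : HH s x = a) (h1' : HH s' x' = a) (h2 : HH t y = a) (h2' : HH t' y' = a)
    (hrel : x * x' = y * y') :
    Chi s x + Chi s' x' - Chi t y - Chi t' y' ∈ V := by
  by_cases ha : a ∈ V
  · exact V.toSubring.sub_mem (V.toSubring.sub_mem (V.add_mem _ _ (hV.Chi_mem (h1 ▸ ha))
      (hV.Chi_mem (h1' ▸ ha))) (hV.Chi_mem (h2 ▸ ha))) (hV.Chi_mem (h2' ▸ ha))
  have ha0 : a ≠ 0 := by
    rintro rfl
    exact ha V.zero_mem
  obtain ⟨τ, hτ, hτa⟩ : ∃ τ : K, τ ∈ V ∧ a * τ = 1 :=
    ⟨a⁻¹, (V.mem_or_inv_mem a).resolve_left ha, mul_inv_cancel₀ ha0⟩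
  obtain ⟨w1, hw1, hm1, g1, e1, hg1, he1, hA1, hB1⟩ := hV.expand hx (s := s) (h1 ▸ ha)
  obtain ⟨w2, hw2, hm2, g2, e2, hg2, he2, hA2, hB2⟩ := hV.expand hx' (s := s') (h1' ▸ ha)
  obtain ⟨w3, hw3, hm3, g3, e3, hg3, he3, hA3, hB3⟩ := hV.expand hy (s := t) (h2 ▸ ha)
  obtain ⟨w4, hw4, hm4, g4, e4, hg4, he4, hA4, hB4⟩ := hV.expand hy' (s := t') (h2' ▸ ha)
  rw [h1] at hA1 hB1
  rw [h1'] at hA2 hB2
  rw [h2] at hA3 hB3
  rw [h2'] at hA4 hB4
  have c1 : s.count w1 = 1 := le_antisymm (hs _ hw1) (Multiset.one_le_count_iff_mem.mpr hm1)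
  have c2 : s'.count w2 = 1 := le_antisymm (hs' _ hw2) (Multiset.one_le_count_iff_mem.mpr hm2)
  have c3 : 1 ≤ t.count w3 := Multiset.one_le_count_iff_mem.mpr hm3
  have c4 : 1 ≤ t'.count w4 := Multiset.one_le_count_iff_mem.mpr hm4
  rw [c1, Nat.cast_one] at hA1 hB1
  rw [c2, Nat.cast_one] at hA2 hB2
  generalize t.count w3 = m3 at *
  generalize t'.count w4 = m4 at *
  have hm3V := hV.natCast_mem m3
  have hm4V := hV.natCast_mem m4
  have hW1 := hV (w1 * w2)
  have hW2 := hV (w3 * w4)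
  have key : algebraMap ℂ K (w1 * w2) * ((a - g1) * (a - g2) * (a - g3 - m3) * (a - g4 - m4)) =
      algebraMap ℂ K (w3 * w4) * ((a - g3) * (a - g4) * (a - g1 - 1) * (a - g2 - 1)) := by
    rw [map_mul, map_mul]
    have k1 : algebraMap ℂ K w1 * (a - g1) * (algebraMap ℂ K w2 * (a - g2)) =
        x * x' * ((a - g1 - 1) * (a - g2 - 1)) := by rw [← hA1, ← hA2]; ring
    have k2 : algebraMap ℂ K w3 * (a - g3) * (algebraMap ℂ K w4 * (a - g4)) =
        x * x' * ((a - g3 - m3) * (a - g4 - m4)) := by rw [← hA3, ← hA4, hrel]; ring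
    linear_combination ((a - g3 - m3) * (a - g4 - m4)) * k1 - ((a - g1 - 1) * (a - g2 - 1)) * k2
  -- normalised factors
  have fac : ∀ α β γ δ : K, (a - α) * (a - β) * (a - γ) * (a - δ) * τ ^ 3 =
      a - (α + β + γ + δ) + τ * ((α * β + α * γ + α * δ + β * γ + β * δ + γ * δ)
        - τ * (α * β * γ + α * β * δ + α * γ * δ + β * γ * δ) + τ ^ 2 * (α * β * γ * δ)) := by
    intro α β γ δ
    have hτ' : τ = a⁻¹ := (inv_eq_of_mul_eq_one_right hτa).symm
    subst hτ'
    field_simp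
    ring
  have f1 := fac g1 g2 (g3 + m3) (g4 + m4)
  have f2 := fac g3 g4 (g1 + 1) (g2 + 1)
  have hW : w1 * w2 - w3 * w4 = 0 := by
    refine hV.const_eq_zero ha (b := algebraMap ℂ K (w1 * w2) *
      (a - (a - g1) * (a - g2) * (a - (g3 + m3)) * (a - (g4 + m4)) * τ ^ 3) -
      algebraMap ℂ K (w3 * w4) *
      (a - (a - g3) * (a - g4) * (a - (g1 + 1)) * (a - (g2 + 1)) * τ ^ 3)) ?_ ?_
    · rw [f1, f2]
      have e1 : ∀ u v : K, a - (a - u + v) = u - v := fun u v => by ring
      rw [e1, e1]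
      change _ ∈ V.toSubring
      change _ ∈ V.toSubring at hg1 hg2 hg3 hg4 hτ hm3V hm4V hW1 hW2
      with_reducible repeat' first
        | assumption
        | exact Subring.one_mem _
        | apply Subring.sub_mem
        | apply Subring.add_mem
        | apply Subring.mul_mem
        | apply pow_mem
    · rw [map_sub]
      linear_combination τ ^ 3 * key
  have hW' : w3 * w4 = w1 * w2 := (sub_eq_zero.mp hW).symm
  rw [hW'] at key
  have key2 := mul_left_cancel₀ ((map_ne_zero _).mpr (mul_ne_zero hw1 hw2)) key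
  have key3 : (a - g1) * (a - g2) * (a - (g3 + m3)) * (a - (g4 + m4)) * τ ^ 3 =
      (a - g3) * (a - g4) * (a - (g1 + 1)) * (a - (g2 + 1)) * τ ^ 3 := by
    linear_combination τ ^ 3 * key2
  rw [f1, f2] at key3
  have hm : ((m3 : ℂ) + m4 - 2) = 0 := by
    refine hV.const_eq_zero ha (b :=
      ((g1 * g2 + g1 * (g3 + m3) + g1 * (g4 + m4) + g2 * (g3 + m3) + g2 * (g4 + m4) +
        (g3 + m3) * (g4 + m4))
        - τ * (g1 * g2 * (g3 + m3) + g1 * g2 * (g4 + m4) + g1 * (g3 + m3) * (g4 + m4) +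
          g2 * (g3 + m3) * (g4 + m4)) + τ ^ 2 * (g1 * g2 * (g3 + m3) * (g4 + m4))) -
      ((g3 * g4 + g3 * (g1 + 1) + g3 * (g2 + 1) + g4 * (g1 + 1) + g4 * (g2 + 1) +
        (g1 + 1) * (g2 + 1))
        - τ * (g3 * g4 * (g1 + 1) + g3 * g4 * (g2 + 1) + g3 * (g1 + 1) * (g2 + 1) +
          g4 * (g1 + 1) * (g2 + 1)) + τ ^ 2 * (g3 * g4 * (g1 + 1) * (g2 + 1)))) ?_ ?_
    · change _ ∈ V.toSubring
      change _ ∈ V.toSubring at hg1 hg2 hg3 hg4 hτ hm3V hm4V hW1 hW2
      with_reducible repeat' first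
        | assumption
        | exact Subring.one_mem _
        | apply Subring.sub_mem
        | apply Subring.add_mem
        | apply Subring.mul_mem
        | apply pow_mem
    · simp only [map_sub, map_add, map_natCast, map_ofNat]
      linear_combination (-a) * key3 + (
        ((g1 * g2 + g1 * (g3 + m3) + g1 * (g4 + m4) + g2 * (g3 + m3) + g2 * (g4 + m4) +
        (g3 + m3) * (g4 + m4))
        - τ * (g1 * g2 * (g3 + m3) + g1 * g2 * (g4 + m4) + g1 * (g3 + m3) * (g4 + m4) +
          g2 * (g3 + m3) * (g4 + m4)) + τ ^ 2 * (g1 * g2 * (g3 + m3) * (g4 + m4))) -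
      ((g3 * g4 + g3 * (g1 + 1) + g3 * (g2 + 1) + g4 * (g1 + 1) + g4 * (g2 + 1) +
        (g1 + 1) * (g2 + 1))
        - τ * (g3 * g4 * (g1 + 1) + g3 * g4 * (g2 + 1) + g3 * (g1 + 1) * (g2 + 1) +
          g4 * (g1 + 1) * (g2 + 1)) + τ ^ 2 * (g3 * g4 * (g1 + 1) * (g2 + 1)))) * hτa
  have hm' : m3 + m4 = 2 := by
    have : ((m3 + m4 : ℕ) : ℂ) = ((2 : ℕ) : ℂ) := by push_cast; linear_combination hm
    exact_mod_cast this
  obtain rfl : m3 = 1 := by omega
  obtain rfl : m4 = 1 := by omega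
  simp only [Nat.cast_one, one_mul] at hB1 hB2 hB3 hB4 key3
  have key4 : a * (g1 + g2 - g3 - g4) =
      ((g1 * g2 * (g3 + 1) + g1 * g2 * (g4 + 1) + g1 * (g3 + 1) * (g4 + 1) +
          g2 * (g3 + 1) * (g4 + 1)) - τ * (g1 * g2 * (g3 + 1) * (g4 + 1))) -
      ((g3 * g4 * (g1 + 1) + g3 * g4 * (g2 + 1) + g3 * (g1 + 1) * (g2 + 1) +
          g4 * (g1 + 1) * (g2 + 1)) - τ * (g3 * g4 * (g1 + 1) * (g2 + 1))) := by
    have hτ' : τ = a⁻¹ := (inv_eq_of_mul_eq_one_right hτa).symm
    subst hτ'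
    field_simp
    field_simp at key3
    linear_combination key3
  have fin : Chi s x + Chi s' x' - Chi t y - Chi t' y' =
      2 * (a * (g1 + g2 - g3 - g4)) + (e1 + e2 - e3 - e4) -
        (g1 * (g1 + 1) + g2 * (g2 + 1) - g3 * (g3 + 1) - g4 * (g4 + 1)) := by
    rw [hB1, hB2, hB3, hB4]; ring
  rw [fin, key4]
  have h2V : (2 : K) ∈ V := by exact_mod_cast hV.natCast_mem 2
  change _ ∈ V.toSubring
  change _ ∈ V.toSubring at hg1 hg2 hg3 hg4 hτ he1 he2 he3 he4 h2V
  with_reducible repeat' first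
    | assumption
    | exact Subring.one_mem _
    | apply Subring.sub_mem
    | apply Subring.add_mem
    | apply Subring.mul_mem

theorem deriv_tt (D : Derivation ℂ K K) {z : K} (hz : NC z) (w : ℂ) :
    D (tt w z) = -(tt w z * (1 + tt w z)) * (D z / z) := by
  have h0 := hz.ne_zero
  have h1 := hz.sub_ne_zero w
  have h3 : tt w z * (z - algebraMap ℂ K w) = algebraMap ℂ K w := by
    rw [tt, div_mul_cancel₀ _ h1]
  have h4 := congrArg D h3
  rw [Derivation.leibniz, map_sub, D.map_algebraMap, sub_zero, smul_eq_mul, smul_eq_mul] at h4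
  have h5 : D (tt w z) = -(tt w z * D z) / (z - algebraMap ℂ K w) := by
    field_simp
    linear_combination h4
  rw [h5, tt]
  field_simp
  ring

theorem deriv_HH (D : Derivation ℂ K K) {z : K} (hz : NC z) (s : Multiset ℂ) :
    D (HH s z) = Chi s z * (D z / z) := by
  induction s using Multiset.induction_on with
  | empty => simp [HH, Chi]
  | cons w s ih =>
    have e1 : HH (w ::ₘ s) z = 1 + tt w z + HH s z := by simp [HH]
    have e2 : Chi (w ::ₘ s) z = -(tt w z * (1 + tt w z)) + Chi s z := by simp [Chi]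
    rw [e1, e2, map_add, map_add, ih, deriv_tt D hz, D.map_one_eq_zero]
    ring

theorem deriv_mul_div (D : Derivation ℂ K K) {x y : K} (hx : x ≠ 0) (hy : y ≠ 0) :
    D (x * y) / (x * y) = D x / x + D y / y := by
  rw [Derivation.leibniz, smul_eq_mul, smul_eq_mul]
  field_simp
  ring

theorem exists_const_of_Chi_eq {s t : Multiset ℂ} {x y : K} (hx : NC x) (hy : NC y)
    (h : HH s x = HH t y) (hc : Chi s x = Chi t y) (h0 : Chi s x ≠ 0) :
    ∃ c : ℂ, x = algebraMap ℂ K c * y := by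
  by_contra hcon
  push Not at hcon
  have hu : NC (x / y) := fun c hc => hcon c (by rw [← hc, div_mul_cancel₀ _ hy.ne_zero])
  obtain ⟨D, hD⟩ := hu.exists_derivation
  have h1 := deriv_HH D hx s
  have h2 := deriv_HH D hy t
  rw [h, h2, hc] at h1
  have h3 : D y / y = D x / x := mul_left_cancel₀ (hc ▸ h0) h1
  have h4 := deriv_mul_div D hu.ne_zero hy.ne_zero
  rw [div_mul_cancel₀ _ hy.ne_zero, hD, h3] at h4
  have h5 : 1 / (x / y) = 0 := by linear_combination -h4
  exact (one_div_ne_zero hu.ne_zero) h5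

/-- If `Ψ` vanishes, one of the two ratios is constant. -/
theorem const_of_psi_eq_zero {s s' t t' : Multiset ℂ}
    {a x x' y y' : K} (hx : NC x) (hx' : NC x') (hy : NC y) (hy' : NC y') (ha : NC a)
    (hR : NC (x * x'))
    (h1 : HH s x = a) (h1' : HH s' x' = a) (h2 : HH t y = a) (h2' : HH t' y' = a)
    (hrel : x * x' = y * y') (hΨ : Chi s x + Chi s' x' - Chi t y - Chi t' y' = 0) :
    (∃ c : ℂ, x = algebraMap ℂ K c * y) ∨ (∃ c : ℂ, x = algebraMap ℂ K c * y') := by
  obtain ⟨D, hD⟩ := ha.exists_derivation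
  have e1 := deriv_HH D hx s
  have e2 := deriv_HH D hx' s'
  have e3 := deriv_HH D hy t
  have e4 := deriv_HH D hy' t'
  rw [h1, hD] at e1
  rw [h1', hD] at e2
  rw [h2, hD] at e3
  rw [h2', hD] at e4
  have e5 : D x / x + D x' / x' = D y / y + D y' / y' := by
    rw [← deriv_mul_div D hx.ne_zero hx'.ne_zero, ← deriv_mul_div D hy.ne_zero hy'.ne_zero, hrel]
  have n1 : Chi s x ≠ 0 := left_ne_zero_of_mul_eq_one e1.symm
  have n2 : Chi s' x' ≠ 0 := left_ne_zero_of_mul_eq_one e2.symm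
  have n3 : Chi t y ≠ 0 := left_ne_zero_of_mul_eq_one e3.symm
  have n4 : Chi t' y' ≠ 0 := left_ne_zero_of_mul_eq_one e4.symm
  rw [← inv_eq_of_mul_eq_one_right e1.symm, ← inv_eq_of_mul_eq_one_right e2.symm,
    ← inv_eq_of_mul_eq_one_right e3.symm, ← inv_eq_of_mul_eq_one_right e4.symm] at e5
  have key : (Chi s x + Chi s' x') * ((Chi s x - Chi t y) * (Chi s x - Chi t' y')) = 0 := by
    generalize Chi s x = A at *
    generalize Chi s' x' = B at *
    generalize Chi t y = C at *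
    generalize Chi t' y' = E at *
    field_simp at e5
    have hB : B = C + E - A := by linear_combination hΨ
    subst hB
    linear_combination e5
  rcases mul_eq_zero.mp key with k | k
  · exfalso
    obtain ⟨D', hD'⟩ := hR.exists_derivation
    have f1 := deriv_HH D' hx s
    have f2 := deriv_HH D' hx' s'
    have f3 := deriv_mul_div D' hx.ne_zero hx'.ne_zero
    rw [hD'] at f3
    rw [h1] at f1
    rw [h1', f1] at f2
    have f4 : Chi s x * (D' x / x + D' x' / x') = 0 := by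
      linear_combination f2 + (D' x' / x') * k
    rw [← f3] at f4
    exact mul_ne_zero n1 (one_div_ne_zero hR.ne_zero) f4
  · rcases mul_eq_zero.mp k with k | k
    · exact Or.inl (exists_const_of_Chi_eq hx hy (h1.trans h2.symm) (sub_eq_zero.mp k) n1)
    · exact Or.inr (exists_const_of_Chi_eq hx hy' (h1.trans h2'.symm) (sub_eq_zero.mp k) n1)

theorem NC_tt {z : K} (hz : NC z) {w : ℂ} (hw : w ≠ 0) : NC (tt w z) := by
  intro c hc
  have h3 : tt w z * (z - algebraMap ℂ K w) = algebraMap ℂ K w := by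
    rw [tt, div_mul_cancel₀ _ (hz.sub_ne_zero w)]
  rw [hc] at h3
  have hc0 : c ≠ 0 := by
    rintro rfl
    rw [map_zero, zero_mul] at h3
    exact (map_ne_zero _).mpr hw h3.symm
  apply hz (w + w / c)
  have hc1 : algebraMap ℂ K c ≠ 0 := (map_ne_zero _).mpr hc0
  rw [map_add, map_div₀]
  field_simp
  linear_combination h3

/-- Uniqueness of the root multiset from the logarithmic derivative. -/
theorem eq_of_HH_eq {s t : Multiset ℂ} {z : K} (hz : NC z) (h : HH s z = HH t z) : s = t := by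
  classical
  have hne : ∀ w, w ≠ 0 → s.count w = t.count w := by
    intro w hw
    have hT : NC (tt w z) := NC_tt hz hw
    obtain ⟨V, hV, hTV⟩ := hT.exists_valuationSubring
    obtain ⟨g, -, hg, -, e1, -⟩ := hV.decomp hTV s
    obtain ⟨g', -, hg', -, e2, -⟩ := hV.decomp hTV t
    have : ((s.count w : ℂ) - t.count w) = 0 := by
      refine hV.const_eq_zero hTV (b := g' - g - s.count w + t.count w) ?_ ?_
      · exact V.add_mem _ _ (V.toSubring.sub_mem (V.toSubring.sub_mem hg' hg) (hV.natCast_mem _))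
          (hV.natCast_mem _)
      · rw [map_sub, map_natCast, map_natCast]
        linear_combination h - e1 + e2
    exact_mod_cast sub_eq_zero.mp this
  have hf : s.filter (· ≠ 0) = t.filter (· ≠ 0) := by
    ext w
    rw [Multiset.count_filter, Multiset.count_filter]
    split_ifs with hw
    · exact hne w hw
    · rfl
  have h0 : s.count 0 = t.count 0 := by
    have e1 := sum_map_split s (fun w => 1 + tt w z) 0
    have e2 := sum_map_split t (fun w => 1 + tt w z) 0
    rw [hf] at e1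
    have e3 : (s.count 0 : K) = t.count 0 := by
      have h' : (s.map fun w => 1 + tt w z).sum = (t.map fun w => 1 + tt w z).sum := h
      have ht0 : tt 0 z = 0 := by simp [tt]
      rw [ht0] at e1 e2
      linear_combination h' - e1 + e2
    have : CharZero K := charZero_of_injective_algebraMap (algebraMap ℂ K).injective
    exact_mod_cast e3
  ext w
  by_cases hw : w = 0
  · rw [hw, h0]
  · exact hne w hw

theorem HH_const_mul (s : Multiset ℂ) {c : ℂ} (hc : c ≠ 0) (z : K) :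
    HH s (algebraMap ℂ K c * z) = HH (s.map (· / c)) z := by
  unfold HH
  rw [Multiset.map_map]
  congr 1
  refine Multiset.map_congr rfl fun w _ => ?_
  have hc1 : algebraMap ℂ K c ≠ 0 := (map_ne_zero _).mpr hc
  simp only [Function.comp_apply, tt, map_div₀]
  congr 1
  rw [div_div, mul_sub, mul_div_cancel₀ _ hc1]

theorem HH_replicate_zero (n : ℕ) (z : K) : HH (Multiset.replicate n 0) z = n := by
  simp [HH, tt]

end Pool.Agent.Lib.MP_6db618_an
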