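import Mathlib
import Pool.Agent.Lib.MP_6db618_an.Psi

set_option autoImplicit false

namespace Pool.Agent.Lib.MP_6db618_an

variable {K : Type} [Field K] [Algebra ℂ K]

/-- Power sums of the inverses. -/
noncomputable def sg (j : ℕ) (s : Multiset ℂ) : ℂ := (s.map fun w => w⁻¹ ^ j).sum

/-- The polar part (with constant term) of `1 / HH s z` at `z = 0`. -/
noncomputable def EE (s : Multiset ℂ) (z : K) : K :=
  algebraMap ℂ K (-(sg 1 s)⁻¹) * z⁻¹ + algebraMap ℂ K (sg 2 s / sg 1 s ^ 2)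

theorem HasConst.const_eq_zero_of_lt {V : ValuationSubring K} (hV : HasConst V) {c : ℂ}
    (h : V.valuation (algebraMap ℂ K c) < 1) : c = 0 := by
  by_contra hc
  rw [hV.valuation_const hc] at h
  exact lt_irrefl _ h

theorem HasConst.valuation_sub_const {V : ValuationSubring K} (hV : HasConst V) {z : K}
    (hz : V.valuation z < 1) {w : ℂ} (hw : w ≠ 0) : V.valuation (z - algebraMap ℂ K w) = 1 := by
  have h3 := hV.valuation_const hw
  rw [Valuation.map_sub_eq_of_lt_right _ (by rw [h3]; exact hz), h3]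

theorem HasConst.HH_expand {V : ValuationSubring K} (hV : HasConst V) {z : K}
    (hz : V.valuation z < 1) {s : Multiset ℂ} (hs : ∀ w ∈ s, w ≠ 0) :
    ∃ ρ : K, ρ ∈ V ∧ HH s z =
      z * (-algebraMap ℂ K (sg 1 s) - algebraMap ℂ K (sg 2 s) * z + z ^ 2 * ρ) := by
  induction s using Multiset.induction_on with
  | empty => exact ⟨0, V.zero_mem, by simp [HH, sg]⟩
  | cons w s ih =>
    obtain ⟨ρ, hρ, h⟩ := ih fun w' hw' => hs w' (Multiset.mem_cons_of_mem hw')
    have hw : w ≠ 0 := hs w (Multiset.mem_cons_self _ _)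
    have h1 := hV.valuation_sub_const hz hw
    have h2 : z - algebraMap ℂ K w ≠ 0 := by
      intro h0
      rw [h0, map_zero] at h1
      exact zero_ne_one h1
    have h3 : algebraMap ℂ K w ≠ 0 := (map_ne_zero _).mpr hw
    refine ⟨ρ + algebraMap ℂ K (w⁻¹ ^ 2) * (z - algebraMap ℂ K w)⁻¹, ?_, ?_⟩
    · refine V.add_mem _ _ hρ (V.mul_mem _ _ (hV _) ?_)
      rw [← V.valuation_le_one_iff, map_inv₀, h1, inv_one]
    · have e1 : HH (w ::ₘ s) z = 1 + tt w z + HH s z := by simp [HH]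
      have e2 : ∀ j, sg j (w ::ₘ s) = w⁻¹ ^ j + sg j s := fun j => by simp [sg]
      rw [e1, e2, e2, h, tt]
      simp only [map_add, map_pow, map_inv₀]
      field_simp
      ring

theorem HasConst.valuation_HH_le {V : ValuationSubring K} (hV : HasConst V) {z : K}
    (hz : V.valuation z < 1) {s : Multiset ℂ} (hs : ∀ w ∈ s, w ≠ 0) :
    V.valuation (HH s z) ≤ V.valuation z ∧
      (sg 1 s = 0 → V.valuation (HH s z) ≤ V.valuation z * V.valuation z) := by
  obtain ⟨ρ, hρ, h⟩ := hV.HH_expand hz hs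
  have hzV : z ∈ V := (V.valuation_le_one_iff _).mp hz.le
  constructor
  · rw [h, map_mul]
    refine mul_le_of_le_one_right' ((V.valuation_le_one_iff _).mpr ?_)
    exact V.add_mem _ _ (V.toSubring.sub_mem (V.neg_mem _ (hV _)) (V.mul_mem _ _ (hV _) hzV))
      (V.mul_mem _ _ (pow_mem hzV 2) hρ)
  · intro h0
    have : HH s z = z * z * (-algebraMap ℂ K (sg 2 s) + z * ρ) := by
      rw [h, h0, map_zero]; ring
    rw [this, map_mul, map_mul]
    refine mul_le_of_le_one_right' ((V.valuation_le_one_iff _).mpr ?_)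
    exact V.add_mem _ _ (V.neg_mem _ (hV _)) (V.mul_mem _ _ hzV hρ)

theorem HasConst.EE_in {V : ValuationSubring K} (hV : HasConst V) {z : K} (hz0 : z ≠ 0)
    (hz : V.valuation z < 1) {s : Multiset ℂ} (hs : ∀ w ∈ s, w ≠ 0) (h1 : sg 1 s ≠ 0) :
    V.valuation z = V.valuation (HH s z) ∧
      ∃ ε : K, ε ∈ V ∧ EE s z = (HH s z)⁻¹ + HH s z * ε := by
  obtain ⟨ρ, hρ, h⟩ := hV.HH_expand hz hs
  have hzV : z ∈ V := (V.valuation_le_one_iff _).mp hz.le
  set D := -algebraMap ℂ K (sg 1 s) - algebraMap ℂ K (sg 2 s) * z + z ^ 2 * ρ with hD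
  have hDv : V.valuation D = 1 := by
    have : D = z * (z * ρ - algebraMap ℂ K (sg 2 s)) - algebraMap ℂ K (sg 1 s) := by
      rw [hD]; ring
    rw [this]
    refine hV.valuation_sub_const ?_ h1
    rw [map_mul]
    refine lt_of_le_of_lt (mul_le_of_le_one_right' ((V.valuation_le_one_iff _).mpr ?_)) hz
    exact V.toSubring.sub_mem (V.mul_mem _ _ hzV hρ) (hV _)
  have hD0 : D ≠ 0 := by
    intro h0
    rw [h0, map_zero] at hDv
    exact zero_ne_one hDv
  have hDi : D⁻¹ ∈ V := by rw [← V.valuation_le_one_iff, map_inv₀, hDv, inv_one]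
  refine ⟨by rw [h, map_mul, hDv, mul_one], (D⁻¹) ^ 2 * (-(ρ * algebraMap ℂ K (sg 1 s)⁻¹) -
    algebraMap ℂ K (sg 2 s ^ 2 / sg 1 s ^ 2) + z * ρ * algebraMap ℂ K (sg 2 s / sg 1 s ^ 2)),
    ?_, ?_⟩
  · exact V.mul_mem _ _ (pow_mem hDi 2) (V.add_mem _ _ (V.toSubring.sub_mem
      (V.neg_mem _ (V.mul_mem _ _ hρ (hV _))) (hV _)) (V.mul_mem _ _ (V.mul_mem _ _ hzV hρ) (hV _)))
  · have h3 : algebraMap ℂ K (sg 1 s) ≠ 0 := (map_ne_zero _).mpr h1
    rw [h, EE]
    simp only [map_neg, map_div₀, map_pow, map_inv₀]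
    field_simp
    rw [hD]
    ring

theorem HasConst.EE_out {V : ValuationSubring K} (hV : HasConst V) {z : K}
    (hz : ¬ V.valuation z < 1) (s : Multiset ℂ) : EE s z ∈ V := by
  refine V.add_mem _ _ (V.mul_mem _ _ (hV _) ?_) (hV _)
  rw [← V.valuation_le_one_iff, map_inv₀]
  exact inv_le_one_of_one_le₀ (not_lt.mp hz)

theorem HasConst.valuation_le_one_of_HH {V : ValuationSubring K} (hV : HasConst V) {z : K}
    {s : Multiset ℂ} (hs : s ≠ 0) (ha : V.valuation (HH s z) < 1) : V.valuation z ≤ 1 := by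
  by_contra hcon
  have hz : 1 < V.valuation z := not_le.mp hcon
  have key : ∀ s : Multiset ℂ, V.valuation (HH s z - s.card) < 1 := by
    intro s
    induction s using Multiset.induction_on with
    | empty => simp [HH]
    | cons w s ih =>
      have e1 : HH (w ::ₘ s) z - (w ::ₘ s).card = tt w z + (HH s z - s.card) := by
        simp only [HH, Multiset.map_cons, Multiset.sum_cons, Multiset.card_cons]
        push_cast
        ring
      rw [e1]
      refine Valuation.map_add_lt _ ?_ ih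
      have h1 : V.valuation (algebraMap ℂ K w) ≤ 1 := (V.valuation_le_one_iff _).mpr (hV _)
      rw [tt, map_div₀, Valuation.map_sub_eq_of_lt_left _ (lt_of_le_of_lt h1 hz),
        div_lt_one₀ (lt_trans zero_lt_one hz)]
      exact lt_of_le_of_lt h1 hz
  have h2 : V.valuation (algebraMap ℂ K (s.card : ℂ)) < 1 := by
    have : algebraMap ℂ K (s.card : ℂ) = HH s z - (HH s z - s.card) := by
      rw [map_natCast]; ring
    rw [this]
    exact Valuation.map_sub_lt _ ha (key s)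
  have h3 := hV.const_eq_zero_of_lt h2
  exact hs (Multiset.card_eq_zero.mp (by exact_mod_cast h3))

theorem ne_zero_of_sg {s : Multiset ℂ} (h : sg 1 s ≠ 0) : s ≠ 0 := by
  rintro rfl
  exact h (by simp [sg])

/-- The two possible behaviours at a place over `a = 0`. -/
theorem HasConst.EE_cases {V : ValuationSubring K} (hV : HasConst V) {z a : K} (hz0 : z ≠ 0)
    {s : Multiset ℂ} (hs : ∀ w ∈ s, w ≠ 0) (h1 : sg 1 s ≠ 0) (h : HH s z = a)
    (ha : V.valuation a < 1) :
    (V.valuation z = V.valuation a ∧ ∃ ε : K, ε ∈ V ∧ EE s z = a⁻¹ + a * ε) ∨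
      (V.valuation z = 1 ∧ EE s z ∈ V) := by
  by_cases hz : V.valuation z < 1
  · exact Or.inl (h ▸ hV.EE_in hz0 hz hs h1)
  · exact Or.inr ⟨le_antisymm (hV.valuation_le_one_of_HH (ne_zero_of_sg h1) (h ▸ ha))
      (not_lt.mp hz), hV.EE_out hz s⟩

theorem HasConst.EE_mem_of_not_lt {V : ValuationSubring K} (hV : HasConst V) {z a : K}
    {s : Multiset ℂ} (hs : ∀ w ∈ s, w ≠ 0) (h : HH s z = a)
    (ha : ¬ V.valuation a < 1) : EE s z ∈ V :=
  hV.EE_out (fun hz => ha (lt_of_le_of_lt (h ▸ (hV.valuation_HH_le hz hs).1) hz)) s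

theorem coreA {V0 : ValuationSubring K} (hV0 : HasConst V0) {s s' t t' : Multiset ℂ}
    (hs : ∀ w ∈ s, w ≠ 0) (hs' : ∀ w ∈ s', w ≠ 0) (ht : ∀ w ∈ t, w ≠ 0) (ht' : ∀ w ∈ t', w ≠ 0)
    (g1 : sg 1 s ≠ 0) (g2 : sg 1 s' ≠ 0)
    {a x x' y y' : K} (hx : x ≠ 0) (hx' : x' ≠ 0) (hy : y ≠ 0) (hy' : y' ≠ 0)
    (vx : V0.valuation x < 1) (vx' : V0.valuation x' < 1) (vy : V0.valuation y < 1)
    (vy' : V0.valuation y' < 1)
    (h1 : HH s x = a) (h1' : HH s' x' = a) (h2 : HH t y = a) (h2' : HH t' y' = a)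
    (hrel : x * x' = y * y') :
    (∃ c : ℂ, x = algebraMap ℂ K c * y) ∨ (∃ c : ℂ, x = algebraMap ℂ K c * y') := by
  obtain ⟨u1, ε1, hε1, e1⟩ := hV0.EE_in hx vx hs g1
  obtain ⟨u2, ε2, hε2, e2⟩ := hV0.EE_in hx' vx' hs' g2
  rw [h1] at u1 e1
  rw [h1'] at u2 e2
  have va : V0.valuation a < 1 := u1 ▸ vx
  have va0 : V0.valuation a ≠ 0 := by rw [← u1]; exact (map_ne_zero _).mpr hx
  have ha0 : a ≠ 0 := fun h => va0 (by rw [h, map_zero])
  have vrel : V0.valuation a * V0.valuation a = V0.valuation y * V0.valuation y' := by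
    rw [← map_mul V0.valuation y, ← hrel, map_mul, u1, u2]
  have aux : ∀ {t t' : Multiset ℂ} {y y' : K}, (∀ w ∈ t, w ≠ 0) → (∀ w ∈ t', w ≠ 0) → y ≠ 0 →
      V0.valuation y < 1 → V0.valuation y' < 1 → HH t y = a → HH t' y' = a →
      V0.valuation a * V0.valuation a = V0.valuation y * V0.valuation y' → sg 1 t ≠ 0 := by
    intro t t' y y' ht ht' hy vy vy' h2 h2' vrel h0
    have k1 := (hV0.valuation_HH_le vy ht).2 h0
    have k2 := (hV0.valuation_HH_le vy' ht').1
    rw [h2] at k1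
    rw [h2'] at k2
    have vy0 : 0 < V0.valuation y := zero_lt_iff.mpr ((map_ne_zero _).mpr hy)
    have k3 : V0.valuation y * V0.valuation a ≤ V0.valuation a * V0.valuation a := by
      rw [vrel]; gcongr
    have k4 : V0.valuation y ≤ V0.valuation a :=
      le_of_mul_le_mul_right k3 (zero_lt_iff.mpr va0)
    have k5 : V0.valuation y * V0.valuation y < V0.valuation y * 1 := by gcongr
    rw [mul_one] at k5
    exact lt_irrefl _ (lt_of_le_of_lt (k4.trans k1) k5)
  have g3 : sg 1 t ≠ 0 := aux ht ht' hy vy vy' h2 h2' vrel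
  have g4 : sg 1 t' ≠ 0 := aux ht' ht hy' vy' vy h2' h2 (vrel.trans (mul_comm _ _))
  obtain ⟨-, ε3, hε3, e3⟩ := hV0.EE_in hy vy ht g3
  obtain ⟨-, ε4, hε4, e4⟩ := hV0.EE_in hy' vy' ht' g4
  rw [h2] at e3
  rw [h2'] at e4
  have small : ∀ {b : K} {c : ℂ}, b ∈ V0 → algebraMap ℂ K c = a * b → c = 0 := by
    intro b c hb h
    refine hV0.const_eq_zero_of_lt ?_
    rw [h, map_mul]
    exact lt_of_le_of_lt (mul_le_of_le_one_right' ((V0.valuation_le_one_iff _).mpr hb)) va
  -- the patterns at an arbitrary place over `a = 0`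
  have pat : ∀ V : ValuationSubring K, HasConst V → V.valuation a < 1 →
      (EE s x ∈ V ∧ EE s' x' ∈ V ∧ EE t y ∈ V ∧ EE t' y' ∈ V) ∨
      (∃ ε1 ε2 ε3 ε4 : K, ε1 ∈ V ∧ ε2 ∈ V ∧ ε3 ∈ V ∧ ε4 ∈ V ∧ EE s x = a⁻¹ + a * ε1 ∧
        EE s' x' = a⁻¹ + a * ε2 ∧ EE t y = a⁻¹ + a * ε3 ∧ EE t' y' = a⁻¹ + a * ε4) ∨
      (∃ ε1 ε2 : K, ε1 ∈ V ∧ ε2 ∈ V ∧ EE s x = a⁻¹ + a * ε1 ∧ EE t y = a⁻¹ + a * ε2 ∧
        EE s' x' ∈ V ∧ EE t' y' ∈ V) ∨
      (∃ ε1 ε2 : K, ε1 ∈ V ∧ ε2 ∈ V ∧ EE s x = a⁻¹ + a * ε1 ∧ EE t' y' = a⁻¹ + a * ε2 ∧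
        EE s' x' ∈ V ∧ EE t y ∈ V) ∨
      (∃ ε1 ε2 : K, ε1 ∈ V ∧ ε2 ∈ V ∧ EE s' x' = a⁻¹ + a * ε1 ∧ EE t y = a⁻¹ + a * ε2 ∧
        EE s x ∈ V ∧ EE t' y' ∈ V) ∨
      (∃ ε1 ε2 : K, ε1 ∈ V ∧ ε2 ∈ V ∧ EE s' x' = a⁻¹ + a * ε1 ∧ EE t' y' = a⁻¹ + a * ε2 ∧
        EE s x ∈ V ∧ EE t y ∈ V) := by
    intro V hV va
    have va0 : V.valuation a ≠ 0 := (map_ne_zero _).mpr ha0
    have vrel : V.valuation x * V.valuation x' = V.valuation y * V.valuation y' := by
      rw [← map_mul, ← map_mul, hrel]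
    have n1 : V.valuation a ≠ 1 := va.ne
    have n2 : V.valuation a * V.valuation a ≠ V.valuation a := fun h =>
      n1 (mul_left_cancel₀ va0 (h.trans (mul_one _).symm))
    have n3 : V.valuation a * V.valuation a ≠ 1 :=
      (lt_of_le_of_lt (mul_le_of_le_one_right' va.le) va).ne
    rcases hV.EE_cases hx hs g1 h1 va with ⟨p1, ε1, q1, r1⟩ | ⟨p1, q1⟩ <;>
    rcases hV.EE_cases hx' hs' g2 h1' va with ⟨p2, ε2, q2, r2⟩ | ⟨p2, q2⟩ <;>
    rcases hV.EE_cases hy ht g3 h2 va with ⟨p3, ε3, q3, r3⟩ | ⟨p3, q3⟩ <;>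
    rcases hV.EE_cases hy' ht' g4 h2' va with ⟨p4, ε4, q4, r4⟩ | ⟨p4, q4⟩ <;>
    rw [p1, p2, p3, p4] at vrel <;>
    simp only [mul_one, one_mul] at vrel
    · exact Or.inr (Or.inl ⟨_, _, _, _, q1, q2, q3, q4, r1, r2, r3, r4⟩)
    · exact absurd vrel n2
    · exact absurd vrel n2
    · exact absurd vrel n3
    · exact absurd vrel.symm n2
    · exact Or.inr (Or.inr (Or.inl ⟨_, _, q1, q3, r1, r3, q2, q4⟩))
    · exact Or.inr (Or.inr (Or.inr (Or.inl ⟨_, _, q1, q4, r1, r4, q2, q3⟩)))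
    · exact absurd vrel n1
    · exact absurd vrel.symm n2
    · exact Or.inr (Or.inr (Or.inr (Or.inr (Or.inl ⟨_, _, q2, q3, r2, r3, q1, q4⟩))))
    · exact Or.inr (Or.inr (Or.inr (Or.inr (Or.inr ⟨_, _, q2, q4, r2, r4, q1, q3⟩))))
    · exact absurd vrel n1
    · exact absurd vrel.symm n3
    · exact absurd vrel.symm n1
    · exact absurd vrel.symm n1
    · exact Or.inl ⟨q1, q2, q3, q4⟩
  have hS : EE s x + EE s' x' - EE t y - EE t' y' = 0 := by
    have hN : ¬ NC (EE s x + EE s' x' - EE t y - EE t' y') := by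
      intro hN
      obtain ⟨V, hV, hVn⟩ := hN.exists_valuationSubring
      apply hVn
      by_cases va : V.valuation a < 1
      · have haV : a ∈ V.toSubring := (V.valuation_le_one_iff _).mp va.le
        change _ ∈ V.toSubring
        rcases pat V hV va with ⟨q1, q2, q3, q4⟩ | ⟨ε1, ε2, ε3, ε4, q1, q2, q3, q4, r1, r2, r3, r4⟩ |
          ⟨ε1, ε2, q1, q2, r1, r2, q3, q4⟩ | ⟨ε1, ε2, q1, q2, r1, r2, q3, q4⟩ |
          ⟨ε1, ε2, q1, q2, r1, r2, q3, q4⟩ | ⟨ε1, ε2, q1, q2, r1, r2, q3, q4⟩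
        · exact sub_mem (sub_mem (add_mem q1 q2) q3) q4
        · have : EE s x + EE s' x' - EE t y - EE t' y' = a * (ε1 + ε2 - ε3 - ε4) := by
            rw [r1, r2, r3, r4]; ring
          rw [this]
          exact mul_mem haV (sub_mem (sub_mem (add_mem q1 q2) q3) q4)
        · have : EE s x + EE s' x' - EE t y - EE t' y' =
              a * (ε1 - ε2) + (EE s' x' - EE t' y') := by rw [r1, r2]; ring
          rw [this]
          exact add_mem (mul_mem haV (sub_mem q1 q2)) (sub_mem q3 q4)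
        · have : EE s x + EE s' x' - EE t y - EE t' y' =
              a * (ε1 - ε2) + (EE s' x' - EE t y) := by rw [r1, r2]; ring
          rw [this]
          exact add_mem (mul_mem haV (sub_mem q1 q2)) (sub_mem q3 q4)
        · have : EE s x + EE s' x' - EE t y - EE t' y' =
              a * (ε1 - ε2) + (EE s x - EE t' y') := by rw [r1, r2]; ring
          rw [this]
          exact add_mem (mul_mem haV (sub_mem q1 q2)) (sub_mem q3 q4)
        · have : EE s x + EE s' x' - EE t y - EE t' y' =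
              a * (ε1 - ε2) + (EE s x - EE t y) := by rw [r1, r2]; ring
          rw [this]
          exact add_mem (mul_mem haV (sub_mem q1 q2)) (sub_mem q3 q4)
      · change _ ∈ V.toSubring
        exact sub_mem (sub_mem (add_mem (hV.EE_mem_of_not_lt hs h1 va)
          (hV.EE_mem_of_not_lt hs' h1' va)) (hV.EE_mem_of_not_lt ht h2 va))
          (hV.EE_mem_of_not_lt ht' h2' va)
    unfold NC at hN
    push Not at hN
    obtain ⟨c, hc⟩ := hN
    have : c = 0 := by
      refine small (b := ε1 + ε2 - ε3 - ε4)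
        (V0.toSubring.sub_mem (V0.toSubring.sub_mem (V0.add_mem _ _ hε1 hε2) hε3) hε4) ?_
      rw [← hc, e1, e2, e3, e4]; ring
    rw [hc, this, map_zero]
  have hP : (EE s x - EE t y) * (EE s x - EE t' y') = 0 := by
    have hai : a * a⁻¹ = 1 := mul_inv_cancel₀ ha0
    have hN : ¬ NC ((EE s x - EE t y) * (EE s x - EE t' y')) := by
      intro hN
      obtain ⟨V, hV, hVn⟩ := hN.exists_valuationSubring
      apply hVn
      by_cases va : V.valuation a < 1
      · have haV : a ∈ V.toSubring := (V.valuation_le_one_iff _).mp va.le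
        change _ ∈ V.toSubring
        rcases pat V hV va with ⟨q1, q2, q3, q4⟩ | ⟨ε1, ε2, ε3, ε4, q1, q2, q3, q4, r1, r2, r3, r4⟩ |
          ⟨ε1, ε2, q1, q2, r1, r2, q3, q4⟩ | ⟨ε1, ε2, q1, q2, r1, r2, q3, q4⟩ |
          ⟨ε1, ε2, q1, q2, r1, r2, q3, q4⟩ | ⟨ε1, ε2, q1, q2, r1, r2, q3, q4⟩
        · exact mul_mem (sub_mem q1 q3) (sub_mem q1 q4)
        · have : (EE s x - EE t y) * (EE s x - EE t' y') = a * (ε1 - ε3) * (a * (ε1 - ε4)) := by
            rw [r1, r3, r4]; ring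
          rw [this]
          exact mul_mem (mul_mem haV (sub_mem q1 q3)) (mul_mem haV (sub_mem q1 q4))
        · have : (EE s x - EE t y) * (EE s x - EE t' y') =
              (ε1 - ε2) * (1 + a * (a * ε1 - EE t' y')) := by
            rw [r1, r2]; linear_combination (ε1 - ε2) * hai
          rw [this]
          exact mul_mem (sub_mem q1 q2) (add_mem (one_mem _)
            (mul_mem haV (sub_mem (mul_mem haV q1) q4)))
        · have : (EE s x - EE t y) * (EE s x - EE t' y') =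
              (ε1 - ε2) * (1 + a * (a * ε1 - EE t y)) := by
            rw [r1, r2]; linear_combination (ε1 - ε2) * hai
          rw [this]
          exact mul_mem (sub_mem q1 q2) (add_mem (one_mem _)
            (mul_mem haV (sub_mem (mul_mem haV q1) q4)))
        · have k : EE s x - EE t' y' = a * (ε2 - ε1) := by
            linear_combination hS - r1 + r2
          have : (EE s x - EE t y) * (EE s x - EE t' y') =
              (ε2 - ε1) * (a * (EE s x - a * ε2) - 1) := by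
            rw [k, r2]; linear_combination (ε1 - ε2) * hai
          rw [this]
          exact mul_mem (sub_mem q2 q1) (sub_mem
            (mul_mem haV (sub_mem q3 (mul_mem haV q2))) (one_mem _))
        · have k : EE s x - EE t y = a * (ε2 - ε1) := by
            linear_combination hS - r1 + r2
          have : (EE s x - EE t y) * (EE s x - EE t' y') =
              (ε2 - ε1) * (a * (EE s x - a * ε2) - 1) := by
            rw [k, r2]; linear_combination (ε1 - ε2) * hai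
          rw [this]
          exact mul_mem (sub_mem q2 q1) (sub_mem
            (mul_mem haV (sub_mem q3 (mul_mem haV q2))) (one_mem _))
      · change _ ∈ V.toSubring
        exact mul_mem (sub_mem (hV.EE_mem_of_not_lt hs h1 va) (hV.EE_mem_of_not_lt ht h2 va))
          (sub_mem (hV.EE_mem_of_not_lt hs h1 va) (hV.EE_mem_of_not_lt ht' h2' va))
    unfold NC at hN
    push Not at hN
    obtain ⟨c, hc⟩ := hN
    have haV : a ∈ V0 := (V0.valuation_le_one_iff _).mp va.le
    have : c = 0 := by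
      refine small (b := (ε1 - ε3) * (a * (ε1 - ε4))) (V0.mul_mem _ _
        (V0.toSubring.sub_mem hε1 hε3) (V0.mul_mem _ _ haV (V0.toSubring.sub_mem hε1 hε4))) ?_
      rw [← hc, e1, e3, e4]; ring
    rw [hc, this, map_zero]
  -- the final computation, symmetric in `y`, `y'`
  have fin : ∀ {t t' : Multiset ℂ} {y y' ε3 ε4 : K}, y ≠ 0 → y' ≠ 0 → sg 1 t ≠ 0 → sg 1 t' ≠ 0 →
      ε3 ∈ V0 → ε4 ∈ V0 → EE t y = a⁻¹ + a * ε3 → EE t' y' = a⁻¹ + a * ε4 → x * x' = y * y' →
      EE s x = EE t y → EE s' x' = EE t' y' →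
      (∃ c : ℂ, x = algebraMap ℂ K c * y) ∨ (∃ c : ℂ, x = algebraMap ℂ K c * y') := by
    intro t t' y y' ε3 ε4 hy hy' g3 g4 hε3 hε4 e3 e4 hrel k1 k2
    have haV : a ∈ V0 := (V0.valuation_le_one_iff _).mp va.le
    unfold EE at e1 e2 e3 e4 k1 k2
    have n1 : -(sg 1 s)⁻¹ ≠ 0 := neg_ne_zero.mpr (inv_ne_zero g1)
    have n2 : -(sg 1 s')⁻¹ ≠ 0 := neg_ne_zero.mpr (inv_ne_zero g2)
    have n3 : -(sg 1 t)⁻¹ ≠ 0 := neg_ne_zero.mpr (inv_ne_zero g3)
    have n4 : -(sg 1 t')⁻¹ ≠ 0 := neg_ne_zero.mpr (inv_ne_zero g4)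
    generalize -(sg 1 s)⁻¹ = c1 at *
    generalize -(sg 1 s')⁻¹ = c2 at *
    generalize -(sg 1 t)⁻¹ = c3 at *
    generalize -(sg 1 t')⁻¹ = c4 at *
    generalize sg 2 s / sg 1 s ^ 2 = r1 at *
    generalize sg 2 s' / sg 1 s' ^ 2 = r2 at *
    generalize sg 2 t / sg 1 t ^ 2 = r3 at *
    generalize sg 2 t' / sg 1 t' ^ 2 = r4 at *
    have hai : a * a⁻¹ = 1 := mul_inv_cancel₀ ha0
    have hrel' : x⁻¹ * x'⁻¹ = y⁻¹ * y'⁻¹ := by rw [← mul_inv, ← mul_inv, hrel]
    have f1 : a * (algebraMap ℂ K c1 * x⁻¹) = 1 + a * (a * ε1 - algebraMap ℂ K r1) := by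
      linear_combination a * e1 + hai
    have f2 : a * (algebraMap ℂ K c2 * x'⁻¹) = 1 + a * (a * ε2 - algebraMap ℂ K r2) := by
      linear_combination a * e2 + hai
    have f3 : a * (algebraMap ℂ K c3 * y⁻¹) = 1 + a * (a * ε3 - algebraMap ℂ K r3) := by
      linear_combination a * e3 + hai
    have f4 : a * (algebraMap ℂ K c4 * y'⁻¹) = 1 + a * (a * ε4 - algebraMap ℂ K r4) := by
      linear_combination a * e4 + hai
    have m1 : a * ε1 - algebraMap ℂ K r1 ∈ V0.toSubring := sub_mem (mul_mem haV hε1) (hV0 _)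
    have m2 : a * ε2 - algebraMap ℂ K r2 ∈ V0.toSubring := sub_mem (mul_mem haV hε2) (hV0 _)
    have m3 : a * ε3 - algebraMap ℂ K r3 ∈ V0.toSubring := sub_mem (mul_mem haV hε3) (hV0 _)
    have m4 : a * ε4 - algebraMap ℂ K r4 ∈ V0.toSubring := sub_mem (mul_mem haV hε4) (hV0 _)
    generalize a * ε1 - algebraMap ℂ K r1 = b1 at *
    generalize a * ε2 - algebraMap ℂ K r2 = b2 at *
    generalize a * ε3 - algebraMap ℂ K r3 = b3 at *
    generalize a * ε4 - algebraMap ℂ K r4 = b4 at *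
    have haV' : a ∈ V0.toSubring := haV
    have hc : c1 * c2 - c3 * c4 = 0 := by
      refine small (b := algebraMap ℂ K (c3 * c4) * (b1 + b2 + a * b1 * b2) -
        algebraMap ℂ K (c1 * c2) * (b3 + b4 + a * b3 * b4)) ?_ ?_
      · change _ ∈ V0.toSubring
        exact sub_mem (mul_mem (hV0 _) (add_mem (add_mem m1 m2) (mul_mem (mul_mem haV' m1) m2)))
          (mul_mem (hV0 _) (add_mem (add_mem m3 m4) (mul_mem (mul_mem haV' m3) m4)))
      · have k3 : algebraMap ℂ K (c3 * c4) * ((1 + a * b1) * (1 + a * b2)) =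
            algebraMap ℂ K (c1 * c2) * ((1 + a * b3) * (1 + a * b4)) := by
          rw [← f1, ← f2, ← f3, ← f4, map_mul, map_mul]
          linear_combination (a ^ 2 * algebraMap ℂ K c1 * algebraMap ℂ K c2 *
            algebraMap ℂ K c3 * algebraMap ℂ K c4) * hrel'
        rw [map_sub]
        linear_combination -k3
    have hc' : algebraMap ℂ K c1 * algebraMap ℂ K c2 = algebraMap ℂ K c3 * algebraMap ℂ K c4 := by
      rw [← map_mul, ← map_mul, sub_eq_zero.mp hc]
    have k4 : algebraMap ℂ K (r1 - r3) * (algebraMap ℂ K c2 * x'⁻¹) +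
        algebraMap ℂ K (r2 - r4) * (algebraMap ℂ K c1 * x⁻¹) +
        algebraMap ℂ K (r1 - r3) * algebraMap ℂ K (r2 - r4) = 0 := by
      have l1 : algebraMap ℂ K c3 * y⁻¹ = algebraMap ℂ K c1 * x⁻¹ + algebraMap ℂ K (r1 - r3) := by
        rw [map_sub]; linear_combination -k1
      have l2 : algebraMap ℂ K c4 * y'⁻¹ =
          algebraMap ℂ K c2 * x'⁻¹ + algebraMap ℂ K (r2 - r4) := by
        rw [map_sub]; linear_combination -k2
      have l3 : (algebraMap ℂ K c3 * y⁻¹) * (algebraMap ℂ K c4 * y'⁻¹) =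
          (algebraMap ℂ K c1 * x⁻¹) * (algebraMap ℂ K c2 * x'⁻¹) := by
        linear_combination (-(algebraMap ℂ K c3 * algebraMap ℂ K c4)) * hrel' -
          (x⁻¹ * x'⁻¹) * hc'
      rw [l1, l2] at l3
      linear_combination l3
    have N1 : algebraMap ℂ K c1 ≠ 0 := (map_ne_zero _).mpr n1
    have N2 : algebraMap ℂ K c2 ≠ 0 := (map_ne_zero _).mpr n2
    have N3 : algebraMap ℂ K c3 ≠ 0 := (map_ne_zero _).mpr n3
    by_cases hρ : r1 - r3 = 0
    · left
      refine ⟨c1 / c3, ?_⟩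
      rw [sub_eq_zero.mp hρ] at k1
      have k5 := add_right_cancel k1
      rw [map_div₀]
      field_simp
      field_simp at k5
      linear_combination -k5
    · right
      have hsum : (r1 - r3) + (r2 - r4) = 0 := by
        refine small (b := -(algebraMap ℂ K (r1 - r3) * b2 + algebraMap ℂ K (r2 - r4) * b1 +
          algebraMap ℂ K (r1 - r3) * algebraMap ℂ K (r2 - r4))) ?_ ?_
        · change _ ∈ V0.toSubring
          exact neg_mem (add_mem (add_mem (mul_mem (hV0 _) m2) (mul_mem (hV0 _) m1))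
            (mul_mem (hV0 _) (hV0 _)))
        · rw [map_add]
          linear_combination a * k4 - algebraMap ℂ K (r1 - r3) * f2 - algebraMap ℂ K (r2 - r4) * f1
      have hρ2 : r2 - r4 = -(r1 - r3) := by linear_combination hsum
      rw [hρ2, map_neg] at k4
      have N4 : algebraMap ℂ K (r1 - r3) ≠ 0 := (map_ne_zero _).mpr hρ
      have k6 : algebraMap ℂ K c2 * x'⁻¹ = algebraMap ℂ K c3 * y⁻¹ := by
        have k7 : algebraMap ℂ K (r1 - r3) * (algebraMap ℂ K c2 * x'⁻¹ -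
            algebraMap ℂ K c1 * x⁻¹ - algebraMap ℂ K (r1 - r3)) = 0 := by
          linear_combination k4
        have k8 := (mul_eq_zero.mp k7).resolve_left N4
        rw [map_sub] at k8
        linear_combination k8 + k1
      refine ⟨c3 / c2, ?_⟩
      rw [map_div₀]
      field_simp
      field_simp at k6
      refine mul_right_cancel₀ hx' ?_
      linear_combination (algebraMap ℂ K c2) * hrel + y' * k6
  rcases mul_eq_zero.mp hP with k | k
  · exact fin hy hy' g3 g4 hε3 hε4 e3 e4 hrel (sub_eq_zero.mp k) (by linear_combination hS - k)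
  · exact (fin hy' hy g4 g3 hε4 hε3 e4 e3 (hrel.trans (mul_comm _ _)) (sub_eq_zero.mp k)
      (by linear_combination hS - k)).symm

end Pool.Agent.Lib.MP_6db618_an
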