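import Mathlib
import Pool.Agent.Lib.MP_6db618_an.Core

set_option autoImplicit false

namespace Pool.Agent.Lib.MP_6db618_an

open Polynomial

/-- The maximum modulus of a polynomial on the circle of radius `r`. -/
noncomputable def MM (p : ℂ[X]) (r : ℝ) : ℝ :=
  sSup ((fun z => ‖p.eval z‖) '' Metric.sphere (0 : ℂ) r)

theorem le_MM (p : ℂ[X]) {r : ℝ} {z : ℂ} (hz : ‖z‖ = r) : ‖p.eval z‖ ≤ MM p r := by
  refine le_csSup ?_ ⟨z, by simpa using hz, rfl⟩
  exact ((isCompact_sphere (0 : ℂ) r).image p.continuous.norm).bddAbove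

theorem exists_MM (p : ℂ[X]) {r : ℝ} (hr : 0 ≤ r) : ∃ z : ℂ, ‖z‖ = r ∧ ‖p.eval z‖ = MM p r := by
  have hne : (Metric.sphere (0 : ℂ) r).Nonempty := NormedSpace.sphere_nonempty.mpr hr
  have := ((isCompact_sphere (0 : ℂ) r).image p.continuous.norm).sSup_mem (hne.image _)
  obtain ⟨z, hz, h⟩ := this
  exact ⟨z, by simpa using hz, h⟩

theorem le_MM_of_norm_le (p : ℂ[X]) {r : ℝ} (hr : 0 < r) {z : ℂ} (hz : ‖z‖ ≤ r) :
    ‖p.eval z‖ ≤ MM p r := by
  refine Complex.norm_le_of_forall_mem_frontier_norm_le (f := fun z => p.eval z)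
    (U := Metric.ball 0 r) Metric.isBounded_ball p.differentiable.diffContOnCl ?_ ?_
  · intro w hw
    rw [frontier_ball _ hr.ne'] at hw
    exact le_MM p (by simpa using hw)
  · rw [closure_ball _ hr.ne']
    simpa using hz

theorem monotone_MM (p : ℂ[X]) : Monotone fun t : ℝ => MM p (Real.exp t) := by
  intro t1 t2 h
  obtain ⟨z, hz, hz'⟩ := exists_MM p (Real.exp_pos t1).le
  change MM p _ ≤ MM p _
  rw [← hz']
  exact le_MM_of_norm_le p (Real.exp_pos t2) (hz ▸ Real.exp_le_exp.mpr h)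

theorem eq_zero_of_MM_eq_zero {p : ℂ[X]} {r : ℝ} (hr : 0 < r) (h : MM p r = 0) : p = 0 := by
  refine p.eq_zero_of_infinite_isRoot ?_
  refine infinite_of_mem_nhds (0 : ℂ) ?_
  filter_upwards [Metric.ball_mem_nhds (0 : ℂ) hr] with z hz
  have := le_MM_of_norm_le p hr (z := z) (le_of_lt (by simpa using hz))
  rw [h] at this
  exact norm_le_zero_iff.mp this

theorem MM_zero {r : ℝ} (hr : 0 ≤ r) : MM 0 r = 0 := by
  obtain ⟨z, -, h⟩ := exists_MM 0 hr
  simpa using h.symm

theorem HH_roots_eq {p : ℂ[X]} {z : ℂ} (hz : p.eval z ≠ 0) :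
    HH p.roots z = z * p.derivative.eval z / p.eval z := by
  rw [mul_div_assoc, (IsAlgClosed.splits p).eval_derivative_div_eval_of_ne_zero hz,
    ← Multiset.sum_map_mul_left, HH]
  congr 1
  refine Multiset.map_congr rfl fun w hw => ?_
  have : z - w ≠ 0 := by
    rw [sub_ne_zero]
    rintro rfl
    exact hz (isRoot_of_mem_roots hw)
  simp only [tt, Algebra.algebraMap_self, RingHom.id_apply]
  field_simp
  ring

theorem hasDerivAt_normSq (p : ℂ[X]) (z c : ℂ) :
    HasDerivAt (fun t : ℝ => ‖p.eval (z * Complex.exp (c * t))‖ ^ 2)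
      (2 * ((starRingEnd ℂ) (p.eval z) * (c * (z * p.derivative.eval z))).re) 0 := by
  have h1 : HasDerivAt (fun w : ℂ => z * Complex.exp (c * w)) (z * c) (0 : ℝ) := by
    have := (((hasDerivAt_id ((0 : ℝ) : ℂ)).const_mul c).cexp).const_mul z
    simpa using this
  have h2 := ((p.hasDerivAt _).comp ((0 : ℝ) : ℂ) h1).comp_ofReal
  have h3 := h2.norm_sq
  simp only [Function.comp_apply, Complex.ofReal_zero, mul_zero, Complex.exp_zero, mul_one,
    Complex.inner] at h3
  convert h3 using 3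
  ring

theorem HH_at_max {p : ℂ[X]} {z : ℂ} {t d : ℝ} (hz : ‖z‖ = Real.exp t)
    (hmax : ‖p.eval z‖ = MM p (Real.exp t)) (h0 : p.eval z ≠ 0)
    (hd : HasDerivAt (fun t : ℝ => MM p (Real.exp t)) d t) :
    HH p.roots z = ((d / MM p (Real.exp t) : ℝ) : ℂ) := by
  have h1 := hasDerivAt_normSq p z Complex.I
  have h1max : IsLocalMax (fun s : ℝ => ‖p.eval (z * Complex.exp (Complex.I * s))‖ ^ 2) 0 := by
    refine Filter.Eventually.of_forall fun s => ?_
    simp only [Complex.ofReal_zero, mul_zero, Complex.exp_zero, mul_one]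
    rw [hmax]
    refine pow_le_pow_left₀ (norm_nonneg _) (le_MM p ?_) 2
    rw [norm_mul, mul_comm Complex.I, Complex.norm_exp_ofReal_mul_I, mul_one, hz]
  have e1 := h1max.hasDerivAt_eq_zero h1
  have h2 := hasDerivAt_normSq p z 1
  have h3 : HasDerivAt (fun s : ℝ => MM p (Real.exp (t + s)) ^ 2)
      (2 * MM p (Real.exp t) * d) 0 := by
    have hd' : HasDerivAt (fun t : ℝ => MM p (Real.exp t)) d (t + 0) := by simpa using hd
    have := (hd'.comp_const_add t 0).fun_pow 2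
    simpa using this
  have h2max : IsLocalMax (fun s : ℝ => ‖p.eval (z * Complex.exp (1 * s))‖ ^ 2 -
      MM p (Real.exp (t + s)) ^ 2) 0 := by
    refine Filter.Eventually.of_forall fun s => ?_
    simp only [Complex.ofReal_zero, mul_zero, Complex.exp_zero, mul_one, add_zero]
    rw [hmax, sub_self, sub_nonpos]
    refine pow_le_pow_left₀ (norm_nonneg _) (le_MM p ?_) 2
    rw [norm_mul, one_mul, Complex.norm_exp_ofReal, hz, Real.exp_add]
  have e2 := h2max.hasDerivAt_eq_zero (h2.sub h3)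
  have hM : MM p (Real.exp t) ≠ 0 := by rw [← hmax]; exact norm_ne_zero_iff.mpr h0
  have e3 : (starRingEnd ℂ) (p.eval z) * (z * p.derivative.eval z) =
      ((MM p (Real.exp t) * d : ℝ) : ℂ) := by
    apply Complex.ext
    · rw [Complex.ofReal_re]
      rw [one_mul] at e2
      linarith
    · rw [Complex.ofReal_im]
      have : ((starRingEnd ℂ) (p.eval z) * (Complex.I * (z * p.derivative.eval z))).re =
          -((starRingEnd ℂ) (p.eval z) * (z * p.derivative.eval z)).im := by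
        rw [mul_left_comm, Complex.I_mul_re]
      rw [this] at e1
      linarith
  have e4 : (starRingEnd ℂ) (p.eval z) * p.eval z = ((MM p (Real.exp t) ^ 2 : ℝ) : ℂ) := by
    rw [← hmax, Complex.conj_mul']
    push_cast
    ring
  have hc : (starRingEnd ℂ) (p.eval z) ≠ 0 := by simpa using h0
  rw [HH_roots_eq h0, ← mul_div_mul_left _ _ hc, e3, e4]
  have hM' : ((MM p (Real.exp t) : ℝ) : ℂ) ≠ 0 := by exact_mod_cast hM
  push_cast
  field_simp

/-- A pair of maximum points at a radius where the common maximum modulus is differentiable. -/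
structure GoodPair (p q : ℂ[X]) (x y : ℂ) : Prop where
  norm_eq : ‖x‖ = ‖y‖
  ne_zero : p.eval x ≠ 0
  max_p : ‖p.eval x‖ = MM p ‖x‖
  max_q : ‖q.eval y‖ = MM q ‖y‖
  val_eq : ‖p.eval x‖ = ‖q.eval y‖
  HH_eq : HH p.roots x = HH q.roots y
  real : (starRingEnd ℂ) (HH p.roots x) = HH p.roots x

theorem exists_goodPair {p q : ℂ[X]} (hp : p ≠ 0) {α β : ℝ} (hαβ : α < β)
    (h : ∀ t ∈ Set.Ioo α β, MM p (Real.exp t) = MM q (Real.exp t)) :
    ∃ t ∈ Set.Ioo α β, ∃ x y : ℂ, ‖x‖ = Real.exp t ∧ GoodPair p q x y := by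
  have hdense := MeasureTheory.Measure.dense_of_ae (monotone_MM p).ae_differentiableAt
  obtain ⟨t, ht, hd⟩ := hdense.inter_open_nonempty (Set.Ioo α β) isOpen_Ioo
    (Set.nonempty_Ioo.mpr hαβ)
  have hd1 : HasDerivAt (fun t : ℝ => MM p (Real.exp t)) _ t :=
    DifferentiableAt.hasDerivAt hd
  have hev : (fun t : ℝ => MM q (Real.exp t)) =ᶠ[nhds t] fun t : ℝ => MM p (Real.exp t) := by
    filter_upwards [isOpen_Ioo.mem_nhds ht] with s hs using (h s hs).symm
  have hd2 := hd1.congr_of_eventuallyEq hev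
  obtain ⟨x, hx, hx'⟩ := exists_MM p (Real.exp_pos t).le
  obtain ⟨y, hy, hy'⟩ := exists_MM q (Real.exp_pos t).le
  have hM : MM p (Real.exp t) ≠ 0 := fun h0 => hp (eq_zero_of_MM_eq_zero (Real.exp_pos t) h0)
  have hx0 : p.eval x ≠ 0 := by rw [← norm_ne_zero_iff, hx']; exact hM
  have hy0 : q.eval y ≠ 0 := by rw [← norm_ne_zero_iff, hy', ← h t ht]; exact hM
  have e1 := HH_at_max hx hx' hx0 hd1
  have e2 := HH_at_max hy hy' hy0 hd2
  refine ⟨t, ht, x, y, hx, hx.trans hy.symm, hx0, hx ▸ hx', hy ▸ hy', ?_, ?_, ?_⟩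
  · rw [hx', hy', h t ht]
  · rw [e1, e2, h t ht]
  · rw [e1, Complex.conj_ofReal]

end Pool.Agent.Lib.MP_6db618_an
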