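import Mathlib
import Pool.Agent.Lib.MP_6db618_an.Psi
import Pool.Agent.Lib.MP_6db618_an.MaxPt

set_option autoImplicit false

namespace Pool.Agent.Lib.MP_6db618_an

open Polynomial Filter Topology

/-- An ultrapower of the complex numbers. -/
def UP : Type := Filter.Germ ((Filter.hyperfilter ℕ : Ultrafilter ℕ) : Filter ℕ) ℂ

noncomputable instance : Field UP :=
  inferInstanceAs (Field (Filter.Germ ((Filter.hyperfilter ℕ : Ultrafilter ℕ) : Filter ℕ) ℂ))

/-- The class of a sequence in the ultrapower. -/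
noncomputable def up : (ℕ → ℂ) →+* UP := Filter.Germ.coeRingHom _

noncomputable instance : Algebra ℂ UP := (up.comp (Pi.constRingHom ℕ ℂ)).toAlgebra

theorem algebraMap_UP (c : ℂ) : algebraMap ℂ UP c = up fun _ => c := rfl

theorem up_eq_iff {f g : ℕ → ℂ} :
    up f = up g ↔ ∀ᶠ n in ((Filter.hyperfilter ℕ : Ultrafilter ℕ) : Filter ℕ), f n = g n :=
  Filter.Germ.coe_eq

theorem up_div (f g : ℕ → ℂ) : up (fun n => f n / g n) = up f / up g := rfl

theorem up_tt (w : ℂ) (f : ℕ → ℂ) : up (fun n => tt w (f n)) = tt w (up f) := by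
  unfold tt
  rw [up_div, algebraMap_UP, ← map_sub]
  rfl

theorem up_HH (s : Multiset ℂ) (f : ℕ → ℂ) : up (fun n => HH s (f n)) = HH s (up f) := by
  induction s using Multiset.induction_on with
  | empty => simp only [HH, Multiset.map_zero, Multiset.sum_zero]; exact map_zero up
  | cons w s ih =>
    simp only [HH, Multiset.map_cons, Multiset.sum_cons] at ih ⊢
    rw [← ih, ← up_tt, ← map_one up, ← map_add, ← map_add]
    rfl

theorem up_Chi (s : Multiset ℂ) (f : ℕ → ℂ) : up (fun n => Chi s (f n)) = Chi s (up f) := by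
  induction s using Multiset.induction_on with
  | empty => simp only [Chi, Multiset.map_zero, Multiset.sum_zero]; exact map_zero up
  | cons w s ih =>
    simp only [Chi, Multiset.map_cons, Multiset.sum_cons] at ih ⊢
    rw [← ih, ← up_tt, ← map_one up, ← map_add, ← map_mul, ← map_neg, ← map_add]
    rfl

theorem const_eq_of_tendsto {f : ℕ → ℂ} {c l : ℂ} (h : up f = algebraMap ℂ UP c)
    (hf : Tendsto f atTop (𝓝 l)) : c = l := by
  rw [algebraMap_UP, up_eq_iff] at h
  have h1 : Tendsto f ((Filter.hyperfilter ℕ : Ultrafilter ℕ) : Filter ℕ) (𝓝 l) :=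
    hf.mono_left Nat.hyperfilter_le_atTop
  exact tendsto_nhds_unique ((tendsto_congr' h).mpr tendsto_const_nhds) h1

theorem NC_up {f : ℕ → ℂ} (h0 : ∀ n, f n ≠ 0) (hf : Tendsto f atTop (𝓝 0)) : NC (up f) := by
  intro c hc
  have := const_eq_of_tendsto hc hf
  subst this
  rw [algebraMap_UP, up_eq_iff] at hc
  obtain ⟨n, hn⟩ := hc.exists
  exact h0 n hn

theorem tendsto_Chi (s : Multiset ℂ) : Tendsto (fun z : ℂ => Chi s z) (𝓝 0) (𝓝 0) := by
  induction s using Multiset.induction_on with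
  | empty => simp [Chi]
  | cons w s ih =>
    simp only [Chi, Multiset.map_cons, Multiset.sum_cons] at ih ⊢
    have h1 : Tendsto (fun z : ℂ => -(tt w z * (1 + tt w z))) (𝓝 0) (𝓝 0) := by
      by_cases hw : w = 0
      · simp [hw, tt]
      · have h2 : ContinuousAt (fun z : ℂ => -(tt w z * (1 + tt w z))) 0 := by
          have h3 : ContinuousAt (fun z : ℂ => tt w z) 0 := by
            unfold tt
            exact continuousAt_const.div (continuousAt_id.sub continuousAt_const) (by simpa using hw)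
          exact (h3.mul (continuousAt_const.add h3)).neg
        have h4 : -(tt w (0 : ℂ) * (1 + tt w (0 : ℂ))) = 0 := by
          simp [tt, div_neg, div_self hw]
        have := h2.tendsto
        rwa [h4] at this
    simpa using h1.add ih

theorem HH_conj (s : Multiset ℂ) (z : ℂ) :
    HH (s.map (starRingEnd ℂ)) ((starRingEnd ℂ) z) = (starRingEnd ℂ) (HH s z) := by
  simp [HH, tt, map_multiset_sum, Multiset.map_map]

theorem prod_scale (s : Multiset ℂ) {c : ℂ} (hc : c ≠ 0) (z : ℂ) :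
    (s.map fun w => c * z - w).prod = c ^ s.card * ((s.map (· / c)).map fun w => z - w).prod := by
  induction s using Multiset.induction_on with
  | empty => simp
  | cons w s ih =>
    simp only [Multiset.map_cons, Multiset.prod_cons, Multiset.card_cons, ih]
    field_simp
    ring

theorem norm_eps {f g : ℂ → ℂ} {r M : ℝ} {ε c x y : ℂ} (hf : ∀ z, ‖z‖ = r → ‖f z‖ ≤ M)
    (hg : ∀ z, ‖z‖ = r → ‖g z‖ ≤ M) (hx : ‖x‖ = r) (hy : ‖y‖ = r) (fx : ‖f x‖ = M)
    (gy : ‖g y‖ = M) (hM : 0 < M) (hc : ‖c‖ = 1) (h : ∀ z, g z = ε * f (c * z)) : ‖ε‖ = 1 := by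
  have hc0 : c ≠ 0 := by rintro rfl; simp at hc
  have h1 : M ≤ ‖ε‖ * M := by
    calc M = ‖g y‖ := gy.symm
      _ = ‖ε‖ * ‖f (c * y)‖ := by rw [h, norm_mul]
      _ ≤ ‖ε‖ * M := by
        gcongr
        exact hf _ (by rw [norm_mul, hc, one_mul, hy])
  have h2 : ‖ε‖ * M ≤ M := by
    calc ‖ε‖ * M = ‖g (x / c)‖ := by rw [h, norm_mul, mul_div_cancel₀ _ hc0, fx]
      _ ≤ M := hg _ (by rw [norm_div, hc, div_one, hx])
  nlinarith

/-- Equivalence up to rotations and reflections. -/
def Equiv (p q : ℂ[X]) : Prop :=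
  ∃ ε η : ℂ, ‖ε‖ = 1 ∧ ‖η‖ = 1 ∧
    ((∀ z : ℂ, q.eval z = ε * p.eval (η * z)) ∨
      (∀ z : ℂ, q.eval z = ε * starRingEnd ℂ (p.eval (η * starRingEnd ℂ z))))

theorem GoodPair.equiv_of_roots {p q : ℂ[X]} {x y c : ℂ} (h : GoodPair p q x y) (hc : ‖c‖ = 1)
    (hr : q.roots = p.roots.map (· / c)) : Equiv p q := by
  have hc0 : c ≠ 0 := by rintro rfl; simp at hc
  have hp : p ≠ 0 := by rintro rfl; exact h.ne_zero (by simp)
  have hlc : p.leadingCoeff ≠ 0 := leadingCoeff_ne_zero.mpr hp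
  have key : ∀ z : ℂ, q.eval z =
      (q.leadingCoeff / (p.leadingCoeff * c ^ p.roots.card)) * p.eval (c * z) := by
    intro z
    rw [(IsAlgClosed.splits q).eval_eq_prod_roots, (IsAlgClosed.splits p).eval_eq_prod_roots,
      prod_scale _ hc0, hr]
    field_simp
  refine ⟨_, c, ?_, hc, Or.inl key⟩
  refine norm_eps (f := fun z => p.eval z) (g := fun z => q.eval z) (r := ‖x‖)
    (M := ‖p.eval x‖) ?_ ?_ rfl h.norm_eq.symm rfl h.val_eq.symm
    (norm_pos_iff.mpr h.ne_zero) hc key
  · intro z hz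
    rw [h.max_p]; exact le_MM p hz
  · intro z hz
    rw [h.val_eq, h.max_q]; exact le_MM q (hz.trans h.norm_eq)

theorem GoodPair.equiv_of_roots_conj {p q : ℂ[X]} {x y c : ℂ} (h : GoodPair p q x y)
    (hc : ‖c‖ = 1) (hr : q.roots.map (starRingEnd ℂ) = p.roots.map (· / c)) : Equiv p q := by
  have hc0 : c ≠ 0 := by rintro rfl; simp at hc
  have hp : p ≠ 0 := by rintro rfl; exact h.ne_zero (by simp)
  have hlc : p.leadingCoeff ≠ 0 := leadingCoeff_ne_zero.mpr hp
  have key : ∀ z : ℂ, starRingEnd ℂ (q.eval (starRingEnd ℂ z)) =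
      (starRingEnd ℂ q.leadingCoeff / (p.leadingCoeff * c ^ p.roots.card)) * p.eval (c * z) := by
    intro z
    rw [(IsAlgClosed.splits q).eval_eq_prod_roots, (IsAlgClosed.splits p).eval_eq_prod_roots,
      prod_scale _ hc0, ← hr, map_mul, map_multiset_prod, Multiset.map_map, Multiset.map_map]
    simp only [Function.comp_def, map_sub, Complex.conj_conj]
    field_simp
  have hn : ‖starRingEnd ℂ q.leadingCoeff / (p.leadingCoeff * c ^ p.roots.card)‖ = 1 := by
    refine norm_eps (f := fun z => p.eval z)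
      (g := fun z => starRingEnd ℂ (q.eval (starRingEnd ℂ z))) (r := ‖x‖)
      (M := ‖p.eval x‖) (y := starRingEnd ℂ y) ?_ ?_ rfl ?_ rfl ?_
      (norm_pos_iff.mpr h.ne_zero) hc key
    · intro z hz
      rw [h.max_p]; exact le_MM p hz
    · intro z hz
      rw [h.val_eq, h.max_q, Complex.norm_conj]
      exact le_MM q (by rw [Complex.norm_conj, hz, h.norm_eq])
    · rw [Complex.norm_conj, h.norm_eq]
    · simp only [Complex.conj_conj, Complex.norm_conj]
      exact h.val_eq.symm
  refine ⟨starRingEnd ℂ (starRingEnd ℂ q.leadingCoeff / (p.leadingCoeff * c ^ p.roots.card)), c,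
    by rw [Complex.norm_conj, hn], hc, Or.inr fun z => ?_⟩
  rw [← map_mul, ← key]
  simp

/-- The data attached to a sequence of good pairs, read in the ultrapower. -/
structure SeqData (p q : ℂ[X]) (x y : ℕ → ℂ) : Prop where
  good : ∀ n, GoodPair p q (x n) (y n)
  ne_zero : ∀ n, x n ≠ 0

namespace SeqData

variable {p q : ℂ[X]} {x y : ℕ → ℂ}

theorem y_ne_zero (h : SeqData p q x y) (n : ℕ) : y n ≠ 0 := by
  rw [← norm_ne_zero_iff, ← (h.good n).norm_eq, norm_ne_zero_iff]
  exact h.ne_zero n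

theorem HH_x' (h : SeqData p q x y) :
    HH (p.roots.map (starRingEnd ℂ)) (up fun n => starRingEnd ℂ (x n)) = HH p.roots (up x) := by
  rw [← up_HH, ← up_HH]
  congr 1
  funext n
  rw [HH_conj, (h.good n).real]

theorem HH_y (h : SeqData p q x y) : HH q.roots (up y) = HH p.roots (up x) := by
  rw [← up_HH, ← up_HH]
  congr 1
  funext n
  exact (h.good n).HH_eq.symm

theorem HH_y' (h : SeqData p q x y) :
    HH (q.roots.map (starRingEnd ℂ)) (up fun n => starRingEnd ℂ (y n)) = HH p.roots (up x) := by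
  rw [← up_HH, ← up_HH]
  congr 1
  funext n
  rw [HH_conj, ← (h.good n).HH_eq, (h.good n).real]

theorem rel (h : SeqData p q x y) :
    up x * (up fun n => starRingEnd ℂ (x n)) = up y * (up fun n => starRingEnd ℂ (y n)) := by
  rw [← map_mul, ← map_mul]
  congr 1
  funext n
  simp only [Pi.mul_apply, Complex.mul_conj', (h.good n).norm_eq]

theorem equiv_of_u (h : SeqData p q x y) (hy : NC (up y)) {c : ℂ}
    (hc : up x = algebraMap ℂ UP c * up y) : Equiv p q := by
  have hc' := hc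
  rw [algebraMap_UP, ← map_mul, up_eq_iff] at hc'
  obtain ⟨n, hn⟩ := hc'.exists
  have hn' : x n = c * y n := hn
  have hc1 : ‖c‖ = 1 := by
    have := (h.good n).norm_eq
    rw [hn', norm_mul] at this
    exact mul_right_cancel₀ (norm_ne_zero_iff.mpr (h.y_ne_zero n)) (by rw [this, one_mul])
  have hc0 : c ≠ 0 := by rintro rfl; simp at hc1
  refine (h.good n).equiv_of_roots hc1 (eq_of_HH_eq hy ?_)
  rw [h.HH_y, hc, HH_const_mul _ hc0]

theorem equiv_of_v (h : SeqData p q x y) (hy : NC (up fun n => starRingEnd ℂ (y n))) {c : ℂ}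
    (hc : up x = algebraMap ℂ UP c * up fun n => starRingEnd ℂ (y n)) : Equiv p q := by
  have hc' := hc
  rw [algebraMap_UP, ← map_mul, up_eq_iff] at hc'
  obtain ⟨n, hn⟩ := hc'.exists
  have hn' : x n = c * starRingEnd ℂ (y n) := hn
  have hc1 : ‖c‖ = 1 := by
    have := (h.good n).norm_eq
    rw [hn', norm_mul, Complex.norm_conj] at this
    exact mul_right_cancel₀ (norm_ne_zero_iff.mpr (h.y_ne_zero n)) (by rw [this, one_mul])
  have hc0 : c ≠ 0 := by rintro rfl; simp at hc1
  refine (h.good n).equiv_of_roots_conj hc1 (eq_of_HH_eq hy ?_)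
  rw [h.HH_y', hc, HH_const_mul _ hc0]

theorem equiv_of_const (h : SeqData p q x y) (hx : NC (up x)) (hy : NC (up y)) {c : ℂ}
    (hc : HH p.roots (up x) = algebraMap ℂ UP c) : Equiv p q := by
  have key : ∀ (s : Multiset ℂ) (z : UP), NC z → HH s z = algebraMap ℂ UP c →
      s = Multiset.replicate s.card 0 := by
    intro s z hz hs
    rw [Multiset.eq_replicate_card]
    intro w hw
    by_contra hw0
    obtain ⟨V, hV, hTV⟩ := (NC_tt hz hw0).exists_valuationSubring
    exact hTV (hV.tt_mem_of_HH_mem (hs ▸ hV c) hw)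
  have e1 := key _ _ hx hc
  have e2 := key _ _ hy (h.HH_y.trans hc)
  have e3 : HH q.roots (up y) = HH p.roots (up y) := by
    rw [h.HH_y, e1, HH_replicate_zero, HH_replicate_zero]
  refine (h.good 0).equiv_of_roots (c := 1) norm_one ?_
  rw [eq_of_HH_eq hy e3]
  simp

end SeqData

theorem exists_seqData_zero {p q : ℂ[X]} (hp : p ≠ 0) {r0 : ℝ} (hr0 : 0 < r0)
    (h : ∀ r, 0 < r → r < r0 → MM p r = MM q r) :
    ∃ x y : ℕ → ℂ, SeqData p q x y ∧ Tendsto x atTop (𝓝 0) ∧ Tendsto y atTop (𝓝 0) := by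
  have key : ∀ n : ℕ, ∃ x y : ℂ, GoodPair p q x y ∧ x ≠ 0 ∧
      ‖x‖ ≤ Real.exp (Real.log r0 - n) := by
    intro n
    obtain ⟨t, ht, x, y, hx, hg⟩ := exists_goodPair (q := q) hp
      (α := Real.log r0 - n - 1) (β := Real.log r0 - n) (by linarith) (by
        intro t ht
        refine h _ (Real.exp_pos t) ?_
        rw [← Real.exp_log hr0]
        refine Real.exp_lt_exp.mpr ?_
        have : (0 : ℝ) ≤ n := Nat.cast_nonneg n
        linarith [ht.2])
    refine ⟨x, y, hg, ?_, ?_⟩
    · rw [← norm_ne_zero_iff, hx]; exact (Real.exp_pos t).ne'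
    · rw [hx]; exact Real.exp_le_exp.mpr ht.2.le
  choose x y hg h0 hle using key
  have hlim : Tendsto (fun n : ℕ => Real.exp (Real.log r0 - n)) atTop (𝓝 0) :=
    Real.tendsto_exp_atBot.comp (tendsto_atBot_add_const_left _ _
      (tendsto_neg_atTop_atBot.comp tendsto_natCast_atTop_atTop))
  refine ⟨x, y, ⟨hg, h0⟩, squeeze_zero_norm hle hlim, squeeze_zero_norm ?_ hlim⟩
  intro n
  rw [← (hg n).norm_eq]
  exact hle n

theorem equiv_zero {q : ℂ[X]} {r : ℝ} (hr : 0 < r) (h : MM 0 r = MM q r) : Equiv 0 q := by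
  rw [MM_zero hr.le] at h
  rw [eq_zero_of_MM_eq_zero hr h.symm]
  exact ⟨1, 1, norm_one, norm_one, Or.inl fun z => by simp⟩

theorem tendsto_conj {x : ℕ → ℂ} (hx : Tendsto x atTop (𝓝 0)) :
    Tendsto (fun n => starRingEnd ℂ (x n)) atTop (𝓝 0) := by
  have := (Complex.continuous_conj.tendsto 0).comp hx
  rw [map_zero] at this
  exact this

theorem equiv_of_simple {p q : ℂ[X]} (hs : ∀ w, w ≠ 0 → p.roots.count w ≤ 1) {r0 : ℝ}
    (hr0 : 0 < r0) (h : ∀ r, 0 < r → r < r0 → MM p r = MM q r) : Equiv p q := by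
  by_cases hp : p = 0
  · subst hp
    exact equiv_zero (half_pos hr0) (h _ (half_pos hr0) (half_lt_self hr0))
  obtain ⟨x, y, hd, hx, hy⟩ := exists_seqData_zero hp hr0 h
  have hx' := tendsto_conj hx
  have hy' := tendsto_conj hy
  have nx : NC (up x) := NC_up hd.ne_zero hx
  have ny : NC (up y) := NC_up hd.y_ne_zero hy
  have nx' : NC (up fun n => starRingEnd ℂ (x n)) :=
    NC_up (fun n => by simpa using hd.ne_zero n) hx'
  have ny' : NC (up fun n => starRingEnd ℂ (y n)) :=
    NC_up (fun n => by simpa using hd.y_ne_zero n) hy'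
  by_cases ha : NC (HH p.roots (up x))
  swap
  · unfold NC at ha
    push Not at ha
    obtain ⟨c, hc⟩ := ha
    exact hd.equiv_of_const nx ny hc
  have nR : NC (up x * up fun n => starRingEnd ℂ (x n)) := by
    rw [← map_mul]
    refine NC_up (fun n => mul_ne_zero (hd.ne_zero n) (by simpa using hd.ne_zero n)) ?_
    have := hx.mul hx'
    rw [mul_zero] at this
    exact this
  have hs' : ∀ w, w ≠ 0 → (p.roots.map (starRingEnd ℂ)).count w ≤ 1 := by
    intro w hw
    have := Multiset.count_map_eq_count' (starRingEnd ℂ) p.roots (starRingEnd ℂ).injective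
      (starRingEnd ℂ w)
    rw [Complex.conj_conj] at this
    rw [this]
    exact hs _ (by simpa using hw)
  have hΨ : ¬ NC (Chi p.roots (up x) +
      Chi (p.roots.map (starRingEnd ℂ)) (up fun n => starRingEnd ℂ (x n)) -
      Chi q.roots (up y) - Chi (q.roots.map (starRingEnd ℂ)) (up fun n => starRingEnd ℂ (y n))) := by
    intro hN
    obtain ⟨V, hV, hVn⟩ := hN.exists_valuationSubring
    exact hVn (hV.psi_mem hs hs' nx nx' ny ny' rfl hd.HH_x' hd.HH_y hd.HH_y' hd.rel)
  unfold NC at hΨ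
  push Not at hΨ
  obtain ⟨c, hc⟩ := hΨ
  have hc0 : c = 0 := by
    have hc' := hc
    rw [← up_Chi, ← up_Chi, ← up_Chi, ← up_Chi, ← map_add, ← map_sub, ← map_sub] at hc'
    refine const_eq_of_tendsto hc' ?_
    have := ((((tendsto_Chi p.roots).comp hx).add
      ((tendsto_Chi (p.roots.map (starRingEnd ℂ))).comp hx')).sub
      ((tendsto_Chi q.roots).comp hy)).sub
      ((tendsto_Chi (q.roots.map (starRingEnd ℂ))).comp hy')
    simp only [add_zero, sub_zero] at this
    exact this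
  rw [hc0, map_zero] at hc
  rcases const_of_psi_eq_zero nx nx' ny ny' ha nR rfl hd.HH_x' hd.HH_y hd.HH_y' hd.rel hc with
    ⟨c, h1⟩ | ⟨c, h1⟩
  · exact hd.equiv_of_u ny h1
  · exact hd.equiv_of_v ny' h1

end Pool.Agent.Lib.MP_6db618_an
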