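import Mathlib
import Pool.Agent.Lib.MP_6db618_an.Ultra
import Pool.Agent.Lib.MP_6db618_an.Adj

set_option autoImplicit false

namespace Pool.Agent.Lib.MP_6db618_an

open Polynomial Filter Topology

theorem up_surjective : Function.Surjective up := fun z => by
  induction z using Filter.Germ.inductionOn with
  | h f => exact ⟨f, rfl⟩

theorem up_inv (f : ℕ → ℂ) : up (fun n => (f n)⁻¹) = (up f)⁻¹ := rfl

/-- The valuation ring of finite elements of the ultrapower. -/
noncomputable def V0 : ValuationSubring UP where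
  carrier := {z | ∃ (C : ℝ) (f : ℕ → ℂ), up f = z ∧
    ∀ᶠ n in ((Filter.hyperfilter ℕ : Ultrafilter ℕ) : Filter ℕ), ‖f n‖ ≤ C}
  mul_mem' := by
    rintro _ _ ⟨C, f, rfl, hf⟩ ⟨D, g, rfl, hg⟩
    refine ⟨C * D, f * g, map_mul _ _ _, ?_⟩
    filter_upwards [hf, hg] with n h1 h2
    rw [Pi.mul_apply, norm_mul]
    exact mul_le_mul h1 h2 (norm_nonneg _) ((norm_nonneg _).trans h1)
  one_mem' := ⟨1, 1, map_one _, Filter.Eventually.of_forall fun n => by simp⟩
  add_mem' := by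
    rintro _ _ ⟨C, f, rfl, hf⟩ ⟨D, g, rfl, hg⟩
    refine ⟨C + D, f + g, map_add _ _ _, ?_⟩
    filter_upwards [hf, hg] with n h1 h2
    exact (norm_add_le _ _).trans (add_le_add h1 h2)
  zero_mem' := ⟨0, 0, map_zero _, Filter.Eventually.of_forall fun n => by simp⟩
  neg_mem' := by
    rintro _ ⟨C, f, rfl, hf⟩
    refine ⟨C, -f, map_neg _ _, ?_⟩
    filter_upwards [hf] with n h1
    simpa using h1
  mem_or_inv_mem' := by
    intro z
    obtain ⟨f, rfl⟩ := up_surjective z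
    rcases (Filter.hyperfilter ℕ).em (fun n => ‖f n‖ ≤ 1) with h | h
    · exact Or.inl ⟨1, f, rfl, h⟩
    · refine Or.inr ⟨1, fun n => (f n)⁻¹, up_inv f, ?_⟩
      filter_upwards [h] with n hn
      rw [norm_inv]
      exact inv_le_one_of_one_le₀ (not_le.mp hn).le

theorem hasConst_V0 : HasConst V0 := fun c =>
  ⟨‖c‖, fun _ => c, rfl, Filter.Eventually.of_forall fun _ => le_rfl⟩

theorem valuation_up_lt_one {f : ℕ → ℂ} (h0 : ∀ n, f n ≠ 0) (hf : Tendsto f atTop (𝓝 0)) :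
    V0.valuation (up f) < 1 := by
  by_contra hcon
  have h1 : (up f)⁻¹ ∈ V0 := by
    rw [← V0.valuation_le_one_iff, map_inv₀]
    exact inv_le_one_of_one_le₀ (not_lt.mp hcon)
  obtain ⟨C, g, hg, hC⟩ := h1
  rw [← up_inv, up_eq_iff] at hg
  have h2 : Tendsto (fun n => ‖f n‖ * C) atTop (𝓝 0) := by
    simpa using hf.norm.mul_const C
  have h3 : ∀ᶠ n in ((Filter.hyperfilter ℕ : Ultrafilter ℕ) : Filter ℕ), ‖f n‖ * C < 1 :=
    (h2.eventually (gt_mem_nhds zero_lt_one)).filter_mono Nat.hyperfilter_le_atTop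
  obtain ⟨n, ⟨k1, k2⟩, k3⟩ := ((hg.and hC).and h3).exists
  rw [k1, norm_inv] at k2
  have k4 : 0 < ‖f n‖ := norm_pos_iff.mpr (h0 n)
  have k5 : ‖f n‖ * ‖f n‖⁻¹ ≤ ‖f n‖ * C := by gcongr
  rw [mul_inv_cancel₀ k4.ne'] at k5
  linarith

section general

variable {K : Type} [Field K] [Algebra ℂ K]

theorem HasConst.NC_of_lt {V : ValuationSubring K} (hV : HasConst V) {z : K} (h0 : z ≠ 0)
    (hz : V.valuation z < 1) : NC z := by
  intro c hc
  have := hV.const_eq_zero_of_lt (hc ▸ hz)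
  rw [this, map_zero] at hc
  exact h0 hc

theorem HasConst.valuation_Chi_lt {V : ValuationSubring K} (hV : HasConst V) {z : K}
    (hz : V.valuation z < 1) {s : Multiset ℂ} (hs : ∀ w ∈ s, w ≠ 0) :
    V.valuation (Chi s z) < 1 := by
  induction s using Multiset.induction_on with
  | empty => simp [Chi]
  | cons w s ih =>
    have e2 : Chi (w ::ₘ s) z = -(tt w z * (1 + tt w z)) + Chi s z := by simp [Chi]
    rw [e2]
    refine Valuation.map_add_lt _ ?_ (ih fun w' hw' => hs w' (Multiset.mem_cons_of_mem hw'))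
    have hw : w ≠ 0 := hs w (Multiset.mem_cons_self _ _)
    have h1 := hV.valuation_sub_const hz hw
    have h2 : z - algebraMap ℂ K w ≠ 0 := by
      intro h0
      rw [h0, map_zero] at h1
      exact zero_ne_one h1
    have h3 : 1 + tt w z = z / (z - algebraMap ℂ K w) := by
      rw [tt]; field_simp; ring
    rw [Valuation.map_neg, h3, tt, map_mul, map_div₀, map_div₀, h1, hV.valuation_const hw]
    simpa using hz

theorem coreB {V : ValuationSubring K} (hV : HasConst V) {s s' t t' : Multiset ℂ}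
    (hs : ∀ w ∈ s, w ≠ 0) (hs' : ∀ w ∈ s', w ≠ 0) (ht : ∀ w ∈ t, w ≠ 0) (ht' : ∀ w ∈ t', w ≠ 0)
    (g1 : ∀ w, w ≠ 0 → s.count w ≤ 1) (g2 : ∀ w, w ≠ 0 → s'.count w ≤ 1)
    {a x x' y y' : K} (hx : x ≠ 0) (hx' : x' ≠ 0) (hy : y ≠ 0) (hy' : y' ≠ 0)
    (vx : V.valuation x < 1) (vx' : V.valuation x' < 1) (vy : V.valuation y < 1)
    (vy' : V.valuation y' < 1) (ha : NC a)
    (h1 : HH s x = a) (h1' : HH s' x' = a) (h2 : HH t y = a) (h2' : HH t' y' = a)
    (hrel : x * x' = y * y') :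
    (∃ c : ℂ, x = algebraMap ℂ K c * y) ∨ (∃ c : ℂ, x = algebraMap ℂ K c * y') := by
  have nx := hV.NC_of_lt hx vx
  have nx' := hV.NC_of_lt hx' vx'
  have ny := hV.NC_of_lt hy vy
  have ny' := hV.NC_of_lt hy' vy'
  have nR : NC (x * x') := hV.NC_of_lt (mul_ne_zero hx hx') (by
    rw [map_mul]; exact lt_of_le_of_lt (mul_le_of_le_one_right' vx'.le) vx)
  have hΨ : ¬ NC (Chi s x + Chi s' x' - Chi t y - Chi t' y') := by
    intro hN
    obtain ⟨W, hW, hWn⟩ := hN.exists_valuationSubring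
    exact hWn (hW.psi_mem g1 g2 nx nx' ny ny' h1 h1' h2 h2' hrel)
  unfold NC at hΨ
  push Not at hΨ
  obtain ⟨c, hc⟩ := hΨ
  have hc0 : c = 0 := by
    refine hV.const_eq_zero_of_lt ?_
    rw [← hc]
    exact Valuation.map_sub_lt _ (Valuation.map_sub_lt _ (Valuation.map_add_lt _
      (hV.valuation_Chi_lt vx hs) (hV.valuation_Chi_lt vx' hs')) (hV.valuation_Chi_lt vy ht))
      (hV.valuation_Chi_lt vy' ht')
  rw [hc0, map_zero] at hc
  exact const_of_psi_eq_zero nx nx' ny ny' ha nR h1 h1' h2 h2' hrel hc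

/-- The non-zero elements of a multiset. -/
noncomputable def nz (s : Multiset ℂ) : Multiset ℂ := s.filter (· ≠ 0)

theorem nz_ne_zero (s : Multiset ℂ) : ∀ w ∈ nz s, w ≠ 0 := fun _ hw =>
  (Multiset.mem_filter.mp hw).2

theorem nz_inv_ne_zero (s : Multiset ℂ) : ∀ w ∈ (nz s).map (·⁻¹), w ≠ 0 := fun w hw => by
  obtain ⟨w', hw', rfl⟩ := Multiset.mem_map.mp hw
  exact inv_ne_zero (nz_ne_zero s w' hw')

theorem HH_nz (s : Multiset ℂ) (z : K) : HH (nz s) z = HH s z - (s.count 0 : ℕ) := by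
  have e1 := sum_map_split s (fun w => 1 + tt w z) 0
  have ht0 : tt 0 z = 0 := by simp [tt]
  rw [ht0] at e1
  unfold HH nz
  linear_combination -e1

theorem HH_inv_of_ne_zero {s : Multiset ℂ} (hs : ∀ w ∈ s, w ≠ 0) {z : K} (hz : NC z) :
    HH (s.map (·⁻¹)) z⁻¹ = (s.card : ℕ) - HH s z := by
  induction s using Multiset.induction_on with
  | empty => simp [HH]
  | cons w s ih =>
    have ih' := ih fun w' hw' => hs w' (Multiset.mem_cons_of_mem hw')
    have hw : algebraMap ℂ K w ≠ 0 := (_root_.map_ne_zero _).mpr (hs w (Multiset.mem_cons_self _ _))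
    simp only [HH, Multiset.map_cons, Multiset.sum_cons, Multiset.card_cons] at ih' ⊢
    rw [ih']
    have h1 := hz.sub_ne_zero w
    have h2 := hz.ne_zero
    have h3 : algebraMap ℂ K w - z ≠ 0 := fun h => h1 (by linear_combination -h)
    have : 1 + tt w⁻¹ z⁻¹ = -tt w z := by
      simp only [tt, map_inv₀]
      field_simp
      ring
    rw [this]
    push_cast
    ring

theorem HH_nz_inv (s : Multiset ℂ) {z : K} (hz : NC z) :
    HH ((nz s).map (·⁻¹)) z⁻¹ = (s.card : ℕ) - HH s z := by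
  rw [HH_inv_of_ne_zero (nz_ne_zero s) hz, HH_nz]
  have : s.card = (nz s).card + s.count 0 := by
    conv_lhs => rw [← Multiset.filter_add_not (· ≠ 0) s]
    rw [Multiset.card_add, Multiset.count_eq_card_filter_eq]
    congr 2
    ext w
    simp [eq_comm]
  rw [this]
  push_cast
  ring

theorem NC.inv {z : K} (h : NC z) : NC z⁻¹ := fun c hc =>
  h c⁻¹ (by rw [map_inv₀, ← hc, inv_inv])

theorem NC.sub_const {z : K} (h : NC z) (n : ℕ) : NC (z - n) := fun c hc =>
  h (c + n) (by rw [map_add, map_natCast, ← hc]; ring)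

theorem NC.const_sub {z : K} (h : NC z) (n : ℕ) : NC ((n : K) - z) := fun c hc =>
  h (n - c) (by rw [map_sub, map_natCast, ← hc]; ring)

theorem HasConst.natCast_eq {V : ValuationSubring K} (hV : HasConst V) {m n : ℕ} {b c : K}
    (hb : V.valuation b < 1) (hc : V.valuation c < 1) (h : (m : K) - n = b - c) : m = n := by
  have : ((m : ℂ) - n) = 0 := by
    refine hV.const_eq_zero_of_lt ?_
    rw [map_sub, map_natCast, map_natCast, h]
    exact Valuation.map_sub_lt _ hb hc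
  exact_mod_cast sub_eq_zero.mp this

end general

/-- The algebraic rigidity property needed at one end. -/
def Rigid (s s' : Multiset ℂ) : Prop :=
  ∀ (t t' : Multiset ℂ) (a x x' y y' : UP), (∀ w ∈ t, w ≠ 0) → (∀ w ∈ t', w ≠ 0) →
    x ≠ 0 → x' ≠ 0 → y ≠ 0 → y' ≠ 0 → V0.valuation x < 1 → V0.valuation x' < 1 →
    V0.valuation y < 1 → V0.valuation y' < 1 → NC a → HH s x = a → HH s' x' = a → HH t y = a →
    HH t' y' = a → x * x' = y * y' →
    (∃ c : ℂ, x = algebraMap ℂ UP c * y) ∨ (∃ c : ℂ, x = algebraMap ℂ UP c * y')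

theorem count_zero_conj (s : Multiset ℂ) : (s.map (starRingEnd ℂ)).count 0 = s.count 0 := by
  have := Multiset.count_map_eq_count' (starRingEnd ℂ) s (starRingEnd ℂ).injective 0
  rwa [map_zero] at this

theorem SeqData.equiv_at_zero {p q : ℂ[X]} {x y : ℕ → ℂ} (hd : SeqData p q x y)
    (hx : Tendsto x atTop (𝓝 0)) (hy : Tendsto y atTop (𝓝 0))
    (hR : nz p.roots ≠ 0 → Rigid (nz p.roots) (nz (p.roots.map (starRingEnd ℂ)))) :
    Equiv p q := by
  have hx' := tendsto_conj hx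
  have hy' := tendsto_conj hy
  have x0' : ∀ n, starRingEnd ℂ (x n) ≠ 0 := fun n => by simpa using hd.ne_zero n
  have y0' : ∀ n, starRingEnd ℂ (y n) ≠ 0 := fun n => by simpa using hd.y_ne_zero n
  have nx : NC (up x) := NC_up hd.ne_zero hx
  have ny : NC (up y) := NC_up hd.y_ne_zero hy
  have nx' := NC_up x0' hx'
  have ny' := NC_up y0' hy'
  have vx := valuation_up_lt_one hd.ne_zero hx
  have vy := valuation_up_lt_one hd.y_ne_zero hy
  have vx' := valuation_up_lt_one x0' hx'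
  have vy' := valuation_up_lt_one y0' hy'
  by_cases ha : NC (HH p.roots (up x))
  swap
  · unfold NC at ha
    push Not at ha
    obtain ⟨c, hc⟩ := ha
    exact hd.equiv_of_const nx ny hc
  have hm : p.roots.count 0 = q.roots.count 0 := by
    refine hasConst_V0.natCast_eq
      (lt_of_le_of_lt (hasConst_V0.valuation_HH_le vy (nz_ne_zero q.roots)).1 vy)
      (lt_of_le_of_lt (hasConst_V0.valuation_HH_le vx (nz_ne_zero p.roots)).1 vx) ?_
    rw [HH_nz, HH_nz, hd.HH_y]; ring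
  have hne : nz p.roots ≠ 0 := by
    intro h0
    have := HH_nz p.roots (up x)
    rw [h0] at this
    exact (ha.sub_const _).ne_zero (by rw [← this]; simp [HH])
  rcases hR hne (nz q.roots) (nz (q.roots.map (starRingEnd ℂ))) _ _ _ _ _ (nz_ne_zero _)
    (nz_ne_zero _) nx.ne_zero nx'.ne_zero ny.ne_zero ny'.ne_zero vx vx' vy vy'
    (ha.sub_const (p.roots.count 0)) (HH_nz _ _) (by rw [HH_nz, hd.HH_x', count_zero_conj])
    (by rw [HH_nz, hd.HH_y, hm]) (by rw [HH_nz, hd.HH_y', count_zero_conj, hm]) hd.rel with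
    ⟨c, h1⟩ | ⟨c, h1⟩
  · exact hd.equiv_of_u ny h1
  · exact hd.equiv_of_v ny' h1

theorem SeqData.equiv_at_infty {p q : ℂ[X]} {x y : ℕ → ℂ} (hd : SeqData p q x y)
    (hx : Tendsto (fun n => (x n)⁻¹) atTop (𝓝 0)) (hy : Tendsto (fun n => (y n)⁻¹) atTop (𝓝 0))
    (hR : nz p.roots ≠ 0 →
      Rigid ((nz p.roots).map (·⁻¹)) ((nz (p.roots.map (starRingEnd ℂ))).map (·⁻¹))) :
    Equiv p q := by
  have hx' : Tendsto (fun n => (starRingEnd ℂ (x n))⁻¹) atTop (𝓝 0) := by
    simpa using tendsto_conj hx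
  have hy' : Tendsto (fun n => (starRingEnd ℂ (y n))⁻¹) atTop (𝓝 0) := by
    simpa using tendsto_conj hy
  have x0 : ∀ n, (x n)⁻¹ ≠ 0 := fun n => inv_ne_zero (hd.ne_zero n)
  have y0 : ∀ n, (y n)⁻¹ ≠ 0 := fun n => inv_ne_zero (hd.y_ne_zero n)
  have x0' : ∀ n, (starRingEnd ℂ (x n))⁻¹ ≠ 0 := fun n => by simpa using hd.ne_zero n
  have y0' : ∀ n, (starRingEnd ℂ (y n))⁻¹ ≠ 0 := fun n => by simpa using hd.y_ne_zero n
  have nx := NC_up x0 hx
  have ny := NC_up y0 hy
  have nx' := NC_up x0' hx'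
  have ny' := NC_up y0' hy'
  have vx := valuation_up_lt_one x0 hx
  have vy := valuation_up_lt_one y0 hy
  have vx' := valuation_up_lt_one x0' hx'
  have vy' := valuation_up_lt_one y0' hy'
  rw [up_inv] at nx ny nx' ny' vx vy vx' vy'
  have mx : NC (up x) := by simpa using nx.inv
  have my : NC (up y) := by simpa using ny.inv
  have mx' : NC (up fun n => starRingEnd ℂ (x n)) := by simpa using nx'.inv
  have my' : NC (up fun n => starRingEnd ℂ (y n)) := by simpa using ny'.inv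
  by_cases ha : NC (HH p.roots (up x))
  swap
  · unfold NC at ha
    push Not at ha
    obtain ⟨c, hc⟩ := ha
    exact hd.equiv_of_const mx my hc
  have hm : p.roots.card = q.roots.card := by
    refine hasConst_V0.natCast_eq
      (lt_of_le_of_lt (hasConst_V0.valuation_HH_le vx (nz_inv_ne_zero p.roots)).1 vx)
      (lt_of_le_of_lt (hasConst_V0.valuation_HH_le vy (nz_inv_ne_zero q.roots)).1 vy) ?_
    rw [HH_nz_inv _ mx, HH_nz_inv _ my, hd.HH_y]; ring
  have hne : nz p.roots ≠ 0 := by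
    intro h0
    have := HH_nz p.roots (up x)
    rw [h0] at this
    exact (ha.sub_const _).ne_zero (by rw [← this]; simp [HH])
  have flip : ∀ {u v : UP} {c : ℂ}, u ≠ 0 → u⁻¹ = algebraMap ℂ UP c * v⁻¹ →
      u = algebraMap ℂ UP c⁻¹ * v := by
    intro u v c hu h
    rw [← inv_inv u, h, mul_inv, inv_inv, map_inv₀]
  rcases hR hne ((nz q.roots).map (·⁻¹)) ((nz (q.roots.map (starRingEnd ℂ))).map (·⁻¹)) _ _ _ _ _
    (nz_inv_ne_zero _) (nz_inv_ne_zero _) nx.ne_zero nx'.ne_zero ny.ne_zero ny'.ne_zero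
    vx vx' vy vy' (ha.const_sub p.roots.card) (HH_nz_inv _ mx)
    (by rw [HH_nz_inv _ mx', hd.HH_x', Multiset.card_map])
    (by rw [HH_nz_inv _ my, hd.HH_y, hm]) (by rw [HH_nz_inv _ my', hd.HH_y', Multiset.card_map, hm])
    (by rw [← mul_inv, ← mul_inv, hd.rel]) with ⟨c, h1⟩ | ⟨c, h1⟩
  · exact hd.equiv_of_u my (flip mx.ne_zero h1)
  · exact hd.equiv_of_v my' (flip mx.ne_zero h1)

theorem exists_seqData_infty {p q : ℂ[X]} (hp : p ≠ 0) {r0 : ℝ} (hr0 : 0 < r0)
    (h : ∀ r, r0 < r → MM p r = MM q r) :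
    ∃ x y : ℕ → ℂ, SeqData p q x y ∧ Tendsto (fun n => (x n)⁻¹) atTop (𝓝 0) ∧
      Tendsto (fun n => (y n)⁻¹) atTop (𝓝 0) := by
  have key : ∀ n : ℕ, ∃ x y : ℂ, GoodPair p q x y ∧ x ≠ 0 ∧
      ‖x‖⁻¹ ≤ Real.exp (-Real.log r0 - n) := by
    intro n
    obtain ⟨t, ht, x, y, hx, hg⟩ := exists_goodPair (q := q) hp
      (α := Real.log r0 + n) (β := Real.log r0 + n + 1) (by linarith) (by
        intro t ht
        refine h _ ?_
        rw [← Real.exp_log hr0]
        refine Real.exp_lt_exp.mpr ?_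
        have : (0 : ℝ) ≤ n := Nat.cast_nonneg n
        linarith [ht.1])
    refine ⟨x, y, hg, ?_, ?_⟩
    · rw [← norm_ne_zero_iff, hx]; exact (Real.exp_pos t).ne'
    · rw [hx, ← Real.exp_neg]; exact Real.exp_le_exp.mpr (by linarith [ht.1])
  choose x y hg h0 hle using key
  have hlim : Tendsto (fun n : ℕ => Real.exp (-Real.log r0 - n)) atTop (𝓝 0) :=
    Real.tendsto_exp_atBot.comp (tendsto_atBot_add_const_left _ _
      (tendsto_neg_atTop_atBot.comp tendsto_natCast_atTop_atTop))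
  refine ⟨x, y, ⟨hg, h0⟩, squeeze_zero_norm (fun n => by rw [norm_inv]; exact hle n) hlim,
    squeeze_zero_norm ?_ hlim⟩
  intro n
  rw [norm_inv, ← (hg n).norm_eq]
  exact hle n

theorem equiv_small {p q : ℂ[X]} {r0 : ℝ} (hr0 : 0 < r0)
    (h : ∀ r, 0 < r → r < r0 → MM p r = MM q r)
    (hR : nz p.roots ≠ 0 → Rigid (nz p.roots) (nz (p.roots.map (starRingEnd ℂ)))) :
    Equiv p q := by
  by_cases hp : p = 0
  · subst hp
    exact equiv_zero (half_pos hr0) (h _ (half_pos hr0) (half_lt_self hr0))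
  obtain ⟨x, y, hd, hx, hy⟩ := exists_seqData_zero hp hr0 h
  exact hd.equiv_at_zero hx hy hR

theorem equiv_large {p q : ℂ[X]} {r0 : ℝ} (hr0 : 0 < r0)
    (h : ∀ r, r0 < r → MM p r = MM q r)
    (hR : nz p.roots ≠ 0 →
      Rigid ((nz p.roots).map (·⁻¹)) ((nz (p.roots.map (starRingEnd ℂ))).map (·⁻¹))) :
    Equiv p q := by
  by_cases hp : p = 0
  · subst hp
    exact equiv_zero (r := r0 + 1) (by linarith) (h _ (by linarith))
  obtain ⟨x, y, hd, hx, hy⟩ := exists_seqData_infty hp hr0 h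
  exact hd.equiv_at_infty hx hy hR

theorem rigid_of_simple {s s' : Multiset ℂ} (hs : ∀ w ∈ s, w ≠ 0) (hs' : ∀ w ∈ s', w ≠ 0)
    (g1 : ∀ w, w ≠ 0 → s.count w ≤ 1) (g2 : ∀ w, w ≠ 0 → s'.count w ≤ 1) : Rigid s s' :=
  fun _ _ _ _ _ _ _ ht ht' hx hx' hy hy' vx vx' vy vy' ha h1 h1' h2 h2' hrel =>
    coreB hasConst_V0 hs hs' ht ht' g1 g2 hx hx' hy hy' vx vx' vy vy' ha h1 h1' h2 h2' hrel

theorem rigid_of_sg {s s' : Multiset ℂ} (hs : ∀ w ∈ s, w ≠ 0) (hs' : ∀ w ∈ s', w ≠ 0)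
    (g1 : sg 1 s ≠ 0) (g2 : sg 1 s' ≠ 0) : Rigid s s' :=
  fun _ _ _ _ _ _ _ ht ht' hx hx' hy hy' vx vx' vy vy' _ h1 h1' h2 h2' hrel =>
    coreA hasConst_V0 hs hs' ht ht' g1 g2 hx hx' hy hy' vx vx' vy vy' h1 h1' h2 h2' hrel

theorem count_nz_le {s : Multiset ℂ} (h : ∀ w, w ≠ 0 → s.count w ≤ 1) :
    ∀ w, w ≠ 0 → (nz s).count w ≤ 1 := fun w hw =>
  (Multiset.count_le_of_le w (Multiset.filter_le _ _)).trans (h w hw)

theorem count_conj_le {s : Multiset ℂ} (h : ∀ w, w ≠ 0 → s.count w ≤ 1) :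
    ∀ w, w ≠ 0 → (s.map (starRingEnd ℂ)).count w ≤ 1 := by
  intro w hw
  have := Multiset.count_map_eq_count' (starRingEnd ℂ) s (starRingEnd ℂ).injective
    (starRingEnd ℂ w)
  rw [Complex.conj_conj] at this
  rw [this]
  exact h _ (by simpa using hw)

theorem count_inv_le {s : Multiset ℂ} (h : ∀ w, w ≠ 0 → s.count w ≤ 1) :
    ∀ w, w ≠ 0 → (s.map (·⁻¹)).count w ≤ 1 := by
  intro w hw
  have := Multiset.count_map_eq_count' (fun z : ℂ => z⁻¹) s inv_injective w⁻¹
  simp only [inv_inv] at this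
  rw [this]
  exact h _ (inv_ne_zero hw)

theorem equiv_of_simple' {p q : ℂ[X]} (hs : ∀ w, w ≠ 0 → p.roots.count w ≤ 1) {r0 : ℝ}
    (hr0 : 0 < r0) (h : (∀ r, 0 < r → r < r0 → MM p r = MM q r) ∨
      (∀ r, r0 < r → MM p r = MM q r)) : Equiv p q := by
  rcases h with h | h
  · exact equiv_small hr0 h fun _ => rigid_of_simple (nz_ne_zero _) (nz_ne_zero _)
      (count_nz_le hs) (count_nz_le (count_conj_le hs))
  · exact equiv_large hr0 h fun _ => rigid_of_simple (nz_inv_ne_zero _) (nz_inv_ne_zero _)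
      (count_inv_le (count_nz_le hs)) (count_inv_le (count_nz_le (count_conj_le hs)))

theorem nz_map_conj (s : Multiset ℂ) :
    nz (s.map (starRingEnd ℂ)) = (nz s).map (starRingEnd ℂ) := by
  unfold nz
  rw [Multiset.filter_map]
  congr 2
  ext w
  simp

theorem sg_conj (s : Multiset ℂ) : sg 1 (s.map (starRingEnd ℂ)) = starRingEnd ℂ (sg 1 s) := by
  simp [sg, map_multiset_sum, Multiset.map_map]

theorem sg_nz_ne_zero {p : ℂ[X]} (h : p.coeff (p.natTrailingDegree + 1) ≠ 0) :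
    sg 1 (nz p.roots) ≠ 0 := by
  have hp : p ≠ 0 := by rintro rfl; simp at h
  obtain ⟨p1, h1, h2⟩ := exists_eq_pow_rootMultiplicity_mul_and_not_dvd p hp 0
  rw [rootMultiplicity_eq_natTrailingDegree', C_0, sub_zero] at h1
  rw [dvd_iff_isRoot] at h2
  have hp1 : p1 ≠ 0 := by rintro rfl; simp at h2
  have h3 : p.coeff (p.natTrailingDegree + 1) = p1.coeff 1 := by
    conv_lhs => rw [add_comm]; arg 1; rw [h1]
    exact coeff_X_pow_mul _ _ _
  have h4 : nz p.roots = p1.roots := by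
    have : p.roots = p.natTrailingDegree • ({0} : Multiset ℂ) + p1.roots := by
      conv_lhs => rw [h1]
      rw [roots_mul (h1 ▸ hp), roots_X_pow]
    rw [this, nz, Multiset.filter_add, Multiset.filter_eq_nil.mpr, zero_add,
      Multiset.filter_eq_self.mpr]
    · intro w hw h0
      subst h0
      exact h2 (isRoot_of_mem_roots hw)
    · intro w hw
      simpa using Multiset.mem_of_mem_nsmul hw
  have h5 := (IsAlgClosed.splits p1).eval_derivative_div_eval_of_ne_zero (x := 0) h2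
  intro h0
  have h6 : (p1.roots.map fun z => 1 / (0 - z)).sum = -sg 1 p1.roots := by
    rw [sg, ← Multiset.sum_map_neg]
    congr 1
    refine Multiset.map_congr rfl fun w _ => by simp
  rw [h6, ← h4, h0, neg_zero, div_eq_zero_iff] at h5
  rcases h5 with h5 | h5
  · rw [← coeff_zero_eq_eval_zero, coeff_derivative] at h5
    apply h
    rw [h3]
    simpa using h5
  · exact h2 h5

theorem sg_nz_inv_ne_zero {p : ℂ[X]} (hne : nz p.roots ≠ 0) (h : p.coeff (p.natDegree - 1) ≠ 0) :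
    sg 1 ((nz p.roots).map (·⁻¹)) ≠ 0 := by
  have hd : p.natDegree ≠ 0 := by
    intro h0
    apply hne
    rw [eq_C_of_natDegree_eq_zero h0]
    simp [nz]
  have h1 := (IsAlgClosed.splits p).nextCoeff_eq_neg_sum_roots_mul_leadingCoeff
  rw [nextCoeff, if_neg hd] at h1
  have h2 : sg 1 ((nz p.roots).map (·⁻¹)) = p.roots.sum := by
    have e1 := sum_map_split (K := ℂ) p.roots id 0
    simp only [Multiset.map_id', id_eq, mul_zero, zero_add] at e1
    rw [e1, sg, Multiset.map_map]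
    simp [nz]
  rw [h2]
  intro h0
  rw [h0] at h1
  exact h (by simpa using h1)

theorem equiv_of_adjacent {p q : ℂ[X]} {r0 : ℝ} (hr0 : 0 < r0)
    (h : (p.coeff (p.natTrailingDegree + 1) ≠ 0 ∧ ∀ r, 0 < r → r < r0 → MM p r = MM q r) ∨
      (p.coeff (p.natDegree - 1) ≠ 0 ∧ ∀ r, r0 < r → MM p r = MM q r)) : Equiv p q := by
  rcases h with ⟨hc, h⟩ | ⟨hc, h⟩
  · refine equiv_small hr0 h fun _ => rigid_of_sg (nz_ne_zero _) (nz_ne_zero _)
      (sg_nz_ne_zero hc) ?_
    rw [nz_map_conj, sg_conj]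
    simpa using sg_nz_ne_zero hc
  · refine equiv_large hr0 h fun hne => rigid_of_sg (nz_inv_ne_zero _) (nz_inv_ne_zero _)
      (sg_nz_inv_ne_zero hne hc) ?_
    have : (nz (p.roots.map (starRingEnd ℂ))).map (·⁻¹) =
        ((nz p.roots).map (·⁻¹)).map (starRingEnd ℂ) := by
      rw [nz_map_conj, Multiset.map_map, Multiset.map_map]
      refine Multiset.map_congr rfl fun w _ => by simp
    rw [this, sg_conj]
    simpa using sg_nz_inv_ne_zero hne hc

end Pool.Agent.Lib.MP_6db618_an
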