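import Mathlib

set_option autoImplicit false

namespace Pool.Agent.Lib.MP_6db618_an

open Set Filter Topology MeasureTheory Complex

theorem det_smul_one (c : ℂ) : (c • (1 : ℂ →L[ℝ] ℂ)).det = normSq c := by
  rw [← Algebra.norm_complex_apply, Algebra.norm_apply, ContinuousLinearMap.det]
  congr 1

/-- Area formula for an injective holomorphic map. -/
theorem integrableOn_area {S : Set ℂ} (hS : IsOpen S) {φ φ' : ℂ → ℂ}
    (hd : ∀ a ∈ S, HasDerivAt φ (φ' a) a) (hinj : InjOn φ S) {g : ℂ → ℝ}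
    (hg : IntegrableOn g (φ '' S)) : IntegrableOn (fun a => normSq (φ' a) * g (φ a)) S := by
  have h := (integrableOn_image_iff_integrableOn_abs_det_fderiv_smul volume hS.measurableSet
    (fun a ha => (hd a ha).complexToReal_fderiv.hasFDerivWithinAt) hinj g).mp hg
  simpa only [det_smul_one, abs_of_nonneg (normSq_nonneg _), smul_eq_mul] using h

theorem integrable_prod_of_integrable {E : Type*} [NormedAddCommGroup E] {F : ℂ → E}
    (hF : Integrable F) : Integrable (fun p : ℝ × ℝ => F ⟨p.1, p.2⟩) (volume.prod volume) :=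
  (volume_preserving_equiv_real_prod.symm.integrable_comp_emb
    measurableEquivRealProd.symm.measurableEmbedding).mpr hF

/-- A weight of finite area for which every curve going to infinity has infinite length. -/
noncomputable def wt (r : ℝ) : ℝ := ((3 + r ^ 2) * Real.log (3 + r ^ 2) ^ 2)⁻¹

theorem one_le_log_three_add {u : ℝ} (hu : 0 ≤ u) : 1 ≤ Real.log (3 + u) := by
  rw [Real.le_log_iff_exp_le (by linarith)]
  have := Real.exp_one_lt_d9
  linarith

theorem wt_nonneg (r : ℝ) : 0 ≤ wt r := by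
  unfold wt
  positivity

theorem integrable_wt : Integrable (fun z : ℂ => wt ‖z‖) := by
  rw [integrable_fun_norm_addHaar]
  have hd : ∀ x ∈ Ici (0 : ℝ), HasDerivAt (fun y : ℝ => -(2 * Real.log (3 + y ^ 2))⁻¹)
      (x ^ (Module.finrank ℝ ℂ - 1) • wt x) x := by
    intro x _
    have h0 : 0 < 3 + x ^ 2 := by positivity
    have h1 := one_le_log_three_add (sq_nonneg x)
    have h2 : HasDerivAt (fun y : ℝ => 3 + y ^ 2) (2 * x) x := by
      simpa using (hasDerivAt_pow 2 x).const_add 3
    have h3 := (((h2.log h0.ne').const_mul 2).inv (by positivity)).neg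
    refine h3.congr_deriv ?_
    rw [finrank_real_complex, wt, smul_eq_mul]
    field_simp
    norm_num
  refine integrableOn_Ioi_deriv_of_nonneg' (l := 0) hd (fun x hx => ?_) ?_
  · exact smul_nonneg (pow_nonneg (le_of_lt hx) _) (wt_nonneg x)
  · rw [← neg_zero]
    refine Tendsto.neg (Tendsto.inv_tendsto_atTop ?_)
    refine Tendsto.const_mul_atTop two_pos (Real.tendsto_log_atTop.comp ?_)
    exact tendsto_atTop_add_const_left _ _ (tendsto_pow_atTop two_ne_zero)

theorem hasDerivAt_mk_left (t s : ℝ) : HasDerivAt (fun s : ℝ => (⟨s, t⟩ : ℂ)) 1 s := by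
  have : (fun s : ℝ => (⟨s, t⟩ : ℂ)) = fun s : ℝ => (s : ℂ) + t * I := by
    funext s
    apply Complex.ext <;> simp
  rw [this]
  exact (hasDerivAt_id (s : ℂ)).comp_ofReal.add_const _

theorem hasDerivAt_mk_right (s t : ℝ) : HasDerivAt (fun t : ℝ => (⟨s, t⟩ : ℂ)) I t := by
  have : (fun t : ℝ => (⟨s, t⟩ : ℂ)) = fun t : ℝ => (s : ℂ) + t * I := by
    funext s
    apply Complex.ext <;> simp
  rw [this]
  simpa using ((hasDerivAt_id (t : ℂ)).comp_ofReal.mul_const I).const_add (s : ℂ)

theorem continuous_mk_left (t : ℝ) : Continuous (fun s : ℝ => (⟨s, t⟩ : ℂ)) :=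
  continuous_iff_continuousAt.mpr fun s => (hasDerivAt_mk_left t s).continuousAt

theorem continuous_mk_right (s : ℝ) : Continuous (fun t : ℝ => (⟨s, t⟩ : ℂ)) :=
  continuous_iff_continuousAt.mpr fun t => (hasDerivAt_mk_right s t).continuousAt

theorem continuous_mk : Continuous (fun p : ℝ × ℝ => (⟨p.1, p.2⟩ : ℂ)) :=
  equivRealProdCLM.symm.continuous

/-- A curve of finite weighted energy on a bounded interval is bounded. -/
theorem bounded_of_energy {γ γ' : ℝ → ℂ} {s e : ℝ} (hd : ∀ x ∈ Ico s e, HasDerivAt γ (γ' x) x)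
    {F : ℝ → ℝ} (hF : Integrable F) (hF0 : ∀ x, 0 ≤ F x)
    (hle : ∀ x ∈ Ico s e, normSq (γ' x) * wt ‖γ x‖ ≤ F x) :
    ∃ C, ∀ x ∈ Ico s e, ‖γ x‖ ≤ C := by
  set L : ℝ → ℝ := fun x => Real.log (Real.log (3 + ‖γ x‖ ^ 2)) with hL
  have hL' : ∀ x ∈ Ico s e, HasDerivAt L (2 * inner ℝ (γ x) (γ' x) / (3 + ‖γ x‖ ^ 2) /
      Real.log (3 + ‖γ x‖ ^ 2)) x := by
    intro x hx
    have h1 := one_le_log_three_add (sq_nonneg ‖γ x‖)
    exact (((hd x hx).norm_sq.const_add 3).log (by positivity)).log (by positivity)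
  have key : ∀ x ∈ Ico s e, L x ≤ L s + ((e - s) + ∫ y, F y) := by
    intro x hx
    have hsub : Icc s x ⊆ Ico s e := fun y hy => ⟨hy.1, hy.2.trans_lt hx.2⟩
    have h1 := intervalIntegral.sub_le_integral_of_hasDeriv_right_of_le (g := L)
      (φ := fun y => 1 + F y) hx.1
      (fun y hy => (hL' y (hsub hy)).continuousAt.continuousWithinAt)
      (fun y hy => (hL' y (hsub (Ioo_subset_Icc_self hy))).hasDerivWithinAt)
      ((integrableOn_const (by simp)).add hF.integrableOn) (fun y hy => ?_)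
    · rw [intervalIntegral.integral_add (by simp) hF.intervalIntegrable] at h1
      have h2 : ∫ y in s..x, F y ≤ ∫ y, F y := by
        rw [intervalIntegral.integral_of_le hx.1]
        exact setIntegral_le_integral hF (Eventually.of_forall hF0)
      simp only [intervalIntegral.integral_const, smul_eq_mul, mul_one] at h1
      linarith [hx.2]
    · refine le_trans ?_ (add_le_add_right (hle y (hsub (Ioo_subset_Icc_self hy))) 1)
      have h1 := one_le_log_three_add (sq_nonneg ‖γ y‖)
      have h2 := real_inner_le_norm (γ y) (γ' y)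
      set l := Real.log (3 + ‖γ y‖ ^ 2)
      set u := ‖γ y‖
      set v := ‖γ' y‖
      have hu : 0 ≤ u := norm_nonneg _
      have hv : 0 ≤ v := norm_nonneg _
      have h3 : 2 * inner ℝ (γ y) (γ' y) / (3 + u ^ 2) / l ≤ 2 * (u * v) / (3 + u ^ 2) / l := by
        gcongr
      refine h3.trans ?_
      rw [normSq_eq_norm_sq, wt]
      change _ ≤ 1 + v ^ 2 * ((3 + u ^ 2) * l ^ 2)⁻¹
      have h4 : 0 < 3 + u ^ 2 := by positivity
      have h5 : 0 < l := by linarith
      rw [div_div, div_le_iff₀ (by positivity), add_mul, mul_assoc (v ^ 2)]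
      have h6 : ((3 + u ^ 2) * l ^ 2)⁻¹ * ((3 + u ^ 2) * l) = l⁻¹ := by field_simp
      rw [h6, ← sub_nonneg]
      have h7 : 1 * ((3 + u ^ 2) * l) + v ^ 2 * l⁻¹ - 2 * (u * v) =
          3 * l + (u * l - v) ^ 2 / l := by field_simp; ring
      rw [h7]
      positivity
  refine ⟨Real.exp (Real.exp (L s + ((e - s) + ∫ y, F y))), fun x hx => ?_⟩
  have h1 := one_le_log_three_add (sq_nonneg ‖γ x‖)
  have h2 := key x hx
  rw [hL, Real.log_le_iff_le_exp (by linarith), Real.log_le_iff_le_exp (by positivity)] at h2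
  nlinarith [norm_nonneg (γ x), sq_nonneg (‖γ x‖ - 1)]

end Pool.Agent.Lib.MP_6db618_an
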