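import Mathlib
import Pool.Agent.Lib.MP_6db618_an.EntArea

set_option autoImplicit false

namespace Pool.Agent.Lib.MP_6db618_an

open Set Filter Topology MeasureTheory Complex

theorem hasDerivAt_max_pow (n : ℕ) (x : ℝ) :
    HasDerivAt (fun x : ℝ => max x 0 ^ (n + 2)) ((n + 2 : ℕ) * max x 0 ^ (n + 1)) x := by
  rcases lt_trichotomy x 0 with h | rfl | h
  · rw [max_eq_right h.le, zero_pow n.succ_ne_zero, mul_zero]
    refine (hasDerivAt_const x (0 : ℝ)).congr_of_eventuallyEq ?_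
    filter_upwards [Iio_mem_nhds h] with y hy
    rw [max_eq_right (le_of_lt hy), zero_pow (n + 1).succ_ne_zero]
  · rw [max_self, zero_pow n.succ_ne_zero, mul_zero, hasDerivAt_iff_isLittleO_nhds_zero]
    simp only [zero_add, max_self, zero_pow (n + 1).succ_ne_zero, sub_zero, smul_zero]
    refine Asymptotics.IsBigO.trans_isLittleO (g := fun y : ℝ => y ^ (n + 2))
      (Asymptotics.IsBigO.pow (Asymptotics.isBigO_of_le _ fun y => ?_) _)
      (Asymptotics.isLittleO_pow_id (by omega))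
    rw [Real.norm_eq_abs, Real.norm_eq_abs, abs_of_nonneg (le_max_right _ _)]
    exact max_le (le_abs_self y) (abs_nonneg y)
  · rw [max_eq_left h.le]
    refine (hasDerivAt_pow (n + 2) x).congr_of_eventuallyEq ?_
    filter_upwards [Ioi_mem_nhds h] with y hy
    rw [max_eq_left (le_of_lt hy)]

theorem hasDerivAt_param (F F' : ℝ → ℝ → ℝ) (hF : Continuous (Function.uncurry F))
    (hF' : Continuous (Function.uncurry F')) (h : ∀ t θ, HasDerivAt (fun t => F t θ) (F' t θ) t)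
    (a b t : ℝ) : HasDerivAt (fun t => ∫ θ in a..b, F t θ) (∫ θ in a..b, F' t θ) t := by
  obtain ⟨C, hC⟩ := ((isCompact_Icc (a := t - 1) (b := t + 1)).prod
    (isCompact_uIcc (a := a) (b := b))).exists_bound_of_continuousOn hF'.continuousOn
  exact (intervalIntegral.hasDerivAt_integral_of_dominated_loc_of_deriv_le (bound := fun _ => C)
    (Icc_mem_nhds (sub_one_lt t) (lt_add_one t))
    (Eventually.of_forall fun x => (hF.uncurry_left x).aestronglyMeasurable)
    ((hF.uncurry_left t).intervalIntegrable _ _) (hF'.uncurry_left t).aestronglyMeasurable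
    (Eventually.of_forall fun θ hθ x hx => hC (x, θ) ⟨hx, uIoc_subset_uIcc hθ⟩)
    intervalIntegrable_const (Eventually.of_forall fun θ _ x _ => h x θ)).2

theorem ode_nonpos {m m1 m2 : ℝ → ℝ} (h1 : ∀ t, HasDerivAt m (m1 t) t)
    (h2 : ∀ t, HasDerivAt m1 (m2 t) t) (hle : ∀ t, m t ≤ 100 * m2 t) {t0 : ℝ} (h0 : m t0 = 0)
    (hg : m =O[atTop] fun t => t ^ 4) {t : ℝ} (ht : t0 ≤ t) : m t ≤ 0 := by
  have e1 : ∀ c t : ℝ, HasDerivAt (fun t => Real.exp (c * t)) (Real.exp (c * t) * c) t :=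
    fun c t => by simpa using ((hasDerivAt_id t).const_mul c).exp
  set y : ℝ → ℝ := fun t => (m1 t + m t / 10) * Real.exp (-(1 / 10) * t) with hy
  have hy' : ∀ t, HasDerivAt y ((m2 t - m t / 100) * Real.exp (-(1 / 10) * t)) t := fun t =>
    (((h2 t).add ((h1 t).div_const 10)).mul (e1 _ t)).congr_deriv (by simp only [Pi.add_apply]; ring)
  have hmono : Monotone y := monotone_of_deriv_nonneg (fun t => (hy' t).differentiableAt)
    fun t => by
      rw [(hy' t).deriv]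
      exact mul_nonneg (by linarith [hle t]) (Real.exp_pos _).le
  have hz' : ∀ t, HasDerivAt (fun t => m t * Real.exp (1 / 10 * t))
      (y t * Real.exp (1 / 5 * t)) t := fun t => by
    refine ((h1 t).mul (e1 _ t)).congr_deriv ?_
    rw [hy, mul_assoc (m1 t + m t / 10), ← Real.exp_add,
      show -(1 / 10) * t + 1 / 5 * t = 1 / 10 * t by ring]
    ring
  have hy0 : ∀ t1, y t1 ≤ 0 := by
    intro t1
    set w : ℝ → ℝ := fun t => m t * Real.exp (1 / 10 * t) - 5 * y t1 * Real.exp (1 / 5 * t)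
    have hw' : ∀ t, HasDerivAt w ((y t - y t1) * Real.exp (1 / 5 * t)) t := fun t =>
      ((hz' t).sub ((e1 _ t).const_mul _)).congr_deriv (by ring)
    have hw : MonotoneOn w (Ici t1) := monotoneOn_of_deriv_nonneg (convex_Ici _)
      (fun t _ => (hw' t).continuousAt.continuousWithinAt)
      (fun t _ => (hw' t).differentiableAt.differentiableWithinAt) fun t ht => by
        rw [(hw' t).deriv]
        exact mul_nonneg (sub_nonneg.mpr (hmono (interior_subset ht))) (Real.exp_pos _).le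
    have l1 := (hg.trans_isLittleO
      (isLittleO_pow_exp_pos_mul_atTop 4 (b := 1 / 10) (by norm_num))).tendsto_div_nhds_zero
    have l2 : Tendsto (fun t : ℝ => w t1 / Real.exp (1 / 5 * t)) atTop (𝓝 0) :=
      Tendsto.div_atTop tendsto_const_nhds (Real.tendsto_exp_atTop.comp
        (tendsto_id.const_mul_atTop (by norm_num)))
    have l3 := l1.sub l2
    rw [sub_zero] at l3
    have : 5 * y t1 ≤ 0 := ge_of_tendsto l3 ?_
    · linarith
    filter_upwards [eventually_ge_atTop t1] with t ht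
    have h3 : w t1 ≤ w t := hw self_mem_Ici ht ht
    have h4 : Real.exp (1 / 5 * t) = Real.exp (1 / 10 * t) * Real.exp (1 / 10 * t) := by
      rw [← Real.exp_add]
      congr 1
      ring
    have h5 := Real.exp_pos (1 / 10 * t)
    have h6 : m t / Real.exp (1 / 10 * t) - w t1 / Real.exp (1 / 5 * t) =
        (m t * Real.exp (1 / 10 * t) - w t1) / Real.exp (1 / 5 * t) := by
      rw [h4]
      field_simp
    rw [h6, le_div_iff₀ (Real.exp_pos _)]
    simp only [w] at h3 ⊢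
    linarith
  have hanti : Antitone fun t => m t * Real.exp (1 / 10 * t) :=
    antitone_of_deriv_nonpos (fun t => (hz' t).differentiableAt) fun t => by
      rw [(hz' t).deriv]
      exact mul_nonpos_of_nonpos_of_nonneg (hy0 t) (Real.exp_pos _).le
  have := hanti ht
  simp only [h0, zero_mul] at this
  exact nonpos_of_mul_nonpos_left this (Real.exp_pos _)

/-- Data for Carleman's convexity argument, in logarithmic coordinates. -/
structure Tract (G : ℂ → ℂ) (V : Set ℂ) (ε : ℝ) : Prop where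
  op : IsOpen V
  diff : DifferentiableOn ℂ G V
  ne : ∀ ζ ∈ V, G ζ ≠ 0
  pos : 0 < ε
  bd : ∀ ζ, ζ ∉ V → ∀ᶠ w in 𝓝 ζ, w ∈ V → ε ≤ ‖G w‖

open Classical in
/-- The truncated harmonic function. -/
noncomputable def vv (G : ℂ → ℂ) (V : Set ℂ) (ε : ℝ) (ζ : ℂ) : ℝ :=
  if ζ ∈ V then max (Real.log ε - Real.log ‖G ζ‖) 0 else 0

/-- Its complex gradient. -/
noncomputable def pp (G : ℂ → ℂ) (ζ : ℂ) : ℂ := -(deriv G ζ / G ζ)

theorem vv_nonneg (G : ℂ → ℂ) (V : Set ℂ) (ε : ℝ) (ζ : ℂ) : 0 ≤ vv G V ε ζ := by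
  unfold vv
  split_ifs
  · exact le_max_right _ _
  · exact le_rfl

namespace Tract

variable {G : ℂ → ℂ} {V : Set ℂ} {ε : ℝ} (T : Tract G V ε)
include T

theorem vv_eq_zero {ζ : ℂ} (h : ζ ∈ V → ε ≤ ‖G ζ‖) : vv G V ε ζ = 0 := by
  unfold vv
  split_ifs with h1
  · exact max_eq_right (sub_nonpos.mpr (Real.log_le_log T.pos (h h1)))
  · rfl

theorem ev_zero {ζ : ℂ} (h : ζ ∉ V) : ∀ᶠ w in 𝓝 ζ, vv G V ε w = 0 :=
  (T.bd ζ h).mono fun _ hw => T.vv_eq_zero hw

theorem ev_eq {ζ : ℂ} (h : ζ ∈ V) :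
    ∀ᶠ w in 𝓝 ζ, vv G V ε w = max (Real.log ε - Real.log ‖G w‖) 0 :=
  mem_of_superset (T.op.mem_nhds h) fun _ hw => if_pos hw

theorem an {ζ : ℂ} (h : ζ ∈ V) : AnalyticAt ℂ G ζ := T.diff.analyticAt (T.op.mem_nhds h)

theorem an_pp {ζ : ℂ} (h : ζ ∈ V) : AnalyticAt ℂ (pp G) ζ :=
  ((T.an h).deriv.div (T.an h) (T.ne ζ h)).neg

theorem continuous_mul {g : ℂ → ℝ} (hg : ∀ ζ ∈ V, ContinuousAt g ζ) (n : ℕ) :
    Continuous fun ζ => vv G V ε ζ ^ (n + 1) * g ζ := by
  refine continuous_iff_continuousAt.mpr fun ζ => ?_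
  by_cases h : ζ ∈ V
  · refine ContinuousAt.mul (ContinuousAt.pow ?_ _) (hg ζ h)
    refine ContinuousAt.congr ?_ ((T.ev_eq h).mono fun _ hw => hw.symm)
    exact (continuousAt_const.sub ((T.an h).continuousAt.norm.log
      (norm_ne_zero_iff.mpr (T.ne ζ h)))).max continuousAt_const
  · refine ContinuousAt.congr (f := fun _ => 0) continuousAt_const ?_
    filter_upwards [T.ev_zero h] with w hw
    simp [hw]

theorem hasDerivAt_pow {γ : ℝ → ℂ} {e : ℂ} {s : ℝ} (hγ : HasDerivAt γ e s) (h : γ s ∈ V) (n : ℕ) :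
    HasDerivAt (fun s => vv G V ε (γ s) ^ (n + 2))
      ((n + 2 : ℕ) * vv G V ε (γ s) ^ (n + 1) * (pp G (γ s) * e).re) s := by
  have h0 := T.ne _ h
  have h1 := ((T.an h).differentiableAt.hasDerivAt.scomp s hγ).norm_sq.log
    (pow_ne_zero 2 (norm_ne_zero_iff.mpr h0))
  have h2 : HasDerivAt (fun s => Real.log ε - Real.log ‖G (γ s)‖) (pp G (γ s) * e).re s := by
    have h3 := (h1.div_const 2).const_sub (Real.log ε)
    simp only [Function.comp_apply, Real.log_pow, Nat.cast_ofNat, smul_eq_mul] at h3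
    refine (h3.congr_of_eventuallyEq (Eventually.of_forall fun s => ?_)).congr_deriv ?_
    · ring
    · rw [Complex.inner, pp, ← normSq_eq_norm_sq]
      have h4 : normSq (G (γ s)) ≠ 0 := by simpa using h0
      rw [div_eq_mul_inv (deriv G (γ s)), inv_def]
      simp only [mul_re, mul_im, neg_re, neg_im, conj_re, conj_im, ofReal_re, ofReal_im]
      field_simp
      ring
  have h4 := (hasDerivAt_max_pow n _).comp s h2
  rw [← (T.ev_eq h).self_of_nhds] at h4
  refine h4.congr_of_eventuallyEq ?_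
  filter_upwards [hγ.continuousAt.eventually (T.ev_eq h)] with x hx
  rw [hx]
  rfl

theorem hasDerivAt_mul {γ : ℝ → ℂ} {e : ℂ} {s : ℝ} (hγ : HasDerivAt γ e s) (n : ℕ)
    {g : ℝ → ℝ} {g' : ℝ} (hg : γ s ∈ V → HasDerivAt g g' s) :
    HasDerivAt (fun s => vv G V ε (γ s) ^ (n + 2) * g s)
      (vv G V ε (γ s) ^ (n + 1) * ((n + 2 : ℕ) * (pp G (γ s) * e).re * g s) +
        vv G V ε (γ s) ^ (n + 2) * g') s := by
  by_cases h : γ s ∈ V
  · exact ((T.hasDerivAt_pow hγ h n).mul (hg h)).congr_deriv (by ring)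
  · rw [(T.ev_zero h).self_of_nhds, zero_pow n.succ_ne_zero, zero_pow (n + 1).succ_ne_zero,
      zero_mul, zero_mul, add_zero]
    refine (hasDerivAt_const s (0 : ℝ)).congr_of_eventuallyEq ?_
    filter_upwards [hγ.continuousAt.eventually (T.ev_zero h)] with x hx
    simp [hx]

theorem strip (hV : ∀ t : ℝ, (⟨t, -Real.pi⟩ : ℂ) ∈ V ↔ (⟨t, Real.pi⟩ : ℂ) ∈ V)
    (hG : ∀ ζ, G (ζ + 2 * Real.pi * I) = G ζ)
    (hcirc : ∀ t : ℝ, ∃ θ ∈ Icc (-Real.pi) Real.pi, vv G V ε ⟨t, θ⟩ = 0) {t0 K : ℝ}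
    (hlow : ∀ ζ : ℂ, ζ.re ≤ t0 → vv G V ε ζ = 0)
    (hup : ∀ ζ : ℂ, 1 ≤ ζ.re → vv G V ε ζ ≤ K * ζ.re) {t θ : ℝ}
    (hθ : θ ∈ Icc (-Real.pi) Real.pi) : vv G V ε ⟨t, θ⟩ = 0 := by
  have hπ := Real.pi_pos
  have hππ : -Real.pi ≤ Real.pi := by linarith
  set v := vv G V ε
  set p := pp G
  have hp : ∀ ζ ∈ V, ContinuousAt p ζ := fun ζ h => (T.an_pp h).continuousAt
  have hp' : ∀ ζ ∈ V, ContinuousAt (deriv p) ζ := fun ζ h => (T.an_pp h).deriv.continuousAt
  have hre : ∀ ζ ∈ V, ContinuousAt (fun ζ => (p ζ).re) ζ := fun ζ h =>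
    continuous_re.continuousAt.comp (hp ζ h)
  have him : ∀ ζ ∈ V, ContinuousAt (fun ζ => (p ζ).im) ζ := fun ζ h =>
    continuous_im.continuousAt.comp (hp ζ h)
  have hre' : ∀ ζ ∈ V, ContinuousAt (fun ζ => (deriv p ζ).re) ζ := fun ζ h =>
    continuous_re.continuousAt.comp (hp' ζ h)
  have cA : Continuous fun ζ => v ζ ^ 4 := by
    simpa using T.continuous_mul (g := fun _ => 1) (fun _ _ => continuousAt_const) 3
  have cB : Continuous fun ζ => v ζ ^ 3 * (p ζ).re := T.continuous_mul hre 2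
  have cI : Continuous fun ζ => v ζ ^ 3 * (p ζ).im := T.continuous_mul him 2
  have cC : Continuous fun ζ => v ζ ^ 2 * (p ζ).re ^ 2 :=
    T.continuous_mul (fun ζ h => (hre ζ h).pow 2) 1
  have cD : Continuous fun ζ => v ζ ^ 2 * (p ζ).im ^ 2 :=
    T.continuous_mul (fun ζ h => (him ζ h).pow 2) 1
  have cE : Continuous fun ζ => v ζ ^ 3 * (deriv p ζ).re := T.continuous_mul hre' 2
  have cG : Continuous fun ζ => 12 * (v ζ ^ 2 * (p ζ).re ^ 2) + 4 * (v ζ ^ 3 * (deriv p ζ).re) :=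
    (cC.const_mul 12).add (cE.const_mul 4)
  have dp : ∀ {γ : ℝ → ℂ} {e : ℂ} {s : ℝ}, HasDerivAt γ e s → γ s ∈ V →
      HasDerivAt (fun s => p (γ s)) (e * deriv p (γ s)) s := fun hγ h =>
    (T.an_pp h).differentiableAt.hasDerivAt.scomp _ hγ
  set m : ℝ → ℝ := fun t => ∫ θ in (-Real.pi)..Real.pi, v ⟨t, θ⟩ ^ 4
  set m1 : ℝ → ℝ := fun t => ∫ θ in (-Real.pi)..Real.pi, 4 * (v ⟨t, θ⟩ ^ 3 * (p ⟨t, θ⟩).re)
  set m2 : ℝ → ℝ := fun t => ∫ θ in (-Real.pi)..Real.pi,
    (12 * (v ⟨t, θ⟩ ^ 2 * (p ⟨t, θ⟩).re ^ 2) + 4 * (v ⟨t, θ⟩ ^ 3 * (deriv p ⟨t, θ⟩).re))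
  have h1 : ∀ t, HasDerivAt m (m1 t) t := fun t => by
    refine hasDerivAt_param (fun t θ => v ⟨t, θ⟩ ^ 4)
      (fun t θ => 4 * (v ⟨t, θ⟩ ^ 3 * (p ⟨t, θ⟩).re)) (cA.comp continuous_mk)
      ((cB.comp continuous_mk).const_mul 4) (fun t θ => ?_) _ _ t
    have := T.hasDerivAt_mul (hasDerivAt_mk_left θ t) 2 (fun _ => hasDerivAt_const t (1 : ℝ))
    simp only [mul_one] at this
    exact this.congr_deriv (by push_cast; ring)
  have h2 : ∀ t, HasDerivAt m1 (m2 t) t := fun t => by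
    refine hasDerivAt_param (fun t θ => 4 * (v ⟨t, θ⟩ ^ 3 * (p ⟨t, θ⟩).re))
      (fun t θ => 12 * (v ⟨t, θ⟩ ^ 2 * (p ⟨t, θ⟩).re ^ 2) +
        4 * (v ⟨t, θ⟩ ^ 3 * (deriv p ⟨t, θ⟩).re)) ((cB.comp continuous_mk).const_mul 4)
      (cG.comp continuous_mk) (fun t θ => ?_) _ _ t
    have := T.hasDerivAt_mul (hasDerivAt_mk_left θ t) 1 (fun h =>
      reCLM.hasFDerivAt.comp_hasDerivAt t (dp (hasDerivAt_mk_left θ t) h))
    exact (this.const_mul 4).congr_deriv (by simp [p]; ring)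
  have ii : ∀ {F : ℂ → ℝ}, Continuous F → ∀ t a b : ℝ,
      IntervalIntegrable (fun θ : ℝ => F ⟨t, θ⟩) volume a b := fun hF t a b =>
    (hF.comp (continuous_mk_right t)).intervalIntegrable a b
  have hle : ∀ t, m t ≤ 100 * m2 t := by
    intro t
    have e1 : ∫ θ in (-Real.pi)..Real.pi, (v ⟨t, θ⟩ ^ 3 * (deriv p ⟨t, θ⟩).re -
        3 * (v ⟨t, θ⟩ ^ 2 * (p ⟨t, θ⟩).im ^ 2)) = 0 := by
      rw [intervalIntegral.integral_eq_sub_of_hasDerivAt
        (f := fun θ : ℝ => v ⟨t, θ⟩ ^ 3 * (p ⟨t, θ⟩).im)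
        (f' := fun θ : ℝ => v ⟨t, θ⟩ ^ 3 * (deriv p ⟨t, θ⟩).re -
          3 * (v ⟨t, θ⟩ ^ 2 * (p ⟨t, θ⟩).im ^ 2)) (fun θ _ => ?_)
        ((ii cE t _ _).sub (ii (cD.const_mul 3) t _ _))]
      · have e2 : (⟨t, Real.pi⟩ : ℂ) = ⟨t, -Real.pi⟩ + 2 * Real.pi * I := by
          apply Complex.ext <;> simp
          ring
        have e3 : p ⟨t, Real.pi⟩ = p ⟨t, -Real.pi⟩ := by
          have e4 : deriv G ((⟨t, -Real.pi⟩ : ℂ) + 2 * Real.pi * I) = deriv G ⟨t, -Real.pi⟩ := by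
            rw [← deriv_comp_add_const G]
            simp only [hG]
          simp only [p, pp, e2, hG, e4]
        have e5 : v ⟨t, Real.pi⟩ = v ⟨t, -Real.pi⟩ := by
          have e6 : G ⟨t, Real.pi⟩ = G ⟨t, -Real.pi⟩ := by rw [e2, hG]
          simp only [v, vv, e6]
          by_cases h : (⟨t, Real.pi⟩ : ℂ) ∈ V
          · rw [if_pos h, if_pos ((hV t).mpr h)]
          · rw [if_neg h, if_neg fun h' => h ((hV t).mp h')]
        rw [e3, e5, sub_self]
      · have := T.hasDerivAt_mul (hasDerivAt_mk_right t θ) 1 (fun h =>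
          imCLM.hasFDerivAt.comp_hasDerivAt θ (dp (hasDerivAt_mk_right t θ) h))
        exact this.congr_deriv (by simp [p]; ring)
    set D := ∫ θ in (-Real.pi)..Real.pi, v ⟨t, θ⟩ ^ 2 * (p ⟨t, θ⟩).im ^ 2
    have e2 : 12 * D ≤ m2 t := by
      rw [intervalIntegral.integral_sub (ii cE t _ _) (ii (cD.const_mul 3) t _ _),
        intervalIntegral.integral_const_mul] at e1
      simp only [m2]
      rw [intervalIntegral.integral_add (ii (cC.const_mul 12) t _ _) (ii (cE.const_mul 4) t _ _),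
        intervalIntegral.integral_const_mul, intervalIntegral.integral_const_mul]
      have : 0 ≤ ∫ θ in (-Real.pi)..Real.pi, v ⟨t, θ⟩ ^ 2 * (p ⟨t, θ⟩).re ^ 2 :=
        intervalIntegral.integral_nonneg hππ fun θ _ => by positivity
      linarith
    have hD : 0 ≤ D := intervalIntegral.integral_nonneg hππ fun θ _ => by positivity
    have hm : 0 ≤ m t := intervalIntegral.integral_nonneg hππ fun θ _ => by positivity
    obtain ⟨θ0, hθ0, hv0⟩ := hcirc t
    have e3 : ∀ θ ∈ Icc (-Real.pi) Real.pi, v ⟨t, θ⟩ ^ 4 ≤ m t / 16 + 64 * D := by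
      intro θ hθ
      have e4 := intervalIntegral.integral_eq_sub_of_hasDerivAt (a := θ0) (b := θ)
        (f := fun θ : ℝ => v ⟨t, θ⟩ ^ 4)
        (f' := fun θ : ℝ => -4 * (v ⟨t, θ⟩ ^ 3 * (p ⟨t, θ⟩).im)) (fun θ _ => by
          have := T.hasDerivAt_mul (hasDerivAt_mk_right t θ) 2
            (fun _ => hasDerivAt_const θ (1 : ℝ))
          simp only [mul_one] at this
          exact this.congr_deriv (by simp [p]; ring)) (ii (cI.const_mul (-4)) t _ _)
      rw [hv0, zero_pow four_ne_zero, sub_zero] at e4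
      have cF : Continuous fun ζ => v ζ ^ 4 / 16 + 64 * (v ζ ^ 2 * (p ζ).im ^ 2) :=
        (cA.div_const 16).add (cD.const_mul 64)
      have e5 := intervalIntegral.norm_integral_le_abs_of_norm_le (a := θ0) (b := θ)
        (f := fun θ : ℝ => -4 * (v ⟨t, θ⟩ ^ 3 * (p ⟨t, θ⟩).im))
        (Eventually.of_forall fun θ => ?_) (ii cF t _ _)
      · have e6 := intervalIntegral.abs_integral_mono_interval (c := -Real.pi) (d := Real.pi)
          (a := θ0) (b := θ) (μ := volume)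
          (f := fun θ : ℝ => v ⟨t, θ⟩ ^ 4 / 16 + 64 * (v ⟨t, θ⟩ ^ 2 * (p ⟨t, θ⟩).im ^ 2))
          (uIoc_subset_uIoc_of_uIcc_subset_uIcc
            (uIcc_subset_uIcc (by rwa [uIcc_of_le hππ]) (by rwa [uIcc_of_le hππ])))
          (Eventually.of_forall fun θ => by positivity) (ii cF t _ _)
        rw [intervalIntegral.integral_add (a := -Real.pi) (ii (cA.div_const 16) t _ _)
          (ii (cD.const_mul 64) t _ _), intervalIntegral.integral_div,
          intervalIntegral.integral_const_mul,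
          abs_of_nonneg (a := m t / 16 + 64 * D) (by positivity)] at e6
        rw [e4] at e5
        exact (le_abs_self _).trans (e5.trans e6)
      · rw [Real.norm_eq_abs, abs_le]
        constructor
        · nlinarith [sq_nonneg (v ⟨t, θ⟩ ^ 2 / 4 - 8 * (v ⟨t, θ⟩ * (p ⟨t, θ⟩).im))]
        · nlinarith [sq_nonneg (v ⟨t, θ⟩ ^ 2 / 4 + 8 * (v ⟨t, θ⟩ * (p ⟨t, θ⟩).im))]
    have e7 := intervalIntegral.integral_mono_on hππ (ii cA t _ _) intervalIntegrable_const e3
    rw [intervalIntegral.integral_const, smul_eq_mul] at e7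
    have e8 : (Real.pi - -Real.pi) * (m t / 16 + 64 * D) ≤ 8 * (m t / 16 + 64 * D) := by
      gcongr
      linarith [Real.pi_le_four]
    have e9 : m t ≤ 8 * (m t / 16 + 64 * D) := e7.trans e8
    linarith
  have hg : m =O[atTop] fun t => t ^ 4 := by
    refine Asymptotics.IsBigO.of_bound (K ^ 4 * |Real.pi - -Real.pi|) ?_
    filter_upwards [eventually_ge_atTop 1] with t ht
    refine (intervalIntegral.norm_integral_le_of_norm_le_const (C := (K * t) ^ 4)
      fun θ _ => ?_).trans (le_of_eq ?_)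
    · rw [Real.norm_eq_abs, abs_of_nonneg (by positivity)]
      exact pow_le_pow_left₀ (vv_nonneg _ _ _ _) (hup ⟨t, θ⟩ ht) 4
    · rw [Real.norm_eq_abs, abs_of_nonneg (a := t ^ 4) (by positivity)]
      ring
  rcases le_total t t0 with ht | ht
  · exact hlow _ ht
  have h0 : m t0 = 0 := by
    simp only [m, hlow ⟨t0, _⟩ le_rfl]
    simp
  by_contra hne
  refine absurd (ode_nonpos h1 h2 hle h0 hg ht) (not_le.mpr ?_)
  exact intervalIntegral.integral_pos (by linarith)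
    (cA.comp (continuous_mk_right t)).continuousOn (fun θ _ => by positivity)
    ⟨θ, hθ, pow_pos (lt_of_le_of_ne (vv_nonneg _ _ _ _) (Ne.symm hne)) 4⟩

end Tract

/-- A component of the set where `h` is small that contains no circle around the origin cannot
carry a polynomial lower bound for `h`. -/
theorem carleman {h : ℂ → ℂ} {U : Set ℂ} (hU : IsOpen U) (hd : DifferentiableOn ℂ h U)
    {ε c : ℝ} (hε : 0 < ε) (hc : 0 < c) {k : ℕ} (hk : k ≠ 0)
    (hlow : ∀ z ∈ U, c ≤ ‖z‖ ^ k * ‖h z‖)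
    (hbd : ∀ z, z ∉ U → ∀ᶠ w in 𝓝 z, w ∈ U → ε ≤ ‖h w‖)
    (hcirc : ∀ r, 0 < r → ∃ z, ‖z‖ = r ∧ (z ∈ U → ε ≤ ‖h z‖)) : ∀ z ∈ U, ε ≤ ‖h z‖ := by
  have hne : ∀ z ∈ U, h z ≠ 0 := fun z hz h0 => by
    have := hlow z hz
    rw [h0, norm_zero, mul_zero] at this
    linarith
  have T : Tract (fun ζ => h (exp ζ)) (exp ⁻¹' U) ε :=
    ⟨hU.preimage continuous_exp, hd.comp differentiable_exp.differentiableOn fun _ h => h,
      fun ζ hζ => hne _ hζ, hε, fun ζ hζ => continuous_exp.continuousAt.eventually (hbd _ hζ)⟩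
  have key : ∀ z, z ≠ 0 → exp (⟨Real.log ‖z‖, arg z⟩ : ℂ) = z := fun z hz => by
    rw [mk_eq_add_mul_I]
    exact exp_log hz
  have hb : ∀ ζ : ℂ, exp ζ ∈ U →
      Real.log ε - Real.log ‖h (exp ζ)‖ ≤ Real.log ε - Real.log c + k * ζ.re := fun ζ hζ => by
    have h1 := Real.log_le_log hc (hlow _ hζ)
    rw [Real.log_mul (pow_ne_zero _ (norm_ne_zero_iff.mpr (exp_ne_zero ζ)))
      (norm_ne_zero_iff.mpr (hne _ hζ)), Real.log_pow, norm_exp, Real.log_exp] at h1
    linarith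
  have hk' : (1 : ℝ) ≤ k := by exact_mod_cast Nat.one_le_iff_ne_zero.mpr hk
  intro z hz
  have hz0 : z ≠ 0 := by
    rintro rfl
    have := hlow 0 hz
    rw [norm_zero, zero_pow hk, zero_mul] at this
    linarith
  have := T.strip (t := Real.log ‖z‖) (θ := arg z) (t0 := -|Real.log ε - Real.log c|)
    (K := |Real.log ε - Real.log c| + k) (fun t => ?_) (fun ζ => ?_) (fun t => ?_)
    (fun ζ hζ => ?_) (fun ζ hζ => ?_) (Ioc_subset_Icc_self (arg_mem_Ioc z))
  · rw [vv, if_pos (show _ ∈ exp ⁻¹' U by rwa [mem_preimage, key z hz0]), key z hz0,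
      max_eq_right_iff, sub_nonpos] at this
    exact (Real.log_le_log_iff hε (norm_pos_iff.mpr (hne z hz))).mp this
  · simp [mem_preimage, mk_eq_add_mul_I, exp_add, exp_neg]
  · simp only [exp_add, exp_two_pi_mul_I, mul_one]
  · obtain ⟨w, hw1, hw2⟩ := hcirc _ (Real.exp_pos t)
    have hw0 : w ≠ 0 := by
      rw [← norm_pos_iff, hw1]
      exact Real.exp_pos t
    have := key w hw0
    rw [hw1, Real.log_exp] at this
    exact ⟨arg w, Ioc_subset_Icc_self (arg_mem_Ioc w), T.vv_eq_zero (by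
      simpa only [mem_preimage, this] using hw2)⟩
  · unfold vv
    split_ifs with h1
    · refine max_eq_right ((hb ζ h1).trans ?_)
      nlinarith [le_abs_self (Real.log ε - Real.log c), abs_nonneg (Real.log ε - Real.log c)]
    · rfl
  · have h2 := abs_nonneg (Real.log ε - Real.log c)
    unfold vv
    split_ifs with h1
    · refine max_le ((hb ζ h1).trans ?_) (by positivity)
      nlinarith [le_abs_self (Real.log ε - Real.log c)]
    · positivity

end Pool.Agent.Lib.MP_6db618_an
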