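import Mathlib
import Pool.Agent.Lib.MP_6db618_an.EntArea

set_option autoImplicit false

namespace Pool.Agent.Lib.MP_6db618_an

open Set Filter Topology MeasureTheory Complex

/-- A non-constant meromorphic function in the plane, given on the complement of its poles. -/
structure Sys where
  H : ℂ → ℂ
  Ω : Set ℂ
  isOpen : IsOpen Ω
  diff : DifferentiableOn ℂ H Ω
  blow : ∀ z, z ∉ Ω → Tendsto (fun w => ‖H w‖) (𝓝[≠] z) atTop
  iso : ∀ z, ∀ᶠ w in 𝓝[≠] z, w ∈ Ω ∧ deriv H w ≠ 0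

/-- The open square of centre `a` and half side `η`. -/
def Sq (a : ℂ) (η : ℝ) : Set ℂ := {b | |b.re - a.re| < η ∧ |b.im - a.im| < η}

theorem isOpen_Sq (a : ℂ) (η : ℝ) : IsOpen (Sq a η) :=
  (isOpen_lt (f := fun b : ℂ => |b.re - a.re|) (by fun_prop) continuous_const).inter
    (isOpen_lt (f := fun b : ℂ => |b.im - a.im|) (by fun_prop) continuous_const)

theorem mem_Sq_self (a : ℂ) {η : ℝ} (h : 0 < η) : a ∈ Sq a η := by simp [Sq, h]

theorem Sq_subset_ball (a : ℂ) (η : ℝ) : Sq a η ⊆ Metric.ball a (2 * η) := by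
  intro b hb
  rw [mem_ball_iff_norm]
  have := norm_le_abs_re_add_abs_im (b - a)
  simp only [sub_re, sub_im] at this
  linarith [hb.1, hb.2]

theorem ball_subset_Sq (a : ℂ) (η : ℝ) : Metric.ball a η ⊆ Sq a η := by
  intro b hb
  rw [mem_ball_iff_norm] at hb
  exact ⟨(abs_re_le_norm (b - a)).trans_lt hb, (abs_im_le_norm (b - a)).trans_lt hb⟩

theorem eventually_Sq_subset {a : ℂ} {O : Set ℂ} (hO : O ∈ 𝓝 a) :
    ∀ᶠ η in 𝓝[>] (0 : ℝ), Sq a η ⊆ O := by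
  obtain ⟨r, hr, h⟩ := Metric.mem_nhds_iff.mp hO
  filter_upwards [Ioo_mem_nhdsGT (half_pos hr)] with η hη
  exact (Sq_subset_ball a η).trans ((Metric.ball_subset_ball (by linarith [hη.2])).trans h)

namespace Sys

variable (S : Sys)

/-- The regular points. -/
def Reg : Set ℂ := {z | z ∈ S.Ω ∧ deriv S.H z ≠ 0}

theorem analyticAt {z : ℂ} (hz : z ∈ S.Ω) : AnalyticAt ℂ S.H z :=
  S.diff.analyticAt (S.isOpen.mem_nhds hz)

theorem continuousAt {z : ℂ} (hz : z ∈ S.Ω) : ContinuousAt S.H z :=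
  (S.analyticAt hz).continuousAt

theorem isOpen_Reg : IsOpen S.Reg := by
  rw [isOpen_iff_mem_nhds]
  intro z hz
  filter_upwards [S.isOpen.mem_nhds hz.1,
    (S.analyticAt hz.1).deriv.continuousAt.eventually_ne hz.2] with w h1 h2
  exact ⟨h1, h2⟩

theorem countable_compl_Reg : (S.Regᶜ).Countable := by
  have : IsDiscrete (S.Regᶜ) := by
    rw [isDiscrete_iff_nhdsNE]
    intro z _
    rw [Filter.inf_principal_eq_bot, compl_compl]
    exact S.iso z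
  exact (HereditarilyLindelofSpace.isLindelof _).countable_of_isDiscrete this

theorem mem_of_frequently {z : ℂ} {C : ℝ} (h : ∃ᶠ w in 𝓝 z, w ∈ S.Ω ∧ ‖S.H w‖ ≤ C) :
    z ∈ S.Ω := by
  by_contra hz
  have h1 := eventually_nhdsWithin_iff.mp ((S.blow z hz).eventually_gt_atTop C)
  obtain ⟨w, ⟨hw1, hw2⟩, hw3⟩ := (h.and_eventually h1).exists
  exact absurd (hw3 fun h => hz (h ▸ hw1)) (not_lt.mpr hw2)

/-- A local inverse `ψ : Q → N` of `H`. -/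
structure Chart (Q N : Set ℂ) (ψ : ℂ → ℂ) : Prop where
  oQ : IsOpen Q
  oN : IsOpen N
  cont : ContinuousOn ψ Q
  maps : ∀ a ∈ Q, ψ a ∈ N
  reg : N ⊆ S.Reg
  right : ∀ a ∈ Q, S.H (ψ a) = a
  left : ∀ w ∈ N, S.H w ∈ Q ∧ ψ (S.H w) = w

theorem exists_chart {z : ℂ} (hz : z ∈ S.Reg) {O : Set ℂ} (hO : O ∈ 𝓝 z) :
    ∀ᶠ η in 𝓝[>] (0 : ℝ), ∃ N ψ, S.Chart (Sq (S.H z) η) N ψ ∧ z ∈ N ∧ N ⊆ O := by
  have hs := ((S.analyticAt hz.1).hasStrictDerivAt.hasStrictFDerivAt_equiv hz.2)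
  obtain ⟨O', hO1, hO2, hO3⟩ := mem_nhds_iff.mp (inter_mem hO (S.isOpen_Reg.mem_nhds hz))
  let e := (hs.toOpenPartialHomeomorph S.H).restrOpen O' hO2
  have he : ∀ w, e w = S.H w := fun w => rfl
  have hsrc : e.source ⊆ O' := inter_subset_right
  have hze : z ∈ e.source := ⟨hs.mem_toOpenPartialHomeomorph_source, hO3⟩
  filter_upwards [eventually_Sq_subset (e.open_target.mem_nhds (e.map_source hze)),
    self_mem_nhdsWithin] with η hη hη0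
  refine ⟨e.source ∩ e ⁻¹' Sq (S.H z) η, e.symm, ⟨isOpen_Sq _ _,
    e.isOpen_inter_preimage (isOpen_Sq _ _), e.continuousOn_symm.mono hη, fun a ha => ?_,
    fun w hw => (hO1 (hsrc hw.1)).2, fun a ha => e.right_inv (hη ha),
    fun w hw => ⟨hw.2, e.left_inv hw.1⟩⟩, ⟨hze, mem_Sq_self _ hη0⟩,
    fun w hw => (hO1 (hsrc hw.1)).1⟩
  refine ⟨e.map_target (hη ha), ?_⟩
  rw [mem_preimage, e.right_inv (hη ha)]
  exact ha

theorem exists_chart' {z : ℂ} (hz : z ∈ S.Reg) :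
    ∃ η, 0 < η ∧ ∃ N ψ, S.Chart (Sq (S.H z) η) N ψ ∧ z ∈ N := by
  obtain ⟨η, ⟨N, ψ, h1, h2, -⟩, h3⟩ :=
    ((S.exists_chart hz univ_mem).and self_mem_nhdsWithin).exists
  exact ⟨η, h3, N, ψ, h1, h2⟩

variable {S}

theorem hasDerivAt_inv {φ : ℂ → ℂ} {a : ℂ} (hc : ContinuousAt φ a) (hr : φ a ∈ S.Reg)
    (h : ∀ᶠ b in 𝓝 a, S.H (φ b) = b) : HasDerivAt φ (deriv S.H (φ a))⁻¹ a :=
  HasDerivAt.of_local_left_inverse hc (S.analyticAt hr.1).differentiableAt.hasDerivAt hr.2 h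

theorem Chart.hasDerivAt {Q N : Set ℂ} {ψ : ℂ → ℂ} (c : S.Chart Q N ψ) {a : ℂ} (ha : a ∈ Q) :
    HasDerivAt ψ (deriv S.H (ψ a))⁻¹ a :=
  hasDerivAt_inv (c.cont.continuousAt (c.oQ.mem_nhds ha)) (c.reg (c.maps a ha))
    (mem_of_superset (c.oQ.mem_nhds ha) c.right)

theorem Chart.differentiableOn {Q N : Set ℂ} {ψ : ℂ → ℂ} (c : S.Chart Q N ψ) :
    DifferentiableOn ℂ ψ Q := fun _ ha => (c.hasDerivAt ha).differentiableAt.differentiableWithinAt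

/-- Uniqueness of lifts. -/
theorem lift_unique {s : Set ℝ} (hs : IsPreconnected s) {γ₁ γ₂ : ℝ → ℂ}
    (h₁ : ContinuousOn γ₁ s) (h₂ : ContinuousOn γ₂ s) (hr : ∀ x ∈ s, γ₁ x ∈ S.Reg)
    (he : ∀ x ∈ s, S.H (γ₁ x) = S.H (γ₂ x)) {x₀ : ℝ} (hx₀ : x₀ ∈ s) (h₀ : γ₁ x₀ = γ₂ x₀) :
    ∀ x ∈ s, γ₁ x = γ₂ x := by
  have := isPreconnected_iff_preconnectedSpace.mp hs
  have c₁ : Continuous fun x : s => γ₁ x := continuousOn_iff_continuous_domRestrict.mp h₁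
  have c₂ : Continuous fun x : s => γ₂ x := continuousOn_iff_continuous_domRestrict.mp h₂
  have hcl : IsClopen {x : s | γ₁ x = γ₂ x} := by
    refine ⟨isClosed_eq c₁ c₂, isOpen_iff_mem_nhds.mpr fun x hx => ?_⟩
    obtain ⟨η, -, N, ψ, c, hN⟩ := S.exists_chart' (hr x x.2)
    have hN' : γ₂ x ∈ N := (show γ₁ x = γ₂ x from hx) ▸ hN
    filter_upwards [c₁.continuousAt.preimage_mem_nhds (c.oN.mem_nhds hN),
      c₂.continuousAt.preimage_mem_nhds (c.oN.mem_nhds hN')] with y e₁ e₂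
    exact (c.left _ e₁).2.symm.trans ((congrArg ψ (he y y.2)).trans (c.left _ e₂).2)
  have := hcl.eq_univ ⟨⟨x₀, hx₀⟩, h₀⟩
  intro x hx
  exact (this ▸ mem_univ _ : (⟨x, hx⟩ : s) ∈ {x : s | γ₁ x = γ₂ x})

end Sys

end Pool.Agent.Lib.MP_6db618_an
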