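import Mathlib
import Pool.Agent.Lib.MP_6db618_an.EntSys

set_option autoImplicit false

namespace Pool.Agent.Lib.MP_6db618_an

open Set Filter Topology MeasureTheory Complex

namespace Sys

/-- A continuation of the local inverse `ψ0` to the right along horizontal lines. -/
structure Adm (S : Sys) (a0 : ℂ) (η : ℝ) (ψ0 : ℂ → ℂ) (W : Set ℂ) (ψ : ℂ → ℂ) : Prop where
  op : IsOpen W
  re : ∀ a ∈ W, a0.re - η < a.re
  im : ∀ a ∈ W, |a.im - a0.im| < η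
  star : ∀ a ∈ W, ∀ s, a0.re - η < s → s ≤ a.re → (⟨s, a.im⟩ : ℂ) ∈ W
  cont : ContinuousOn ψ W
  reg : ∀ a ∈ W, ψ a ∈ S.Reg
  lift : ∀ a ∈ W, S.H (ψ a) = a
  init : ∀ a ∈ W, a.re < a0.re → ψ a = ψ0 a

variable {S : Sys} {a0 : ℂ} {η : ℝ} {ψ0 : ℂ → ℂ}

theorem Adm.eq {W W' : Set ℂ} {ψ ψ' : ℂ → ℂ} (h : S.Adm a0 η ψ0 W ψ) (h' : S.Adm a0 η ψ0 W' ψ')
    {a : ℂ} (ha : a ∈ W) (ha' : a ∈ W') : ψ a = ψ' a := by
  have hη : 0 < η := (abs_nonneg _).trans_lt (h.im a ha)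
  have m : ∀ s ∈ Ioc (a0.re - η) a.re, (⟨s, a.im⟩ : ℂ) ∈ W := fun s hs => h.star a ha s hs.1 hs.2
  have m' : ∀ s ∈ Ioc (a0.re - η) a.re, (⟨s, a.im⟩ : ℂ) ∈ W' :=
    fun s hs => h'.star a ha' s hs.1 hs.2
  have hx : min a.re (a0.re - η / 2) ∈ Ioc (a0.re - η) a.re :=
    ⟨lt_min (h.re a ha) (by linarith), min_le_left _ _⟩
  have hx' : min a.re (a0.re - η / 2) < a0.re := (min_le_right _ _).trans_lt (by linarith)
  exact lift_unique (S := S) (γ₁ := fun s => ψ ⟨s, a.im⟩) (γ₂ := fun s => ψ' ⟨s, a.im⟩)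
    isPreconnected_Ioc (h.cont.comp (continuous_mk_left _).continuousOn m)
    (h'.cont.comp (continuous_mk_left _).continuousOn m') (fun s hs => h.reg _ (m s hs))
    (fun s hs => (h.lift _ (m s hs)).trans (h'.lift _ (m' s hs)).symm) hx
    ((h.init _ (m _ hx) hx').trans (h'.init _ (m' _ hx) hx').symm) a.re ⟨h.re a ha, le_rfl⟩

theorem exists_max (S : Sys) (a0 : ℂ) (η : ℝ) (ψ0 : ℂ → ℂ) :
    ∃ W φ, S.Adm a0 η ψ0 W φ ∧ ∀ W' ψ', S.Adm a0 η ψ0 W' ψ' → W' ⊆ W := by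
  classical
  let W : Set ℂ := {a | ∃ p : Set ℂ × (ℂ → ℂ), S.Adm a0 η ψ0 p.1 p.2 ∧ a ∈ p.1}
  let φ : ℂ → ℂ := fun a => if h : a ∈ W then h.choose.2 a else 0
  have hφ : ∀ W' ψ', S.Adm a0 η ψ0 W' ψ' → ∀ a ∈ W', φ a = ψ' a := by
    intro W' ψ' h a ha
    have haW : a ∈ W := ⟨(W', ψ'), h, ha⟩
    simp only [φ, dif_pos haW]
    exact haW.choose_spec.1.eq h haW.choose_spec.2 ha
  refine ⟨W, φ, ⟨?_, ?_, ?_, ?_, ?_, ?_, ?_, ?_⟩, fun W' ψ' h a ha => ⟨(W', ψ'), h, ha⟩⟩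
  · refine isOpen_iff_mem_nhds.mpr ?_
    rintro a ⟨p, hp, ha⟩
    exact mem_of_superset (hp.op.mem_nhds ha) fun b hb => ⟨p, hp, hb⟩
  · rintro a ⟨p, hp, ha⟩
    exact hp.re a ha
  · rintro a ⟨p, hp, ha⟩
    exact hp.im a ha
  · rintro a ⟨p, hp, ha⟩ s h1 h2
    exact ⟨p, hp, hp.star a ha s h1 h2⟩
  · rintro a ⟨p, hp, ha⟩
    refine ((hp.cont.continuousAt (hp.op.mem_nhds ha)).congr ?_).continuousWithinAt
    exact mem_of_superset (hp.op.mem_nhds ha) fun b hb => (hφ _ _ hp b hb).symm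
  · rintro a ⟨p, hp, ha⟩
    rw [hφ _ _ hp a ha]
    exact hp.reg a ha
  · rintro a ⟨p, hp, ha⟩
    rw [hφ _ _ hp a ha]
    exact hp.lift a ha
  · rintro a ⟨p, hp, ha⟩
    rw [hφ _ _ hp a ha]
    exact hp.init a ha

theorem Chart.adm {N : Set ℂ} (c : S.Chart (Sq a0 η) N ψ0) : S.Adm a0 η ψ0 (Sq a0 η) ψ0 :=
  ⟨c.oQ, fun a ha => by linarith [(abs_lt.mp ha.1).1], fun _ ha => ha.2,
    fun a ha s h1 h2 => ⟨abs_lt.mpr ⟨by linarith, by linarith [(abs_lt.mp ha.1).2]⟩, ha.2⟩,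
    c.cont, fun a ha => c.reg (c.maps a ha), c.right, fun _ _ _ => rfl⟩

theorem Adm.extend {W : Set ℂ} {φ : ℂ → ℂ} (h : S.Adm a0 η ψ0 W φ) {t e C : ℝ}
    (he : a0.re < e) (hη : 0 < η) (hW : ∀ s ∈ Ico a0.re e, (⟨s, t⟩ : ℂ) ∈ W)
    (hC : ∀ s ∈ Ico a0.re e, ‖φ ⟨s, t⟩‖ ≤ C) (ht : ∀ z ∈ S.Ω, (S.H z).im = t → z ∈ S.Reg) :
    ∃ W' ψ', S.Adm a0 η ψ0 W' ψ' ∧ (⟨e, t⟩ : ℂ) ∈ W' := by
  have hI : ∀ᶠ s in 𝓝[<] e, s ∈ Ico a0.re e := Ico_mem_nhdsLT he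
  obtain ⟨z, -, hz⟩ := (isCompact_closedBall (0 : ℂ) C).exists_mapClusterPt
    (f := 𝓝[<] e) (u := fun s => φ ⟨s, t⟩)
    (tendsto_principal.mpr (hI.mono fun s hs => by simpa using hC s hs))
  have hz' := mapClusterPt_iff_frequently.mp hz
  have hlim : Tendsto (fun s : ℝ => S.H (φ ⟨s, t⟩)) (𝓝[<] e) (𝓝 ⟨e, t⟩) :=
    ((continuous_mk_left t).continuousAt.tendsto.mono_left nhdsWithin_le_nhds).congr'
      (hI.mono fun s hs => (h.lift _ (hW s hs)).symm)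
  have hzΩ : z ∈ S.Ω := by
    refine S.mem_of_frequently (C := ‖(⟨e, t⟩ : ℂ)‖ + 1) (frequently_iff.mpr fun {U} hU => ?_)
    obtain ⟨s, hs1, hs2, hs3⟩ := ((hz' U hU).and_eventually
      (hI.and (hlim.norm.eventually_le_const (lt_add_one _)))).exists
    exact ⟨_, hs1, (h.reg _ (hW s hs2)).1, hs3⟩
  have hHz : S.H z = ⟨e, t⟩ :=
    eq_of_nhds_neBot ((hz.continuousAt_comp (S.continuousAt hzΩ)).clusterPt.mono hlim)
  obtain ⟨η₁, -, N, ψ, c, hN⟩ := S.exists_chart' (ht z hzΩ (by rw [hHz]))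
  rw [hHz] at c
  obtain ⟨s₁, hs1, hs2⟩ := ((hz' N (c.oN.mem_nhds hN)).and_eventually hI).exists
  have hs3 : (⟨s₁, t⟩ : ℂ) ∈ Sq ⟨e, t⟩ η₁ := h.lift _ (hW s₁ hs2) ▸ (c.left _ hs1).1
  have hnb : W ∩ φ ⁻¹' N ∩ Sq ⟨e, t⟩ η₁ ∈ 𝓝 (⟨s₁, t⟩ : ℂ) :=
    inter_mem (inter_mem (h.op.mem_nhds (hW s₁ hs2))
      ((h.cont.continuousAt (h.op.mem_nhds (hW s₁ hs2))).preimage_mem_nhds (c.oN.mem_nhds hs1)))
      (c.oQ.mem_nhds hs3)
  obtain ⟨η₂, hsub, hη₂⟩ := ((eventually_Sq_subset hnb).and self_mem_nhdsWithin).exists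
  have hη₂' : 0 < η₂ := hη₂
  let W' : Set ℂ := {a | a0.re - η < a.re ∧ a.re < e + η₁ ∧ |a.im - t| < η₂}
  have hmid : ∀ a ∈ W', (⟨s₁, a.im⟩ : ℂ) ∈ Sq ⟨s₁, t⟩ η₂ := fun a ha =>
    ⟨by simpa using hη₂', ha.2.2⟩
  have hl : ∀ a ∈ W', a.re ≤ s₁ → a ∈ W := fun a ha h1 =>
    h.star _ (hsub (hmid a ha)).1.1 a.re ha.1 h1
  have hr : ∀ a ∈ W', s₁ ≤ a.re → a ∈ Sq ⟨e, t⟩ η₁ := fun a ha h1 =>
    ⟨abs_lt.mpr ⟨by linarith [(abs_lt.mp hs3.1).1], by linarith [ha.2.1]⟩,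
      (hsub (hmid a ha)).2.2⟩
  have hsq : ∀ a ∈ W', s₁ ≤ a.re → a.re < s₁ + η₂ → a ∈ Sq ⟨s₁, t⟩ η₂ := fun a ha h1 h2 =>
    ⟨abs_lt.mpr ⟨by linarith, by linarith⟩, ha.2.2⟩
  have hop : IsOpen W' :=
    (isOpen_lt continuous_const continuous_re).inter ((isOpen_lt continuous_re
      continuous_const).inter (isOpen_lt (f := fun a : ℂ => |a.im - t|) (by fun_prop)
        continuous_const))
  refine ⟨W', fun a => if a.re ≤ s₁ then φ a else ψ a, ⟨hop, fun a ha => ha.1,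
    fun a ha => h.im ⟨s₁, a.im⟩ (hsub (hmid a ha)).1.1, fun a ha s h1 h2 => ⟨h1, h2.trans_lt ha.2.1, ha.2.2⟩,
    fun a ha => ?_, fun a ha => ?_, fun a ha => ?_, fun a ha h1 => ?_⟩,
    ⟨by linarith, by linarith [(abs_nonneg _).trans_lt hs3.1], by simpa using hη₂'⟩⟩
  · refine ContinuousAt.continuousWithinAt ?_
    rcases le_or_gt a.re s₁ with h1 | h1
    · refine (h.cont.continuousAt (h.op.mem_nhds (hl a ha h1))).congr ?_
      filter_upwards [hop.mem_nhds ha, continuous_re.continuousAt.eventually_lt_const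
        (show a.re < s₁ + η₂ by linarith)] with b hb1 hb2
      split_ifs with hb
      · rfl
      · have hb3 := hsub (hsq b hb1 (not_le.mp hb).le hb2)
        exact (c.left _ hb3.1.2).2.symm.trans (congrArg ψ (h.lift b hb3.1.1))
    · refine (c.cont.continuousAt (c.oQ.mem_nhds (hr a ha h1.le))).congr ?_
      filter_upwards [continuous_re.continuousAt.eventually_const_lt h1] with b hb
      rw [if_neg (not_le.mpr hb)]
  · split_ifs with h1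
    · exact h.reg a (hl a ha h1)
    · exact c.reg (c.maps a (hr a ha (not_le.mp h1).le))
  · split_ifs with h1
    · exact h.lift a (hl a ha h1)
    · exact c.right a (hr a ha (not_le.mp h1).le)
  · have h2 : a.re ≤ s₁ := h1.le.trans hs2.1
    rw [if_pos h2]
    exact h.init a (hl a ha h2) h1

theorem Chart.ae_right {N : Set ℂ} (c : S.Chart (Sq a0 η) N ψ0) :
    ∀ᵐ t : ℝ, (∀ z ∈ S.Ω, (S.H z).im = t → z ∈ S.Reg) → ∀ z ∈ N, (S.H z).im = t →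
      ∃ γ : ℝ → ℂ, ContinuousOn γ (Ici 0) ∧ γ 0 = z ∧
        ∀ s, 0 ≤ s → γ s ∈ S.Reg ∧ S.H (γ s) = S.H z + s := by
  obtain ⟨W, φ, h, hmax⟩ := S.exists_max a0 η ψ0
  have hd : ∀ a ∈ W, HasDerivAt φ (deriv S.H (φ a))⁻¹ a := fun a ha =>
    hasDerivAt_inv (h.cont.continuousAt (h.op.mem_nhds ha)) (h.reg a ha)
      (mem_of_superset (h.op.mem_nhds ha) h.lift)
  have hinj : InjOn φ W := fun a ha b hb hab => by rw [← h.lift a ha, hab, h.lift b hb]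
  have hint := (integrable_indicator_iff h.op.measurableSet).mpr
    (integrableOn_area h.op hd hinj integrable_wt.integrableOn)
  filter_upwards [(integrable_prod_of_integrable hint).prod_left_ae] with t hF ht z hz hzt
  have hzQ := (c.left z hz).1
  have hη : 0 < η := (abs_nonneg _).trans_lt hzQ.1
  have hQ : ∀ s, a0.re - η < s → s < a0.re + η → (⟨s, t⟩ : ℂ) ∈ W := fun s h1 h2 =>
    hmax _ _ c.adm ⟨abs_lt.mpr ⟨by linarith, by linarith⟩, hzt ▸ hzQ.2⟩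
  have hall : ∀ s, a0.re - η < s → (⟨s, t⟩ : ℂ) ∈ W := by
    by_contra hno
    push Not at hno
    set E : Set ℝ := {s | a0.re - η < s ∧ (⟨s, t⟩ : ℂ) ∉ W}
    have hne : E.Nonempty := hno
    have hlb : a0.re + η ∈ lowerBounds E := fun s hs => not_lt.mp fun h1 => hs.2 (hQ s hs.1 h1)
    have he : a0.re < sInf E := lt_of_lt_of_le (by linarith) (le_csInf hne hlb)
    have hW : ∀ s ∈ Ico a0.re (sInf E), (⟨s, t⟩ : ℂ) ∈ W := fun s hs => by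
      by_contra h1
      exact absurd (csInf_le ⟨_, hlb⟩ (show s ∈ E from ⟨by linarith [hs.1], h1⟩)) (not_le.mpr hs.2)
    obtain ⟨C, hC⟩ := bounded_of_energy (γ := fun s => φ ⟨s, t⟩)
      (γ' := fun s => (deriv S.H (φ ⟨s, t⟩))⁻¹) (s := a0.re) (e := sInf E)
      (fun s hs => ((hd _ (hW s hs)).scomp s (hasDerivAt_mk_left t s)).congr_deriv (one_smul _ _))
      hF (fun s => indicator_nonneg (fun a _ => mul_nonneg (normSq_nonneg _) (wt_nonneg _)) _)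
      (fun s hs => by rw [indicator_of_mem (hW s hs)])
    obtain ⟨W', ψ', h1, h2⟩ := h.extend he hη hW hC ht
    have h3 : ∀ᶠ s in 𝓝 (sInf E), (⟨s, t⟩ : ℂ) ∈ W :=
      (continuous_mk_left t).continuousAt.preimage_mem_nhds (h.op.mem_nhds (hmax _ _ h1 h2))
    obtain ⟨s, hs1, hs2⟩ := (((isGLB_csInf hne ⟨_, hlb⟩).frequently_nhds_mem hne).and_eventually
      h3).exists
    exact hs1.2 hs2
  have hz1 : a0.re - η < (S.H z).re := by linarith [(abs_lt.mp hzQ.1).1]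
  have hmem : ∀ s, 0 ≤ s → S.H z + (s : ℝ) ∈ W := fun s hs => by
    have : S.H z + (s : ℝ) = ⟨(S.H z).re + s, t⟩ := by
      apply Complex.ext <;> simp [hzt]
    rw [this]
    exact hall _ (by linarith)
  refine ⟨fun s => φ (S.H z + s), h.cont.comp (by fun_prop) hmem, ?_,
    fun s hs => ⟨h.reg _ (hmem s hs), h.lift _ (hmem s hs)⟩⟩
  simp only [ofReal_zero, add_zero]
  rw [h.eq c.adm (hmax _ _ c.adm hzQ) hzQ]
  exact (c.left z hz).2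

theorem ae_ray (S : Sys) : ∀ᵐ t : ℝ, ∀ z ∈ S.Ω, (S.H z).im = t → z ∈ S.Reg ∧
    ∃ γ : ℝ → ℂ, ContinuousOn γ (Ici 0) ∧ γ 0 = z ∧
      ∀ s, 0 ≤ s → γ s ∈ S.Reg ∧ S.H (γ s) = S.H z + s := by
  have h1 : ∀ᵐ t : ℝ, t ∉ (fun z => (S.H z).im) '' S.Regᶜ :=
    (S.countable_compl_Reg.image _).ae_notMem volume
  choose! η hη N ψ c hN using fun z (hz : z ∈ S.Reg) => S.exists_chart' hz
  obtain ⟨T, hT1, hT2, hT3⟩ := (HereditarilyLindelofSpace.isLindelof S.Reg).elim_nhds_subcover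
    N fun z hz => (c z hz).oN.mem_nhds (hN z hz)
  have h2 := (ae_ball_iff hT1).mpr fun z hz => (c z (hT2 z hz)).ae_right
  filter_upwards [h1, h2] with t ht1 ht2 z hz hzt
  have hreg : ∀ z ∈ S.Ω, (S.H z).im = t → z ∈ S.Reg := fun w _ hw => by
    by_contra h
    exact ht1 ⟨w, h, hw⟩
  obtain ⟨w, hw1, hw2⟩ := mem_iUnion₂.mp (hT3 (hreg z hz hzt))
  exact ⟨hreg z hz hzt, ht2 w hw1 hreg z hw2 hzt⟩

/-- Multiplication of the function by a non-zero constant. -/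
def rot (S : Sys) (e : ℂ) (he : e ≠ 0) : Sys where
  H := fun z => e * S.H z
  Ω := S.Ω
  isOpen := S.isOpen
  diff := S.diff.const_mul e
  blow := fun z hz => by
    simpa only [norm_mul] using (S.blow z hz).const_mul_atTop (norm_pos_iff.mpr he)
  iso := fun z => (S.iso z).mono fun w hw => ⟨hw.1, by
    rw [deriv_const_mul_field']
    exact mul_ne_zero he hw.2⟩

/-- All rays in direction `e` on the line with parameter `t` lift from every point above them. -/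
def GoodDir (S : Sys) (e : ℂ) (t : ℝ) : Prop :=
  ∀ z ∈ S.Ω, (e⁻¹ * S.H z).im = t → z ∈ S.Reg ∧
    ∃ γ : ℝ → ℂ, ContinuousOn γ (Ici 0) ∧ γ 0 = z ∧
      ∀ s, 0 ≤ s → γ s ∈ S.Reg ∧ S.H (γ s) = S.H z + s * e

theorem ae_goodDir (S : Sys) {e : ℂ} (he : e ≠ 0) : ∀ᵐ t : ℝ, S.GoodDir e t := by
  have hR : ∀ z ∈ (S.rot e⁻¹ (inv_ne_zero he)).Reg, z ∈ S.Reg := fun z hz => ⟨hz.1, fun h => hz.2 (by
    change deriv (fun z => e⁻¹ * S.H z) z = 0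
    rw [deriv_const_mul_field']
    simp [h])⟩
  filter_upwards [(S.rot e⁻¹ (inv_ne_zero he)).ae_ray] with t ht z hz hzt
  obtain ⟨h1, γ, h2, h3, h4⟩ := ht z hz hzt
  refine ⟨hR z h1, γ, h2, h3, fun s hs => ⟨hR _ (h4 s hs).1, ?_⟩⟩
  have h5 : e⁻¹ * S.H (γ s) = e⁻¹ * S.H z + s := (h4 s hs).2
  field_simp at h5
  linear_combination h5

end Sys

end Pool.Agent.Lib.MP_6db618_an
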