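import Mathlib
import Pool.Agent.Lib.MP_6db618_an.EntGross

set_option autoImplicit false

namespace Pool.Agent.Lib.MP_6db618_an

open Set Filter Topology MeasureTheory Complex

theorem convex_Sq (c : ℂ) (η : ℝ) : Convex ℝ (Sq c η) := by
  have : Sq c η = ({z | c.re - η < z.re} ∩ {z | z.re < c.re + η}) ∩
      ({z | c.im - η < z.im} ∩ {z | z.im < c.im + η}) := by
    ext z
    simp only [Sq, abs_lt, mem_ofPred_eq, mem_inter_iff]
    constructor <;> rintro ⟨⟨h1, h2⟩, h3, h4⟩ <;> refine ⟨⟨?_, ?_⟩, ?_, ?_⟩ <;> linarith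
  rw [this]
  exact ((convex_halfSpace_re_gt _).inter (convex_halfSpace_re_lt _)).inter
    ((convex_halfSpace_im_gt _).inter (convex_halfSpace_im_lt _))

theorem isPreconnected_punctured (z : ℂ) {r : ℝ} (hr : 0 < r) :
    IsPreconnected (Metric.ball z r \ {z}) := by
  have : Metric.ball z r \ {z} = (fun w => z + exp w) '' {w | w.re < Real.log r} := by
    ext w
    constructor
    · rintro ⟨h1, h2⟩
      have h3 : w - z ≠ 0 := sub_ne_zero.mpr h2
      refine ⟨log (w - z), ?_, by simp [exp_log h3]⟩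
      rw [mem_ofPred_eq, log_re]
      exact Real.log_lt_log (norm_pos_iff.mpr h3) (mem_ball_iff_norm.mp h1)
    · rintro ⟨v, hv, rfl⟩
      refine ⟨?_, by simp⟩
      rw [mem_ball_iff_norm, add_sub_cancel_left, norm_exp]
      exact (Real.lt_log_iff_exp_lt hr).mp hv
  rw [this]
  exact (convex_halfSpace_re_lt _).isPreconnected.image _ (by fun_prop)

namespace Sys

/-- `w` is the end point of the lift from `z` of the segment from `a` to `b`. -/
def Lift (S : Sys) (a b z w : ℂ) : Prop :=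
  ∃ γ : ℝ → ℂ, ContinuousOn γ (Icc 0 1) ∧ γ 0 = z ∧ γ 1 = w ∧
    ∀ s ∈ Icc (0 : ℝ) 1, γ s ∈ S.Reg ∧ S.H (γ s) = a + s * (b - a)

/-- The transport along a segment. -/
noncomputable def mv (S : Sys) (a b z : ℂ) : ℂ := Classical.epsilon (S.Lift a b z)

variable {S : Sys} {a b z w : ℂ}

theorem Lift.unique {w' : ℂ} (h : S.Lift a b z w) (h' : S.Lift a b z w') : w = w' := by
  obtain ⟨γ, h1, h2, rfl, h4⟩ := h
  obtain ⟨γ', h1', h2', rfl, h4'⟩ := h'
  exact lift_unique isPreconnected_Icc h1 h1' (fun s hs => (h4 s hs).1)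
    (fun s hs => (h4 s hs).2.trans (h4' s hs).2.symm) (left_mem_Icc.mpr zero_le_one)
    (h2.trans h2'.symm) 1 (right_mem_Icc.mpr zero_le_one)

theorem Lift.symm (h : S.Lift a b z w) : S.Lift b a w z := by
  obtain ⟨γ, h1, h2, h3, h4⟩ := h
  have hm : ∀ s ∈ Icc (0 : ℝ) 1, 1 - s ∈ Icc (0 : ℝ) 1 := fun s hs =>
    ⟨by linarith [hs.2], by linarith [hs.1]⟩
  refine ⟨fun s => γ (1 - s), h1.comp (by fun_prop) hm, by simpa, by simpa,
    fun s hs => ⟨(h4 _ (hm s hs)).1, ?_⟩⟩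
  rw [(h4 _ (hm s hs)).2]
  push_cast
  ring

theorem Lift.fib (h : S.Lift a b z w) : w ∈ S.Reg ∧ S.H w = b := by
  obtain ⟨γ, -, -, rfl, h4⟩ := h
  simpa using h4 1 (right_mem_Icc.mpr zero_le_one)

theorem Lift.mv_eq (h : S.Lift a b z w) : S.mv a b z = w :=
  (Classical.epsilon_spec ⟨w, h⟩ : S.Lift a b z (S.mv a b z)).unique h

theorem Chart.lift {Q N : Set ℂ} {ψ : ℂ → ℂ} (c : S.Chart Q N ψ) (hQ : Convex ℝ Q) (ha : a ∈ Q)
    (hb : b ∈ Q) : S.Lift a b (ψ a) (ψ b) := by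
  have hm : ∀ s ∈ Icc (0 : ℝ) 1, a + s * (b - a) ∈ Q := fun s hs => by
    simpa using hQ.add_smul_sub_mem ha hb hs
  exact ⟨fun s => ψ (a + s * (b - a)), c.cont.comp (by fun_prop) hm, by simp, by simp,
    fun s hs => ⟨c.reg (c.maps _ (hm s hs)), c.right _ (hm s hs)⟩⟩

theorem GoodDir.lift {e : ℂ} {t r : ℝ} (h : S.GoodDir e t) (hz : z ∈ S.Ω) (ha : S.H z = a)
    (ht : (e⁻¹ * a).im = t) (hr : 0 ≤ r) (hb : b = a + r * e) : ∃ w, S.Lift a b z w := by
  obtain ⟨-, γ, h1, h2, h3⟩ := h z hz (ha ▸ ht)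
  refine ⟨_, fun s => γ (s * r), h1.comp (by fun_prop) fun s hs => mul_nonneg hs.1 hr,
    by simpa, rfl, fun s hs => ⟨(h3 _ (mul_nonneg hs.1 hr)).1, ?_⟩⟩
  rw [(h3 _ (mul_nonneg hs.1 hr)).2, ha, hb]
  push_cast
  ring

end Sys

variable {ι : Type} (S : ι → Sys)

/-- Good horizontal lines. -/
def Gh : Set ℝ := {t | t ≠ 0 ∧ ∀ i, (S i).GoodDir 1 t ∧ (S i).GoodDir (-1) (-t)}

/-- Good vertical lines. -/
def Gv : Set ℝ := {s | s ≠ 0 ∧ ∀ i, (S i).GoodDir I (-s) ∧ (S i).GoodDir (-I) s}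

/-- Two points on a common good line. -/
def Line (a b : ℂ) : Prop := (a.im = b.im ∧ a.im ∈ Gh S) ∨ (a.re = b.re ∧ a.re ∈ Gv S)

/-- Intersection points of good lines. -/
def Grid : Set ℂ := {a | a.re ∈ Gv S ∧ a.im ∈ Gh S}

/-- Transport maps along polygonal paths on good lines with vertices in `P`. -/
inductive Tr (P : Set ℂ) (a : ℂ) : ℂ → (ι → ℂ → ℂ) → Prop
  | refl : Tr P a a fun _ z => z
  | step {b c : ℂ} {u : ι → ℂ → ℂ} : Tr P a b u → b ∈ P → c ∈ P → Line S b c →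
      Tr P a c fun i z => (S i).mv b c (u i z)

/-- The germ at `x` of the fibre product lies in the zero set of `Ψ`. -/
def Rel (Ψ : (ι → ℂ) → ℂ) (x : ι → ℂ) : Prop :=
  ∀ᶠ y in 𝓝 x, (∀ m m', (S m).H (y m) = (S m').H (y m')) → Ψ y = 0

/-- Points reachable from `x`. -/
def Reach (P : Set ℂ) (i : ι) (x : ℂ) : Set ℂ := {y | ∃ b u, Tr S P ((S i).H x) b u ∧ y = u i x}

theorem ae_Gh [Countable ι] : ∀ᵐ t : ℝ, t ∈ Gh S := by
  refine (Measure.ae_ne volume 0).and (ae_all_iff.mpr fun i => ((S i).ae_goodDir one_ne_zero).and ?_)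
  exact (Measure.measurePreserving_neg volume).quasiMeasurePreserving.ae
    ((S i).ae_goodDir (neg_ne_zero.mpr one_ne_zero))

theorem ae_Gv [Countable ι] : ∀ᵐ s : ℝ, s ∈ Gv S := by
  refine (Measure.ae_ne volume 0).and (ae_all_iff.mpr fun i => Eventually.and ?_
    ((S i).ae_goodDir (neg_ne_zero.mpr I_ne_zero)))
  exact (Measure.measurePreserving_neg volume).quasiMeasurePreserving.ae
    ((S i).ae_goodDir I_ne_zero)

theorem dense_Grid [Countable ι] : Dense (Grid S) :=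
  ((Measure.dense_of_ae (ae_Gv S)).prod (Measure.dense_of_ae (ae_Gh S))).preimage
    equivRealProdCLM.toHomeomorph.isOpenMap

variable {S} {P : Set ℂ} {a b c : ℂ} {u v : ι → ℂ → ℂ}

theorem Line.symm (h : Line S a b) : Line S b a := by
  rcases h with h | h
  · exact Or.inl ⟨h.1.symm, h.1 ▸ h.2⟩
  · exact Or.inr ⟨h.1.symm, h.1 ▸ h.2⟩

theorem Line.left (h : Line S a b) : Line S a a := h.imp (fun h => ⟨rfl, h.2⟩) fun h => ⟨rfl, h.2⟩

theorem Line.ne_zero (h : Line S a b) : a ≠ 0 := by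
  rintro rfl
  rcases h with h | h <;> exact h.2.1 rfl

theorem Grid.line (h : a ∈ Grid S) : Line S a a := Or.inl ⟨rfl, h.2⟩

theorem Line.lift (h : Line S a b) (i : ι) {z : ℂ} (hz : z ∈ (S i).Ω) (ha : (S i).H z = a) :
    (S i).Lift a b z ((S i).mv a b z) := by
  refine Classical.epsilon_spec (p := (S i).Lift a b z) ?_
  rcases h with ⟨h1, h2⟩ | ⟨h1, h2⟩
  · rcases le_total a.re b.re with h3 | h3
    · exact (h2.2 i).1.lift hz ha (by simp) (sub_nonneg.mpr h3)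
        (by apply Complex.ext <;> simp [h1])
    · exact (h2.2 i).2.lift hz ha (by simp) (sub_nonneg.mpr h3)
        (by apply Complex.ext <;> simp [h1])
  · rcases le_total a.im b.im with h3 | h3
    · exact (h2.2 i).1.lift hz ha (by simp) (sub_nonneg.mpr h3)
        (by apply Complex.ext <;> simp [h1])
    · exact (h2.2 i).2.lift hz ha (by simp) (sub_nonneg.mpr h3)
        (by apply Complex.ext <;> simp [h1])

theorem Line.reg (h : Line S a b) (i : ι) {z : ℂ} (hz : z ∈ (S i).Ω) (ha : (S i).H z = a) :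
    z ∈ (S i).Reg := (h.lift i hz ha).symm.fib.1

theorem Tr.fib (h : Tr S P a b u) (i : ι) {z : ℂ} (hz : z ∈ (S i).Ω) (ha : (S i).H z = a) :
    u i z ∈ (S i).Ω ∧ (S i).H (u i z) = b := by
  induction h with
  | refl => exact ⟨hz, ha⟩
  | step _ _ _ hl ih => exact (hl.lift i ih.1 ih.2).fib.imp_left fun h => h.1

theorem Tr.line (h : Tr S P a b u) (ha : Line S a a) : Line S b b := by
  cases h with
  | refl => exact ha
  | step _ _ _ hl => exact hl.symm.left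

theorem Tr.mem (h : Tr S P a b u) (ha : a ∈ P) : b ∈ P := by
  cases h with
  | refl => exact ha
  | step _ _ hc _ => exact hc

theorem Tr.mono (h : Tr S P a b u) {P' : Set ℂ} (hP : P ⊆ P') : Tr S P' a b u := by
  induction h with
  | refl => exact Tr.refl
  | step _ hb hc hl ih => exact ih.step (hP hb) (hP hc) hl

theorem Tr.trans (h : Tr S P a b u) (h' : Tr S P b c v) : Tr S P a c fun i z => v i (u i z) := by
  induction h' with
  | refl => exact h
  | step _ hb hc hl ih => exact ih.step hb hc hl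

theorem Tr.inv (h : Tr S P a b u) :
    ∃ v, Tr S P b a v ∧ ∀ i, ∀ z ∈ (S i).Ω, (S i).H z = a → v i (u i z) = z := by
  induction h with
  | refl => exact ⟨_, Tr.refl, fun _ _ _ _ => rfl⟩
  | step h hb hc hl ih =>
    obtain ⟨v, h1, h2⟩ := ih
    refine ⟨_, (Tr.refl.step hc hb hl.symm).trans h1, fun i z hz ha => ?_⟩
    have h3 := h.fib i hz ha
    simp only [(hl.lift i h3.1 h3.2).symm.mv_eq]
    exact h2 i z hz ha

theorem Tr.inj (h : Tr S P a b u) (i : ι) {z w : ℂ} (hz : z ∈ (S i).Ω) (hz' : (S i).H z = a)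
    (hw : w ∈ (S i).Ω) (hw' : (S i).H w = a) (he : u i z = u i w) : z = w := by
  obtain ⟨v, -, h2⟩ := h.inv
  rw [← h2 i z hz hz', he, h2 i w hw hw']

theorem Tr.chart (h : Tr S P a b u) {i : ι} {Q N : Set ℂ} {ψ : ℂ → ℂ} (c : (S i).Chart Q N ψ)
    (hQ : Convex ℝ Q) (hP : P ⊆ Q) : u i (ψ a) = ψ b := by
  induction h with
  | refl => rfl
  | step _ hb hc _ ih =>
    simp only [ih]
    exact (c.lift hQ (hP hb) (hP hc)).mv_eq

theorem exists_Tr_Grid {η : ℝ} (ha : a ∈ Sq c η) (hb : b ∈ Sq c η) (ha' : Line S a a)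
    (hb' : b ∈ Grid S) : ∃ u, Tr S (Sq c η) a b u := by
  rcases ha' with h | h
  · have hm : (⟨b.re, a.im⟩ : ℂ) ∈ Sq c η := ⟨hb.1, ha.2⟩
    exact ⟨_, (Tr.refl.step ha hm (Or.inl ⟨rfl, h.2⟩)).step hm hb (Or.inr ⟨rfl, hb'.1⟩)⟩
  · have hm : (⟨a.re, b.im⟩ : ℂ) ∈ Sq c η := ⟨ha.1, hb.2⟩
    exact ⟨_, (Tr.refl.step ha hm (Or.inr ⟨rfl, h.2⟩)).step hm hb (Or.inl ⟨rfl, hb'.2⟩)⟩

theorem exists_Tr [Countable ι] {η : ℝ} (ha : a ∈ Sq c η) (hb : b ∈ Sq c η) (ha' : Line S a a)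
    (hb' : Line S b b) : ∃ u, Tr S (Sq c η) a b u := by
  obtain ⟨g, hg1, hg2⟩ := (dense_Grid S).inter_open_nonempty _ (isOpen_Sq c η) ⟨a, ha⟩
  obtain ⟨u, hu⟩ := exists_Tr_Grid ha hg1 ha' hg2
  obtain ⟨v, hv⟩ := exists_Tr_Grid hb hg1 hb' hg2
  obtain ⟨w, hw, -⟩ := hv.inv
  exact ⟨_, hu.trans hw⟩

theorem exists_charts [Finite ι] {x : ι → ℂ} (hx : ∀ i, x i ∈ (S i).Reg)
    (ha : ∀ i, (S i).H (x i) = a) {O : Set ℂ} (hO : O ∈ 𝓝 a) :
    ∃ η, 0 < η ∧ Sq a η ⊆ O ∧ ∃ (N : ι → Set ℂ) (ψ : ι → ℂ → ℂ),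
      ∀ i, (S i).Chart (Sq a η) (N i) (ψ i) ∧ x i ∈ N i := by
  obtain ⟨η, h1, h2, h3⟩ := ((eventually_all.mpr fun i => (S i).exists_chart (hx i) univ_mem).and
    ((eventually_Sq_subset hO).and self_mem_nhdsWithin)).exists
  choose N ψ h4 h5 _ using h1
  exact ⟨η, h3, h2, N, ψ, fun i => ⟨ha i ▸ h4 i, h5 i⟩⟩

section Rel

variable [Fintype ι] {Ψ : (ι → ℂ) → ℂ} {Q : Set ℂ} {N : ι → Set ℂ} {ψ : ι → ℂ → ℂ}

theorem Rel.of_chart [Nonempty ι] (c : ∀ i, (S i).Chart Q (N i) (ψ i))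
    (h : ∀ a ∈ Q, Ψ (fun i => ψ i a) = 0) {x : ι → ℂ} (hx : ∀ i, x i ∈ N i) : Rel S Ψ x := by
  obtain ⟨m⟩ := ‹Nonempty ι›
  have : ∀ᶠ y in 𝓝 x, ∀ i, y i ∈ N i := eventually_all.mpr fun i =>
    (continuous_apply i).continuousAt.preimage_mem_nhds ((c i).oN.mem_nhds (hx i))
  filter_upwards [this] with y hy he
  rw [← h _ ((c m).left _ (hy m)).1]
  congr 1
  funext i
  rw [he m i, ((c i).left _ (hy i)).2]

theorem Rel.chart (hΨ : Differentiable ℂ Ψ) (c : ∀ i, (S i).Chart Q (N i) (ψ i)) (hQ : IsOpen Q)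
    (hQ' : Convex ℝ Q) (ha : a ∈ Q) (h : Rel S Ψ fun i => ψ i a) :
    ∀ b ∈ Q, Ψ (fun i => ψ i b) = 0 := by
  have hd : DifferentiableOn ℂ (fun b i => ψ i b) Q :=
    differentiableOn_pi.mpr fun i => (c i).differentiableOn
  refine ((hΨ.comp_differentiableOn hd).analyticOnNhd hQ).eqOn_zero_of_preconnected_of_eventuallyEq_zero
    hQ'.isPreconnected ha ?_
  filter_upwards [(hd.continuousOn.continuousAt (hQ.mem_nhds ha)).eventually h, hQ.mem_nhds ha]
    with b h1 h2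
  exact h1 fun m m' => ((c m).right b h2).trans ((c m').right b h2).symm

theorem Rel.lift [Nonempty ι] (hΨ : Differentiable ℂ Ψ) {x y : ι → ℂ}
    (hl : ∀ i, (S i).Lift a b (x i) (y i)) (h : Rel S Ψ x) : Rel S Ψ y := by
  choose γ h1 h2 h3 h4 using hl
  have hc : Continuous fun (s : Icc (0 : ℝ) 1) i => γ i s :=
    continuous_pi fun i => continuousOn_iff_continuous_domRestrict.mp (h1 i)
  have hcl : IsClopen {s : Icc (0 : ℝ) 1 | Rel S Ψ fun i => γ i s} := by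
    refine ⟨isClosed_of_closure_subset fun s hs => ?_, isOpen_iff_mem_nhds.mpr fun s hs =>
      hc.continuousAt.eventually (Eventually.eventually_nhds hs)⟩
    obtain ⟨η, -, -, N, ψ, c⟩ := exists_charts (fun i => (h4 i s s.2).1) (fun i => (h4 i s s.2).2)
      univ_mem
    have : ∀ᶠ r : Icc (0 : ℝ) 1 in 𝓝 s, ∀ i, γ i r ∈ N i := eventually_all.mpr fun i =>
      ((continuous_apply i).comp hc).continuousAt.preimage_mem_nhds ((c i).1.oN.mem_nhds (c i).2)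
    obtain ⟨r, hr1, hr2⟩ := ((mem_closure_iff_frequently.mp hs).and_eventually this).exists
    obtain ⟨m⟩ := ‹Nonempty ι›
    have e : (fun i => γ i r) = fun i => ψ i (a + r * (b - a)) := funext fun i => by
      rw [← (h4 i r r.2).2, ((c i).1.left _ (hr2 i)).2]
    refine Rel.of_chart (fun i => (c i).1) (Rel.chart hΨ (fun i => (c i).1) (isOpen_Sq _ _)
      (convex_Sq _ _) ((h4 m r r.2).2 ▸ ((c m).1.left _ (hr2 m)).1) (e ▸ hr1)) fun i => (c i).2
  have := hcl.eq_univ ⟨⟨0, left_mem_Icc.mpr zero_le_one⟩, by simpa [h2] using h⟩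
  have h5 : (⟨1, right_mem_Icc.mpr zero_le_one⟩ : Icc (0 : ℝ) 1) ∈
    {s : Icc (0 : ℝ) 1 | Rel S Ψ fun i => γ i s} := this ▸ mem_univ _
  simpa [h3] using h5

theorem Tr.rel [Nonempty ι] (hΨ : Differentiable ℂ Ψ) (h : Tr S P a b u) {x : ι → ℂ}
    (hx : ∀ i, x i ∈ (S i).Ω ∧ (S i).H (x i) = a) (hr : Rel S Ψ x) :
    Rel S Ψ fun i => u i (x i) := by
  induction h with
  | refl => exact hr
  | step h _ _ hl ih =>
    exact Rel.lift hΨ (fun i => hl.lift i (h.fib i (hx i).1 (hx i).2).1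
      (h.fib i (hx i).1 (hx i).2).2) ih

theorem Tr.rel_eq [Nonempty ι] (hΨ : Differentiable ℂ Ψ) (h : Tr S P a b u) {x : ι → ℂ}
    (hx : ∀ i, x i ∈ (S i).Ω ∧ (S i).H (x i) = a) (hr : Rel S Ψ x) :
    Ψ (fun i => u i (x i)) = 0 :=
  (h.rel hΨ hx hr).self_of_nhds fun m m' =>
    (h.fib m (hx m).1 (hx m).2).2.trans (h.fib m' (hx m').1 (hx m').2).2.symm

end Rel

section Reach

variable [Countable ι] {i : ι} {x : ℂ}

theorem closure_Reach_mem_nhds (hP : IsOpen P) (hx : x ∈ (S i).Ω)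
    (hl : Line S ((S i).H x) ((S i).H x)) {z : ℂ} (hz : z ∈ closure (Reach S P i x))
    (hr : z ∈ (S i).Reg) (hzP : (S i).H z ∈ P) : closure (Reach S P i x) ∈ 𝓝 z := by
  obtain ⟨η, ⟨N, ψ, c, hN, -⟩, hη⟩ := (((S i).exists_chart hr univ_mem).and
    (eventually_Sq_subset (hP.mem_nhds hzP))).exists
  obtain ⟨w, hw, b, u, hu, rfl⟩ := mem_closure_iff.mp hz N c.oN hN
  have hb := (hu.fib i hx rfl).2
  refine mem_of_superset (c.oN.mem_nhds hN) fun n hn => ?_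
  rw [← (c.left n hn).2]
  have h1 := (dense_Grid S).open_subset_closure_inter c.oQ (c.left n hn).1
  refine (closure_mono ?_) ((c.cont.continuousAt
    (c.oQ.mem_nhds (c.left n hn).1)).continuousWithinAt.mem_closure_image h1)
  rintro _ ⟨g, hg, rfl⟩
  obtain ⟨v, hv⟩ := exists_Tr_Grid (hb ▸ (c.left _ hw).1) hg.1 (hu.line hl) hg.2
  refine ⟨g, _, hu.trans (hv.mono hη), ?_⟩
  rw [← hv.chart c (convex_Sq _ _) subset_rfl, ← hb, (c.left _ hw).2]

theorem subset_closure_Reach (hP : IsOpen P) (hx : x ∈ (S i).Ω)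
    (hl : Line S ((S i).H x) ((S i).H x)) {s : Set ℂ} (hs : IsPreconnected s)
    (hs' : ∀ z ∈ s, z ∈ (S i).Reg ∧ (S i).H z ∈ P) (hne : (s ∩ Reach S P i x).Nonempty) :
    s ⊆ closure (Reach S P i x) := by
  have key : ∀ z ∈ s, z ∈ closure (Reach S P i x) → z ∈ interior (closure (Reach S P i x)) :=
    fun z h1 h2 => mem_interior_iff_mem_nhds.mpr
      (closure_Reach_mem_nhds hP hx hl h2 (hs' z h1).1 (hs' z h1).2)
  obtain ⟨y, hy1, hy2⟩ := hne
  refine (hs.subset_of_closure_inter_subset isOpen_interior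
    ⟨y, hy1, key y hy1 (subset_closure hy2)⟩ fun z hz => key z hz.2 ?_).trans interior_subset
  exact closure_minimal interior_subset isClosed_closure hz.1

omit [Countable ι] in
theorem Reach.reg (hx : x ∈ (S i).Ω) (hl : Line S ((S i).H x) ((S i).H x)) {y : ℂ}
    (hy : y ∈ Reach S P i x) : y ∈ (S i).Reg := by
  obtain ⟨b, u, hu, rfl⟩ := hy
  exact (hu.line hl).reg i (hu.fib i hx rfl).1 (hu.fib i hx rfl).2

theorem dense_Reach (hx : x ∈ (S i).Ω) (hl : Line S ((S i).H x) ((S i).H x)) :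
    Dense (Reach S univ i x) := by
  have h1 : IsPreconnected (S i).Reg := by
    simpa using ((S i).countable_compl_Reg.isConnected_compl_of_one_lt_rank
      (by simp)).isPreconnected
  have h2 : x ∈ Reach S univ i x := ⟨_, _, Tr.refl, rfl⟩
  have h3 := subset_closure_Reach isOpen_univ hx hl h1 (fun z hz => ⟨hz, mem_univ _⟩)
    ⟨x, Reach.reg hx hl h2, h2⟩
  intro z
  exact closure_minimal h3 isClosed_closure
    (mem_closure_iff_frequently.mpr (((S i).iso z).frequently.filter_mono nhdsWithin_le_nhds))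

theorem isOpen_closure_Reach (hP : IsOpen P) (hx : x ∈ (S i).Ω)
    (hl : Line S ((S i).H x) ((S i).H x)) :
    IsOpen (closure (Reach S P i x) ∩ {z | z ∈ (S i).Ω ∧ (S i).H z ∈ P}) := by
  refine isOpen_iff_mem_nhds.mpr fun z hz => ?_
  have hW : {z | z ∈ (S i).Ω ∧ (S i).H z ∈ P} ∈ 𝓝 z :=
    inter_mem ((S i).isOpen.mem_nhds hz.2.1)
      (((S i).continuousAt hz.2.1).preimage_mem_nhds (hP.mem_nhds hz.2.2))
  refine inter_mem ?_ hW
  by_cases hr : z ∈ (S i).Reg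
  · exact closure_Reach_mem_nhds hP hx hl hz.1 hr hz.2.2
  obtain ⟨r, hr0, hsub⟩ := Metric.mem_nhds_iff.mp
    (inter_mem (eventually_nhdsWithin_iff.mp ((S i).iso z)) hW)
  obtain ⟨y, hy1, hy2⟩ := mem_closure_iff.mp hz.1 _ Metric.isOpen_ball (Metric.mem_ball_self hr0)
  have := subset_closure_Reach hP hx hl (isPreconnected_punctured z hr0)
    (fun w hw => ⟨(hsub hw.1).1 hw.2, (hsub hw.1).2.2⟩)
    ⟨y, ⟨hy1, fun h => hr ((show y = z from h) ▸ Reach.reg hx hl hy2)⟩, hy2⟩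
  filter_upwards [Metric.ball_mem_nhds z hr0] with w hw
  by_cases h : w = z
  · exact h ▸ hz.1
  · exact this ⟨hw, h⟩

end Reach

end Pool.Agent.Lib.MP_6db618_an
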