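import Mathlib
import Pool.Agent.Lib.MP_6db618_an.EntSys

set_option autoImplicit false

namespace Pool.Agent.Lib.MP_6db618_an

open Set Filter Topology MeasureTheory Complex

/-- The integral over the boundary of a rectangle. -/
noncomputable def Bd (s₁ s₂ t₁ t₂ : ℝ) (F : ℂ → ℂ) : ℂ :=
  I * (∫ t in t₁..t₂, F ⟨s₂, t⟩) - I * (∫ t in t₁..t₂, F ⟨s₁, t⟩) -
    (∫ s in s₁..s₂, F ⟨s, t₂⟩) + ∫ s in s₁..s₂, F ⟨s, t₁⟩

theorem ftc_line {O : Set ℂ} (hO : IsOpen O) {F : ℂ → ℂ} (hF : DifferentiableOn ℂ F O)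
    {γ : ℝ → ℂ} {e : ℂ} (hγ : ∀ s, HasDerivAt γ e s) {a b : ℝ} (h : ∀ s ∈ uIcc a b, γ s ∈ O) :
    F (γ b) - F (γ a) = e * ∫ s in a..b, O.indicator (deriv F) (γ s) := by
  have hc : Continuous γ := continuous_iff_continuousAt.mpr fun s => (hγ s).continuousAt
  rw [← intervalIntegral.integral_const_mul, ← intervalIntegral.integral_eq_sub_of_hasDerivAt
    (f := fun s => F (γ s)) (f' := fun s => e * deriv F (γ s))
    (fun s hs => (hF.differentiableAt (hO.mem_nhds (h s hs))).hasDerivAt.scomp s (hγ s))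
    (ContinuousOn.intervalIntegrable (continuousOn_const.mul
      ((hF.deriv hO).continuousOn.comp hc.continuousOn h)))]
  exact intervalIntegral.integral_congr fun s hs => by simp only [indicator_of_mem (h s hs)]

theorem rect_zero {O : Set ℂ} (hO : IsOpen O) {F : ℂ → ℂ} (hF : DifferentiableOn ℂ F O)
    (hint : IntegrableOn (deriv F) O) {s₁ s₂ t₁ t₂ : ℝ}
    (hh : ∀ᵐ t : ℝ, t ∈ uIcc t₁ t₂ → ∀ s ∈ uIcc s₁ s₂, (⟨s, t⟩ : ℂ) ∈ O)
    (hv : ∀ᵐ s : ℝ, s ∈ uIcc s₁ s₂ → ∀ t ∈ uIcc t₁ t₂, (⟨s, t⟩ : ℂ) ∈ O)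
    (h₁ : ∀ s ∈ uIcc s₁ s₂, (⟨s, t₁⟩ : ℂ) ∈ O) (h₂ : ∀ s ∈ uIcc s₁ s₂, (⟨s, t₂⟩ : ℂ) ∈ O)
    (h₃ : ∀ t ∈ uIcc t₁ t₂, (⟨s₁, t⟩ : ℂ) ∈ O) (h₄ : ∀ t ∈ uIcc t₁ t₂, (⟨s₂, t⟩ : ℂ) ∈ O) :
    Bd s₁ s₂ t₁ t₂ F = 0 := by
  have hG := integrable_prod_of_integrable
    ((integrable_indicator_iff hO.measurableSet).mpr hint)
  have e := intervalIntegral_intervalIntegral_swap
    (F := fun s t => O.indicator (deriv F) ⟨s, t⟩) (a := s₁) (b := s₂) (c := t₁) (d := t₂)
    hG.integrableOn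
  have ih : ∀ t, (∀ s ∈ uIcc s₁ s₂, (⟨s, t⟩ : ℂ) ∈ O) →
      IntervalIntegrable (fun s : ℝ => F ⟨s, t⟩) volume s₁ s₂ := fun t h =>
    (hF.continuousOn.comp (continuous_mk_left t).continuousOn h).intervalIntegrable
  have iv : ∀ s, (∀ t ∈ uIcc t₁ t₂, (⟨s, t⟩ : ℂ) ∈ O) →
      IntervalIntegrable (fun t : ℝ => F ⟨s, t⟩) volume t₁ t₂ := fun s h =>
    (hF.continuousOn.comp (continuous_mk_right s).continuousOn h).intervalIntegrable
  have e1 : (∫ t in t₁..t₂, F ⟨s₂, t⟩) - ∫ t in t₁..t₂, F ⟨s₁, t⟩ =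
      ∫ t in t₁..t₂, ∫ s in s₁..s₂, O.indicator (deriv F) ⟨s, t⟩ := by
    rw [← intervalIntegral.integral_sub (iv _ h₄) (iv _ h₃)]
    refine intervalIntegral.integral_congr_ae (hh.mono fun t ht h => ?_)
    rw [ftc_line hO hF (hasDerivAt_mk_left t) (ht (uIoc_subset_uIcc h)), one_mul]
  have e2 : (∫ s in s₁..s₂, F ⟨s, t₂⟩) - ∫ s in s₁..s₂, F ⟨s, t₁⟩ =
      I * ∫ s in s₁..s₂, ∫ t in t₁..t₂, O.indicator (deriv F) ⟨s, t⟩ := by
    rw [← intervalIntegral.integral_sub (ih _ h₂) (ih _ h₁), ← intervalIntegral.integral_const_mul]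
    refine intervalIntegral.integral_congr_ae (hv.mono fun s hs h => ?_)
    rw [ftc_line hO hF (hasDerivAt_mk_right s) (hs (uIoc_subset_uIcc h))]
  rw [Bd]
  linear_combination I * e1 - e2 - I * e

theorem cauchy_diff {φ γ : ℝ → ℂ} {a b : ℝ} (hφ : ContinuousOn φ (uIcc a b)) (hγ : Continuous γ)
    {w : ℂ} (hw : ∀ s ∈ uIcc a b, γ s ≠ w) :
    DifferentiableAt ℂ (fun w => ∫ s in a..b, φ s / (γ s - w)) w := by
  obtain ⟨s₀, hs₀, hmin⟩ := isCompact_uIcc.exists_isMinOn (nonempty_uIcc (a := a) (b := b))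
    (f := fun s => ‖γ s - w‖) (by fun_prop)
  obtain ⟨C, hC⟩ := isCompact_uIcc.exists_bound_of_continuousOn hφ
  set ρ := ‖γ s₀ - w‖ / 2
  have hρ : 0 < ρ := half_pos (norm_pos_iff.mpr (sub_ne_zero.mpr (hw s₀ hs₀)))
  have hle : ∀ x ∈ Metric.ball w ρ, ∀ s ∈ uIcc a b, ρ ≤ ‖γ s - x‖ := fun x hx s hs => by
    have h1 : ‖γ s₀ - w‖ ≤ ‖γ s - w‖ := hmin hs
    have h2 := norm_sub_le_norm_sub_add_norm_sub (γ s) x w
    rw [mem_ball_iff_norm] at hx
    simp only [ρ] at hx ⊢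
    linarith
  have hne : ∀ x ∈ Metric.ball w ρ, ∀ s ∈ uIcc a b, γ s - x ≠ 0 := fun x hx s hs =>
    norm_pos_iff.mp (hρ.trans_le (hle x hx s hs))
  have hc : ∀ x ∈ Metric.ball w ρ, ∀ n : ℕ,
      ContinuousOn (fun s => φ s / (γ s - x) ^ n) (uIcc a b) := fun x hx n =>
    hφ.div (by fun_prop) fun s hs => pow_ne_zero _ (hne x hx s hs)
  have hc1 : ∀ x ∈ Metric.ball w ρ, ContinuousOn (fun s => φ s / (γ s - x)) (uIcc a b) :=
    fun x hx => by simpa using hc x hx 1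
  refine (intervalIntegral.hasDerivAt_integral_of_dominated_loc_of_deriv_le
    (F' := fun x s => φ s / (γ s - x) ^ 2) (bound := fun _ => C / ρ ^ 2)
    (Metric.ball_mem_nhds w hρ) ?_ (hc1 w (Metric.mem_ball_self hρ)).intervalIntegrable
    (((hc w (Metric.mem_ball_self hρ) 2).mono uIoc_subset_uIcc).aestronglyMeasurable
      measurableSet_uIoc) (Eventually.of_forall fun s hs x hx => ?_) intervalIntegrable_const
    (Eventually.of_forall fun s hs x hx => ?_)).2.differentiableAt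
  · filter_upwards [Metric.ball_mem_nhds w hρ] with x hx
    exact ((hc1 x hx).mono uIoc_subset_uIcc).aestronglyMeasurable measurableSet_uIoc
  · rw [norm_div, norm_pow]
    have := hC s (uIoc_subset_uIcc hs)
    have := hle x hx s (uIoc_subset_uIcc hs)
    gcongr
    exact (norm_nonneg _).trans ‹‖φ s‖ ≤ C›
  · have h0 := hne x hx s (uIoc_subset_uIcc hs)
    refine ((hasDerivAt_const x (φ s)).div ((hasDerivAt_id x).const_sub (γ s)) h0).congr_deriv ?_
    simp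

theorem cauchy_split {u : ℂ → ℂ} {γ : ℝ → ℂ} {a b : ℝ}
    (hφ : ContinuousOn (fun s => u (γ s)) (uIcc a b)) (hγ : Continuous γ)
    {w : ℂ} (hw : ∀ s ∈ uIcc a b, γ s ≠ w) :
    ∫ s in a..b, dslope u w (γ s) =
      (∫ s in a..b, u (γ s) / (γ s - w)) - u w * ∫ s in a..b, 1 / (γ s - w) := by
  have h0 : ∀ s ∈ uIcc a b, γ s - w ≠ 0 := fun s hs => sub_ne_zero.mpr (hw s hs)
  have i1 : ContinuousOn (fun s => u (γ s) / (γ s - w)) (uIcc a b) := hφ.div (by fun_prop) h0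
  have i2 : ContinuousOn (fun s => u w * (1 / (γ s - w))) (uIcc a b) :=
    continuousOn_const.mul (continuousOn_const.div (by fun_prop) h0)
  rw [← intervalIntegral.integral_const_mul, ← intervalIntegral.integral_sub
    i1.intervalIntegrable i2.intervalIntegrable]
  refine intervalIntegral.integral_congr fun s hs => ?_
  simp only [dslope_of_ne _ (hw s hs), slope_def_field]
  ring

theorem cauchy_pos {γ : ℝ → ℂ} {a b : ℝ} (hab : a < b) (hγ : Continuous γ) {w e : ℂ}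
    (hw : ∀ s, 0 < (e * (starRingEnd ℂ) (γ s - w)).im) :
    0 < (e * ∫ s in a..b, 1 / (γ s - w)).im := by
  have h0 : ∀ s, γ s - w ≠ 0 := fun s h => by simpa [h] using hw s
  have hi : Continuous (fun s => e * (1 / (γ s - w))) :=
    continuous_const.mul (continuous_const.div (by fun_prop) h0)
  rw [← intervalIntegral.integral_const_mul]
  have := imCLM.intervalIntegral_comp_comm (μ := volume) (hi.intervalIntegrable a b)
  simp only [imCLM_apply] at this
  rw [← this]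
  refine intervalIntegral.intervalIntegral_pos_of_pos
    ((continuous_im.comp hi).intervalIntegrable a b) (fun s => ?_) hab
  rw [one_div, inv_def, ← mul_assoc, im_mul_ofReal]
  exact mul_pos (hw s) (inv_pos.mpr (normSq_pos.mpr (h0 s)))

theorem integrableOn_deriv_dslope {O : Set ℂ} (hO : IsOpen O) (hfin : volume O ≠ ⊤) {u : ℂ → ℂ}
    (hu : DifferentiableOn ℂ u O) (hinj : InjOn u O) {B : ℝ} (hB : ∀ a ∈ O, ‖u a‖ ≤ B) {w : ℂ}
    (hw : w ∈ O) : IntegrableOn (deriv (dslope u w)) O := by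
  have hd : ∀ a ∈ O, HasDerivAt u (deriv u a) a := fun a ha =>
    (hu.differentiableAt (hO.mem_nhds ha)).hasDerivAt
  have h1 := integrableOn_area hO hd hinj (g := fun _ => (1 : ℝ)) (integrableOn_const
    (ne_top_of_le_ne_top (measure_closedBall_lt_top (x := (0 : ℂ)) (r := B)).ne
      (measure_mono (by
        rintro _ ⟨a, ha, rfl⟩
        simpa using hB a ha))))
  simp only [mul_one] at h1
  obtain ⟨ρ, hρ, hsub⟩ := Metric.nhds_basis_closedBall.mem_iff.mp (hO.mem_nhds hw)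
  have hF := (differentiableOn_dslope (hO.mem_nhds hw)).mpr hu
  rw [← union_sdiff_cancel hsub]
  refine IntegrableOn.union (((hF.deriv hO).continuousOn.mono hsub).integrableOn_compact
    (isCompact_closedBall w ρ)) ?_
  have hm : MeasurableSet (O \ Metric.closedBall w ρ) :=
    hO.measurableSet.diff measurableSet_closedBall
  refine Integrable.mono' (g := fun a => (1 + normSq (deriv u a)) / ρ + 2 * B / ρ ^ 2)
    (IntegrableOn.mono_set (s := _) (t := O) ?_ sdiff_subset)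
    (measurable_deriv _).aestronglyMeasurable ((ae_restrict_iff' hm).mpr
      (Eventually.of_forall fun a ha => ?_))
  · exact (((integrableOn_const hfin).add h1).div_const ρ).add (integrableOn_const hfin)
  · have h2 : ρ ≤ ‖a - w‖ := le_of_lt (by simpa [dist_eq_norm] using ha.2)
    have h3 : a - w ≠ 0 := norm_pos_iff.mp (hρ.trans_le h2)
    have h4 : HasDerivAt (dslope u w) (deriv u a / (a - w) - (u a - u w) / (a - w) ^ 2) a := by
      refine ((((hd a ha.1).sub_const (u w)).div ((hasDerivAt_id a).sub_const w)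
        h3).congr_of_eventuallyEq ?_).congr_deriv ?_
      · filter_upwards [isOpen_ne.mem_nhds (sub_ne_zero.mp h3)] with b hb
        simp only [dslope_of_ne _ hb, slope_def_field, id, Pi.div_apply]
      · simp only [id]
        field_simp
    rw [h4.deriv]
    refine (norm_sub_le _ _).trans (add_le_add ?_ ?_)
    · rw [norm_div, normSq_eq_norm_sq]
      gcongr
      nlinarith [sq_nonneg (‖deriv u a‖ - 1)]
    · rw [norm_div, norm_pow]
      have h5 := (norm_sub_le (u a) (u w)).trans (add_le_add (hB a ha.1) (hB w hw))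
      gcongr
      · linarith [norm_nonneg (u a - u w)]
      · linarith

/-- Removability of closed sets with null projections for bounded injective functions. -/
theorem removable {O : Set ℂ} (hO : IsOpen O) {u : ℂ → ℂ} (hu : DifferentiableOn ℂ u O)
    (hinj : InjOn u O) {B : ℝ} (hB : ∀ a ∈ O, ‖u a‖ ≤ B) {c : ℂ} {η : ℝ} (hη : 0 < η)
    (hQ : O ⊆ Sq c η) (hh : ∀ᵐ t : ℝ, ∀ a ∈ Sq c η, a.im = t → a ∈ O)
    (hv : ∀ᵐ s : ℝ, ∀ a ∈ Sq c η, a.re = s → a ∈ O) :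
    ∃ N, IsOpen N ∧ c ∈ N ∧ ∃ v, DifferentiableOn ℂ v N ∧ ∀ a ∈ N, a ∈ O → v a = u a := by
  obtain ⟨s₁, a1, a2, a3⟩ := (Measure.dense_of_ae hv).exists_between (sub_lt_self c.re hη)
  obtain ⟨s₂, b1, b2, b3⟩ := (Measure.dense_of_ae hv).exists_between (lt_add_of_pos_right c.re hη)
  obtain ⟨t₁, c1, c2, c3⟩ := (Measure.dense_of_ae hh).exists_between (sub_lt_self c.im hη)
  obtain ⟨t₂, d1, d2, d3⟩ := (Measure.dense_of_ae hh).exists_between (lt_add_of_pos_right c.im hη)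
  have hs : s₁ < s₂ := a3.trans b2
  have ht : t₁ < t₂ := c3.trans d2
  have hR : ∀ s ∈ uIcc s₁ s₂, ∀ t ∈ uIcc t₁ t₂, (⟨s, t⟩ : ℂ) ∈ Sq c η := fun s h1 t h2 => by
    rw [uIcc_of_le hs.le] at h1
    rw [uIcc_of_le ht.le] at h2
    exact ⟨abs_lt.mpr ⟨by linarith [h1.1], by linarith [h1.2]⟩,
      abs_lt.mpr ⟨by linarith [h2.1], by linarith [h2.2]⟩⟩
  have h₁ : ∀ s ∈ uIcc s₁ s₂, (⟨s, t₁⟩ : ℂ) ∈ O := fun s h => c1 _ (hR s h _ left_mem_uIcc) rfl
  have h₂ : ∀ s ∈ uIcc s₁ s₂, (⟨s, t₂⟩ : ℂ) ∈ O := fun s h => d1 _ (hR s h _ right_mem_uIcc) rfl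
  have h₃ : ∀ t ∈ uIcc t₁ t₂, (⟨s₁, t⟩ : ℂ) ∈ O := fun t h => a1 _ (hR _ left_mem_uIcc t h) rfl
  have h₄ : ∀ t ∈ uIcc t₁ t₂, (⟨s₂, t⟩ : ℂ) ∈ O := fun t h => b1 _ (hR _ right_mem_uIcc t h) rfl
  have hfin : volume O ≠ ⊤ := ne_top_of_le_ne_top measure_ball_lt_top.ne
    (measure_mono (hQ.trans (Sq_subset_ball c η)))
  let N : Set ℂ := {w | (s₁ < w.re ∧ w.re < s₂) ∧ t₁ < w.im ∧ w.im < t₂}
  have hN : IsOpen N := ((isOpen_lt continuous_const continuous_re).inter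
    (isOpen_lt continuous_re continuous_const)).inter
    ((isOpen_lt continuous_const continuous_im).inter (isOpen_lt continuous_im continuous_const))
  have n1 : ∀ w ∈ N, ∀ s ∈ uIcc s₁ s₂, (⟨s, t₁⟩ : ℂ) ≠ w := fun w hw s _ h =>
    hw.2.1.ne (congrArg im h)
  have n2 : ∀ w ∈ N, ∀ s ∈ uIcc s₁ s₂, (⟨s, t₂⟩ : ℂ) ≠ w := fun w hw s _ h =>
    hw.2.2.ne' (congrArg im h)
  have n3 : ∀ w ∈ N, ∀ t ∈ uIcc t₁ t₂, (⟨s₁, t⟩ : ℂ) ≠ w := fun w hw s _ h =>
    hw.1.1.ne (congrArg re h)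
  have n4 : ∀ w ∈ N, ∀ t ∈ uIcc t₁ t₂, (⟨s₂, t⟩ : ℂ) ≠ w := fun w hw s _ h =>
    hw.1.2.ne' (congrArg re h)
  have ch := fun t => (continuous_mk_left t)
  have cv := fun s => (continuous_mk_right s)
  have hK : ∀ φ : ℂ → ℂ, ContinuousOn φ O → ∀ w ∈ N,
      DifferentiableAt ℂ (fun w => Bd s₁ s₂ t₁ t₂ fun ζ => φ ζ / (ζ - w)) w := fun φ hφ w hw =>
    ((((cauchy_diff (hφ.comp (cv _).continuousOn h₄) (cv _) (n4 w hw)).const_mul I).sub
      ((cauchy_diff (hφ.comp (cv _).continuousOn h₃) (cv _) (n3 w hw)).const_mul I)).sub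
      (cauchy_diff (hφ.comp (ch _).continuousOn h₂) (ch _) (n2 w hw))).add
      (cauchy_diff (hφ.comp (ch _).continuousOn h₁) (ch _) (n1 w hw))
  have hpos : ∀ w ∈ N, (Bd s₁ s₂ t₁ t₂ fun ζ => 1 / (ζ - w)) ≠ 0 := fun w hw h0 => by
    have p1 := cauchy_pos hs (ch t₁) (w := w) (e := 1) fun s => by simpa using hw.2.1
    have p2 := cauchy_pos hs (ch t₂) (w := w) (e := -1) fun s => by simpa using hw.2.2
    have p3 := cauchy_pos ht (cv s₁) (w := w) (e := -I) fun s => by simpa using hw.1.1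
    have p4 := cauchy_pos ht (cv s₂) (w := w) (e := I) fun s => by simpa using hw.1.2
    have h1 := congrArg im h0
    rw [Bd, add_im, sub_im, sub_im, zero_im] at h1
    rw [one_mul] at p1
    rw [neg_mul, neg_im] at p3
    rw [neg_mul, one_mul, neg_im] at p2
    linarith
  refine ⟨N, hN, ⟨⟨a3, b2⟩, c3, d2⟩, fun w => (Bd s₁ s₂ t₁ t₂ fun ζ => u ζ / (ζ - w)) /
    Bd s₁ s₂ t₁ t₂ fun ζ => 1 / (ζ - w), fun w hw => ((hK u hu.continuousOn w hw).div
      (hK _ continuousOn_const w hw) (hpos w hw)).differentiableWithinAt, fun w hw hwO => ?_⟩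
  have h0 := rect_zero hO ((differentiableOn_dslope (hO.mem_nhds hwO)).mpr hu)
    (integrableOn_deriv_dslope hO hfin hu hinj hB hwO)
    (hh.mono fun t h1 h2 s h3 => h1 _ (hR s h3 t h2) rfl)
    (hv.mono fun s h1 h2 t h3 => h1 _ (hR s h2 t h3) rfl) h₁ h₂ h₃ h₄
  have hc := hu.continuousOn
  rw [Bd, cauchy_split (hc.comp (cv _).continuousOn h₄) (cv _) (n4 w hw),
    cauchy_split (hc.comp (cv _).continuousOn h₃) (cv _) (n3 w hw),
    cauchy_split (hc.comp (ch _).continuousOn h₂) (ch _) (n2 w hw),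
    cauchy_split (hc.comp (ch _).continuousOn h₁) (ch _) (n1 w hw)] at h0
  rw [div_eq_iff (hpos w hw), Bd, Bd]
  linear_combination h0

/-- A function of linear growth on a dense set, locally the trace of holomorphic functions away
from a discrete set, is affine. -/
theorem affine_of_local {R E : Set ℂ} (hR : Dense R) (hE : ∀ z, ∀ᶠ w in 𝓝[≠] z, w ∉ E)
    (hRE : ∀ x ∈ R, x ∉ E) {f : ℂ → ℂ} {A C : ℝ} (hf : ∀ x ∈ R, ‖f x‖ ≤ A * ‖x‖ + C)
    (hloc : ∀ z, z ∉ E → ∃ N, IsOpen N ∧ z ∈ N ∧ ∃ v, DifferentiableOn ℂ v N ∧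
      ∀ x ∈ N, x ∈ R → v x = f x) : ∃ c d : ℂ, ∀ x ∈ R, f x = c + d * x := by
  let F : ℂ → ℂ := fun z => limUnder (𝓝[R] z) f
  have hne : ∀ z, (𝓝[R] z).NeBot := fun z => mem_closure_iff_nhdsWithin_neBot.mp (hR z)
  have hF : ∀ z, z ∉ E → DifferentiableAt ℂ F z ∧ (z ∈ R → F z = f z) ∧ ‖F z‖ ≤ A * ‖z‖ + C := by
    intro z hz
    obtain ⟨N, hN, hzN, v, hv, hvf⟩ := hloc z hz
    have ht : ∀ x ∈ N, Tendsto f (𝓝[R] x) (𝓝 (v x)) := fun x hx => by
      refine ((hv.continuousOn.continuousAt (hN.mem_nhds hx)).tendsto.mono_left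
        nhdsWithin_le_nhds).congr' ?_
      filter_upwards [mem_nhdsWithin_of_mem_nhds (hN.mem_nhds hx), self_mem_nhdsWithin]
        with y h1 h2 using hvf y h1 h2
    have he : ∀ x ∈ N, F x = v x := fun x hx => (ht x hx).limUnder_eq
    refine ⟨(hv.differentiableAt (hN.mem_nhds hzN)).congr_of_eventuallyEq
      (mem_of_superset (hN.mem_nhds hzN) he), fun h => (he z hzN).trans (hvf z hzN h), ?_⟩
    rw [he z hzN]
    refine le_of_tendsto_of_tendsto (ht z hzN).norm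
      (((by fun_prop : Continuous fun x : ℂ => A * ‖x‖ + C).tendsto z).mono_left
        nhdsWithin_le_nhds) ?_
    filter_upwards [self_mem_nhdsWithin] with y hy using hf y hy
  let G : ℂ → ℂ := fun z => limUnder (𝓝[≠] z) F
  have hG : ∀ z, z ∉ E → G z = F z := fun z hz =>
    ((hF z hz).1.continuousAt.tendsto.mono_left nhdsWithin_le_nhds).limUnder_eq
  have hd : Differentiable ℂ G := by
    intro z
    have h1 : ∀ᶠ w in 𝓝 z, (w ≠ z → w ∉ E) ∧ A * ‖w‖ + C ≤ A * ‖z‖ + C + 1 :=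
      (eventually_nhdsWithin_iff.mp (hE z)).and
        (((by fun_prop : Continuous fun x : ℂ => A * ‖x‖ + C).tendsto z).eventually_le_const
          (lt_add_one _))
    have h2 := differentiableOn_update_limUnder_of_bddAbove (f := F) h1
      (fun w hw => (hF w (hw.1.1 hw.2)).1.differentiableWithinAt)
      ⟨A * ‖z‖ + C + 1, by
        rintro _ ⟨w, hw, rfl⟩
        exact (hF w (hw.1.1 hw.2)).2.2.trans hw.1.2⟩
    refine (h2.differentiableAt h1).congr_of_eventuallyEq (h1.mono fun w hw => ?_)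
    by_cases h : w = z
    · rw [h, Function.update_self]
    · rw [Function.update_of_ne h, hG w (hw.1 h)]
  have hb : ∀ z, ‖G z‖ ≤ A * ‖z‖ + C := fun z =>
    (isClosed_le hd.continuous.norm (by fun_prop : Continuous fun x : ℂ => A * ‖x‖ + C)
      ).closure_subset_iff.mpr (fun x hx => by
        rw [mem_ofPred_eq, hG x (hRE x hx)]
        exact (hF x (hRE x hx)).2.2) (hR z)
  have hs : Differentiable ℂ (dslope G 0) :=
    differentiableOn_univ.mp ((differentiableOn_dslope univ_mem).mpr hd.differentiableOn)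
  obtain ⟨M, hM⟩ := (isCompact_closedBall (0 : ℂ) 1).exists_bound_of_continuousOn
    hs.continuous.continuousOn
  obtain ⟨d, hd'⟩ := hs.exists_const_forall_eq_of_bounded (isBounded_iff_forall_norm_le.mpr
    ⟨max M (|A| + |C| + ‖G 0‖), by
      rintro _ ⟨z, rfl⟩
      rcases le_or_gt ‖z‖ 1 with h | h
      · exact le_max_of_le_left (hM z (by simpa using h))
      · refine le_max_of_le_right ?_
        have h0 : z ≠ 0 := norm_pos_iff.mp (one_pos.trans h)
        rw [dslope_of_ne _ h0, slope_def_field, sub_zero, norm_div,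
          div_le_iff₀ (one_pos.trans h)]
        have h1 := (norm_sub_le (G z) (G 0)).trans (add_le_add (hb z) le_rfl)
        nlinarith [le_abs_self A, le_abs_self C, abs_nonneg C, norm_nonneg (G 0)]⟩)
  refine ⟨G 0, d, fun x hx => ?_⟩
  rw [← (hF x (hRE x hx)).2.1 hx, ← hG x (hRE x hx), ← hd' x]
  have := sub_smul_dslope G 0 x
  rw [sub_zero, smul_eq_mul] at this
  linear_combination -this

end Pool.Agent.Lib.MP_6db618_an
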