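import Mathlib
import Pool.Agent.Lib.MP_6db618_an.EntLift
import Pool.Agent.Lib.MP_6db618_an.EntCarl
import Pool.Agent.Lib.MP_6db618_an.EntRem

set_option autoImplicit false

namespace Pool.Agent.Lib.MP_6db618_an

open Set Filter Topology MeasureTheory Complex

variable {ι : Type}

/-- Common charts at the origin. -/
structure Base (S : ι → Sys) (η δ C : ℝ) (N : ι → Set ℂ) (ψ : ι → ℂ → ℂ) : Prop where
  η_pos : 0 < η
  η_le : η ≤ 1 / 10
  δ_pos : 0 < δ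
  C_pos : 0 < C
  chart : ∀ i, (S i).Chart (Sq 0 η) (N i) (ψ i)
  ball : ∀ i, Metric.ball 0 δ ⊆ N i
  le₁ : ∀ i, ∀ w ∈ N i, ‖w‖ ≤ C * ‖(S i).H w‖
  le₂ : ∀ i, ∀ w ∈ N i, ‖(S i).H w‖ ≤ C * ‖w‖
  circ : ∀ i r, 0 < r → (∀ z, ‖z‖ = r → z ∈ (S i).Ω ∧ ‖(S i).H z‖ ≤ 1 / 10) →
    Metric.closedBall 0 r ⊆ (S i).Ω

theorem eq_of_Grid [Countable ι] (S : ι → Sys) {Q : Set ℂ} (hQ : IsOpen Q) {f g : ℂ → ℂ}
    (hf : ContinuousOn f Q) (hg : ContinuousOn g Q) (h : ∀ a ∈ Q, a ∈ Grid S → f a = g a) :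
    ∀ a ∈ Q, f a = g a :=
  EqOn.of_subset_closure (s := Q ∩ Grid S) (fun a ha => h a ha.1 ha.2) hf hg inter_subset_left
    ((dense_Grid S).open_subset_closure_inter hQ)

theorem eventually_ne_zero (z : ℂ) : ∀ᶠ w in 𝓝[≠] z, w ≠ 0 := by
  by_cases h : z = 0
  · exact h ▸ self_mem_nhdsWithin
  · exact eventually_ne_nhdsWithin h

theorem union_fix {S : ι → Sys} {a : ℂ} {x : ι → ℂ}
    (hx : ∀ i, x i ∈ (S i).Ω ∧ (S i).H (x i) = a) {p r s : ι}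
    (h : ∀ u, Tr S univ a a u → u p (x p) = x p → u r (x r) = x r ∨ u s (x s) = x s) :
    (∀ u, Tr S univ a a u → u p (x p) = x p → u r (x r) = x r) ∨
      ∀ u, Tr S univ a a u → u p (x p) = x p → u s (x s) = x s := by
  by_contra hno
  push Not at hno
  obtain ⟨⟨u, hu, u1, u2⟩, v, hv, v1, v2⟩ := hno
  have u3 := (h u hu u1).resolve_left u2
  have v3 := (h v hv v1).resolve_right v2
  rcases h _ (hv.trans hu) (by simp only [v1, u1]) with h1 | h1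
  · exact u2 (by simpa only [v3] using h1)
  · have h2 := hv.fib s (hx s).1 (hx s).2
    exact v2 (hu.inj s h2.1 h2.2 (hx s).1 (hx s).2 (h1.trans u3.symm))

namespace Base

variable {S : ι → Sys} {η δ C : ℝ} {N : ι → Set ℂ} {ψ : ι → ℂ → ℂ} (B : Base S η δ C N ψ)
include B

theorem fib (i : ι) {a : ℂ} (ha : a ∈ Sq 0 η) : ψ i a ∈ (S i).Ω ∧ (S i).H (ψ i a) = a :=
  ⟨((B.chart i).reg ((B.chart i).maps a ha)).1, (B.chart i).right a ha⟩

theorem H_zero (i : ι) : (S i).H 0 = 0 := by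
  simpa using B.le₂ i 0 (B.ball i (Metric.mem_ball_self B.δ_pos))

theorem ψ_zero (i : ι) : ψ i 0 = 0 := by
  simpa [B.H_zero] using ((B.chart i).left 0 (B.ball i (Metric.mem_ball_self B.δ_pos))).2

theorem ψ_ne (i : ι) {a : ℂ} (ha : a ∈ Sq 0 η) (h0 : a ≠ 0) : ψ i a ≠ 0 := fun h =>
  h0 (by rw [← (B.fib i ha).2, h, B.H_zero])

theorem le_of_notMem {i : ι} {x : ℂ} (h : x ∉ N i) : δ ≤ ‖x‖ :=
  not_lt.mp fun h1 => h (B.ball i (mem_ball_zero_iff.mpr h1))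

theorem mem_of_Tr {a b : ℂ} {u : ι → ℂ → ℂ} (h : Tr S (Sq 0 η) a b u) {i : ι} {x : ℂ}
    (ha : (S i).H x = a) (hx : x ∈ N i) : u i x ∈ N i := by
  have h1 := (B.chart i).left x hx
  rw [ha] at h1
  rw [← h1.2, h.chart (B.chart i) (convex_Sq _ _) subset_rfl]
  exact (B.chart i).maps b (h.mem h1.1)

theorem mem_iff {a b : ℂ} {u : ι → ℂ → ℂ} (h : Tr S (Sq 0 η) a b u) {i : ι} {x : ℂ}
    (hx : x ∈ (S i).Ω ∧ (S i).H x = a) : u i x ∈ N i ↔ x ∈ N i := by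
  refine ⟨fun h1 => ?_, B.mem_of_Tr h hx.2⟩
  obtain ⟨v, hv, h2⟩ := h.inv
  rw [← h2 i x hx.1 hx.2]
  exact B.mem_of_Tr hv (h.fib i hx.1 hx.2).2 h1

theorem mem_iff_eq {a : ℂ} (ha : a ∈ Sq 0 η) {i : ι} {x : ℂ} (hx : (S i).H x = a) :
    x ∈ N i ↔ x = ψ i a :=
  ⟨fun h => by rw [← hx, ((B.chart i).left x h).2], fun h => h ▸ (B.chart i).maps a ha⟩

variable [Countable ι]

theorem exists_small {a : ℂ} (ha : a ∈ Sq 0 η) (hl : Line S a a) {ρ : ℝ} (hρ : 0 < ρ) :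
    ∃ b u, b ≠ 0 ∧ ‖b‖ < ρ ∧ Tr S (Sq 0 η) a b u := by
  obtain ⟨b, hb1, hb2⟩ := (dense_Grid S).inter_open_nonempty _
    ((isOpen_Sq 0 η).inter (Metric.isOpen_ball (x := 0) (ε := ρ)))
    ⟨0, mem_Sq_self 0 B.η_pos, Metric.mem_ball_self hρ⟩
  obtain ⟨u, hu⟩ := exists_Tr_Grid ha hb1.1 hl hb2
  exact ⟨b, u, (Grid.line hb2).ne_zero, mem_ball_zero_iff.mp hb1.2, hu⟩

theorem two_base {a : ℂ} (ha : a ∈ Sq 0 η) (hl : Line S a a) {x : ι → ℂ}
    (hx : ∀ i, x i ∈ (S i).Ω ∧ (S i).H (x i) = a) {p q r s : ι}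
    (h : ∀ b u, Tr S (Sq 0 η) a b u → u p (x p) * u q (x q) = u r (x r) * u s (x s))
    (hp : x p ∈ N p) (hq : x q ∈ N q) : x r ∈ N r := by
  by_contra hr
  have hC := B.C_pos
  have hδ := B.δ_pos
  obtain ⟨b, u, hb0, hb, hu⟩ := B.exists_small ha hl (ρ := min (δ / C) (δ / C ^ 3))
    (by positivity)
  have e := congrArg norm (h b u hu)
  rw [norm_mul, norm_mul] at e
  have f := fun i => (hu.fib i (hx i).1 (hx i).2).2
  have h1 := B.le₁ p _ ((B.mem_iff hu (hx p)).mpr hp)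
  have h2 := B.le₁ q _ ((B.mem_iff hu (hx q)).mpr hq)
  have h3 := B.le_of_notMem (mt (B.mem_iff hu (hx r)).mp hr)
  rw [f] at h1 h2
  have h4 : δ * ‖u s (x s)‖ ≤ (C * ‖b‖) * (C * ‖b‖) :=
    (mul_le_mul_of_nonneg_right h3 (norm_nonneg _)).trans
      (e ▸ mul_le_mul h1 h2 (norm_nonneg _) (by positivity))
  have b1 := (lt_div_iff₀ hC).mp (lt_min_iff.mp hb).1
  have b2 := (lt_div_iff₀ (pow_pos hC 3)).mp (lt_min_iff.mp hb).2
  have b0 := norm_pos_iff.mpr hb0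
  by_cases hs : u s (x s) ∈ N s
  · have h5 := B.le₂ s _ hs
    rw [f] at h5
    nlinarith [mul_le_mul_of_nonneg_left h4 hC.le, mul_le_mul_of_nonneg_left h5 hδ.le,
      mul_lt_mul_of_pos_right b2 b0]
  · have h5 := B.le_of_notMem hs
    nlinarith [mul_pos hC b0]

theorem one_base {a : ℂ} (ha : a ∈ Sq 0 η) (hl : Line S a a) {x : ι → ℂ}
    (hx : ∀ i, x i ∈ (S i).Ω ∧ (S i).H (x i) = a) {p q r s : ι}
    (h : ∀ b u, Tr S (Sq 0 η) a b u → u p (x p) * u q (x q) = u r (x r) * u s (x s))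
    (hp : x p ∈ N p) : x r ∈ N r ∨ x s ∈ N s := by
  by_contra hno
  rw [not_or] at hno
  have hC := B.C_pos
  have hδ := B.δ_pos
  have hη := B.η_pos
  have hU := isOpen_closure_Reach (S := S) (isOpen_Sq 0 η) (hx q).1 ((hx q).2.symm ▸ hl)
  set R := Reach S (Sq 0 η) q (x q)
  set W := {z | z ∈ (S q).Ω ∧ (S q).H z ∈ Sq 0 η}
  have hR : ∀ y ∈ R, δ ^ 2 / C ≤ ‖y‖ ^ 1 * ‖(S q).H y‖ := by
    rintro _ ⟨b, u, hu, rfl⟩
    rw [(hx q).2] at hu
    have e := congrArg norm (h b u hu)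
    rw [norm_mul, norm_mul] at e
    have f := fun i => (hu.fib i (hx i).1 (hx i).2).2
    have h1 := B.le₁ p _ ((B.mem_iff hu (hx p)).mpr hp)
    have h2 := B.le_of_notMem (mt (B.mem_iff hu (hx r)).mp hno.1)
    have h3 := B.le_of_notMem (mt (B.mem_iff hu (hx s)).mp hno.2)
    rw [f] at h1
    rw [f, pow_one, div_le_iff₀ hC]
    nlinarith [mul_le_mul h2 h3 hδ.le (norm_nonneg _),
      mul_le_mul_of_nonneg_right h1 (norm_nonneg (u q (x q)))]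
  have hlow : ∀ y ∈ closure R ∩ W, δ ^ 2 / C ≤ ‖y‖ ^ 1 * ‖(S q).H y‖ := fun y hy =>
    ContinuousWithinAt.closure_le hy.1 continuousWithinAt_const
      ((continuousAt_id.norm.pow 1).mul ((S q).continuousAt hy.2.1).norm).continuousWithinAt hR
  have key := carleman hU ((S q).diff.mono fun z hz => hz.2.1) (half_pos hη) (by positivity)
    one_ne_zero hlow (fun z hz => ?_) (fun r hr => ?_)
  · obtain ⟨b, u, -, hb, hu⟩ := B.exists_small ha hl (half_pos hη)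
    have f := hu.fib q (hx q).1 (hx q).2
    have := key (u q (x q)) ⟨subset_closure ⟨b, u, (hx q).2.symm ▸ hu, rfl⟩, f.1,
      f.2.symm ▸ hu.mem ha⟩
    rw [f.2] at this
    linarith
  · by_cases h1 : z ∈ closure R
    · by_cases h2 : z ∈ (S q).Ω
      · have h3 : η ≤ ‖(S q).H z‖ := not_lt.mp fun h3 =>
          hz ⟨h1, h2, ball_subset_Sq 0 η (mem_ball_zero_iff.mpr h3)⟩
        exact (((S q).continuousAt h2).norm.eventually_const_le
          (by linarith : η / 2 < _)).mono fun w hw _ => hw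
      · filter_upwards [eventually_nhdsWithin_iff.mp (((S q).blow z h2).eventually_ge_atTop (η / 2))]
          with w hw hwU
        exact hw fun h3 => hz ((show w = z from h3) ▸ hwU)
    · filter_upwards [isClosed_closure.isOpen_compl.mem_nhds h1] with w hw hwU
      exact absurd hwU.1 hw
  · by_contra hno'
    push Not at hno'
    have hΩ := B.circ q r hr fun z hz => ⟨(hno' z hz).1.2.1, by linarith [(hno' z hz).2, B.η_le]⟩
    have hW : Metric.closedBall (0 : ℂ) r ⊆ W := fun z hz => ⟨hΩ hz, ball_subset_Sq 0 η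
      (mem_ball_zero_iff.mpr (lt_of_le_of_lt (norm_le_of_forall_mem_frontier_norm_le
        (U := Metric.ball 0 r) Metric.isBounded_ball (DifferentiableOn.diffContOnCl
          ((S q).diff.mono (by rwa [closure_ball _ hr.ne']))) (fun w hw => (hno' w (by
            simpa [frontier_ball _ hr.ne'] using hw)).2.le)
        (by rwa [closure_ball _ hr.ne'])) (half_lt_self hη)))⟩
    have h0 := Metric.isPreconnected_closedBall.subset_of_closure_inter_subset hU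
      ⟨(r : ℂ), by simp [abs_of_pos hr], (hno' r (by simp [hr.le])).1⟩
      (fun z hz => ⟨closure_minimal inter_subset_left isClosed_closure hz.1, hW hz.2⟩)
      (Metric.mem_closedBall_self hr.le)
    have := hlow 0 h0
    rw [norm_zero, pow_one, zero_mul] at this
    exact absurd this (not_le.mpr (by positivity))

theorem mobius {a₀ : ℂ} (ha : a₀ ∈ Sq 0 η) (hl : Line S a₀ a₀) {i j : ι}
    (h : ∀ u, Tr S univ a₀ a₀ u → (u i (ψ i a₀) = ψ i a₀ ↔ u j (ψ j a₀) = ψ j a₀)) :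
    ∃ c d : ℂ, ∀ a ∈ Sq 0 η, a ∈ Grid S → ψ i a = (c + d * ψ i a) * ψ j a := by
  have hC := B.C_pos
  have hδ := B.δ_pos
  have fi := B.fib i ha
  have fj := B.fib j ha
  let T : ℂ → ℂ → Prop := fun x y =>
    ∃ b u, Tr S univ a₀ b u ∧ x = u i (ψ i a₀) ∧ y = u j (ψ j a₀)
  have T1 : ∀ x y y', T x y → T x y' → y = y' := by
    rintro _ _ _ ⟨b, u, hu, rfl, rfl⟩ ⟨b', u', hu', e, rfl⟩
    obtain rfl : b = b' := by rw [← (hu.fib i fi.1 fi.2).2, e, (hu'.fib i fi.1 fi.2).2]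
    obtain ⟨v, hv, h2⟩ := hu'.inv
    have h3 := (h _ (hu.trans hv)).mp (by simp only [e, h2 i _ fi.1 fi.2])
    have f1 := hu.fib j fj.1 fj.2
    have f2 := hu'.fib j fj.1 fj.2
    exact hv.inj j f1.1 f1.2 f2.1 f2.2 (h3.trans (h2 j _ fj.1 fj.2).symm)
  have T2 : ∀ x y, T x y → δ ≤ ‖y‖ ∨ ‖x‖ ≤ C ^ 2 * ‖y‖ := by
    rintro _ _ ⟨b, u, hu, rfl, rfl⟩
    refine or_iff_not_imp_left.mpr fun h1 => ?_
    have h2 := not_not.mp (mt (B.le_of_notMem (i := j)) h1)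
    have f1 := hu.fib i fi.1 fi.2
    have f2 := hu.fib j fj.1 fj.2
    obtain ⟨v, hv⟩ := exists_Tr (f2.2 ▸ ((B.chart j).left _ h2).1) ha (hu.line hl) hl
    have h3 := (h _ (hu.trans (hv.mono (subset_univ _)))).mpr
      ((B.mem_iff_eq ha (hv.fib j f2.1 f2.2).2).mp (B.mem_of_Tr hv f2.2 h2))
    have h4 := B.le₁ i _ ((B.mem_iff hv f1).mp
      ((B.mem_iff_eq ha (hv.fib i f1.1 f1.2).2).mpr h3))
    have h5 := B.le₂ j _ h2
    rw [f1.2] at h4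
    rw [f2.2] at h5
    nlinarith
  have T3 : ∀ x y, T x y → ∀ {P b u}, Tr S P ((S i).H x) b u → T (u i x) (u j y) := by
    rintro _ _ ⟨b, u, hu, rfl, rfl⟩ P b' v hv
    rw [(hu.fib i fi.1 fi.2).2] at hv
    exact ⟨b', _, hu.trans (hv.mono (subset_univ _)), rfl, rfl⟩
  have T4 : ∀ x y, T x y → Line S ((S i).H x) ((S i).H x) ∧ y ∈ (S j).Reg ∧
      (S j).H y = (S i).H x := by
    rintro _ _ ⟨b, u, hu, rfl, rfl⟩
    have f2 := hu.fib j fj.1 fj.2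
    rw [(hu.fib i fi.1 fi.2).2]
    exact ⟨hu.line hl, (hu.line hl).reg j f2.1 f2.2, f2.2⟩
  have hl' : Line S ((S i).H (ψ i a₀)) ((S i).H (ψ i a₀)) := fi.2.symm ▸ hl
  have hd := dense_Reach (S := S) fi.1 hl'
  have hT : ∀ x ∈ Reach S univ i (ψ i a₀), ∃ y, T x y := by
    rintro _ ⟨b, u, hu, rfl⟩
    exact ⟨_, b, u, fi.2 ▸ hu, rfl, rfl⟩
  choose! τ hτ using hT
  have hA := affine_of_local hd (E := (S i).Regᶜ ∪ {0}) (f := fun x => x / τ x)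
    (A := δ⁻¹) (C := C ^ 2) (fun z => ?_) (fun x hx => ?_) (fun x hx => ?_) (fun z hz => ?_)
  · obtain ⟨c, d, hcd⟩ := hA
    refine ⟨c, d, fun a ha' hg => ?_⟩
    obtain ⟨u, hu⟩ := exists_Tr_Grid ha ha' hl hg
    have e := fun k => hu.chart (B.chart k) (convex_Sq _ _) subset_rfl
    have h1 : ψ i a ∈ Reach S univ i (ψ i a₀) :=
      ⟨a, u, fi.2.symm ▸ hu.mono (subset_univ _), (e i).symm⟩
    rw [← hcd _ h1, T1 _ _ _ (hτ _ h1) ⟨a, u, hu.mono (subset_univ _), (e i).symm, (e j).symm⟩,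
      div_mul_cancel₀ _ (B.ψ_ne j ha' (Grid.line hg).ne_zero)]
  · filter_upwards [(S i).iso z, eventually_ne_zero z] with w h1 h2 h3
    exact h3.elim (fun h => h h1) h2
  · rintro (h1 | h1)
    · exact h1 (Reach.reg fi.1 hl' hx)
    · exact (T4 _ _ (hτ x hx)).1.ne_zero (by rw [show x = 0 from h1, B.H_zero])
  · rw [norm_div]
    rcases T2 _ _ (hτ x hx) with h1 | h1
    · rw [← div_eq_inv_mul]
      refine le_add_of_le_of_nonneg ?_ (by positivity)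
      gcongr
    · exact le_add_of_nonneg_of_le (by positivity)
        (div_le_of_le_mul₀ (norm_nonneg _) (by positivity) h1)
  rw [mem_union, not_or, notMem_compl_iff, mem_singleton_iff] at hz
  have hz0 := norm_pos_iff.mpr hz.2
  obtain ⟨ρ, ⟨N', χ, c, hzN, hN'⟩, hρ⟩ := (((S i).exists_chart hz.1
    (continuous_norm.continuousAt.eventually_const_lt (half_lt_self hz0))).and
      self_mem_nhdsWithin).exists
  let V : ℂ × ℝ × Set ℂ × (ℂ → ℂ) → Prop := fun k => (S j).Chart (Sq k.1 k.2.1) k.2.2.1 k.2.2.2 ∧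
    Sq k.1 k.2.1 ⊆ Sq ((S i).H z) ρ ∧ ∀ b ∈ Sq k.1 k.2.1, b ∈ Grid S → T (χ b) (k.2.2.2 b)
  let O : Set ℂ := {a | ∃ k, V k ∧ a ∈ Sq k.1 k.2.1}
  have hO : ∀ a ∈ O, ∃ y, ∀ k, V k → a ∈ Sq k.1 k.2.1 → y = k.2.2.2 a := by
    rintro a ⟨k, hk, hak⟩
    exact ⟨k.2.2.2 a, fun k' hk' hak' => eq_of_Grid S ((isOpen_Sq _ _).inter (isOpen_Sq _ _))
      (hk.1.cont.mono inter_subset_left) (hk'.1.cont.mono inter_subset_right)
      (fun b hb hg => T1 _ _ _ (hk.2.2 b hb.1 hg) (hk'.2.2 b hb.2 hg)) a ⟨hak, hak'⟩⟩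
  choose! g hg using hO
  have hOo : IsOpen O := isOpen_iff_mem_nhds.mpr fun a ⟨k, hk, hak⟩ =>
    mem_of_superset ((isOpen_Sq _ _).mem_nhds hak) fun b hb => ⟨k, hk, hb⟩
  set K := δ⁻¹ + 2 * C ^ 2 / ‖z‖
  have hK : ∀ a ∈ O, 1 ≤ K * ‖g a‖ := by
    rintro a ⟨k, hk, hak⟩
    rw [hg a ⟨k, hk, hak⟩ k hk hak]
    refine ContinuousWithinAt.closure_le (f := fun _ => (1 : ℝ)) (g := fun a => K * ‖k.2.2.2 a‖)
      ((dense_Grid S).open_subset_closure_inter (isOpen_Sq _ _) hak) continuousWithinAt_const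
      (continuousAt_const.mul (hk.1.cont.continuousAt
        ((isOpen_Sq _ _).mem_nhds hak)).norm).continuousWithinAt fun b hb => ?_
    have h1 : ‖z‖ / 2 < ‖χ b‖ := hN' (c.maps b (hk.2.1 hb.1))
    simp only [K, add_mul]
    rcases T2 _ _ (hk.2.2 b hb.1 hb.2) with h2 | h2
    · refine le_add_of_le_of_nonneg ?_ (by positivity)
      rwa [← div_eq_inv_mul, one_le_div hδ]
    · refine le_add_of_nonneg_of_le (by positivity) ?_
      rw [div_mul_eq_mul_div, one_le_div hz0]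
      linarith
  have hg0 : ∀ a ∈ O, g a ≠ 0 := fun a ha h0 => by
    have := hK a ha
    rw [h0, norm_zero, mul_zero] at this
    linarith
  obtain ⟨x₁, hx₁, hx₁'⟩ := hd.inter_open_nonempty _ c.oN ⟨z, hzN⟩
  have key : ∀ a ∈ Sq ((S i).H z) ρ, Line S a a → a ∈ O ∧ T (χ a) (g a) := by
    intro a haQ hla
    obtain ⟨u, hu⟩ := exists_Tr (c.left _ hx₁).1 haQ (T4 _ _ (hτ _ hx₁')).1 hla
    have h1 := T3 _ _ (hτ _ hx₁') hu
    have h2 := hu.chart c (convex_Sq _ _) subset_rfl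
    rw [(c.left _ hx₁).2] at h2
    rw [h2] at h1
    obtain ⟨-, h3, h4⟩ := T4 _ _ h1
    rw [c.right a haQ] at h4
    obtain ⟨η', ⟨N'', χ', c', h5, -⟩, h6, h7⟩ := (((S j).exists_chart h3 univ_mem).and
      ((eventually_Sq_subset (c.oQ.mem_nhds haQ)).and self_mem_nhdsWithin)).exists
    rw [h4] at c'
    have h8 := (c'.left _ h5).2
    rw [h4] at h8
    have hV : V (a, η', N'', χ') := ⟨c', h6, fun b hb hb' => by
      obtain ⟨v, hv⟩ := exists_Tr_Grid (mem_Sq_self a h7) hb hla hb'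
      have h9 := T3 _ _ h1 ((c.right a haQ).symm ▸ hv)
      rwa [hv.chart c (convex_Sq _ _) h6, ← h8, hv.chart c' (convex_Sq _ _) subset_rfl] at h9⟩
    have haO : a ∈ O := ⟨_, hV, mem_Sq_self a h7⟩
    exact ⟨haO, ((hg a haO _ hV (mem_Sq_self a h7)).trans h8).symm ▸ h1⟩
  have hA := removable hOo (u := fun a => (g a)⁻¹) (B := K)
    (c := (S i).H z) (fun a ha => ?_) (fun a ha b hb hab => ?_) (fun a ha => ?_) hρ
    (fun a ⟨k, hk, hak⟩ => hk.2.1 hak)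
    ((ae_Gh S).mono fun t ht a h1 h2 => (key a h1 (Or.inl ⟨rfl, h2 ▸ ht⟩)).1)
    ((ae_Gv S).mono fun t ht a h1 h2 => (key a h1 (Or.inr ⟨rfl, h2 ▸ ht⟩)).1)
  · obtain ⟨N₁, hN₁, hzN₁, v, hv, hvg⟩ := hA
    have hH := (S i).diff.mono fun w hw => (c.reg hw).1
    refine ⟨N' ∩ (S i).H ⁻¹' N₁, hH.continuousOn.isOpen_inter_preimage c.oN hN₁, ⟨hzN, hzN₁⟩,
      fun x => x * v ((S i).H x), differentiableOn_id.mul
        (hv.comp (hH.mono inter_subset_left) fun x hx => hx.2), fun x hx hx' => ?_⟩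
    obtain ⟨h1, h2⟩ := key _ (c.left x hx.1).1 (T4 _ _ (hτ x hx')).1
    rw [(c.left x hx.1).2] at h2
    simp only [hvg _ hx.2 h1, T1 _ _ _ (hτ x hx') h2, div_eq_mul_inv]
  · refine (DifferentiableAt.inv ?_ (hg0 a ha)).differentiableWithinAt
    obtain ⟨k, hk, hak⟩ := ha
    refine (hk.1.hasDerivAt hak).differentiableAt.congr_of_eventuallyEq ?_
    filter_upwards [(isOpen_Sq _ _).mem_nhds hak] with b hb using hg b ⟨k, hk, hb⟩ k hk hb
  · have e : ∀ a ∈ O, (S j).H (g a) = a := fun a ⟨k, hk, hak⟩ => by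
      rw [hg a ⟨k, hk, hak⟩ k hk hak, hk.1.right a hak]
    rw [← e a ha, inv_inj.mp hab, e b hb]
  · rw [norm_inv, inv_le_iff_one_le_mul₀ (norm_pos_iff.mpr (hg0 a ha))]
    exact hK a ha

theorem algebra {p q r s : ι} (h : ∀ a ∈ Sq 0 η, ψ p a * ψ q a = ψ r a * ψ s a) {c d c' d' : ℂ}
    (h1 : ∀ a ∈ Sq 0 η, a ∈ Grid S → ψ p a = (c + d * ψ p a) * ψ r a)
    (h2 : ∀ a ∈ Sq 0 η, a ∈ Grid S → ψ q a = (c' + d' * ψ q a) * ψ s a) :
    ∃ k : ℂ, (∀ a ∈ Sq 0 η, ψ p a = k * ψ r a) ∨ ∀ a ∈ Sq 0 η, ψ p a = k * ψ s a := by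
  have ct := fun i => (B.chart i).cont
  have h3 : ∀ a ∈ Sq 0 η, (c + d * ψ p a) * (c' + d' * ψ q a) = 1 :=
    eq_of_Grid S (isOpen_Sq _ _) ((continuousOn_const.add (continuousOn_const.mul (ct p))).mul
      (continuousOn_const.add (continuousOn_const.mul (ct q)))) continuousOn_const
      fun a ha hg => mul_right_cancel₀ (mul_ne_zero (B.ψ_ne r ha (Grid.line hg).ne_zero)
        (B.ψ_ne s ha (Grid.line hg).ne_zero)) (by
          linear_combination h a ha - ψ q a * h1 a ha hg - (c + d * ψ p a) * ψ r a * h2 a ha hg)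
  have h4 := h3 0 (mem_Sq_self 0 B.η_pos)
  simp only [B.ψ_zero, mul_zero, add_zero] at h4
  by_cases hd : d = 0
  · exact ⟨c, Or.inl (eq_of_Grid S (isOpen_Sq _ _) (ct p) (continuousOn_const.mul (ct r))
      fun a ha hg => by simpa [hd] using h1 a ha hg)⟩
  · have h5 : d * c' ≠ 0 := mul_ne_zero hd (right_ne_zero_of_mul_eq_one h4)
    refine ⟨-d' / (d * c'), Or.inr (eq_of_Grid S (isOpen_Sq _ _) (ct p)
      (continuousOn_const.mul (ct s)) fun a ha hg => ?_)⟩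
    rw [div_mul_eq_mul_div, eq_div_iff h5]
    linear_combination (1 - d' * ψ s a) * h3 a ha - h4 - d' * (c + d * ψ p a) * h2 a ha hg

end Base

theorem logic_four {α : Type} {L F0 F1 F2 F3 : α → Prop}
    (key : ∀ u, L u → (F0 u ∧ F1 u ↔ F2 u ∧ F3 u) ∧ (F0 u ∨ F1 u ↔ F2 u ∨ F3 u))
    (h0 : (∀ u, L u → F0 u → F2 u) ∨ ∀ u, L u → F0 u → F3 u)
    (h1 : (∀ u, L u → F1 u → F2 u) ∨ ∀ u, L u → F1 u → F3 u)
    (h2 : (∀ u, L u → F2 u → F0 u) ∨ ∀ u, L u → F2 u → F1 u)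
    (h3 : (∀ u, L u → F3 u → F0 u) ∨ ∀ u, L u → F3 u → F1 u) :
    (∀ u, L u → (F0 u ↔ F2 u) ∧ (F1 u ↔ F3 u)) ∨ ∀ u, L u → (F0 u ↔ F3 u) ∧ (F1 u ↔ F2 u) := by
  grind

theorem main_sys {S : Fin 4 → Sys} {η δ C : ℝ} {N : Fin 4 → Set ℂ} {ψ : Fin 4 → ℂ → ℂ}
    (B : Base S η δ C N ψ) (h : ∀ a ∈ Sq 0 η, ψ 0 a * ψ 1 a = ψ 2 a * ψ 3 a) :
    ∃ k : ℂ, (∀ a ∈ Sq 0 η, ψ 0 a = k * ψ 2 a) ∨ ∀ a ∈ Sq 0 η, ψ 0 a = k * ψ 3 a := by
  obtain ⟨a, ha, hg⟩ := (dense_Grid S).inter_open_nonempty _ (isOpen_Sq 0 η)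
    ⟨0, mem_Sq_self 0 B.η_pos⟩
  have hl := Grid.line hg
  have hx := fun i => B.fib i ha
  let Ψ : (Fin 4 → ℂ) → ℂ := fun y => y 0 * y 1 - y 2 * y 3
  have hΨ : Differentiable ℂ Ψ := by fun_prop
  have hR : Rel S Ψ fun i => ψ i a := Rel.of_chart B.chart (fun b hb => sub_eq_zero.mpr (h b hb))
    fun i => (B.chart i).maps a ha
  have key : ∀ u, Tr S univ a a u →
      ((u 0 (ψ 0 a) = ψ 0 a ∧ u 1 (ψ 1 a) = ψ 1 a ↔ u 2 (ψ 2 a) = ψ 2 a ∧ u 3 (ψ 3 a) = ψ 3 a) ∧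
      (u 0 (ψ 0 a) = ψ 0 a ∨ u 1 (ψ 1 a) = ψ 1 a ↔
        u 2 (ψ 2 a) = ψ 2 a ∨ u 3 (ψ 3 a) = ψ 3 a)) := by
    intro u hu
    have f := fun i => hu.fib i (hx i).1 (hx i).2
    have e : ∀ b v, Tr S (Sq 0 η) a b v → v 0 (u 0 (ψ 0 a)) * v 1 (u 1 (ψ 1 a)) =
        v 2 (u 2 (ψ 2 a)) * v 3 (u 3 (ψ 3 a)) := fun b v hv =>
      sub_eq_zero.mp (hv.rel_eq hΨ f (hu.rel hΨ hx hR))
    simp only [← fun i => B.mem_iff_eq ha (f i).2]
    refine ⟨⟨fun k => ⟨B.two_base ha hl f e k.1 k.2, B.two_base ha hl f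
      (fun b v hv => (e b v hv).trans (mul_comm _ _)) k.1 k.2⟩, fun k => ⟨B.two_base ha hl f
      (fun b v hv => (e b v hv).symm) k.1 k.2, B.two_base ha hl f
      (fun b v hv => (e b v hv).symm.trans (mul_comm _ _)) k.1 k.2⟩⟩,
      fun k => k.elim (B.one_base ha hl f e) (B.one_base ha hl f
        fun b v hv => (mul_comm _ _).trans (e b v hv)),
      fun k => k.elim (B.one_base ha hl f fun b v hv => (e b v hv).symm) (B.one_base ha hl f
        fun b v hv => (mul_comm _ _).trans (e b v hv).symm)⟩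
  have main := logic_four key
    (union_fix hx fun u hu k => (key u hu).2.mp (Or.inl k))
    (union_fix hx fun u hu k => (key u hu).2.mp (Or.inr k))
    (union_fix hx fun u hu k => (key u hu).2.mpr (Or.inl k))
    (union_fix hx fun u hu k => (key u hu).2.mpr (Or.inr k))
  rcases main with k | k
  · obtain ⟨c, d, h1⟩ := B.mobius ha hl fun u hu => (k u hu).1
    obtain ⟨c', d', h2⟩ := B.mobius ha hl fun u hu => (k u hu).2
    exact B.algebra h h1 h2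
  · obtain ⟨c, d, h1⟩ := B.mobius ha hl fun u hu => (k u hu).1
    obtain ⟨c', d', h2⟩ := B.mobius ha hl fun u hu => (k u hu).2
    exact (B.algebra (fun b hb => (h b hb).trans (mul_comm _ _)) h1 h2).imp fun _ h => h.symm

end Pool.Agent.Lib.MP_6db618_an
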