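import Mathlib
import Pool.Agent.Lib.MP_6db618_an.EntInd

set_option autoImplicit false

namespace Pool.Agent.Lib.MP_6db618_an

open Set Filter Topology MeasureTheory Complex

/-- The maximum modulus on the circle of radius `r`. -/
noncomputable def ME (f : ℂ → ℂ) (r : ℝ) : ℝ := sSup ((fun z => ‖f z‖) '' Metric.sphere (0 : ℂ) r)

/-- The logarithmic derivative in the variable `log z`. -/
noncomputable def LD (f : ℂ → ℂ) (z : ℂ) : ℂ := z * deriv f z / f z

variable {f g : ℂ → ℂ}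

theorem le_ME (hf : Continuous f) {r : ℝ} {z : ℂ} (hz : ‖z‖ = r) : ‖f z‖ ≤ ME f r :=
  le_csSup ((isCompact_sphere (0 : ℂ) r).image hf.norm).bddAbove ⟨z, by simpa using hz, rfl⟩

theorem exists_ME (hf : Continuous f) {r : ℝ} (hr : 0 ≤ r) : ∃ z : ℂ, ‖z‖ = r ∧ ‖f z‖ = ME f r := by
  obtain ⟨z, hz, h⟩ := ((isCompact_sphere (0 : ℂ) r).image hf.norm).sSup_mem
    ((NormedSpace.sphere_nonempty.mpr hr).image _)
  exact ⟨z, by simpa using hz, h⟩

theorem norm_le_of_sphere (hf : Differentiable ℂ f) {r C : ℝ} (hr : 0 < r)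
    (h : ∀ w, ‖w‖ = r → ‖f w‖ ≤ C) {z : ℂ} (hz : ‖z‖ ≤ r) : ‖f z‖ ≤ C :=
  norm_le_of_forall_mem_frontier_norm_le (U := Metric.ball 0 r) Metric.isBounded_ball
    hf.diffContOnCl (fun w hw => h w (by simpa [frontier_ball _ hr.ne'] using hw))
    (by simpa [closure_ball _ hr.ne'] using hz)

theorem le_ME_of_norm_le (hf : Differentiable ℂ f) {r : ℝ} (hr : 0 < r) {z : ℂ} (hz : ‖z‖ ≤ r) :
    ‖f z‖ ≤ ME f r := norm_le_of_sphere hf hr (fun _ => le_ME hf.continuous) hz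

theorem monotone_ME (hf : Differentiable ℂ f) : Monotone fun t : ℝ => ME f (Real.exp t) := by
  intro t1 t2 h
  obtain ⟨z, hz, hz'⟩ := exists_ME hf.continuous (Real.exp_pos t1).le
  change ME f _ ≤ ME f _
  rw [← hz']
  exact le_ME_of_norm_le hf (Real.exp_pos t2) (hz ▸ Real.exp_le_exp.mpr h)

theorem ME_mul_id (hf : Continuous f) {r : ℝ} (hr : 0 ≤ r) :
    ME (fun z => z * f z) r = r * ME f r := by
  have hc : Continuous fun z => z * f z := continuous_id.mul hf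
  obtain ⟨z, hz, hz'⟩ := exists_ME hc hr
  obtain ⟨w, hw, hw'⟩ := exists_ME hf hr
  refine le_antisymm ?_ ?_
  · rw [← hz', norm_mul, hz]
    exact mul_le_mul_of_nonneg_left (le_ME hf hz) hr
  · simpa only [norm_mul, hw, hw'] using le_ME hc hw

theorem hasDerivAt_spiral (hf : Differentiable ℂ f) (z c : ℂ) (t : ℝ) :
    HasDerivAt (fun t : ℝ => f (z * exp (c * t)))
      (c * (z * exp (c * t) * deriv f (z * exp (c * t)))) t := by
  have h1 : HasDerivAt (fun w : ℂ => z * exp (c * w)) (z * (exp (c * t) * c)) (t : ℂ) := by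
    simpa using (((hasDerivAt_id (t : ℂ)).const_mul c).cexp).const_mul z
  exact ((hf _).hasDerivAt.comp (t : ℂ) h1).comp_ofReal.congr_deriv (by ring)

theorem LD_at_max (hf : Differentiable ℂ f) {z : ℂ} {t d : ℝ} (hz : ‖z‖ = Real.exp t)
    (hmax : ‖f z‖ = ME f (Real.exp t)) (h0 : f z ≠ 0)
    (hd : HasDerivAt (fun t : ℝ => ME f (Real.exp t)) d t) :
    LD f z = ((d / ME f (Real.exp t) : ℝ) : ℂ) := by
  have hs : ∀ c : ℂ, HasDerivAt (fun t : ℝ => ‖f (z * exp (c * t))‖ ^ 2)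
      (2 * ((starRingEnd ℂ) (f z) * (c * (z * deriv f z))).re) 0 := fun c => by
    have h3 := (hasDerivAt_spiral hf z c 0).norm_sq
    simp only [ofReal_zero, mul_zero, exp_zero, mul_one, Complex.inner] at h3
    convert h3 using 3
    ring
  have h1max : IsLocalMax (fun s : ℝ => ‖f (z * exp (I * s))‖ ^ 2) 0 := by
    refine Eventually.of_forall fun s => ?_
    simp only [ofReal_zero, mul_zero, exp_zero, mul_one]
    rw [hmax]
    refine pow_le_pow_left₀ (norm_nonneg _) (le_ME hf.continuous ?_) 2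
    rw [norm_mul, mul_comm I, norm_exp_ofReal_mul_I, mul_one, hz]
  have e1 := h1max.hasDerivAt_eq_zero (hs I)
  have h3 : HasDerivAt (fun s : ℝ => ME f (Real.exp (t + s)) ^ 2)
      (2 * ME f (Real.exp t) * d) 0 := by
    have hd' : HasDerivAt (fun t : ℝ => ME f (Real.exp t)) d (t + 0) := by simpa using hd
    simpa using (hd'.comp_const_add t 0).fun_pow 2
  have h2max : IsLocalMax (fun s : ℝ => ‖f (z * exp (1 * s))‖ ^ 2 -
      ME f (Real.exp (t + s)) ^ 2) 0 := by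
    refine Eventually.of_forall fun s => ?_
    simp only [ofReal_zero, mul_zero, exp_zero, mul_one, add_zero]
    rw [hmax, sub_self, sub_nonpos]
    refine pow_le_pow_left₀ (norm_nonneg _) (le_ME hf.continuous ?_) 2
    rw [norm_mul, one_mul, norm_exp_ofReal, hz, Real.exp_add]
  have e2 := h2max.hasDerivAt_eq_zero ((hs 1).sub h3)
  have hM : ME f (Real.exp t) ≠ 0 := hmax ▸ norm_ne_zero_iff.mpr h0
  have e3 : (starRingEnd ℂ) (f z) * (z * deriv f z) = ((ME f (Real.exp t) * d : ℝ) : ℂ) := by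
    apply Complex.ext
    · rw [ofReal_re]
      rw [one_mul] at e2
      linarith
    · rw [ofReal_im]
      rw [mul_left_comm _ I, I_mul_re] at e1
      linarith
  have e4 : (starRingEnd ℂ) (f z) * f z = ((ME f (Real.exp t) ^ 2 : ℝ) : ℂ) := by
    rw [← hmax, conj_mul']
    push_cast
    ring
  have hc : (starRingEnd ℂ) (f z) ≠ 0 := by simpa using h0
  rw [LD, ← mul_div_mul_left _ _ hc, e3, e4]
  have hM' : ((ME f (Real.exp t) : ℝ) : ℂ) ≠ 0 := by exact_mod_cast hM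
  push_cast
  field_simp

theorem frequently_pair (hf : Differentiable ℂ f) (hg : Differentiable ℂ g) (h0 : f 0 ≠ 0) {r₀ : ℝ}
    (hr₀ : 0 < r₀) (h : ∀ r, 0 < r → r < r₀ → ME f r = ME g r) :
    ∃ᶠ p : ℂ × ℂ in 𝓝 (0, 0), p.1 ≠ 0 ∧ ‖p.1‖ = ‖p.2‖ ∧ ‖f p.1‖ = ‖g p.2‖ ∧
      LD f p.1 = LD g p.2 ∧ (starRingEnd ℂ) (LD f p.1) = LD f p.1 := by
  refine (Metric.nhds_basis_ball.frequently_iff).mpr fun ρ hρ => ?_
  obtain ⟨t, ht, hd⟩ := (Measure.dense_of_ae (monotone_ME hf).ae_differentiableAt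
    ).inter_open_nonempty (Iio (Real.log (min ρ r₀))) isOpen_Iio nonempty_Iio
  have hlt : ∀ s ∈ Iio (Real.log (min ρ r₀)), Real.exp s < min ρ r₀ := fun s hs =>
    (Real.lt_log_iff_exp_lt (lt_min hρ hr₀)).mp hs
  have he : ∀ s ∈ Iio (Real.log (min ρ r₀)), ME f (Real.exp s) = ME g (Real.exp s) := fun s hs =>
    h _ (Real.exp_pos s) (lt_min_iff.mp (hlt s hs)).2
  have hd1 : HasDerivAt (fun t : ℝ => ME f (Real.exp t)) _ t := DifferentiableAt.hasDerivAt hd
  have hd2 := hd1.congr_of_eventuallyEq (f₁ := fun t : ℝ => ME g (Real.exp t))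
    (mem_of_superset (isOpen_Iio.mem_nhds ht) fun s hs => (he s hs).symm)
  obtain ⟨x, hx, hx'⟩ := exists_ME hf.continuous (Real.exp_pos t).le
  obtain ⟨y, hy, hy'⟩ := exists_ME hg.continuous (Real.exp_pos t).le
  have hM : 0 < ME f (Real.exp t) := (norm_pos_iff.mpr h0).trans_le
    (le_ME_of_norm_le hf (Real.exp_pos t) (by simpa using (Real.exp_pos t).le))
  have e1 := LD_at_max hf hx hx' (norm_pos_iff.mp (hx' ▸ hM)) hd1
  have e2 := LD_at_max hg hy hy' (norm_pos_iff.mp (hy' ▸ he t ht ▸ hM)) hd2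
  refine ⟨(x, y), ?_, norm_pos_iff.mp (hx ▸ Real.exp_pos t), hx.trans hy.symm, ?_, ?_, ?_⟩
  · rw [← ball_prod_same]
    exact ⟨mem_ball_zero_iff.mpr (hx ▸ (lt_min_iff.mp (hlt t ht)).1),
      mem_ball_zero_iff.mpr (hy ▸ (lt_min_iff.mp (hlt t ht)).1)⟩
  · rw [hx', hy', he t ht]
  · rw [e1, e2, he t ht]
  · rw [e1, conj_ofReal]

theorem eventually_ne_of_entire (hf : Differentiable ℂ f) (h0 : f 0 ≠ 0) (z : ℂ) :
    ∀ᶠ w in 𝓝[≠] z, f w ≠ 0 :=
  (hf.analyticAt z).eventually_eq_zero_or_eventually_ne_zero.resolve_left fun h =>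
    h0 (AnalyticOnNhd.eqOn_zero_of_preconnected_of_eventuallyEq_zero
      (fun w _ => hf.analyticAt w) isPreconnected_univ (mem_univ z) h (mem_univ 0))

theorem hasDerivAt_LD (hf : Differentiable ℂ f) {z : ℂ} (hz : f z ≠ 0) :
    HasDerivAt (LD f) (((deriv f z + z * deriv (deriv f) z) * f z - z * deriv f z * deriv f z) /
      f z ^ 2) z := by
  exact (((hasDerivAt_id z).mul (hf.deriv z).hasDerivAt).div (hf z).hasDerivAt hz).congr_deriv
    (by simp)

theorem hasDerivAt_LD_zero (hf : Differentiable ℂ f) (h0 : f 0 ≠ 0) :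
    HasDerivAt (LD f) (deriv f 0 / f 0) 0 :=
  (hasDerivAt_LD hf h0).congr_deriv (by field_simp; ring)

theorem LD_zero (f : ℂ → ℂ) : LD f 0 = 0 := by simp [LD]

/-- The meromorphic function `z f'(z) / f(z)`. -/
noncomputable def sysOf (f : ℂ → ℂ) (hf : Differentiable ℂ f) (h0 : f 0 ≠ 0)
    (h1 : deriv f 0 ≠ 0) : Sys where
  H := LD f
  Ω := {z | f z ≠ 0}
  isOpen := isOpen_ne_fun hf.continuous continuous_const
  diff := fun _ hz => (hasDerivAt_LD hf hz).differentiableAt.differentiableWithinAt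
  blow := fun z hz => by
    have hz' : f z = 0 := not_not.mp hz
    have hm := (hf.analyticAt z).meromorphicAt
    have h2 := meromorphicOrderAt_logDeriv_eq_neg_one hm (fun h => by
      obtain ⟨c, hc, h3⟩ := tendsto_ne_zero_of_meromorphicOrderAt_eq_zero hm h
      exact hc (tendsto_nhds_unique h3 (hz' ▸ (hf.continuous.tendsto z).mono_left
        nhdsWithin_le_nhds))) ((meromorphicOrderAt_ne_top_iff_eventually_ne_zero hm).mpr
          (eventually_ne_of_entire hf h0 z))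
    have h3 := tendsto_norm_atTop_iff_cobounded.mpr
      (tendsto_cobounded_of_meromorphicOrderAt_neg (f := logDeriv f) (x := z) (by
        rw [h2]
        decide))
    have h4 : 0 < ‖z‖ := norm_pos_iff.mpr fun h => h0 (h ▸ hz')
    refine (((continuous_norm.tendsto z).mono_left nhdsWithin_le_nhds).pos_mul_atTop h4 h3).congr
      fun w => ?_
    rw [LD, mul_div_assoc, norm_mul, logDeriv_apply]
  iso := fun z => by
    have hE : Differentiable ℂ fun z =>
        (deriv f z + z * deriv (deriv f) z) * f z - z * deriv f z * deriv f z :=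
      ((hf.deriv.add (differentiable_id.mul hf.deriv.deriv)).mul hf).sub
        ((differentiable_id.mul hf.deriv).mul hf.deriv)
    filter_upwards [eventually_ne_of_entire hf h0 z,
      eventually_ne_of_entire hE (by simp [h0, h1]) z] with w e1 e2
    exact ⟨e1, (hasDerivAt_LD hf e1).deriv ▸ div_ne_zero e2 (pow_ne_zero 2 e1)⟩

theorem ne_zero_of_circle (hf : Differentiable ℂ f) {r : ℝ} (hr : 0 < r)
    (h : ∀ z, ‖z‖ = r → f z ≠ 0 ∧ ‖LD f z‖ ≤ 1 / 10) {z : ℂ} (hz : ‖z‖ ≤ r) : f z ≠ 0 := by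
  obtain ⟨x, hx, hx'⟩ := exists_ME hf.continuous hr.le
  have hM : 0 < ME f r := hx' ▸ norm_pos_iff.mpr (h x hx).1
  have hx0 : x ≠ 0 := norm_pos_iff.mp (hx ▸ hr)
  have key : ∀ w, ‖w‖ = r → ‖f w - f x‖ ≤ ME f r / 10 * 4 := fun w hw => by
    have h1 := convex_univ.norm_image_sub_le_of_norm_hasDerivWithin_le (C := ME f r / 10)
      (fun t _ => (hasDerivAt_spiral hf x I t).hasDerivWithinAt) (fun t _ => ?_)
      (mem_univ 0) (mem_univ (arg (w / x)))
    · have h2 : ‖w / x‖ = 1 := by rw [norm_div, hw, hx, div_self hr.ne']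
      have h3 := norm_mul_exp_arg_mul_I (w / x)
      rw [h2, ofReal_one, one_mul] at h3
      rw [mul_comm I, h3, mul_div_cancel₀ _ hx0, ofReal_zero, mul_zero, exp_zero, mul_one,
        sub_zero] at h1
      refine h1.trans (mul_le_mul_of_nonneg_left ?_ (by positivity))
      exact (abs_arg_le_pi _).trans Real.pi_le_four
    · have h2 : ‖x * exp (I * t)‖ = r := by
        rw [norm_mul, mul_comm I, norm_exp_ofReal_mul_I, mul_one, hx]
      have h3 := (h _ h2).2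
      rw [LD, norm_div, div_le_iff₀ (norm_pos_iff.mpr (h _ h2).1)] at h3
      rw [norm_mul, norm_I, one_mul]
      linarith [le_ME hf.continuous h2]
  intro h0
  have := norm_le_of_sphere (hf.sub_const (f x)) hr key hz
  rw [h0, zero_sub, norm_neg, hx'] at this
  linarith

theorem isTheta_of_hasDerivAt {c x : ℂ} (h : HasDerivAt f c x) (hc : c ≠ 0) :
    (fun w => f w - f x) =Θ[𝓝 x] fun w => w - x :=
  (h.hasFDerivAt_equiv hc).isTheta_sub 
    (ContinuousLinearEquiv.unitsEquivAut ℂ (Units.mk0 c hc)).toHomeomorph.isInducing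

theorem exists_base {ι : Type} [Finite ι] (S : ι → Sys) (h0 : ∀ i, 0 ∈ (S i).Reg)
    (h1 : ∀ i, (S i).H 0 = 0) (hc : ∀ i r, 0 < r → (∀ z, ‖z‖ = r → z ∈ (S i).Ω ∧
      ‖(S i).H z‖ ≤ 1 / 10) → Metric.closedBall 0 r ⊆ (S i).Ω) :
    ∃ η δ C N ψ, Base S η δ C N ψ := by
  have hT : ∀ i, (S i).H =Θ[𝓝 0] fun w : ℂ => w := fun i => by
    simpa [h1] using isTheta_of_hasDerivAt ((S i).analyticAt (h0 i).1).differentiableAt.hasDerivAt
      (h0 i).2
  obtain ⟨C, hC1, hC⟩ := ((eventually_all.mpr fun i => (Asymptotics.isBigO_iff_eventually.mp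
    (hT i).2).and (Asymptotics.isBigO_iff_eventually.mp (hT i).1)).and
      (eventually_gt_atTop 0)).exists
  obtain ⟨η, h2, h3⟩ := ((eventually_all.mpr fun i => (S i).exists_chart (h0 i)
    ((hC1 i).1.and (hC1 i).2)).and (Ioc_mem_nhdsGT (show (0 : ℝ) < 1 / 10 by norm_num))).exists
  choose N ψ c hN hsub using h2
  obtain ⟨δ, hδ, h4⟩ := Metric.mem_nhds_iff.mp
    (iInter_mem.mpr fun i => (c i).oN.mem_nhds (hN i))
  exact ⟨η, δ, C, N, ψ, h3.1, h3.2, hδ, hC, fun i => h1 i ▸ c i,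
    fun i => h4.trans (iInter_subset _ i), fun i w hw => (hsub i hw).1,
    fun i w hw => (hsub i hw).2, hc⟩

theorem eq_of_LD (hf : Differentiable ℂ f) (hg : Differentiable ℂ g) {k : ℂ} {δ : ℝ} (hδ : 0 < δ)
    (h : ∀ y ∈ Metric.ball (0 : ℂ) δ, g y ≠ 0 ∧ f (k * y) ≠ 0 ∧ LD f (k * y) = LD g y) :
    ∃ e : ℂ, ∀ z, g z = e * f (k * z) := by
  have hk : Differentiable ℂ fun z => f (k * z) := hf.comp (differentiable_id.const_mul k)
  obtain ⟨e, -, he⟩ := (logDeriv_eqOn_iff hg.differentiableOn hk.differentiableOn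
    (Metric.isOpen_ball.sdiff isClosed_singleton) (isPreconnected_punctured 0 hδ)
    (fun y hy => (h y hy.1).2.1) (fun y hy => (h y hy.1).1)).mp fun y hy => by
      have h1 := (h y hy.1).2.2
      have h2 : deriv (fun z => f (k * z)) y = deriv f (k * y) * (k * 1) :=
        ((hf (k * y)).hasDerivAt.comp y ((hasDerivAt_id y).const_mul k)).deriv
      refine mul_left_cancel₀ (show y ≠ 0 from hy.2) ?_
      rw [logDeriv_apply, logDeriv_apply, h2, ← mul_div_assoc, ← LD, ← h1, LD]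
      ring
  refine ⟨e, congrFun (AnalyticOnNhd.eq_of_frequently_eq (z₀ := 0) (fun w _ => hg.analyticAt w)
    (fun w _ => (hk.const_mul e).analyticAt w) (Eventually.frequently ?_))⟩
  filter_upwards [mem_nhdsWithin_of_mem_nhds (Metric.ball_mem_nhds 0 hδ), self_mem_nhdsWithin]
    with y h1 h2 using he ⟨h1, h2⟩

theorem equiv_of_ne_zero (hf : Differentiable ℂ f) (hg : Differentiable ℂ g) (h0 : f 0 ≠ 0)
    (h1 : deriv f 0 ≠ 0) {r₀ : ℝ} (hr₀ : 0 < r₀) (h : ∀ r, 0 < r → r < r₀ → ME f r = ME g r) :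
    ∃ ε η : ℂ, ‖ε‖ = 1 ∧ ‖η‖ = 1 ∧ ((∀ z, g z = ε * f (η * z)) ∨
      ∀ z, g z = ε * starRingEnd ℂ (f (η * starRingEnd ℂ z))) := by
  have hp := frequently_pair hf hg h0 hr₀ h
  have t1 : Tendsto (fun p : ℂ × ℂ => p.1) (𝓝 (0, 0)) (𝓝 0) := continuous_fst.tendsto (0, 0)
  have t2 : Tendsto (fun p : ℂ × ℂ => p.2) (𝓝 (0, 0)) (𝓝 0) := continuous_snd.tendsto (0, 0)
  have e0 : ‖f 0‖ = ‖g 0‖ := tendsto_nhds_unique_of_frequently_eq
    ((hf.continuous.norm.tendsto 0).comp t1) ((hg.continuous.norm.tendsto 0).comp t2)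
    (hp.mono fun p hp => hp.2.2.1)
  have g0 : g 0 ≠ 0 := norm_pos_iff.mp (e0 ▸ norm_pos_iff.mpr h0)
  have g1 : deriv g 0 ≠ 0 := fun hd => by
    have a1 := (isTheta_of_hasDerivAt (hasDerivAt_LD_zero hf h0) (div_ne_zero h1 h0)).2
    have a2 := hasDerivAt_iff_isLittleO.mp (hasDerivAt_LD_zero hg g0)
    simp only [LD_zero, sub_zero, hd, zero_div, smul_zero] at a1 a2
    obtain ⟨C, hC, a3⟩ := a1.exists_pos
    obtain ⟨p, ⟨p1, p2, -, p3, -⟩, p4, p5⟩ := (hp.and_eventually ((t1.eventually a3.bound).and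
      (t2.eventually (a2.def (show 0 < (2 * C)⁻¹ by positivity))))).exists
    rw [← p3, ← p2, ← div_eq_inv_mul, le_div_iff₀ (by positivity)] at p5
    linarith [norm_pos_iff.mpr p1]
  let cj : (ℂ → ℂ) → ℂ → ℂ := fun u => starRingEnd ℂ ∘ u ∘ starRingEnd ℂ
  have cd : ∀ {u}, Differentiable ℂ u → Differentiable ℂ (cj u) := fun hu z =>
    differentiableAt_conj_conj_iff.mpr (hu _)
  have cL : ∀ u z, LD (cj u) (starRingEnd ℂ z) = starRingEnd ℂ (LD u z) := fun u z => by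
    simp [LD, cj]
  let F : Fin 4 → ℂ → ℂ := ![f, cj f, g, cj g]
  have hF : ∀ i, Differentiable ℂ (F i) ∧ F i 0 ≠ 0 ∧ deriv (F i) 0 ≠ 0 := by
    intro i
    fin_cases i
    · exact ⟨hf, h0, h1⟩
    · exact ⟨cd hf, by simpa [F, cj] using h0, by simpa [F, cj] using h1⟩
    · exact ⟨hg, g0, g1⟩
    · exact ⟨cd hg, by simpa [F, cj] using g0, by simpa [F, cj] using g1⟩
  obtain ⟨η, δ, C, N, ψ, B⟩ := exists_base (fun i => sysOf (F i) (hF i).1 (hF i).2.1 (hF i).2.2)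
    (fun i => ⟨(hF i).2.1, (hasDerivAt_LD_zero (hF i).1 (hF i).2.1).deriv ▸
      div_ne_zero (hF i).2.2 (hF i).2.1⟩) (fun i => LD_zero _)
    fun i r hr hc z hz => ne_zero_of_circle (hF i).1 hr hc (mem_closedBall_zero_iff.mp hz)
  have hl : ∀ i, ∀ x, ‖x‖ < δ → LD (F i) x ∈ Sq 0 η ∧ ψ i (LD (F i) x) = x := fun i x hx =>
    (B.chart i).left x (B.ball i (mem_ball_zero_iff.mpr hx))
  have hq : ∃ᶠ a in 𝓝[≠] (0 : ℂ), a ∈ Sq 0 η ∧ ‖ψ 0 a‖ = ‖ψ 2 a‖ ∧
      ψ 1 a = starRingEnd ℂ (ψ 0 a) ∧ ψ 3 a = starRingEnd ℂ (ψ 2 a) := by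
    have t3 : Tendsto (fun p : ℂ × ℂ => LD f p.1) (𝓝 (0, 0)) (𝓝 0) := by
      simpa [LD_zero, Function.comp_def] using
        (hasDerivAt_LD_zero hf h0).continuousAt.tendsto.comp t1
    refine frequently_nhdsWithin_iff.mpr (t3.frequently ((hp.and_eventually
      (t1.eventually (Metric.ball_mem_nhds 0 B.δ_pos))).mono ?_))
    rintro ⟨x, y⟩ ⟨⟨p1, p2, -, p3, p4⟩, p5⟩
    have hx : ‖x‖ < δ := mem_ball_zero_iff.mp p5
    have q0 : ψ 0 (LD f x) = x := (hl 0 x hx).2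
    have q1 : ψ 1 (LD (cj f) (starRingEnd ℂ x)) = _ := (hl 1 _ (by rwa [norm_conj])).2
    have q2 : ψ 2 (LD g y) = y := (hl 2 y (p2 ▸ hx)).2
    have q3 : ψ 3 (LD (cj g) (starRingEnd ℂ y)) = _ :=
      (hl 3 _ (by rw [norm_conj]; exact p2 ▸ hx)).2
    dsimp only at p1 p2 p3 p4 ⊢
    rw [cL, p4] at q1
    rw [cL, ← p3, p4] at q3
    rw [← p3] at q2
    refine ⟨⟨(hl 0 x hx).1, by rw [q0, q2, p2], by rw [q0, q1], by rw [q2, q3]⟩, fun h => p1 ?_⟩
    rw [← q0, show LD f x = 0 from h, B.ψ_zero]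
  have an := fun i => (B.chart i).differentiableOn.analyticOnNhd (isOpen_Sq 0 η)
  obtain ⟨k, hk⟩ := main_sys B (((an 0).mul (an 1)).eqOn_of_preconnected_of_frequently_eq
    ((an 2).mul (an 3)) (convex_Sq 0 η).isPreconnected (mem_Sq_self 0 B.η_pos)
    (hq.mono fun a ha => by
      simp only [ha.2.2.1, ha.2.2.2, mul_conj, normSq_eq_norm_sq, ha.2.1]))
  obtain ⟨a, ⟨a1, a2, -, a3⟩, a4⟩ := (hq.and_eventually self_mem_nhdsWithin).exists
  have a5 := norm_pos_iff.mpr (B.ψ_ne 2 a1 a4)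
  have fin : ∀ j, (∀ a ∈ Sq 0 η, ψ 0 a = k * ψ j a) → ∃ e : ℂ, ∀ z, F j z = e * f (k * z) :=
    fun j hj => eq_of_LD hf (hF j).1 B.δ_pos fun y hy => by
      obtain ⟨b1, b2⟩ := hl j y (mem_ball_zero_iff.mp hy)
      have b3 := B.fib 0 b1
      rw [hj _ b1, b2] at b3
      exact ⟨((B.chart j).reg (B.ball j hy)).1, b3⟩
  have f0 := norm_pos_iff.mpr h0
  rcases hk with hk | hk
  · obtain ⟨e, he⟩ := fin 2 hk
    refine ⟨e, k, ?_, ?_, Or.inl he⟩
    · have : g 0 = e * f (k * 0) := he 0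
      rw [this, mul_zero, norm_mul] at e0
      exact (mul_eq_right₀ f0.ne').mp e0.symm
    · rw [hk a a1, norm_mul] at a2
      exact (mul_eq_right₀ a5.ne').mp a2
  · obtain ⟨e, he⟩ := fin 3 hk
    have he' : ∀ z, g z = starRingEnd ℂ e * starRingEnd ℂ (f (k * starRingEnd ℂ z)) := fun z => by
      rw [← map_mul, ← he]
      simp [F, cj]
    refine ⟨_, k, ?_, ?_, Or.inr he'⟩
    · rw [he' 0, map_zero, mul_zero, norm_mul, norm_conj (f 0)] at e0
      exact (mul_eq_right₀ f0.ne').mp e0.symm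
    · rw [hk a a1, norm_mul, a3, norm_conj] at a2
      exact (mul_eq_right₀ a5.ne').mp a2

theorem exists_factor (hf : Differentiable ℂ f) {r₀ : ℝ} (hr₀ : 0 < r₀) (j : ℕ) :
    ∀ g : ℂ → ℂ, Differentiable ℂ g →
      (∀ r, 0 < r → r < r₀ → ME (fun z => z ^ j * f z) r = ME g r) →
      ∃ u : ℂ → ℂ, Differentiable ℂ u ∧ (∀ z, g z = z ^ j * u z) ∧
        ∀ r, 0 < r → r < r₀ → ME f r = ME u r := by
  induction j with
  | zero => exact fun g hg h => ⟨g, hg, by simp, by simpa using h⟩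
  | succ j ih =>
    intro g hg h
    have hv : Differentiable ℂ fun z => z ^ j * f z := by fun_prop
    have e1 : (fun z => z ^ (j + 1) * f z) = fun z => z * (z ^ j * f z) := by
      funext z
      ring
    rw [e1] at h
    have g0 : g 0 = 0 := by
      refine norm_le_zero_iff.mp (ge_of_tendsto (x := 𝓝[>] (0 : ℝ))
        (f := fun r => r * ME (fun z => z ^ j * f z) r₀) ?_ ?_)
      · exact ((by fun_prop : Continuous fun r : ℝ => r * ME (fun z => z ^ j * f z) r₀).tendsto' 0 0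
          (zero_mul _)).mono_left nhdsWithin_le_nhds
      · filter_upwards [Ioo_mem_nhdsGT hr₀] with r hr
        refine (le_ME_of_norm_le hg hr.1 (by simpa using hr.1.le)).trans ?_
        obtain ⟨z, hz, hz'⟩ := exists_ME hv.continuous hr.1.le
        rw [← h r hr.1 hr.2, ME_mul_id hv.continuous hr.1.le, ← hz']
        exact mul_le_mul_of_nonneg_left (le_ME_of_norm_le hv hr₀ (hz ▸ hr.2.le)) hr.1.le
    have hs : Differentiable ℂ (dslope g 0) :=
      differentiableOn_univ.mp ((differentiableOn_dslope univ_mem).mpr hg.differentiableOn)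
    have e2 : g = fun z => z * dslope g 0 z := funext fun z => by
      simpa [g0] using (sub_smul_dslope g 0 z).symm
    obtain ⟨u, hu, h1, h2⟩ := ih _ hs fun r hr hr' => mul_left_cancel₀ hr.ne' (by
      rw [← ME_mul_id hv.continuous hr.le, ← ME_mul_id hs.continuous hr.le, ← e2, h r hr hr'])
    refine ⟨u, hu, fun z => ?_, h2⟩
    rw [congrFun e2 z, h1]
    ring

theorem equiv_of_factor (hf : Differentiable ℂ f) (hg : Differentiable ℂ g) (h0 : f 0 ≠ 0)
    (h1 : deriv f 0 ≠ 0) (j : ℕ) {r₀ : ℝ} (hr₀ : 0 < r₀)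
    (h : ∀ r, 0 < r → r < r₀ → ME (fun z => z ^ j * f z) r = ME g r) :
    ∃ ε η : ℂ, ‖ε‖ = 1 ∧ ‖η‖ = 1 ∧ ((∀ z, g z = ε * ((η * z) ^ j * f (η * z))) ∨
      ∀ z, g z = ε * starRingEnd ℂ ((η * starRingEnd ℂ z) ^ j * f (η * starRingEnd ℂ z))) := by
  obtain ⟨u, hu, e, h2⟩ := exists_factor hf hr₀ j g hg h
  obtain ⟨ε, η, h3, h4, h5⟩ := equiv_of_ne_zero hf hu h0 h1 hr₀ h2
  have h6 : η ≠ 0 := norm_ne_zero_iff.mp (h4 ▸ one_ne_zero)
  rcases h5 with h5 | h5
  · refine ⟨ε / η ^ j, η, by simp [h3, h4], h4, Or.inl fun z => ?_⟩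
    rw [e, h5, mul_pow]
    field_simp
  · have h7 : starRingEnd ℂ η ≠ 0 := by simpa using h6
    refine ⟨ε / starRingEnd ℂ η ^ j, η, by simp [h3, h4], h4, Or.inr fun z => ?_⟩
    rw [e, h5, mul_pow, map_mul, map_mul, map_pow, map_pow, conj_conj]
    field_simp

end Pool.Agent.Lib.MP_6db618_an
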