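import Mathlib
import Pool.Agent.Lib.MP_6db618_an.Ultra

set_option autoImplicit false

namespace Pool.Agent.Lib.MP_6db618_an

open Filter Topology

/-- The maximum modulus of a function on the circle of radius `r`. -/
noncomputable def MF (f : ℂ → ℂ) (r : ℝ) : ℝ :=
  sSup ((fun z => ‖f z‖) '' Metric.sphere (0 : ℂ) r)

variable {f g : ℂ → ℂ}

theorem le_MF (hf : Continuous f) {r : ℝ} {z : ℂ} (hz : ‖z‖ = r) : ‖f z‖ ≤ MF f r := by
  refine le_csSup ?_ ⟨z, by simpa using hz, rfl⟩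
  exact ((isCompact_sphere (0 : ℂ) r).image hf.norm).bddAbove

theorem exists_MF (hf : Continuous f) {r : ℝ} (hr : 0 ≤ r) :
    ∃ z : ℂ, ‖z‖ = r ∧ ‖f z‖ = MF f r := by
  have hne : (Metric.sphere (0 : ℂ) r).Nonempty := NormedSpace.sphere_nonempty.mpr hr
  have := ((isCompact_sphere (0 : ℂ) r).image hf.norm).sSup_mem (hne.image _)
  obtain ⟨z, hz, h⟩ := this
  exact ⟨z, by simpa using hz, h⟩

theorem le_MF_of_norm_le (hf : Differentiable ℂ f) {r : ℝ} (hr : 0 < r) {z : ℂ} (hz : ‖z‖ ≤ r) :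
    ‖f z‖ ≤ MF f r := by
  refine Complex.norm_le_of_forall_mem_frontier_norm_le (f := f)
    (U := Metric.ball 0 r) Metric.isBounded_ball hf.diffContOnCl ?_ ?_
  · intro w hw
    rw [frontier_ball _ hr.ne'] at hw
    exact le_MF hf.continuous (by simpa using hw)
  · rw [closure_ball _ hr.ne']
    simpa using hz

theorem monotone_MF (hf : Differentiable ℂ f) : Monotone fun t : ℝ => MF f (Real.exp t) := by
  intro t1 t2 h
  obtain ⟨z, hz, hz'⟩ := exists_MF hf.continuous (Real.exp_pos t1).le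
  change MF f _ ≤ MF f _
  rw [← hz']
  exact le_MF_of_norm_le hf (Real.exp_pos t2) (hz ▸ Real.exp_le_exp.mpr h)

theorem entire_eq_zero (hf : Differentiable ℂ f) {c : ℂ} (h : ∃ᶠ z in 𝓝[≠] c, f z = 0) (z : ℂ) :
    f z = 0 :=
  congrFun ((hf.differentiableOn.analyticOnNhd isOpen_univ).eq_of_frequently_eq
    (g := fun _ => 0) analyticOnNhd_const h) z

theorem MF_ne_zero (hf : Differentiable ℂ f) (h0 : ∃ z, f z ≠ 0) {r : ℝ} (hr : 0 < r) :
    MF f r ≠ 0 := by
  intro h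
  obtain ⟨z, hz⟩ := h0
  refine hz (entire_eq_zero hf (c := 0) (Eventually.frequently ?_) z)
  filter_upwards [mem_nhdsWithin_of_mem_nhds (Metric.ball_mem_nhds (0 : ℂ) hr)] with w hw
  have := le_MF_of_norm_le hf hr (z := w) (le_of_lt (by simpa using hw))
  rw [h] at this
  exact norm_le_zero_iff.mp this

theorem hasDerivAt_normSq' (hf : Differentiable ℂ f) (z c : ℂ) :
    HasDerivAt (fun t : ℝ => ‖f (z * Complex.exp (c * t))‖ ^ 2)
      (2 * ((starRingEnd ℂ) (f z) * (c * (z * deriv f z))).re) 0 := by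
  have h1 : HasDerivAt (fun w : ℂ => z * Complex.exp (c * w)) (z * c) (0 : ℝ) := by
    have := (((hasDerivAt_id ((0 : ℝ) : ℂ)).const_mul c).cexp).const_mul z
    simpa using this
  have h2 := (((hf _).hasDerivAt).comp ((0 : ℝ) : ℂ) h1).comp_ofReal
  have h3 := h2.norm_sq
  simp only [Function.comp_apply, Complex.ofReal_zero, mul_zero, Complex.exp_zero, mul_one,
    Complex.inner] at h3
  convert h3 using 3
  ring

theorem deriv_at_max (hf : Differentiable ℂ f) {z : ℂ} {t d : ℝ} (hz : ‖z‖ = Real.exp t)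
    (hmax : ‖f z‖ = MF f (Real.exp t)) (h0 : f z ≠ 0)
    (hd : HasDerivAt (fun t : ℝ => MF f (Real.exp t)) d t) :
    z * deriv f z = ((d / MF f (Real.exp t) : ℝ) : ℂ) * f z := by
  have h1 := hasDerivAt_normSq' hf z Complex.I
  have h1max : IsLocalMax (fun s : ℝ => ‖f (z * Complex.exp (Complex.I * s))‖ ^ 2) 0 := by
    refine Filter.Eventually.of_forall fun s => ?_
    simp only [Complex.ofReal_zero, mul_zero, Complex.exp_zero, mul_one]
    rw [hmax]
    refine pow_le_pow_left₀ (norm_nonneg _) (le_MF hf.continuous ?_) 2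
    rw [norm_mul, mul_comm Complex.I, Complex.norm_exp_ofReal_mul_I, mul_one, hz]
  have e1 := h1max.hasDerivAt_eq_zero h1
  have h2 := hasDerivAt_normSq' hf z 1
  have h3 : HasDerivAt (fun s : ℝ => MF f (Real.exp (t + s)) ^ 2)
      (2 * MF f (Real.exp t) * d) 0 := by
    have hd' : HasDerivAt (fun t : ℝ => MF f (Real.exp t)) d (t + 0) := by simpa using hd
    have := (hd'.comp_const_add t 0).fun_pow 2
    simpa using this
  have h2max : IsLocalMax (fun s : ℝ => ‖f (z * Complex.exp (1 * s))‖ ^ 2 -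
      MF f (Real.exp (t + s)) ^ 2) 0 := by
    refine Filter.Eventually.of_forall fun s => ?_
    simp only [Complex.ofReal_zero, mul_zero, Complex.exp_zero, mul_one, add_zero]
    rw [hmax, sub_self, sub_nonpos]
    refine pow_le_pow_left₀ (norm_nonneg _) (le_MF hf.continuous ?_) 2
    rw [norm_mul, one_mul, Complex.norm_exp_ofReal, hz, Real.exp_add]
  have e2 := h2max.hasDerivAt_eq_zero (h2.sub h3)
  have hM : MF f (Real.exp t) ≠ 0 := by rw [← hmax]; exact norm_ne_zero_iff.mpr h0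
  have e3 : (starRingEnd ℂ) (f z) * (z * deriv f z) = ((MF f (Real.exp t) * d : ℝ) : ℂ) := by
    apply Complex.ext
    · rw [Complex.ofReal_re]
      rw [one_mul] at e2
      linarith
    · rw [Complex.ofReal_im]
      have : ((starRingEnd ℂ) (f z) * (Complex.I * (z * deriv f z))).re =
          -((starRingEnd ℂ) (f z) * (z * deriv f z)).im := by
        rw [mul_left_comm, Complex.I_mul_re]
      rw [this] at e1
      linarith
  have e4 : (starRingEnd ℂ) (f z) * f z = ((MF f (Real.exp t) ^ 2 : ℝ) : ℂ) := by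
    rw [← hmax, Complex.conj_mul']
    push_cast
    ring
  have hc : (starRingEnd ℂ) (f z) ≠ 0 := by simpa using h0
  have hM' : ((MF f (Real.exp t) : ℝ) : ℂ) ≠ 0 := by exact_mod_cast hM
  refine mul_left_cancel₀ hc ?_
  rw [e3, mul_left_comm, e4]
  push_cast
  field_simp

/-- A pair of maximum points at a radius where the common maximum modulus is differentiable. -/
structure GoodE (f g : ℂ → ℂ) (x y : ℂ) (a : ℝ) : Prop where
  x0 : x ≠ 0
  norm_eq : ‖x‖ = ‖y‖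
  f0 : f x ≠ 0
  g0 : g y ≠ 0
  df : x * deriv f x = a * f x
  dg : y * deriv g y = a * g y

theorem exists_goodE (hf : Differentiable ℂ f) (hg : Differentiable ℂ g) (h0 : ∃ z, f z ≠ 0)
    (h : ∀ r, 0 < r → MF f r = MF g r) {α β : ℝ} (hαβ : α < β) :
    ∃ t ∈ Set.Ioo α β, ∃ (x y : ℂ) (a : ℝ), ‖x‖ = Real.exp t ∧ GoodE f g x y a := by
  have hdense := MeasureTheory.Measure.dense_of_ae (monotone_MF hf).ae_differentiableAt
  obtain ⟨t, ht, hd⟩ := hdense.inter_open_nonempty (Set.Ioo α β) isOpen_Ioo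
    (Set.nonempty_Ioo.mpr hαβ)
  have hd1 : HasDerivAt (fun t : ℝ => MF f (Real.exp t)) _ t :=
    DifferentiableAt.hasDerivAt hd
  have hev : (fun t : ℝ => MF g (Real.exp t)) =ᶠ[nhds t] fun t : ℝ => MF f (Real.exp t) :=
    Eventually.of_forall fun s => (h _ (Real.exp_pos s)).symm
  have hd2 := hd1.congr_of_eventuallyEq hev
  obtain ⟨x, hx, hx'⟩ := exists_MF hf.continuous (Real.exp_pos t).le
  obtain ⟨y, hy, hy'⟩ := exists_MF hg.continuous (Real.exp_pos t).le
  have hM : MF f (Real.exp t) ≠ 0 := MF_ne_zero hf h0 (Real.exp_pos t)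
  have hx0 : f x ≠ 0 := by rw [← norm_ne_zero_iff, hx']; exact hM
  have hy0 : g y ≠ 0 := by rw [← norm_ne_zero_iff, hy', ← h _ (Real.exp_pos t)]; exact hM
  have e1 := deriv_at_max hf hx hx' hx0 hd1
  have e2 := deriv_at_max hg hy hy' hy0 hd2
  rw [← h _ (Real.exp_pos t)] at e2
  refine ⟨t, ht, x, y, _, hx, ?_, hx.trans hy.symm, hx0, hy0, e1, e2⟩
  rw [← norm_ne_zero_iff, hx]
  exact (Real.exp_pos t).ne'

theorem exists_seqE_zero (hf : Differentiable ℂ f) (hg : Differentiable ℂ g) (h0 : ∃ z, f z ≠ 0)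
    (h : ∀ r, 0 < r → MF f r = MF g r) :
    ∃ (x y : ℕ → ℂ) (a : ℕ → ℝ), (∀ n, GoodE f g (x n) (y n) (a n)) ∧ Tendsto x atTop (𝓝 0) ∧
      Tendsto y atTop (𝓝 0) := by
  have key : ∀ n : ℕ, ∃ (x y : ℂ) (a : ℝ), GoodE f g x y a ∧ ‖x‖ ≤ Real.exp (-n) := by
    intro n
    obtain ⟨t, ht, x, y, a, hx, hg⟩ := exists_goodE hf hg h0 h (α := -n - 1) (β := -n) (by linarith)
    exact ⟨x, y, a, hg, by rw [hx]; exact Real.exp_le_exp.mpr ht.2.le⟩
  choose x y a hg hle using key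
  have hlim : Tendsto (fun n : ℕ => Real.exp (-n)) atTop (𝓝 0) :=
    Real.tendsto_exp_atBot.comp (tendsto_neg_atTop_atBot.comp tendsto_natCast_atTop_atTop)
  refine ⟨x, y, a, hg, squeeze_zero_norm hle hlim, squeeze_zero_norm ?_ hlim⟩
  intro n
  rw [← (hg n).norm_eq]
  exact hle n

theorem exists_seqE_infty (hf : Differentiable ℂ f) (hg : Differentiable ℂ g)
    (h0 : ∃ z, f z ≠ 0) (h : ∀ r, 0 < r → MF f r = MF g r) :
    ∃ (x y : ℕ → ℂ) (a : ℕ → ℝ), (∀ n, GoodE f g (x n) (y n) (a n)) ∧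
      Tendsto (fun n => (x n)⁻¹) atTop (𝓝 0) ∧ Tendsto (fun n => (y n)⁻¹) atTop (𝓝 0) := by
  have key : ∀ n : ℕ, ∃ (x y : ℂ) (a : ℝ), GoodE f g x y a ∧ ‖x‖⁻¹ ≤ Real.exp (-n) := by
    intro n
    obtain ⟨t, ht, x, y, a, hx, hg⟩ := exists_goodE hf hg h0 h (α := n) (β := n + 1) (by linarith)
    exact ⟨x, y, a, hg, by
      rw [hx, ← Real.exp_neg]; exact Real.exp_le_exp.mpr (by linarith [ht.1])⟩
  choose x y a hg hle using key
  have hlim : Tendsto (fun n : ℕ => Real.exp (-n)) atTop (𝓝 0) :=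
    Real.tendsto_exp_atBot.comp (tendsto_neg_atTop_atBot.comp tendsto_natCast_atTop_atTop)
  refine ⟨x, y, a, hg, squeeze_zero_norm (fun n => by rw [norm_inv]; exact hle n) hlim,
    squeeze_zero_norm ?_ hlim⟩
  intro n
  rw [norm_inv, ← (hg n).norm_eq]
  exact hle n

/-- If `z F'/F` and `z g'/g` agree along a sequence tending to `0`, then `g` is a multiple of `F`. -/
theorem prop_of_seq {F : ℂ → ℂ} (hF : Differentiable ℂ F) (hg : Differentiable ℂ g)
    {y : ℕ → ℂ} (hy : Tendsto y atTop (𝓝 0)) (y0 : ∀ n, y n ≠ 0)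
    (h : ∃ᶠ n in atTop, F (y n) ≠ 0 ∧ ∃ a : ℂ, y n * deriv F (y n) = a * F (y n) ∧
      y n * deriv g (y n) = a * g (y n)) : ∃ ε : ℂ, ∀ z, g z = ε * F z := by
  have hF' : Differentiable ℂ (deriv F) := hF.deriv
  have hg' : Differentiable ℂ (deriv g) := hg.deriv
  have hW : ∀ z, deriv g z * F z - g z * deriv F z = 0 := by
    refine entire_eq_zero (f := fun z => deriv g z * F z - g z * deriv F z)
      ((hg'.mul hF).sub (hg.mul hF')) (c := 0) ?_
    have hy' : Tendsto y atTop (𝓝[≠] 0) :=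
      tendsto_nhdsWithin_iff.mpr ⟨hy, Eventually.of_forall y0⟩
    refine hy'.frequently (h.mono fun n ⟨_, a, h1, h2⟩ => ?_)
    refine mul_left_cancel₀ (y0 n) ?_
    linear_combination F (y n) * h2 - g (y n) * h1
  obtain ⟨n, hn, -⟩ := h.exists
  obtain ⟨δ, hδ, hb⟩ := Metric.eventually_nhds_iff_ball.mp (hF.continuous.continuousAt.eventually_ne hn)
  have hc : ∀ z ∈ Metric.ball (y n) δ, g z / F z = g (y n) / F (y n) := by
    intro z hz
    refine (convex_ball (y n) δ).is_const_of_fderivWithin_eq_zero (𝕜 := ℂ)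
      (f := fun z => g z / F z) ?_ ?_ hz (Metric.mem_ball_self hδ)
    · exact fun w hw => ((hg w).div (hF w) (hb w hw)).differentiableWithinAt
    · intro w hw
      have h1 := ((hg w).hasDerivAt.div (hF w).hasDerivAt (hb w hw))
      rw [hW w, zero_div] at h1
      rw [fderivWithin_of_isOpen Metric.isOpen_ball hw]
      have := h1.hasFDerivAt.fderiv
      rw [show (fun z => g z / F z) = g / F from rfl, this]
      ext
      simp
  refine ⟨g (y n) / F (y n), fun z => sub_eq_zero.mp ?_⟩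
  refine entire_eq_zero (f := fun z => g z - g (y n) / F (y n) * F z)
    (hg.sub (hF.const_mul _)) (c := y n) (Eventually.frequently ?_) z
  filter_upwards [mem_nhdsWithin_of_mem_nhds (Metric.ball_mem_nhds (y n) hδ)] with w hw
  rw [← hc w hw, div_mul_cancel₀ _ (hb w hw), sub_self]

theorem norm_eps_MF (hf : Differentiable ℂ f) (hg : Continuous g) (h0 : ∃ z, f z ≠ 0)
    (h : MF f 1 = MF g 1) {ε c : ℂ} (hc : ‖c‖ = 1) (e : ∀ z, g z = ε * f (c * z)) : ‖ε‖ = 1 := by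
  obtain ⟨x, hx, hx'⟩ := exists_MF hf.continuous zero_le_one
  obtain ⟨y, hy, hy'⟩ := exists_MF hg zero_le_one
  refine norm_eps (f := f) (g := g) (r := 1) (M := MF f 1) (fun z hz => le_MF hf.continuous hz)
    (fun z hz => h ▸ le_MF hg hz) hx hy hx' (hy'.trans h.symm) ?_ hc e
  exact lt_of_le_of_ne (hx' ▸ norm_nonneg _) (MF_ne_zero hf h0 one_pos).symm

theorem equivE_of_u (hf : Differentiable ℂ f) (hg : Differentiable ℂ g) (h0 : ∃ z, f z ≠ 0)
    (h : MF f 1 = MF g 1) {x y : ℕ → ℂ} {a : ℕ → ℝ} (hd : ∀ n, GoodE f g (x n) (y n) (a n))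
    (hy : Tendsto y atTop (𝓝 0)) {c : ℂ} (hc : ∃ᶠ n in atTop, x n = c * y n) :
    ∃ ε : ℂ, ‖ε‖ = 1 ∧ ‖c‖ = 1 ∧ ∀ z, g z = ε * f (c * z) := by
  have y0 : ∀ n, y n ≠ 0 := fun n => by
    rw [← norm_ne_zero_iff, ← (hd n).norm_eq, norm_ne_zero_iff]
    exact (hd n).x0
  have hc1 : ‖c‖ = 1 := by
    obtain ⟨n, hn⟩ := hc.exists
    have := (hd n).norm_eq
    rw [hn, norm_mul] at this
    exact mul_right_cancel₀ (norm_ne_zero_iff.mpr (y0 n)) (by rw [this, one_mul])
  obtain ⟨ε, hε⟩ := prop_of_seq (F := fun z => f (c * z)) (by fun_prop) hg hy y0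
    (hc.mono fun n hn => ⟨hn ▸ (hd n).f0, a n, by
      have h1 : HasDerivAt (fun z => f (c * z)) (deriv f (c * y n) * c) (y n) := by
        have := ((hf (c * y n)).hasDerivAt).comp (y n) ((hasDerivAt_id (y n)).const_mul c)
        simpa [Function.comp_def] using this
      rw [h1.deriv, ← hn, ← (hd n).df, hn]
      ring, (hd n).dg⟩)
  exact ⟨ε, norm_eps_MF hf hg.continuous h0 h hc1 hε, hc1, hε⟩

theorem MF_conj (g : ℂ → ℂ) (r : ℝ) :
    MF (starRingEnd ℂ ∘ g ∘ starRingEnd ℂ) r = MF g r := by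
  unfold MF
  congr 1
  ext t
  constructor
  · rintro ⟨z, hz, rfl⟩
    exact ⟨starRingEnd ℂ z, by simpa using hz, by simp⟩
  · rintro ⟨z, hz, rfl⟩
    exact ⟨starRingEnd ℂ z, by simpa using hz, by simp⟩

theorem GoodE.conj (hg : Differentiable ℂ g) {x y : ℂ} {a : ℝ} (h : GoodE f g x y a) :
    GoodE f (starRingEnd ℂ ∘ g ∘ starRingEnd ℂ) x (starRingEnd ℂ y) a := by
  refine ⟨h.x0, by rw [h.norm_eq, Complex.norm_conj], h.f0, by simpa using h.g0, h.df, ?_⟩
  rw [((hg y).hasDerivAt.conj_conj).deriv, ← map_mul, h.dg]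
  simp

theorem equivE_of_v (hf : Differentiable ℂ f) (hg : Differentiable ℂ g) (h0 : ∃ z, f z ≠ 0)
    (h : MF f 1 = MF g 1) {x y : ℕ → ℂ} {a : ℕ → ℝ} (hd : ∀ n, GoodE f g (x n) (y n) (a n))
    (hy : Tendsto y atTop (𝓝 0)) {c : ℂ} (hc : ∃ᶠ n in atTop, x n = c * starRingEnd ℂ (y n)) :
    ∃ ε : ℂ, ‖ε‖ = 1 ∧ ‖c‖ = 1 ∧ ∀ z, g z = ε * starRingEnd ℂ (f (c * starRingEnd ℂ z)) := by
  have hg' : Differentiable ℂ (starRingEnd ℂ ∘ g ∘ starRingEnd ℂ) := fun z => by
    have := (hg (starRingEnd ℂ z)).conj_conj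
    rwa [Complex.conj_conj] at this
  obtain ⟨ε, h1, h2, h3⟩ := equivE_of_u hf hg' h0 (h.trans (MF_conj g 1).symm)
    (fun n => (hd n).conj hg) (tendsto_conj hy) hc
  refine ⟨starRingEnd ℂ ε, by rw [Complex.norm_conj, h1], h2, fun z => ?_⟩
  rw [← map_mul, ← h3]
  simp

end Pool.Agent.Lib.MP_6db618_an
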