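import Mathlib
import Pool.Agent.Lib.MP_6db618_an.Entire1

set_option autoImplicit false

namespace Pool.Agent.Lib.MP_6db618_an

open Filter Topology Polynomial

theorem exists_factor_zero {g : ℂ → ℂ} (hg : Differentiable ℂ g) (h0 : ∃ z, g z ≠ 0) (c : ℂ) :
    ∃ (n : ℕ) (g1 : ℂ → ℂ), Differentiable ℂ g1 ∧ g1 c ≠ 0 ∧ ∀ z, g z = (z - c) ^ n * g1 z := by
  classical
  have ha : AnalyticAt ℂ g c := hg.analyticAt c
  have hne : ¬ ∀ᶠ z in 𝓝 c, g z = 0 := by
    intro h
    obtain ⟨z, hz⟩ := h0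
    exact hz (entire_eq_zero hg (c := c) (h.filter_mono nhdsWithin_le_nhds).frequently z)
  obtain ⟨n, h, hh, hc, he⟩ := (ha.exists_eventuallyEq_pow_smul_nonzero_iff).mpr hne
  refine ⟨n, fun z => if z = c then h c else g z / (z - c) ^ n, fun z => ?_, by simpa using hc,
    fun z => ?_⟩
  · by_cases hz : z = c
    · subst hz
      refine hh.differentiableAt.congr_of_eventuallyEq ?_
      filter_upwards [he] with w hw
      split_ifs with h1
      · rw [h1]
      · rw [hw, smul_eq_mul, mul_div_cancel_left₀ _ (pow_ne_zero _ (sub_ne_zero.mpr h1))]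
    · have h1 : DifferentiableAt ℂ (fun w => g w / (w - c) ^ n) z :=
        (hg z).div (by fun_prop) (pow_ne_zero _ (sub_ne_zero.mpr hz))
      refine h1.congr_of_eventuallyEq ?_
      filter_upwards [eventually_ne_nhds hz] with w hw
      rw [if_neg hw]
  · by_cases hz : z = c
    · subst hz
      simpa using he.self_of_nhds
    · simp only [if_neg hz]
      rw [mul_div_cancel₀ _ (pow_ne_zero _ (sub_ne_zero.mpr hz))]

theorem exists_poly_mul (S : Finset ℂ) : ∀ {g : ℂ → ℂ}, Differentiable ℂ g → (∃ z, g z ≠ 0) →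
    (∀ z, g z = 0 → z ∈ S) → ∃ (q : ℂ[X]) (g0 : ℂ → ℂ), q ≠ 0 ∧ Differentiable ℂ g0 ∧
      (∀ z, g0 z ≠ 0) ∧ ∀ z, g z = q.eval z * g0 z := by
  classical
  induction S using Finset.induction_on with
  | empty =>
    intro g hg _ h
    exact ⟨1, g, one_ne_zero, hg, fun z hz => by simpa using h z hz, fun z => by simp⟩
  | insert c S _ ih =>
    intro g hg h0 h
    obtain ⟨n, g1, h1, h2, h3⟩ := exists_factor_zero hg h0 c
    obtain ⟨q, g0, k1, k2, k3, k4⟩ := ih h1 ⟨c, h2⟩ fun z hz => by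
      rcases Finset.mem_insert.mp (h z (by rw [h3, hz, mul_zero])) with rfl | h5
      · exact absurd hz h2
      · exact h5
    refine ⟨(X - C c) ^ n * q, g0, mul_ne_zero (pow_ne_zero _ (X_sub_C_ne_zero c)) k1, k2, k3,
      fun z => ?_⟩
    rw [h3, k4]
    simp [mul_assoc]

theorem exists_log {g : ℂ → ℂ} (hg : Differentiable ℂ g) (h0 : ∀ z, g z ≠ 0) :
    ∃ φ : ℂ → ℂ, Differentiable ℂ φ ∧ ∀ z, g z = Complex.exp (φ z) := by
  have h1 : Differentiable ℂ fun z => deriv g z / g z := hg.deriv.div hg h0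
  obtain ⟨φ, h2, h3⟩ := h1.isExactOn_univ.with_val_at 0 (Complex.log (g 0))
  have h4 : Differentiable ℂ φ := fun z => (h3 z trivial).differentiableAt
  have h5 : ∀ z, HasDerivAt (fun z => g z * Complex.exp (-φ z)) 0 z := by
    intro z
    have := (hg z).hasDerivAt.mul (h3 z trivial).neg.cexp
    convert this using 1
    all_goals first | rfl | skip
    have := h0 z
    field_simp
    ring
  refine ⟨φ, h4, fun z => ?_⟩
  have h6 := is_const_of_deriv_eq_zero (fun z => (h5 z).differentiableAt)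
    (fun z => (h5 z).deriv) z 0
  rw [h2, Complex.exp_neg, Complex.exp_neg, Complex.exp_log (h0 0), mul_inv_cancel₀ (h0 0)] at h6
  rw [← one_mul (Complex.exp _), ← h6, mul_assoc, inv_mul_cancel₀ (Complex.exp_ne_zero _), mul_one]

theorem exists_poly_of_re_le {φ : ℂ → ℂ} (hφ : Differentiable ℂ φ) {N : ℕ} {B R : ℝ}
    (h : ∀ r, R ≤ r → ∀ z, ‖z‖ < r → (φ z).re ≤ r ^ N + B) :
    ∃ P : ℂ[X], ∀ z, φ z = P.eval z := by
  have key : ∀ n, N < n → iteratedDeriv n φ 0 = 0 := by
    intro n hn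
    have h1 : ∀ r : ℝ, max R 1 ≤ r → ‖iteratedDeriv n φ 0‖ ≤
        n.factorial * (2 * ((2 * r) ^ N + |B|) + 3 * ‖φ 0‖) / r ^ n := by
      intro r hr
      have r1 : 1 ≤ r := (le_max_right _ _).trans hr
      have r0 : 0 < r := one_pos.trans_le r1
      refine Complex.norm_iteratedDeriv_le_of_forall_mem_sphere_norm_le n r0 hφ.diffContOnCl ?_
      intro z hz
      have hz' : ‖z‖ = r := by simpa using hz
      have := Complex.borelCaratheodory (f := φ) (M := (2 * r) ^ N + |B|) (R := 2 * r) (z := z)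
        (by positivity) hφ.differentiableOn (fun w hw => by
          refine (h (2 * r) (by linarith [le_max_left R 1]) w (by simpa using hw)).trans ?_
          linarith [le_abs_self B]) (by positivity) (by simp [hz']; linarith)
      rw [hz'] at this
      convert this using 1
      have : 2 * r - r = r := by ring
      rw [this]
      field_simp
      ring
    have h2 : Tendsto (fun r : ℝ => n.factorial * (2 * ((2 * r) ^ N + |B|) + 3 * ‖φ 0‖) / r ^ n)
        atTop (𝓝 0) := by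
      have t1 : Tendsto (fun r : ℝ => r ^ N / r ^ n) atTop (𝓝 0) := tendsto_pow_div_pow_atTop_zero hn
      have t2 : Tendsto (fun r : ℝ => r ^ 0 / r ^ n) atTop (𝓝 0) :=
        tendsto_pow_div_pow_atTop_zero (by omega)
      have t3 := ((t1.const_mul (2 * 2 ^ N)).add (t2.const_mul (2 * |B| + 3 * ‖φ 0‖))).const_mul
        (n.factorial : ℝ)
      simp only [mul_zero, add_zero] at t3
      refine t3.congr fun r => ?_
      rw [mul_pow]
      ring
    exact norm_le_zero_iff.mp (ge_of_tendsto h2 ((eventually_ge_atTop _).mono h1))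
  refine ⟨∑ n ∈ Finset.range (N + 1), C ((n.factorial : ℂ)⁻¹ * iteratedDeriv n φ 0) * X ^ n,
    fun z => ?_⟩
  have h3 := Complex.hasSum_taylorSeries_of_entire hφ 0 z
  have h4 := hasSum_sum_of_ne_finset_zero (s := Finset.range (N + 1)) (L := .unconditional ℕ)
    (f := fun n : ℕ => (n.factorial : ℂ)⁻¹ • (z - 0) ^ n • iteratedDeriv n φ 0) (fun n hn => by
      rw [key n (by simpa [Nat.succ_le_iff] using hn)]
      simp)
  rw [h3.unique h4, eval_finsetSum]
  refine Finset.sum_congr rfl fun n _ => ?_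
  simp only [sub_zero, smul_eq_mul, eval_mul, eval_C, eval_pow, eval_X]
  ring

theorem exists_lower {q : ℂ[X]} (hq : q ≠ 0) :
    ∃ R δ : ℝ, 0 < δ ∧ ∀ z : ℂ, R ≤ ‖z‖ → δ ≤ ‖q.eval z‖ := by
  by_cases hd : 0 < q.degree
  · have := (q.tendsto_norm_atTop hd tendsto_norm_cobounded_atTop).eventually_ge_atTop 1
    obtain ⟨R, -, hR⟩ := (Metric.hasBasis_cobounded_compl_closedBall (0 : ℂ)).eventually_iff.mp this
    refine ⟨R + 1, 1, one_pos, fun z hz => hR ?_⟩
    simp only [Set.mem_compl_iff, Metric.mem_closedBall, dist_zero_right, not_le]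
    linarith
  · rw [eq_C_of_degree_le_zero (not_lt.mp hd)] at hq ⊢
    refine ⟨0, ‖q.coeff 0‖, norm_pos_iff.mpr ?_, fun z _ => by simp⟩
    intro h
    exact hq (by rw [h, C_0])

/-- Hadamard factorisation for an entire function of finite order with finitely many zeros. -/
theorem exists_poly_exp {g : ℂ → ℂ} (hg : Differentiable ℂ g) (hz : {z | g z = 0}.Finite)
    {N : ℕ} {R : ℝ} (h : ∀ z, R ≤ ‖z‖ → ‖g z‖ ≤ Real.exp (‖z‖ ^ N)) :
    ∃ q Q : ℂ[X], q ≠ 0 ∧ ∀ z, g z = q.eval z * Complex.exp (Q.eval z) := by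
  have h0 : ∃ z, g z ≠ 0 := by
    obtain ⟨z, hz'⟩ := hz.exists_notMem
    exact ⟨z, hz'⟩
  obtain ⟨q, g0, k1, k2, k3, k4⟩ := exists_poly_mul hz.toFinset hg h0 fun z hz' => by
    simpa using hz'
  obtain ⟨φ, h1, h2⟩ := exists_log k2 k3
  obtain ⟨R', δ, hδ, h3⟩ := exists_lower k1
  obtain ⟨Q, hQ⟩ := exists_poly_of_re_le h1 (N := N) (B := -Real.log δ) (R := max (max R R') 1)
    fun r hr z hz' => by
      have r0 : 0 < r := one_pos.trans_le ((le_max_right _ _).trans hr)
      obtain ⟨w, hw, hw'⟩ := exists_MF k2.continuous r0.le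
      have e1 : ‖g0 z‖ ≤ ‖g0 w‖ := hw' ▸ le_MF_of_norm_le k2 r0 hz'.le
      have e2 := h w (hw ▸ ((le_max_left _ _).trans (le_max_left _ _)).trans hr)
      have e3 := h3 w (hw ▸ ((le_max_right _ _).trans (le_max_left _ _)).trans hr)
      rw [k4, norm_mul, hw] at e2
      have e4 : δ * ‖g0 z‖ ≤ Real.exp (r ^ N) :=
        (mul_le_mul e3 e1 (norm_nonneg _) (norm_nonneg _)).trans e2
      rw [h2, Complex.norm_exp, ← Real.exp_log hδ, ← Real.exp_add, Real.exp_le_exp] at e4
      linarith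
  exact ⟨q, Q, k1, fun z => by rw [k4, h2, hQ]⟩

end Pool.Agent.Lib.MP_6db618_an
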