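import Mathlib
import Pool.Agent.Lib.MP_6db618_an.Adj

set_option autoImplicit false

namespace Pool.Agent.Lib.MP_6db618_an

open Polynomial

variable {K : Type} [Field K] [Algebra ℂ K]

/-- `z` is congruent to the constant `c` modulo the maximal ideal of `V`. -/
def Near (V : ValuationSubring K) (z : K) (c : ℂ) : Prop :=
  V.valuation (z - algebraMap ℂ K c) < 1

variable {V : ValuationSubring K}

theorem near_zero_iff {z : K} : Near V z 0 ↔ V.valuation z < 1 := by
  simp [Near]

theorem near_const (c : ℂ) : Near V (algebraMap ℂ K c) c := by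
  simp [Near]

theorem near_one : Near V 1 1 := by
  simp [Near]

theorem near_natCast (n : ℕ) : Near V (n : K) n := by
  simp [Near]

theorem HasConst.le_one (hV : HasConst V) (c : ℂ) : V.valuation (algebraMap ℂ K c) ≤ 1 :=
  (V.valuation_le_one_iff _).mpr (hV c)

theorem Near.le_one (hV : HasConst V) {z : K} {c : ℂ} (h : Near V z c) : V.valuation z ≤ 1 := by
  have : z = (z - algebraMap ℂ K c) + algebraMap ℂ K c := by ring
  rw [this]
  exact Valuation.map_add_le _ (le_of_lt h) (hV.le_one c)

theorem Near.mem (hV : HasConst V) {z : K} {c : ℂ} (h : Near V z c) : z ∈ V :=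
  (V.valuation_le_one_iff _).mp (h.le_one hV)

theorem Near.val_eq_one (hV : HasConst V) {z : K} {c : ℂ} (h : Near V z c) (hc : c ≠ 0) :
    V.valuation z = 1 := by
  have : z = algebraMap ℂ K c + (z - algebraMap ℂ K c) := by ring
  have h3 := hV.valuation_const hc
  rw [this, Valuation.map_add_eq_of_lt_left _ (by rw [h3]; exact h), h3]

theorem Near.ne_zero (hV : HasConst V) {z : K} {c : ℂ} (h : Near V z c) (hc : c ≠ 0) :
    z ≠ 0 := by
  intro h0
  have := h.val_eq_one hV hc
  rw [h0, map_zero] at this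
  exact zero_ne_one this

theorem Near.unique (hV : HasConst V) {z : K} {c d : ℂ} (h : Near V z c) (h' : Near V z d) :
    c = d := by
  have : c - d = 0 := by
    refine hV.const_eq_zero_of_lt ?_
    have e : algebraMap ℂ K (c - d) = (z - algebraMap ℂ K d) - (z - algebraMap ℂ K c) := by
      rw [map_sub]; ring
    rw [e]
    exact Valuation.map_sub_lt _ h' h
  exact sub_eq_zero.mp this

theorem Near.congr {z w : K} {c d : ℂ} (h : Near V z c) (e1 : w = z) (e2 : d = c) :
    Near V w d := by
  rw [e1, e2]; exact h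

theorem Near.add {z w : K} {c d : ℂ} (h : Near V z c) (h' : Near V w d) :
    Near V (z + w) (c + d) := by
  have e : z + w - algebraMap ℂ K (c + d) =
      (z - algebraMap ℂ K c) + (w - algebraMap ℂ K d) := by rw [map_add]; ring
  unfold Near
  rw [e]
  exact Valuation.map_add_lt _ h h'

theorem Near.neg {z : K} {c : ℂ} (h : Near V z c) : Near V (-z) (-c) := by
  have e : -z - algebraMap ℂ K (-c) = -(z - algebraMap ℂ K c) := by rw [map_neg]; ring
  unfold Near
  rw [e, Valuation.map_neg]
  exact h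

theorem Near.sub {z w : K} {c d : ℂ} (h : Near V z c) (h' : Near V w d) :
    Near V (z - w) (c - d) :=
  (h.add h'.neg).congr (by ring) (by ring)

theorem val_mul_lt {z w : K} (hz : V.valuation z < 1) (hw : V.valuation w ≤ 1) :
    V.valuation (z * w) < 1 := by
  rw [map_mul]
  exact lt_of_le_of_lt (mul_le_of_le_one_right' hw) hz

theorem Near.mul (hV : HasConst V) {z w : K} {c d : ℂ} (h : Near V z c) (h' : Near V w d) :
    Near V (z * w) (c * d) := by
  have e : z * w - algebraMap ℂ K (c * d) =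
      (z - algebraMap ℂ K c) * w + (w - algebraMap ℂ K d) * algebraMap ℂ K c := by
    rw [map_mul]; ring
  unfold Near
  rw [e]
  exact Valuation.map_add_lt _ (val_mul_lt h (h'.le_one hV)) (val_mul_lt h' (hV.le_one c))

theorem Near.zero_mul {z w : K} (h : Near V z 0) (hw : w ∈ V) : Near V (z * w) 0 :=
  near_zero_iff.mpr (val_mul_lt (near_zero_iff.mp h) ((V.valuation_le_one_iff _).mpr hw))

theorem Near.pow (hV : HasConst V) {z : K} {c : ℂ} (h : Near V z c) (n : ℕ) :
    Near V (z ^ n) (c ^ n) := by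
  induction n with
  | zero => simpa using near_one
  | succ n ih => rw [pow_succ, pow_succ]; exact ih.mul hV h

theorem Near.inv (hV : HasConst V) {z : K} {c : ℂ} (h : Near V z c) (hc : c ≠ 0) :
    Near V z⁻¹ c⁻¹ := by
  have hz := h.ne_zero hV hc
  have hc' : algebraMap ℂ K c ≠ 0 := (_root_.map_ne_zero _).mpr hc
  have e : z⁻¹ - algebraMap ℂ K c⁻¹ = (z - algebraMap ℂ K c) * (-(z⁻¹ * algebraMap ℂ K c⁻¹)) := by
    rw [map_inv₀]; field_simp; ring
  unfold Near
  rw [e]
  refine val_mul_lt h ?_
  rw [Valuation.map_neg, map_mul, map_inv₀, h.val_eq_one hV hc, inv_one, one_mul]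
  exact hV.le_one _

theorem Near.div (hV : HasConst V) {z w : K} {c d : ℂ} (h : Near V z c) (h' : Near V w d)
    (hd : d ≠ 0) : Near V (z / w) (c / d) := by
  rw [div_eq_mul_inv, div_eq_mul_inv]
  exact h.mul hV (h'.inv hV hd)

theorem Near.sum (s : Finset ℕ) {f : ℕ → K} {g : ℕ → ℂ} (h : ∀ i ∈ s, Near V (f i) (g i)) :
    Near V (∑ i ∈ s, f i) (∑ i ∈ s, g i) := by
  classical
  induction s using Finset.induction_on with
  | empty => simp [Near]
  | insert i s hi ih =>
    rw [Finset.sum_insert hi, Finset.sum_insert hi]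
    exact (h i (Finset.mem_insert_self _ _)).add
      (ih fun j hj => h j (Finset.mem_insert_of_mem hj))

theorem Near.aeval (hV : HasConst V) {z : K} {c : ℂ} (h : Near V z c) (P : ℂ[X]) :
    Near V (aeval z P) (P.eval c) := by
  induction P using Polynomial.induction_on' with
  | add p q hp hq => rw [map_add, eval_add]; exact hp.add hq
  | monomial n a =>
    rw [aeval_monomial, eval_monomial]
    exact (near_const a).mul hV (h.pow hV n)

/-- `z ^ n - w ^ n = (z - w) * S` with `S` near `n c ^ (n-1)`. -/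
theorem Near.pow_sub_pow (hV : HasConst V) {z w : K} {c : ℂ} (h : Near V z c) (h' : Near V w c)
    (n : ℕ) : ∃ S : K, Near V S (n * c ^ (n - 1)) ∧ z ^ n - w ^ n = (z - w) * S := by
  refine ⟨∑ i ∈ Finset.range n, z ^ i * w ^ (n - 1 - i), ?_, ?_⟩
  · refine (Near.sum (Finset.range n) (g := fun i => c ^ i * c ^ (n - 1 - i))
      fun i _ => (h.pow hV i).mul hV (h'.pow hV _)).congr rfl ?_
    rw [Finset.sum_congr rfl (g := fun _ => c ^ (n - 1))]
    · simp
    · intro i hi
      have := Finset.mem_range.mp hi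
      rw [← pow_add]
      congr 1
      omega
  · rw [mul_comm, (Commute.all z w).geom_sum₂_mul n]

theorem HasConst.aeval_mem (hV : HasConst V) {z : K} (hz : z ∈ V) (P : ℂ[X]) :
    aeval z P ∈ V := by
  induction P using Polynomial.induction_on' with
  | add p q hp hq => rw [map_add]; exact V.add_mem _ _ hp hq
  | monomial n a =>
    rw [aeval_monomial]
    exact V.mul_mem _ _ (hV a) (pow_mem hz n)

theorem HasConst.aeval_sub_aeval (hV : HasConst V) {z w : K} (hz : z ∈ V) (hw : w ∈ V)
    (P : ℂ[X]) : ∃ t : K, t ∈ V ∧ aeval z P - aeval w P = (z - w) * t := by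
  induction P using Polynomial.induction_on' with
  | add p q hp hq =>
    obtain ⟨t, ht, e⟩ := hp
    obtain ⟨t', ht', e'⟩ := hq
    exact ⟨t + t', V.add_mem _ _ ht ht', by rw [map_add, map_add]; linear_combination e + e'⟩
  | monomial n a =>
    refine ⟨algebraMap ℂ K a * ∑ i ∈ Finset.range n, z ^ i * w ^ (n - 1 - i), ?_, ?_⟩
    · refine V.mul_mem _ _ (hV a) (V.toSubring.sum_mem fun i _ => ?_)
      exact V.mul_mem _ _ (pow_mem hz _) (pow_mem hw _)
    · rw [aeval_monomial, aeval_monomial, mul_left_comm, mul_comm (z - w),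
        (Commute.all z w).geom_sum₂_mul n]
      ring

theorem Near.val_aeval (hV : HasConst V) {z : K} {c : ℂ} (h : Near V z c) {P : ℂ[X]}
    (hP : P ≠ 0) :
    V.valuation (Polynomial.aeval z P) =
      V.valuation (z - algebraMap ℂ K c) ^ P.rootMultiplicity c := by
  obtain ⟨Q, h1, h2⟩ := exists_eq_pow_rootMultiplicity_mul_and_not_dvd P hP c
  rw [dvd_iff_isRoot] at h2
  conv_lhs => rw [h1]
  rw [map_mul, map_mul, (h.aeval hV Q).val_eq_one hV h2, mul_one, map_pow, map_pow, map_sub,
    aeval_X, aeval_C]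

theorem HasConst.val_aeval_eq (hV : HasConst V) {z : K} {θ : V.ValueGroup}
    (h : ∀ c : ℂ, V.valuation (z - algebraMap ℂ K c) = θ) {P : ℂ[X]} (hP : P ≠ 0) :
    V.valuation (aeval z P) = θ ^ P.natDegree := by
  have key : ∀ s : Multiset ℂ,
      V.valuation (aeval z (s.map fun w => X - C w).prod) = θ ^ s.card := by
    intro s
    induction s using Multiset.induction_on with
    | empty => simp
    | cons w s ih =>
      rw [Multiset.map_cons, Multiset.prod_cons, map_mul, map_mul, ih, map_sub, aeval_X, aeval_C,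
        h, Multiset.card_cons, pow_succ']
  conv_lhs => rw [(IsAlgClosed.splits P).eq_prod_roots]
  rw [map_mul, map_mul, aeval_C, hV.valuation_const (leadingCoeff_ne_zero.mpr hP), one_mul, key,
    (IsAlgClosed.splits P).natDegree_eq_card_roots]

theorem HasConst.val_aeval_of_one_lt (hV : HasConst V) {z : K} (hz : 1 < V.valuation z)
    {P : ℂ[X]} (hP : P ≠ 0) : V.valuation (aeval z P) = V.valuation z ^ P.natDegree :=
  hV.val_aeval_eq (fun c => Valuation.map_sub_eq_of_lt_left _ (lt_of_le_of_lt (hV.le_one c) hz)) hP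

theorem HasConst.exists_near (hV : HasConst V) {z : K} (hz : V.valuation z ≤ 1) {P : ℂ[X]}
    (hP : P ≠ 0) (h : V.valuation (aeval z P) < 1) : ∃ c : ℂ, Near V z c ∧ P.eval c = 0 := by
  by_cases hc : ∃ c : ℂ, Near V z c
  · obtain ⟨c, hc⟩ := hc
    refine ⟨c, hc, ?_⟩
    by_contra h0
    rw [(hc.aeval hV P).val_eq_one hV h0] at h
    exact lt_irrefl _ h
  · exfalso
    push Not at hc
    have : V.valuation (aeval z P) = 1 ^ P.natDegree :=
      hV.val_aeval_eq (fun c => le_antisymm (Valuation.map_sub_le _ hz (hV.le_one c))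
        (not_lt.mp (hc c))) hP
    rw [this, one_pow] at h
    exact lt_irrefl _ h

theorem NC.aeval_ne_zero {z : K} (hz : NC z) {P : ℂ[X]} (hP : P ≠ 0) : aeval z P ≠ 0 :=
  fun h => hz.transcendental ⟨P, hP, h⟩

omit [Algebra ℂ K] in
theorem val_pow_inj {θ : V.ValueGroup} (h0 : θ ≠ 0) (h1 : θ < 1) {m n : ℕ} (h : θ ^ m = θ ^ n) :
    m = n :=
  pow_right_injective₀ (zero_lt_iff.mpr h0) h1.ne h

omit [Algebra ℂ K] in
theorem val_eq_of_pow {α β : V.ValueGroup} {k : ℕ} (hk : k ≠ 0) (h : α ^ k = β ^ k) : α = β :=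
  (pow_left_inj₀ zero_le zero_le hk).mp h

end Pool.Agent.Lib.MP_6db618_an
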