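import Mathlib
import Pool.Agent.Lib.MP_6db618_an.Near

set_option autoImplicit false

namespace Pool.Agent.Lib.MP_6db618_an

open Polynomial

variable {K : Type} [Field K] [Algebra ℂ K] {V : ValuationSubring K}

/-- `a = x ^ k A(x) / B(x)`, with `A(0), B(0) ≠ 0` and `a` not vanishing at `x = ∞`. -/
structure Br (k : ℕ) (a x : K) (A B : ℂ[X]) : Prop where
  nc : NC x
  A0 : A.eval 0 ≠ 0
  B0 : B.eval 0 ≠ 0
  deg : B.natDegree ≤ k + A.natDegree
  rel : a * aeval x B = x ^ k * aeval x A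

namespace Br

variable {k : ℕ} {a x : K} {A B : ℂ[X]}

theorem A_ne (h : Br k a x A B) : A ≠ 0 := by
  rintro rfl
  exact h.A0 (by simp)

theorem B_ne (h : Br k a x A B) : B ≠ 0 := by
  rintro rfl
  exact h.B0 (by simp)

theorem a_ne (h : Br k a x A B) : a ≠ 0 := by
  intro h0
  have := h.rel
  rw [h0, zero_mul] at this
  exact mul_ne_zero (pow_ne_zero _ h.nc.ne_zero) (h.nc.aeval_ne_zero h.A_ne) this.symm

theorem val_of_lt (h : Br k a x A B) (hV : HasConst V) (hx : V.valuation x < 1) :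
    V.valuation a = V.valuation x ^ k := by
  have hx' : Near V x 0 := near_zero_iff.mpr hx
  have := congrArg V.valuation h.rel
  rwa [map_mul, map_mul, (hx'.aeval hV A).val_eq_one hV h.A0,
    (hx'.aeval hV B).val_eq_one hV h.B0, mul_one, mul_one, map_pow] at this

theorem val_lt (h : Br k a x A B) (hV : HasConst V) (hk : k ≠ 0) (hx : V.valuation x < 1) :
    V.valuation a < 1 := by
  rw [h.val_of_lt hV hx]
  exact pow_lt_one₀ zero_le hx hk

theorem classify (h : Br k a x A B) (hV : HasConst V) (ha : V.valuation a < 1) :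
    V.valuation x < 1 ∨ ∃ c : ℂ, c ≠ 0 ∧ Near V x c ∧ B.rootMultiplicity c < A.rootMultiplicity c ∧
      V.valuation a = V.valuation (x - algebraMap ℂ K c) ^
        (A.rootMultiplicity c - B.rootMultiplicity c) := by
  have hr := congrArg V.valuation h.rel
  rw [map_mul, map_mul, map_pow] at hr
  by_cases hx : 1 < V.valuation x
  · exfalso
    rw [hV.val_aeval_of_one_lt hx h.A_ne, hV.val_aeval_of_one_lt hx h.B_ne, ← pow_add] at hr
    have h1 : V.valuation x ^ B.natDegree ≤ V.valuation x ^ (k + A.natDegree) :=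
      pow_le_pow_right₀ hx.le h.deg
    have h2 : V.valuation a * V.valuation x ^ B.natDegree < 1 * V.valuation x ^ B.natDegree :=
      mul_lt_mul_of_pos_right ha (pow_pos (lt_trans zero_lt_one hx) _)
    rw [one_mul, hr] at h2
    exact lt_irrefl _ (lt_of_lt_of_le h2 h1)
  have hx1 : V.valuation x ≤ 1 := not_lt.mp hx
  have hxV : x ∈ V := (V.valuation_le_one_iff _).mp hx1
  obtain ⟨c, hc, -⟩ := hV.exists_near hx1 (P := X ^ k * A)
    (mul_ne_zero (pow_ne_zero _ X_ne_zero) h.A_ne) (by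
      rw [map_mul, map_pow, aeval_X, ← h.rel]
      exact val_mul_lt ha ((V.valuation_le_one_iff _).mpr (hV.aeval_mem hxV B)))
  by_cases hc0 : c = 0
  · subst hc0
    exact Or.inl (near_zero_iff.mp hc)
  right
  rw [hc.val_eq_one hV hc0, one_pow, one_mul, hc.val_aeval hV h.A_ne, hc.val_aeval hV h.B_ne] at hr
  have e0 : V.valuation (x - algebraMap ℂ K c) ≠ 0 :=
    (_root_.map_ne_zero _).mpr (h.nc.sub_ne_zero c)
  have e1 : V.valuation (x - algebraMap ℂ K c) < 1 := hc
  have hlt : B.rootMultiplicity c < A.rootMultiplicity c := by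
    by_contra hcon
    have h1 : V.valuation (x - algebraMap ℂ K c) ^ B.rootMultiplicity c ≤
        V.valuation (x - algebraMap ℂ K c) ^ A.rootMultiplicity c :=
      pow_le_pow_of_le_one zero_le e1.le (not_lt.mp hcon)
    have h2 : V.valuation a * V.valuation (x - algebraMap ℂ K c) ^ B.rootMultiplicity c <
        1 * V.valuation (x - algebraMap ℂ K c) ^ B.rootMultiplicity c :=
      mul_lt_mul_of_pos_right ha (pow_pos (zero_lt_iff.mpr e0) _)
    rw [one_mul, hr] at h2
    exact lt_irrefl _ (lt_of_lt_of_le h2 h1)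
  refine ⟨c, hc0, hc, hlt, ?_⟩
  refine mul_right_cancel₀ (pow_ne_zero (B.rootMultiplicity c) e0) ?_
  rw [hr, ← pow_add, Nat.sub_add_cancel hlt.le]

theorem expand (h : Br k a x A B) (hV : HasConst V) (hx : V.valuation x < 1) {ν : ℕ} {κ ρ : ℂ}
    (hκ : κ ≠ 0) (he : X ^ (ν + 1) ∣ A - C κ * (1 + C ρ * X ^ ν) * B) :
    Near V ((a / (algebraMap ℂ K κ * x ^ k) - 1) / x ^ ν) ρ := by
  obtain ⟨Q, hQ⟩ := he
  have hx' : Near V x 0 := near_zero_iff.mpr hx
  have h1 := congrArg (aeval x) hQ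
  simp only [map_sub, map_mul, map_add, map_pow, aeval_X, aeval_C, map_one] at h1
  have hB := (hx'.aeval hV B).ne_zero hV h.B0
  have hκ' : algebraMap ℂ K κ ≠ 0 := (_root_.map_ne_zero _).mpr hκ
  have hx0 := h.nc.ne_zero
  have h2 : (a / (algebraMap ℂ K κ * x ^ k) - 1) / x ^ ν =
      algebraMap ℂ K ρ + x * (aeval x Q / (algebraMap ℂ K κ * aeval x B)) := by
    have h3 : a = x ^ k * aeval x A / aeval x B := by rw [← h.rel]; field_simp
    have h4 : aeval x A = algebraMap ℂ K κ * (1 + algebraMap ℂ K ρ * x ^ ν) * aeval x B +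
      x ^ (ν + 1) * aeval x Q := by linear_combination h1
    rw [h3, h4]
    field_simp
    ring
  rw [h2]
  refine ((near_const ρ).add (hx'.zero_mul ?_)).congr rfl (add_zero _).symm
  exact ((hx'.aeval hV Q).div hV ((near_const κ).mul hV (hx'.aeval hV B))
    (mul_ne_zero hκ h.B0)).mem hV

end Br

theorem HasConst.ratio (hV : HasConst V) {k ν : ℕ} (hk : k ≠ 0) (hν : ν ≠ 0) {a x y : K}
    {κ κ' ρ ρ' : ℂ} (hκ : κ ≠ 0) (hκ' : κ' ≠ 0) (hx0 : x ≠ 0) (hy0 : y ≠ 0)
    (hx : V.valuation x < 1) (hy : V.valuation y < 1)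
    (vx : V.valuation a = V.valuation x ^ k) (vy : V.valuation a = V.valuation y ^ k)
    (ex : Near V ((a / (algebraMap ℂ K κ * x ^ k) - 1) / x ^ ν) ρ)
    (ey : Near V ((a / (algebraMap ℂ K κ' * y ^ k) - 1) / y ^ ν) ρ') :
    ∃ l : ℂ, l ≠ 0 ∧ κ = κ' * l ^ k ∧ Near V (y / x) l ∧
      Near V ((y / (algebraMap ℂ K l * x) - 1) / x ^ ν) ((ρ - ρ' * l ^ ν) / k) ∧
      Near V (1 / y ^ ν - 1 / (algebraMap ℂ K l ^ ν * x ^ ν))
        (-(ν * ((ρ - ρ' * l ^ ν) / k) / l ^ ν)) := by
  have kκ : algebraMap ℂ K κ ≠ 0 := (_root_.map_ne_zero _).mpr hκ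
  have kκ' : algebraMap ℂ K κ' ≠ 0 := (_root_.map_ne_zero _).mpr hκ'
  have nx : Near V (x ^ ν) 0 := ((near_zero_iff.mpr hx).pow hV ν).congr rfl (zero_pow hν).symm
  have ny : Near V (y ^ ν) 0 := ((near_zero_iff.mpr hy).pow hV ν).congr rfl (zero_pow hν).symm
  have g1 : Near V (a / (algebraMap ℂ K κ * x ^ k)) 1 :=
    (near_one.add (nx.zero_mul (ex.mem hV))).congr (by field_simp; ring) (add_zero _).symm
  have g2 : Near V (a / (algebraMap ℂ K κ' * y ^ k)) 1 :=
    (near_one.add (ny.zero_mul (ey.mem hV))).congr (by field_simp; ring) (add_zero _).symm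
  have ha0 : a ≠ 0 := by
    intro h0
    exact g1.ne_zero hV one_ne_zero (by rw [h0, zero_div])
  have vw : V.valuation (y / x) = 1 := by
    rw [map_div₀, val_eq_of_pow hk (vy.symm.trans vx),
      div_self ((_root_.map_ne_zero _).mpr hx0)]
  have n1 : Near V (algebraMap ℂ K κ' * (y / x) ^ k - algebraMap ℂ K κ) 0 :=
    (((near_const κ).mul hV (g1.div hV g2 one_ne_zero)).sub (near_const κ)).congr
      (by rw [div_pow]; field_simp) (by ring)
  obtain ⟨l, hl, hl'⟩ := hV.exists_near vw.le (P := C κ' * X ^ k - C κ) (by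
      intro h0
      have := congrArg (eval 0) h0
      simp [hk, hκ] at this) (by
      simp only [map_sub, map_mul, map_pow, aeval_C, aeval_X]
      exact near_zero_iff.mp n1)
  have hl1 : κ = κ' * l ^ k := by
    simp only [eval_sub, eval_mul, eval_C, eval_pow, eval_X] at hl'
    linear_combination -hl'
  have hl0 : l ≠ 0 := by
    rintro rfl
    rw [zero_pow hk, mul_zero] at hl1
    exact hκ hl1
  have kl : algebraMap ℂ K l ≠ 0 := (_root_.map_ne_zero _).mpr hl0
  have kk : (k : ℂ) ≠ 0 := by exact_mod_cast hk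
  have nz : Near V (y / (algebraMap ℂ K l * x)) 1 :=
    (hl.div hV (near_const l) hl0).congr (by field_simp) (div_self hl0).symm
  obtain ⟨S, hS, eS⟩ := nz.pow_sub_pow hV near_one k
  obtain ⟨S', hS', eS'⟩ := nz.pow_sub_pow hV near_one ν
  rw [one_pow, mul_one] at hS hS'
  rw [one_pow] at eS eS'
  have hS0 := hS.ne_zero hV kk
  have kl1 : algebraMap ℂ K κ = algebraMap ℂ K κ' * algebraMap ℂ K l ^ k := by
    rw [hl1, map_mul, map_pow]
  have n2 : Near V ((y / (algebraMap ℂ K l * x) - 1) / x ^ ν) ((ρ - ρ' * l ^ ν) / k) := by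
    refine ((ex.sub (ey.mul hV (hl.pow hV ν))).div hV (g2.mul hV hS)
      (by rwa [one_mul])).congr ?_ (by rw [one_mul])
    have e1 : y / (algebraMap ℂ K l * x) - 1 = ((y / (algebraMap ℂ K l * x)) ^ k - 1) / S := by
      rw [eS]; field_simp
    rw [e1, kl1]
    simp only [div_pow, mul_pow]
    field_simp
    ring
  refine ⟨l, hl0, hl1, hl, n2, ?_⟩
  refine ((n2.mul hV hS').div hV (((near_const l).pow hV ν).mul hV (nz.pow hV ν))
    (by simpa using fun h => absurd h hl0)).neg.congr ?_ (by rw [one_pow, mul_one]; ring)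
  have e2 : (y / (algebraMap ℂ K l * x) - 1) / x ^ ν * S' =
      ((y / (algebraMap ℂ K l * x)) ^ ν - 1) / x ^ ν := by rw [eS']; ring
  rw [e2]
  simp only [div_pow, mul_pow]
  field_simp
  ring

theorem HasConst.unit_pair (hV : HasConst V) {k : ℕ} {a x y : K} {A B A' B' : ℂ[X]}
    (h : Br k a x A B) (h' : Br k a y A' B') {c c' l : ℂ} (hc : c ≠ 0) (hc' : c' ≠ 0)
    (nx : Near V x c) (ny : Near V y c') (hm : B.rootMultiplicity c < A.rootMultiplicity c)
    (hm' : B'.rootMultiplicity c' < A'.rootMultiplicity c')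
    (va : V.valuation a = V.valuation (x - algebraMap ℂ K c) ^
      (A.rootMultiplicity c - B.rootMultiplicity c))
    (va' : V.valuation a = V.valuation (y - algebraMap ℂ K c') ^
      (A'.rootMultiplicity c' - B'.rootMultiplicity c'))
    (hl : l * c' = c) (hD : x - algebraMap ℂ K l * y ≠ 0) :
    ∃ j : ℕ, V.valuation (x - algebraMap ℂ K l * y) = V.valuation (x - algebraMap ℂ K c) ^ j ∨
      V.valuation (x - algebraMap ℂ K l * y) = V.valuation (y - algebraMap ℂ K c') ^ j := by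
  have hl0 : l ≠ 0 := by
    rintro rfl
    exact hc (by rw [← hl, zero_mul])
  have kl : algebraMap ℂ K l ≠ 0 := (_root_.map_ne_zero _).mpr hl0
  have kc : algebraMap ℂ K c = algebraMap ℂ K l * algebraMap ℂ K c' := by rw [← hl, map_mul]
  have eD : x - algebraMap ℂ K l * y =
      (x - algebraMap ℂ K c) - algebraMap ℂ K l * (y - algebraMap ℂ K c') := by rw [kc]; ring
  have vl : V.valuation (algebraMap ℂ K l * (y - algebraMap ℂ K c')) =
      V.valuation (y - algebraMap ℂ K c') := by rw [map_mul, hV.valuation_const hl0, one_mul]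
  have ε0 := h.nc.sub_ne_zero c
  have ε0' := h'.nc.sub_ne_zero c'
  have v0 : V.valuation (x - algebraMap ℂ K c) ≠ 0 := (_root_.map_ne_zero _).mpr ε0
  rcases lt_trichotomy (V.valuation (x - algebraMap ℂ K c)) (V.valuation (y - algebraMap ℂ K c'))
    with h1 | h1 | h1
  · exact ⟨1, Or.inr (by rw [eD, Valuation.map_sub_eq_of_lt_right _ (by rwa [vl]), vl, pow_one])⟩
  swap
  · exact ⟨1, Or.inl (by rw [eD, Valuation.map_sub_eq_of_lt_left _ (by rwa [vl]), pow_one])⟩
  by_cases h2 : V.valuation (x - algebraMap ℂ K l * y) = V.valuation (x - algebraMap ℂ K c)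
  · exact ⟨1, Or.inl (by rw [h2, pow_one])⟩
  have h3 : V.valuation (x - algebraMap ℂ K l * y) < V.valuation (x - algebraMap ℂ K c) := by
    refine lt_of_le_of_ne ?_ h2
    rw [eD]
    exact Valuation.map_sub_le _ le_rfl (by rw [vl, h1])
  have he : A'.rootMultiplicity c' - B'.rootMultiplicity c' =
      A.rootMultiplicity c - B.rootMultiplicity c :=
    val_pow_inj v0 nx (by rw [← va, va', h1])
  obtain ⟨A1, eA, nA⟩ := exists_eq_pow_rootMultiplicity_mul_and_not_dvd A h.A_ne c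
  obtain ⟨B1, eB, nB⟩ := exists_eq_pow_rootMultiplicity_mul_and_not_dvd B h.B_ne c
  obtain ⟨A1', eA', nA'⟩ := exists_eq_pow_rootMultiplicity_mul_and_not_dvd A' h'.A_ne c'
  obtain ⟨B1', eB', nB'⟩ := exists_eq_pow_rootMultiplicity_mul_and_not_dvd B' h'.B_ne c'
  rw [dvd_iff_isRoot] at nA nB nA' nB'
  obtain ⟨e, he1⟩ : ∃ e, A.rootMultiplicity c = B.rootMultiplicity c + (e + 1) :=
    ⟨A.rootMultiplicity c - B.rootMultiplicity c - 1, by omega⟩
  have he2 : A'.rootMultiplicity c' = B'.rootMultiplicity c' + (e + 1) := by omega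
  have r1 := h.rel
  have r2 := h'.rel
  rw [he1] at eA
  rw [he2] at eA'
  generalize B.rootMultiplicity c = m at eA eB
  generalize B'.rootMultiplicity c' = m' at eA' eB'
  rw [eA, eB] at r1
  rw [eA', eB'] at r2
  simp only [map_mul, map_pow, map_sub, aeval_X, aeval_C] at r1 r2
  have s1 : a * aeval x B1 = (x - algebraMap ℂ K c) ^ (e + 1) * (x ^ k * aeval x A1) := by
    refine mul_left_cancel₀ (pow_ne_zero m ε0) ?_
    linear_combination r1
  have s2 : a * aeval y B1' = (y - algebraMap ℂ K c') ^ (e + 1) * (y ^ k * aeval y A1') := by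
    refine mul_left_cancel₀ (pow_ne_zero m' ε0') ?_
    linear_combination r2
  set ε := x - algebraMap ℂ K c with hε
  set t := (y - algebraMap ℂ K c') / ε with ht
  have et : y - algebraMap ℂ K c' = t * ε := by rw [ht]; field_simp
  have eT : t - algebraMap ℂ K l⁻¹ = -((x - algebraMap ℂ K l * y) / (algebraMap ℂ K l * ε)) := by
    rw [eD, et, map_inv₀]; field_simp; ring
  have nt : Near V t l⁻¹ := by
    unfold Near
    rw [eT, Valuation.map_neg, map_div₀, map_mul, hV.valuation_const hl0, one_mul,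
      div_lt_one₀ (zero_lt_iff.mpr v0)]
    exact h3
  have ny0 : Near V (algebraMap ℂ K l⁻¹ * x) c' :=
    ((near_const l⁻¹).mul hV nx).congr rfl (by rw [← hl]; field_simp)
  have s3 : x ^ k * aeval x A1 * aeval y B1' =
      t ^ (e + 1) * (y ^ k * aeval y A1') * aeval x B1 := by
    refine mul_left_cancel₀ (pow_ne_zero (e + 1) ε0) ?_
    rw [et, mul_pow] at s2
    linear_combination (aeval x B1) * s2 - (aeval y B1') * s1
  obtain ⟨u1, hu1, eu1⟩ := hV.aeval_sub_aeval (ny0.mem hV) (ny.mem hV) B1'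
  obtain ⟨u2, hu2, eu2⟩ := hV.aeval_sub_aeval (ny0.mem hV) (ny.mem hV) (X ^ k * A1')
  obtain ⟨S, hS, eS⟩ := nt.pow_sub_pow hV (near_const l⁻¹) (e + 1)
  simp only [map_mul, map_pow, aeval_X] at eu2
  set y0 := algebraMap ℂ K l⁻¹ * x with hy0
  have ey0 : y0 - y = -(ε * (t - algebraMap ℂ K l⁻¹)) := by
    rw [eT, hy0, map_inv₀]; field_simp
  let G : ℂ[X] := X ^ k * A1 * B1'.comp (C l⁻¹ * X) -
    C l⁻¹ ^ (e + 1) * (X ^ k * A1').comp (C l⁻¹ * X) * B1
  have eG : aeval x G = (t - algebraMap ℂ K l⁻¹) *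
      (aeval x B1 * S * (y0 ^ k * aeval y0 A1') +
        ε * (aeval x B1 * t ^ (e + 1) * u2 - x ^ k * aeval x A1 * u1)) := by
    simp only [G, map_sub, map_mul, map_pow, aeval_X, aeval_C, aeval_comp, ← hy0]
    rw [ey0] at eu1 eu2
    linear_combination s3 + (x ^ k * aeval x A1) * eu1 +
      (aeval x B1 * (y0 ^ k * aeval y0 A1')) * eS - (aeval x B1 * t ^ (e + 1)) * eu2
  have nε : Near V ε 0 := near_zero_iff.mpr nx
  have nW : Near V (aeval x B1 * S * (y0 ^ k * aeval y0 A1') +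
        ε * (aeval x B1 * t ^ (e + 1) * u2 - x ^ k * aeval x A1 * u1)) _ :=
    (((nx.aeval hV B1).mul hV hS).mul hV ((ny0.pow hV k).mul hV (ny0.aeval hV A1'))).add
      (nε.zero_mul (V.toSubring.sub_mem
        (V.mul_mem _ _ (((nx.aeval hV B1).mul hV (nt.pow hV _)).mem hV) hu2)
        (V.mul_mem _ _ (((nx.pow hV k).mul hV (nx.aeval hV A1)).mem hV) hu1)))
  have vW := nW.val_eq_one hV (by
    rw [add_zero]
    refine mul_ne_zero (mul_ne_zero nB (mul_ne_zero ?_ (pow_ne_zero _ (inv_ne_zero hl0))))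
      (mul_ne_zero (pow_ne_zero _ hc') nA')
    exact_mod_cast Nat.succ_ne_zero e)
  have vG : V.valuation (aeval x G) =
      V.valuation (x - algebraMap ℂ K l * y) / V.valuation ε := by
    rw [eG, map_mul, vW, mul_one, eT, Valuation.map_neg, map_div₀, map_mul,
      hV.valuation_const hl0, one_mul]
  have hG : G ≠ 0 := by
    intro h0
    rw [h0, map_zero, map_zero] at vG
    exact div_ne_zero ((_root_.map_ne_zero _).mpr hD) v0 vG.symm
  refine ⟨G.rootMultiplicity c + 1, Or.inl ?_⟩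
  rw [pow_succ, ← nx.val_aeval hV hG, vG, div_mul_cancel₀ _ v0]

end Pool.Agent.Lib.MP_6db618_an
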