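import Mathlib
import Pool.Agent.Lib.MP_6db618_an.Gap

set_option autoImplicit false

namespace Pool.Agent.Lib.MP_6db618_an

open Polynomial

variable {K : Type} [Field K] [Algebra ℂ K] {V : ValuationSubring K}

/-- A branch with its second-order expansion at `0` and no resonance at the other zeros. -/
structure Br2 (k ν : ℕ) (a x : K) (A B : ℂ[X]) (κ ρ : ℂ) : Prop extends Br k a x A B where
  κ0 : κ ≠ 0
  exp : X ^ (ν + 1) ∣ A - C κ * (1 + C ρ * X ^ ν) * B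
  nr : ∀ c : ℂ, c ≠ 0 → B.rootMultiplicity c < A.rootMultiplicity c →
    ¬ k ∣ ν * (A.rootMultiplicity c - B.rootMultiplicity c)

theorem Br2.ratio (hV : HasConst V) {k ν : ℕ} (hk : k ≠ 0) (hν : ν ≠ 0) {a x y : K}
    {A B A' B' : ℂ[X]} {κ κ' ρ ρ' : ℂ} (h : Br2 k ν a x A B κ ρ) (h' : Br2 k ν a y A' B' κ' ρ')
    (hx : V.valuation x < 1) (hy : V.valuation y < 1) :
    ∃ l : ℂ, l ≠ 0 ∧ κ = κ' * l ^ k ∧ Near V (y / x) l ∧
      Near V ((y / (algebraMap ℂ K l * x) - 1) / x ^ ν) ((ρ - ρ' * l ^ ν) / k) ∧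
      Near V (1 / y ^ ν - 1 / (algebraMap ℂ K l ^ ν * x ^ ν))
        (-(ν * ((ρ - ρ' * l ^ ν) / k) / l ^ ν)) :=
  hV.ratio hk hν h.κ0 h'.κ0 h.nc.ne_zero h'.nc.ne_zero hx hy (h.toBr.val_of_lt hV hx)
    (h'.toBr.val_of_lt hV hy) (h.toBr.expand hV hx h.κ0 h.exp) (h'.toBr.expand hV hy h'.κ0 h'.exp)

theorem mixed (hV : HasConst V) {k ν : ℕ} (hk : k ≠ 0) (hν : ν ≠ 0) {a x y x' y' : K}
    {A1 B1 A2 B2 A3 B3 A4 B4 : ℂ[X]} {κ1 κ2 κ3 κ4 ρ1 ρ2 ρ3 ρ4 : ℂ}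
    (h1 : Br2 k ν a x A1 B1 κ1 ρ1) (h2 : Br2 k ν a x' A2 B2 κ2 ρ2)
    (h3 : Br2 k ν a y A3 B3 κ3 ρ3) (h4 : Br2 k ν a y' A4 B4 κ4 ρ4)
    (hκ : ‖κ1‖ = ‖κ3‖) (hrel : x * x' = y * y')
    (hx : V.valuation x < 1) (hy : V.valuation y < 1)
    (hx' : ¬ V.valuation x' < 1) (hy' : ¬ V.valuation y' < 1) :
    algebraMap ℂ K (starRingEnd ℂ ρ1) / x ^ ν - algebraMap ℂ K (starRingEnd ℂ ρ3) / y ^ ν ∈ V ∧
      ρ1 * starRingEnd ℂ ρ1 = ρ3 * starRingEnd ℂ ρ3 := by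
  have ha := h1.toBr.val_lt hV hk hx
  obtain ⟨l, hl0, hl1, hl, n1, n2⟩ := h1.ratio hV hk hν h3 hx hy
  obtain ⟨c, hc, nc, mc, vc⟩ := (h2.toBr.classify hV ha).resolve_left hx'
  obtain ⟨c', hc', nc', mc', vc'⟩ := (h4.toBr.classify hV ha).resolve_left hy'
  have x0 := h1.nc.ne_zero
  have y0 := h3.nc.ne_zero
  have x0' := h2.nc.ne_zero
  have y0' := h4.nc.ne_zero
  have kl : algebraMap ℂ K l ≠ 0 := (_root_.map_ne_zero _).mpr hl0
  have kk : (k : ℂ) ≠ 0 := by exact_mod_cast hk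
  have e1 : y / x = x' / y' := by field_simp; linear_combination -hrel
  have hlc : l * c' = c := by
    have := hl.unique hV (e1 ▸ nc.div hV nc' hc')
    rw [this]; field_simp
  have hγ : ρ1 - ρ3 * l ^ ν = 0 := by
    by_contra hγ
    have eD : x' - algebraMap ℂ K l * y' = x ^ ν * (algebraMap ℂ K l * y' *
        ((y / (algebraMap ℂ K l * x) - 1) / x ^ ν)) := by
      field_simp
      linear_combination hrel
    have vD : V.valuation (x' - algebraMap ℂ K l * y') = V.valuation x ^ ν := by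
      rw [eD, map_mul, (((near_const l).mul hV nc').mul hV n1).val_eq_one hV
        (mul_ne_zero (mul_ne_zero hl0 hc') (div_ne_zero hγ kk)), mul_one, map_pow]
    have hD : x' - algebraMap ℂ K l * y' ≠ 0 := by
      intro h0
      rw [h0, map_zero] at vD
      exact pow_ne_zero _ ((_root_.map_ne_zero _).mpr x0) vD.symm
    have vD2 : V.valuation (x' - algebraMap ℂ K l * y') ^ k = V.valuation a ^ ν := by
      rw [vD, h1.toBr.val_of_lt hV hx, ← pow_mul, ← pow_mul, mul_comm]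
    obtain ⟨j, hj | hj⟩ := hV.unit_pair h2.toBr h4.toBr hc hc' nc nc' mc mc' vc vc' hlc hD
    · rw [hj, vc, ← pow_mul, ← pow_mul] at vD2
      have := val_pow_inj ((_root_.map_ne_zero _).mpr (h2.nc.sub_ne_zero c)) nc vD2
      exact h2.nr c hc mc ⟨j, by rw [mul_comm ν, ← this, mul_comm]⟩
    · rw [hj, vc', ← pow_mul, ← pow_mul] at vD2
      have := val_pow_inj ((_root_.map_ne_zero _).mpr (h4.nc.sub_ne_zero c')) nc' vD2
      exact h4.nr c' hc' mc' ⟨j, by rw [mul_comm ν, ← this, mul_comm]⟩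
  have hl2 : ‖l‖ = 1 := by
    have e2 : ‖κ3‖ * ‖l‖ ^ k = ‖κ3‖ * 1 := by rw [mul_one, ← norm_pow, ← norm_mul, ← hl1, hκ]
    exact (pow_eq_one_iff_of_nonneg (norm_nonneg l) hk).mp
      (mul_left_cancel₀ (norm_ne_zero_iff.mpr h3.κ0) e2)
  have hl3 : starRingEnd ℂ l = l⁻¹ := (Complex.inv_eq_conj hl2).symm
  have hρ : ρ1 = ρ3 * l ^ ν := sub_eq_zero.mp hγ
  have hρ' : starRingEnd ℂ ρ1 = starRingEnd ℂ ρ3 / l ^ ν := by
    rw [hρ, map_mul, map_pow, hl3, inv_pow, div_eq_mul_inv]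
  constructor
  · have e3 : algebraMap ℂ K (starRingEnd ℂ ρ1) / x ^ ν -
        algebraMap ℂ K (starRingEnd ℂ ρ3) / y ^ ν = -(algebraMap ℂ K (starRingEnd ℂ ρ3) *
        (1 / y ^ ν - 1 / (algebraMap ℂ K l ^ ν * x ^ ν))) := by
      rw [hρ', map_div₀, map_pow]
      field_simp
      ring
    rw [e3]
    exact V.neg_mem _ (V.mul_mem _ _ (hV _) (n2.mem hV))
  · rw [hρ', hρ]
    field_simp

theorem common (hV : HasConst V) {k ν : ℕ} (hk : k ≠ 0) (hν : ν ≠ 0) {a x y x' y' : K}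
    {A1 B1 A2 B2 A3 B3 A4 B4 : ℂ[X]} {κ1 κ2 κ3 κ4 ρ1 ρ2 ρ3 ρ4 : ℂ}
    (h1 : Br2 k ν a x A1 B1 κ1 ρ1) (h2 : Br2 k ν a x' A2 B2 κ2 ρ2)
    (h3 : Br2 k ν a y A3 B3 κ3 ρ3) (h4 : Br2 k ν a y' A4 B4 κ4 ρ4)
    (hrel : x * x' = y * y')
    (hx : V.valuation x < 1) (hy : V.valuation y < 1)
    (hx' : V.valuation x' < 1) (hy' : V.valuation y' < 1) :
    Near V (algebraMap ℂ K ρ2 / x ^ ν + algebraMap ℂ K ρ1 / x' ^ ν -
      algebraMap ℂ K ρ4 / y ^ ν - algebraMap ℂ K ρ3 / y' ^ ν)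
      (2 * ν / k * (ρ1 * ρ2 - ρ3 * ρ4)) := by
  obtain ⟨l2, l20, -, a2, b2, c2⟩ := h1.ratio hV hk hν h2 hx hx'
  obtain ⟨l3, l30, -, a3, b3, c3⟩ := h1.ratio hV hk hν h3 hx hy
  obtain ⟨l4, l40, -, a4, b4, c4⟩ := h1.ratio hV hk hν h4 hx hy'
  have x0 := h1.nc.ne_zero
  have y0 := h3.nc.ne_zero
  have x0' := h2.nc.ne_zero
  have y0' := h4.nc.ne_zero
  have k3 : algebraMap ℂ K l3 ≠ 0 := (_root_.map_ne_zero _).mpr l30
  have k4 : algebraMap ℂ K l4 ≠ 0 := (_root_.map_ne_zero _).mpr l40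
  have kk : (k : ℂ) ≠ 0 := by exact_mod_cast hk
  have e0 : x' = y * y' / x := by field_simp; linear_combination hrel
  have hl : l2 = l3 * l4 := a2.unique hV ((a3.mul hV a4).congr (by rw [e0]; field_simp) rfl)
  subst hl
  have nx : Near V (x ^ ν) 0 := ((near_zero_iff.mpr hx).pow hV ν).congr rfl (zero_pow hν).symm
  have hγ : (ρ1 - ρ2 * (l3 * l4) ^ ν) / k =
      (ρ1 - ρ3 * l3 ^ ν) / k + (ρ1 - ρ4 * l4 ^ ν) / k + 0 := by
    refine b2.unique hV (((b3.add b4).add (nx.zero_mul ((b3.mul hV b4).mem hV))).congr ?_ rfl)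
    rw [e0, map_mul]
    field_simp
    ring
  have hγ' : ρ1 + ρ2 * (l3 ^ ν * l4 ^ ν) = ρ3 * l3 ^ ν + ρ4 * l4 ^ ν := by
    rw [mul_pow] at hγ
    field_simp at hγ
    linear_combination -hγ
  have hγ'' := congrArg (algebraMap ℂ K) hγ'
  simp only [map_add, map_mul, map_pow] at hγ''
  refine (((((near_const ρ1).mul hV c2).sub ((near_const ρ4).mul hV c3)).sub
    ((near_const ρ3).mul hV c4))).congr ?_ ?_
  · rw [map_mul, mul_pow]
    have p3 := pow_ne_zero ν k3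
    have p4 := pow_ne_zero ν k4
    have p1 := pow_ne_zero ν x0
    have p2 := pow_ne_zero ν x0'
    have p5 := pow_ne_zero ν y0
    have p6 := pow_ne_zero ν y0'
    generalize algebraMap ℂ K l3 ^ ν = L3 at *
    generalize algebraMap ℂ K l4 ^ ν = L4 at *
    have e1 : algebraMap ℂ K ρ2 / x ^ ν = algebraMap ℂ K ρ4 * (1 / (L3 * x ^ ν)) +
        algebraMap ℂ K ρ3 * (1 / (L4 * x ^ ν)) - algebraMap ℂ K ρ1 * (1 / (L3 * L4 * x ^ ν)) := by
      field_simp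
      linear_combination hγ''
    rw [e1]
    ring
  · rw [mul_pow]
    have p3 := pow_ne_zero ν l30
    have p4 := pow_ne_zero ν l40
    generalize l3 ^ ν = L3 at *
    generalize l4 ^ ν = L4 at *
    field_simp
    linear_combination ρ1 * hγ'

omit [Algebra ℂ K] in
theorem patterns {k : ℕ} {a x x' y y' : K} (ha0 : a ≠ 0) (ha : V.valuation a < 1)
    (hrel : x * x' = y * y')
    (h1 : (V.valuation x < 1 ∧ V.valuation a = V.valuation x ^ k) ∨ V.valuation x = 1)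
    (h2 : (V.valuation x' < 1 ∧ V.valuation a = V.valuation x' ^ k) ∨ V.valuation x' = 1)
    (h3 : (V.valuation y < 1 ∧ V.valuation a = V.valuation y ^ k) ∨ V.valuation y = 1)
    (h4 : (V.valuation y' < 1 ∧ V.valuation a = V.valuation y' ^ k) ∨ V.valuation y' = 1) :
    (¬ V.valuation x < 1 ∧ ¬ V.valuation x' < 1 ∧ ¬ V.valuation y < 1 ∧ ¬ V.valuation y' < 1) ∨
    (V.valuation x < 1 ∧ V.valuation x' < 1 ∧ V.valuation y < 1 ∧ V.valuation y' < 1) ∨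
    (V.valuation x < 1 ∧ ¬ V.valuation x' < 1 ∧ V.valuation y < 1 ∧ ¬ V.valuation y' < 1) ∨
    (V.valuation x < 1 ∧ ¬ V.valuation x' < 1 ∧ ¬ V.valuation y < 1 ∧ V.valuation y' < 1) ∨
    (¬ V.valuation x < 1 ∧ V.valuation x' < 1 ∧ V.valuation y < 1 ∧ ¬ V.valuation y' < 1) ∨
    (¬ V.valuation x < 1 ∧ V.valuation x' < 1 ∧ ¬ V.valuation y < 1 ∧ V.valuation y' < 1) := by
  have va0 : V.valuation a ≠ 0 := (_root_.map_ne_zero _).mpr ha0
  have vrel : V.valuation x ^ k * V.valuation x' ^ k = V.valuation y ^ k * V.valuation y' ^ k := by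
    rw [← mul_pow, ← mul_pow, ← map_mul, ← map_mul, hrel]
  have n1 : V.valuation a ≠ 1 := ha.ne
  have n2 : V.valuation a * V.valuation a ≠ V.valuation a := fun h =>
    n1 (mul_left_cancel₀ va0 (h.trans (mul_one _).symm))
  have n3 : V.valuation a * V.valuation a ≠ 1 :=
    (lt_of_le_of_lt (mul_le_of_le_one_right' ha.le) ha).ne
  have q : ∀ {θ : V.ValueGroup}, θ = 1 → ¬ θ < 1 := fun h => h ▸ lt_irrefl _
  rcases h1 with ⟨p1, q1⟩ | p1 <;> rcases h2 with ⟨p2, q2⟩ | p2 <;>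
  rcases h3 with ⟨p3, q3⟩ | p3 <;> rcases h4 with ⟨p4, q4⟩ | p4
  · exact Or.inr (Or.inl ⟨p1, p2, p3, p4⟩)
  · rw [← q1, ← q2, ← q3, p4, one_pow, mul_one] at vrel; exact absurd vrel n2
  · rw [← q1, ← q2, ← q4, p3, one_pow, one_mul] at vrel; exact absurd vrel n2
  · rw [← q1, ← q2, p3, p4, one_pow, mul_one] at vrel; exact absurd vrel n3
  · rw [← q1, ← q3, ← q4, p2, one_pow, mul_one] at vrel; exact absurd vrel.symm n2
  · exact Or.inr (Or.inr (Or.inl ⟨p1, q p2, p3, q p4⟩))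
  · exact Or.inr (Or.inr (Or.inr (Or.inl ⟨p1, q p2, q p3, p4⟩)))
  · rw [← q1, p2, p3, p4, one_pow, mul_one, mul_one] at vrel; exact absurd vrel n1
  · rw [← q2, ← q3, ← q4, p1, one_pow, one_mul] at vrel; exact absurd vrel.symm n2
  · exact Or.inr (Or.inr (Or.inr (Or.inr (Or.inl ⟨q p1, p2, p3, q p4⟩))))
  · exact Or.inr (Or.inr (Or.inr (Or.inr (Or.inr ⟨q p1, p2, q p3, p4⟩))))
  · rw [← q2, p1, p3, p4, one_pow, mul_one, one_mul] at vrel; exact absurd vrel n1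
  · rw [← q3, ← q4, p1, p2, one_pow, mul_one] at vrel; exact absurd vrel.symm n3
  · rw [← q3, p1, p2, p4, one_pow, mul_one, mul_one] at vrel; exact absurd vrel.symm n1
  · rw [← q4, p1, p2, p3, one_pow, mul_one, one_mul] at vrel; exact absurd vrel.symm n1
  · exact Or.inl ⟨q p1, q p2, q p3, q p4⟩

theorem Br.cases {k : ℕ} {a x : K} {A B : ℂ[X]} (h : Br k a x A B) (hV : HasConst V)
    (ha : V.valuation a < 1) :
    (V.valuation x < 1 ∧ V.valuation a = V.valuation x ^ k) ∨ V.valuation x = 1 := by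
  rcases h.classify hV ha with h1 | ⟨c, hc, h1, -⟩
  · exact Or.inl ⟨h1, h.val_of_lt hV h1⟩
  · exact Or.inr (h1.val_eq_one hV hc)

theorem HasConst.div_pow_mem (hV : HasConst V) {x : K} (hx : ¬ V.valuation x < 1) (c : ℂ)
    (ν : ℕ) : algebraMap ℂ K c / x ^ ν ∈ V := by
  rw [div_eq_mul_inv, ← inv_pow]
  refine V.mul_mem _ _ (hV c) (pow_mem ?_ ν)
  rw [← V.valuation_le_one_iff, map_inv₀]
  exact inv_le_one_of_one_le₀ (not_lt.mp hx)

theorem HasConst.div_pow_near (hV : HasConst V) {x : K} (hx : V.valuation x⁻¹ < 1) (c : ℂ)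
    {ν : ℕ} (hν : ν ≠ 0) : Near V (algebraMap ℂ K c / x ^ ν) 0 :=
  ((near_const c).mul hV ((near_zero_iff.mpr hx).pow hV ν)).congr
    (by rw [div_eq_mul_inv, inv_pow]) (by rw [zero_pow hν, mul_zero])

theorem const_of_pow_eq {x y : K} {c d : ℂ} {ν : ℕ} (hν : ν ≠ 0) (hc : c ≠ 0) (hx : x ≠ 0)
    (hy : y ≠ 0) (h : algebraMap ℂ K c / x ^ ν = algebraMap ℂ K d / y ^ ν) :
    ∃ e : ℂ, x = algebraMap ℂ K e * y := by
  have hc' : algebraMap ℂ K c ≠ 0 := (_root_.map_ne_zero _).mpr hc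
  have h1 : IsAlgebraic ℂ (x / y) := by
    refine ⟨C d * X ^ ν - C c, ?_, ?_⟩
    · intro h0
      have := congrArg (eval 0) h0
      simp [hν, hc] at this
    · simp only [map_sub, map_mul, map_pow, aeval_C, aeval_X, div_pow]
      field_simp at h ⊢
      linear_combination -h
  obtain ⟨e, he⟩ := exists_const_of_isAlgebraic h1
  exact ⟨e, by rw [← he]; field_simp⟩

theorem finish_sum_prod {x x' y y' : K} {c1 c2 c3 c4 : ℂ} {ν : ℕ} (hν : ν ≠ 0) (hc : c1 ≠ 0)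
    (hx : x ≠ 0) (hy : y ≠ 0) (hy' : y' ≠ 0) (hrel : x * x' = y * y')
    (hp : c1 * c2 = c3 * c4)
    (hs : algebraMap ℂ K c1 / x ^ ν + algebraMap ℂ K c2 / x' ^ ν - algebraMap ℂ K c3 / y ^ ν -
      algebraMap ℂ K c4 / y' ^ ν = 0) :
    (∃ c : ℂ, x = algebraMap ℂ K c * y) ∨ (∃ c : ℂ, x = algebraMap ℂ K c * y') := by
  have h1 : (algebraMap ℂ K c1 / x ^ ν) * (algebraMap ℂ K c2 / x' ^ ν) =
      (algebraMap ℂ K c3 / y ^ ν) * (algebraMap ℂ K c4 / y' ^ ν) := by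
    rw [div_mul_div_comm, div_mul_div_comm, ← map_mul, ← map_mul, hp, ← mul_pow, ← mul_pow, hrel]
  have h2 : (algebraMap ℂ K c1 / x ^ ν - algebraMap ℂ K c3 / y ^ ν) *
      (algebraMap ℂ K c1 / x ^ ν - algebraMap ℂ K c4 / y' ^ ν) = 0 := by
    linear_combination (algebraMap ℂ K c1 / x ^ ν) * hs - h1
  rcases mul_eq_zero.mp h2 with h | h
  · exact Or.inl (const_of_pow_eq hν hc hx hy (sub_eq_zero.mp h))
  · exact Or.inr (const_of_pow_eq hν hc hx hy' (sub_eq_zero.mp h))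

theorem eq_zero_of_forall_mem {V0 : ValuationSubring K} (hV0 : HasConst V0) {z : K}
    (h : ∀ V : ValuationSubring K, HasConst V → z ∈ V) (h0 : Near V0 z 0) : z = 0 := by
  have hN : ¬ NC z := fun hN => by
    obtain ⟨W, hW, hWn⟩ := hN.exists_valuationSubring
    exact hWn (h W hW)
  unfold NC at hN
  push Not at hN
  obtain ⟨c, hc⟩ := hN
  have : c = 0 := (near_const c).unique hV0 (hc ▸ h0)
  rw [hc, this, map_zero]

/-- The non-resonant case. -/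
theorem core_gap {V0 : ValuationSubring K} (hV0 : HasConst V0) {k ν : ℕ} (hk : k ≠ 0)
    (hν : ν ≠ 0) {a x y x' y' : K}
    {A1 B1 A2 B2 A3 B3 A4 B4 : ℂ[X]} {κ1 κ2 κ3 κ4 ρ1 ρ3 : ℂ}
    (h1 : Br2 k ν a x A1 B1 κ1 ρ1) (h2 : Br2 k ν a x' A2 B2 κ2 (starRingEnd ℂ ρ1))
    (h3 : Br2 k ν a y A3 B3 κ3 ρ3) (h4 : Br2 k ν a y' A4 B4 κ4 (starRingEnd ℂ ρ3))
    (n2 : ‖κ2‖ = ‖κ1‖) (n3 : ‖κ3‖ = ‖κ1‖) (n4 : ‖κ4‖ = ‖κ1‖) (hρ : ρ1 ≠ 0 ∨ ρ3 ≠ 0)
    (hrel : x * x' = y * y')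
    (vx : V0.valuation x⁻¹ < 1) (vx' : V0.valuation x'⁻¹ < 1) (vy : V0.valuation y⁻¹ < 1)
    (vy' : V0.valuation y'⁻¹ < 1) :
    (∃ c : ℂ, x = algebraMap ℂ K c * y) ∨ (∃ c : ℂ, x = algebraMap ℂ K c * y') := by
  set Λ := algebraMap ℂ K (starRingEnd ℂ ρ1) / x ^ ν + algebraMap ℂ K ρ1 / x' ^ ν -
      algebraMap ℂ K (starRingEnd ℂ ρ3) / y ^ ν - algebraMap ℂ K ρ3 / y' ^ ν with hΛ
  have key : ∀ V : ValuationSubring K, HasConst V → Λ ∈ V ∧ (V.valuation x < 1 →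
      Near V Λ (2 * ν / k * (ρ1 * starRingEnd ℂ ρ1 - ρ3 * starRingEnd ℂ ρ3)) ∨
        ρ1 * starRingEnd ℂ ρ1 = ρ3 * starRingEnd ℂ ρ3) := by
    intro V hV
    have none : ¬ V.valuation x < 1 → ¬ V.valuation x' < 1 → ¬ V.valuation y < 1 →
        ¬ V.valuation y' < 1 → Λ ∈ V := fun p1 p2 p3 p4 =>
      V.toSubring.sub_mem (V.toSubring.sub_mem (V.add_mem _ _ (hV.div_pow_mem p1 _ _)
        (hV.div_pow_mem p2 _ _)) (hV.div_pow_mem p3 _ _)) (hV.div_pow_mem p4 _ _)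
    by_cases ha : V.valuation a < 1
    swap
    · have p1 : ¬ V.valuation x < 1 := fun h => ha (h1.toBr.val_lt hV hk h)
      exact ⟨none p1 (fun h => ha (h2.toBr.val_lt hV hk h)) (fun h => ha (h3.toBr.val_lt hV hk h))
        (fun h => ha (h4.toBr.val_lt hV hk h)), fun h => absurd h p1⟩
    rcases patterns h1.toBr.a_ne ha hrel (h1.toBr.cases hV ha) (h2.toBr.cases hV ha)
      (h3.toBr.cases hV ha) (h4.toBr.cases hV ha) with ⟨p1, p2, p3, p4⟩ | ⟨p1, p2, p3, p4⟩ |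
      ⟨p1, p2, p3, p4⟩ | ⟨p1, p2, p3, p4⟩ | ⟨p1, p2, p3, p4⟩ | ⟨p1, p2, p3, p4⟩
    · exact ⟨none p1 p2 p3 p4, fun h => absurd h p1⟩
    · have := common hV hk hν h1 h2 h3 h4 hrel p1 p3 p2 p4
      exact ⟨this.mem hV, fun _ => Or.inl this⟩
    · obtain ⟨m1, m2⟩ := mixed hV hk hν h1 h2 h3 h4 n3.symm hrel p1 p3 p2 p4
      refine ⟨?_, fun _ => Or.inr m2⟩
      have := V.add_mem _ _ m1 (V.toSubring.sub_mem (hV.div_pow_mem p2 ρ1 ν)
        (hV.div_pow_mem p4 ρ3 ν))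
      convert this using 1
      rw [hΛ]; ring
    · obtain ⟨m1, m2⟩ := mixed hV hk hν h1 h2 h4 h3 n4.symm (hrel.trans (mul_comm _ _)) p1 p4 p2 p3
      rw [Complex.conj_conj] at m1 m2
      refine ⟨?_, fun _ => Or.inr (m2.trans (mul_comm _ _))⟩
      have := V.add_mem _ _ m1 (V.toSubring.sub_mem (hV.div_pow_mem p2 ρ1 ν)
        (hV.div_pow_mem p3 (starRingEnd ℂ ρ3) ν))
      convert this using 1
      rw [hΛ]; ring
    · obtain ⟨m1, -⟩ := mixed hV hk hν h2 h1 h3 h4 (n2.trans n3.symm)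
        ((mul_comm _ _).trans hrel) p2 p3 p1 p4
      rw [Complex.conj_conj] at m1
      refine ⟨?_, fun h => absurd h p1⟩
      have := V.add_mem _ _ m1 (V.toSubring.sub_mem (hV.div_pow_mem p1 (starRingEnd ℂ ρ1) ν)
        (hV.div_pow_mem p4 ρ3 ν))
      convert this using 1
      rw [hΛ]; ring
    · obtain ⟨m1, -⟩ := mixed hV hk hν h2 h1 h4 h3 (n2.trans n4.symm)
        ((mul_comm _ _).trans (hrel.trans (mul_comm _ _))) p2 p4 p1 p3
      rw [Complex.conj_conj, Complex.conj_conj] at m1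
      refine ⟨?_, fun h => absurd h p1⟩
      have := V.add_mem _ _ m1 (V.toSubring.sub_mem (hV.div_pow_mem p1 (starRingEnd ℂ ρ1) ν)
        (hV.div_pow_mem p3 (starRingEnd ℂ ρ3) ν))
      convert this using 1
      rw [hΛ]; ring
  have hΛ0 : Λ = 0 := by
    refine eq_zero_of_forall_mem hV0 (fun V hV => (key V hV).1) ?_
    exact ((((hV0.div_pow_near vx _ hν).add (hV0.div_pow_near vx' _ hν)).sub
      (hV0.div_pow_near vy _ hν)).sub (hV0.div_pow_near vy' _ hν)).congr rfl (by ring)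
  have hp : ρ1 * starRingEnd ℂ ρ1 = ρ3 * starRingEnd ℂ ρ3 := by
    have hN : NC x⁻¹ := fun c hc => h1.nc c⁻¹ (by rw [map_inv₀, ← hc, inv_inv])
    obtain ⟨W, hW, hWn⟩ := hN.exists_valuationSubring
    have hx : W.valuation x < 1 := by
      by_contra hcon
      apply hWn
      rw [← W.valuation_le_one_iff, map_inv₀]
      exact inv_le_one_of_one_le₀ (not_lt.mp hcon)
    rcases (key W hW).2 hx with h | h
    · have h0 : Near W Λ 0 := by rw [hΛ0]; simp [Near]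
      have := h.unique hW h0
      have kk : (k : ℂ) ≠ 0 := by exact_mod_cast hk
      have kν : (ν : ℂ) ≠ 0 := by exact_mod_cast hν
      exact sub_eq_zero.mp ((mul_eq_zero.mp this).resolve_left
        (div_ne_zero (mul_ne_zero two_ne_zero kν) kk))
    · exact h
  have hρ1 : starRingEnd ℂ ρ1 ≠ 0 := by
    intro h0
    have h0' : ρ1 = 0 := by simpa using h0
    rw [h0, mul_zero] at hp
    rcases mul_eq_zero.mp hp.symm with h | h
    · exact hρ.elim (fun g => g h0') (fun g => g h)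
    · exact hρ.elim (fun g => g h0') (fun g => g (by simpa using h))
  exact finish_sum_prod hν hρ1 h1.nc.ne_zero h3.nc.ne_zero h4.nc.ne_zero hrel
    (by rw [mul_comm, hp, mul_comm]) hΛ0

theorem Br.polar {k : ℕ} {a x : K} {A B : ℂ[X]} (h : Br k a x A B) (hV : HasConst V)
    (hx : V.valuation x < 1) {κ : ℂ} (hκ : κ ≠ 0) (he : X ^ k ∣ A - C κ * B) :
    algebraMap ℂ K κ⁻¹ / x ^ k - a⁻¹ ∈ V := by
  obtain ⟨Q, hQ⟩ := he
  have hx' : Near V x 0 := near_zero_iff.mpr hx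
  have h1 := congrArg (aeval x) hQ
  simp only [map_sub, map_mul, map_pow, aeval_X, aeval_C] at h1
  have hA := (hx'.aeval hV A).ne_zero hV h.A0
  have hκ' : algebraMap ℂ K κ ≠ 0 := (_root_.map_ne_zero _).mpr hκ
  have hx0 := h.nc.ne_zero
  have ha0 := h.a_ne
  have h2 : algebraMap ℂ K κ⁻¹ / x ^ k - a⁻¹ = -(aeval x Q / (algebraMap ℂ K κ * aeval x A)) * (-1) := by
    have h3 : a⁻¹ = aeval x B / (x ^ k * aeval x A) := by rw [← h.rel]; field_simp [h.nc.aeval_ne_zero h.B_ne]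
    rw [h3, map_inv₀]
    field_simp
    linear_combination h1
  rw [h2]
  exact ((((hx'.aeval hV Q).div hV ((near_const κ).mul hV (hx'.aeval hV A))
    (mul_ne_zero hκ h.A0)).neg).mul hV near_one.neg).mem hV

/-- The case of a second gap at least as long as the first. -/
theorem core_long {V0 : ValuationSubring K} (hV0 : HasConst V0) {k : ℕ} (hk : k ≠ 0)
    {a x y x' y' : K} {A1 B1 A2 B2 A3 B3 A4 B4 : ℂ[X]} {κ1 κ2 κ3 κ4 : ℂ}
    (h1 : Br k a x A1 B1) (h2 : Br k a x' A2 B2) (h3 : Br k a y A3 B3) (h4 : Br k a y' A4 B4)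
    (k1 : κ1 ≠ 0) (k2 : κ2 ≠ 0) (k3 : κ3 ≠ 0) (k4 : κ4 ≠ 0)
    (e1 : X ^ k ∣ A1 - C κ1 * B1) (e2 : X ^ k ∣ A2 - C κ2 * B2) (e3 : X ^ k ∣ A3 - C κ3 * B3)
    (e4 : X ^ k ∣ A4 - C κ4 * B4) (hκ : κ1 * κ2 = κ3 * κ4) (hrel : x * x' = y * y')
    (vx : V0.valuation x⁻¹ < 1) (vx' : V0.valuation x'⁻¹ < 1) (vy : V0.valuation y⁻¹ < 1)
    (vy' : V0.valuation y'⁻¹ < 1) :
    (∃ c : ℂ, x = algebraMap ℂ K c * y) ∨ (∃ c : ℂ, x = algebraMap ℂ K c * y') := by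
  refine finish_sum_prod (c1 := κ1⁻¹) (c2 := κ2⁻¹) (c3 := κ3⁻¹) (c4 := κ4⁻¹) hk (inv_ne_zero k1)
    h1.nc.ne_zero h3.nc.ne_zero h4.nc.ne_zero hrel
    (by rw [← mul_inv, ← mul_inv, hκ]) ?_
  refine eq_zero_of_forall_mem hV0 (fun V hV => ?_) ?_
  swap
  · exact ((((hV0.div_pow_near vx _ hk).add (hV0.div_pow_near vx' _ hk)).sub
      (hV0.div_pow_near vy _ hk)).sub (hV0.div_pow_near vy' _ hk)).congr rfl (by ring)
  have none : ¬ V.valuation x < 1 → ¬ V.valuation x' < 1 → ¬ V.valuation y < 1 →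
      ¬ V.valuation y' < 1 → algebraMap ℂ K κ1⁻¹ / x ^ k + algebraMap ℂ K κ2⁻¹ / x' ^ k -
        algebraMap ℂ K κ3⁻¹ / y ^ k - algebraMap ℂ K κ4⁻¹ / y' ^ k ∈ V := fun p1 p2 p3 p4 =>
    V.toSubring.sub_mem (V.toSubring.sub_mem (V.add_mem _ _ (hV.div_pow_mem p1 _ _)
      (hV.div_pow_mem p2 _ _)) (hV.div_pow_mem p3 _ _)) (hV.div_pow_mem p4 _ _)
  by_cases ha : V.valuation a < 1
  swap
  · exact none (fun h => ha (h1.val_lt hV hk h)) (fun h => ha (h2.val_lt hV hk h))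
      (fun h => ha (h3.val_lt hV hk h)) (fun h => ha (h4.val_lt hV hk h))
  have comb : ∀ {s1 s2 s3 s4 t1 t2 t3 t4 : K}, s1 - t1 ∈ V → s2 - t2 ∈ V → s3 - t3 ∈ V →
      s4 - t4 ∈ V → t1 + t2 = t3 + t4 → s1 + s2 - s3 - s4 ∈ V := by
    intro s1 s2 s3 s4 t1 t2 t3 t4 m1 m2 m3 m4 e
    have e' : s1 + s2 - s3 - s4 = s1 - t1 + (s2 - t2) - (s3 - t3) - (s4 - t4) := by
      linear_combination e
    rw [e']
    exact V.toSubring.sub_mem (V.toSubring.sub_mem (V.add_mem _ _ m1 m2) m3) m4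
  have z : ∀ {w : K} {c : ℂ}, ¬ V.valuation w < 1 → algebraMap ℂ K c / w ^ k - 0 ∈ V :=
    fun p => by rw [sub_zero]; exact hV.div_pow_mem p _ _
  rcases patterns h1.a_ne ha hrel (h1.cases hV ha) (h2.cases hV ha)
    (h3.cases hV ha) (h4.cases hV ha) with ⟨p1, p2, p3, p4⟩ | ⟨p1, p2, p3, p4⟩ |
    ⟨p1, p2, p3, p4⟩ | ⟨p1, p2, p3, p4⟩ | ⟨p1, p2, p3, p4⟩ | ⟨p1, p2, p3, p4⟩
  · exact none p1 p2 p3 p4
  · exact comb (h1.polar hV p1 k1 e1) (h2.polar hV p2 k2 e2) (h3.polar hV p3 k3 e3)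
      (h4.polar hV p4 k4 e4) rfl
  · exact comb (h1.polar hV p1 k1 e1) (z p2) (h3.polar hV p3 k3 e3) (z p4) rfl
  · exact comb (h1.polar hV p1 k1 e1) (z p2) (z p3) (h4.polar hV p4 k4 e4) (add_comm _ _)
  · exact comb (z p1) (h2.polar hV p2 k2 e2) (h3.polar hV p3 k3 e3) (z p4) (add_comm _ _)
  · exact comb (z p1) (h2.polar hV p2 k2 e2) (z p3) (h4.polar hV p4 k4 e4) rfl

/-- Matching of the leading terms at a common zero. -/
theorem match_lead {V0 : ValuationSubring K} (hV0 : HasConst V0) {k k' : ℕ}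
    {a x y x' y' : K} {A1 B1 A2 B2 A3 B3 A4 B4 : ℂ[X]}
    (h1 : Br k a x A1 B1) (h2 : Br k a x' A2 B2) (h3 : Br k' a y A3 B3) (h4 : Br k' a y' A4 B4)
    (hrel : x * x' = y * y')
    (vx : V0.valuation x < 1) (vx' : V0.valuation x' < 1) (vy : V0.valuation y < 1)
    (vy' : V0.valuation y' < 1) :
    k = k' ∧ A1.eval 0 / B1.eval 0 * (A2.eval 0 / B2.eval 0) =
      A3.eval 0 / B3.eval 0 * (A4.eval 0 / B4.eval 0) := by
  have lead : ∀ {k : ℕ} {x : K} {A B : ℂ[X]}, Br k a x A B → V0.valuation x < 1 →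
      Near V0 (a / x ^ k) (A.eval 0 / B.eval 0) := by
    intro k x A B h hx
    have hx' : Near V0 x 0 := near_zero_iff.mpr hx
    refine ((hx'.aeval hV0 A).div hV0 (hx'.aeval hV0 B) h.B0).congr ?_ rfl
    have := h.nc.aeval_ne_zero h.B_ne
    have := h.nc.ne_zero
    field_simp
    linear_combination h.rel
  have hk : k = k' := by
    refine val_pow_inj (θ := V0.valuation (x * x'))
      ((_root_.map_ne_zero _).mpr (mul_ne_zero h1.nc.ne_zero h2.nc.ne_zero))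
      (val_mul_lt vx vx'.le) ?_
    conv_rhs => rw [hrel]
    rw [map_mul, map_mul, mul_pow, mul_pow, ← h1.val_of_lt hV0 vx, ← h2.val_of_lt hV0 vx',
      ← h3.val_of_lt hV0 vy, ← h4.val_of_lt hV0 vy']
  subst hk
  refine ⟨rfl, ((lead h1 vx).mul hV0 (lead h2 vx')).unique hV0
    (((lead h3 vy).mul hV0 (lead h4 vy')).congr ?_ rfl)⟩
  rw [div_mul_div_comm, div_mul_div_comm, ← mul_pow, ← mul_pow, hrel]

end Pool.Agent.Lib.MP_6db618_an
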