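import Mathlib
import Pool.Agent.Lib.MP_6db618_an.Gap2
import Pool.Agent.Lib.MP_6db618_an.Ends

set_option autoImplicit false

namespace Pool.Agent.Lib.MP_6db618_an

open Polynomial Filter Topology

/-- The polynomial with conjugate coefficients. -/
noncomputable def cj (P : ℂ[X]) : ℂ[X] := P.map (starRingEnd ℂ)

theorem cj_eval (P : ℂ[X]) (z : ℂ) :
    (cj P).eval (starRingEnd ℂ z) = starRingEnd ℂ (P.eval z) := by
  rw [cj, eval_map, eval₂_at_apply]

theorem cj_eval_zero (P : ℂ[X]) : (cj P).eval 0 = starRingEnd ℂ (P.eval 0) := by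
  rw [← cj_eval, map_zero]

theorem cj_rootMultiplicity (P : ℂ[X]) (c : ℂ) :
    (cj P).rootMultiplicity c = P.rootMultiplicity (starRingEnd ℂ c) := by
  have := eq_rootMultiplicity_map (p := P) (starRingEnd ℂ).injective (starRingEnd ℂ c)
  rw [Complex.conj_conj] at this
  exact this.symm

theorem cj_natDegree (P : ℂ[X]) : (cj P).natDegree = P.natDegree :=
  natDegree_map_eq_of_injective (starRingEnd ℂ).injective P

/-- No resonance at the non-zero zeros of `A / B`. -/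
def NoRes (k ν : ℕ) (A B : ℂ[X]) : Prop :=
  ∀ c : ℂ, c ≠ 0 → B.rootMultiplicity c < A.rootMultiplicity c →
    ¬ k ∣ ν * (A.rootMultiplicity c - B.rootMultiplicity c)

theorem NoRes.cj {k ν : ℕ} {A B : ℂ[X]} (h : NoRes k ν A B) : NoRes k ν (cj A) (cj B) := by
  intro c hc
  rw [cj_rootMultiplicity, cj_rootMultiplicity]
  exact h _ (by simpa using hc)

/-- The difference between `A` and the multiple of `B` with the same value at `0`. -/
noncomputable def dl (A B : ℂ[X]) : ℂ[X] := A - C (A.eval 0 / B.eval 0) * B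

theorem exp_of_dvd {A B : ℂ[X]} (hA : A.eval 0 ≠ 0) (hB : B.eval 0 ≠ 0) {ν : ℕ}
    (h : X ^ ν ∣ dl A B) :
    X ^ (ν + 1) ∣ A - C (A.eval 0 / B.eval 0) * (1 + C ((dl A B).coeff ν / A.eval 0) * X ^ ν) * B := by
  have e : A - C (A.eval 0 / B.eval 0) * (1 + C ((dl A B).coeff ν / A.eval 0) * X ^ ν) * B =
      dl A B - C (A.eval 0 / B.eval 0 * ((dl A B).coeff ν / A.eval 0)) * (X ^ ν * B) := by
    rw [C_mul]
    generalize (dl A B).coeff ν / A.eval 0 = ρ
    rw [dl]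
    ring
  rw [e, X_pow_dvd_iff]
  intro d hd
  rw [coeff_sub, coeff_C_mul, coeff_X_pow_mul']
  split_ifs with h1
  · obtain rfl : d = ν := by omega
    rw [Nat.sub_self, coeff_zero_eq_eval_zero B]
    field_simp
    ring
  · rw [X_pow_dvd_iff.mp h d (not_le.mp h1), mul_zero, sub_zero]

theorem core_all {K : Type} [Field K] [Algebra ℂ K] {V0 : ValuationSubring K}
    (hV0 : HasConst V0) {k : ℕ} (hk : k ≠ 0) {a x y x' y' : K} {A B A' B' : ℂ[X]}
    (h1 : Br k a x A B) (h2 : Br k a x' (cj A) (cj B)) (h3 : Br k a y A' B')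
    (h4 : Br k a y' (cj A') (cj B'))
    (hκ : A.eval 0 / B.eval 0 * starRingEnd ℂ (A.eval 0 / B.eval 0) =
      A'.eval 0 / B'.eval 0 * starRingEnd ℂ (A'.eval 0 / B'.eval 0))
    (hNR : ∀ ν : ℕ, 0 < ν → ν < k → X ^ ν ∣ dl A B → X ^ ν ∣ dl A' B' →
      ((dl A B).coeff ν ≠ 0 ∨ (dl A' B').coeff ν ≠ 0) → NoRes k ν A B ∧ NoRes k ν A' B')
    (hrel : x * x' = y * y')
    (vx : V0.valuation x⁻¹ < 1) (vx' : V0.valuation x'⁻¹ < 1) (vy : V0.valuation y⁻¹ < 1)
    (vy' : V0.valuation y'⁻¹ < 1) :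
    (∃ c : ℂ, x = algebraMap ℂ K c * y) ∨ (∃ c : ℂ, x = algebraMap ℂ K c * y') := by
  classical
  have k1 : A.eval 0 / B.eval 0 ≠ 0 := div_ne_zero h1.A0 h1.B0
  have k3 : A'.eval 0 / B'.eval 0 ≠ 0 := div_ne_zero h3.A0 h3.B0
  have k2 : starRingEnd ℂ (A.eval 0 / B.eval 0) ≠ 0 := by simpa using ⟨h1.A0, h1.B0⟩
  have k4 : starRingEnd ℂ (A'.eval 0 / B'.eval 0) ≠ 0 := by simpa using ⟨h3.A0, h3.B0⟩
  by_cases hex : ∃ ν, ν < k ∧ ((dl A B).coeff ν ≠ 0 ∨ (dl A' B').coeff ν ≠ 0)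
  · have hs := Nat.find_spec hex
    have hm := fun m => Nat.find_min hex (m := m)
    generalize Nat.find hex = ν at hs hm
    have hm' : ∀ m < ν, (dl A B).coeff m = 0 ∧ (dl A' B').coeff m = 0 := by
      intro m hmν
      have := hm m hmν
      push Not at this
      exact this (hmν.trans hs.1)
    have d1 : X ^ ν ∣ dl A B := X_pow_dvd_iff.mpr fun d hd => (hm' d hd).1
    have d3 : X ^ ν ∣ dl A' B' := X_pow_dvd_iff.mpr fun d hd => (hm' d hd).2
    have hν : ν ≠ 0 := by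
      rintro rfl
      have z : ∀ {A B : ℂ[X]}, B.eval 0 ≠ 0 → (dl A B).coeff 0 = 0 := by
        intro A B hB
        rw [coeff_zero_eq_eval_zero, dl, eval_sub, eval_mul, eval_C, div_mul_cancel₀ _ hB, sub_self]
      exact hs.2.elim (fun h => h (z h1.B0)) (fun h => h (z h3.B0))
    obtain ⟨r1, r3⟩ := hNR ν (Nat.pos_of_ne_zero hν) hs.1 d1 d3 hs.2
    have e1 := exp_of_dvd h1.A0 h1.B0 d1
    have e3 := exp_of_dvd h3.A0 h3.B0 d3
    have e2 := Polynomial.map_dvd (starRingEnd ℂ) e1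
    have e4 := Polynomial.map_dvd (starRingEnd ℂ) e3
    simp only [Polynomial.map_sub, Polynomial.map_mul, Polynomial.map_add, Polynomial.map_pow,
      Polynomial.map_one, map_C, map_X] at e2 e4
    have n3 : ‖A'.eval 0 / B'.eval 0‖ = ‖A.eval 0 / B.eval 0‖ := by
      have := congrArg norm hκ
      rw [norm_mul, norm_mul, Complex.norm_conj, Complex.norm_conj] at this
      exact ((mul_self_inj (norm_nonneg _) (norm_nonneg _)).mp this).symm
    refine core_gap hV0 hk hν ⟨h1, k1, e1, r1⟩ ⟨h2, k2, e2, r1.cj⟩ ⟨h3, k3, e3, r3⟩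
      ⟨h4, k4, e4, r3.cj⟩ (Complex.norm_conj _) n3 ((Complex.norm_conj _).trans n3) ?_ hrel
      vx vx' vy vy'
    exact hs.2.imp (fun h => div_ne_zero h h1.A0) (fun h => div_ne_zero h h3.A0)
  · push Not at hex
    have e1 : X ^ k ∣ dl A B := X_pow_dvd_iff.mpr fun d hd => (hex d hd).1
    have e3 : X ^ k ∣ dl A' B' := X_pow_dvd_iff.mpr fun d hd => (hex d hd).2
    have e2 := Polynomial.map_dvd (starRingEnd ℂ) e1
    have e4 := Polynomial.map_dvd (starRingEnd ℂ) e3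
    simp only [dl, Polynomial.map_sub, Polynomial.map_mul, Polynomial.map_pow, map_C,
      map_X] at e2 e4
    exact core_long hV0 hk h1 h2 h3 h4 k1 k2 k3 k4 e1 e2 e3 e4 hκ hrel vx vx' vy vy'

theorem up_eval (P : ℂ[X]) (x : ℕ → ℂ) : up (fun n => P.eval (x n)) = aeval (up x) P := by
  induction P using Polynomial.induction_on' with
  | add p q hp hq =>
    rw [map_add, ← hp, ← hq, ← map_add]
    congr 1
    funext n
    simp
  | monomial m c =>
    rw [aeval_monomial, algebraMap_UP, ← map_pow, ← map_mul]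
    congr 1
    funext n
    simp

theorem Br_up {k : ℕ} {a x : ℕ → ℂ} {A B : ℂ[X]} (nx : NC (up x)) (A0 : A.eval 0 ≠ 0)
    (B0 : B.eval 0 ≠ 0) (deg : B.natDegree ≤ k + A.natDegree)
    (h : ∀ n, a n * B.eval (x n) = x n ^ k * A.eval (x n)) : Br k (up a) (up x) A B := by
  refine ⟨nx, A0, B0, deg, ?_⟩
  rw [← up_eval, ← up_eval, ← map_pow, ← map_mul, ← map_mul]
  congr 1
  funext n
  exact h n

theorem Br_up_conj {k : ℕ} {a x : ℕ → ℂ} {A B : ℂ[X]}
    (nx : NC (up fun n => starRingEnd ℂ (x n))) (A0 : A.eval 0 ≠ 0)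
    (B0 : B.eval 0 ≠ 0) (deg : B.natDegree ≤ k + A.natDegree)
    (hr : ∀ n, starRingEnd ℂ (a n) = a n)
    (h : ∀ n, a n * B.eval (x n) = x n ^ k * A.eval (x n)) :
    Br k (up a) (up fun n => starRingEnd ℂ (x n)) (cj A) (cj B) := by
  refine Br_up nx (by rw [cj_eval_zero]; simpa using A0) (by rw [cj_eval_zero]; simpa using B0)
    (by rwa [cj_natDegree, cj_natDegree]) fun n => ?_
  rw [cj_eval, cj_eval, ← hr n, ← map_mul, h n, map_mul, map_pow]

/-- A sequence of pairs of points of equal modulus at which two rational functions take the same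
real value. -/
structure SeqR (k k' : ℕ) (A B A' B' : ℂ[X]) (a x y : ℕ → ℂ) : Prop where
  x0 : ∀ n, x n ≠ 0
  nrm : ∀ n, ‖x n‖ = ‖y n‖
  real : ∀ n, starRingEnd ℂ (a n) = a n
  rx : ∀ n, a n * B.eval (x n) = x n ^ k * A.eval (x n)
  ry : ∀ n, a n * B'.eval (y n) = y n ^ k' * A'.eval (y n)

theorem SeqR.y0 {k k' : ℕ} {A B A' B' : ℂ[X]} {a x y : ℕ → ℂ} (h : SeqR k k' A B A' B' a x y)
    (n : ℕ) : y n ≠ 0 := by
  rw [← norm_ne_zero_iff, ← h.nrm n, norm_ne_zero_iff]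
  exact h.x0 n

theorem SeqR.rel {k k' : ℕ} {A B A' B' : ℂ[X]} {a x y : ℕ → ℂ} (h : SeqR k k' A B A' B' a x y) :
    up x * (up fun n => starRingEnd ℂ (x n)) = up y * (up fun n => starRingEnd ℂ (y n)) := by
  rw [← map_mul, ← map_mul]
  congr 1
  funext n
  simp only [Pi.mul_apply, Complex.mul_conj', h.nrm n]

theorem seq_core {k k' : ℕ} {A B A' B' : ℂ[X]} (hk : k ≠ 0) (A0 : A.eval 0 ≠ 0)
    (B0 : B.eval 0 ≠ 0) (deg : B.natDegree ≤ k + A.natDegree) (A0' : A'.eval 0 ≠ 0)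
    (B0' : B'.eval 0 ≠ 0) (deg' : B'.natDegree ≤ k' + A'.natDegree)
    {a x y b u w : ℕ → ℂ} (h : SeqR k k' A B A' B' a x y) (h' : SeqR k k' A B A' B' b u w)
    (hx : Tendsto x atTop (𝓝 0)) (hy : Tendsto y atTop (𝓝 0))
    (hu : Tendsto (fun n => (u n)⁻¹) atTop (𝓝 0)) (hw : Tendsto (fun n => (w n)⁻¹) atTop (𝓝 0))
    (hNR : k' = k → ∀ ν : ℕ, 0 < ν → ν < k → X ^ ν ∣ dl A B → X ^ ν ∣ dl A' B' →
      ((dl A B).coeff ν ≠ 0 ∨ (dl A' B').coeff ν ≠ 0) → NoRes k ν A B ∧ NoRes k ν A' B') :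
    NC (up w) ∧ NC (up fun n => starRingEnd ℂ (w n)) ∧
    ((∃ c : ℂ, up u = algebraMap ℂ UP c * up w) ∨
      (∃ c : ℂ, up u = algebraMap ℂ UP c * up fun n => starRingEnd ℂ (w n))) := by
  have hx' := tendsto_conj hx
  have hy' := tendsto_conj hy
  have x0' : ∀ n, starRingEnd ℂ (x n) ≠ 0 := fun n => by simpa using h.x0 n
  have y0' : ∀ n, starRingEnd ℂ (y n) ≠ 0 := fun n => by simpa using h.y0 n
  obtain ⟨hkk, hκ⟩ := match_lead hasConst_V0 (Br_up (NC_up h.x0 hx) A0 B0 deg h.rx)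
    (Br_up_conj (NC_up x0' hx') A0 B0 deg h.real h.rx) (Br_up (NC_up h.y0 hy) A0' B0' deg' h.ry)
    (Br_up_conj (NC_up y0' hy') A0' B0' deg' h.real h.ry) h.rel (valuation_up_lt_one h.x0 hx)
    (valuation_up_lt_one x0' hx') (valuation_up_lt_one h.y0 hy) (valuation_up_lt_one y0' hy')
  subst hkk
  simp only [cj_eval_zero, ← map_div₀] at hκ
  have hu' : Tendsto (fun n => (starRingEnd ℂ (u n))⁻¹) atTop (𝓝 0) := by
    simpa using tendsto_conj hu
  have hw' : Tendsto (fun n => (starRingEnd ℂ (w n))⁻¹) atTop (𝓝 0) := by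
    simpa using tendsto_conj hw
  have u0 : ∀ n, (u n)⁻¹ ≠ 0 := fun n => inv_ne_zero (h'.x0 n)
  have w0 : ∀ n, (w n)⁻¹ ≠ 0 := fun n => inv_ne_zero (h'.y0 n)
  have u0' : ∀ n, (starRingEnd ℂ (u n))⁻¹ ≠ 0 := fun n => by simpa using h'.x0 n
  have w0' : ∀ n, (starRingEnd ℂ (w n))⁻¹ ≠ 0 := fun n => by simpa using h'.y0 n
  have nu := NC_up u0 hu
  have nw := NC_up w0 hw
  have nu' := NC_up u0' hu'
  have nw' := NC_up w0' hw'
  have vu := valuation_up_lt_one u0 hu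
  have vw := valuation_up_lt_one w0 hw
  have vu' := valuation_up_lt_one u0' hu'
  have vw' := valuation_up_lt_one w0' hw'
  rw [up_inv] at nu nw nu' nw' vu vw vu' vw'
  have mu : NC (up u) := by simpa using nu.inv
  have mw : NC (up w) := by simpa using nw.inv
  have mu' : NC (up fun n => starRingEnd ℂ (u n)) := by simpa using nu'.inv
  have mw' : NC (up fun n => starRingEnd ℂ (w n)) := by simpa using nw'.inv
  exact ⟨mw, mw', core_all hasConst_V0 hk (Br_up mu A0 B0 deg h'.rx)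
    (Br_up_conj mu' A0 B0 deg h'.real h'.rx) (Br_up mw A0' B0' deg' h'.ry)
    (Br_up_conj mw' A0' B0' deg' h'.real h'.ry) hκ (hNR rfl) h'.rel vu vu' vw vw'⟩

end Pool.Agent.Lib.MP_6db618_an
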