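import Mathlib

set_option autoImplicit false

namespace Pool.Agent.Lib.MP_6db618_an

open Polynomial

/-- Write `s` for the lowest exponent of `p` and `s + k` for its second-lowest exponent.
`NonResonant p q` says that `p` is not a monomial and that, if the first exponent above `s + k`
occurring in `p` or `q` is `s + k + ν` with `ν < k`, then for `f = p` and `f = q` no root `c ≠ 0`
of `z f'(z) - s f(z)` with `f(c) ≠ 0` has a multiplicity `e` with `k ∣ ν e`. -/
def NonResonant (p q : ℂ[X]) : Prop :=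
  ∃ k : ℕ, 0 < k ∧ p.coeff (p.natTrailingDegree + k) ≠ 0 ∧
    (∀ j : ℕ, 0 < j → j < k → p.coeff (p.natTrailingDegree + j) = 0) ∧
    ∀ ν : ℕ, 0 < ν → ν < k →
      (∀ j : ℕ, 0 < j → j < ν →
        p.coeff (p.natTrailingDegree + k + j) = 0 ∧ q.coeff (p.natTrailingDegree + k + j) = 0) →
      (p.coeff (p.natTrailingDegree + k + ν) ≠ 0 ∨ q.coeff (p.natTrailingDegree + k + ν) ≠ 0) →
      ∀ f : ℂ[X], (f = p ∨ f = q) → ∀ c : ℂ, c ≠ 0 → f.eval c ≠ 0 →
        (X * derivative f - C (p.natTrailingDegree : ℂ) * f).eval c = 0 →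
        ¬ k ∣ ν * (X * derivative f - C (p.natTrailingDegree : ℂ) * f).rootMultiplicity c

end Pool.Agent.Lib.MP_6db618_an
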