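import Mathlib
import Pool.Agent.Lib.MP_6db618_an.GapSeq
import Pool.Agent.Lib.MP_6db618_an.NonResDef

set_option autoImplicit false

namespace Pool.Agent.Lib.MP_6db618_an

open Polynomial Filter Topology

theorem exists_strip {p : ℂ[X]} (hp : p ≠ 0) :
    ∃ p1 : ℂ[X], p = X ^ p.natTrailingDegree * p1 ∧ p1.eval 0 ≠ 0 := by
  obtain ⟨p1, h1, h2⟩ := exists_eq_pow_rootMultiplicity_mul_and_not_dvd p hp 0
  rw [rootMultiplicity_eq_natTrailingDegree', C_0, sub_zero] at h1
  rw [dvd_iff_isRoot] at h2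
  exact ⟨p1, h1, h2⟩

theorem theta_strip (s : ℕ) (p1 : ℂ[X]) :
    X * derivative (X ^ s * p1) - C (s : ℂ) * (X ^ s * p1) = X ^ s * (X * derivative p1) := by
  rw [derivative_mul, derivative_X_pow]
  rcases s with _ | s
  · simp
  · rw [Nat.add_sub_cancel]
    ring

theorem HH_strip {s : ℕ} {p1 : ℂ[X]} {z : ℂ} (hz : (X ^ s * p1).eval z ≠ 0) :
    (HH (X ^ s * p1).roots z - s) * p1.eval z = (X * derivative p1).eval z := by
  rw [HH_roots_eq hz]
  have h1 := congrArg (eval z) (theta_strip s p1)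
  rw [eval_sub, eval_mul, eval_X, eval_mul (p := C _), eval_C, eval_mul (p := X ^ s)
    (q := X * derivative p1)] at h1
  have h2 : (X ^ s * p1).eval z = (X ^ s : ℂ[X]).eval z * p1.eval z := eval_mul
  have h3 : (X ^ s : ℂ[X]).eval z ≠ 0 := left_ne_zero_of_mul (h2 ▸ hz)
  refine mul_left_cancel₀ h3 ?_
  rw [← h1]
  field_simp
  rw [h2]
  ring

theorem coeff_theta (p : ℂ[X]) (m : ℕ) : (X * derivative p).coeff m = m * p.coeff m := by
  rcases m with _ | m
  · simp
  · rw [coeff_X_mul, coeff_derivative]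
    push_cast
    ring

theorem rm_X_pow_mul {P : ℂ[X]} (hP : P ≠ 0) (m : ℕ) {c : ℂ} (hc : c ≠ 0) :
    (X ^ m * P).rootMultiplicity c = P.rootMultiplicity c := by
  rw [rootMultiplicity_mul (mul_ne_zero (pow_ne_zero _ X_ne_zero) hP),
    rootMultiplicity_eq_zero (by simp [hc]), zero_add]

theorem deg_theta {p1 A : ℂ[X]} {k : ℕ} (h : X * derivative p1 = X ^ k * A) :
    p1.natDegree ≤ k + A.natDegree := by
  by_cases h0 : p1.natDegree = 0
  · omega
  have h1 : (X ^ k * A).coeff p1.natDegree ≠ 0 := by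
    rw [← h, coeff_theta]
    refine mul_ne_zero (by exact_mod_cast h0) ?_
    rw [coeff_natDegree, leadingCoeff_ne_zero]
    rintro rfl
    simp at h0
  refine (le_natDegree_of_ne_zero h1).trans (natDegree_mul_le.trans ?_)
  rw [natDegree_X_pow]

theorem coeff_dl_theta {p1 A : ℂ[X]} {k : ℕ} (h : X * derivative p1 = X ^ k * A) {j : ℕ}
    (hj : 0 < j) (hjk : j < k) : (dl A p1).coeff j = (k + j : ℕ) * p1.coeff (k + j) := by
  have h1 : p1.coeff j = 0 := by
    have := coeff_theta p1 j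
    rw [h, coeff_X_pow_mul', if_neg (not_le.mpr hjk)] at this
    exact (mul_eq_zero.mp this.symm).resolve_left (by exact_mod_cast hj.ne')
  rw [dl, coeff_sub, coeff_C_mul, h1, mul_zero, sub_zero, ← coeff_theta, h, add_comm k,
    coeff_X_pow_mul]

theorem noRes_theta {p1 A : ℂ[X]} {k ν s : ℕ} (h : X * derivative p1 = X ^ k * A) (hA : A ≠ 0)
    (H : ∀ c : ℂ, c ≠ 0 → (X ^ s * p1).eval c ≠ 0 →
      (X * derivative (X ^ s * p1) - C (s : ℂ) * (X ^ s * p1)).eval c = 0 →
      ¬ k ∣ ν * (X * derivative (X ^ s * p1) - C (s : ℂ) * (X ^ s * p1)).rootMultiplicity c) :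
    NoRes k ν A p1 := by
  intro c hc hlt
  have hd : derivative p1 ≠ 0 := by
    intro h0
    rw [h0, mul_zero] at h
    exact mul_ne_zero (pow_ne_zero _ X_ne_zero) hA h.symm
  have e1 : A.rootMultiplicity c = (derivative p1).rootMultiplicity c := by
    rw [← rm_X_pow_mul hA k hc, ← h, ← rm_X_pow_mul hd 1 hc, pow_one]
  have h1 : ¬ p1.IsRoot c := by
    intro hr
    rw [e1, derivative_rootMultiplicity_of_root hr] at hlt
    omega
  rw [rootMultiplicity_eq_zero h1] at hlt ⊢
  have h2 := H c hc (by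
    rw [eval_mul]
    exact mul_ne_zero (by simp [hc]) h1)
  rw [theta_strip, h, ← mul_assoc, ← pow_add, rm_X_pow_mul hA _ hc] at h2
  refine h2 ?_
  rw [eval_mul, (rootMultiplicity_pos hA).mp hlt, mul_zero]

theorem GoodPair.q_ne_zero {p q : ℂ[X]} {x y : ℂ} (h : GoodPair p q x y) : q.eval y ≠ 0 := by
  rw [← norm_ne_zero_iff, ← h.val_eq, norm_ne_zero_iff]
  exact h.ne_zero

theorem SeqData.seqR {s k k' : ℕ} {p1 q1 A A' : ℂ[X]} {x y : ℕ → ℂ}
    (hd : SeqData (X ^ s * p1) (X ^ s * q1) x y) (h : X * derivative p1 = X ^ k * A)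
    (h' : X * derivative q1 = X ^ k' * A') :
    SeqR k k' A p1 A' q1 (fun n => HH (X ^ s * p1).roots (x n) - s) x y := by
  refine ⟨hd.ne_zero, fun n => (hd.good n).norm_eq, fun n => ?_, fun n => ?_, fun n => ?_⟩
  · rw [map_sub, (hd.good n).real, map_natCast]
  · rw [HH_strip (hd.good n).ne_zero, h]
    simp
  · rw [(hd.good n).HH_eq, HH_strip (hd.good n).q_ne_zero, h']
    simp

theorem near_HH_strip {s : ℕ} {p1 : ℂ[X]} (h0 : p1.eval 0 ≠ 0) {x : ℕ → ℂ} (x0 : ∀ n, x n ≠ 0)
    (hx : Tendsto x atTop (𝓝 0)) (hp : ∀ n, (X ^ s * p1).eval (x n) ≠ 0) :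
    Near V0 (up fun n => HH (X ^ s * p1).roots (x n)) s := by
  have nx : Near V0 (up x) 0 := near_zero_iff.mpr (valuation_up_lt_one x0 hx)
  have e : (up (fun n => HH (X ^ s * p1).roots (x n)) - s) * aeval (up x) p1 =
      aeval (up x) (X * derivative p1) := by
    rw [← up_eval, ← up_eval, ← map_natCast up, ← map_sub, ← map_mul]
    congr 1
    funext n
    exact HH_strip (hp n)
  have h1 := (nx.aeval hasConst_V0 p1).ne_zero hasConst_V0 h0
  refine (((nx.aeval hasConst_V0 (X * derivative p1)).div hasConst_V0 (nx.aeval hasConst_V0 p1)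
    h0).add (near_natCast s)).congr ?_ (by simp)
  rw [← e]
  field_simp
  ring

theorem equiv_of_nonResonant {p q : ℂ[X]} (h : NonResonant p q)
    (hM : ∀ r, 0 < r → MM p r = MM q r) : Equiv p q := by
  obtain ⟨k, hk, c1, c2, c3⟩ := h
  have hp : p ≠ 0 := by
    rintro rfl
    simp at c1
  obtain ⟨x, y, hd, hx, hy⟩ := exists_seqData_zero hp one_pos fun r hr _ => hM r hr
  obtain ⟨u, w, hd', hu, hw⟩ := exists_seqData_infty hp one_pos fun r hr => hM r (one_pos.trans hr)
  have hq : q ≠ 0 := by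
    rintro rfl
    exact (hd.good 0).q_ne_zero (by simp)
  obtain ⟨p1, ep, p0⟩ := exists_strip hp
  obtain ⟨q1, eq, q0⟩ := exists_strip hq
  generalize p.natTrailingDegree = s at *
  generalize q.natTrailingDegree = s' at *
  subst ep eq
  have hs : s = s' := by
    have n1 := near_HH_strip p0 hd.ne_zero hx fun n => (hd.good n).ne_zero
    have n2 := near_HH_strip q0 hd.y_ne_zero hy fun n => (hd.good n).q_ne_zero
    simp only [← (hd.good _).HH_eq] at n2
    exact_mod_cast n1.unique hasConst_V0 n2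
  subst hs
  have cf : ∀ (P : ℂ[X]) (m : ℕ), (X ^ s * P).coeff (s + m) = P.coeff m := fun P m => by
    rw [add_comm, coeff_X_pow_mul]
  simp only [add_assoc, cf] at c1 c2 c3
  have kk : (k : ℂ) ≠ 0 := by exact_mod_cast hk.ne'
  obtain ⟨A, hA⟩ : X ^ k ∣ X * derivative p1 := by
    rw [X_pow_dvd_iff]
    intro d hd
    rw [coeff_theta]
    rcases Nat.eq_zero_or_pos d with rfl | h0
    · simp
    · rw [c2 d h0 hd, mul_zero]
  have A0 : A.eval 0 ≠ 0 := by
    have := coeff_theta p1 k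
    rw [hA, coeff_X_pow_mul', if_pos le_rfl, Nat.sub_self, coeff_zero_eq_eval_zero] at this
    rw [this]
    exact mul_ne_zero kk c1
  have An : A ≠ 0 := by
    rintro rfl
    exact A0 (by simp)
  have hq1 : X * derivative q1 ≠ 0 := by
    intro h0
    have e1 : ∀ n, (X ^ k * A).eval (x n) = 0 := by
      intro n
      have g1 := HH_strip (hd.good n).q_ne_zero
      have g2 := HH_strip (hd.good n).ne_zero
      rw [h0, eval_zero, ← (hd.good n).HH_eq] at g1
      have g3 : q1.eval (y n) ≠ 0 := fun g =>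
        (hd.good n).q_ne_zero (by rw [eval_mul, g, mul_zero])
      rw [(mul_eq_zero.mp g1).resolve_right g3, zero_mul, hA] at g2
      exact g2.symm
    refine (NC_up hd.ne_zero hx).aeval_ne_zero (mul_ne_zero (pow_ne_zero k X_ne_zero) An) ?_
    rw [← up_eval, funext e1]
    exact map_zero up
  obtain ⟨A', hA', A0'⟩ := exists_strip hq1
  generalize (X * derivative q1).natTrailingDegree = k' at hA'
  have An' : A' ≠ 0 := by
    rintro rfl
    exact A0' (by simp)
  obtain ⟨mw, mw', H⟩ := seq_core hk.ne' A0 p0 (deg_theta hA) A0' q0 (deg_theta hA')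
    (hd.seqR hA hA') (hd'.seqR hA hA') hx hy hu hw (by
      rintro rfl ν hν hνk d1 d2 d3
      have z : ∀ j : ℕ, 0 < j → ((k' + j : ℕ) : ℂ) ≠ 0 := fun j hj => by
        exact_mod_cast (by omega : k' + j ≠ 0)
      have := c3 ν hν hνk (fun j hj hjν => by
        have g1 := X_pow_dvd_iff.mp d1 j hjν
        have g2 := X_pow_dvd_iff.mp d2 j hjν
        rw [coeff_dl_theta hA hj (hjν.trans hνk)] at g1
        rw [coeff_dl_theta hA' hj (hjν.trans hνk)] at g2
        exact ⟨(mul_eq_zero.mp g1).resolve_left (z j hj),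
          (mul_eq_zero.mp g2).resolve_left (z j hj)⟩) (by
        rw [coeff_dl_theta hA hν hνk, coeff_dl_theta hA' hν hνk] at d3
        exact d3.imp right_ne_zero_of_mul right_ne_zero_of_mul)
      exact ⟨noRes_theta hA An (this _ (Or.inl rfl)), noRes_theta hA' An' (this _ (Or.inr rfl))⟩)
  rcases H with ⟨c, hc⟩ | ⟨c, hc⟩
  · exact hd'.equiv_of_u mw hc
  · exact hd'.equiv_of_v mw' hc

theorem eval_reverse (p : ℂ[X]) {z : ℂ} (hz : z ≠ 0) :
    p.reverse.eval z = z ^ p.natDegree * p.eval z⁻¹ := by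
  have := invertibleOfNonzero (inv_ne_zero hz)
  have h := eval₂_reverse_mul_pow (RingHom.id ℂ) z⁻¹ p
  rw [invOf_eq_inv, inv_inv, eval₂_id, eval₂_id] at h
  rw [← h, inv_pow]
  field_simp

theorem MM_reverse (p : ℂ[X]) {r : ℝ} (hr : 0 < r) :
    MM p.reverse r = r ^ p.natDegree * MM p r⁻¹ := by
  apply le_antisymm
  · obtain ⟨z, hz, h⟩ := exists_MM p.reverse hr.le
    have hz0 : z ≠ 0 := by rw [← norm_ne_zero_iff, hz]; exact hr.ne'
    rw [← h, eval_reverse p hz0, norm_mul, norm_pow, hz]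
    gcongr
    exact le_MM p (by rw [norm_inv, hz])
  · obtain ⟨z, hz, h⟩ := exists_MM p (inv_pos.mpr hr).le
    have hz0 : z ≠ 0 := by rw [← norm_ne_zero_iff, hz]; exact (inv_pos.mpr hr).ne'
    have hz' : ‖z⁻¹‖ = r := by rw [norm_inv, hz, inv_inv]
    have := le_MM p.reverse hz'
    rwa [eval_reverse p (inv_ne_zero hz0), norm_mul, norm_pow, hz', inv_inv, h] at this

theorem natDegree_eq_of_MM {p q : ℂ[X]} (hp : p ≠ 0) (hM : ∀ r, 0 < r → MM p r = MM q r) :
    p.natDegree = q.natDegree := by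
  obtain ⟨x, y, hd, hx, hy⟩ := exists_seqData_infty hp one_pos fun r hr => hM r (one_pos.trans hr)
  have x0 : ∀ n, (x n)⁻¹ ≠ 0 := fun n => inv_ne_zero (hd.ne_zero n)
  have y0 : ∀ n, (y n)⁻¹ ≠ 0 := fun n => inv_ne_zero (hd.y_ne_zero n)
  have nx := NC_up x0 hx
  have ny := NC_up y0 hy
  have vx := valuation_up_lt_one x0 hx
  have vy := valuation_up_lt_one y0 hy
  rw [up_inv] at nx ny vx vy
  have mx : NC (up x) := by simpa using nx.inv
  have my : NC (up y) := by simpa using ny.inv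
  rw [(IsAlgClosed.splits p).natDegree_eq_card_roots, (IsAlgClosed.splits q).natDegree_eq_card_roots]
  refine hasConst_V0.natCast_eq
    (lt_of_le_of_lt (hasConst_V0.valuation_HH_le vx (nz_inv_ne_zero p.roots)).1 vx)
    (lt_of_le_of_lt (hasConst_V0.valuation_HH_le vy (nz_inv_ne_zero q.roots)).1 vy) ?_
  rw [HH_nz_inv _ mx, HH_nz_inv _ my, hd.HH_y]; ring

theorem equiv_of_reverse {p q : ℂ[X]} (hn : p.natDegree = q.natDegree)
    (h : Equiv p.reverse q.reverse) : Equiv p q := by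
  obtain ⟨ε, η, hε, hη, h⟩ := h
  have η0 : η ≠ 0 := by rintro rfl; simp at hη
  have ext0 : ∀ {f g : ℂ → ℂ}, Continuous f → Continuous g → (∀ z, z ≠ 0 → f z = g z) →
      ∀ z, f z = g z := fun hf hg H =>
    congrFun (Continuous.ext_on (dense_compl_singleton (0 : ℂ)) hf hg fun z hz => H z hz)
  rcases h with h | h
  · refine ⟨ε * η ^ p.natDegree, η⁻¹, by simp [hε, hη], by simp [hη], Or.inl ?_⟩
    refine ext0 q.continuous (continuous_const.mul (p.continuous.comp (by fun_prop))) ?_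
    intro z hz
    have h1 := h z⁻¹
    rw [eval_reverse q (inv_ne_zero hz), eval_reverse p (mul_ne_zero η0 (inv_ne_zero hz)),
      inv_inv, ← hn, mul_inv, inv_inv, mul_pow] at h1
    refine mul_left_cancel₀ (pow_ne_zero p.natDegree (inv_ne_zero hz)) ?_
    rw [h1]
    ring
  · refine ⟨ε * starRingEnd ℂ η ^ p.natDegree, η⁻¹, by simp [hε, hη], by simp [hη], Or.inr ?_⟩
    refine ext0 q.continuous (continuous_const.mul (Complex.continuous_conj.comp
      (p.continuous.comp (continuous_const.mul Complex.continuous_conj)))) ?_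
    intro z hz
    have h1 := h z⁻¹
    have hz' : starRingEnd ℂ z⁻¹ ≠ 0 := by simpa using hz
    rw [eval_reverse q (inv_ne_zero hz), eval_reverse p (mul_ne_zero η0 hz'),
      inv_inv, ← hn, mul_inv, map_inv₀, inv_inv, map_mul, map_pow, map_mul, map_inv₀,
      Complex.conj_conj, mul_pow] at h1
    refine mul_left_cancel₀ (pow_ne_zero p.natDegree (inv_ne_zero hz)) ?_
    rw [h1]
    ring

theorem equiv_of_nonResonant_reverse {p q : ℂ[X]} (h : NonResonant p.reverse q.reverse)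
    (hM : ∀ r, 0 < r → MM p r = MM q r) : Equiv p q := by
  have hp : p ≠ 0 := by
    rintro rfl
    obtain ⟨k, -, c1, -⟩ := h
    simp at c1
  have hn := natDegree_eq_of_MM hp hM
  refine equiv_of_reverse hn (equiv_of_nonResonant h fun r hr => ?_)
  rw [MM_reverse p hr, MM_reverse q hr, hn, hM _ (inv_pos.mpr hr)]

end Pool.Agent.Lib.MP_6db618_an
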