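import Mathlib
import Pool.Agent.Lib.MP_6db618_an.Entire2
import Pool.Agent.Lib.MP_6db618_an.GapPoly

set_option autoImplicit false

namespace Pool.Agent.Lib.MP_6db618_an

open Filter Topology Polynomial

/-- The numerator of `z f'(z) / f(z)` for `f = p exp P`, in the variable `1 / z`. -/
noncomputable def BB (p P : ℂ[X]) : ℂ[X] :=
  X ^ P.natDegree * (C (p.natDegree : ℂ) * p.reverse - X * derivative p.reverse) +
    (X * derivative P).reverse * p.reverse

theorem natDegree_theta (P : ℂ[X]) : (X * derivative P).natDegree = P.natDegree := by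
  apply le_antisymm
  · rw [natDegree_le_iff_coeff_eq_zero]
    intro m hm
    rw [coeff_theta, coeff_eq_zero_of_natDegree_lt hm, mul_zero]
  · simpa using deg_theta (p1 := P) (A := X * derivative P) (k := 0) (by simp)

theorem eval_zero_reverse (p : ℂ[X]) : p.reverse.eval 0 = p.leadingCoeff := by
  rw [← coeff_zero_eq_eval_zero, coeff_zero_reverse]

theorem eval_BB (p P : ℂ[X]) {x : ℂ} (hx : x ≠ 0) :
    (BB p P).eval x⁻¹ = x⁻¹ ^ (P.natDegree + p.natDegree) *
      (x * (derivative p).eval x + x * (derivative P).eval x * p.eval x) := by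
  have hz : x⁻¹ ≠ 0 := inv_ne_zero hx
  have h1 : HasDerivAt (fun w : ℂ => w ^ p.natDegree * p.eval w⁻¹)
      (p.natDegree * x⁻¹ ^ (p.natDegree - 1) * p.eval x⁻¹⁻¹ +
        x⁻¹ ^ p.natDegree * ((derivative p).eval x⁻¹⁻¹ * (-(x⁻¹ ^ 2)⁻¹))) x⁻¹ :=
    (hasDerivAt_pow _ _).mul ((p.hasDerivAt _).comp _ (hasDerivAt_inv hz))
  have h2 : HasDerivAt (fun w : ℂ => p.reverse.eval w) _ x⁻¹ := h1.congr_of_eventuallyEq (by
    filter_upwards [eventually_ne_nhds hz] with w hw using eval_reverse p hw)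
  have h3 := (p.reverse.hasDerivAt x⁻¹).unique h2
  rw [inv_inv] at h3
  have h4 : x⁻¹ * (p.natDegree * x⁻¹ ^ (p.natDegree - 1)) = p.natDegree * x⁻¹ ^ p.natDegree := by
    rcases p.natDegree with _ | d
    · simp
    · rw [Nat.add_sub_cancel]; ring
  simp only [BB, eval_add, eval_mul, eval_sub, eval_pow, eval_X, eval_C, h3, eval_reverse _ hz,
    inv_inv, natDegree_theta]
  have h5 : x⁻¹ * (x⁻¹ ^ 2)⁻¹ = x := by field_simp
  rw [pow_add]
  linear_combination (-(x⁻¹ ^ P.natDegree) * p.eval x) * h4 +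
    (x⁻¹ ^ P.natDegree * x⁻¹ ^ p.natDegree * (derivative p).eval x) * h5

theorem BB_eval_zero {p P : ℂ[X]} (hp : p ≠ 0) (h : P.natDegree ≠ 0 ∨ BB p P ≠ 0) :
    (BB p P).eval 0 ≠ 0 := by
  have hl : p.leadingCoeff ≠ 0 := leadingCoeff_ne_zero.mpr hp
  by_cases hk : P.natDegree = 0
  · have h1 : derivative P = 0 := derivative_of_natDegree_zero hk
    have h2 : p.natDegree ≠ 0 := by
      intro h0
      refine h.resolve_left (not_not.mpr hk) ?_
      rw [BB, h1, h0, derivative_of_natDegree_zero (p := p.reverse)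
        (Nat.le_zero.mp (h0 ▸ reverse_natDegree_le p))]
      simp
    simp only [BB, h1, hk, eval_add, eval_mul, eval_sub, eval_pow, eval_X, eval_C,
      eval_zero_reverse]
    simpa using ⟨h2, hp⟩
  · simp only [BB, eval_add, eval_mul, eval_sub, eval_pow, eval_X, eval_C, eval_zero_reverse,
      zero_pow hk, zero_mul, zero_add]
    refine mul_ne_zero (leadingCoeff_ne_zero.mpr fun h0 => hk ?_) hl
    rw [← natDegree_theta, h0, natDegree_zero]

theorem BB_deg (p P : ℂ[X]) : (BB p P).natDegree ≤ P.natDegree + p.reverse.natDegree := by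
  refine (natDegree_add_le _ _).trans (max_le (natDegree_mul_le.trans ?_)
    (natDegree_mul_le.trans ?_))
  · rw [natDegree_X_pow]
    gcongr
    refine (natDegree_sub_le _ _).trans (max_le (natDegree_C_mul_le _ _) ?_)
    rw [natDegree_theta]
  · gcongr
    exact (reverse_natDegree_le _).trans (natDegree_theta P).le

theorem BB_noRes {p P : ℂ[X]} (hB : BB p P ≠ 0) {k ν : ℕ} (hν : 0 < ν) (hk : ν < k) :
    NoRes k ν p.reverse (BB p P) := by
  intro c _ hlt
  have h1 : (X - C c) ^ (p.reverse.rootMultiplicity c - 1) ∣ p.reverse :=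
    (pow_dvd_pow _ (Nat.sub_le _ _)).trans (pow_rootMultiplicity_dvd _ _)
  have h2 : (X - C c) ^ (p.reverse.rootMultiplicity c - 1) ∣ derivative p.reverse :=
    (pow_dvd_pow _ (rootMultiplicity_sub_one_le_derivative_rootMultiplicity _ _)).trans
      (pow_rootMultiplicity_dvd _ _)
  have h3 : p.reverse.rootMultiplicity c - 1 ≤ (BB p P).rootMultiplicity c :=
    (le_rootMultiplicity_iff hB).mpr (dvd_add (Dvd.dvd.mul_left (dvd_sub (h1.mul_left _)
      (h2.mul_left _)) _) (h1.mul_left _))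
  have h4 : p.reverse.rootMultiplicity c - (BB p P).rootMultiplicity c = 1 := by omega
  rw [h4, mul_one]
  exact Nat.not_dvd_of_pos_of_lt hν hk

theorem rel_of_deriv {p P : ℂ[X]} {x a : ℂ} (hx : x ≠ 0)
    (h : x * deriv (fun z => p.eval z * Complex.exp (P.eval z)) x =
      a * (p.eval x * Complex.exp (P.eval x))) :
    (BB p P).eval x⁻¹ = a * (x⁻¹ ^ P.natDegree * p.reverse.eval x⁻¹) := by
  have h1 := ((p.hasDerivAt x).mul (P.hasDerivAt x).cexp).deriv
  have h2 : x * (derivative p).eval x + x * (derivative P).eval x * p.eval x = a * p.eval x := by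
    refine mul_right_cancel₀ (Complex.exp_ne_zero (P.eval x)) ?_
    have h3 : deriv (fun z => p.eval z * Complex.exp (P.eval z)) x = _ := h1
    rw [h3] at h
    linear_combination h
  rw [eval_BB _ _ hx, h2, eval_reverse _ (inv_ne_zero hx), inv_inv, pow_add]
  ring

theorem eventually_eval_ne {B : ℂ[X]} (hB : B.eval 0 ≠ 0) {x : ℕ → ℂ}
    (hx : Tendsto x atTop (𝓝 0)) : ∀ᶠ n in atTop, B.eval (x n) ≠ 0 :=
  hx.eventually (B.continuous.continuousAt.eventually_ne hB)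

theorem equivE_exp {p P q Q : ℂ[X]} (hp : p ≠ 0) (hq : q ≠ 0) (hP : P.natDegree ≠ 0)
    (hM : ∀ r, 0 < r → MF (fun z => p.eval z * Complex.exp (P.eval z)) r =
      MF (fun z => q.eval z * Complex.exp (Q.eval z)) r) :
    ∃ ε η : ℂ, ‖ε‖ = 1 ∧ ‖η‖ = 1 ∧
      ((∀ z : ℂ, q.eval z * Complex.exp (Q.eval z) =
        ε * (p.eval (η * z) * Complex.exp (P.eval (η * z)))) ∨
      (∀ z : ℂ, q.eval z * Complex.exp (Q.eval z) = ε * starRingEnd ℂ
        (p.eval (η * starRingEnd ℂ z) * Complex.exp (P.eval (η * starRingEnd ℂ z))))) := by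
  set f : ℂ → ℂ := fun z => p.eval z * Complex.exp (P.eval z) with hfd
  set g : ℂ → ℂ := fun z => q.eval z * Complex.exp (Q.eval z) with hgd
  have hf : Differentiable ℂ f := p.differentiable.mul P.differentiable.cexp
  have hg : Differentiable ℂ g := q.differentiable.mul Q.differentiable.cexp
  have h0 : ∃ z, f z ≠ 0 := by
    by_contra hcon
    push Not at hcon
    exact hp (Polynomial.funext fun z => by
      simpa using (mul_eq_zero.mp (hcon z)).resolve_right (Complex.exp_ne_zero _))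
  have B0 := BB_eval_zero hp (Or.inl hP)
  have Bn : BB p P ≠ 0 := fun h => B0 (by rw [h, eval_zero])
  have shift : ∀ {x y : ℕ → ℂ} {a : ℕ → ℝ}, (∀ n, GoodE f g (x n) (y n) (a n)) →
      (∀ᶠ n in atTop, (BB p P).eval (x n)⁻¹ ≠ 0) → ∃ m : ℕ, ∀ n, (a (n + m) : ℂ) ≠ 0 := by
    intro x y a hd he
    obtain ⟨m, hm⟩ := eventually_atTop.mp he
    refine ⟨m, fun n h => hm (n + m) (Nat.le_add_left _ _) ?_⟩
    rw [rel_of_deriv (hd _).x0 (hd _).df, h, zero_mul]
  have y0 : ∀ {x y : ℂ} {a : ℝ}, GoodE f g x y a → y ≠ 0 := fun h => by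
    rw [← norm_ne_zero_iff, ← h.norm_eq, norm_ne_zero_iff]
    exact h.x0
  have sq : ∀ {x y : ℕ → ℂ} {a : ℕ → ℝ}, (∀ n, GoodE f g (x n) (y n) (a n)) →
      (∀ n, (a n : ℂ) ≠ 0) → SeqR P.natDegree Q.natDegree p.reverse (BB p P) q.reverse (BB q Q)
        (fun n => (a n : ℂ)⁻¹) (fun n => (x n)⁻¹) (fun n => (y n)⁻¹) := by
    intro x y a hd ha
    refine ⟨fun n => inv_ne_zero (hd n).x0, fun n => by rw [norm_inv, norm_inv, (hd n).norm_eq],
      fun n => by simp, fun n => ?_, fun n => ?_⟩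
    · rw [rel_of_deriv (hd n).x0 (hd n).df, inv_mul_cancel_left₀ (ha n)]
    · rw [rel_of_deriv (y0 (hd n)) (hd n).dg, inv_mul_cancel_left₀ (ha n)]
  obtain ⟨x, y, a, hd, hx, hy⟩ := exists_seqE_infty hf hg h0 hM
  obtain ⟨u, w, b, hd', hu, hw⟩ := exists_seqE_zero hf hg h0 hM
  obtain ⟨m, hm⟩ := shift hd (eventually_eval_ne B0 hx)
  obtain ⟨m', hm'⟩ := shift hd' (by
    filter_upwards [eventually_eval_ne (B := (BB p P).reverse)
      (by rw [eval_zero_reverse]; exact leadingCoeff_ne_zero.mpr Bn) hu] with n hn h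
    exact hn (by rw [eval_reverse _ (hd' n).x0, h, mul_zero]))
  have Bn' : BB q Q ≠ 0 := by
    intro h
    have h1 := rel_of_deriv (y0 (hd (0 + m))) (hd (0 + m)).dg
    rw [h, eval_zero, eval_reverse _ (inv_ne_zero (y0 (hd (0 + m)))), inv_inv] at h1
    refine mul_ne_zero (hm 0) (mul_ne_zero (pow_ne_zero _ (inv_ne_zero (y0 (hd _))))
      (mul_ne_zero (pow_ne_zero _ (inv_ne_zero (y0 (hd _)))) ?_)) h1.symm
    exact left_ne_zero_of_mul (hd (0 + m)).g0
  have hw' : Tendsto (fun n => w (n + m')) atTop (𝓝 0) := hw.comp (tendsto_add_atTop_nat m')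
  obtain ⟨-, -, H⟩ := seq_core hP (by rw [eval_zero_reverse]; exact leadingCoeff_ne_zero.mpr hp)
    B0 (BB_deg p P) (by rw [eval_zero_reverse]; exact leadingCoeff_ne_zero.mpr hq)
    (BB_eval_zero hq (Or.inr Bn')) (BB_deg q Q) (sq (fun n => hd (n + m)) hm)
    (sq (fun n => hd' (n + m')) hm') (hx.comp (tendsto_add_atTop_nat m))
    (hy.comp (tendsto_add_atTop_nat m))
    (by simpa [Function.comp_def] using hu.comp (tendsto_add_atTop_nat m')) (by simpa using hw')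
    (fun _ ν hν hk _ _ _ => ⟨BB_noRes Bn hν hk, BB_noRes Bn' hν hk⟩)
  have flip : ∀ {s t c : ℂ}, s⁻¹ = c * t⁻¹ → s = c⁻¹ * t := fun {s t c} h => by
    rw [← inv_inv s, h, mul_inv, inv_inv]
  rcases H with ⟨c, hc⟩ | ⟨c, hc⟩
  · rw [algebraMap_UP, ← map_mul, up_eq_iff] at hc
    obtain ⟨ε, h1, h2, h3⟩ := equivE_of_u hf hg h0 (hM 1 one_pos) (fun n => hd' (n + m')) hw'
      (c := c⁻¹) ((hc.frequently.filter_mono Nat.hyperfilter_le_atTop).mono fun n hn => flip hn)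
    exact ⟨ε, c⁻¹, h1, h2, Or.inl h3⟩
  · rw [algebraMap_UP, ← map_mul, up_eq_iff] at hc
    obtain ⟨ε, h1, h2, h3⟩ := equivE_of_v hf hg h0 (hM 1 one_pos) (fun n => hd' (n + m')) hw'
      (c := c⁻¹) ((hc.frequently.filter_mono Nat.hyperfilter_le_atTop).mono fun n hn =>
        flip (by rw [← map_inv₀]; exact hn))
    exact ⟨ε, c⁻¹, h1, h2, Or.inr h3⟩

theorem equivE_finite {f g : ℂ → ℂ} (hf : Differentiable ℂ f) (hg : Differentiable ℂ g)
    (zf : {z | f z = 0}.Finite) (zg : {z | g z = 0}.Finite)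
    (hord : ∃ ρ R : ℝ, ∀ z : ℂ, R ≤ ‖z‖ → ‖f z‖ ≤ Real.exp (‖z‖ ^ ρ))
    (hpoly : ¬ ∃ p : ℂ[X], ∀ z, f z = p.eval z) (hM : ∀ r, 0 < r → MF f r = MF g r) :
    ∃ ε η : ℂ, ‖ε‖ = 1 ∧ ‖η‖ = 1 ∧ ((∀ z : ℂ, g z = ε * f (η * z)) ∨
      (∀ z : ℂ, g z = ε * starRingEnd ℂ (f (η * starRingEnd ℂ z)))) := by
  obtain ⟨ρ, R, hρ⟩ := hord
  have h1 : ∀ z : ℂ, max R 1 ≤ ‖z‖ → ‖f z‖ ≤ Real.exp (‖z‖ ^ ⌈ρ⌉₊) := by
    intro z hz
    refine (hρ z ((le_max_left _ _).trans hz)).trans (Real.exp_le_exp.mpr ?_)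
    rw [← Real.rpow_natCast]
    exact Real.rpow_le_rpow_of_exponent_le ((le_max_right _ _).trans hz) (Nat.le_ceil ρ)
  have h2 : ∀ z : ℂ, max R 1 ≤ ‖z‖ → ‖g z‖ ≤ Real.exp (‖z‖ ^ ⌈ρ⌉₊) := by
    intro z hz
    have r0 : 0 < ‖z‖ := one_pos.trans_le ((le_max_right _ _).trans hz)
    obtain ⟨w, hw, hw'⟩ := exists_MF hf.continuous r0.le
    refine (le_MF hg.continuous rfl).trans ?_
    rw [← hM _ r0, ← hw', ← hw]
    exact h1 w (hw ▸ hz)
  obtain ⟨p, P, hp, ef⟩ := exists_poly_exp hf zf h1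
  obtain ⟨q, Q, hq, eg⟩ := exists_poly_exp hg zg h2
  have hP : P.natDegree ≠ 0 := by
    intro h0
    refine hpoly ⟨p * C (Complex.exp (P.coeff 0)), fun z => ?_⟩
    rw [ef, eq_C_of_natDegree_eq_zero h0]
    simp
  obtain rfl : f = _ := funext ef
  obtain rfl : g = _ := funext eg
  exact equivE_exp hp hq hP hM

end Pool.Agent.Lib.MP_6db618_an
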