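import Mathlib
import Pool.Agent.Lib.MP_6db618_an.EntMax
import Pool.Agent.Lib.MP_6db618_an.Entire2

set_option autoImplicit false

namespace Pool.Agent.Lib.MP_6db618_an

open Set Filter Topology Complex Polynomial

variable {ι : Type}

/-- A base point on a good line together with a point above it in every plane. -/
structure Pt (S : ι → Sys) (a : ℂ) (x : ι → ℂ) : Prop where
  line : Line S a a
  fib : ∀ i, x i ∈ (S i).Ω ∧ (S i).H (x i) = a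

/-- Points of the plane `i` reached by transport. -/
def Rch (S : ι → Sys) (a : ℂ) (x : ι → ℂ) (i : ι) : Set ℂ :=
  {z | ∃ b u, Tr S univ a b u ∧ u i (x i) = z}

/-- Pairs of points reached by the same transport. -/
def Pair (S : ι → Sys) (a : ℂ) (x : ι → ℂ) (i j : ι) (z w : ℂ) : Prop :=
  ∃ b u, Tr S univ a b u ∧ u i (x i) = z ∧ u j (x j) = w

/-- Tuples of points reached by a transport that sends `x i` to `z`. -/
def Fib (S : ι → Sys) (a : ℂ) (x : ι → ℂ) (i : ι) {κ : Type} (p : κ → ι) (z : ℂ) :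
    Set (κ → ℂ) :=
  {e | ∃ b u, Tr S univ a b u ∧ u i (x i) = z ∧ e = fun k => u (p k) (x (p k))}

/-- The stabiliser of `x i` has a finite orbit on `x j`. -/
def FinOrb (S : ι → Sys) (a : ℂ) (x : ι → ℂ) (i j : ι) : Prop :=
  {w | Pair S a x i j (x i) w}.Finite

/-- Invariant neighbourhoods of the origin. -/
structure Nbh (S : ι → Sys) (η δ C : ℝ) (k : ℕ) (N : ι → Set ℂ) : Prop where
  η_pos : 0 < η
  η_le : η ≤ 1 / 10
  δ_pos : 0 < δ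
  C_pos : 0 < C
  k_ne : k ≠ 0
  zero : ∀ i, (S i).H 0 = 0
  ball : ∀ i, Metric.ball 0 δ ⊆ N i
  le : ∀ i, ∀ w ∈ N i, ‖w‖ ^ k ≤ C * ‖(S i).H w‖
  stay : ∀ i, ∀ a ∈ Sq 0 η, ∀ b ∈ Sq 0 η, ∀ z w, (S i).Lift a b z w → z ∈ N i → w ∈ N i
  fin : ∀ i a, {w | w ∈ N i ∧ w ∈ (S i).Ω ∧ (S i).H w = a}.Finite
  circ : ∀ i r, 0 < r → (∀ z, ‖z‖ = r → z ∈ (S i).Ω ∧ ‖(S i).H z‖ ≤ 1 / 10) →
    Metric.closedBall 0 r ⊆ (S i).Ω

/-- An algebraic correspondence compatible with two functions. -/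
structure Corr (S T : Sys) (R : ℂ[X][X]) : Prop where
  ne : ∀ z, R.map (evalRingHom z) ≠ 0
  deg : 0 < R.natDegree
  root : ∀ z w, R.evalEval z w = 0 → (z ∈ S.Ω ↔ w ∈ T.Ω) ∧ (z ∈ S.Ω → T.H w = S.H z)
  sep : ∃ z, (R.map (evalRingHom z)).Separable ∧
    (R.map (evalRingHom z)).natDegree = R.natDegree

/-- All poles are simple with positive integral logarithmic residues. -/
def Res (S : Sys) (m : ℂ → ℕ) : Prop :=
  ∀ z, z ∉ S.Ω → 0 < m z ∧ Tendsto (fun w => (w - z) * S.H w) (𝓝[≠] z) (𝓝 (m z * z))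

/-- The two functions differ by a homothety. -/
def Lin (S T : Sys) : Prop :=
  ∃ c w₀ : ℂ, c ≠ 0 ∧ ∃ᶠ w in 𝓝[≠] w₀, w ∈ S.Ω ∧ c * w ∈ T.Ω ∧ T.H (c * w) = S.H w

/-- The trivial solutions of `x₀ x₁ = x₂ x₃`. -/
def Triv (S : Fin 4 → Sys) : Prop :=
  Lin (S 0) (S 2) ∨ Lin (S 0) (S 3) ∨ Lin (S 1) (S 2) ∨ Lin (S 1) (S 3)

/-- The swap function. -/
def Sw (η : Fin 4 → ℂ) (n : ℕ) (e : Fin 4 → ℂ) : ℂ :=
  η 1 * e 0 ^ n + η 0 * e 1 ^ n - η 3 * e 2 ^ n - η 2 * e 3 ^ n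

/-- Germs of local biholomorphisms at `0` compatible with two weighted sets. -/
structure Gm (A : Set ℂ) (μ : ℂ → ℕ) (A' : Set ℂ) (μ' : ℂ → ℕ) (θ : ℂ → ℂ) : Prop where
  an : AnalyticAt ℂ θ 0
  zero : θ 0 = 0
  ne : deriv θ 0 ≠ 0
  ev : ∀ᶠ t in 𝓝[≠] (0 : ℂ), (t ∈ A ↔ θ t ∈ A') ∧
    (t ∈ A → (μ' (θ t) : ℂ) * θ t = μ t * (t * deriv θ t))

theorem Pt.dense_Rch [Countable ι] {S : ι → Sys} {a : ℂ} {x : ι → ℂ} (h : Pt S a x) (i : ι) :
    Dense (Rch S a x i) := by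
  have := dense_Reach (S := S) (i := i) (h.fib i).1 ((h.fib i).2.symm ▸ h.line)
  rw [Reach, (h.fib i).2] at this
  refine this.mono ?_
  rintro _ ⟨b, u, hu, e⟩
  exact ⟨b, u, hu, e.symm⟩

theorem Pt.tr {S : ι → Sys} {a b : ℂ} {x : ι → ℂ} (h : Pt S a x) {P : Set ℂ} {u : ι → ℂ → ℂ}
    (hu : Tr S P a b u) : Pt S b fun i => u i (x i) :=
  ⟨hu.line h.line, fun i => hu.fib i (h.fib i).1 (h.fib i).2⟩

theorem Pt.reg {S : ι → Sys} {a : ℂ} {x : ι → ℂ} (h : Pt S a x) (i : ι) : x i ∈ (S i).Reg :=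
  h.line.reg i (h.fib i).1 (h.fib i).2

theorem Sys.finite_poles (S : Sys) (r : ℝ) : (S.Ωᶜ ∩ Metric.closedBall 0 r).Finite := by
  refine ((isCompact_closedBall (0 : ℂ) r).inter_left S.isOpen.isClosed_compl).finite ?_
  rw [isDiscrete_iff_nhdsNE]
  intro z _
  rw [Filter.inf_principal_eq_bot]
  exact (S.iso z).mono fun w hw h => h.1 hw.1

end Pool.Agent.Lib.MP_6db618_an
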