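import Mathlib
import Pool.Agent.Lib.MP_6db618_an.InfDefs

set_option autoImplicit false

namespace Pool.Agent.Lib.MP_6db618_an

open Set Filter Topology Complex Polynomial

variable {A A' A'' : Set ℂ} {μ μ' μ'' : ℂ → ℕ} {θ φ : ℂ → ℂ}

namespace InfGerm

/-- A local biholomorphism fixing the origin preserves punctured neighbourhoods. -/
theorem tendsto_nhdsNE (han : AnalyticAt ℂ θ 0) (h0 : θ 0 = 0) (hne : deriv θ 0 ≠ 0) :
    Tendsto θ (𝓝[≠] (0 : ℂ)) (𝓝[≠] 0) := by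
  have hc : Tendsto θ (𝓝 (0 : ℂ)) (𝓝 0) := by
    have := han.continuousAt.tendsto
    rwa [h0] at this
  refine tendsto_nhdsWithin_iff.2 ⟨hc.mono_left nhdsWithin_le_nhds, ?_⟩
  have hl := han.hasStrictDerivAt.eventually_left_inverse hne
  have hl0 := hl.self_of_nhds
  filter_upwards [nhdsWithin_le_nhds hl, self_mem_nhdsWithin] with t ht ht0 hz
  apply ht0
  have hz' : θ t = θ 0 := by rw [h0]; exact hz
  have ht' : han.hasStrictDerivAt.localInverse θ _ _ hne (θ t) = t := ht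
  rw [hz', hl0] at ht'
  exact ht'.symm

theorem tendsto_nhds (han : AnalyticAt ℂ θ 0) (h0 : θ 0 = 0) :
    Tendsto θ (𝓝 (0 : ℂ)) (𝓝 0) := by
  have := han.continuousAt.tendsto
  rwa [h0] at this

/-- The descent on the weights. -/
theorem descent {dd : ℂ → ℂ} (h0 : θ 0 = 0) (hmap : map θ (𝓝 (0 : ℂ)) = 𝓝 0)
    (hA : ∃ᶠ t in 𝓝[≠] (0 : ℂ), t ∈ A) (hμ : ∀ t ∈ A, 0 < μ t)
    (hev : ∀ᶠ t in 𝓝[≠] (0 : ℂ), (t ∈ A ↔ θ t ∈ A) ∧
      (t ∈ A → (μ (θ t) : ℂ) - μ t = μ t * dd t) ∧ dd t ≠ 0 ∧ θ t ≠ 0 ∧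
      ((dd t).im = 0 → (0 < (dd t).re → ‖t‖ < ‖θ t‖) ∧ ((dd t).re < 0 → ‖θ t‖ < ‖t‖) ∧
        (0 < (dd (θ t)).re → 0 < (dd t).re))) : False := by
  classical
  obtain ⟨ε₁, hε₁, hP⟩ := Metric.eventually_nhds_iff_ball.1 (eventually_nhdsWithin_iff.1 hev)
  have him : θ '' Metric.ball 0 ε₁ ∈ 𝓝 (0 : ℂ) := by
    rw [← hmap]
    exact image_mem_map (Metric.ball_mem_nhds _ hε₁)
  obtain ⟨ε₂, hε₂, hsub⟩ := Metric.mem_nhds_iff.1
    (inter_mem him (Metric.ball_mem_nhds (0 : ℂ) hε₁))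
  have hex : ∃ n, ∃ s ∈ A, s ≠ 0 ∧ s ∈ Metric.ball (0 : ℂ) ε₂ ∧ μ s = n := by
    have hb : ∀ᶠ t in 𝓝[≠] (0 : ℂ), t ≠ 0 ∧ t ∈ Metric.ball (0 : ℂ) ε₂ := by
      filter_upwards [self_mem_nhdsWithin,
        nhdsWithin_le_nhds (Metric.ball_mem_nhds (0 : ℂ) hε₂)] with t a b
      exact ⟨a, b⟩
    obtain ⟨s, hs, hs1, hs2⟩ := (hA.and_eventually hb).exists
    exact ⟨_, s, hs, hs1, hs2, rfl⟩
  obtain ⟨s, hs, hs0, hsb, hsn⟩ := Nat.find_spec hex
  have hmin : ∀ t ∈ A, t ≠ 0 → t ∈ Metric.ball (0 : ℂ) ε₂ → μ s ≤ μ t := by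
    intro t ht ht0 htb
    rw [hsn]
    exact Nat.find_min' hex ⟨t, ht, ht0, htb, rfl⟩
  have key : ∀ t ∈ A, (μ (θ t) : ℂ) - μ t = μ t * dd t →
      (dd t).im = 0 ∧ (μ (θ t) : ℝ) - μ t = μ t * (dd t).re := by
    intro t ht e
    have hp : (0 : ℝ) < μ t := by exact_mod_cast hμ t ht
    have e1 := congrArg Complex.im e
    have e2 := congrArg Complex.re e
    simp only [sub_im, natCast_im, sub_self, mul_im, natCast_re, zero_mul, add_zero] at e1
    simp only [sub_re, natCast_re, mul_re, natCast_im, zero_mul, sub_zero] at e2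
    refine ⟨?_, e2⟩
    rcases mul_eq_zero.1 e1.symm with h | h
    · exact absurd h hp.ne'
    · exact h
  obtain ⟨a1, a2, a3, a4, a5⟩ := hP s (hsub hsb).2 hs0
  obtain ⟨k1, k2⟩ := key s hs (a2 hs)
  have hps : (0 : ℝ) < μ s := by exact_mod_cast hμ s hs
  rcases lt_trichotomy (dd s).re 0 with hlt | heq | hgt
  · have hn := (a5 k1).2.1 hlt
    have hb : θ s ∈ Metric.ball (0 : ℂ) ε₂ := by
      rw [mem_ball_zero_iff] at hsb ⊢
      exact hn.trans hsb
    have h1 : (μ s : ℝ) ≤ μ (θ s) := by exact_mod_cast hmin _ (a1.1 hs) a4 hb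
    have := mul_neg_of_pos_of_neg hps hlt
    linarith
  · exact a3 (Complex.ext heq k1)
  · obtain ⟨t, htb, rfl⟩ := (hsub hsb).1
    have ht0 : t ≠ 0 := by
      rintro rfl
      exact hs0 h0
    obtain ⟨b1, b2, -, -, b5⟩ := hP t htb ht0
    have ht : t ∈ A := b1.2 hs
    obtain ⟨l1, l2⟩ := key t ht (b2 ht)
    have hd : 0 < (dd t).re := (b5 l1).2.2 hgt
    have hn := (b5 l1).1 hd
    have hb : t ∈ Metric.ball (0 : ℂ) ε₂ := by
      rw [mem_ball_zero_iff] at hsb ⊢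
      exact hn.trans hsb
    have h1 : (μ (θ t) : ℝ) ≤ μ t := by exact_mod_cast hmin _ ht ht0 hb
    have hpt : (0 : ℝ) < μ t := by exact_mod_cast hμ t ht
    have := mul_pos hpt hd
    linarith

/-- Normal form of a germ tangent to the identity. -/
theorem normal_form (han : AnalyticAt ℂ θ 0) (h0 : θ 0 = 0) (h1 : deriv θ 0 = 1)
    (hn : ¬ ∀ᶠ t in 𝓝 (0 : ℂ), θ t = t) :
    ∃ (k : ℕ) (g : ℂ → ℂ), AnalyticAt ℂ g 0 ∧ g 0 ≠ 0 ∧
      ∀ᶠ t in 𝓝 (0 : ℂ), θ t = t + t ^ (k + 2) * g t := by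
  have hf : AnalyticAt ℂ (fun t => θ t - t) 0 := han.sub analyticAt_id
  obtain ⟨n, g, hg, hg0, hev⟩ := hf.exists_eventuallyEq_pow_smul_nonzero_iff.2
    (fun h => hn (h.mono fun t ht => sub_eq_zero.1 ht))
  have hev' : ∀ᶠ t in 𝓝 (0 : ℂ), θ t = t + t ^ n * g t := by
    filter_upwards [hev] with t ht
    rw [sub_zero, smul_eq_mul] at ht
    rw [← ht]
    ring
  rcases n with _ | _ | k
  · have := hev'.self_of_nhds
    simp only [h0, zero_add, pow_zero, one_mul] at this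
    exact absurd this.symm hg0
  · exfalso
    have hd : HasDerivAt (fun t : ℂ => t + t ^ (0 + 1) * g t) (1 + g 0) 0 := by
      have := (hasDerivAt_id' (0 : ℂ)).fun_add
        ((hasDerivAt_id' (0 : ℂ)).fun_mul hg.differentiableAt.hasDerivAt)
      simpa using this
    have := (hd.congr_of_eventuallyEq hev').deriv
    rw [h1] at this
    exact hg0 (by linear_combination -this)
  · exact ⟨k, g, hg, hg0, hev'⟩

theorem norm_lt_of {t u q : ℂ} {d : ℝ} (ht : t ≠ 0) (hu : u = d * q)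
    (hF : 0 < 2 * q.re + d * normSq q) :
    (0 < d → ‖t‖ < ‖t * (1 + u)‖) ∧ (d < 0 → ‖t * (1 + u)‖ < ‖t‖) := by
  have e : ‖1 + u‖ ^ 2 = 1 + d * (2 * q.re + d * normSq q) := by
    rw [← normSq_eq_norm_sq, hu, normSq_apply, normSq_apply]
    simp only [add_re, one_re, mul_re, ofReal_re, ofReal_im, zero_mul, sub_zero, add_im, one_im,
      mul_im, add_zero, zero_add]
    ring
  have hp : 0 < ‖t‖ := norm_pos_iff.2 ht
  have hn := norm_nonneg (1 + u)
  rw [norm_mul]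
  constructor
  · intro hd
    have h1 : 1 < ‖1 + u‖ := by
      have := mul_pos hd hF
      nlinarith
    nlinarith
  · intro hd
    have h1 : ‖1 + u‖ < 1 := by
      have := mul_neg_of_neg_of_pos hd hF
      nlinarith
    nlinarith

end InfGerm

theorem Gm.comp (h : Gm A μ A' μ' θ) (h' : Gm A' μ' A'' μ'' φ) : Gm A μ A'' μ'' (φ ∘ θ) := by
  have han' : AnalyticAt ℂ φ (θ 0) := by rw [h.zero]; exact h'.an
  refine ⟨han'.comp h.an, by simp [h.zero, h'.zero], ?_, ?_⟩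
  · rw [deriv_comp 0 han'.differentiableAt h.an.differentiableAt, h.zero]
    exact mul_ne_zero h'.ne h.ne
  · have ht := InfGerm.tendsto_nhdsNE h.an h.zero h.ne
    have d1 := h.an.eventually_analyticAt
    have d2 := (InfGerm.tendsto_nhds h.an h.zero).eventually h'.an.eventually_analyticAt
    filter_upwards [h.ev, ht.eventually h'.ev, nhdsWithin_le_nhds d1, nhdsWithin_le_nhds d2]
      with t a b c d
    refine ⟨a.1.trans b.1, fun hA => ?_⟩
    have c' : AnalyticAt ℂ θ t := c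
    have d' : AnalyticAt ℂ φ (θ t) := d
    rw [deriv_comp t d'.differentiableAt c'.differentiableAt, Function.comp_apply]
    have e1 := a.2 hA
    have e2 := b.2 (a.1.1 hA)
    linear_combination e2 + deriv φ (θ t) * e1

theorem Gm.inv (h : Gm A μ A' μ' θ) : ∃ φ, Gm A' μ' A μ φ ∧ (∀ᶠ t in 𝓝 (0 : ℂ), φ (θ t) = t) ∧
    ∀ᶠ t in 𝓝 (0 : ℂ), θ (φ t) = t := by
  set ψ := h.an.hasStrictDerivAt.localInverse θ _ _ h.ne with hψ
  have hl : ∀ᶠ t in 𝓝 (0 : ℂ), ψ (θ t) = t :=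
    h.an.hasStrictDerivAt.eventually_left_inverse h.ne
  have hr : ∀ᶠ t in 𝓝 (0 : ℂ), θ (ψ t) = t := by
    have := h.an.hasStrictDerivAt.eventually_right_inverse h.ne
    rwa [h.zero] at this
  have han : AnalyticAt ℂ ψ 0 := by
    have := h.an.analyticAt_localInverse h.ne
    rwa [h.zero] at this
  have h0 : ψ 0 = 0 := by
    have := hl.self_of_nhds
    rwa [h.zero] at this
  have hne : deriv ψ 0 ≠ 0 := by
    have := (h.an.hasStrictDerivAt.to_localInverse h.ne).hasDerivAt.deriv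
    rw [h.zero] at this
    rw [hψ, this]
    exact inv_ne_zero h.ne
  refine ⟨ψ, ⟨han, h0, hne, ?_⟩, hl, hr⟩
  have ht := InfGerm.tendsto_nhdsNE han h0 hne
  have d1 := han.eventually_analyticAt
  have d2 := (InfGerm.tendsto_nhds han h0).eventually h.an.eventually_analyticAt
  filter_upwards [ht.eventually h.ev, nhdsWithin_le_nhds d1, nhdsWithin_le_nhds d2,
    nhdsWithin_le_nhds hr.eventually_nhds] with s a c d e
  have c' : AnalyticAt ℂ ψ s := c
  have d' : AnalyticAt ℂ θ (ψ s) := d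
  have e' : ∀ᶠ t in 𝓝 s, θ (ψ t) = t := e
  have es : θ (ψ s) = s := e'.self_of_nhds
  rw [es] at a
  refine ⟨a.1.symm, fun hA => ?_⟩
  have hd : deriv θ (ψ s) * deriv ψ s = 1 := by
    rw [← deriv_comp s d'.differentiableAt c'.differentiableAt]
    have : (θ ∘ ψ) =ᶠ[𝓝 s] id := e'
    rw [this.deriv_eq, deriv_id]
  have e1 := a.2 (a.1.2 hA)
  linear_combination -(deriv ψ s) * e1 - (μ (ψ s) : ℂ) * ψ s * hd

/-- A compatible germ tangent to the identity is the identity (descent on the weights). -/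
theorem Gm.eq_id (h : Gm A μ A μ θ) (hA : ∃ᶠ t in 𝓝[≠] (0 : ℂ), t ∈ A)
    (hμ : ∀ t ∈ A, 0 < μ t) (h1 : deriv θ 0 = 1) : ∀ᶠ t in 𝓝 (0 : ℂ), θ t = t := by
  by_contra hn
  obtain ⟨k, g, hg, hg0, hev⟩ := InfGerm.normal_form h.an h.zero h1 hn
  have hmap : map θ (𝓝 (0 : ℂ)) = 𝓝 0 := by
    have := h.an.hasStrictDerivAt.map_nhds_eq h.ne
    rwa [h.zero] at this
  have hθc := InfGerm.tendsto_nhds h.an h.zero
  set u : ℂ → ℂ := fun t => t ^ (k + 1) * g t with hu
  set g1 : ℂ → ℂ := fun t => ((k + 1 : ℂ) * g t + t * deriv g t) / (1 + u t) with hg1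
  have hk : (k + 1 : ℂ) ≠ 0 := by exact_mod_cast Nat.succ_ne_zero k
  have hgc : ContinuousAt g 0 := hg.continuousAt
  have hdc : ContinuousAt (deriv g) 0 := hg.deriv.continuousAt
  have hu0 : u 0 = 0 := by simp [hu]
  have huc : ContinuousAt u 0 := (continuousAt_id.pow _).mul hgc
  have h1c : ContinuousAt (fun t => 1 + u t) 0 := continuousAt_const.add huc
  have h1ne : 1 + u 0 ≠ 0 := by simp [hu0]
  have hg1c : ContinuousAt g1 0 :=
    ((continuousAt_const.mul hgc).add (continuousAt_id.mul hdc)).div h1c h1ne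
  have hg10 : g1 0 = (k + 1 : ℂ) * g 0 := by simp [hg1, hu0]
  have hg1ne : g1 0 ≠ 0 := by rw [hg10]; exact mul_ne_zero hk hg0
  set q : ℂ → ℂ := fun t => g t / g1 t with hq
  have hqc : ContinuousAt q 0 := hgc.div hg1c hg1ne
  have hq0 : q 0 = (((k + 1 : ℝ)⁻¹ : ℝ) : ℂ) := by
    simp only [hq, hg10]
    push_cast
    field_simp
  set dd : ℂ → ℂ := fun t => t ^ (k + 1) * g1 t with hdd
  have hddc : ContinuousAt dd 0 := (continuousAt_id.pow _).mul hg1c
  have hdd0 : dd 0 = 0 := by simp [hdd]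
  have hF : ∀ᶠ t in 𝓝 (0 : ℂ), 0 < 2 * (q t).re + (dd t).re * normSq (q t) := by
    have hc : ContinuousAt (fun t => 2 * (q t).re + (dd t).re * normSq (q t)) 0 :=
      (continuousAt_const.mul (continuous_re.continuousAt.comp hqc)).add
        ((continuous_re.continuousAt.comp hddc).mul (continuous_normSq.continuousAt.comp hqc))
    refine hc.eventually (lt_mem_nhds ?_)
    have : (0 : ℝ) < (k + 1 : ℝ)⁻¹ := by positivity
    simp only [hq0, hdd0, ofReal_re, zero_re, zero_mul, add_zero]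
    linarith
  set r : ℂ → ℂ := fun t => (1 + u t) ^ (k + 1) * g1 (θ t) / g1 t with hr
  have hR : ∀ᶠ t in 𝓝 (0 : ℂ), 0 < (r t).re := by
    have hc1 : ContinuousAt (fun t => g1 (θ t)) 0 :=
      ContinuousAt.comp (g := g1) (f := θ) (by rw [h.zero]; exact hg1c) h.an.continuousAt
    have hc : ContinuousAt (fun t => (r t).re) 0 :=
      continuous_re.continuousAt.comp (((h1c.pow _).mul hc1).div hg1c hg1ne)
    refine hc.eventually (lt_mem_nhds ?_)
    have : r 0 = 1 := by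
      simp only [hr, hu0, h.zero, add_zero, one_pow, one_mul]
      exact div_self hg1ne
    simp [this]
  have hD : ∀ᶠ t in 𝓝 (0 : ℂ), deriv θ t =
      1 + ((k + 2 : ℂ) * t ^ (k + 1) * g t + t ^ (k + 2) * deriv g t) := by
    filter_upwards [hev.eventually_nhds, hg.eventually_analyticAt] with t a b
    have hd : HasDerivAt (fun t : ℂ => t + t ^ (k + 2) * g t)
        (1 + ((k + 2 : ℂ) * t ^ (k + 1) * g t + t ^ (k + 2) * deriv g t)) t := by
      have := (hasDerivAt_id' t).fun_add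
        ((hasDerivAt_pow (k + 2) t).fun_mul b.differentiableAt.hasDerivAt)
      simpa using this
    exact (hd.congr_of_eventuallyEq a).deriv
  refine InfGerm.descent (dd := dd) h.zero hmap hA hμ ?_
  filter_upwards [h.ev, self_mem_nhdsWithin, nhdsWithin_le_nhds hev, nhdsWithin_le_nhds hF,
    nhdsWithin_le_nhds hR, nhdsWithin_le_nhds hD,
    nhdsWithin_le_nhds (h1c.eventually_ne h1ne), nhdsWithin_le_nhds (hg1c.eventually_ne hg1ne)]
    with t a ht0 b c d e f j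
  have ht : t ≠ 0 := ht0
  have b' : θ t = t * (1 + u t) := by
    have : θ t = t + t ^ (k + 2) * g t := b
    rw [this, hu]
    ring
  have c' : 0 < 2 * (q t).re + (dd t).re * normSq (q t) := c
  have d' : 0 < (r t).re := d
  have e' : deriv θ t = 1 + ((k + 2 : ℂ) * t ^ (k + 1) * g t + t ^ (k + 2) * deriv g t) := e
  have f' : 1 + u t ≠ 0 := f
  have j' : g1 t ≠ 0 := j
  refine ⟨a.1, fun hAt => ?_, mul_ne_zero (pow_ne_zero _ ht) j', b' ▸ mul_ne_zero ht f',
    fun him => ?_⟩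
  · have e1 := a.2 hAt
    have e2 : dd t * (1 + u t) = t ^ (k + 1) * ((k + 1 : ℂ) * g t + t * deriv g t) := by
      simp only [hdd, hg1]
      field_simp
    have e3 : u t = t ^ (k + 1) * g t := rfl
    apply mul_right_cancel₀ (mul_ne_zero ht f')
    generalize (μ (θ t) : ℂ) = m' at e1 ⊢
    rw [b', e'] at e1
    linear_combination e1 - (μ t : ℂ) * t * e2 - (μ t : ℂ) * t * e3
  · have hre : dd t = ((dd t).re : ℂ) := Complex.ext (by simp) (by simp [him])
    have e4 : u t = ((dd t).re : ℂ) * q t := by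
      rw [← hre]
      simp only [hu, hdd, hq]
      field_simp
    have := InfGerm.norm_lt_of ht e4 c'
    rw [← b'] at this
    refine ⟨this.1, this.2, fun hp => ?_⟩
    have e5 : dd (θ t) = r t * dd t := by
      have : dd (θ t) = (t * (1 + u t)) ^ (k + 1) * g1 (θ t) := by
        rw [← b']
      rw [this, mul_pow]
      simp only [hr, hdd]
      field_simp
    rw [e5, mul_re, him, mul_zero, sub_zero] at hp
    exact (pos_iff_pos_of_mul_pos hp).1 d'

end Pool.Agent.Lib.MP_6db618_an
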