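import Mathlib
import Pool.Agent.Lib.MP_6db618_an.InfGerm

set_option autoImplicit false

namespace Pool.Agent.Lib.MP_6db618_an

open Set Filter Topology Complex Polynomial

/-- Linear coefficient and translation part of a germ at the level `ν`. -/
def Lv (ν : ℕ) (θ : ℂ → ℂ) (c b : ℂ) : Prop :=
  deriv θ 0 = c ∧ Tendsto (fun t => (θ t ^ ν)⁻¹ - (c ^ ν)⁻¹ * (t ^ ν)⁻¹) (𝓝[≠] 0) (𝓝 b)

section level

variable {A A' A'' : Set ℂ} {μ μ' μ'' : ℂ → ℕ} {θ φ : ℂ → ℂ} {ν : ℕ} {b b' c c' : ℂ}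

theorem Gm.lv_tendsto (h : Gm A μ A' μ' θ) : Tendsto θ (𝓝[≠] 0) (𝓝[≠] 0) := by
  have := h.an.differentiableAt.hasDerivAt.tendsto_nhdsNE h.ne
  rwa [h.zero] at this

theorem Gm.lv_deriv_comp (h : Gm A μ A' μ' θ) (h' : Gm A' μ' A'' μ'' φ) :
    deriv (φ ∘ θ) 0 = deriv φ 0 * deriv θ 0 := by
  have h1 : HasDerivAt φ (deriv φ 0) (θ 0) := by
    rw [h.zero]
    exact h'.an.differentiableAt.hasDerivAt
  exact (h1.comp 0 h.an.differentiableAt.hasDerivAt).deriv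

theorem Lv.comp (h : Gm A μ A' μ' θ) (h' : Gm A' μ' A'' μ'' φ) (l : Lv ν θ c b)
    (l' : Lv ν φ c' b') : Lv ν (φ ∘ θ) (c' * c) (b' + (c' ^ ν)⁻¹ * b) := by
  refine ⟨by rw [h.lv_deriv_comp h', l.1, l'.1], ?_⟩
  refine ((l'.2.comp h.lv_tendsto).add (l.2.const_mul (c' ^ ν)⁻¹)).congr fun t => ?_
  simp only [Function.comp_apply, mul_pow, mul_inv]
  ring

theorem Lv.inv (h : Gm A μ A' μ' θ) (l : Lv ν θ c b) :
    ∃ φ, Gm A' μ' A μ φ ∧ Lv ν φ c⁻¹ (-(c ^ ν * b)) := by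
  obtain ⟨φ, h', h1, h2⟩ := h.inv
  have hc : c ≠ 0 := l.1 ▸ h.ne
  have hd : deriv φ 0 * c = 1 := by
    rw [← l.1, ← h.lv_deriv_comp h']
    have : φ ∘ θ =ᶠ[𝓝 0] id := h1
    rw [this.deriv_eq, deriv_id]
  refine ⟨φ, h', eq_inv_of_mul_eq_one_left hd, ?_⟩
  refine ((l.2.comp h'.lv_tendsto).const_mul (c ^ ν)).neg.congr' ?_
  filter_upwards [nhdsWithin_le_nhds h2] with t ht
  have hcν : c ^ ν ≠ 0 := pow_ne_zero _ hc
  simp only [Function.comp_apply, ht, inv_pow, inv_inv]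
  field_simp
  ring

theorem Lv.of_linear (h : ∀ᶠ t in 𝓝 (0 : ℂ), θ t = c * t) : Lv ν θ c 0 := by
  have h1 : θ =ᶠ[𝓝 0] fun t => c * t := h
  refine ⟨by rw [h1.deriv_eq]; simp, tendsto_const_nhds.congr' ?_⟩
  filter_upwards [nhdsWithin_le_nhds h] with t ht
  rw [ht, mul_pow, mul_inv, sub_self]

theorem Lv.unique (l : Lv ν θ c b) (l' : Lv ν θ c' b') : c = c' ∧ b = b' := by
  have h : c = c' := l.1.symm.trans l'.1
  subst h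
  exact ⟨rfl, tendsto_nhds_unique l.2 l'.2⟩

theorem Lv.eq_zero (hA : ∃ᶠ t in 𝓝[≠] (0 : ℂ), t ∈ A) (hμ : ∀ t ∈ A, 0 < μ t)
    (h : Gm A μ A μ θ) (l : Lv ν θ 1 b) : b = 0 :=
  (l.unique (Lv.of_linear (c := 1) (by simpa using h.eq_id hA hμ l.1))).2

theorem Lv.eq_of_same (hA : ∃ᶠ t in 𝓝[≠] (0 : ℂ), t ∈ A) (hμ : ∀ t ∈ A, 0 < μ t)
    (h : Gm A μ A' μ' θ) (h' : Gm A μ A' μ' φ) (l : Lv ν θ c b) (l' : Lv ν φ c b') : b = b' := by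
  obtain ⟨ψ, hψ, lψ⟩ := l.inv h
  have hc : c ≠ 0 := l.1 ▸ h.ne
  have l2 := Lv.comp h' hψ l' lψ
  rw [inv_mul_cancel₀ hc] at l2
  have h3 := Lv.eq_zero hA hμ (h'.comp hψ) l2
  rw [inv_pow, inv_inv] at h3
  exact mul_left_cancel₀ (pow_ne_zero ν hc) (by linear_combination -h3)

theorem Lv.iter (h : Gm A μ A μ θ) (l : Lv ν θ c b) (hc : c ^ ν = 1) (m : ℕ) :
    ∃ φ, Gm A μ A μ φ ∧ Lv ν φ (c ^ (m + 1)) ((m + 1 : ℕ) * b) := by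
  induction m with
  | zero => exact ⟨θ, h, by simpa using l⟩
  | succ m ih =>
    obtain ⟨φ, hφ, lφ⟩ := ih
    refine ⟨θ ∘ φ, hφ.comp h, ?_⟩
    have := Lv.comp hφ h lφ l
    rw [hc, inv_one, one_mul, ← pow_succ'] at this
    convert this using 1
    push_cast
    ring

theorem Lv.eq_zero_of_pow (hA : ∃ᶠ t in 𝓝[≠] (0 : ℂ), t ∈ A) (hμ : ∀ t ∈ A, 0 < μ t)
    (hν : 0 < ν) (h : Gm A μ A μ θ) (l : Lv ν θ c b) (hc : c ^ ν = 1) : b = 0 := by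
  obtain ⟨m, rfl⟩ : ∃ m, ν = m + 1 := ⟨ν - 1, by omega⟩
  obtain ⟨φ, hφ, lφ⟩ := l.iter h hc m
  rw [hc] at lφ
  exact (mul_eq_zero.1 (Lv.eq_zero hA hμ hφ lφ)).resolve_left
    (Nat.cast_ne_zero.2 (Nat.succ_ne_zero m))

theorem exists_fixed_level (hA : ∃ᶠ t in 𝓝[≠] (0 : ℂ), t ∈ A) (hμ : ∀ t ∈ A, 0 < μ t)
    (hν : 0 < ν) : ∃ η : ℂ, ∀ (θ : ℂ → ℂ) (c b : ℂ), Gm A μ A μ θ → Lv ν θ c b →
      (c ^ ν)⁻¹ * η + b = η := by
  by_cases hall : ∀ (θ : ℂ → ℂ) (c b : ℂ), Gm A μ A μ θ → Lv ν θ c b → c ^ ν = 1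
  · refine ⟨0, fun θ c b h l => ?_⟩
    rw [mul_zero, zero_add]
    exact Lv.eq_zero_of_pow hA hμ hν h l (hall θ c b h l)
  · push Not at hall
    obtain ⟨θ0, c0, b0, h0, l0, hc0⟩ := hall
    have hne : 1 - (c0 ^ ν)⁻¹ ≠ 0 := fun h => hc0 (inv_eq_one.1 (sub_eq_zero.1 h).symm)
    refine ⟨b0 / (1 - (c0 ^ ν)⁻¹), fun θ c b h l => ?_⟩
    have l1 := Lv.comp h0 h l0 l
    have l2 := Lv.comp h h0 l l0
    rw [mul_comm c0 c] at l2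
    have h3 := Lv.eq_of_same hA hμ (h0.comp h) (h.comp h0) l1 l2
    generalize (c0 ^ ν)⁻¹ = x0 at hne h3
    generalize (c ^ ν)⁻¹ = x at h3
    field_simp
    linear_combination h3

theorem Lv.of_form {g : ℂ → ℂ} (hν : 0 < ν) (hc : deriv θ 0 = c) (hc0 : c ≠ 0)
    (hg : ContinuousAt g 0) (h : ∀ᶠ t in 𝓝 (0 : ℂ), θ t = c * t * (1 + t ^ ν * g t)) :
    Lv ν θ c (-((c ^ ν)⁻¹ * (ν * g 0))) := by
  refine ⟨hc, ?_⟩
  have hu : ContinuousAt (fun t : ℂ => 1 + t ^ ν * g t) 0 := by fun_prop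
  have hu0 : 1 + (0 : ℂ) ^ ν * g 0 = 1 := by rw [zero_pow hν.ne', zero_mul, add_zero]
  have h1 : ContinuousAt (fun t : ℂ => -((c ^ ν)⁻¹ * (((1 + t ^ ν * g t) ^ ν)⁻¹ *
      ((∑ i ∈ Finset.range ν, (1 + t ^ ν * g t) ^ i) * g t)))) 0 := by
    refine (continuousAt_const.mul (((hu.pow ν).inv₀ ?_).mul (ContinuousAt.mul ?_ hg))).neg
    · change (1 + (0 : ℂ) ^ ν * g 0) ^ ν ≠ 0
      rw [hu0, one_pow]
      exact one_ne_zero
    · exact tendsto_finsetSum _ fun i _ => hu.pow i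
  have h2 := h1.tendsto
  simp only [hu0, one_pow, inv_one, one_mul, Finset.sum_const, Finset.card_range, nsmul_eq_mul,
    mul_one] at h2
  refine (h2.mono_left nhdsWithin_le_nhds).congr' ?_
  have hne : ∀ᶠ t in 𝓝 (0 : ℂ), 1 + t ^ ν * g t ≠ 0 :=
    hu.eventually_ne (by simp only [hu0]; exact one_ne_zero)
  filter_upwards [nhdsWithin_le_nhds h, nhdsWithin_le_nhds hne, self_mem_nhdsWithin]
    with t ht hne ht0
  have ht0' : t ≠ 0 := ht0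
  have h3 := geom_sum_mul (1 + t ^ ν * g t) ν
  rw [add_sub_cancel_left] at h3
  rw [ht, mul_pow, mul_pow]
  have h4 : (1 + t ^ ν * g t) ^ ν ≠ 0 := pow_ne_zero _ hne
  have h5 : t ^ ν ≠ 0 := pow_ne_zero _ ht0'
  have h6 : c ^ ν ≠ 0 := pow_ne_zero _ hc0
  generalize ∑ i ∈ Finset.range ν, (1 + t ^ ν * g t) ^ i = s at h3
  generalize (1 + t ^ ν * g t) ^ ν = y at h3 h4
  generalize t ^ ν = x at h3 h5
  generalize c ^ ν = d at h6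
  field_simp
  linear_combination -h3

theorem Gm.exists_form (h : Gm A μ A' μ' θ) (hl : ¬ ∀ᶠ t in 𝓝 (0 : ℂ), θ t = deriv θ 0 * t) :
    ∃ (m : ℕ) (g : ℂ → ℂ), 0 < m ∧ ContinuousAt g 0 ∧ g 0 ≠ 0 ∧
      ∀ᶠ t in 𝓝 (0 : ℂ), θ t = deriv θ 0 * t * (1 + t ^ m * g t) := by
  have hF : AnalyticAt ℂ (fun t => θ t - deriv θ 0 * t) 0 := h.an.sub (by fun_prop)
  obtain ⟨n, g, hg, hg0, hev⟩ := hF.exists_eventuallyEq_pow_smul_nonzero_iff.2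
    fun h1 => hl (h1.mono fun t ht => sub_eq_zero.1 ht)
  simp only [sub_zero, smul_eq_mul] at hev
  have hn0 : n ≠ 0 := by
    rintro rfl
    have := hev.self_of_nhds
    rw [h.zero] at this
    exact hg0 (by simpa using this.symm)
  have hn1 : n ≠ 1 := by
    rintro rfl
    have h1 : (fun t => θ t - deriv θ 0 * t) =ᶠ[𝓝 0] fun t => t ^ 1 * g t := hev
    have h2 : HasDerivAt (fun t => θ t - deriv θ 0 * t) (deriv θ 0 - deriv θ 0 * 1) 0 :=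
      h.an.differentiableAt.hasDerivAt.sub ((hasDerivAt_id (0 : ℂ)).const_mul _)
    have h3 : HasDerivAt (fun t : ℂ => t ^ 1 * g t) (g 0) 0 := by
      have := (hasDerivAt_id' (0 : ℂ)).fun_mul hg.differentiableAt.hasDerivAt
      simp only [one_mul, zero_mul, add_zero] at this
      simpa only [pow_one] using this
    have h4 := h1.deriv_eq
    rw [h2.deriv, h3.deriv] at h4
    exact hg0 (by rw [← h4]; ring)
  obtain ⟨m, rfl⟩ : ∃ m, n = m + 1 := ⟨n - 1, by omega⟩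
  refine ⟨m, fun t => (deriv θ 0)⁻¹ * g t, by omega, continuousAt_const.mul hg.continuousAt,
    mul_ne_zero (inv_ne_zero h.ne) hg0, hev.mono fun t ht => ?_⟩
  have := h.ne
  field_simp
  linear_combination ht

theorem gm_rot {ω : ℂ} (hω : ω ≠ 0) (h : ∀ t, (ω * t ∈ A ↔ t ∈ A) ∧ μ (ω * t) = μ t) :
    Gm A μ A μ fun t => ω * t := by
  have hd : ∀ t : ℂ, deriv (fun t => ω * t) t = ω := fun t => by simp
  refine ⟨by fun_prop, mul_zero _, by rwa [hd], Eventually.of_forall fun t =>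
    ⟨(h t).1.symm, fun _ => ?_⟩⟩
  rw [(h t).2, hd, mul_comm ω t]

end level

theorem swap_data {K : Type} [Finite K] {N : ℕ} (hN : 0 < N) (A : Fin 4 → Set ℂ)
    (μ : Fin 4 → ℂ → ℕ) (hA : ∃ᶠ t in 𝓝[≠] (0 : ℂ), t ∈ A 0) (hμ : ∀ t ∈ A 0, 0 < μ 0 t)
    (hrot : ∀ i (ω t : ℂ), ω ^ N = 1 → (ω * t ∈ A i ↔ t ∈ A i) ∧ μ i (ω * t) = μ i t)
    (θ : K → Fin 4 → ℂ → ℂ) (hθ : ∀ k j, Gm (A 0) (μ 0) (A j) (μ j) (θ k j))
    (h0 : ∀ k t, θ k 0 t = t) :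
    (∀ k j, ∃ c : ℂ, c ≠ 0 ∧ ∀ᶠ t in 𝓝 (0 : ℂ), θ k j t = c * t) ∨
      ∃ n : ℕ, 0 < n ∧ ∃ η : Fin 4 → ℂ, η ≠ 0 ∧ ∀ k j, ∃ c : ℂ,
        Tendsto (fun t => (θ k j t ^ N)⁻¹ ^ n - η j - c * ((t ^ N)⁻¹ ^ n - η 0))
          (𝓝[≠] 0) (𝓝 0) := by
  classical
  have _ := h0
  by_cases hlin : ∀ k j, ∀ᶠ t in 𝓝 (0 : ℂ), θ k j t = deriv (θ k j) 0 * t
  · exact Or.inl fun k j => ⟨_, (hθ k j).ne, hlin k j⟩
  right
  have hex : ∃ m : ℕ, ∃ (k : K) (j : Fin 4) (g : ℂ → ℂ), 0 < m ∧ ContinuousAt g 0 ∧ g 0 ≠ 0 ∧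
      ∀ᶠ t in 𝓝 (0 : ℂ), θ k j t = deriv (θ k j) 0 * t * (1 + t ^ m * g t) := by
    obtain ⟨k, hk⟩ := not_forall.1 hlin
    obtain ⟨j, hj⟩ := not_forall.1 hk
    obtain ⟨m, g, h⟩ := (hθ k j).exists_form hj
    exact ⟨m, k, j, g, h⟩
  obtain ⟨k0, j0, g0, hν, hg0, hg0', hf0⟩ := Nat.find_spec hex
  have hmin : ∀ (m : ℕ) (k : K) (j : Fin 4) (g : ℂ → ℂ), 0 < m → ContinuousAt g 0 → g 0 ≠ 0 →
      (∀ᶠ t in 𝓝 (0 : ℂ), θ k j t = deriv (θ k j) 0 * t * (1 + t ^ m * g t)) →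
      Nat.find hex ≤ m := fun m k j g h1 h2 h3 h4 => Nat.find_min' hex ⟨k, j, g, h1, h2, h3, h4⟩
  generalize Nat.find hex = ν at hν hf0 hmin
  have hlv : ∀ k j, ∃ b, Lv ν (θ k j) (deriv (θ k j) 0) b := by
    intro k j
    by_cases hl : ∀ᶠ t in 𝓝 (0 : ℂ), θ k j t = deriv (θ k j) 0 * t
    · exact ⟨0, Lv.of_linear hl⟩
    · obtain ⟨m, g, h1, h2, h3, h4⟩ := (hθ k j).exists_form hl
      obtain ⟨d, rfl⟩ := Nat.exists_eq_add_of_le (hmin m k j g h1 h2 h3 h4)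
      refine ⟨_, Lv.of_form (g := fun t => t ^ d * g t) hν rfl (hθ k j).ne (by fun_prop)
        (h4.mono fun t ht => ?_)⟩
      rw [ht, pow_add, mul_assoc (t ^ ν)]
  choose b hb using hlv
  have hb0 : b k0 j0 ≠ 0 := by
    rw [((hb k0 j0).unique (Lv.of_form hν rfl (hθ k0 j0).ne hg0 hf0)).2]
    exact neg_ne_zero.2 (mul_ne_zero (inv_ne_zero (pow_ne_zero _ (hθ k0 j0).ne))
      (mul_ne_zero (Nat.cast_ne_zero.2 hν.ne') hg0'))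
  have hdvd : N ∣ ν := by
    have hprim := isPrimitiveRoot_exp N hN.ne'
    generalize cexp (2 * Real.pi * I / N) = ω at hprim
    have hω : ω ≠ 0 := hprim.ne_zero hN.ne'
    have r0 := gm_rot hω fun t => hrot 0 ω t hprim.pow_eq_one
    have rj := gm_rot hω fun t => hrot j0 ω t hprim.pow_eq_one
    have lr : Lv ν (fun t => ω * t) ω 0 := Lv.of_linear (Eventually.of_forall fun _ => rfl)
    have l1 := Lv.comp r0 (hθ k0 j0) lr (hb k0 j0)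
    have l2 := Lv.comp (hθ k0 j0) rj (hb k0 j0) lr
    rw [mul_comm ω] at l2
    have h3 := Lv.eq_of_same hA hμ (r0.comp (hθ k0 j0)) ((hθ k0 j0).comp rj) l1 l2
    rw [mul_zero, add_zero, zero_add] at h3
    refine hprim.dvd_of_pow_eq_one ν (inv_eq_one.1 (mul_right_cancel₀ hb0 ?_))
    rw [← h3, one_mul]
  obtain ⟨n, rfl⟩ := hdvd
  obtain ⟨η0, hη0⟩ := exists_fixed_level hA hμ hν
  have hfix : ∀ k j, (deriv (θ k j) 0 ^ (N * n))⁻¹ * η0 + b k j =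
      (deriv (θ k0 j) 0 ^ (N * n))⁻¹ * η0 + b k0 j := by
    intro k j
    obtain ⟨ψ, hψ, lψ⟩ := (hb k0 j).inv (hθ k0 j)
    have h1 := hη0 _ _ _ ((hθ k j).comp hψ) (Lv.comp (hθ k j) hψ (hb k j) lψ)
    have h2 : deriv (θ k0 j) 0 ^ (N * n) ≠ 0 := pow_ne_zero _ (hθ k0 j).ne
    rw [mul_pow, inv_pow, mul_inv, inv_inv] at h1
    generalize (deriv (θ k j) 0 ^ (N * n))⁻¹ = x at h1
    generalize deriv (θ k0 j) 0 ^ (N * n) = y at h1 h2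
    field_simp
    linear_combination h1
  have hz : (deriv (θ k0 0) 0 ^ (N * n))⁻¹ * η0 + b k0 0 = η0 := hη0 _ _ _ (hθ k0 0) (hb k0 0)
  refine ⟨n, Nat.pos_of_mul_pos_left hν, fun j =>
    (deriv (θ k0 j) 0 ^ (N * n))⁻¹ * η0 + b k0 j, fun h => hb0 ?_, fun k j =>
      ⟨(deriv (θ k j) 0 ^ (N * n))⁻¹, ?_⟩⟩
  · have h1 := congrFun h 0
    have h2 := congrFun h j0
    simp only [Pi.zero_apply] at h1 h2
    rw [hz] at h1
    rwa [h1, mul_zero, zero_add] at h2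
  · have h1 := (hb k j).2.sub_const (b k j)
    rw [sub_self] at h1
    refine h1.congr fun t => ?_
    simp only [hz, ← hfix k j, inv_pow, ← pow_mul]
    ring

end Pool.Agent.Lib.MP_6db618_an
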