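import Mathlib
import Pool.Agent.Lib.MP_6db618_an.InfLevel

set_option autoImplicit false

namespace Pool.Agent.Lib.MP_6db618_an

open Set Filter Topology Complex Polynomial

/-- Finitely many poles and an essential singularity at infinity. -/
structure Ess (S : Sys) : Prop where
  fin : (S.Ωᶜ).Finite
  unb : ∀ M : ℝ, ∃ᶠ w in Bornology.cobounded ℂ, M < ‖S.H w‖
  osc : ∃ M : ℝ, ∃ᶠ w in Bornology.cobounded ℂ, ‖S.H w‖ < M

/-- A function continuous and unbounded in punctured neighbourhoods of the origin. -/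
structure Wild (Φ : ℂ → ℝ) : Prop where
  cont : ∀ᶠ t in 𝓝[≠] (0 : ℂ), ContinuousAt Φ t
  unb : ∀ M : ℝ, ∃ᶠ t in 𝓝[≠] (0 : ℂ), M < Φ t

/-- Germs of local biholomorphisms at `0` compatible with two real functions. -/
structure Gf (Φ Φ' : ℂ → ℝ) (θ : ℂ → ℂ) : Prop where
  gm : Gm ∅ (fun _ => 0) ∅ (fun _ => 0) θ
  ev : ∀ᶠ t in 𝓝[≠] (0 : ℂ), Φ' (θ t) = Φ t

/-- Finite order. -/
def FinOrd (f : ℂ → ℂ) : Prop := ∃ ρ R : ℝ, ∀ z : ℂ, R ≤ ‖z‖ → ‖f z‖ ≤ Real.exp (‖z‖ ^ ρ)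

theorem gm_empty {θ : ℂ → ℂ} (h1 : AnalyticAt ℂ θ 0) (h2 : θ 0 = 0) (h3 : deriv θ 0 ≠ 0) :
    Gm ∅ (fun _ => 0) ∅ (fun _ => 0) θ :=
  ⟨h1, h2, h3, Eventually.of_forall fun _ => ⟨Iff.rfl, fun h => h.elim⟩⟩

end Pool.Agent.Lib.MP_6db618_an
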