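import Mathlib
import Pool.Agent.Lib.MP_6db618_an.InfDefs

set_option autoImplicit false

namespace Pool.Agent.Lib.MP_6db618_an

open Set Filter Topology Complex Polynomial

variable {ι : Type} {S : ι → Sys} {a : ℂ} {x : ι → ℂ}

theorem infcorr_continuous (R : ℂ[X][X]) : Continuous fun p : ℂ × ℂ => R.evalEval p.1 p.2 := by
  induction R using Polynomial.induction_on' with
  | add p q hp hq =>
    simp only [evalEval_add]
    exact hp.add hq
  | monomial n c =>
    simp only [← C_mul_X_pow_eq_monomial, evalEval_mul, evalEval_C, evalEval_pow, evalEval_X]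
    exact (c.continuous.comp continuous_fst).mul (continuous_snd.pow n)

theorem infcorr_mem {T U : Sys} {p q : ℕ → ℂ} {z w : ℂ} (hp : Tendsto p atTop (𝓝 z))
    (hq : Tendsto q atTop (𝓝 w)) (h : ∀ n, q n ∈ U.Ω ∧ U.H (q n) = T.H (p n)) (hz : z ∈ T.Ω) :
    w ∈ U.Ω := by
  have h1 := ((T.continuousAt hz).tendsto.comp hp).norm.eventually_le_const
    (lt_add_one ‖T.H z‖)
  refine U.mem_of_frequently (C := ‖T.H z‖ + 1) (hq.frequently (h1.mono fun n hn => ?_).frequently)
  exact ⟨(h n).1, (h n).2 ▸ hn⟩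

theorem infcorr_closure {T U : Sys} {G : Set (ℂ × ℂ)}
    (hG : ∀ p ∈ G, p.1 ∈ T.Ω ∧ p.2 ∈ U.Ω ∧ U.H p.2 = T.H p.1) {p : ℂ × ℂ} (hp : p ∈ closure G) :
    (p.1 ∈ T.Ω ↔ p.2 ∈ U.Ω) ∧ (p.1 ∈ T.Ω → U.H p.2 = T.H p.1) := by
  obtain ⟨f, hf, hlim⟩ := mem_closure_iff_seq_limit.1 hp
  have h1 : Tendsto (fun n => (f n).1) atTop (𝓝 p.1) := (continuous_fst.tendsto p).comp hlim
  have h2 : Tendsto (fun n => (f n).2) atTop (𝓝 p.2) := (continuous_snd.tendsto p).comp hlim
  have h3 : p.1 ∈ T.Ω → p.2 ∈ U.Ω := infcorr_mem h1 h2 fun n => (hG _ (hf n)).2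
  refine ⟨⟨h3, infcorr_mem h2 h1 fun n => ⟨(hG _ (hf n)).1, (hG _ (hf n)).2.2.symm⟩⟩,
    fun hz => ?_⟩
  refine tendsto_nhds_unique ((U.continuousAt (h3 hz)).tendsto.comp h2) ?_
  exact ((T.continuousAt hz).tendsto.comp h1).congr fun n => (hG _ (hf n)).2.2.symm

theorem infcorr_natDegree (R : ℂ[X][X]) : ∃ e, ∀ w : ℂ, (R.eval (C w)).natDegree ≤ e := by
  refine ⟨(Finset.range (R.natDegree + 1)).sup fun k => (R.coeff k).natDegree, fun w => ?_⟩
  rw [eval_eq_sum_range]
  refine natDegree_sum_le_of_forall_le _ _ fun k hk => ?_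
  rw [← C_pow]
  exact (natDegree_mul_C_le _ _).trans (Finset.le_sup (f := fun k => (R.coeff k).natDegree) hk)

theorem infcorr_bound (p : ℂ[X]) :
    ∃ B : ℝ, 0 ≤ B ∧ ∀ z, ‖p.eval z‖ ≤ B * (1 + ‖z‖) ^ p.natDegree := by
  refine ⟨∑ k ∈ Finset.range (p.natDegree + 1), ‖p.coeff k‖, by positivity, fun z => ?_⟩
  rw [eval_eq_sum_range, Finset.sum_mul]
  refine (norm_sum_le _ _).trans (Finset.sum_le_sum fun k hk => ?_)
  rw [norm_mul, norm_pow]
  refine mul_le_mul_of_nonneg_left ?_ (norm_nonneg _)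
  exact (pow_le_pow_left₀ (norm_nonneg z) (le_add_of_nonneg_left zero_le_one) k).trans
    (pow_le_pow_right₀ (le_add_of_nonneg_right (norm_nonneg z))
      (Nat.lt_succ_iff.1 (Finset.mem_range.1 hk)))

theorem norm_eval_le {q : ℂ[X]} {d : ℕ} (hd : q.natDegree ≤ d) {z z' : ℂ} {ε : ℝ}
    (h : ∀ w ∈ Metric.ball z ε, q.eval w ≠ 0) (hz : ‖z' - z‖ ≤ ε) :
    ‖q.eval z'‖ ≤ 2 ^ d * ‖q.eval z‖ := by
  have key : ∀ s : Multiset ℂ, (∀ w ∈ s, w ∉ Metric.ball z ε) →
      ‖((s.map fun w => X - C w).prod).eval z'‖ ≤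
        2 ^ Multiset.card s * ‖((s.map fun w => X - C w).prod).eval z‖ := by
    intro s
    induction s using Multiset.induction_on with
    | empty => simp
    | cons w s ih =>
      intro hs
      have h1 := ih fun v hv => hs v (Multiset.mem_cons_of_mem hv)
      have h2 : ε ≤ ‖z - w‖ := by
        have := hs w (Multiset.mem_cons_self w s)
        rwa [Metric.mem_ball, not_lt, dist_comm, dist_eq_norm] at this
      have h3 : ‖z' - w‖ ≤ 2 * ‖z - w‖ := by
        have := norm_add_le (z' - z) (z - w)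
        rw [sub_add_sub_cancel] at this
        linarith
      simp only [Multiset.map_cons, Multiset.prod_cons, eval_mul, eval_sub, eval_X, eval_C,
        norm_mul, Multiset.card_cons]
      calc _ ≤ (2 * ‖z - w‖) *
            (2 ^ Multiset.card s * ‖((s.map fun w => X - C w).prod).eval z‖) :=
            mul_le_mul h3 h1 (norm_nonneg _) (by positivity)
        _ = _ := by ring
  have hc : Multiset.card q.roots = q.natDegree := IsAlgClosed.card_roots_eq_natDegree
  have hq := C_leadingCoeff_mul_prod_multiset_X_sub_C hc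
  have h1 := key q.roots fun w hw hb => h w hb (isRoot_of_mem_roots hw)
  have h2 : (2 : ℝ) ^ Multiset.card q.roots ≤ 2 ^ d :=
    pow_le_pow_right₀ one_le_two (hc.le.trans hd)
  have h3 := h1.trans (mul_le_mul_of_nonneg_right h2 (norm_nonneg _))
  conv_lhs => rw [← hq]
  conv_rhs => rw [← hq]
  simp only [eval_mul, eval_C, norm_mul]
  calc _ ≤ ‖q.leadingCoeff‖ * (2 ^ d * ‖((q.roots.map fun w => X - C w).prod).eval z‖) :=
        mul_le_mul_of_nonneg_left h3 (norm_nonneg _)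
    _ = _ := by ring

theorem corr_of_alg [Fintype ι] (h : Pt S a x) {i j : ι} {R : ℂ[X][X]} {E : Set ℂ} {d : ℕ}
    (hE : E.Finite) (hd : 0 < d) (hR : R.natDegree ≤ d)
    (hz : ∀ z ∈ Rch S a x i, z ∉ E → ∃ (c : ℂ) (g : Fin d → ℂ), c ≠ 0 ∧ Function.Injective g ∧
        range g = {w | Pair S a x i j z w} ∧
        R.map (evalRingHom z) = C c * ∏ l, (X - C (g l))) :
    ∃ R' : ℂ[X][X], Corr (S i) (S j) R' ∧ ∀ z w, Pair S a x i j z w → R'.evalEval z w = 0 := by
  have hdense := h.dense_Rch i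
  have hR0 : R ≠ 0 := by
    obtain ⟨z, hz1, hz2⟩ := (hdense.sdiff_finite hE).nonempty
    obtain ⟨c, g, hc, -, -, he⟩ := hz z hz1 hz2
    rintro rfl
    rw [Polynomial.map_zero] at he
    exact mul_ne_zero (C_ne_zero.2 hc) (monic_prod_X_sub_C g _).ne_zero he.symm
  have hcont : R.content ≠ 0 := fun h0 => hR0 (content_eq_zero_iff.1 h0)
  set E' : Set ℂ := E ∪ {z | IsRoot R.content z} with hE'def
  have hE' : E'.Finite := hE.union (finite_setOfPred_isRoot hcont)
  have hz' : ∀ z ∈ Rch S a x i, z ∉ E' → ∃ (c : ℂ) (g : Fin d → ℂ), c ≠ 0 ∧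
      Function.Injective g ∧ range g = {w | Pair S a x i j z w} ∧
      R.primPart.map (evalRingHom z) = C c * ∏ l, (X - C (g l)) := by
    intro z hz1 hz2
    obtain ⟨c, g, hc, hg, hr, he⟩ := hz z hz1 fun h0 => hz2 (Or.inl h0)
    have h0 : R.content.eval z ≠ 0 := fun h0 => hz2 (Or.inr h0)
    refine ⟨(R.content.eval z)⁻¹ * c, g, mul_ne_zero (inv_ne_zero h0) hc, hg, hr, ?_⟩
    rw [eq_C_content_mul_primPart R, Polynomial.map_mul, map_C, coe_evalRingHom] at he
    rw [C_mul, mul_assoc, ← he, ← mul_assoc, ← C_mul, inv_mul_cancel₀ h0, C_1, one_mul]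
  have hroot : ∀ z ∈ Rch S a x i, z ∉ E' → ∀ w,
      R.primPart.evalEval z w = 0 ↔ Pair S a x i j z w := by
    intro z hz1 hz2 w
    obtain ⟨c, g, hc, -, hr, he⟩ := hz' z hz1 hz2
    rw [← map_evalRingHom_eval, he, eval_mul, eval_C, eval_prod, mul_eq_zero,
      Finset.prod_eq_zero_iff]
    simp only [hc, false_or, eval_sub, eval_X, eval_C, Finset.mem_univ, true_and, sub_eq_zero]
    change _ ↔ w ∈ {w | Pair S a x i j z w}
    rw [← hr]
    exact ⟨fun ⟨l, hl⟩ => ⟨l, hl.symm⟩, fun ⟨l, hl⟩ => ⟨l, hl.symm⟩⟩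
  have hdeg : R.primPart.natDegree ≤ d := by rwa [natDegree_primPart]
  have hne : ∀ z, R.primPart.map (evalRingHom z) ≠ 0 := by
    intro z h0
    refine not_isUnit_X_sub_C z (isPrimitive_primPart R _ ((C_dvd_iff_dvd_coeff _ _).2 fun k => ?_))
    rw [dvd_iff_isRoot]
    have := congrArg (fun p => coeff p k) h0
    simpa [coeff_map] using this
  obtain ⟨z₀, hz1, hz2⟩ := (hdense.sdiff_finite hE').nonempty
  obtain ⟨c, g, hc, hg, -, he⟩ := hz' z₀ hz1 hz2
  have hd0 : (R.primPart.map (evalRingHom z₀)).natDegree = d := by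
    rw [he, natDegree_C_mul hc, natDegree_finsetProd_X_sub_C_eq_card, Finset.card_univ,
      Fintype.card_fin]
  have hd1 : R.primPart.natDegree = d := le_antisymm hdeg (hd0 ▸ natDegree_map_le)
  refine ⟨R.primPart, ⟨hne, hd1 ▸ hd, fun z w hzw => ?_, z₀, ?_, hd0.trans hd1.symm⟩,
    fun z w hzw => ?_⟩
  · refine infcorr_closure (G := {p | Pair S a x i j p.1 p.2}) ?_ (p := (z, w)) ?_
    · rintro ⟨z', w'⟩ ⟨b, u, hu, h1, h2⟩
      have e1 := (h.tr hu).fib i
      have e2 := (h.tr hu).fib j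
      simp only at h1 h2 e1 e2
      rw [h1] at e1
      rw [h2] at e2
      exact ⟨e1.1, e2.1, e2.2.trans e1.2.symm⟩
    · by_contra hcl
      rw [Metric.mem_closure_iff] at hcl
      push Not at hcl
      obtain ⟨ε, hε, hcl⟩ := hcl
      apply hne z
      apply eq_zero_of_infinite_isRoot
      refine Set.Infinite.mono (s := Metric.ball w ε) (fun w' hw' => ?_)
        (infinite_of_mem_nhds w (Metric.ball_mem_nhds w hε))
      have hw'' : ‖w' - w‖ ≤ ε := (mem_ball_iff_norm.1 hw').le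
      have hcl2 : IsClosed {z' : ℂ | ‖R.primPart.evalEval z' w'‖ ≤
          2 ^ d * ‖R.primPart.evalEval z' w‖} := by
        have c1 := (infcorr_continuous R.primPart).comp (Continuous.prodMk_left w')
        have c2 := (infcorr_continuous R.primPart).comp (Continuous.prodMk_left w)
        exact isClosed_le c1.norm (continuous_const.mul c2.norm)
      have hmem : z ∈ closure (Metric.ball z ε ∩ (Rch S a x i \ E')) :=
        (hdense.sdiff_finite hE').open_subset_closure_inter Metric.isOpen_ball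
          (Metric.mem_ball_self hε)
      have hle := hcl2.closure_subset_iff.2 (fun z' hz' => ?_) hmem
      · rw [mem_ofPred_eq, hzw, norm_zero, mul_zero, norm_le_zero_iff] at hle
        rwa [mem_ofPred_eq, IsRoot.def, map_evalRingHom_eval]
      · rw [mem_ofPred_eq, ← map_evalRingHom_eval, ← map_evalRingHom_eval]
        refine norm_eval_le (natDegree_map_le.trans hdeg) (fun v hv h0 => ?_) hw''
        rw [map_evalRingHom_eval, hroot z' hz'.2.1 hz'.2.2] at h0
        have := hcl (z', v) h0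
        rw [Prod.dist_eq, le_max_iff] at this
        rcases this with h1 | h1
        · exact absurd (Metric.mem_ball'.1 hz'.1) (not_lt.2 h1)
        · exact absurd (Metric.mem_ball'.1 hv) (not_lt.2 h1)
  · rw [he]
    exact Separable.unit_mul (isUnit_C.2 hc.isUnit) (separable_prod_X_sub_C_iff.2 hg)
  · obtain ⟨b, u, hu, rfl, rfl⟩ := hzw
    have hp := h.tr hu
    obtain ⟨η, hη, -, N, ψ, hψ⟩ := exists_charts hp.reg (fun k => (hp.fib k).2) univ_mem
    have hb : b ∈ Sq b η := mem_Sq_self b hη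
    have hψb : ∀ k, ψ k b = u k (x k) := fun k => by
      have := ((hψ k).1.left _ (hψ k).2).2
      rwa [(hp.fib k).2] at this
    have hca : ∀ k, ContinuousAt (ψ k) b := fun k =>
      (hψ k).1.cont.continuousAt ((isOpen_Sq b η).mem_nhds hb)
    have hF : ContinuousAt (fun b' => R.primPart.evalEval (ψ i b') (ψ j b')) b :=
      (infcorr_continuous R.primPart).continuousAt.comp ((hca i).prodMk (hca j))
    have hfr : ∃ᶠ b' in 𝓝 b, R.primPart.evalEval (ψ i b') (ψ j b') = 0 := by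
      have h1 : b ∈ closure (Grid S \ (S i).H '' E') :=
        (dense_Grid S).sdiff_finite (hE'.image _) b
      refine ((mem_closure_iff_frequently.1 h1).and_eventually
        ((isOpen_Sq b η).mem_nhds hb)).mono fun b' hb' => ?_
      obtain ⟨v, hv⟩ := exists_Tr_Grid hb hb'.2 hp.line hb'.1.1
      have hvk : ∀ k, v k (u k (x k)) = ψ k b' := fun k => by
        rw [← hψb k]
        exact hv.chart (hψ k).1 (convex_Sq b η) Subset.rfl
      have hpair : Pair S a x i j (ψ i b') (ψ j b') :=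
        ⟨b', _, hu.trans (hv.mono (subset_univ _)), hvk i, hvk j⟩
      refine (hroot _ ⟨b', _, hu.trans (hv.mono (subset_univ _)), hvk i⟩ (fun hm => ?_) _).2 hpair
      exact hb'.1.2 ⟨_, hm, (hψ i).1.right b' hb'.2⟩
    have := tendsto_nhds_unique_of_frequently_eq hF.tendsto tendsto_const_nhds hfr
    rwa [hψb, hψb] at this

variable {T U : Sys} {R : ℂ[X][X]}

theorem Corr.finite_left (c : Corr T U R) (w : ℂ) : {z | R.evalEval z w = 0}.Finite := by
  by_contra hinf
  have h0 : R.eval (C w) = 0 := eq_zero_of_infinite_isRoot _ hinf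
  have h1 : ∀ z ∈ T.Ω, T.H z = U.H w := fun z hz =>
    ((c.root z w (by rw [evalEval, h0, eval_zero])).2 hz).symm
  obtain ⟨z, hz1, hz2⟩ := (T.iso 0).exists
  apply hz2
  have h2 : T.H =ᶠ[𝓝 z] fun _ => U.H w := mem_of_superset (T.isOpen.mem_nhds hz1) h1
  rw [h2.deriv_eq, deriv_const]

theorem Corr.infinite (c : Corr T U R) (hinf : (T.Ωᶜ).Infinite) : (U.Ωᶜ).Infinite := by
  intro hfin
  have hR0 : R ≠ 0 := fun h0 => c.ne 0 (by rw [h0, Polynomial.map_zero])
  have hA : R.leadingCoeff ≠ 0 := leadingCoeff_ne_zero.2 hR0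
  refine hinf (((finite_setOfPred_isRoot hA).union
    (hfin.biUnion fun w _ => c.finite_left w)).subset fun z hz => ?_)
  by_cases h0 : R.leadingCoeff.eval z = 0
  · exact Or.inl h0
  · have h1 : (R.map (evalRingHom z)).degree ≠ 0 := by
      rw [degree_map_eq_of_leadingCoeff_ne_zero (evalRingHom z) h0]
      exact (natDegree_pos_iff_degree_pos.1 c.deg).ne'
    obtain ⟨w, hw⟩ := IsAlgClosed.exists_root _ h1
    rw [IsRoot.def, map_evalRingHom_eval] at hw
    exact Or.inr (mem_biUnion (fun hw' => hz ((c.root z w hw).1.2 hw')) hw)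

theorem Corr.monic (c : Corr T U R) (hinf : (T.Ωᶜ).Infinite) :
    ∃ R' : ℂ[X][X], R'.Monic ∧ Corr T U R' ∧ ∀ z w, R.evalEval z w = 0 → R'.evalEval z w = 0 := by
  have hR0 : R ≠ 0 := fun h0 => c.ne 0 (by rw [h0, Polynomial.map_zero])
  have hA : R.leadingCoeff ≠ 0 := leadingCoeff_ne_zero.2 hR0
  have hA' : ∀ z, R.leadingCoeff.eval z ≠ 0 := by
    intro z hz
    obtain ⟨e, he⟩ := infcorr_natDegree R
    obtain ⟨ε, hε, hball⟩ := Metric.eventually_nhds_iff_ball.1
      (eventually_nhdsWithin_iff.1 (T.iso z))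
    obtain ⟨z', hz1, hz2⟩ := ((infinite_of_mem_nhds z (Metric.ball_mem_nhds z hε)).sdiff
      (finite_setOfPred_isRoot hA)).nonempty
    have hdeg : (R.map (evalRingHom z)).degree < (R.map (evalRingHom z')).degree := by
      rw [degree_map_eq_of_leadingCoeff_ne_zero (evalRingHom z') hz2]
      exact degree_map_lt hz hR0
    have hlit := (isLittleO_cobounded_of_degree_lt hdeg).bound
      (c := (2 * 2 ^ e)⁻¹) (by positivity)
    obtain ⟨r, hr⟩ := (Metric.hasBasis_cobounded_compl_closedBall (0 : ℂ)).eventually_iff.1 hlit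
    refine c.infinite hinf ((((U.finite_poles r).union
      (finite_setOfPred_isRoot (c.ne z))).union
        (finite_setOfPred_isRoot (c.ne z'))).subset fun w hw => ?_)
    by_cases h1 : w ∈ Metric.closedBall (0 : ℂ) r
    · exact Or.inl (Or.inl ⟨hw, h1⟩)
    have h2 := hr.2 h1
    by_cases h3 : ∀ v ∈ Metric.ball z ε, (R.eval (C w)).eval v ≠ 0
    · have h4 := norm_eval_le (he w) h3 (mem_ball_iff_norm.1 hz1).le
      refine Or.inr ?_
      change (R.map (evalRingHom z')).eval w = 0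
      rw [map_evalRingHom_eval, map_evalRingHom_eval] at h2
      rw [map_evalRingHom_eval, ← norm_le_zero_iff]
      change ‖R.evalEval z' w‖ ≤ 2 ^ e * ‖R.evalEval z w‖ at h4
      have h5 := h4.trans (mul_le_mul_of_nonneg_left h2 (by positivity))
      have h6 : (2 : ℝ) ^ e * ((2 * 2 ^ e)⁻¹ * ‖R.evalEval z' w‖) = ‖R.evalEval z' w‖ / 2 := by
        field_simp
      linarith
    · push Not at h3
      obtain ⟨v, hv1, hv2⟩ := h3
      have h4 : v = z := by
        by_contra hne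
        exact hw ((c.root v w hv2).1.1 (hball v hv1 hne).1)
      refine Or.inl (Or.inr ?_)
      change (R.map (evalRingHom z)).eval w = 0
      rw [map_evalRingHom_eval, ← h4]
      exact hv2
  have hdeg : R.leadingCoeff.degree = 0 := by
    by_contra h0
    obtain ⟨z, hz⟩ := IsAlgClosed.exists_root _ h0
    exact hA' z hz
  obtain ⟨α, hα⟩ : ∃ α, R.leadingCoeff = C α := ⟨_, eq_C_of_degree_eq_zero hdeg⟩
  have hα0 : α ≠ 0 := fun h0 => hA (by rw [hα, h0, C_0])
  have hu : (C α⁻¹ : ℂ[X]) ≠ 0 := C_ne_zero.2 (inv_ne_zero hα0)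
  have hmap : ∀ z, (C (C α⁻¹) * R).map (evalRingHom z) = C α⁻¹ * R.map (evalRingHom z) := by
    intro z
    rw [Polynomial.map_mul, map_C, coe_evalRingHom, eval_C]
  have hev : ∀ z w, (C (C α⁻¹) * R).evalEval z w = α⁻¹ * R.evalEval z w := by
    intro z w
    rw [evalEval_mul, evalEval_C, eval_C]
  refine ⟨C (C α⁻¹) * R, ?_, ⟨fun z => ?_, ?_, fun z w h0 => ?_, ?_⟩, fun z w h0 => ?_⟩
  · apply monic_C_mul_of_mul_leadingCoeff_eq_one
    rw [hα, ← C_mul, inv_mul_cancel₀ hα0, C_1]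
  · rw [hmap]
    exact mul_ne_zero hu (c.ne z)
  · rw [natDegree_C_mul hu]
    exact c.deg
  · rw [hev] at h0
    exact c.root z w ((mul_eq_zero.1 h0).resolve_left (inv_ne_zero hα0))
  · obtain ⟨z, h1, h2⟩ := c.sep
    refine ⟨z, ?_, ?_⟩
    · rw [hmap]
      exact Separable.unit_mul (isUnit_C.2 (inv_ne_zero hα0).isUnit) h1
    · rw [hmap, natDegree_C_mul (inv_ne_zero hα0), natDegree_C_mul hu, h2]
  · rw [hev, h0, mul_zero]

theorem root_bound (hm : R.Monic) :
    ∃ (A : ℝ) (n : ℕ), ∀ z w, R.evalEval z w = 0 → ‖w‖ ≤ A * (1 + ‖z‖) ^ n := by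
  choose B hB0 hB using fun k => infcorr_bound (R.coeff k)
  set s := Finset.range R.natDegree with hs
  set e := s.sup fun k => (R.coeff k).natDegree with he
  refine ⟨∑ k ∈ s, B k + 1, e, fun z w hzw => ?_⟩
  have hq : (R.map (evalRingHom z)).Monic := hm.map _
  have h1 : (R.map (evalRingHom z)).IsRoot w := by rwa [IsRoot.def, map_evalRingHom_eval]
  have h2 := h1.norm_lt_cauchyBound hq.ne_zero
  have hz1 : (1 : ℝ) ≤ 1 + ‖z‖ := le_add_of_nonneg_right (norm_nonneg z)
  have hp : (1 : ℝ) ≤ (1 + ‖z‖) ^ e := one_le_pow₀ hz1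
  have hS : 0 ≤ ∑ k ∈ s, B k := Finset.sum_nonneg fun k _ => hB0 k
  have h3 : s.sup (fun k => ‖(R.map (evalRingHom z)).coeff k‖₊) ≤
      ⟨(∑ k ∈ s, B k) * (1 + ‖z‖) ^ e, by positivity⟩ := by
    refine Finset.sup_le fun k hk => ?_
    rw [← NNReal.coe_le_coe, coe_nnnorm, coeff_map, coe_evalRingHom]
    refine (hB k z).trans (mul_le_mul (Finset.single_le_sum (fun k _ => hB0 k) hk)
      (pow_le_pow_right₀ hz1 (Finset.le_sup (f := fun k => (R.coeff k).natDegree) hk))
      (by positivity) hS)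
  rw [cauchyBound, hq.leadingCoeff, nnnorm_one, div_one, hm.natDegree_map, ← hs] at h2
  have h4 := h2.le.trans (add_le_add h3 le_rfl)
  rw [← NNReal.coe_le_coe, coe_nnnorm, NNReal.coe_add, NNReal.coe_one] at h4
  change ‖w‖ ≤ (∑ k ∈ s, B k) * (1 + ‖z‖) ^ e + 1 at h4
  rw [add_mul, one_mul]
  linarith

end Pool.Agent.Lib.MP_6db618_an
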