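import Mathlib

set_option autoImplicit false

namespace Pool.Agent.Lib.MP_6db618_an

open Set Filter Topology Complex Polynomial

theorem exists_root_germ {Y : ℂ → ℂ} (hY : MeromorphicAt Y 0)
    (h : Tendsto (fun t => ‖Y t‖) (𝓝[≠] 0) atTop) :
    ∃ n : ℕ, 0 < n ∧ ∃ θ : ℂ → ℂ, AnalyticAt ℂ θ 0 ∧ θ 0 = 0 ∧ deriv θ 0 ≠ 0 ∧
      ∀ᶠ t in 𝓝[≠] (0 : ℂ), Y t = (θ t ^ n)⁻¹ := by
  have hneg : meromorphicOrderAt Y 0 < 0 :=
    (tendsto_cobounded_iff_meromorphicOrderAt_neg hY).1 (tendsto_norm_atTop_iff_cobounded.1 h)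
  obtain ⟨m, hm⟩ := WithTop.ne_top_iff_exists.1 hneg.ne_top
  have hm0 : m < 0 := by
    rw [← hm] at hneg
    exact_mod_cast hneg
  obtain ⟨n, rfl⟩ : ∃ n : ℕ, m = -(n : ℤ) := ⟨(-m).toNat, by omega⟩
  have hn : 0 < n := by omega
  obtain ⟨g, hg, hg0, hYg⟩ := (meromorphicOrderAt_eq_int_iff hY).1 hm.symm
  obtain ⟨r, hr⟩ := IsAlgClosed.exists_pow_nat_eq (g 0) hn
  have hr0 : r ≠ 0 := by
    rintro rfl
    exact hg0 (by rw [← hr, zero_pow hn.ne'])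
  have hn' : (n : ℂ) ≠ 0 := by exact_mod_cast hn.ne'
  set u : ℂ → ℂ := fun t => exp (-log (g t / g 0) / n) / r with hu
  have hua : AnalyticAt ℂ u 0 := by
    have h1 : AnalyticAt ℂ (fun t => log (g t / g 0)) 0 := by
      refine AnalyticAt.clog (hg.div_const) ?_
      simp [div_self hg0]
    exact ((h1.neg.div_const).cexp).div_const
  have hu0 : u 0 ≠ 0 := div_ne_zero (exp_ne_zero _) hr0
  refine ⟨n, hn, fun t => t * u t, analyticAt_id.mul hua, by simp, ?_, ?_⟩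
  · have h1 : HasDerivAt (fun t => t * u t) (1 * u 0 + 0 * deriv u 0) 0 :=
      (hasDerivAt_id (0 : ℂ)).mul hua.differentiableAt.hasDerivAt
    rw [h1.deriv]
    simpa using hu0
  · have h1 : ∀ᶠ t in 𝓝[≠] (0 : ℂ), g t ≠ 0 :=
      (hg.continuousAt.eventually_ne hg0).filter_mono nhdsWithin_le_nhds
    filter_upwards [hYg, h1, self_mem_nhdsWithin] with t ht hgt ht0
    have ht0' : t ≠ 0 := ht0
    have h2 : u t ^ n = (g t)⁻¹ := by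
      rw [hu]
      simp only
      rw [div_pow, ← exp_nat_mul, mul_div_cancel₀ _ hn', exp_neg,
        exp_log (div_ne_zero hgt hg0), hr]
      field_simp
    rw [ht, mul_pow, h2, sub_zero, zpow_neg, zpow_natCast, smul_eq_mul, mul_inv, inv_inv]

/-- Preimage of a finite set under `s ↦ (s ^ n)⁻¹`. -/
noncomputable def invRoots (n : ℕ) (F : Finset ℂ) : Finset ℂ :=
  F.biUnion fun w => nthRootsFinset n w⁻¹

theorem mem_invRoots {n : ℕ} (hn : 0 < n) {F : Finset ℂ} {s : ℂ} :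
    s ∈ invRoots n F ↔ (s ^ n)⁻¹ ∈ F := by
  rw [invRoots, Finset.mem_biUnion]
  constructor
  · rintro ⟨w, hw, h⟩
    rw [mem_nthRootsFinset hn] at h
    rwa [h, inv_inv]
  · intro h
    exact ⟨_, h, by rw [mem_nthRootsFinset hn, inv_inv]⟩

theorem card_invRoots_le (n : ℕ) (F : Finset ℂ) : (invRoots n F).card ≤ F.card * n := by
  refine Finset.card_biUnion_le_card_mul _ _ _ fun w _ => ?_
  rw [nthRootsFinset_def]
  exact (Multiset.toFinset_card_le _).trans (card_nthRoots _ _)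

theorem card_invRoots {n : ℕ} (hn : 0 < n) {F : Finset ℂ} (hF : (0 : ℂ) ∉ F) :
    (invRoots n F).card = F.card * n := by
  have hζ := Complex.isPrimitiveRoot_exp n hn.ne'
  rw [invRoots, Finset.card_biUnion, Finset.sum_const_nat (m := n)]
  · intro w hw
    have hw0 : w⁻¹ ≠ 0 := inv_ne_zero fun h => hF (h ▸ hw)
    rw [nthRootsFinset_def, Multiset.toFinset_card_of_nodup (hζ.nthRoots_nodup hw0),
      hζ.card_nthRoots, if_pos (IsAlgClosed.exists_pow_nat_eq _ hn)]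
  · intro w _ w' _ hne
    rw [Function.onFun, Finset.disjoint_left]
    intro s h1 h2
    rw [mem_nthRootsFinset hn] at h1 h2
    exact hne (inv_injective (h1.symm.trans h2))

theorem eventually_pow_le {a b : ℕ} (hab : a < b)
    {θ φ : ℂ → ℂ} (h₁ : AnalyticAt ℂ θ 0) (h₂ : θ 0 = 0) (h₃ : deriv θ 0 ≠ 0)
    (h₄ : AnalyticAt ℂ φ 0) (h₅ : φ 0 = 0) :
    ∀ᶠ t in 𝓝 (0 : ℂ), ‖φ t ^ b‖ ≤ ‖θ t ^ a‖ := by
  have e1 : φ =O[𝓝 0] fun t : ℂ => t := by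
    simpa [h₅] using h₄.differentiableAt.hasDerivAt.isBigO_sub
  have e2 : (fun t : ℂ => t) =O[𝓝 0] θ := by
    simpa [h₂, Function.comp_def] using
      (h₁.differentiableAt.hasDerivAt.isTheta_sub h₃).isBigO_symm
  have e3 : (fun t => φ t ^ a) =O[𝓝 0] fun t => θ t ^ a := (e1.trans e2).pow a
  have e4 : (fun t => φ t ^ (b - a)) =o[𝓝 0] fun _ => (1 : ℂ) := by
    rw [Asymptotics.isLittleO_one_iff]
    have := (h₄.continuousAt.tendsto.pow (b - a))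
    rwa [h₅, zero_pow (by omega)] at this
  have e5 := (e3.mul_isLittleO e4).def one_pos
  filter_upwards [e5] with t ht
  rwa [← pow_add, one_mul, mul_one, Nat.add_sub_cancel' hab.le] at ht

theorem order_le {Z W : Set ℂ} (hZ : Z.Infinite)
    (hfin : ∀ r, (Z ∩ Metric.closedBall 0 r).Finite)
    (hfin' : ∀ r, (W ∩ Metric.closedBall 0 r).Finite)
    (hc : ∀ r, (Z ∩ Metric.closedBall 0 r).ncard = (W ∩ Metric.closedBall 0 r).ncard)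
    {a b : ℕ} (ha : 0 < a) (hb : 0 < b)
    {θ φ : ℂ → ℂ} (h₁ : AnalyticAt ℂ θ 0) (h₂ : θ 0 = 0) (h₃ : deriv θ 0 ≠ 0)
    (h₄ : AnalyticAt ℂ φ 0) (h₅ : φ 0 = 0) (h₆ : deriv φ 0 ≠ 0)
    (h : ∀ᶠ t in 𝓝[≠] (0 : ℂ), (φ t ^ b)⁻¹ ∈ W → (θ t ^ a)⁻¹ ∈ Z) : b ≤ a := by
  classical
  by_contra hab
  rw [not_le] at hab
  have sθ := h₁.hasStrictDerivAt
  have sφ := h₄.hasStrictDerivAt
  set ι := sθ.localInverse θ (deriv θ 0) 0 h₃ with hι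
  have k1 := sθ.eventually_left_inverse h₃
  have k2 := eventually_pow_le hab h₁ h₂ h₃ h₄ h₅
  have k3 := eventually_nhdsWithin_iff.1 h
  have k4 : {t | ι (θ t) = t ∧ ‖φ t ^ b‖ ≤ ‖θ t ^ a‖ ∧
      (t ∈ ({0} : Set ℂ)ᶜ → (φ t ^ b)⁻¹ ∈ W → (θ t ^ a)⁻¹ ∈ Z)} ∈ 𝓝 (0 : ℂ) := k1.and (k2.and k3)
  have k5 := image_mem_map (m := φ) k4
  rw [sφ.map_nhds_eq h₆, h₅] at k5
  obtain ⟨ε, hε, hsub⟩ := Metric.mem_nhds_iff.1 k5
  have hch : ∀ s : ℂ, ∃ t : ℂ, ‖s‖ < ε → φ t = s ∧ ι (θ t) = t ∧ ‖φ t ^ b‖ ≤ ‖θ t ^ a‖ ∧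
      (t ∈ ({0} : Set ℂ)ᶜ → (φ t ^ b)⁻¹ ∈ W → (θ t ^ a)⁻¹ ∈ Z) := by
    intro s
    by_cases hs : ‖s‖ < ε
    · obtain ⟨t, ht, hts⟩ := hsub (mem_ball_zero_iff.2 hs)
      exact ⟨t, fun _ => ⟨hts, ht⟩⟩
    · exact ⟨0, fun h' => absurd h' hs⟩
  choose g hg using hch
  set ρ₀ : ℝ := (ε ^ b)⁻¹ with hρ₀
  have hρ₀pos : 0 < ρ₀ := by positivity
  set F₀ := (hfin' ρ₀).toFinset with hF₀
  obtain ⟨T, hTZ, hTc⟩ := hZ.exists_subset_card_eq (F₀.card * b + 1)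
  obtain ⟨ρ, hρ⟩ := (T.finite_toSet.isBounded).subset_closedBall (0 : ℂ)
  set FZ := (hfin ρ).toFinset with hFZ
  set FW := (hfin' ρ).toFinset with hFW
  have c1 : FZ.card = FW.card := by
    rw [hFZ, hFW, ← Set.ncard_eq_toFinset_card _ (hfin ρ), ← Set.ncard_eq_toFinset_card _ (hfin' ρ),
      hc]
  have c2 : F₀.card * b + 1 ≤ FZ.card := by
    rw [← hTc]
    refine Finset.card_le_card fun z hz => ?_
    rw [hFZ, Set.Finite.mem_toFinset]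
    exact ⟨hTZ hz, hρ hz⟩
  have hmem : ∀ w ∈ FW \ F₀, w ∈ W ∧ ‖w‖ ≤ ρ ∧ ρ₀ < ‖w‖ := by
    intro w hw
    rw [Finset.mem_sdiff, hFW, hF₀, Set.Finite.mem_toFinset, Set.Finite.mem_toFinset] at hw
    refine ⟨hw.1.1, mem_closedBall_zero_iff.1 hw.1.2, ?_⟩
    by_contra hle
    exact hw.2 ⟨hw.1.1, mem_closedBall_zero_iff.2 (not_lt.1 hle)⟩
  have h0 : (0 : ℂ) ∉ FW \ F₀ := fun h' => by
    have := (hmem 0 h').2.2
    rw [norm_zero] at this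
    exact absurd this (not_lt.2 hρ₀pos.le)
  have hsm : ∀ s ∈ invRoots b (FW \ F₀), s ≠ 0 ∧ ‖s‖ < ε := by
    intro s hs
    rw [mem_invRoots hb] at hs
    have hs0 : s ≠ 0 := by
      rintro rfl
      rw [zero_pow hb.ne', inv_zero] at hs
      exact h0 hs
    refine ⟨hs0, ?_⟩
    have h1 := (hmem _ hs).2.2
    rw [norm_inv, norm_pow, hρ₀, inv_lt_inv₀ (by positivity) (by positivity)] at h1
    exact lt_of_pow_lt_pow_left₀ b hε.le h1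
  have c3 : (invRoots b (FW \ F₀)).card ≤ (invRoots a FZ).card := by
    refine Finset.card_le_card_of_injOn (fun s => θ (g s)) ?_ ?_
    · intro s hs
      obtain ⟨hs0, hsε⟩ := hsm s hs
      obtain ⟨g1, -, g3, g4⟩ := hg s hsε
      have hs' := hmem _ ((mem_invRoots hb).1 hs)
      rw [g1] at g3 g4
      have hg0 : g s ≠ 0 := fun h' => hs0 (by rw [← g1, h', h₅])
      rw [Finset.mem_coe, mem_invRoots ha, hFZ, Set.Finite.mem_toFinset]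
      refine ⟨g4 hg0 hs'.1, mem_closedBall_zero_iff.2 (le_trans ?_ hs'.2.1)⟩
      rw [norm_inv, norm_inv]
      exact inv_anti₀ (norm_pos_iff.2 (pow_ne_zero _ hs0)) g3
    · intro s hs s' hs' hss
      obtain ⟨g1, g2, -⟩ := hg s (hsm s hs).2
      obtain ⟨g1', g2', -⟩ := hg s' (hsm s' hs').2
      have : g s = g s' := by
        rw [← g2, ← g2']
        exact congrArg ι hss
      rw [← g1, this, g1']
  rw [card_invRoots hb h0] at c3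
  have c4 := card_invRoots_le a FZ
  have c5 : FW.card ≤ (FW \ F₀).card + F₀.card := Finset.card_le_card_sdiff_add_card
  have c6 : FZ.card * (a + 1) ≤ FZ.card * b := Nat.mul_le_mul_left _ hab
  have c7 : FZ.card * b ≤ ((FW \ F₀).card + F₀.card) * b := Nat.mul_le_mul_right _ (c1 ▸ c5)
  rw [add_mul] at c7
  rw [mul_add, mul_one] at c6
  omega

theorem order_eq {Z : Set ℂ} (hZ : Z.Infinite)
    (hfin : ∀ r, (Z ∩ Metric.closedBall 0 r).Finite) {a b : ℕ} (ha : 0 < a) (hb : 0 < b)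
    {θ φ : ℂ → ℂ} (h₁ : AnalyticAt ℂ θ 0) (h₂ : θ 0 = 0) (h₃ : deriv θ 0 ≠ 0)
    (h₄ : AnalyticAt ℂ φ 0) (h₅ : φ 0 = 0) (h₆ : deriv φ 0 ≠ 0)
    (h : ∀ᶠ t in 𝓝[≠] (0 : ℂ), (θ t ^ a)⁻¹ ∈ Z ↔ starRingEnd ℂ (φ t ^ b)⁻¹ ∈ Z) : a = b := by
  have hinj : Function.Injective (starRingEnd ℂ) := (starRingEnd ℂ).injective
  have hmem : ∀ w : ℂ, w ∈ starRingEnd ℂ '' Z ↔ starRingEnd ℂ w ∈ Z := by
    intro w
    constructor
    · rintro ⟨z, hz, rfl⟩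
      simpa using hz
    · intro hw
      exact ⟨_, hw, by simp⟩
  have him : ∀ r, starRingEnd ℂ '' Z ∩ Metric.closedBall 0 r =
      starRingEnd ℂ '' (Z ∩ Metric.closedBall 0 r) := by
    intro r
    ext w
    constructor
    · rintro ⟨⟨z, hz, rfl⟩, hw⟩
      exact ⟨z, ⟨hz, by simpa using hw⟩, rfl⟩
    · rintro ⟨z, ⟨hz, hz'⟩, rfl⟩
      exact ⟨⟨z, hz, rfl⟩, by simpa using hz'⟩
  have hfin' : ∀ r, (starRingEnd ℂ '' Z ∩ Metric.closedBall 0 r).Finite := fun r => by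
    rw [him]
    exact (hfin r).image _
  have hc : ∀ r, (Z ∩ Metric.closedBall 0 r).ncard =
      (starRingEnd ℂ '' Z ∩ Metric.closedBall 0 r).ncard := fun r => by
    rw [him, Set.ncard_image_of_injective _ hinj]
  refine le_antisymm ?_ ?_
  · refine order_le (hZ.image hinj.injOn) hfin' hfin (fun r => (hc r).symm) hb ha h₄ h₅ h₆
      h₁ h₂ h₃ ?_
    filter_upwards [h] with t ht h'
    exact (hmem _).2 (ht.1 h')
  · refine order_le hZ hfin hfin' hc ha hb h₁ h₂ h₃ h₄ h₅ h₆ ?_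
    filter_upwards [h] with t ht h'
    exact ht.2 ((hmem _).1 h')

theorem order_add {θ₀ θ₁ θ₂ θ₃ : ℂ → ℂ} {n₀ n₁ n₂ n₃ : ℕ}
    (h₀ : AnalyticAt ℂ θ₀ 0 ∧ θ₀ 0 = 0 ∧ deriv θ₀ 0 ≠ 0)
    (h₁ : AnalyticAt ℂ θ₁ 0 ∧ θ₁ 0 = 0 ∧ deriv θ₁ 0 ≠ 0)
    (h₂ : AnalyticAt ℂ θ₂ 0 ∧ θ₂ 0 = 0 ∧ deriv θ₂ 0 ≠ 0)
    (h₃ : AnalyticAt ℂ θ₃ 0 ∧ θ₃ 0 = 0 ∧ deriv θ₃ 0 ≠ 0)
    (h : ∀ᶠ t in 𝓝[≠] (0 : ℂ),
      (θ₀ t ^ n₀)⁻¹ * (θ₁ t ^ n₁)⁻¹ = (θ₂ t ^ n₂)⁻¹ * (θ₃ t ^ n₃)⁻¹) : n₀ + n₁ = n₂ + n₃ := by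
  have key : ∀ {θ φ : ℂ → ℂ} (a b : ℕ), AnalyticAt ℂ θ 0 ∧ θ 0 = 0 ∧ deriv θ 0 ≠ 0 →
      AnalyticAt ℂ φ 0 ∧ φ 0 = 0 ∧ deriv φ 0 ≠ 0 →
      analyticOrderAt (θ ^ a * φ ^ b) 0 = ((a + b : ℕ) : ℕ∞) := by
    intro θ φ a b hθ hφ
    rw [analyticOrderAt_mul (hθ.1.pow a) (hφ.1.pow b), analyticOrderAt_pow hθ.1,
      analyticOrderAt_pow hφ.1, hθ.1.analyticOrderAt_eq_one_of_zero_deriv_ne_zero hθ.2.1 hθ.2.2,
      hφ.1.analyticOrderAt_eq_one_of_zero_deriv_ne_zero hφ.2.1 hφ.2.2]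
    simp
  have e : (θ₀ ^ n₀ * θ₁ ^ n₁) =ᶠ[𝓝 0] (θ₂ ^ n₂ * θ₃ ^ n₃) := by
    rw [← ContinuousAt.eventuallyEq_nhds_iff_eventuallyEq_nhdsNE
      ((h₀.1.pow n₀).mul (h₁.1.pow n₁)).continuousAt
      ((h₂.1.pow n₂).mul (h₃.1.pow n₃)).continuousAt]
    filter_upwards [h] with t ht
    rw [← mul_inv, ← mul_inv, inv_inj] at ht
    exact ht
  have := analyticOrderAt_congr e
  rw [key n₀ n₁ h₀ h₁, key n₂ n₃ h₂ h₃] at this
  exact_mod_cast this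

end Pool.Agent.Lib.MP_6db618_an
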