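import Mathlib

set_option autoImplicit false

namespace Pool.Agent.Lib.MP_6db618_an

open Set Filter Topology Complex Polynomial

namespace Pui

/-- Functions analytic at the origin. -/
def An : Subring (ℂ → ℂ) where
  carrier := {f | AnalyticAt ℂ f 0}
  mul_mem' := fun ha hb => ha.mul hb
  one_mem' := analyticAt_const
  add_mem' := fun ha hb => ha.add hb
  zero_mem' := analyticAt_const
  neg_mem' := fun ha => ha.neg

/-- Evaluation. -/
def ev (t : ℂ) : An →+* ℂ := (Pi.evalRingHom (fun _ : ℂ => ℂ) t).comp An.subtype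

theorem ev_apply (t : ℂ) (f : An) : ev t f = f.1 t := rfl

theorem an_pow {f : ℂ → ℂ} (hf : AnalyticAt ℂ f 0) {N : ℕ} (hN : 0 < N) :
    AnalyticAt ℂ (fun t => f (t ^ N)) 0 :=
  hf.comp_of_eq (analyticAt_id.pow N) (by simp [hN.ne'])

theorem tendsto_pow {N : ℕ} (hN : 0 < N) : Tendsto (fun t : ℂ => t ^ N) (𝓝 0) (𝓝 0) := by
  simpa [hN.ne'] using (continuous_pow N).tendsto (0 : ℂ)

/-- Substitution of a power. -/
def sb {N : ℕ} (hN : 0 < N) : An →+* An where
  toFun f := ⟨fun t => f.1 (t ^ N), an_pow f.2 hN⟩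
  map_one' := rfl
  map_mul' _ _ := rfl
  map_zero' := rfl
  map_add' _ _ := rfl

theorem ev_sb {N : ℕ} (hN : 0 < N) (t : ℂ) : (ev t).comp (sb hN) = ev (t ^ N) := rfl

theorem ev_eval (t : ℂ) (P : An[X]) (y : An) : ev t (P.eval y) = (P.map (ev t)).eval (ev t y) := by
  rw [eval_map, eval₂_at_apply]

theorem eval_eq_sum (P : An[X]) (t w : ℂ) : (P.map (ev t)).eval w =
    ∑ i ∈ Finset.range (P.natDegree + 1), ev t (P.coeff i) * w ^ i := by
  rw [eval_map, eval₂_eq_sum_range]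

/-- The polynomial has a root after a substitution. -/
def HasRoot (P : An[X]) : Prop :=
  ∃ N : ℕ, 0 < N ∧ ∃ Y : An, ∀ᶠ t in 𝓝 (0 : ℂ), (P.map (ev (t ^ N))).eval (ev t Y) = 0

theorem HasRoot.of_taylor {P : An[X]} {y : An} (h : HasRoot (taylor y P)) : HasRoot P := by
  obtain ⟨N, hN, Y, h⟩ := h
  refine ⟨N, hN, Y + sb hN y, h.mono fun t ht => ?_⟩
  rw [map_taylor, taylor_eval] at ht
  exact ht

theorem simple {P : An[X]} (h0 : ev 0 (P.coeff 0) = 0) (h1 : ev 0 (P.coeff 1) ≠ 0) :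
    ∃ y : An, ev 0 y = 0 ∧ ∀ᶠ t in 𝓝 (0 : ℂ), (P.map (ev t)).eval (ev t y) = 0 := by
  let f : ℂ × ℂ → ℂ := fun u => (P.map (ev u.1)).eval u.2
  have hf : AnalyticAt ℂ f (0, 0) := by
    simp only [f, eval_eq_sum]
    refine Finset.analyticAt_fun_sum _ fun i _ => AnalyticAt.mul ?_ (analyticAt_snd.pow i)
    exact AnalyticAt.comp_of_eq (g := (P.coeff i).1) (P.coeff i).2 analyticAt_fst rfl
  have hc : ContDiffAt ℂ ⊤ f (0, 0) := hf.contDiffAt
  have hd : HasDerivAt (fun w => f (0, w)) (ev 0 (P.coeff 1)) 0 := by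
    have := (P.map (ev 0)).hasDerivAt 0
    rwa [← coeff_zero_eq_eval_zero, coeff_derivative, coeff_map, zero_add, Nat.cast_zero, zero_add,
      mul_one] at this
  have he : fderiv ℂ f (0, 0) ∘L .inr ℂ ℂ ℂ =
      (ContinuousLinearEquiv.unitsEquivAut ℂ (Units.mk0 _ h1) : ℂ →L[ℂ] ℂ) := by
    have h2 := hf.differentiableAt.hasFDerivAt.comp (0 : ℂ) (hasFDerivAt_prodMk_right (0 : ℂ) (0 : ℂ))
    rw [h2.unique hd.hasFDerivAt]
    ext
    simp
  have hi : (fderiv ℂ f (0, 0) ∘L .inr ℂ ℂ ℂ).IsInvertible := ⟨_, he.symm⟩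
  have pn : (⊤ : WithTop ℕ∞) ≠ 0 := by simp
  refine ⟨⟨hc.implicitFunction pn hi, (hc.contDiffAt_implicitFunction pn hi).analyticAt⟩,
    hc.implicitFunction_apply_self pn hi, ?_⟩
  filter_upwards [hc.eventually_apply_implicitFunction pn hi] with t ht
  refine ht.trans ?_
  change (P.map (ev 0)).eval 0 = 0
  rw [← coeff_zero_eq_eval_zero, coeff_map, h0]

/-- The slope of the Newton polygon. -/
theorem exists_slope (a : ℕ → An) {m : ℕ} (hm : 0 < m) (h0 : ∀ i < m, ev 0 (a i) = 0)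
    (h1 : ¬ ∀ᶠ t in 𝓝 (0 : ℂ), ev t (a 0) = 0) :
    ∃ p q : ℕ, 0 < p ∧ 0 < q ∧ ∃ b : ℕ → An,
      (∀ i, ∀ᶠ s in 𝓝 (0 : ℂ), ev (s ^ q) (a i) * (s ^ p) ^ i = (s ^ p) ^ m * ev s (b i)) ∧
      ev 0 (b m) = ev 0 (a m) ∧ (∀ i, m < i → ev 0 (b i) = 0) ∧
      (∀ i < m, (∀ᶠ t in 𝓝 (0 : ℂ), ev t (a i) = 0) → b i = 0) ∧ ∃ i < m, ev 0 (b i) ≠ 0 := by
  classical
  have h2 : ∀ i, ∃ (o : ℕ) (g : ℂ → ℂ), (¬ ∀ᶠ t in 𝓝 (0 : ℂ), ev t (a i) = 0) →
      AnalyticAt ℂ g 0 ∧ g 0 ≠ 0 ∧ ∀ᶠ t in 𝓝 (0 : ℂ), ev t (a i) = t ^ o * g t := by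
    intro i
    by_cases h : ∀ᶠ t in 𝓝 (0 : ℂ), ev t (a i) = 0
    · exact ⟨0, 0, fun h' => (h' h).elim⟩
    · obtain ⟨o, g, h3, h4, h5⟩ :=
        (AnalyticAt.exists_eventuallyEq_pow_smul_nonzero_iff (f := (a i).1) (a i).2).2 h
      exact ⟨o, g, fun _ => ⟨h3, h4, h5.mono fun t ht => by simpa [ev_apply] using ht⟩⟩
  choose o g hg using h2
  obtain ⟨j, hj, hmin⟩ := Finset.exists_min_image
    ((Finset.range m).filter fun i => ¬ ∀ᶠ t in 𝓝 (0 : ℂ), ev t (a i) = 0)
    (fun i => m.factorial / (m - i) * o i) ⟨0, Finset.mem_filter.2 ⟨Finset.mem_range.2 hm, h1⟩⟩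
  simp only [Finset.mem_filter, Finset.mem_range, and_imp] at hj hmin
  have hq := m.factorial_pos
  have hdv : ∀ i < m, m.factorial / (m - i) * o i * (m - i) = m.factorial * o i := fun i hi => by
    rw [mul_right_comm, Nat.div_mul_cancel (Nat.dvd_factorial (by omega) (by omega))]
  have ho : 0 < o j := by
    by_contra h
    have h3 := (hg j hj.2).2.2.self_of_nhds
    rw [h0 j hj.1, show o j = 0 by omega, pow_zero, one_mul] at h3
    exact (hg j hj.2).2.1 h3.symm
  have hp : 0 < m.factorial / (m - j) * o j := by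
    have := hdv j hj.1
    by_contra h
    rw [show m.factorial / (m - j) * o j = 0 by omega, zero_mul] at this
    exact (Nat.mul_pos hq ho).ne this
  have hj' := hdv j hj.1
  generalize m.factorial / (m - j) * o j = p at hp hmin hj'
  have hle : ∀ i < m, (¬ ∀ᶠ t in 𝓝 (0 : ℂ), ev t (a i) = 0) → p * (m - i) ≤ m.factorial * o i :=
    fun i hi h => (hdv i hi) ▸ Nat.mul_le_mul_right _ (hmin i hi h)
  generalize m.factorial = q at hq hle hj'
  have h3 : ∀ i, ∃ b : An,
      (∀ᶠ s in 𝓝 (0 : ℂ), ev (s ^ q) (a i) * (s ^ p) ^ i = (s ^ p) ^ m * ev s b) ∧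
      (i = m → ev 0 b = ev 0 (a i)) ∧ (m < i → ev 0 b = 0) ∧
      (i < m → (∀ᶠ t in 𝓝 (0 : ℂ), ev t (a i) = 0) → b = 0) ∧ (i = j → ev 0 b ≠ 0) := by
    intro i
    rcases le_or_gt m i with hi | hi
    · obtain ⟨n, rfl⟩ := Nat.exists_eq_add_of_le hi
      refine ⟨⟨fun s => (a (m + n)).1 (s ^ q) * (s ^ p) ^ n,
        (an_pow (a _).2 hq).mul ((analyticAt_id.pow p).pow n)⟩,
        Eventually.of_forall fun s => ?_, fun h => ?_, fun h => ?_, fun h => by omega,
        fun h => by omega⟩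
      · simp only [ev_apply]
        ring
      · have : n = 0 := by omega
        simp [ev_apply, this, hq.ne']
      · have : n ≠ 0 := by omega
        simp [ev_apply, this, hp.ne']
    · by_cases h : ∀ᶠ t in 𝓝 (0 : ℂ), ev t (a i) = 0
      · refine ⟨0, ((tendsto_pow hq).eventually h).mono fun s hs => by simp [hs],
          fun h => by omega, fun h => by omega, fun _ _ => rfl, fun e => (hj.2 (e ▸ h)).elim⟩
      · obtain ⟨h4, h5, h6⟩ := hg i h
        obtain ⟨n, hn⟩ := Nat.exists_eq_add_of_le (hle i hi h)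
        refine ⟨⟨fun s => s ^ n * g i (s ^ q), (analyticAt_id.pow n).mul (an_pow h4 hq)⟩,
          ((tendsto_pow hq).eventually h6).mono fun s hs => ?_, fun h => by omega,
          fun h => by omega, fun _ h' => (h h').elim, fun e => ?_⟩
        · obtain ⟨r, rfl⟩ := Nat.exists_eq_add_of_le hi.le
          rw [Nat.add_sub_cancel_left] at hn
          rw [hs, ← pow_mul s q, hn, ev_apply]
          ring
        · subst e
          have : n = 0 := by omega
          simpa [ev_apply, this, hq.ne'] using h5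
  choose b hb using h3
  exact ⟨p, q, hp, hq, b, fun i => (hb i).1, (hb m).2.1 rfl, fun i => (hb i).2.2.1,
    fun i => (hb i).2.2.2.1, j, hj.1, (hb j).2.2.2.2 rfl⟩

theorem exists_shift {q : ℂ[X]} (hq : 0 < q.natDegree) : ∃ (c : ℂ) (m : ℕ), 0 < m ∧
    m ≤ q.natDegree ∧ (∀ i < m, (taylor c q).coeff i = 0) ∧ (taylor c q).coeff m ≠ 0 := by
  obtain ⟨c, hc⟩ := IsAlgClosed.exists_root q (natDegree_pos_iff_degree_pos.1 hq).ne'
  have h0 : taylor c q ≠ 0 := by
    rw [Ne, taylor_eq_zero]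
    rintro rfl
    simp at hq
  have h1 : (taylor c q).coeff (taylor c q).natTrailingDegree ≠ 0 :=
    trailingCoeff_nonzero_iff_nonzero.2 h0
  refine ⟨c, (taylor c q).natTrailingDegree, Nat.pos_of_ne_zero fun h => h1 ?_, ?_,
    fun i hi => coeff_eq_zero_of_lt_natTrailingDegree hi, h1⟩
  · rw [h, taylor_coeff_zero]
    exact hc
  · rw [← natDegree_taylor q c]
    exact natTrailingDegree_le_natDegree _

theorem exists_shift_lt {q : ℂ[X]} {n : ℕ} (hq : q.natDegree = n + 1) (h0 : q.coeff n = 0)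
    {j : ℕ} (hj : j < n + 1) (h1 : q.coeff j ≠ 0) : ∃ (c : ℂ) (m : ℕ), 0 < m ∧ m < n + 1 ∧
      (∀ i < m, (taylor c q).coeff i = 0) ∧ (taylor c q).coeff m ≠ 0 := by
  obtain ⟨c, m, h2, h3, h4, h5⟩ := exists_shift (q := q) (by omega)
  refine ⟨c, m, h2, lt_of_le_of_ne (hq ▸ h3) fun e => ?_, h4, h5⟩
  subst e
  have h6 : taylor c q = monomial (n + 1) ((taylor c q).coeff (n + 1)) := by
    ext i
    rw [coeff_monomial]
    split_ifs with h
    · rw [h]
    · rcases lt_or_gt_of_ne h with h | h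
      · exact coeff_eq_zero_of_natDegree_lt (by rwa [natDegree_taylor, hq])
      · exact h4 i h
  generalize (taylor c q).coeff (n + 1) = L at h5 h6
  have h7 : q = C L * (X + C (-c)) ^ (n + 1) := by
    rw [← taylor_monomial, ← h6, taylor_taylor, neg_add_cancel, taylor_zero]
  rw [h7, coeff_C_mul, coeff_X_add_C_pow] at h0 h1
  have h8 : -c = 0 := by
    have h9 : ((n + 1).choose n : ℂ) ≠ 0 := Nat.cast_ne_zero.2 (Nat.choose_pos (by omega)).ne'
    exact eq_zero_of_pow_eq_zero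
      (((mul_eq_zero.1 ((mul_eq_zero.1 h0).resolve_left h5))).resolve_right h9)
  rw [h8, zero_pow (by omega)] at h1
  simp at h1

/-- Constants. -/
def cs (c : ℂ) : An := ⟨fun _ => c, analyticAt_const⟩

theorem ev_taylor (P : An[X]) (y : An) (i : ℕ) :
    ev 0 ((taylor y P).coeff i) = (taylor (ev 0 y) (P.map (ev 0))).coeff i := by
  rw [← coeff_map, map_taylor]

theorem hasRoot (m : ℕ) : 0 < m → ∀ P : An[X], (∀ i < m, ev 0 (P.coeff i) = 0) →
    ev 0 (P.coeff m) ≠ 0 → HasRoot P := by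
  induction m using Nat.strong_induction_on with
  | _ m ih =>
  intro hm P h0 h1
  obtain ⟨n, rfl⟩ : ∃ n, m = n + 1 := ⟨m - 1, by omega⟩
  obtain ⟨y, hy, hy'⟩ := simple (P := hasseDeriv n P)
    (by rw [hasseDeriv_coeff, map_mul, zero_add, h0 n (by omega), mul_zero])
    (by
      rw [hasseDeriv_coeff, map_mul, map_natCast, add_comm 1 n]
      exact mul_ne_zero (Nat.cast_ne_zero.2 (Nat.choose_pos (by omega)).ne') h1)
  refine HasRoot.of_taylor (y := y) ?_
  have h2 : ∀ i, ev 0 ((taylor y P).coeff i) = ev 0 (P.coeff i) := fun i => by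
    rw [ev_taylor, hy, taylor_zero, coeff_map]
  have h3 : ∀ᶠ t in 𝓝 (0 : ℂ), ev t ((taylor y P).coeff n) = 0 :=
    hy'.mono fun t ht => by rwa [taylor_coeff, ev_eval]
  simp only [← h2] at h0 h1
  generalize taylor y P = T at h0 h1 h3
  by_cases h4 : ∀ᶠ t in 𝓝 (0 : ℂ), ev t (T.coeff 0) = 0
  · refine ⟨1, one_pos, 0, h4.mono fun t ht => ?_⟩
    rwa [map_zero, ← coeff_zero_eq_eval_zero, coeff_map, pow_one]
  obtain ⟨p, q, hp, hq, b, b1, b2, b3, b4, j, hj, b5⟩ := exists_slope T.coeff hm h0 h4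
  have hd : n + 1 ≤ T.natDegree := le_natDegree_of_ne_zero fun h => h1 (by rw [h, map_zero])
  let Q : An[X] := ∑ i ∈ Finset.range (T.natDegree + 1), monomial i (b i)
  have hQ : ∀ i, Q.coeff i = if i < T.natDegree + 1 then b i else 0 := fun i => by
    simp only [Q, finsetSum_coeff, coeff_monomial, Finset.sum_ite_eq', Finset.mem_range]
  have hQ0 : (Q.map (ev 0)).natDegree = n + 1 := by
    refine natDegree_eq_of_le_of_coeff_ne_zero (natDegree_le_iff_coeff_eq_zero.2 fun i hi => ?_) ?_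
    · rw [coeff_map, hQ]
      split_ifs
      · exact b3 i hi
      · exact map_zero _
    · rwa [coeff_map, hQ, if_pos (by omega), b2]
  obtain ⟨c, m', h5, h6, h7, h8⟩ := exists_shift_lt hQ0
    (by rw [coeff_map, hQ, if_pos (by omega), b4 n (by omega) h3, map_zero]) hj
    (by rwa [coeff_map, hQ, if_pos (by omega)])
  obtain ⟨N, hN, U, hU⟩ := (ih m' h6 h5 (taylor (cs c) Q) (fun i hi => by
    rw [ev_taylor]; exact h7 i hi) (by rw [ev_taylor]; exact h8)).of_taylor
  refine ⟨N * q, Nat.mul_pos hN hq,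
    ⟨fun s => (s ^ N) ^ p * U.1 s, ((analyticAt_id.pow N).pow p).mul U.2⟩, ?_⟩
  have h9 := (tendsto_pow hN).eventually
    ((eventually_all_finset (Finset.range (T.natDegree + 1))).2 fun i _ => b1 i)
  filter_upwards [hU, h9] with s h10 h11
  have h12 : (Q.map (ev (s ^ N))).eval (ev s U) =
      ∑ i ∈ Finset.range (T.natDegree + 1), ev (s ^ N) (b i) * ev s U ^ i := by
    simp only [Q, Polynomial.map_sum, map_monomial, eval_finsetSum, eval_monomial]
  rw [eval_eq_sum, pow_mul]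
  calc _ = ∑ i ∈ Finset.range (T.natDegree + 1),
        ((s ^ N) ^ p) ^ (n + 1) * (ev (s ^ N) (b i) * ev s U ^ i) := by
        refine Finset.sum_congr rfl fun i hi => ?_
        rw [← mul_assoc, ← h11 i hi]
        simp only [ev_apply]
        ring
    _ = 0 := by rw [← Finset.mul_sum, ← h12, h10, mul_zero]

theorem split (d : ℕ) : ∀ P : An[X], P.Monic → P.natDegree = d → ∃ N : ℕ, 0 < N ∧
    ∃ Y : Fin d → An, ∀ᶠ t in 𝓝 (0 : ℂ), ∀ w,
      (P.map (ev (t ^ N))).eval w = ∏ l, (w - ev t (Y l)) := by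
  induction d with
  | zero =>
    intro P hm hd
    refine ⟨1, one_pos, Fin.elim0, Eventually.of_forall fun t w => ?_⟩
    rw [hm.natDegree_eq_zero.1 hd]
    simp
  | succ d ih =>
    intro P hm hd
    obtain ⟨c, m, h1, -, h2, h3⟩ := exists_shift (q := P.map (ev 0))
      (by rw [hm.natDegree_map, hd]; omega)
    obtain ⟨N, hN, Y, hY⟩ := (hasRoot m h1 (taylor (cs c) P) (fun i hi => by
      rw [ev_taylor]; exact h2 i hi) (by rw [ev_taylor]; exact h3)).of_taylor
    have hm' : (P.map (sb hN)).Monic := hm.map _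
    have hd' : (P.map (sb hN)).natDegree = d + 1 := by rw [hm.natDegree_map, hd]
    obtain ⟨N', hN', Y', hY'⟩ := ih (P.map (sb hN) /ₘ (X - C Y))
      (by
        rw [Monic, leadingCoeff_divByMonic_of_monic (monic_X_sub_C Y) (by
          rw [degree_X_sub_C, degree_eq_natDegree hm'.ne_zero, hd']
          exact_mod_cast Nat.le_add_left 1 d)]
        exact hm')
      (by rw [natDegree_divByMonic _ (monic_X_sub_C Y), natDegree_X_sub_C, hd']; rfl)
    refine ⟨N' * N, Nat.mul_pos hN' hN, Fin.cons (sb hN' Y) Y', ?_⟩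
    filter_upwards [hY', (tendsto_pow hN').eventually hY] with t h4 h5 w
    have h6 := congrArg (fun R => (R.map (ev (t ^ N'))).eval w)
      (modByMonic_add_div (P.map (sb hN)) (X - C Y))
    simp only [modByMonic_X_sub_C_eq_C_eval, Polynomial.map_add, Polynomial.map_mul,
      Polynomial.map_sub, map_C, map_X, eval_add, eval_mul, eval_sub, eval_C, eval_X, ev_eval,
      Polynomial.map_map, ev_sb, h5, h4, zero_add] at h6
    rw [pow_mul, ← h6, Fin.prod_univ_succ]
    rfl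

end Pui

open Pui in
/-- Puiseux expansions at infinity. -/
theorem puiseux {R : ℂ[X][X]} (hm : R.Monic) (hs : ∃ z, (R.map (evalRingHom z)).Separable) :
    ∃ N : ℕ, 0 < N ∧ ∃ Y : Fin R.natDegree → ℂ → ℂ, (∀ l, MeromorphicAt (Y l) 0) ∧
      ∀ᶠ t in 𝓝[≠] (0 : ℂ), ∀ w, R.evalEval (t ^ N)⁻¹ w = ∏ l, (w - Y l t) := by
  have _ := hs
  have h1 : ∀ i, ∃ n : ℕ, AnalyticAt ℂ (fun t : ℂ => t ^ n * (R.coeff i).eval t⁻¹) 0 := by
    intro i
    have : MeromorphicAt (fun t : ℂ => (R.coeff i).eval t⁻¹) 0 := by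
      simp only [eval_eq_sum_range]
      exact MeromorphicAt.fun_sum fun j _ =>
        (MeromorphicAt.const _ _).mul ((MeromorphicAt.id 0).inv.pow j)
    obtain ⟨n, hn⟩ := this
    exact ⟨n, by simpa using hn⟩
  choose n hn using h1
  obtain ⟨M, hM⟩ : ∃ M, ∀ i < R.natDegree, n i ≤ M :=
    ⟨(Finset.range R.natDegree).sup n, fun i hi => Finset.le_sup (f := n) (Finset.mem_range.2 hi)⟩
  let a : ℕ → An := fun i => ⟨fun t => t ^ (M * (R.natDegree - i) - n i) *
    (t ^ n i * (R.coeff i).eval t⁻¹), (analyticAt_id.pow _).mul (hn i)⟩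
  let P : An[X] := X ^ R.natDegree + ∑ i ∈ Finset.range R.natDegree, monomial i (a i)
  have h2 : (∑ i ∈ Finset.range R.natDegree, monomial i (a i)).degree < R.natDegree := by
    refine (degree_sum_le _ _).trans_lt ((Finset.sup_lt_iff (WithBot.bot_lt_coe _)).2 fun i hi => ?_)
    exact (degree_monomial_le _ _).trans_lt (by exact_mod_cast Finset.mem_range.1 hi)
  have h3 : P.Monic := monic_X_pow_add h2
  have h4 : P.natDegree = R.natDegree := by
    refine natDegree_eq_of_degree_eq_some ?_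
    rw [degree_add_eq_left_of_degree_lt (by rwa [degree_X_pow]), degree_X_pow]
  have h5 : ∀ t w : ℂ, t ≠ 0 → (P.map (ev t)).eval (t ^ M * w) =
      (t ^ M) ^ R.natDegree * R.evalEval t⁻¹ w := by
    intro t w _
    have e : R.evalEval t⁻¹ w = w ^ R.natDegree +
        ∑ i ∈ Finset.range R.natDegree, (R.coeff i).eval t⁻¹ * w ^ i := by
      rw [← eval₂_evalRingHom, eval₂_eq_sum_range, Finset.sum_range_succ, hm.coeff_natDegree,
        map_one, one_mul, add_comm]
      rfl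
    simp only [e, P, Polynomial.map_add, Polynomial.map_pow, map_X, Polynomial.map_sum,
      map_monomial, eval_add, eval_pow, eval_X, eval_finsetSum, eval_monomial, mul_add,
      Finset.mul_sum, mul_pow]
    congr 1
    refine Finset.sum_congr rfl fun i hi => ?_
    have hi := Finset.mem_range.1 hi
    obtain ⟨r, hr⟩ := Nat.exists_eq_add_of_lt hi
    have h6 : n i ≤ M * (R.natDegree - i) :=
      (hM i hi).trans (Nat.le_mul_of_pos_right _ (by omega))
    have h7 : t ^ (M * (R.natDegree - i) - n i) * t ^ n i * (t ^ M) ^ i = (t ^ M) ^ R.natDegree := by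
      rw [← pow_add, Nat.sub_add_cancel h6, pow_mul, ← pow_add, Nat.sub_add_cancel hi.le]
    rw [← h7]
    simp only [a, ev_apply]
    ring
  obtain ⟨N, hN, Y, hY⟩ := split _ P h3 h4
  refine ⟨N, hN, fun l t => (Y l).1 t / (t ^ N) ^ M, fun l =>
    (AnalyticAt.meromorphicAt (Y l).2).div (((MeromorphicAt.id 0).pow N).pow M), ?_⟩
  filter_upwards [nhdsWithin_le_nhds hY, self_mem_nhdsWithin] with t ht h0 w
  have h6 : (t ^ N) ^ M ≠ 0 := pow_ne_zero _ (pow_ne_zero _ h0)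
  have h7 := ht ((t ^ N) ^ M * w)
  rw [h5 _ _ (pow_ne_zero _ h0)] at h7
  refine mul_left_cancel₀ (pow_ne_zero R.natDegree h6) (h7.trans ?_)
  rw [show ((t ^ N) ^ M) ^ R.natDegree = ∏ _l : Fin R.natDegree, (t ^ N) ^ M by simp,
    ← Finset.prod_mul_distrib]
  refine Finset.prod_congr rfl fun l _ => ?_
  rw [ev_apply]
  field_simp

end Pool.Agent.Lib.MP_6db618_an
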