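import Mathlib
import Pool.Agent.Lib.MP_6db618_an.InfCorr
import Pool.Agent.Lib.MP_6db618_an.InfPui
import Pool.Agent.Lib.MP_6db618_an.InfCount
import Pool.Agent.Lib.MP_6db618_an.InfLevel

set_option autoImplicit false

namespace Pool.Agent.Lib.MP_6db618_an

open Set Filter Topology Complex Polynomial

theorem Corr.lin_or_finite {T U : Sys} {R : ℂ[X][X]} (c : Corr T U R) {k : ℂ} (hk : k ≠ 0) :
    Lin T U ∨ {z | R.evalEval z (k * z) = 0}.Finite := by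
  have e : ∀ z, (R.eval (C k * X)).eval z = R.evalEval z (k * z) := fun z => by
    rw [← map_evalRingHom_eval, ← coe_evalRingHom z, ← eval₂_hom, eval₂_eq_eval_map]
    simp
  by_cases hp : R.eval (C k * X) = 0
  · refine Or.inl ⟨k, 0, hk, ((T.iso 0).mono fun w hw => ?_).frequently⟩
    have := c.root w (k * w) (by rw [← e, hp, eval_zero])
    exact ⟨hw.1, this.1.mp hw.1, this.2 hw.1⟩
  · exact Or.inr ((finite_setOfPred_isRoot hp).subset fun z hz => (e z).trans hz)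

theorem exists_lift {N : ℕ} (hN : 0 < N) {P : ℂ → Prop} (h : ∀ᶠ t in 𝓝[≠] (0 : ℂ), P t) :
    ∃ ρ : ℝ, ∀ z : ℂ, ρ < ‖z‖ → ∃ t, P t ∧ (t ^ N)⁻¹ = z := by
  obtain ⟨r, hr, hb⟩ := Metric.mem_nhds_iff.mp (eventually_nhdsWithin_iff.mp h)
  refine ⟨(r ^ N)⁻¹, fun z hz => ?_⟩
  have h0 : 0 < ‖z‖ := (by positivity : (0 : ℝ) < (r ^ N)⁻¹).trans hz
  obtain ⟨t, ht⟩ := IsAlgClosed.exists_pow_nat_eq z⁻¹ hN
  refine ⟨t, hb (mem_ball_zero_iff.mpr (lt_of_pow_lt_pow_left₀ N hr.le ?_)) fun h1 => ?_,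
    by rw [ht, inv_inv]⟩
  · rw [← norm_pow, ht, norm_inv]
    exact inv_lt_of_inv_lt₀ (by positivity) hz
  · rw [show t = 0 from h1, zero_pow hN.ne'] at ht
    exact norm_pos_iff.mp h0 (inv_eq_zero.mp ht.symm)

theorem exists_large {Z : Set ℂ} (hZ : Z.Infinite)
    (hfin : ∀ r, (Z ∩ Metric.closedBall 0 r).Finite) (ρ : ℝ) : ∃ z ∈ Z, ρ < ‖z‖ := by
  by_contra hno
  push Not at hno
  exact hZ ((hfin ρ).subset fun z hz => ⟨hz, mem_closedBall_zero_iff.mpr (hno z hz)⟩)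

theorem frequently_pole {T : Sys} (hinf : (T.Ωᶜ).Infinite) {N : ℕ} (hN : 0 < N) :
    ∃ᶠ t in 𝓝[≠] (0 : ℂ), (t ^ N)⁻¹ ∉ T.Ω := fun h => by
  obtain ⟨ρ, hρ⟩ := exists_lift hN h
  obtain ⟨z, h1, h2⟩ := exists_large hinf T.finite_poles ρ
  obtain ⟨t, h3, rfl⟩ := hρ z h2
  exact h3 h1

theorem not_finite_of_frequently {N : ℕ} (hN : 0 < N) {F : Set ℂ} (hF : F.Finite) :
    ∀ᶠ t in 𝓝[≠] (0 : ℂ), (t ^ N)⁻¹ ∉ F := by
  have h1 : Tendsto (fun t : ℂ => t ^ N) (𝓝[≠] 0) (𝓝[≠] 0) :=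
    tendsto_nhdsWithin_iff.mpr ⟨((continuous_pow N).tendsto' 0 0 (zero_pow hN.ne')).mono_left
      nhdsWithin_le_nhds, eventually_mem_nhdsWithin.mono fun t ht => pow_ne_zero N ht⟩
  exact (tendsto_inv₀_nhdsNE_zero.comp h1).eventually hF.isBounded

variable {T U : Sys} {R : ℂ[X][X]}

theorem Corr.tendsto_branch (c : Corr T U R) (hinf : (T.Ωᶜ).Infinite) {N : ℕ} (hN : 0 < N)
    {Y : ℂ → ℂ} (hY : MeromorphicAt Y 0)
    (h : ∀ᶠ t in 𝓝[≠] (0 : ℂ), R.evalEval (t ^ N)⁻¹ (Y t) = 0) :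
    Tendsto (fun t => ‖Y t‖) (𝓝[≠] 0) atTop := by
  rcases lt_or_ge (meromorphicOrderAt Y 0) 0 with h1 | h1
  · exact tendsto_norm_atTop_iff_cobounded.mpr (tendsto_cobounded_of_meromorphicOrderAt_neg h1)
  · obtain ⟨y, hy⟩ := tendsto_nhds_of_meromorphicOrderAt_nonneg hY h1
    obtain ⟨t, h2, h3, h4, h5⟩ := ((frequently_pole hinf hN).and_eventually (h.and
      ((hy.eventually (eventually_nhdsWithin_iff.mp (U.iso y))).and
        (not_finite_of_frequently hN (c.finite_left y))))).exists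
    refine absurd ?_ h5
    by_cases h6 : Y t = y
    · exact h6 ▸ h3
    · exact absurd ((c.root _ _ h3).1.mpr (h4 h6).1) h2

theorem Corr.gm (c : Corr T U R) {m m' : ℂ → ℕ} (hm : Res T m) (hm' : Res U m') {N : ℕ}
    (hN : 0 < N) {θ : ℂ → ℂ} (h1 : AnalyticAt ℂ θ 0) (h2 : θ 0 = 0) (h3 : deriv θ 0 ≠ 0)
    (h : ∀ᶠ t in 𝓝[≠] (0 : ℂ), R.evalEval (t ^ N)⁻¹ (θ t ^ N)⁻¹ = 0) :
    Gm {t | (t ^ N)⁻¹ ∉ T.Ω} (fun t => m (t ^ N)⁻¹) {t | (t ^ N)⁻¹ ∉ U.Ω}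
      (fun t => m' (t ^ N)⁻¹) θ := by
  refine ⟨h1, h2, h3, ?_⟩
  obtain ⟨k, rfl⟩ := Nat.exists_eq_add_one_of_ne_zero hN.ne'
  filter_upwards [h, eventually_eventually_nhdsWithin.mpr h, self_mem_nhdsWithin,
    mem_nhdsWithin_of_mem_nhds h1.eventually_analyticAt,
    h1.differentiableAt.hasDerivAt.eventually_ne h3 (c := 0)] with s e1 e2 e3 e4 e5
  have e3' : s ≠ 0 := e3
  refine ⟨not_congr (c.root _ _ e1).1, fun hs => ?_⟩
  have hs' : (θ s ^ (k + 1))⁻¹ ∉ U.Ω := mt (c.root _ _ e1).1.mpr hs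
  rw [nhdsWithin_eq_nhds.mpr (isOpen_compl_singleton.mem_nhds e3)] at e2
  have d1 := ((hasDerivAt_id s).fun_pow (k + 1)).fun_inv (pow_ne_zero _ e3')
  have d2 := (e4.differentiableAt.hasDerivAt.fun_pow (k + 1)).fun_inv (pow_ne_zero _ e5)
  have n0 : ((k + 1 : ℕ) : ℂ) ≠ 0 := Nat.cast_ne_zero.mpr k.succ_ne_zero
  have t1 := d1.tendsto_nhdsNE (by simp [e3', Nat.cast_add_one_ne_zero])
  have ev : ∀ᶠ t in 𝓝[≠] s, (θ t ^ (k + 1))⁻¹ ∈ U.Ω ∧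
      U.H (θ t ^ (k + 1))⁻¹ = T.H (t ^ (k + 1))⁻¹ := by
    filter_upwards [t1.eventually (T.iso _), mem_nhdsWithin_of_mem_nhds e2] with t a1 a2
    exact ⟨(c.root _ _ a2).1.mp a1.1, (c.root _ _ a2).2 a1.1⟩
  have t2 : Tendsto (fun t => (θ t ^ (k + 1))⁻¹) (𝓝[≠] s) (𝓝[≠] (θ s ^ (k + 1))⁻¹) :=
    tendsto_nhdsWithin_iff.mpr ⟨d2.continuousAt.tendsto.mono_left nhdsWithin_le_nhds,
      ev.mono fun t ht h0 => hs' ((show _ = _ from h0) ▸ ht.1)⟩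
  have key := tendsto_nhds_unique_of_eventuallyEq
    (((hm _ hs).2.comp t1).mul (hasDerivAt_iff_tendsto_slope.mp d2))
    (((hm' _ hs').2.comp t2).mul (hasDerivAt_iff_tendsto_slope.mp d1)) (ev.mono fun t ht => by
      simp only [Function.comp, slope_def_field, ht.2, id]
      ring)
  simp only [id, Nat.add_sub_cancel] at key
  generalize m (s ^ (k + 1))⁻¹ = μ at key ⊢
  generalize m' (θ s ^ (k + 1))⁻¹ = μ' at key ⊢
  field_simp at key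
  have p1 := pow_ne_zero k e3'
  have p2 := pow_ne_zero k e5
  refine mul_left_cancel₀ (mul_ne_zero p1 p2) ?_
  linear_combination key

theorem puiseux_common {R : Fin 4 → ℂ[X][X]} (hm : ∀ j, (R j).Monic)
    (hs : ∀ j, ∃ z, ((R j).map (evalRingHom z)).Separable) :
    ∃ N : ℕ, 0 < N ∧ ∃ Y : ∀ j, Fin (R j).natDegree → ℂ → ℂ, (∀ j l, MeromorphicAt (Y j l) 0) ∧
      ∀ᶠ t in 𝓝[≠] (0 : ℂ), ∀ j w, (R j).evalEval (t ^ N)⁻¹ w = ∏ l, (w - Y j l t) := by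
  choose N hN Y hY h using fun j => puiseux (hm j) (hs j)
  have hM : ∀ j, 0 < ∏ i ∈ Finset.univ.erase j, N i := fun j => Finset.prod_pos fun i _ => hN i
  refine ⟨∏ i, N i, Finset.prod_pos fun i _ => hN i,
    fun j l t => Y j l (t ^ ∏ i ∈ Finset.univ.erase j, N i), fun j l => ?_,
    eventually_all.mpr fun j => ?_⟩
  · refine MeromorphicAt.comp_analyticAt (f := Y j l)
      (g := fun t : ℂ => t ^ ∏ i ∈ Finset.univ.erase j, N i) ?_ (by fun_prop)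
    simpa only [zero_pow (hM j).ne'] using hY j l
  · have h1 : Tendsto (fun t : ℂ => t ^ ∏ i ∈ Finset.univ.erase j, N i) (𝓝[≠] 0) (𝓝[≠] 0) :=
      tendsto_nhdsWithin_iff.mpr ⟨((continuous_pow _).tendsto' 0 0
        (zero_pow (hM j).ne')).mono_left nhdsWithin_le_nhds,
        eventually_mem_nhdsWithin.mono fun t ht => pow_ne_zero _ ht⟩
    filter_upwards [h1.eventually (h j)] with t ht w
    rw [← ht w, ← pow_mul, Finset.prod_erase_mul _ _ (Finset.mem_univ j)]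

theorem sw_tendsto {l : Filter ℂ} [l.NeBot] {y : Fin 4 → ℂ → ℂ} {σ : ℂ → ℂ} {η c : Fin 4 → ℂ}
    (hσ : Tendsto σ l (Bornology.cobounded ℂ))
    (hy : ∀ j, Tendsto (fun t => y j t - η j - c j * σ t) l (𝓝 0))
    (h : ∀ᶠ t in l, y 0 t * y 1 t = y 2 t * y 3 t) :
    Tendsto (fun t => η 1 * y 0 t + η 0 * y 1 t - η 3 * y 2 t - η 2 * y 3 t) l
      (𝓝 (2 * (η 0 * η 1 - η 2 * η 3))) := by
  have s0 : Tendsto (fun t => (σ t)⁻¹) l (𝓝 0) := tendsto_inv₀_cobounded.comp hσ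
  have s1 : ∀ᶠ t in l, σ t ≠ 0 := hσ.eventually (Bornology.isBounded_singleton (x := (0 : ℂ)))
  have s2 : ∀ j, Tendsto (fun t => (y j t - η j - c j * σ t + η j) * (σ t)⁻¹ + c j) l
      (𝓝 (c j)) := fun j => by simpa using (((hy j).add_const (η j)).mul s0).add_const (c j)
  have hA : c 0 * c 1 = c 2 * c 3 := tendsto_nhds_unique_of_eventuallyEq ((s2 0).mul (s2 1))
    ((s2 2).mul (s2 3)) (by
      filter_upwards [h, s1] with t h1 h2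
      field_simp
      linear_combination h1)
  have hB : c 0 * η 1 + c 1 * η 0 = c 2 * η 3 + c 3 * η 2 := by
    have s3 := fun i j => ((((hy j).add_const (η j)).const_mul (c i)).add
      (((hy i).add_const (η i)).const_mul (c j))).add
      ((((hy i).add_const (η i)).mul ((hy j).add_const (η j))).mul s0)
    simp only [zero_add, mul_zero, add_zero] at s3
    refine tendsto_nhds_unique_of_eventuallyEq (s3 0 1) (s3 2 3) ?_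
    filter_upwards [h, s1] with t h1 h2
    field_simp
    linear_combination h1 - σ t ^ 2 * hA
  have s4 := (((((hy 0).const_mul (η 1)).add ((hy 1).const_mul (η 0))).sub
    ((hy 2).const_mul (η 3))).sub ((hy 3).const_mul (η 2))).add_const
      (2 * (η 0 * η 1 - η 2 * η 3))
  simp only [mul_zero, add_zero, sub_zero, zero_add] at s4
  refine s4.congr fun t => ?_
  linear_combination (-σ t) * hB

/-- The admissible quadruples. -/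
def Quad (R : Fin 4 → ℂ[X][X]) (e : Fin 4 → ℂ) : Prop :=
  (∀ j, (R j).evalEval (e 0) (e j) = 0) ∧ e 0 * e 1 = e 2 * e 3

/-- The branches at infinity of the admissible quadruples. -/
structure Branch (R : Fin 4 → ℂ[X][X]) (N : ℕ) {K : Type} (θ : K → Fin 4 → ℂ → ℂ) : Prop where
  pos : 0 < N
  germ : ∀ k j, AnalyticAt ℂ (θ k j) 0 ∧ θ k j 0 = 0 ∧ deriv (θ k j) 0 ≠ 0
  zero : ∀ k t, θ k 0 t = t
  root : ∀ k j, j ≠ 0 → ∀ᶠ t in 𝓝[≠] (0 : ℂ), (R j).evalEval (t ^ N)⁻¹ (θ k j t ^ N)⁻¹ = 0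
  rel : ∀ k, ∀ᶠ t in 𝓝[≠] (0 : ℂ),
    (θ k 0 t ^ N)⁻¹ * (θ k 1 t ^ N)⁻¹ = (θ k 2 t ^ N)⁻¹ * (θ k 3 t ^ N)⁻¹
  cover : ∀ {P : K → ℂ → Prop}, (∀ k, ∀ᶠ t in 𝓝[≠] (0 : ℂ), P k t) → ∃ ρ : ℝ,
    ∀ e : Fin 4 → ℂ, ρ < ‖e 0‖ → Quad R e → ∃ k t, P k t ∧ e = fun j => (θ k j t ^ N)⁻¹

theorem exists_branch {R : Fin 4 → ℂ[X][X]} (hm : ∀ j, (R j).Monic)
    (hs : ∀ j, ∃ z, ((R j).map (evalRingHom z)).Separable)
    (hb : ∀ j (N : ℕ) (Y : ℂ → ℂ), 0 < N → MeromorphicAt Y 0 →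
      (∀ᶠ t in 𝓝[≠] (0 : ℂ), (R j).evalEval (t ^ N)⁻¹ (Y t) = 0) →
      Tendsto (fun t => ‖Y t‖) (𝓝[≠] 0) atTop)
    (h01 : ∀ (N n : ℕ) (φ : ℂ → ℂ), 0 < N → 0 < n → AnalyticAt ℂ φ 0 → φ 0 = 0 → deriv φ 0 ≠ 0 →
      (∀ᶠ t in 𝓝[≠] (0 : ℂ), (R 1).evalEval (t ^ N)⁻¹ (φ t ^ n)⁻¹ = 0) → N = n)
    (h23 : ∀ (N m n : ℕ) (θ φ : ℂ → ℂ), 0 < N → 0 < m → 0 < n → AnalyticAt ℂ θ 0 → θ 0 = 0 →
      deriv θ 0 ≠ 0 → AnalyticAt ℂ φ 0 → φ 0 = 0 → deriv φ 0 ≠ 0 →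
      (∀ᶠ t in 𝓝[≠] (0 : ℂ), (R 2).evalEval (t ^ N)⁻¹ (θ t ^ m)⁻¹ = 0 ∧
        (R 3).evalEval (t ^ N)⁻¹ (φ t ^ n)⁻¹ = 0) → m = n) :
    ∃ (N : ℕ) (K : Type) (_ : Finite K) (θ : K → Fin 4 → ℂ → ℂ), Branch R N θ := by
  obtain ⟨N, hN, Y, hY, hP⟩ := puiseux_common hm hs
  have hroot : ∀ j l, ∀ᶠ t in 𝓝[≠] (0 : ℂ), (R j).evalEval (t ^ N)⁻¹ (Y j l t) = 0 := fun j l =>
    hP.mono fun t ht => (ht j _).trans (Finset.prod_eq_zero (Finset.mem_univ l) (sub_self _))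
  choose n hn φ h1 h2 h3 h4 using fun j l => exists_root_germ (hY j l)
    (hb j N _ hN (hY j l) (hroot j l))
  have hid : AnalyticAt ℂ (fun t : ℂ => t) 0 ∧ (fun t : ℂ => t) 0 = 0 ∧
      deriv (fun t : ℂ => t) 0 ≠ 0 := ⟨analyticAt_id, rfl, by simp⟩
  let K := {l : ∀ j, Fin (R j).natDegree //
    ∀ᶠ t in 𝓝[≠] (0 : ℂ), (t ^ N)⁻¹ * Y 1 (l 1) t = Y 2 (l 2) t * Y 3 (l 3) t}
  have hord : ∀ k : K, n 1 (k.1 1) = N ∧ n 2 (k.1 2) = N ∧ n 3 (k.1 3) = N := fun k => by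
    have a1 : N = n 1 (k.1 1) := h01 _ _ _ hN (hn _ _) (h1 _ _) (h2 _ _) (h3 _ _) (by
      filter_upwards [hroot 1 (k.1 1), h4 1 (k.1 1)] with t b1 b2
      rwa [← b2])
    have a2 : n 2 (k.1 2) = n 3 (k.1 3) := h23 N _ _ _ _ hN (hn _ _) (hn _ _) (h1 _ _) (h2 _ _)
      (h3 _ _) (h1 _ _) (h2 _ _) (h3 _ _) (by
        filter_upwards [hroot 2 (k.1 2), h4 2 (k.1 2), hroot 3 (k.1 3), h4 3 (k.1 3)]
          with t b1 b2 b3 b4
        rw [← b2, ← b4]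
        exact ⟨b1, b3⟩)
    have a3 : N + n 1 (k.1 1) = n 2 (k.1 2) + n 3 (k.1 3) := order_add hid
      ⟨h1 _ _, h2 _ _, h3 _ _⟩ ⟨h1 _ _, h2 _ _, h3 _ _⟩ ⟨h1 _ _, h2 _ _, h3 _ _⟩ (by
        filter_upwards [k.2, h4 1 (k.1 1), h4 2 (k.1 2), h4 3 (k.1 3)] with t b1 b2 b3 b4
        rw [← b2, ← b3, ← b4, b1])
    omega
  let θ : K → Fin 4 → ℂ → ℂ := fun k => ![fun t => t, φ 1 (k.1 1), φ 2 (k.1 2), φ 3 (k.1 3)]
  have hθ : ∀ k : K, ∀ᶠ t in 𝓝[≠] (0 : ℂ), Y 1 (k.1 1) t = (θ k 1 t ^ N)⁻¹ ∧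
      Y 2 (k.1 2) t = (θ k 2 t ^ N)⁻¹ ∧ Y 3 (k.1 3) t = (θ k 3 t ^ N)⁻¹ := fun k => by
    filter_upwards [h4 1 (k.1 1), h4 2 (k.1 2), h4 3 (k.1 3)] with t b1 b2 b3
    rw [(hord k).1] at b1
    rw [(hord k).2.1] at b2
    rw [(hord k).2.2] at b3
    exact ⟨b1, b2, b3⟩
  refine ⟨N, K, inferInstance, θ, hN, fun k j => ?_, fun _ _ => rfl, fun k j hj => ?_,
    fun k => ?_, ?_⟩
  · fin_cases j
    exacts [hid, ⟨h1 _ _, h2 _ _, h3 _ _⟩, ⟨h1 _ _, h2 _ _, h3 _ _⟩, ⟨h1 _ _, h2 _ _, h3 _ _⟩]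
  · filter_upwards [hθ k, hroot 1 (k.1 1), hroot 2 (k.1 2), hroot 3 (k.1 3)] with t b1 b2 b3 b4
    fin_cases j
    exacts [absurd rfl hj, b1.1 ▸ b2, b1.2.1 ▸ b3, b1.2.2 ▸ b4]
  · filter_upwards [k.2, hθ k] with t b1 b2
    rw [← b2.1, ← b2.2.1, ← b2.2.2, ← b1]
    rfl
  · intro P hP'
    have a1 : ∀ l : ∀ j, Fin (R j).natDegree, ∀ᶠ t in 𝓝[≠] (0 : ℂ),
        (t ^ N)⁻¹ * Y 1 (l 1) t = Y 2 (l 2) t * Y 3 (l 3) t →
        ∀ᶠ t in 𝓝[≠] (0 : ℂ), (t ^ N)⁻¹ * Y 1 (l 1) t = Y 2 (l 2) t * Y 3 (l 3) t := fun l => by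
      have b1 : MeromorphicAt (fun t => (t ^ N)⁻¹ * Y 1 (l 1) t - Y 2 (l 2) t * Y 3 (l 3) t) 0 :=
        ((((MeromorphicAt.id 0).pow N).inv).mul (hY _ _)).sub ((hY _ _).mul (hY _ _))
      rcases b1.eventually_eq_zero_or_eventually_ne_zero with b2 | b2
      · exact Eventually.of_forall fun _ _ => b2.mono fun t ht => sub_eq_zero.mp ht
      · exact b2.mono fun t ht h0 => absurd (sub_eq_zero.mpr h0) ht
    obtain ⟨ρ, hρ⟩ := exists_lift hN (hP.and ((eventually_all.mpr a1).and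
      ((eventually_all.mpr hθ).and (eventually_all.mpr hP'))))
    refine ⟨ρ, fun e b1 ⟨b2, b3⟩ => ?_⟩
    obtain ⟨t, ⟨c1, c2, c3, c4⟩, c5⟩ := hρ _ b1
    have c6 : ∀ j, ∃ l, e j = Y j l t := fun j => by
      have := b2 j
      rw [← c5, c1, Finset.prod_eq_zero_iff] at this
      exact this.imp fun l hl => sub_eq_zero.mp hl.2
    choose l hl using c6
    let k : K := ⟨l, c2 l (by rw [c5, ← hl, ← hl, ← hl, b3])⟩
    refine ⟨k, t, c4 k, funext fun j => ?_⟩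
    fin_cases j
    exacts [c5.symm, (hl 1).trans (c3 k).1, (hl 2).trans (c3 k).2.1, (hl 3).trans (c3 k).2.2]

/-- The swap function accumulates at infinity only at finitely many values. -/
def SwLim (R : Fin 4 → ℂ[X][X]) : Prop :=
  ∃ n : ℕ, 0 < n ∧ ∃ η : Fin 4 → ℂ, η ≠ 0 ∧ ∃ F : Finset ℂ, (0 ∈ F → η 0 * η 1 = η 2 * η 3) ∧
    ∀ ε : ℝ, 0 < ε → ∃ ρ : ℝ, ∀ e : Fin 4 → ℂ, ρ < ‖e 0‖ → Quad R e →
      ‖∏ c ∈ F, (Sw η n e - c)‖ < ε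

theorem tendsto_inv_pow {n : ℕ} (hn : 0 < n) :
    Tendsto (fun t : ℂ => (t ^ n)⁻¹) (𝓝[≠] 0) (Bornology.cobounded ℂ) :=
  tendsto_inv₀_nhdsNE_zero.comp (tendsto_nhdsWithin_iff.mpr ⟨((continuous_pow _).tendsto' 0 0
    (zero_pow hn.ne')).mono_left nhdsWithin_le_nhds,
    eventually_mem_nhdsWithin.mono fun _ ht => pow_ne_zero _ ht⟩)

section Branch

variable {R : Fin 4 → ℂ[X][X]} {N : ℕ} {K : Type} {θ : K → Fin 4 → ℂ → ℂ}

theorem Branch.nonempty (B : Branch R N θ)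
    (hex : ∀ ρ : ℝ, ∃ e : Fin 4 → ℂ, ρ < ‖e 0‖ ∧ Quad R e) : Nonempty K := by
  obtain ⟨ρ, hρ⟩ := B.cover (P := fun _ _ => True) fun _ => Eventually.of_forall fun _ => trivial
  obtain ⟨e, b1, b2⟩ := hex ρ
  obtain ⟨k, -⟩ := hρ e b1 b2
  exact ⟨k⟩

theorem Branch.lin (B : Branch R N θ) (c : Corr T U (R 2)) (k : K)
    (hl : ∃ c : ℂ, c ≠ 0 ∧ ∀ᶠ t in 𝓝 (0 : ℂ), θ k 2 t = c * t) : Lin T U := by
  obtain ⟨d, hd, b4⟩ := hl
  refine (c.lin_or_finite (inv_ne_zero (pow_ne_zero N hd))).resolve_right fun hf => ?_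
  obtain ⟨t, b5, b6, b7⟩ := ((not_finite_of_frequently B.pos hf).and
    ((B.root k 2 (by decide)).and (mem_nhdsWithin_of_mem_nhds b4))).exists
  refine b5 ?_
  rw [mem_ofPred_eq, ← mul_inv, ← mul_pow, ← show θ k 2 t = d * t from b7]
  exact b6

theorem Branch.swLim (B : Branch R N θ) {ν : ℕ} (hν : 0 < ν) {η : Fin 4 → ℂ} (hη : η ≠ 0)
    (hl : ∀ k j, ∃ c : ℂ, Tendsto
      (fun t => (θ k j t ^ N)⁻¹ ^ ν - η j - c * ((t ^ N)⁻¹ ^ ν - η 0)) (𝓝[≠] 0) (𝓝 0)) :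
    SwLim R := by
  refine ⟨ν, hν, η, hη, {2 * (η 0 * η 1 - η 2 * η 3)}, fun h => ?_, fun ε hε => ?_⟩
  · exact sub_eq_zero.mp ((mul_eq_zero.mp (Finset.mem_singleton.mp h).symm).resolve_left
      two_ne_zero)
  have hσ : Tendsto (fun t : ℂ => (t ^ N)⁻¹ ^ ν - η 0) (𝓝[≠] 0) (Bornology.cobounded ℂ) := by
    simpa only [Function.comp_def, pow_mul, inv_pow] using
      (tendsto_sub_const_cobounded (η 0)).comp (tendsto_inv_pow (Nat.mul_pos B.pos hν))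
  obtain ⟨ρ, hρ⟩ := B.cover (P := fun k t => ‖Sw η ν (fun j => (θ k j t ^ N)⁻¹) -
      2 * (η 0 * η 1 - η 2 * η 3)‖ < ε) fun k => by
    choose c hc using hl k
    have := sw_tendsto (y := fun j t => (θ k j t ^ N)⁻¹ ^ ν) hσ hc (by
      filter_upwards [B.rel k] with t b1
      rw [← mul_pow, ← mul_pow, b1])
    exact (tendsto_iff_norm_sub_tendsto_zero.mp this).eventually_lt_const hε
  refine ⟨ρ, fun e b1 b2 => ?_⟩
  obtain ⟨k, t, b4, rfl⟩ := hρ e b1 b2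
  rwa [Finset.prod_singleton]

end Branch

/-- Behaviour at infinity: either a homothety, or the swap function has a limit. -/
theorem swap_limit {S : Fin 4 → Sys} {m : Fin 4 → ℂ → ℕ} (hm : ∀ i, Res (S i) (m i))
    (hinf : ((S 0).Ωᶜ).Infinite) (h01 : ∀ z, z ∈ (S 1).Ω ↔ starRingEnd ℂ z ∈ (S 0).Ω)
    (h23 : ∀ z, z ∈ (S 3).Ω ↔ starRingEnd ℂ z ∈ (S 2).Ω) {R : Fin 4 → ℂ[X][X]}
    (hR : ∀ j, (R j).Monic ∧ Corr (S 0) (S j) (R j))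
    (hex : ∀ ρ : ℝ, ∃ e : Fin 4 → ℂ, ρ < ‖e 0‖ ∧ Quad R e) : Lin (S 0) (S 2) ∨ SwLim R := by
  obtain ⟨N, K, _, θ, B⟩ := exists_branch (fun j => (hR j).1)
    (fun j => (hR j).2.sep.imp fun _ h => h.1)
    (fun j N Y hN hY h => (hR j).2.tendsto_branch hinf hN hY h)
    (fun N n φ hN hn h1 h2 h3 h => order_eq hinf (S 0).finite_poles hN hn analyticAt_id rfl
      (by simp) h1 h2 h3 (h.mono fun t b1 =>
        not_congr (((hR 1).2.root _ _ b1).1.trans (h01 _))))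
    (fun N m n θ φ _ hm hn h1 h2 h3 h4 h5 h6 h => order_eq ((hR 2).2.infinite hinf)
      (S 2).finite_poles hm hn h1 h2 h3 h4 h5 h6 (h.mono fun t b =>
        not_congr (((hR 2).2.root _ _ b.1).1.symm.trans
          (((hR 3).2.root _ _ b.2).1.trans (h23 _)))))
  rcases swap_data B.pos (fun i => {t | (t ^ N)⁻¹ ∉ (S i).Ω}) (fun i t => m i (t ^ N)⁻¹)
    (frequently_pole hinf B.pos) (fun t ht => (hm 0 _ ht).1)
    (fun i ω t hω => by simp only [mem_ofPred_eq, mul_pow, hω, one_mul, and_self]) θ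
    (fun k j => by
      by_cases hj : j = 0
      · subst hj
        rw [show θ k 0 = fun t => t from funext (B.zero k)]
        exact ⟨analyticAt_id, rfl, by simp,
          Eventually.of_forall fun t => ⟨Iff.rfl, fun _ => by simp⟩⟩
      · exact (hR j).2.gm (hm 0) (hm j) B.pos (B.germ k j).1 (B.germ k j).2.1 (B.germ k j).2.2
          (B.root k j hj)) B.zero with hl | ⟨ν, hν, η, hη, hl⟩
  · obtain ⟨k⟩ := B.nonempty hex
    exact Or.inl (B.lin (hR 2).2 k (hl k 2))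
  · exact Or.inr (B.swLim hν hη hl)

end Pool.Agent.Lib.MP_6db618_an
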