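import Mathlib
import Pool.Agent.Lib.MP_6db618_an.EssDefs
import Pool.Agent.Lib.MP_6db618_an.InfSwap

set_option autoImplicit false

namespace Pool.Agent.Lib.MP_6db618_an

open Set Filter Topology Complex Polynomial

variable {T U : Sys} {R : ℂ[X][X]}

theorem esscorr_lift {N : ℕ} (hN : 0 < N) {P : ℂ → Prop}
    (h : ∀ᶠ t in 𝓝[≠] (0 : ℂ), P (t ^ N)⁻¹) : ∀ᶠ z in Bornology.cobounded ℂ, P z := by
  obtain ⟨ρ, hρ⟩ := exists_lift hN h
  filter_upwards [(tendsto_norm_cobounded_atTop (E := ℂ)).eventually_gt_atTop ρ] with z hz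
  obtain ⟨t, h1, rfl⟩ := hρ z hz
  exact h1

theorem esscorr_root_near (c : Corr T U R) {z : ℂ} (hz : R.leadingCoeff.eval z = 0) {ε : ℝ}
    (hε : 0 < ε) :
    ∀ᶠ w in Bornology.cobounded ℂ, ∃ v ∈ Metric.ball z ε, v ≠ z ∧ R.evalEval v w = 0 := by
  have hR0 : R ≠ 0 := fun h0 => c.ne 0 (by rw [h0, Polynomial.map_zero])
  have hA : R.leadingCoeff ≠ 0 := leadingCoeff_ne_zero.2 hR0
  obtain ⟨e, he⟩ := infcorr_natDegree R
  obtain ⟨z', hz1, hz2⟩ := ((infinite_of_mem_nhds z (Metric.ball_mem_nhds z hε)).sdiff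
    (finite_setOfPred_isRoot hA)).nonempty
  have hdeg : (R.map (evalRingHom z)).degree < (R.map (evalRingHom z')).degree := by
    rw [degree_map_eq_of_leadingCoeff_ne_zero (evalRingHom z') hz2]
    exact degree_map_lt hz hR0
  have hlit := (isLittleO_cobounded_of_degree_lt hdeg).bound
    (c := (2 * 2 ^ e)⁻¹) (by positivity)
  have f1 : ∀ᶠ w in Bornology.cobounded ℂ, w ∉ {w | IsRoot (R.map (evalRingHom z)) w} :=
    (finite_setOfPred_isRoot (c.ne z)).isBounded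
  have f2 : ∀ᶠ w in Bornology.cobounded ℂ, w ∉ {w | IsRoot (R.map (evalRingHom z')) w} :=
    (finite_setOfPred_isRoot (c.ne z')).isBounded
  filter_upwards [hlit, f1, f2] with w h2 g1 g2
  by_cases h3 : ∀ v ∈ Metric.ball z ε, (R.eval (C w)).eval v ≠ 0
  · have h4 := norm_eval_le (he w) h3 (mem_ball_iff_norm.1 hz1).le
    refine absurd ?_ g2
    change (R.map (evalRingHom z')).eval w = 0
    rw [map_evalRingHom_eval, map_evalRingHom_eval] at h2
    rw [map_evalRingHom_eval, ← norm_le_zero_iff]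
    change ‖R.evalEval z' w‖ ≤ 2 ^ e * ‖R.evalEval z w‖ at h4
    have h5 := h4.trans (mul_le_mul_of_nonneg_left h2 (by positivity))
    have h6 : (2 : ℝ) ^ e * ((2 * 2 ^ e)⁻¹ * ‖R.evalEval z' w‖) = ‖R.evalEval z' w‖ / 2 := by
      field_simp
    linarith
  · push Not at h3
    obtain ⟨v, hv1, hv2⟩ := h3
    refine ⟨v, hv1, fun h4 => g1 ?_, hv2⟩
    change (R.map (evalRingHom z)).eval w = 0
    rw [map_evalRingHom_eval, ← h4]
    exact hv2

theorem Corr.monic_ess (c : Corr T U R) (hU : Ess U) :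
    ∃ R' : ℂ[X][X], R'.Monic ∧ Corr T U R' ∧ ∀ z w, R.evalEval z w = 0 → R'.evalEval z w = 0 := by
  have hR0 : R ≠ 0 := fun h0 => c.ne 0 (by rw [h0, Polynomial.map_zero])
  have hA : R.leadingCoeff ≠ 0 := leadingCoeff_ne_zero.2 hR0
  have hA' : ∀ z, R.leadingCoeff.eval z ≠ 0 := by
    intro z hz
    by_cases hzΩ : z ∈ T.Ω
    · obtain ⟨ε, hε, hball⟩ := Metric.eventually_nhds_iff_ball.1
        (((T.continuousAt hzΩ).norm.eventually_lt_const (lt_add_one ‖T.H z‖)).and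
          (T.isOpen.mem_nhds hzΩ))
      obtain ⟨w, h1, v, h2, -, h3⟩ := ((hU.unb (‖T.H z‖ + 1)).and_eventually
        (esscorr_root_near c hz hε)).exists
      rw [(c.root v w h3).2 (hball v h2).2] at h1
      exact lt_asymm h1 (hball v h2).1
    · obtain ⟨M, hM⟩ := hU.osc
      obtain ⟨ε, hε, hball⟩ := Metric.eventually_nhds_iff_ball.1
        (eventually_nhdsWithin_iff.1 (((T.blow z hzΩ).eventually_gt_atTop M).and (T.iso z)))
      obtain ⟨w, h1, v, h2, h4, h3⟩ := (hM.and_eventually (esscorr_root_near c hz hε)).exists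
      rw [(c.root v w h3).2 (hball v h2 h4).2.1] at h1
      exact lt_asymm h1 (hball v h2 h4).1
  have hdeg : R.leadingCoeff.degree = 0 := by
    by_contra h0
    obtain ⟨z, hz⟩ := IsAlgClosed.exists_root _ h0
    exact hA' z hz
  obtain ⟨α, hα⟩ : ∃ α, R.leadingCoeff = C α := ⟨_, eq_C_of_degree_eq_zero hdeg⟩
  have hα0 : α ≠ 0 := fun h0 => hA (by rw [hα, h0, C_0])
  have hu : (C α⁻¹ : ℂ[X]) ≠ 0 := C_ne_zero.2 (inv_ne_zero hα0)
  have hmap : ∀ z, (C (C α⁻¹) * R).map (evalRingHom z) = C α⁻¹ * R.map (evalRingHom z) := by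
    intro z
    rw [Polynomial.map_mul, map_C, coe_evalRingHom, eval_C]
  have hev : ∀ z w, (C (C α⁻¹) * R).evalEval z w = α⁻¹ * R.evalEval z w := by
    intro z w
    rw [evalEval_mul, evalEval_C, eval_C]
  refine ⟨C (C α⁻¹) * R, ?_, ⟨fun z => ?_, ?_, fun z w h0 => ?_, ?_⟩, fun z w h0 => ?_⟩
  · apply monic_C_mul_of_mul_leadingCoeff_eq_one
    rw [hα, ← C_mul, inv_mul_cancel₀ hα0, C_1]
  · rw [hmap]
    exact mul_ne_zero hu (c.ne z)
  · rw [natDegree_C_mul hu]
    exact c.deg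
  · rw [hev] at h0
    exact c.root z w ((mul_eq_zero.1 h0).resolve_left (inv_ne_zero hα0))
  · obtain ⟨z, h1, h2⟩ := c.sep
    refine ⟨z, ?_, ?_⟩
    · rw [hmap]
      exact Separable.unit_mul (isUnit_C.2 (inv_ne_zero hα0).isUnit) h1
    · rw [hmap, natDegree_C_mul (inv_ne_zero hα0), natDegree_C_mul hu, h2]
  · rw [hev, h0, mul_zero]

theorem Corr.tendsto_branch_ess (c : Corr T U R) (hT : Ess T) {N : ℕ} (hN : 0 < N)
    {Y : ℂ → ℂ} (hY : MeromorphicAt Y 0)
    (h : ∀ᶠ t in 𝓝[≠] (0 : ℂ), R.evalEval (t ^ N)⁻¹ (Y t) = 0) :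
    Tendsto (fun t => ‖Y t‖) (𝓝[≠] 0) atTop := by
  rcases lt_or_ge (meromorphicOrderAt Y 0) 0 with h1 | h1
  · exact tendsto_norm_atTop_iff_cobounded.mpr (tendsto_cobounded_of_meromorphicOrderAt_neg h1)
  exfalso
  obtain ⟨y, hy⟩ := tendsto_nhds_of_meromorphicOrderAt_nonneg hY h1
  by_cases hyΩ : y ∈ U.Ω
  · have e1 := hy.eventually (((U.continuousAt hyΩ).norm.eventually_lt_const
      (lt_add_one ‖U.H y‖)).and (U.isOpen.mem_nhds hyΩ))
    have e2 : ∀ᶠ z in Bornology.cobounded ℂ, ‖T.H z‖ < ‖U.H y‖ + 1 := by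
      refine esscorr_lift hN ?_
      filter_upwards [h, e1] with t a1 a2
      rw [← (c.root _ _ a1).2 ((c.root _ _ a1).1.2 a2.2)]
      exact a2.1
    obtain ⟨z, a1, a2⟩ := ((hT.unb (‖U.H y‖ + 1)).and_eventually e2).exists
    exact lt_asymm a1 a2
  · obtain ⟨M, hM⟩ := hT.osc
    have e1 := hy.eventually (eventually_nhdsWithin_iff.1
      (((U.blow y hyΩ).eventually_gt_atTop M).and (U.iso y)))
    have e2 : ∀ᶠ z in Bornology.cobounded ℂ, M < ‖T.H z‖ := by
      refine esscorr_lift hN ?_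
      filter_upwards [h, e1, not_finite_of_frequently hN (c.finite_left y)] with t a1 a2 a3
      have a4 := a2 fun h6 => a3 (show R.evalEval (t ^ N)⁻¹ y = 0 from
        (show Y t = y from h6) ▸ a1)
      rw [← (c.root _ _ a1).2 ((c.root _ _ a1).1.2 a4.2.1)]
      exact a4.1
    obtain ⟨z, a1, a2⟩ := (hM.and_eventually e2).exists
    exact lt_asymm a1 a2

theorem Ess.eventually_mem (h : Ess T) {N : ℕ} (hN : 0 < N) :
    ∀ᶠ t in 𝓝[≠] (0 : ℂ), (t ^ N)⁻¹ ∈ T.Ω :=
  (not_finite_of_frequently hN h.fin).mono fun _ ht => not_not.1 ht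

theorem Ess.wild (h : Ess T) {N : ℕ} (hN : 0 < N) : Wild fun t => ‖T.H (t ^ N)⁻¹‖ := by
  refine ⟨?_, fun M hM => h.unb M (esscorr_lift hN (P := fun z => ¬ M < ‖T.H z‖) hM)⟩
  filter_upwards [h.eventually_mem hN, self_mem_nhdsWithin] with t h1 h2
  have h3 : ContinuousAt (fun t : ℂ => (t ^ N)⁻¹) t :=
    (continuous_pow N).continuousAt.inv₀ (pow_ne_zero N h2)
  exact (ContinuousAt.comp (f := fun t : ℂ => (t ^ N)⁻¹) (T.continuousAt h1) h3).norm

/-- A polynomial expression with finitely many values along all transports is constant. -/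
theorem const_of_finite {ι : Type} [Fintype ι] [Nonempty ι] {S : ι → Sys} {a : ℂ} {x : ι → ℂ}
    (h : Pt S a x) {Ψ : (ι → ℂ) → ℂ} (hΨ : Differentiable ℂ Ψ) {F : Set ℂ} (hF : F.Finite)
    (hv : ∀ b u, Tr S univ a b u → Ψ (fun i => u i (x i)) ∈ F) :
    ∀ b u, Tr S univ a b u → Ψ (fun i => u i (x i)) = Ψ x := by
  obtain ⟨η, hη, -, N, ψ, hψ⟩ := exists_charts h.reg (fun k => (h.fib k).2) univ_mem
  have ha : a ∈ Sq a η := mem_Sq_self a hη
  have hψa : ∀ k, ψ k a = x k := fun k => by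
    have := ((hψ k).1.left _ (hψ k).2).2
    rwa [(h.fib k).2] at this
  have hc : ContinuousOn (fun b => Ψ fun i => ψ i b) (Sq a η) :=
    hΨ.continuous.comp_continuousOn (continuousOn_pi.mpr fun i => (hψ i).1.cont)
  have hm : MapsTo (fun b => Ψ fun i => ψ i b) (Sq a η) F := by
    intro b hb
    have h1 := (dense_Grid S).open_subset_closure_inter (isOpen_Sq a η) hb
    refine hF.isClosed.closure_subset_iff.mpr ?_
      ((hc.continuousAt ((isOpen_Sq a η).mem_nhds hb)).continuousWithinAt.mem_closure_image h1)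
    rintro _ ⟨b', hb', rfl⟩
    obtain ⟨v, hv'⟩ := exists_Tr_Grid ha hb'.1 h.line hb'.2
    have e : (fun i => v i (x i)) = fun i => ψ i b' := funext fun i => by
      rw [← hψa i]
      exact hv'.chart (hψ i).1 (convex_Sq a η) Subset.rfl
    have := hv b' v (hv'.mono (subset_univ _))
    rwa [e] at this
  have hR : Rel S (fun y => Ψ y - Ψ x) x := by
    refine Rel.of_chart (fun i => (hψ i).1) (fun b hb => sub_eq_zero.mpr ?_) fun i => (hψ i).2
    have := (convex_Sq a η).isPreconnected.constant_of_mapsTo hF.isDiscrete hc hm hb ha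
    simpa only [hψa] using this
  exact fun b u hu => sub_eq_zero.mp (hu.rel_eq (hΨ.sub_const _) h.fib hR)

end Pool.Agent.Lib.MP_6db618_an
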