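import Mathlib
import Pool.Agent.Lib.MP_6db618_an.EssDefs

set_option autoImplicit false

namespace Pool.Agent.Lib.MP_6db618_an

open Set Filter Topology Complex Polynomial

variable {Φ Φ' Φ'' : ℂ → ℝ} {θ φ : ℂ → ℂ} {ν : ℕ} {b c : ℂ}

theorem Wild.descent (h : Wild Φ) (hν : 0 < ν) {δ : ℝ} (hδ : 0 < δ)
    (hs : ∀ r : ℝ, 0 < r → ∀ᶠ t in 𝓝[≠] (0 : ℂ), ∃ s : ℂ, s ≠ 0 ∧ ‖s‖ < r ∧
      ‖s ^ ν‖⁻¹ ≤ ‖t ^ ν‖⁻¹ - δ ∧ Φ t ≤ Φ s) : False := by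
  have _ := hν
  obtain ⟨ε, hε, h1⟩ := Metric.eventually_nhds_iff_ball.1 (eventually_nhdsWithin_iff.1 h.cont)
  obtain ⟨r, hr, h2⟩ := Metric.eventually_nhds_iff_ball.1
    (eventually_nhdsWithin_iff.1 (hs _ (half_pos hε)))
  have hK : IsCompact (Metric.closedBall (0 : ℂ) (ε / 2) \ Metric.ball 0 r) :=
    (isCompact_closedBall _ _).diff Metric.isOpen_ball
  obtain ⟨M, hM⟩ := hK.bddAbove_image (f := Φ) fun t ht => by
    refine (h1 t (Metric.closedBall_subset_ball (half_lt_self hε) ht.1) ?_).continuousWithinAt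
    rintro rfl
    exact ht.2 (Metric.mem_ball_self hr)
  have key : ∀ k : ℕ, ∀ t : ℂ, t ≠ 0 → ‖t‖ < ε / 2 → ‖t ^ ν‖⁻¹ ≤ k * δ → Φ t ≤ M := fun k => by
    induction k with
    | zero =>
      intro t ht _ h3
      have : 0 < ‖t ^ ν‖⁻¹ := inv_pos.2 (norm_pos_iff.2 (pow_ne_zero _ ht))
      simp only [Nat.cast_zero, zero_mul] at h3
      exact absurd this (not_lt.2 h3)
    | succ k ih =>
      intro t ht h3 h4
      by_cases h5 : t ∈ Metric.ball (0 : ℂ) r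
      · obtain ⟨s, a1, a2, a3, a4⟩ := h2 t h5 ht
        refine a4.trans (ih s a1 a2 ?_)
        push_cast at h4
        linarith
      · exact hM ⟨t, ⟨mem_closedBall_zero_iff.2 h3.le, h5⟩, rfl⟩
  have h6 : ∀ᶠ t in 𝓝[≠] (0 : ℂ), t ≠ 0 ∧ ‖t‖ < ε / 2 := by
    filter_upwards [self_mem_nhdsWithin,
      nhdsWithin_le_nhds (Metric.ball_mem_nhds (0 : ℂ) (half_pos hε))] with t a1 a2
    exact ⟨a1, mem_ball_zero_iff.1 a2⟩
  obtain ⟨t, a1, a2, a3⟩ := ((h.unb M).and_eventually h6).exists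
  obtain ⟨k, hk⟩ := exists_nat_ge (‖t ^ ν‖⁻¹ / δ)
  exact absurd (key k t a2 a3 ((div_le_iff₀ hδ).1 hk)) (not_le.2 a1)

theorem Gf.comp (h : Gf Φ Φ' θ) (h' : Gf Φ' Φ'' φ) : Gf Φ Φ'' (φ ∘ θ) := by
  refine ⟨h.gm.comp h'.gm, ?_⟩
  filter_upwards [h.ev, h.gm.lv_tendsto.eventually h'.ev] with t a1 a2
  exact a2.trans a1

theorem Gf.lv_inv (h : Gf Φ Φ' θ) (l : Lv ν θ c b) :
    ∃ φ, Gf Φ' Φ φ ∧ Lv ν φ c⁻¹ (-(c ^ ν * b)) := by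
  obtain ⟨φ, h', h1, h2⟩ := h.gm.inv
  have hc : c ≠ 0 := l.1 ▸ h.gm.ne
  have hd : deriv φ 0 * c = 1 := by
    rw [← l.1, ← h.gm.lv_deriv_comp h']
    have : φ ∘ θ =ᶠ[𝓝 0] id := h1
    rw [this.deriv_eq, deriv_id]
  refine ⟨φ, ⟨h', ?_⟩, eq_inv_of_mul_eq_one_left hd, ?_⟩
  · filter_upwards [h'.lv_tendsto.eventually h.ev, nhdsWithin_le_nhds h2] with t a1 a2
    have a3 : θ (φ t) = t := a2
    rw [← a1, a3]
  refine ((l.2.comp h'.lv_tendsto).const_mul (c ^ ν)).neg.congr' ?_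
  filter_upwards [nhdsWithin_le_nhds h2] with t ht
  have hcν : c ^ ν ≠ 0 := pow_ne_zero _ hc
  simp only [Function.comp_apply, ht, inv_pow, inv_inv]
  field_simp
  ring

theorem gf_rot {ω : ℂ} (hω : ω ≠ 0) (h : ∀ t, Φ (ω * t) = Φ t) : Gf Φ Φ fun t => ω * t := by
  refine ⟨gm_empty (by fun_prop) (mul_zero _) ?_, Eventually.of_forall h⟩
  simpa using hω

theorem EssDesc_ratio (h : Wild Φ) {f g : ℂ → ℂ} (hf : 𝓝[≠] 0 ≤ map f (𝓝[≠] 0))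
    (hf0 : Tendsto f (𝓝[≠] 0) (𝓝 0)) (hg : Tendsto g (𝓝[≠] 0) (𝓝[≠] 0)) {L : ℝ} (hL : L < 1)
    (hl : Tendsto (fun t => ‖f t‖ / ‖g t‖) (𝓝[≠] 0) (𝓝 L))
    (hev : ∀ᶠ t in 𝓝[≠] (0 : ℂ), Φ (f t) = Φ (g t)) : False := by
  refine h.descent one_pos one_pos fun r hr => ?_
  have h1 : ∀ᶠ t in 𝓝[≠] (0 : ℂ), ‖f t‖ / ‖g t‖ + ‖f t‖ < 1 :=
    (hl.add hf0.norm).eventually (gt_mem_nhds (by simpa using hL))
  have h2 : ∀ᶠ τ in map f (𝓝[≠] (0 : ℂ)), τ ≠ 0 → ∃ s : ℂ, s ≠ 0 ∧ ‖s‖ < r ∧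
      ‖s ^ 1‖⁻¹ ≤ ‖τ ^ 1‖⁻¹ - 1 ∧ Φ τ ≤ Φ s := by
    rw [eventually_map]
    filter_upwards [h1, hev, hg.eventually self_mem_nhdsWithin,
      hg.eventually (nhdsWithin_le_nhds (Metric.ball_mem_nhds (0 : ℂ) hr))] with t a1 a2 a3 a4 a5
    refine ⟨g t, a3, mem_ball_zero_iff.1 a4, ?_, a2.le⟩
    have a6 : 0 < ‖f t‖ := norm_pos_iff.2 a5
    rw [pow_one, pow_one, le_sub_iff_add_le, ← one_div ‖f t‖, le_div_iff₀ a6, add_mul, one_mul,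
      ← div_eq_inv_mul]
    exact a1.le
  filter_upwards [h2.filter_mono hf, self_mem_nhdsWithin] with t a1 a2
  exact a1 a2

/-- No hyperbolic germs. -/
theorem Gf.norm_deriv (hΦ : Wild Φ) (h : Gf Φ Φ θ) : ‖deriv θ 0‖ = 1 := by
  have key : ∀ {ψ : ℂ → ℂ}, Gf Φ Φ ψ → ‖deriv ψ 0‖ ≤ 1 := fun {ψ} hψ => by
    by_contra h1
    have h2 := hasDerivAt_iff_tendsto_slope_zero.1 hψ.gm.an.differentiableAt.hasDerivAt
    refine EssDesc_ratio hΦ (f := id) (g := ψ) (by simp) nhdsWithin_le_nhds hψ.gm.lv_tendsto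
      (inv_lt_one_of_one_lt₀ (not_le.1 h1)) ?_ (hψ.ev.mono fun t ht => ht.symm)
    refine (h2.norm.inv₀ (norm_ne_zero_iff.2 hψ.gm.ne)).congr fun t => ?_
    simp [hψ.gm.zero, div_eq_mul_inv, mul_comm]
  refine le_antisymm (key h) ?_
  obtain ⟨φ, h1, h2⟩ := h.lv_inv (ν := 0) (c := deriv θ 0) (b := 0) ⟨rfl, by simp⟩
  have h3 := key h1
  rwa [h2.1, norm_inv, inv_le_one₀ (norm_pos_iff.2 h.gm.ne)] at h3

theorem EssDesc_shift (hν : 0 < ν) (h : Gf Φ Φ θ) (l : Lv ν θ 1 b) {κ r : ℝ} (hκ : 0 < κ)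
    (hr : 0 < r) : ∀ᶠ t in 𝓝[≠] (0 : ℂ),
      ((t ^ ν)⁻¹ * starRingEnd ℂ b).re ≤ -(κ * ‖(t ^ ν)⁻¹‖) → ∃ s : ℂ, s ≠ 0 ∧ ‖s‖ < r ∧
        ‖s ^ ν‖⁻¹ ≤ ‖t ^ ν‖⁻¹ - κ / 4 ∧ Φ t ≤ Φ s := by
  have h1 : Tendsto (fun t : ℂ => t ^ ν) (𝓝[≠] 0) (𝓝[≠] 0) := by
    refine tendsto_nhdsWithin_iff.2 ⟨?_, eventually_mem_nhdsWithin.mono fun t ht => ?_⟩
    · have := (continuous_pow ν).tendsto (0 : ℂ)
      rw [zero_pow hν.ne'] at this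
      exact this.mono_left nhdsWithin_le_nhds
    · exact pow_ne_zero _ ht
  have h2 := tendsto_norm_cobounded_atTop.comp (tendsto_inv₀_nhdsNE_zero.comp h1)
  have h3 := (tendsto_iff_norm_sub_tendsto_zero.1 l.2).eventually
    (ge_mem_nhds (show 0 < κ / 4 by positivity))
  filter_upwards [h.ev, h.gm.lv_tendsto.eventually self_mem_nhdsWithin,
    h.gm.lv_tendsto.eventually (nhdsWithin_le_nhds (Metric.ball_mem_nhds (0 : ℂ) hr)), h3,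
    h2.eventually_ge_atTop κ, h2.eventually_ge_atTop (‖b‖ ^ 2 / κ)] with t a1 a2 a3 a4 a5 a6 a7
  refine ⟨θ t, a2, mem_ball_zero_iff.1 a3, ?_, a1.ge⟩
  rw [← norm_inv, ← norm_inv]
  simp only [Function.comp_apply, one_pow, inv_one, one_mul] at a4 a5 a6
  generalize (t ^ ν)⁻¹ = y at a4 a5 a6 a7
  generalize (θ t ^ ν)⁻¹ = z at a4
  have b1 : ‖y + b‖ ≤ ‖y‖ - κ / 2 := by
    refine (pow_le_pow_iff_left₀ (norm_nonneg _) (by linarith) two_ne_zero).1 ?_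
    rw [div_le_iff₀ hκ] at a6
    rw [← normSq_eq_norm_sq, normSq_add, normSq_eq_norm_sq, normSq_eq_norm_sq]
    nlinarith [sq_nonneg κ]
  have b2 := norm_add_le (z - y - b) (y + b)
  rw [show z - y - b + (y + b) = z by ring] at b2
  linarith

/-- No two independent translations. -/
theorem Wild.im_eq_zero (hΦ : Wild Φ) (hν : 0 < ν) (h : Gf Φ Φ θ) (h' : Gf Φ Φ φ) {ζ : ℂ}
    (l : Lv ν θ 1 b) (l' : Lv ν φ 1 (ζ * b)) (hb : b ≠ 0) : ζ.im = 0 := by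
  by_contra hζ
  obtain ⟨θ', k, m⟩ := h.lv_inv l
  obtain ⟨φ', k', m'⟩ := h'.lv_inv l'
  rw [inv_one, one_pow, one_mul] at m m'
  have h1 : 0 < |ζ.im| := abs_pos.2 hζ
  have h2 : 0 < ‖b‖ := norm_pos_iff.2 hb
  have hκ : 0 < ‖b‖ * |ζ.im| / (|ζ.im| + 1 + |ζ.re|) := by positivity
  refine hΦ.descent hν (δ := ‖b‖ * |ζ.im| / (|ζ.im| + 1 + |ζ.re|) / 4) (by positivity)
    fun r hr => ?_
  filter_upwards [EssDesc_shift hν h l hκ hr, EssDesc_shift hν h' l' hκ hr,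
    EssDesc_shift hν k m hκ hr, EssDesc_shift hν k' m' hκ hr] with t a1 a2 a3 a4
  by_contra hn
  have b1 := not_le.1 (mt a1 hn)
  have b2 := not_le.1 (mt a2 hn)
  have b3 := not_le.1 (mt a3 hn)
  have b4 := not_le.1 (mt a4 hn)
  generalize (t ^ ν)⁻¹ = y at b1 b2 b3 b4
  rw [map_neg, mul_neg, neg_re] at b3 b4
  rw [map_mul, mul_comm (starRingEnd ℂ ζ), ← mul_assoc] at b2 b4
  have e : ‖y * starRingEnd ℂ b‖ = ‖b‖ * ‖y‖ := by rw [norm_mul, norm_conj, mul_comm]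
  have e2 : ‖b‖ * |ζ.im| / (|ζ.im| + 1 + |ζ.re|) * ‖y‖ =
      ‖y * starRingEnd ℂ b‖ * |ζ.im| / (|ζ.im| + 1 + |ζ.re|) := by
    rw [e]
    ring
  rw [e2] at b1 b2 b3 b4
  generalize y * starRingEnd ℂ b = v at b1 b2 b3 b4
  obtain ⟨M, hM⟩ : ∃ M, M = ‖v‖ * |ζ.im| / (|ζ.im| + 1 + |ζ.re|) := ⟨_, rfl⟩
  rw [← hM] at b1 b2 b3 b4
  rw [eq_div_iff (by positivity)] at hM
  have c1 : |v.re| < M := abs_lt.2 ⟨b1, by linarith⟩
  have c2 : |v.re * ζ.re + v.im * ζ.im| < M := by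
    simp only [mul_re, conj_re, conj_im, mul_neg, sub_neg_eq_add] at b2 b4
    exact abs_lt.2 ⟨b2, by linarith⟩
  have c3 : |v.im| * |ζ.im| ≤ |v.re * ζ.re + v.im * ζ.im| + |v.re| * |ζ.re| := by
    rw [← abs_mul, ← abs_mul]
    have := abs_sub (v.re * ζ.re + v.im * ζ.im) (v.re * ζ.re)
    rwa [add_sub_cancel_left] at this
  have c4 := mul_le_mul_of_nonneg_right (norm_le_abs_re_add_abs_im v) h1.le
  have c5 := mul_le_mul_of_nonneg_right c1.le (abs_nonneg ζ.re)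
  have c6 := mul_le_mul_of_nonneg_right c1.le h1.le
  linarith

theorem EssDesc_tendsto {n : ℕ} (hn : 0 < n) (h₁ : AnalyticAt ℂ θ 0) (h₂ : θ 0 = 0)
    (h₃ : deriv θ 0 ≠ 0) : Tendsto (fun t => θ t ^ n) (𝓝[≠] 0) (𝓝[≠] 0) := by
  have h1 := InfGerm.tendsto_nhdsNE h₁ h₂ h₃
  refine tendsto_nhdsWithin_iff.2 ⟨?_, (h1.eventually self_mem_nhdsWithin).mono fun t ht => ?_⟩
  · have := (h1.mono_right nhdsWithin_le_nhds).pow n
    rwa [zero_pow hn.ne'] at this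
  · exact pow_ne_zero _ ht

theorem EssDesc_onto {n : ℕ} (hn : 0 < n) (h₁ : AnalyticAt ℂ θ 0) (h₂ : θ 0 = 0)
    (h₃ : deriv θ 0 ≠ 0) : 𝓝[≠] 0 ≤ map (fun t => θ t ^ n) (𝓝[≠] 0) := fun U hU => by
  have hmap : map θ (𝓝 (0 : ℂ)) = 𝓝 0 := by
    have := h₁.hasStrictDerivAt.map_nhds_eq h₃
    rwa [h₂] at this
  have h1 : ∀ᶠ u in map θ (𝓝 (0 : ℂ)), u ≠ 0 → u ^ n ∈ U := by
    rw [eventually_map]
    filter_upwards [eventually_nhdsWithin_iff.1 hU] with t a1 a2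
    exact a1 fun e => a2 (by rw [show t = 0 from e, h₂])
  rw [hmap] at h1
  obtain ⟨ε, hε, h2⟩ := Metric.eventually_nhds_iff_ball.1 h1
  filter_upwards [self_mem_nhdsWithin,
    nhdsWithin_le_nhds (Metric.ball_mem_nhds (0 : ℂ) (pow_pos hε n))] with w a1 a2
  obtain ⟨u, rfl⟩ := IsAlgClosed.exists_pow_nat_eq w hn
  refine h2 u ?_ fun e => a1 (by rw [e, zero_pow hn.ne']; rfl)
  rw [mem_ball_zero_iff] at a2 ⊢
  rw [norm_pow] at a2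
  exact lt_of_pow_lt_pow_left₀ n hε.le a2

theorem EssDesc_small {m n : ℕ} (hab : m < n) (h₁ : AnalyticAt ℂ θ 0) (h₂ : θ 0 = 0)
    (h₃ : deriv θ 0 ≠ 0) (h₄ : AnalyticAt ℂ φ 0) (h₅ : φ 0 = 0) :
    Tendsto (fun t => ‖φ t ^ n‖ / ‖θ t ^ m‖) (𝓝[≠] 0) (𝓝 0) := by
  have e1 : φ =O[𝓝 0] fun t : ℂ => t := by
    simpa [h₅] using h₄.differentiableAt.hasDerivAt.isBigO_sub
  have e2 : (fun t : ℂ => t) =O[𝓝 0] θ := by
    simpa [h₂, Function.comp_def] using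
      (h₁.differentiableAt.hasDerivAt.isTheta_sub h₃).isBigO_symm
  have e3 : (fun t => φ t ^ m) =O[𝓝 0] fun t => θ t ^ m := (e1.trans e2).pow m
  have e4 : (fun t => φ t ^ (n - m)) =o[𝓝 0] fun _ => (1 : ℂ) := by
    rw [Asymptotics.isLittleO_one_iff]
    have := (h₄.continuousAt.tendsto.pow (n - m))
    rwa [h₅, zero_pow (by omega)] at this
  have e5 := (e3.mul_isLittleO e4).norm_norm.tendsto_div_nhds_zero
  simp only [← pow_add, mul_one, Nat.add_sub_cancel' hab.le] at e5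
  exact e5.mono_left nhdsWithin_le_nhds

theorem Wild.order_eq (h : Wild Φ) {m n : ℕ} (hm : 0 < m) (hn : 0 < n)
    (h₁ : AnalyticAt ℂ θ 0) (h₂ : θ 0 = 0) (h₃ : deriv θ 0 ≠ 0)
    (h₄ : AnalyticAt ℂ φ 0) (h₅ : φ 0 = 0) (h₆ : deriv φ 0 ≠ 0)
    (hev : ∀ᶠ t in 𝓝[≠] (0 : ℂ), Φ (θ t ^ m) = Φ (starRingEnd ℂ (φ t ^ n))) : m = n := by
  have c0 : Tendsto (starRingEnd ℂ) (𝓝[≠] 0) (𝓝[≠] 0) := by
    refine tendsto_nhdsWithin_iff.2 ⟨?_, eventually_mem_nhdsWithin.mono fun t ht => ?_⟩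
    · simpa using (continuous_conj.tendsto 0).mono_left nhdsWithin_le_nhds
    · simpa using ht
  have t1 := EssDesc_tendsto hm h₁ h₂ h₃
  have t2 := c0.comp (EssDesc_tendsto hn h₄ h₅ h₆)
  by_contra hne
  rcases lt_or_gt_of_ne hne with hlt | hlt
  · refine EssDesc_ratio h (f := starRingEnd ℂ ∘ fun t => φ t ^ n) ?_
      (t2.mono_right nhdsWithin_le_nhds) t1 one_pos ?_ (hev.mono fun t ht => ht.symm)
    · rw [← map_map]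
      refine le_trans (fun U hU => ?_) (map_mono (EssDesc_onto hn h₄ h₅ h₆))
      simpa [mem_map, preimage_preimage] using c0 hU
    · simpa using EssDesc_small hlt h₁ h₂ h₃ h₄ h₅
  · refine EssDesc_ratio h (EssDesc_onto hm h₁ h₂ h₃) (t1.mono_right nhdsWithin_le_nhds) t2
      one_pos ?_ hev
    simpa using EssDesc_small hlt h₄ h₅ h₆ h₁ h₂

end Pool.Agent.Lib.MP_6db618_an
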