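import Mathlib
import Pool.Agent.Lib.MP_6db618_an.InfDefs

set_option autoImplicit false

namespace Pool.Agent.Lib.MP_6db618_an

open Set Filter Topology Complex Polynomial

variable {f g : ℂ → ℂ}

theorem eventually_ne_entire (hf : Differentiable ℂ f) (h0 : ∃ z, f z ≠ 0) (z : ℂ) :
    ∀ᶠ w in 𝓝[≠] z, f w ≠ 0 := by
  by_contra h
  obtain ⟨y, hy⟩ := h0
  exact hy (entire_eq_zero hf (c := z) (by simpa [not_eventually] using h) y)

theorem exists_LD_num_ne (hf : Differentiable ℂ f) (h0 : f 0 ≠ 0) (h1 : ∃ z, deriv f z ≠ 0) :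
    ∃ z, (deriv f z + z * deriv (deriv f) z) * f z - z * deriv f z * deriv f z ≠ 0 := by
  by_contra h
  push Not at h
  obtain ⟨y, hy⟩ := h1
  obtain ⟨r, hr, hb⟩ := Metric.mem_nhds_iff.mp (hf.continuous.continuousAt.eventually_ne h0)
  have hd : ∀ w ∈ Metric.ball (0 : ℂ) r, HasDerivAt (LD f) 0 w := fun w hw =>
    (hasDerivAt_LD hf (hb hw)).congr_deriv (by rw [h w, zero_div])
  have hc : ∀ w ∈ Metric.ball (0 : ℂ) r, LD f w = LD f 0 := fun w hw =>
    Metric.isOpen_ball.is_const_of_deriv_eq_zero (convex_ball (0 : ℂ) r).isPreconnected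
      (fun w hw => (hd w hw).differentiableAt.differentiableWithinAt)
      (fun w hw => (hd w hw).deriv) hw (Metric.mem_ball_self hr)
  refine hy (entire_eq_zero hf.deriv (c := 0) (Eventually.frequently ?_) y)
  filter_upwards [mem_nhdsWithin_of_mem_nhds (Metric.ball_mem_nhds (0 : ℂ) hr),
    self_mem_nhdsWithin] with w hw hw0
  have := hc w hw
  rw [LD_zero, LD, div_eq_zero_iff, mul_eq_zero] at this
  exact (this.resolve_right (hb hw)).resolve_left hw0

theorem tendsto_res (hf : Differentiable ℂ f) (h0 : f 0 ≠ 0) {z : ℂ} (hz : f z = 0) :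
    ∃ n : ℕ, 0 < n ∧ Tendsto (fun w => (w - z) * LD f w) (𝓝[≠] z) (𝓝 (n * z)) := by
  obtain ⟨n, u, hu, hu0, e⟩ := exists_factor_zero hf ⟨0, h0⟩ z
  have hn : n ≠ 0 := by
    rintro rfl
    rw [e z, pow_zero, one_mul] at hz
    exact hu0 hz
  obtain ⟨k, rfl⟩ := Nat.exists_eq_succ_of_ne_zero hn
  refine ⟨k + 1, k.succ_pos, ?_⟩
  have hc : ContinuousAt (fun w => ((k + 1 : ℕ) : ℂ) * w + (w - z) * (w * deriv u w / u w)) z :=
    (continuousAt_const.mul continuousAt_id).add ((continuousAt_id.sub continuousAt_const).mul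
      ((continuousAt_id.mul hu.deriv.continuous.continuousAt).div hu.continuous.continuousAt hu0))
  have h1 := hc.tendsto.mono_left (nhdsWithin_le_nhds (s := {z}ᶜ))
  rw [sub_self, zero_mul, add_zero] at h1
  refine h1.congr' ?_
  filter_upwards [mem_nhdsWithin_of_mem_nhds (hu.continuous.continuousAt.eventually_ne hu0),
    self_mem_nhdsWithin] with w h2 h3
  have h4 : w - z ≠ 0 := sub_ne_zero.mpr h3
  have h5 : HasDerivAt f (((k + 1 : ℕ) : ℂ) * (w - z) ^ k * u w + (w - z) ^ (k + 1) * deriv u w)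
      w := by
    rw [show f = fun w => (w - z) ^ (k + 1) * u w from funext e]
    exact ((((hasDerivAt_id w).sub_const z).fun_pow (k + 1)).fun_mul
      (hu w).hasDerivAt).congr_deriv (by simp)
  rw [LD, h5.deriv, e w, Nat.succ_eq_add_one]
  field_simp
  ring

/-- The meromorphic function `z f'(z) / f(z)` for non-constant `f`. -/
noncomputable def sysInf (f : ℂ → ℂ) (hf : Differentiable ℂ f) (h0 : f 0 ≠ 0)
    (h1 : ∃ z, deriv f z ≠ 0) : Sys where
  H := LD f
  Ω := {z | f z ≠ 0}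
  isOpen := isOpen_ne_fun hf.continuous continuous_const
  diff := fun _ hz => (hasDerivAt_LD hf hz).differentiableAt.differentiableWithinAt
  blow := fun z hz => by
    have hz' : f z = 0 := not_not.mp hz
    obtain ⟨n, hn, h⟩ := tendsto_res hf h0 hz'
    have h4 : 0 < ‖(n : ℂ) * z‖ := norm_pos_iff.mpr
      (mul_ne_zero (Nat.cast_ne_zero.mpr hn.ne') fun h => h0 (h ▸ hz'))
    have h5 : Tendsto (fun w : ℂ => ‖w - z‖⁻¹) (𝓝[≠] z) atTop :=
      tendsto_inv_nhdsGT_zero.comp (tendsto_norm_sub_self_nhdsNE z)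
    refine (h.norm.pos_mul_atTop h4 h5).congr' ?_
    filter_upwards [self_mem_nhdsWithin] with w hw
    have : ‖w - z‖ ≠ 0 := norm_ne_zero_iff.mpr (sub_ne_zero.mpr hw)
    rw [norm_mul]
    field_simp
  iso := fun z => by
    have hE : Differentiable ℂ fun z =>
        (deriv f z + z * deriv (deriv f) z) * f z - z * deriv f z * deriv f z :=
      ((hf.deriv.add (differentiable_id.mul hf.deriv.deriv)).mul hf).sub
        ((differentiable_id.mul hf.deriv).mul hf.deriv)
    filter_upwards [eventually_ne_of_entire hf h0 z,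
      eventually_ne_entire hE (exists_LD_num_ne hf h0 h1) z] with w e1 e2
    exact ⟨e1, (hasDerivAt_LD hf e1).deriv ▸ div_ne_zero e2 (pow_ne_zero 2 e1)⟩

theorem exists_res (hf : Differentiable ℂ f) (h0 : f 0 ≠ 0) (h1 : ∃ z, deriv f z ≠ 0) :
    ∃ m, Res (sysInf f hf h0 h1) m := by
  choose! m hm using fun z (hz : f z = 0) => tendsto_res hf h0 hz
  exact ⟨m, fun z hz => hm z (not_not.mp hz)⟩

theorem lt_ME (hf : Differentiable ℂ f) (h1 : ∃ z, deriv f z ≠ 0) {r : ℝ} {z : ℂ}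
    (hz : ‖z‖ < r) : ‖f z‖ < ME f r := by
  have hr : 0 < r := (norm_nonneg z).trans_lt hz
  refine lt_of_le_of_ne (le_ME_of_norm_le hf hr hz.le) fun h => ?_
  obtain ⟨y, hy⟩ := h1
  have h2 := Complex.eqOn_of_isPreconnected_of_isMaxOn_norm (convex_ball (0 : ℂ) r).isPreconnected
    Metric.isOpen_ball hf.differentiableOn (mem_ball_zero_iff.mpr hz) (fun w hw => by
      change ‖f w‖ ≤ ‖f z‖
      rw [h]
      exact le_ME_of_norm_le hf hr (mem_ball_zero_iff.mp hw).le)
  have h3 : ∀ w, f w - f z = 0 := entire_eq_zero (hf.sub_const _) (c := z)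
    (Eventually.frequently (mem_nhdsWithin_of_mem_nhds (mem_of_superset
      (Metric.isOpen_ball.mem_nhds (mem_ball_zero_iff.mpr hz)) fun w hw =>
        sub_eq_zero.mpr (h2 hw))))
  rw [show f = fun _ => f z from funext fun w => sub_eq_zero.mp (h3 w), deriv_const] at hy
  exact hy rfl

theorem unit_of_ME (hf : Differentiable ℂ f) (hg : Differentiable ℂ g) (h1 : ∃ z, deriv g z ≠ 0)
    (h0 : ‖f 0‖ = ‖g 0‖) (g0 : g 0 ≠ 0) {r₀ : ℝ} (hr₀ : 0 < r₀)
    (h : ∀ r, 0 < r → r < r₀ → ME f r = ME g r) {e c : ℂ} (hc : c ≠ 0)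
    (he : ∀ z, f z = e * g (c * z)) : ‖e‖ = 1 ∧ ‖c‖ = 1 := by
  have e1 : ‖e‖ = 1 := by
    rw [he 0, mul_zero, norm_mul] at h0
    exact (mul_eq_right₀ (norm_ne_zero_iff.mpr g0)).mp h0
  refine ⟨e1, ?_⟩
  have hr := half_pos hr₀
  have h2 := h _ hr (half_lt_self hr₀)
  have c0 := norm_pos_iff.mpr hc
  rcases lt_trichotomy ‖c‖ 1 with h3 | h3 | h3
  · obtain ⟨z, hz, hz'⟩ := exists_ME hf.continuous hr.le
    have := lt_ME hg h1 (r := r₀ / 2) (z := c * z) (by rw [norm_mul, hz]; nlinarith)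
    rw [he z, norm_mul, e1, one_mul, h2] at hz'
    exact absurd hz' this.ne
  · exact h3
  · obtain ⟨z, hz, hz'⟩ := exists_ME hg.continuous hr.le
    have hf1 : ∃ z, deriv f z ≠ 0 := by
      by_contra hno
      push Not at hno
      obtain ⟨y, hy⟩ := h1
      have h4 : g = fun z => e⁻¹ * f 0 := funext fun w => by
        rw [is_const_of_deriv_eq_zero hf hno 0 (c⁻¹ * w), he, mul_inv_cancel_left₀ hc,
          inv_mul_cancel_left₀ (norm_ne_zero_iff.mp (e1 ▸ one_ne_zero))]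
      rw [h4, deriv_const] at hy
      exact hy rfl
    have := lt_ME hf hf1 (r := r₀ / 2) (z := c⁻¹ * z) (by
      rw [norm_mul, hz, norm_inv, inv_mul_lt_iff₀ c0]; nlinarith)
    rw [he, mul_inv_cancel_left₀ hc, norm_mul, e1, one_mul, h2] at this
    exact absurd hz' this.ne

theorem eq_of_Lin (hf : Differentiable ℂ f) (hg : Differentiable ℂ g) (f0 : f 0 ≠ 0)
    (g0 : g 0 ≠ 0) (f1 : ∃ z, deriv f z ≠ 0) (g1 : ∃ z, deriv g z ≠ 0)
    (h : Lin (sysInf f hf f0 f1) (sysInf g hg g0 g1)) :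
    ∃ e c : ℂ, c ≠ 0 ∧ ∀ z, f z = e * g (c * z) := by
  obtain ⟨c, w₀, hc, h⟩ := h
  have hE : Differentiable ℂ fun w => w * deriv f w * g (c * w) - c * w * deriv g (c * w) * f w := by
    have := hf.deriv
    have := hg.deriv
    fun_prop
  have h1 := entire_eq_zero hE (h.mono fun w hw => by
    have h2 : c * w * deriv g (c * w) / g (c * w) = w * deriv f w / f w := hw.2.2
    rw [div_eq_div_iff hw.2.1 hw.1] at h2
    linear_combination -h2)
  have h3 : ContinuousAt (fun w => g (c * w)) 0 :=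
    (hg.continuous.comp (continuous_const.mul continuous_id)).continuousAt
  obtain ⟨r, hr, hb⟩ := Metric.mem_nhds_iff.mp ((hf.continuous.continuousAt.eventually_ne f0).and
    (h3.eventually_ne (by simpa using g0)))
  obtain ⟨e, he⟩ := eq_of_LD hg hf (k := c) hr fun y hy => ⟨(hb hy).1, (hb hy).2, by
    rw [LD, LD, div_eq_div_iff (hb hy).2 (hb hy).1]
    linear_combination -h1 y⟩
  exact ⟨e, c, hc, he⟩

theorem ME_conj (g : ℂ → ℂ) (r : ℝ) : ME (starRingEnd ℂ ∘ g ∘ starRingEnd ℂ) r = ME g r :=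
  MF_conj g r

end Pool.Agent.Lib.MP_6db618_an
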