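import Mathlib
import Pool.Agent.Lib.MP_6db618_an.EssDefs
import Pool.Agent.Lib.MP_6db618_an.InfEntA

set_option autoImplicit false

namespace Pool.Agent.Lib.MP_6db618_an

open Set Filter Topology Complex Polynomial

variable {f g : ℂ → ℂ}

theorem essEntA_of_bound {C ρ R : ℝ} (h : ∀ z : ℂ, R ≤ ‖z‖ → ‖f z‖ ≤ Real.exp (C * ‖z‖ ^ ρ)) :
    FinOrd f := by
  refine ⟨ρ + 1, max R (max 1 C), fun z hz => ?_⟩
  have h1 : (1 : ℝ) ≤ ‖z‖ := ((le_max_left _ _).trans (le_max_right _ _)).trans hz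
  have h2 : C ≤ ‖z‖ := ((le_max_right _ _).trans (le_max_right _ _)).trans hz
  have h3 : (0 : ℝ) < ‖z‖ := one_pos.trans_le h1
  refine (h z ((le_max_left _ _).trans hz)).trans (Real.exp_le_exp.mpr ?_)
  rw [Real.rpow_add h3, Real.rpow_one, mul_comm]
  exact mul_le_mul_of_nonneg_left h2 (Real.rpow_nonneg h3.le _)

theorem essEntA_cob {p : ℂ → Prop} (h : ∀ᶠ w in Bornology.cobounded ℂ, p w) :
    ∃ R : ℝ, 1 ≤ R ∧ ∀ w : ℂ, R ≤ ‖w‖ → p w := by
  rw [← comap_norm_atTop, eventually_comap, eventually_atTop] at h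
  obtain ⟨R, hR⟩ := h
  exact ⟨max R 1, le_max_right _ _, fun w hw => hR _ ((le_max_left _ _).trans hw) w rfl⟩

theorem finOrd_of_LD (hf : Differentiable ℂ f) {A : ℝ} {n : ℕ}
    (h : ∀ᶠ w in Bornology.cobounded ℂ, f w ≠ 0 ∧ ‖LD f w‖ ≤ A * ‖w‖ ^ n) : FinOrd f := by
  obtain ⟨R, hR1, hR⟩ := essEntA_cob h
  have hR0 : 0 < R := one_pos.trans_le hR1
  obtain ⟨w0, -, hw0⟩ := exists_ME hf.continuous hR0.le
  have hB : 0 ≤ ME f R := hw0 ▸ norm_nonneg _
  refine essEntA_of_bound (C := ME f R + |A|) (ρ := ((n + 1 : ℕ) : ℝ)) (R := R) fun z hz => ?_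
  have hz1 : 1 ≤ ‖z‖ := hR1.trans hz
  have hz0 : 0 < ‖z‖ := one_pos.trans_le hz1
  set u : ℂ := z / (‖z‖ : ℂ) with hu
  have hu1 : ‖u‖ = 1 := by
    rw [hu, norm_div, Complex.norm_real, norm_norm, div_self hz0.ne']
  have hn : ∀ s : ℝ, 0 ≤ s → ‖(s : ℂ) * u‖ = s := fun s hs => by
    rw [norm_mul, hu1, mul_one, Complex.norm_real, Real.norm_of_nonneg hs]
  have hd : ∀ s : ℝ, HasDerivAt (fun s : ℝ => f ((s : ℂ) * u)) (deriv f ((s : ℂ) * u) * u) s :=
    fun s => by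
      have h1 : HasDerivAt (fun w : ℂ => f (w * u)) (deriv f ((s : ℂ) * u) * u) (s : ℂ) := by
        have h2 := (hf ((s : ℂ) * u)).hasDerivAt.comp (s : ℂ) ((hasDerivAt_id (s : ℂ)).mul_const u)
        rw [one_mul] at h2
        exact h2
      exact h1.comp_ofReal
  have key := norm_le_gronwallBound_of_norm_deriv_right_le
    (f := fun s : ℝ => f ((s : ℂ) * u)) (f' := fun s : ℝ => deriv f ((s : ℂ) * u) * u)
    (δ := ME f R) (K := |A| * ‖z‖ ^ n) (ε := 0) (a := R) (b := ‖z‖)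
    (fun s _ => (hd s).continuousAt.continuousWithinAt)
    (fun s _ => (hd s).hasDerivWithinAt) (le_ME hf.continuous (hn R hR0.le))
    (fun s hs => by
      have s1 : 1 ≤ s := hR1.trans hs.1
      have s0 : 0 ≤ s := zero_le_one.trans s1
      obtain ⟨e1, e2⟩ := hR ((s : ℂ) * u) (by rw [hn s s0]; exact hs.1)
      have e3 : 0 < ‖f ((s : ℂ) * u)‖ := norm_pos_iff.mpr e1
      rw [LD, norm_div, norm_mul, hn s s0, div_le_iff₀ e3] at e2
      have e4 : A * s ^ n ≤ |A| * ‖z‖ ^ n :=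
        mul_le_mul (le_abs_self A) (pow_le_pow_left₀ s0 hs.2.le n) (pow_nonneg s0 n) (abs_nonneg A)
      have e5 := mul_le_mul_of_nonneg_right e4 e3.le
      have e6 : ‖deriv f ((s : ℂ) * u)‖ ≤ s * ‖deriv f ((s : ℂ) * u)‖ :=
        le_mul_of_one_le_left (norm_nonneg _) s1
      rw [norm_mul, hu1, mul_one, add_zero]
      exact e6.trans (e2.trans e5))
    ‖z‖ ⟨hz, le_rfl⟩
  have e : ((‖z‖ : ℝ) : ℂ) * u = z := by
    rw [hu, mul_div_cancel₀ _ (Complex.ofReal_ne_zero.mpr hz0.ne')]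
  simp only [e, gronwallBound_ε0] at key
  refine key.trans ?_
  have h1 : ME f R ≤ Real.exp (ME f R) := by linarith [Real.add_one_le_exp (ME f R)]
  refine (mul_le_mul_of_nonneg_right h1 (Real.exp_pos _).le).trans ?_
  rw [← Real.exp_add, Real.rpow_natCast]
  refine Real.exp_le_exp.mpr ?_
  have h2 : (1 : ℝ) ≤ ‖z‖ ^ (n + 1) := one_le_pow₀ hz1
  have h3 : |A| * ‖z‖ ^ n * (‖z‖ - R) ≤ |A| * ‖z‖ ^ (n + 1) := by
    rw [pow_succ, mul_assoc]
    exact mul_le_mul_of_nonneg_left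
      (mul_le_mul_of_nonneg_left (by linarith) (pow_nonneg hz0.le n)) (abs_nonneg A)
  nlinarith [mul_le_mul_of_nonneg_left h2 hB]

theorem ess_sysInf (hf : Differentiable ℂ f) (h0 : f 0 ≠ 0) (h1 : ∃ z, deriv f z ≠ 0)
    (zf : {z | f z = 0}.Finite) (hord : ¬ FinOrd f) : Ess (sysInf f hf h0 h1) := by
  have hne : ∀ᶠ w in Bornology.cobounded ℂ, f w ≠ 0 := zf.isBounded
  refine ⟨zf.subset fun z hz => not_not.mp hz, fun M => ?_, ?_⟩
  · by_contra h
    rw [not_frequently] at h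
    refine hord (finOrd_of_LD hf (A := M) (n := 0) ?_)
    filter_upwards [hne, h] with w e1 e2
    exact ⟨e1, by rw [pow_zero, mul_one]; exact not_lt.mp e2⟩
  · by_contra h
    have h2 : ∀ M : ℝ, ∀ᶠ w in Bornology.cobounded ℂ, M ≤ ‖LD f w‖ := fun M => by
      have h3 : ¬ ∃ᶠ w in Bornology.cobounded ℂ, ‖LD f w‖ < M := fun k => h ⟨M, k⟩
      rw [not_frequently] at h3
      exact h3.mono fun w e => not_lt.mp e
    have h3 : Tendsto (LD f) (Bornology.cobounded ℂ) (Bornology.cobounded ℂ) :=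
      tendsto_norm_atTop_iff_cobounded.mp (tendsto_atTop.mpr h2)
    have hi : Tendsto (fun t : ℂ => t⁻¹) (𝓝[≠] 0) (Bornology.cobounded ℂ) :=
      tendsto_inv₀_nhdsNE_zero
    have h4 : ∀ᶠ w in Bornology.cobounded ℂ, LD f w ≠ 0 :=
      (h2 1).mono fun w e => norm_pos_iff.mp (one_pos.trans_le e)
    have hG : AnalyticAt ℂ (fun t : ℂ => (LD f t⁻¹)⁻¹) 0 := by
      refine analyticAt_of_differentiable_on_punctured_nhds_of_continuousAt ?_ ?_
      · filter_upwards [hi.eventually hne, hi.eventually h4, self_mem_nhdsWithin] with t e1 e2 e3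
        exact ((hasDerivAt_LD hf e1).differentiableAt.comp t (differentiableAt_inv e3)).inv e2
      · rw [continuousAt_iff_punctured_nhds]
        simp only [inv_zero, LD_zero]
        exact tendsto_inv₀_cobounded.comp (h3.comp hi)
    have hG0 : ¬ ∀ᶠ t in 𝓝 (0 : ℂ), (LD f t⁻¹)⁻¹ = 0 := fun k => by
      obtain ⟨t, e1, e2⟩ := ((hi.eventually h4).and (mem_nhdsWithin_of_mem_nhds k)).exists
      exact e1 (inv_eq_zero.mp e2)
    obtain ⟨k, v, hv, hv0, he⟩ := hG.exists_eventuallyEq_pow_smul_nonzero_iff.mpr hG0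
    have hc : 0 < ‖v 0‖ / 2 := half_pos (norm_pos_iff.mpr hv0)
    have h5 : ∀ᶠ t in 𝓝 (0 : ℂ), ‖v 0‖ / 2 < ‖v t‖ :=
      hv.continuousAt.norm.eventually (lt_mem_nhds (half_lt_self (norm_pos_iff.mpr hv0)))
    refine hord (finOrd_of_LD hf (A := (‖v 0‖ / 2)⁻¹) (n := k) ?_)
    filter_upwards [hne, tendsto_inv₀_cobounded.eventually he,
      tendsto_inv₀_cobounded.eventually h5] with w e1 e2 e3
    refine ⟨e1, ?_⟩
    rw [inv_inv, sub_zero, smul_eq_mul] at e2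
    rw [← inv_inv (LD f w), e2, mul_inv, inv_pow, inv_inv, norm_mul, norm_pow, norm_inv, mul_comm]
    exact mul_le_mul_of_nonneg_right (inv_anti₀ hc e3.le) (pow_nonneg (norm_nonneg _) _)

theorem FinOrd.pow_mul (h : FinOrd f) (j : ℕ) : FinOrd fun z => z ^ j * f z := by
  obtain ⟨ρ, R, h⟩ := h
  refine essEntA_of_bound (C := j + 1) (ρ := max ρ 1) (R := max R 1) fun z hz => ?_
  have h1 : (1 : ℝ) ≤ ‖z‖ := (le_max_right _ _).trans hz
  have h2 : ‖z‖ ^ ρ ≤ ‖z‖ ^ max ρ 1 := Real.rpow_le_rpow_of_exponent_le h1 (le_max_left _ _)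
  have h3 : ‖z‖ ≤ ‖z‖ ^ max ρ 1 := by
    have := Real.rpow_le_rpow_of_exponent_le h1 (le_max_right ρ 1)
    rwa [Real.rpow_one] at this
  have h4 : ‖z‖ ^ j ≤ Real.exp (j * ‖z‖) := by
    rw [Real.exp_nat_mul]
    exact pow_le_pow_left₀ (norm_nonneg _) (by linarith [Real.add_one_le_exp ‖z‖]) j
  rw [norm_mul, norm_pow]
  refine (mul_le_mul h4 (h z ((le_max_left _ _).trans hz)) (norm_nonneg _)
    (Real.exp_pos _).le).trans ?_
  rw [← Real.exp_add]
  refine Real.exp_le_exp.mpr ?_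
  nlinarith [mul_le_mul_of_nonneg_left h3 (Nat.cast_nonneg (α := ℝ) j)]

theorem FinOrd.of_conj (h : FinOrd (starRingEnd ℂ ∘ f ∘ starRingEnd ℂ)) : FinOrd f := by
  obtain ⟨ρ, R, h⟩ := h
  refine ⟨ρ, R, fun z hz => ?_⟩
  have h1 := h (starRingEnd ℂ z) (by rwa [Complex.norm_conj])
  simpa only [Function.comp_apply, Complex.conj_conj, Complex.norm_conj] using h1

theorem FinOrd.of_ME (hf : Differentiable ℂ f) (hg : Differentiable ℂ g) (h : FinOrd g)
    (hM : ∀ r, 0 < r → ME f r = ME g r) : FinOrd f := by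
  obtain ⟨ρ, R, h⟩ := h
  refine ⟨ρ, max R 1, fun z hz => ?_⟩
  have h1 : (0 : ℝ) < ‖z‖ := one_pos.trans_le ((le_max_right _ _).trans hz)
  obtain ⟨w, e1, e2⟩ := exists_ME hg.continuous h1.le
  refine (le_ME hf.continuous rfl).trans ?_
  rw [hM _ h1, ← e2, ← e1]
  exact h w (e1 ▸ (le_max_left _ _).trans hz)

theorem exists_deriv_ne_of_not_finOrd (hf : Differentiable ℂ f) (h : ¬ FinOrd f) :
    ∃ z, deriv f z ≠ 0 := by
  by_contra h1
  push Not at h1
  refine h (essEntA_of_bound (C := ‖f 0‖) (ρ := 0) (R := 0) fun z _ => ?_)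
  rw [is_const_of_deriv_eq_zero hf h1 z 0, Real.rpow_zero, mul_one]
  linarith [Real.add_one_le_exp ‖f 0‖]

end Pool.Agent.Lib.MP_6db618_an
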