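import Mathlib
import Pool.Agent.Lib.MP_6db618_an.EssDesc

set_option autoImplicit false

namespace Pool.Agent.Lib.MP_6db618_an

open Set Filter Topology Complex Polynomial

section aux

variable {Φ Φ' : ℂ → ℝ} {θ φ γ : ℂ → ℂ} {ν : ℕ} {b b' c : ℂ}

theorem esslevel_eq_of_same (hN : ∀ θ b, Gf Φ Φ θ → Lv ν θ 1 b → b = 0) (h : Gf Φ Φ' θ)
    (h' : Gf Φ Φ' φ) (l : Lv ν θ c b) (l' : Lv ν φ c b') : b = b' := by
  obtain ⟨ψ, hψ, lψ⟩ := h.lv_inv l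
  have hc : c ≠ 0 := l.1 ▸ h.gm.ne
  have l2 := Lv.comp h'.gm hψ.gm l' lψ
  rw [inv_mul_cancel₀ hc] at l2
  have h3 := hN _ _ (h'.comp hψ) l2
  rw [inv_pow, inv_inv] at h3
  exact mul_left_cancel₀ (pow_ne_zero ν hc) (by linear_combination -h3)

theorem esslevel_iter (h : Gf Φ Φ θ) (l : Lv ν θ c b) (hc : c ^ ν = 1) (m : ℕ) :
    ∃ φ, Gf Φ Φ φ ∧ Lv ν φ (c ^ (m + 1)) ((m + 1 : ℕ) * b) := by
  induction m with
  | zero => exact ⟨θ, h, by simpa using l⟩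
  | succ m ih =>
    obtain ⟨φ, hφ, lφ⟩ := ih
    refine ⟨θ ∘ φ, hφ.comp h, ?_⟩
    have := Lv.comp hφ.gm h.gm lφ l
    rw [hc, inv_one, one_mul, ← pow_succ'] at this
    convert this using 1
    push_cast
    ring

theorem esslevel_eq_zero_of_pow (hN : ∀ θ b, Gf Φ Φ θ → Lv ν θ 1 b → b = 0) (hν : 0 < ν)
    (h : Gf Φ Φ θ) (l : Lv ν θ c b) (hc : c ^ ν = 1) : b = 0 := by
  obtain ⟨m, rfl⟩ : ∃ m, ν = m + 1 := ⟨ν - 1, by omega⟩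
  obtain ⟨φ, hφ, lφ⟩ := esslevel_iter h l hc m
  rw [hc] at lφ
  exact (mul_eq_zero.1 (hN _ _ hφ lφ)).resolve_left (Nat.cast_ne_zero.2 (Nat.succ_ne_zero m))

theorem esslevel_fixed (hN : ∀ θ b, Gf Φ Φ θ → Lv ν θ 1 b → b = 0) (hν : 0 < ν) :
    ∃ η : ℂ, ∀ (θ : ℂ → ℂ) (c b : ℂ), Gf Φ Φ θ → Lv ν θ c b → (c ^ ν)⁻¹ * η + b = η := by
  by_cases hall : ∀ (θ : ℂ → ℂ) (c b : ℂ), Gf Φ Φ θ → Lv ν θ c b → c ^ ν = 1
  · refine ⟨0, fun θ c b h l => ?_⟩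
    rw [mul_zero, zero_add]
    exact esslevel_eq_zero_of_pow hN hν h l (hall θ c b h l)
  · push Not at hall
    obtain ⟨θ0, c0, b0, h0, l0, hc0⟩ := hall
    have hne : 1 - (c0 ^ ν)⁻¹ ≠ 0 := fun h => hc0 (inv_eq_one.1 (sub_eq_zero.1 h).symm)
    refine ⟨b0 / (1 - (c0 ^ ν)⁻¹), fun θ c b h l => ?_⟩
    have l1 := Lv.comp h0.gm h.gm l0 l
    have l2 := Lv.comp h.gm h0.gm l l0
    rw [mul_comm c0 c] at l2
    have h3 := esslevel_eq_of_same hN (h0.comp h) (h.comp h0) l1 l2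
    generalize (c0 ^ ν)⁻¹ = x0 at hne h3
    generalize (c ^ ν)⁻¹ = x at h3
    field_simp
    linear_combination h3

theorem esslevel_pow (hΦ : Wild Φ) (hν : 0 < ν) (hγ : Gf Φ Φ γ) (lγ : Lv ν γ 1 b) (hb : b ≠ 0)
    (h : Gf Φ Φ θ) (l : Lv ν θ c b') : c ^ (2 * ν) = 1 := by
  obtain ⟨ψ, hψ, lψ⟩ := h.lv_inv l
  have hc : c ≠ 0 := l.1 ▸ h.gm.ne
  have hcν : c ^ ν ≠ 0 := pow_ne_zero ν hc
  have l2 := Lv.comp (hψ.comp hγ).gm h.gm (Lv.comp hψ.gm hγ.gm lψ lγ) l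
  have e : b' + (c ^ ν)⁻¹ * (b + (1 ^ ν)⁻¹ * -(c ^ ν * b')) = (c ^ ν)⁻¹ * b := by
    rw [one_pow, inv_one]
    field_simp
    ring
  rw [e, one_mul, mul_inv_cancel₀ hc] at l2
  have him := hΦ.im_eq_zero hν hγ ((hψ.comp hγ).comp h) lγ l2 hb
  have hn : ‖(c ^ ν)⁻¹‖ = 1 := by rw [norm_inv, norm_pow, ← l.1, h.norm_deriv hΦ, one_pow, inv_one]
  have hx : (c ^ ν)⁻¹ ^ 2 = 1 := by
    generalize (c ^ ν)⁻¹ = x at him hn
    have h1 : x = (x.re : ℂ) := Complex.ext rfl (by rw [him, ofReal_im])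
    have h2 : x.re ^ 2 = 1 := by
      rw [h1, norm_real, Real.norm_eq_abs] at hn
      rw [← sq_abs, hn, one_pow]
    rw [h1]
    exact_mod_cast h2
  rw [mul_comm, pow_mul]
  exact inv_eq_one.1 (by rwa [← inv_pow])

end aux

theorem ess_data {K : Type} [Finite K] {N : ℕ} (hN : 0 < N) (Φ : Fin 4 → ℂ → ℝ)
    (hΦ : Wild (Φ 0)) (hrot : ∀ i (ω t : ℂ), ω ^ N = 1 → Φ i (ω * t) = Φ i t)
    (θ : K → Fin 4 → ℂ → ℂ) (hθ : ∀ k j, Gf (Φ 0) (Φ j) (θ k j)) :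
    (∀ k j, ∃ c : ℂ, c ≠ 0 ∧ ∀ᶠ t in 𝓝 (0 : ℂ), θ k j t = c * t) ∨
      (∃ n : ℕ, 0 < n ∧ ∃ η : Fin 4 → ℂ, η ≠ 0 ∧ ∀ k j, ∃ c : ℂ,
        Tendsto (fun t => (θ k j t ^ N)⁻¹ ^ n - η j - c * ((t ^ N)⁻¹ ^ n - η 0))
          (𝓝[≠] 0) (𝓝 0)) ∨
      ∃ ν n : ℕ, 0 < n ∧ N * n = 2 * ν ∧ ∃ μ : Fin 4 → ℂ, (∀ j, μ j ≠ 0) ∧ ∀ k j, ∃ d β : ℂ,
        d ^ 2 = μ j ∧ Tendsto (fun t => d * (θ k j t ^ ν)⁻¹ - (t ^ ν)⁻¹) (𝓝[≠] 0) (𝓝 β) := by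
  classical
  by_cases hlin : ∀ k j, ∀ᶠ t in 𝓝 (0 : ℂ), θ k j t = deriv (θ k j) 0 * t
  · exact Or.inl fun k j => ⟨_, (hθ k j).gm.ne, hlin k j⟩
  right
  have hex : ∃ m : ℕ, ∃ (k : K) (j : Fin 4) (g : ℂ → ℂ), 0 < m ∧ ContinuousAt g 0 ∧ g 0 ≠ 0 ∧
      ∀ᶠ t in 𝓝 (0 : ℂ), θ k j t = deriv (θ k j) 0 * t * (1 + t ^ m * g t) := by
    obtain ⟨k, hk⟩ := not_forall.1 hlin
    obtain ⟨j, hj⟩ := not_forall.1 hk
    obtain ⟨m, g, h⟩ := (hθ k j).gm.exists_form hj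
    exact ⟨m, k, j, g, h⟩
  obtain ⟨k0, j0, g0, hν, hg0, hg0', hf0⟩ := Nat.find_spec hex
  have hmin : ∀ (m : ℕ) (k : K) (j : Fin 4) (g : ℂ → ℂ), 0 < m → ContinuousAt g 0 → g 0 ≠ 0 →
      (∀ᶠ t in 𝓝 (0 : ℂ), θ k j t = deriv (θ k j) 0 * t * (1 + t ^ m * g t)) →
      Nat.find hex ≤ m := fun m k j g h1 h2 h3 h4 => Nat.find_min' hex ⟨k, j, g, h1, h2, h3, h4⟩
  generalize Nat.find hex = ν at hν hf0 hmin
  have hlv : ∀ k j, ∃ b, Lv ν (θ k j) (deriv (θ k j) 0) b := by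
    intro k j
    by_cases hl : ∀ᶠ t in 𝓝 (0 : ℂ), θ k j t = deriv (θ k j) 0 * t
    · exact ⟨0, Lv.of_linear hl⟩
    · obtain ⟨m, g, h1, h2, h3, h4⟩ := (hθ k j).gm.exists_form hl
      obtain ⟨d, rfl⟩ := Nat.exists_eq_add_of_le (hmin m k j g h1 h2 h3 h4)
      refine ⟨_, Lv.of_form (g := fun t => t ^ d * g t) hν rfl (hθ k j).gm.ne (by fun_prop)
        (h4.mono fun t ht => ?_)⟩
      rw [ht, pow_add, mul_assoc (t ^ ν)]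
  choose b hb using hlv
  have hb0 : b k0 j0 ≠ 0 := by
    rw [((hb k0 j0).unique (Lv.of_form hν rfl (hθ k0 j0).gm.ne hg0 hf0)).2]
    exact neg_ne_zero.2 (mul_ne_zero (inv_ne_zero (pow_ne_zero _ (hθ k0 j0).gm.ne))
      (mul_ne_zero (Nat.cast_ne_zero.2 hν.ne') hg0'))
  have hprim := isPrimitiveRoot_exp N hN.ne'
  generalize cexp (2 * Real.pi * I / N) = ω at hprim
  have hω : ω ≠ 0 := hprim.ne_zero hN.ne'
  have r0 := gf_rot hω fun t => hrot 0 ω t hprim.pow_eq_one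
  have rj := gf_rot hω fun t => hrot j0 ω t hprim.pow_eq_one
  have lr : Lv ν (fun t => ω * t) ω 0 := Lv.of_linear (Eventually.of_forall fun _ => rfl)
  by_cases hNT : ∀ θ b, Gf (Φ 0) (Φ 0) θ → Lv ν θ 1 b → b = 0
  · left
    have hdvd : N ∣ ν := by
      have l1 := Lv.comp r0.gm (hθ k0 j0).gm lr (hb k0 j0)
      have l2 := Lv.comp (hθ k0 j0).gm rj.gm (hb k0 j0) lr
      rw [mul_comm ω] at l2
      have h3 := esslevel_eq_of_same hNT (r0.comp (hθ k0 j0)) ((hθ k0 j0).comp rj) l1 l2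
      rw [mul_zero, add_zero, zero_add] at h3
      refine hprim.dvd_of_pow_eq_one ν (inv_eq_one.1 (mul_right_cancel₀ hb0 ?_))
      rw [← h3, one_mul]
    obtain ⟨n, rfl⟩ := hdvd
    obtain ⟨η0, hη0⟩ := esslevel_fixed hNT hν
    have hfix : ∀ k j, (deriv (θ k j) 0 ^ (N * n))⁻¹ * η0 + b k j =
        (deriv (θ k0 j) 0 ^ (N * n))⁻¹ * η0 + b k0 j := by
      intro k j
      obtain ⟨ψ, hψ, lψ⟩ := (hθ k0 j).lv_inv (hb k0 j)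
      have h1 := hη0 _ _ _ ((hθ k j).comp hψ) (Lv.comp (hθ k j).gm hψ.gm (hb k j) lψ)
      have h2 : deriv (θ k0 j) 0 ^ (N * n) ≠ 0 := pow_ne_zero _ (hθ k0 j).gm.ne
      rw [mul_pow, inv_pow, mul_inv, inv_inv] at h1
      generalize (deriv (θ k j) 0 ^ (N * n))⁻¹ = x at h1
      generalize deriv (θ k0 j) 0 ^ (N * n) = y at h1 h2
      field_simp
      linear_combination h1
    have hz : (deriv (θ k0 0) 0 ^ (N * n))⁻¹ * η0 + b k0 0 = η0 := hη0 _ _ _ (hθ k0 0) (hb k0 0)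
    refine ⟨n, Nat.pos_of_mul_pos_left hν, fun j =>
      (deriv (θ k0 j) 0 ^ (N * n))⁻¹ * η0 + b k0 j, fun h => hb0 ?_, fun k j =>
        ⟨(deriv (θ k j) 0 ^ (N * n))⁻¹, ?_⟩⟩
    · have h1 := congrFun h 0
      have h2 := congrFun h j0
      simp only [Pi.zero_apply] at h1 h2
      rw [hz] at h1
      rwa [h1, mul_zero, zero_add] at h2
    · have h1 := (hb k j).2.sub_const (b k j)
      rw [sub_self] at h1
      refine h1.congr fun t => ?_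
      simp only [hz, ← hfix k j, inv_pow, ← pow_mul]
      ring
  · right
    push Not at hNT
    obtain ⟨γ, bγ, hγ, lγ, hbγ⟩ := hNT
    obtain ⟨n, hn⟩ := hprim.dvd_of_pow_eq_one _ (esslevel_pow hΦ hν hγ lγ hbγ r0 lr)
    refine ⟨ν, n, Nat.pos_of_mul_pos_left (a := N) (by omega), hn.symm,
      fun j => deriv (θ k0 j) 0 ^ (2 * ν), fun j => pow_ne_zero _ (hθ k0 j).gm.ne,
      fun k j => ⟨deriv (θ k j) 0 ^ ν, deriv (θ k j) 0 ^ ν * b k j, ?_, ?_⟩⟩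
    · obtain ⟨ψ, hψ, lψ⟩ := (hθ k0 j).lv_inv (hb k0 j)
      have h1 := esslevel_pow hΦ hν hγ lγ hbγ ((hθ k j).comp hψ)
        (Lv.comp (hθ k j).gm hψ.gm (hb k j) lψ)
      rw [mul_pow, inv_pow, inv_mul_eq_one₀ (pow_ne_zero _ (hθ k0 j).gm.ne)] at h1
      rw [← pow_mul, mul_comm]
      exact h1.symm
    · refine ((hb k j).2.const_mul (deriv (θ k j) 0 ^ ν)).congr fun t => ?_
      rw [mul_sub, ← mul_assoc, mul_inv_cancel₀ (pow_ne_zero _ (hθ k j).gm.ne), one_mul]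

theorem sq_tendsto {l : Filter ℂ} [l.NeBot] {v : Fin 4 → ℂ → ℂ} {σ : ℂ → ℂ} {μ β : Fin 4 → ℂ}
    (hσ : Tendsto σ l (Bornology.cobounded ℂ))
    (hv : ∀ j, Tendsto (fun t => v j t - σ t) l (𝓝 (β j))) (hμ : ∀ j, μ j ≠ 0)
    (h : ∀ᶠ t in l, μ 2 * μ 3 * (v 0 t ^ 2 * v 1 t ^ 2) = μ 0 * μ 1 * (v 2 t ^ 2 * v 3 t ^ 2)) :
    μ 0 * μ 1 = μ 2 * μ 3 ∧
      Tendsto (fun t => v 0 t ^ 2 + v 1 t ^ 2 - v 2 t ^ 2 - v 3 t ^ 2) l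
        (𝓝 ((β 0 - β 1) ^ 2 - (β 2 - β 3) ^ 2)) := by
  have hi : Tendsto (fun t => (σ t)⁻¹) l (𝓝 0) := tendsto_inv₀_cobounded.comp hσ
  have h0 : ∀ᶠ t in l, σ t ≠ 0 := hσ.eventually (Bornology.eventually_ne_cobounded 0)
  have hw : ∀ j, Tendsto (fun t => v j t * (σ t)⁻¹) l (𝓝 1) := by
    intro j
    have := ((hv j).mul hi).add_const 1
    rw [mul_zero, zero_add] at this
    refine this.congr' (h0.mono fun t ht => ?_)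
    simp only
    field_simp
    ring
  have hμe : μ 0 * μ 1 = μ 2 * μ 3 := by
    have h1 := (((hw 0).pow 2).mul ((hw 1).pow 2)).const_mul (μ 2 * μ 3)
    have h2 := (((hw 2).pow 2).mul ((hw 3).pow 2)).const_mul (μ 0 * μ 1)
    have h3 := tendsto_nhds_unique_of_eventuallyEq h2 h1 (h.mono fun t ht => by
      simp only
      linear_combination -(σ t)⁻¹ ^ 4 * ht)
    simpa using h3
  refine ⟨hμe, ?_⟩
  have h4 : ∀ᶠ t in l, v 0 t * (σ t)⁻¹ * (v 1 t * (σ t)⁻¹) +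
      v 2 t * (σ t)⁻¹ * (v 3 t * (σ t)⁻¹) ≠ 0 :=
    (((hw 0).mul (hw 1)).add ((hw 2).mul (hw 3))).eventually_ne (by norm_num)
  refine ((((hv 0).sub (hv 1)).pow 2).sub (((hv 2).sub (hv 3)).pow 2)).congr' ?_
  filter_upwards [h, h4] with t ht ht4
  rw [hμe] at ht
  have h5 := mul_left_cancel₀ (mul_ne_zero (hμ 2) (hμ 3)) ht
  have h6 : v 0 t * v 1 t + v 2 t * v 3 t ≠ 0 := fun h0 =>
    ht4 (by linear_combination (σ t)⁻¹ ^ 2 * h0)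
  have h7 : v 0 t * v 1 t - v 2 t * v 3 t = 0 :=
    (mul_eq_zero.1 (by linear_combination h5 :
      (v 0 t * v 1 t + v 2 t * v 3 t) * (v 0 t * v 1 t - v 2 t * v 3 t) = 0)).resolve_left h6
  linear_combination -2 * h7

end Pool.Agent.Lib.MP_6db618_an
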