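import Mathlib
import Pool.Agent.Lib.MP_6db618_an.EssCorr
import Pool.Agent.Lib.MP_6db618_an.EssLevel

set_option autoImplicit false

namespace Pool.Agent.Lib.MP_6db618_an

open Set Filter Topology Complex Polynomial

theorem Corr.norm_eq {T U : Sys} {R : ℂ[X][X]} (c : Corr T U R) (hT : Ess T) {N : ℕ} (hN : 0 < N)
    {Y : ℂ → ℂ} (h : ∀ᶠ t in 𝓝[≠] (0 : ℂ), R.evalEval (t ^ N)⁻¹ (Y t) = 0) :
    ∀ᶠ t in 𝓝[≠] (0 : ℂ), ‖U.H (Y t)‖ = ‖T.H (t ^ N)⁻¹‖ := by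
  filter_upwards [h, hT.eventually_mem hN] with t h1 h2
  rw [(c.root _ _ h1).2 h2]

theorem Branch.swLim_sq {R : Fin 4 → ℂ[X][X]} {N : ℕ} {K : Type} [Finite K] [Nonempty K]
    {θ : K → Fin 4 → ℂ → ℂ} (B : Branch R N θ) {ν n : ℕ} (hn : 0 < n) (hν : N * n = 2 * ν)
    {μ : Fin 4 → ℂ} (hμ : ∀ j, μ j ≠ 0) (hl : ∀ k j, ∃ d β : ℂ, d ^ 2 = μ j ∧
      Tendsto (fun t => d * (θ k j t ^ ν)⁻¹ - (t ^ ν)⁻¹) (𝓝[≠] 0) (𝓝 β)) : SwLim R := by
  classical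
  have := Fintype.ofFinite K
  choose d β hd hβ using hl
  have h0 : 0 < ν := by
    have := Nat.mul_pos B.pos hn
    omega
  have e1 : ∀ k j t, (d k j * (θ k j t ^ ν)⁻¹) ^ 2 = μ j * (θ k j t ^ N)⁻¹ ^ n := fun k j t => by
    rw [mul_pow, hd, inv_pow, inv_pow, ← pow_mul, ← pow_mul, hν, mul_comm ν]
  have key := fun k => sq_tendsto (v := fun j t => d k j * (θ k j t ^ ν)⁻¹) (tendsto_inv_pow h0)
    (hβ k) hμ (by
      filter_upwards [B.rel k] with t ht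
      have := congrArg (· ^ n) ht
      simp only [mul_pow] at this
      simp only [e1]
      linear_combination μ 0 * μ 1 * μ 2 * μ 3 * this)
  obtain ⟨k₀⟩ := ‹Nonempty K›
  refine ⟨n, hn, ![μ 1, μ 0, μ 3, μ 2], fun h => hμ 1 (congrFun h 0),
    Finset.univ.image fun k => (β k 0 - β k 1) ^ 2 - (β k 2 - β k 3) ^ 2, fun _ => ?_,
    fun ε hε => ?_⟩
  · simpa [mul_comm] using (key k₀).1
  obtain ⟨ρ, hρ⟩ := B.cover (P := fun k t => ‖∏ c ∈ Finset.univ.image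
      fun k => (β k 0 - β k 1) ^ 2 - (β k 2 - β k 3) ^ 2,
      (Sw ![μ 1, μ 0, μ 3, μ 2] n (fun j => (θ k j t ^ N)⁻¹) - c)‖ < ε) fun k => by
    have h1 : Tendsto (fun t => Sw ![μ 1, μ 0, μ 3, μ 2] n fun j => (θ k j t ^ N)⁻¹) (𝓝[≠] 0)
        (𝓝 ((β k 0 - β k 1) ^ 2 - (β k 2 - β k 3) ^ 2)) := by
      refine (key k).2.congr fun t => ?_
      simp only [e1]
      simp [Sw]
    have h2 := (tendsto_finsetProd (Finset.univ.image
      fun k => (β k 0 - β k 1) ^ 2 - (β k 2 - β k 3) ^ 2) fun c _ => h1.sub_const c).norm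
    rw [Finset.prod_eq_zero (Finset.mem_image_of_mem _ (Finset.mem_univ k)) (sub_self _),
      norm_zero] at h2
    exact h2.eventually_lt_const hε
  refine ⟨ρ, fun e b1 b2 => ?_⟩
  obtain ⟨k, t, b4, rfl⟩ := hρ e b1 b2
  exact b4

theorem swap_limit_ess {S : Fin 4 → Sys} (hE : ∀ i, Ess (S i))
    (h01 : ∀ z, ‖(S 1).H z‖ = ‖(S 0).H (starRingEnd ℂ z)‖)
    (h23 : ∀ z, ‖(S 3).H z‖ = ‖(S 2).H (starRingEnd ℂ z)‖) {R : Fin 4 → ℂ[X][X]}
    (hR : ∀ j, (R j).Monic ∧ Corr (S 0) (S j) (R j))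
    (hex : ∀ ρ : ℝ, ∃ e : Fin 4 → ℂ, ρ < ‖e 0‖ ∧ Quad R e) : Lin (S 0) (S 2) ∨ SwLim R := by
  obtain ⟨N, K, _, θ, B⟩ := exists_branch (fun j => (hR j).1)
    (fun j => (hR j).2.sep.imp fun _ h => h.1)
    (fun j N Y hN hY h => (hR j).2.tendsto_branch_ess (hE 0) hN hY h)
    (fun N n φ hN hn h1 h2 h3 h => ((hE 0).wild one_pos).order_eq hN hn analyticAt_id rfl
      (by simp) h1 h2 h3 (((hR 1).2.norm_eq (hE 0) hN h).mono fun t b1 => by
        simp only [pow_one, id, ← b1, h01, map_inv₀]))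
    (fun N m n θ φ hN hm hn h1 h2 h3 h4 h5 h6 h => ((hE 2).wild one_pos).order_eq hm hn
      h1 h2 h3 h4 h5 h6 (by
        filter_upwards [(hR 2).2.norm_eq (hE 0) hN (h.mono fun t b => b.1),
          (hR 3).2.norm_eq (hE 0) hN (h.mono fun t b => b.2)] with t b1 b2
        simp only [pow_one, b1, ← b2, h23, map_inv₀]))
  obtain ⟨k⟩ := B.nonempty hex
  rcases ess_data B.pos (fun i t => ‖(S i).H (t ^ N)⁻¹‖) ((hE 0).wild B.pos)
    (fun i ω t hω => by simp only [mul_pow, hω, one_mul]) θ (fun k j =>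
      ⟨gm_empty (B.germ k j).1 (B.germ k j).2.1 (B.germ k j).2.2, by
        by_cases hj : j = 0
        · subst hj
          exact Eventually.of_forall fun t => by rw [B.zero]
        · exact (hR j).2.norm_eq (hE 0) B.pos (B.root k j hj)⟩)
    with hl | ⟨ν, hν, η, hη, hl⟩ | ⟨ν, n, hn, hν, μ, hμ, hl⟩
  · exact Or.inl (B.lin (hR 2).2 k (hl k 2))
  · exact Or.inr (B.swLim hν hη hl)
  · have : Nonempty K := ⟨k⟩
    exact Or.inr (B.swLim_sq hn hν hμ hl)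

end Pool.Agent.Lib.MP_6db618_an
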