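import Mathlib
import Pool.Agent.Lib.MP_6db618_an.InfDefs

set_option autoImplicit false

namespace Pool.Agent.Lib.MP_6db618_an

open Set Filter Topology Complex Polynomial

open MeasureTheory in
theorem integrableOn_deriv_dslope' {O : Set ℂ} (hO : IsOpen O) (hfin : volume O ≠ ⊤) {u : ℂ → ℂ}
    (hu : DifferentiableOn ℂ u O) (hint : IntegrableOn (deriv u) O) {B : ℝ}
    (hB : ∀ a ∈ O, ‖u a‖ ≤ B) {w : ℂ} (hw : w ∈ O) : IntegrableOn (deriv (dslope u w)) O := by
  have hd : ∀ a ∈ O, HasDerivAt u (deriv u a) a := fun a ha =>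
    (hu.differentiableAt (hO.mem_nhds ha)).hasDerivAt
  obtain ⟨ρ, hρ, hsub⟩ := Metric.nhds_basis_closedBall.mem_iff.mp (hO.mem_nhds hw)
  have hF := (differentiableOn_dslope (hO.mem_nhds hw)).mpr hu
  rw [← union_sdiff_cancel hsub]
  refine IntegrableOn.union (((hF.deriv hO).continuousOn.mono hsub).integrableOn_compact
    (isCompact_closedBall w ρ)) ?_
  have hm : MeasurableSet (O \ Metric.closedBall w ρ) :=
    hO.measurableSet.diff measurableSet_closedBall
  refine Integrable.mono' (g := fun a => ‖deriv u a‖ / ρ + 2 * B / ρ ^ 2)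
    (IntegrableOn.mono_set (s := _) (t := O) ?_ sdiff_subset)
    (measurable_deriv _).aestronglyMeasurable ((ae_restrict_iff' hm).mpr
      (Eventually.of_forall fun a ha => ?_))
  · exact (hint.norm.div_const ρ).add (integrableOn_const hfin)
  · have h2 : ρ ≤ ‖a - w‖ := le_of_lt (by simpa [dist_eq_norm] using ha.2)
    have h3 : a - w ≠ 0 := norm_pos_iff.mp (hρ.trans_le h2)
    have h4 : HasDerivAt (dslope u w) (deriv u a / (a - w) - (u a - u w) / (a - w) ^ 2) a := by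
      refine ((((hd a ha.1).sub_const (u w)).div ((hasDerivAt_id a).sub_const w)
        h3).congr_of_eventuallyEq ?_).congr_deriv ?_
      · filter_upwards [isOpen_ne.mem_nhds (sub_ne_zero.mp h3)] with b hb
        simp only [dslope_of_ne _ hb, slope_def_field, id, Pi.div_apply]
      · simp only [id]
        field_simp
    rw [h4.deriv]
    refine (norm_sub_le _ _).trans (add_le_add ?_ ?_)
    · rw [norm_div]
      gcongr
    · rw [norm_div, norm_pow]
      have h5 := (norm_sub_le (u a) (u w)).trans (add_le_add (hB a ha.1) (hB w hw))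
      gcongr
      · linarith [norm_nonneg (u a - u w)]
      · linarith

open MeasureTheory in
/-- Removability of closed sets with null projections for bounded functions with integrable
derivative. -/
theorem removable' {O : Set ℂ} (hO : IsOpen O) {u : ℂ → ℂ} (hu : DifferentiableOn ℂ u O)
    (hint : IntegrableOn (deriv u) O) {B : ℝ} (hB : ∀ a ∈ O, ‖u a‖ ≤ B) {c : ℂ} {η : ℝ}
    (hη : 0 < η) (hQ : O ⊆ Sq c η) (hh : ∀ᵐ t : ℝ, ∀ a ∈ Sq c η, a.im = t → a ∈ O)
    (hv : ∀ᵐ s : ℝ, ∀ a ∈ Sq c η, a.re = s → a ∈ O) :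
    ∃ N, IsOpen N ∧ c ∈ N ∧ ∃ v, DifferentiableOn ℂ v N ∧ ∀ a ∈ N, a ∈ O → v a = u a := by
  obtain ⟨s₁, a1, a2, a3⟩ := (Measure.dense_of_ae hv).exists_between (sub_lt_self c.re hη)
  obtain ⟨s₂, b1, b2, b3⟩ := (Measure.dense_of_ae hv).exists_between (lt_add_of_pos_right c.re hη)
  obtain ⟨t₁, c1, c2, c3⟩ := (Measure.dense_of_ae hh).exists_between (sub_lt_self c.im hη)
  obtain ⟨t₂, d1, d2, d3⟩ := (Measure.dense_of_ae hh).exists_between (lt_add_of_pos_right c.im hη)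
  have hs : s₁ < s₂ := a3.trans b2
  have ht : t₁ < t₂ := c3.trans d2
  have hR : ∀ s ∈ uIcc s₁ s₂, ∀ t ∈ uIcc t₁ t₂, (⟨s, t⟩ : ℂ) ∈ Sq c η := fun s h1 t h2 => by
    rw [uIcc_of_le hs.le] at h1
    rw [uIcc_of_le ht.le] at h2
    exact ⟨abs_lt.mpr ⟨by linarith [h1.1], by linarith [h1.2]⟩,
      abs_lt.mpr ⟨by linarith [h2.1], by linarith [h2.2]⟩⟩
  have h₁ : ∀ s ∈ uIcc s₁ s₂, (⟨s, t₁⟩ : ℂ) ∈ O := fun s h => c1 _ (hR s h _ left_mem_uIcc) rfl
  have h₂ : ∀ s ∈ uIcc s₁ s₂, (⟨s, t₂⟩ : ℂ) ∈ O := fun s h => d1 _ (hR s h _ right_mem_uIcc) rfl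
  have h₃ : ∀ t ∈ uIcc t₁ t₂, (⟨s₁, t⟩ : ℂ) ∈ O := fun t h => a1 _ (hR _ left_mem_uIcc t h) rfl
  have h₄ : ∀ t ∈ uIcc t₁ t₂, (⟨s₂, t⟩ : ℂ) ∈ O := fun t h => b1 _ (hR _ right_mem_uIcc t h) rfl
  have hfin : volume O ≠ ⊤ := ne_top_of_le_ne_top measure_ball_lt_top.ne
    (measure_mono (hQ.trans (Sq_subset_ball c η)))
  let N : Set ℂ := {w | (s₁ < w.re ∧ w.re < s₂) ∧ t₁ < w.im ∧ w.im < t₂}
  have hN : IsOpen N := ((isOpen_lt continuous_const continuous_re).inter
    (isOpen_lt continuous_re continuous_const)).inter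
    ((isOpen_lt continuous_const continuous_im).inter (isOpen_lt continuous_im continuous_const))
  have n1 : ∀ w ∈ N, ∀ s ∈ uIcc s₁ s₂, (⟨s, t₁⟩ : ℂ) ≠ w := fun w hw s _ h =>
    hw.2.1.ne (congrArg im h)
  have n2 : ∀ w ∈ N, ∀ s ∈ uIcc s₁ s₂, (⟨s, t₂⟩ : ℂ) ≠ w := fun w hw s _ h =>
    hw.2.2.ne' (congrArg im h)
  have n3 : ∀ w ∈ N, ∀ t ∈ uIcc t₁ t₂, (⟨s₁, t⟩ : ℂ) ≠ w := fun w hw s _ h =>
    hw.1.1.ne (congrArg re h)
  have n4 : ∀ w ∈ N, ∀ t ∈ uIcc t₁ t₂, (⟨s₂, t⟩ : ℂ) ≠ w := fun w hw s _ h =>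
    hw.1.2.ne' (congrArg re h)
  have ch := fun t => (continuous_mk_left t)
  have cv := fun s => (continuous_mk_right s)
  have hK : ∀ φ : ℂ → ℂ, ContinuousOn φ O → ∀ w ∈ N,
      DifferentiableAt ℂ (fun w => Bd s₁ s₂ t₁ t₂ fun ζ => φ ζ / (ζ - w)) w := fun φ hφ w hw =>
    ((((cauchy_diff (hφ.comp (cv _).continuousOn h₄) (cv _) (n4 w hw)).const_mul I).sub
      ((cauchy_diff (hφ.comp (cv _).continuousOn h₃) (cv _) (n3 w hw)).const_mul I)).sub
      (cauchy_diff (hφ.comp (ch _).continuousOn h₂) (ch _) (n2 w hw))).add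
      (cauchy_diff (hφ.comp (ch _).continuousOn h₁) (ch _) (n1 w hw))
  have hpos : ∀ w ∈ N, (Bd s₁ s₂ t₁ t₂ fun ζ => 1 / (ζ - w)) ≠ 0 := fun w hw h0 => by
    have p1 := cauchy_pos hs (ch t₁) (w := w) (e := 1) fun s => by simpa using hw.2.1
    have p2 := cauchy_pos hs (ch t₂) (w := w) (e := -1) fun s => by simpa using hw.2.2
    have p3 := cauchy_pos ht (cv s₁) (w := w) (e := -I) fun s => by simpa using hw.1.1
    have p4 := cauchy_pos ht (cv s₂) (w := w) (e := I) fun s => by simpa using hw.1.2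
    have h1 := congrArg im h0
    rw [Bd, add_im, sub_im, sub_im, zero_im] at h1
    rw [one_mul] at p1
    rw [neg_mul, neg_im] at p3
    rw [neg_mul, one_mul, neg_im] at p2
    linarith
  refine ⟨N, hN, ⟨⟨a3, b2⟩, c3, d2⟩, fun w => (Bd s₁ s₂ t₁ t₂ fun ζ => u ζ / (ζ - w)) /
    Bd s₁ s₂ t₁ t₂ fun ζ => 1 / (ζ - w), fun w hw => ((hK u hu.continuousOn w hw).div
      (hK _ continuousOn_const w hw) (hpos w hw)).differentiableWithinAt, fun w hw hwO => ?_⟩
  have h0 := rect_zero hO ((differentiableOn_dslope (hO.mem_nhds hwO)).mpr hu)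
    (integrableOn_deriv_dslope' hO hfin hu hint hB hwO)
    (hh.mono fun t h1 h2 s h3 => h1 _ (hR s h3 t h2) rfl)
    (hv.mono fun s h1 h2 t h3 => h1 _ (hR s h2 t h3) rfl) h₁ h₂ h₃ h₄
  have hc := hu.continuousOn
  rw [Bd, cauchy_split (hc.comp (cv _).continuousOn h₄) (cv _) (n4 w hw),
    cauchy_split (hc.comp (cv _).continuousOn h₃) (cv _) (n3 w hw),
    cauchy_split (hc.comp (ch _).continuousOn h₂) (ch _) (n2 w hw),
    cauchy_split (hc.comp (ch _).continuousOn h₁) (ch _) (n1 w hw)] at h0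
  rw [div_eq_iff (hpos w hw), Bd, Bd]
  linear_combination h0

/-- A function of polynomial growth on a dense set, locally the trace of holomorphic functions away
from a discrete set, is a polynomial. -/
theorem poly_of_local {R E : Set ℂ} (hR : Dense R) (hE : ∀ z, ∀ᶠ w in 𝓝[≠] z, w ∉ E)
    (hRE : ∀ x ∈ R, x ∉ E) {f : ℂ → ℂ} {A : ℝ} {n : ℕ}
    (hf : ∀ x ∈ R, ‖f x‖ ≤ A * (1 + ‖x‖) ^ n)
    (hloc : ∀ z, z ∉ E → ∃ N, IsOpen N ∧ z ∈ N ∧ ∃ v, DifferentiableOn ℂ v N ∧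
      ∀ x ∈ N, x ∈ R → v x = f x) : ∃ P : ℂ[X], ∀ x ∈ R, f x = P.eval x := by
  let F : ℂ → ℂ := fun z => limUnder (𝓝[R] z) f
  have hne : ∀ z, (𝓝[R] z).NeBot := fun z => mem_closure_iff_nhdsWithin_neBot.mp (hR z)
  have hF : ∀ z, z ∉ E → DifferentiableAt ℂ F z ∧ (z ∈ R → F z = f z) ∧ ‖F z‖ ≤ A * (1 + ‖z‖) ^ n := by
    intro z hz
    obtain ⟨N, hN, hzN, v, hv, hvf⟩ := hloc z hz
    have ht : ∀ x ∈ N, Tendsto f (𝓝[R] x) (𝓝 (v x)) := fun x hx => by
      refine ((hv.continuousOn.continuousAt (hN.mem_nhds hx)).tendsto.mono_left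
        nhdsWithin_le_nhds).congr' ?_
      filter_upwards [mem_nhdsWithin_of_mem_nhds (hN.mem_nhds hx), self_mem_nhdsWithin]
        with y h1 h2 using hvf y h1 h2
    have he : ∀ x ∈ N, F x = v x := fun x hx => (ht x hx).limUnder_eq
    refine ⟨(hv.differentiableAt (hN.mem_nhds hzN)).congr_of_eventuallyEq
      (mem_of_superset (hN.mem_nhds hzN) he), fun h => (he z hzN).trans (hvf z hzN h), ?_⟩
    rw [he z hzN]
    refine le_of_tendsto_of_tendsto (ht z hzN).norm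
      (((by fun_prop : Continuous fun x : ℂ => A * (1 + ‖x‖) ^ n).tendsto z).mono_left
        nhdsWithin_le_nhds) ?_
    filter_upwards [self_mem_nhdsWithin] with y hy using hf y hy
  let G : ℂ → ℂ := fun z => limUnder (𝓝[≠] z) F
  have hG : ∀ z, z ∉ E → G z = F z := fun z hz =>
    ((hF z hz).1.continuousAt.tendsto.mono_left nhdsWithin_le_nhds).limUnder_eq
  have hd : Differentiable ℂ G := by
    intro z
    have h1 : ∀ᶠ w in 𝓝 z, (w ≠ z → w ∉ E) ∧ A * (1 + ‖w‖) ^ n ≤ A * (1 + ‖z‖) ^ n + 1 :=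
      (eventually_nhdsWithin_iff.mp (hE z)).and
        (((by fun_prop : Continuous fun x : ℂ => A * (1 + ‖x‖) ^ n).tendsto z).eventually_le_const
          (lt_add_one _))
    have h2 := differentiableOn_update_limUnder_of_bddAbove (f := F) h1
      (fun w hw => (hF w (hw.1.1 hw.2)).1.differentiableWithinAt)
      ⟨A * (1 + ‖z‖) ^ n + 1, by
        rintro _ ⟨w, hw, rfl⟩
        exact (hF w (hw.1.1 hw.2)).2.2.trans hw.1.2⟩
    refine (h2.differentiableAt h1).congr_of_eventuallyEq (h1.mono fun w hw => ?_)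
    by_cases h : w = z
    · rw [h, Function.update_self]
    · rw [Function.update_of_ne h, hG w (hw.1 h)]
  have hb : ∀ z, ‖G z‖ ≤ A * (1 + ‖z‖) ^ n := fun z =>
    (isClosed_le hd.continuous.norm (by fun_prop : Continuous fun x : ℂ => A * (1 + ‖x‖) ^ n)
      ).closure_subset_iff.mpr (fun x hx => by
        rw [mem_ofPred_eq, hG x (hRE x hx)]
        exact (hF x (hRE x hx)).2.2) (hR z)
  obtain ⟨P, hP⟩ := exists_poly_of_re_le hd (N := n + 1) (B := 0) (R := max 1 (|A| * 2 ^ n))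
    fun r hr z hz => by
      have r1 : 1 ≤ r := (le_max_left _ _).trans hr
      have r2 : |A| * 2 ^ n ≤ r := (le_max_right _ _).trans hr
      have h1 : (1 + ‖z‖) ^ n ≤ (2 * r) ^ n := by
        gcongr
        linarith
      calc (G z).re ≤ ‖G z‖ := re_le_norm _
        _ ≤ A * (1 + ‖z‖) ^ n := hb z
        _ ≤ |A| * (2 * r) ^ n :=
          mul_le_mul (le_abs_self A) h1 (by positivity) (abs_nonneg A)
        _ = |A| * 2 ^ n * r ^ n := by ring
        _ ≤ r * r ^ n := by gcongr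
        _ = r ^ (n + 1) + 0 := by ring
  exact ⟨P, fun x hx => by rw [← (hF x (hRE x hx)).2.1 hx, ← hG x (hRE x hx), hP]⟩

open MeasureTheory in
/-- The Dirichlet energy of all branches of `v ∘ H⁻¹` is finite. -/
theorem Sys.energy (S : Sys) {W : Set ℂ} (hW : IsOpen W) {v : ℂ → ℂ}
    (hv : DifferentiableOn ℂ v W) (hinj : InjOn v W) {B : ℝ} (hB : ∀ y ∈ W, ‖v y‖ ≤ B) :
    ∃ E : ℂ → ENNReal, Measurable E ∧ ∫⁻ a, E a ≠ ⊤ ∧
      ∀ y ∈ W, y ∈ S.Reg → ‖deriv v y / deriv S.H y‖ₑ ^ 2 ≤ E (S.H y) := by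
  choose! η hη N ψ c hN using fun z (hz : z ∈ S.Reg) => S.exists_chart' hz
  obtain ⟨T, hT1, hT2, hT3⟩ := (HereditarilyLindelofSpace.isLindelof S.Reg).elim_nhds_subcover
    N fun z hz => (c z hz).oN.mem_nhds (hN z hz)
  rcases T.eq_empty_or_nonempty with rfl | hT
  · exact ⟨0, measurable_zero, by simp, fun y _ hy => by simpa using hT3 hy⟩
  obtain ⟨f, rfl⟩ := hT1.exists_eq_range hT
  have cf := fun n => c (f n) (hT2 _ (mem_range_self n))
  let M : ℕ → Set ℂ := fun n => W ∩ disjointed (fun n => N (f n)) n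
  have hMN : ∀ n, M n ⊆ N (f n) := fun n =>
    inter_subset_right.trans (disjointed_subset (fun n => N (f n)) n)
  have hM : ∀ n, MeasurableSet (M n) := fun n =>
    hW.measurableSet.inter (MeasurableSet.disjointed (fun n => (cf n).oN.measurableSet) n)
  have hA : ∀ n, MeasurableSet (S.H '' M n) := fun n =>
    (hM n).image_of_continuousOn_injOn
      (S.diff.continuousOn.mono fun y hy => ((cf n).reg (hMN n hy)).1)
      fun y hy y' hy' h => by
        rw [← ((cf n).left y (hMN n hy)).2, h, ((cf n).left y' (hMN n hy')).2]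
  have hd : ∀ n, ∀ y ∈ M n, HasDerivAt (v ∘ ψ (f n)) (deriv v y / deriv S.H y) (S.H y) := by
    intro n y hy
    have h1 := (cf n).left y (hMN n hy)
    have h2 := (cf n).hasDerivAt h1.1
    have h3 : HasDerivAt v (deriv v y) (ψ (f n) (S.H y)) := by
      rw [h1.2]
      exact (hv.differentiableAt (hW.mem_nhds hy.1)).hasDerivAt
    have h4 := h3.comp (S.H y) h2
    rwa [h1.2, ← div_eq_mul_inv] at h4
  have hm : ∀ n, Measurable fun a => ‖deriv (v ∘ ψ (f n)) a‖ₑ ^ 2 := fun n =>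
    (measurable_deriv _).enorm.pow_const 2
  refine ⟨fun a => ∑' n, (S.H '' M n).indicator (fun a => ‖deriv (v ∘ ψ (f n)) a‖ₑ ^ 2) a,
    Measurable.tsum fun n => (hm n).indicator (hA n), ?_, fun y hy hr => ?_⟩
  · have h1 : ∀ n, ∫⁻ a, (S.H '' M n).indicator (fun a => ‖deriv (v ∘ ψ (f n)) a‖ₑ ^ 2) a =
        volume (v '' M n) := by
      intro n
      have h2 : (v ∘ ψ (f n)) '' (S.H '' M n) = v '' M n := by
        rw [image_image]
        exact image_congr fun y hy => by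
          rw [Function.comp_apply, ((cf n).left y (hMN n hy)).2]
      rw [lintegral_indicator (hA n), ← h2, ← lintegral_abs_det_fderiv_eq_addHaar_image volume
        (hA n) (f' := fun a => deriv (v ∘ ψ (f n)) a • (1 : ℂ →L[ℝ] ℂ))]
      · refine lintegral_congr fun a => ?_
        rw [det_smul_one, abs_of_nonneg (normSq_nonneg _), normSq_eq_norm_sq,
          ENNReal.ofReal_pow (norm_nonneg _), ofReal_norm]
      · rintro _ ⟨y, hy, rfl⟩
        exact (hd n y hy).differentiableAt.hasDerivAt.complexToReal_fderiv.hasFDerivWithinAt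
      · rintro _ ⟨y, hy, rfl⟩ _ ⟨y', hy', rfl⟩ h
        rw [Function.comp_apply, Function.comp_apply, ((cf n).left y (hMN n hy)).2,
          ((cf n).left y' (hMN n hy')).2] at h
        rw [hinj hy.1 hy'.1 h]
    rw [lintegral_tsum fun n => ((hm n).indicator (hA n)).aemeasurable]
    simp only [h1]
    rw [← measure_iUnion]
    · refine ne_top_of_le_ne_top (measure_closedBall_lt_top (x := (0 : ℂ)) (r := B)).ne
        (measure_mono (iUnion_subset fun n => ?_))
      rintro _ ⟨y, hy, rfl⟩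
      simpa using hB y hy.1
    · intro n m hnm
      refine disjoint_left.mpr ?_
      rintro _ ⟨y, hy, rfl⟩ ⟨y', hy', h⟩
      have h3 := hinj hy'.1 hy.1 h
      subst h3
      exact disjoint_left.mp (disjoint_disjointed (fun n => N (f n)) hnm) hy.2 hy'.2
    · exact fun n => (hM n).image_of_continuousOn_injOn
        (hv.continuousOn.mono inter_subset_left) (hinj.mono inter_subset_left)
  · have h1 : y ∈ ⋃ n, disjointed (fun n => N (f n)) n := by
      rw [iUnion_disjointed]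
      simpa using hT3 hr
    obtain ⟨n, hn⟩ := mem_iUnion.mp h1
    refine le_trans ?_ (ENNReal.le_tsum n)
    rw [indicator_of_mem (mem_image_of_mem _ (show y ∈ M n from ⟨hy, hn⟩)), (hd n y ⟨hy, hn⟩).deriv]

end Pool.Agent.Lib.MP_6db618_an
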