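import Mathlib
import Pool.Agent.Lib.MP_6db618_an.InfRem

set_option autoImplicit false

namespace Pool.Agent.Lib.MP_6db618_an

open Set Filter Topology Complex Polynomial

variable {ι : Type} {S : ι → Sys} {a : ℂ} {x : ι → ℂ}

theorem Fib.fib (h : Pt S a x) {i : ι} {κ : Type} {p : κ → ι} {z : ℂ} {e : κ → ℂ}
    (he : e ∈ Fib S a x i p z) (k : κ) :
    e k ∈ (S (p k)).Ω ∧ (S (p k)).H (e k) = (S i).H z := by
  obtain ⟨b, u, hu, rfl, rfl⟩ := he
  rw [((h.tr hu).fib i).2]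
  exact (h.tr hu).fib (p k)

theorem Fib.mapsTo (h : Pt S a x) {i : ι} {κ : Type} {p : κ → ι} {z b c : ℂ} {P : Set ℂ}
    {w : ι → ℂ → ℂ} (hb : (S i).H z = b) (hw : Tr S P b c w) :
    MapsTo (fun (e : κ → ℂ) k => w (p k) (e k)) (Fib S a x i p z) (Fib S a x i p (w i z)) := by
  rintro _ ⟨b', u, hu, rfl, rfl⟩
  obtain rfl : b' = b := ((h.tr hu).fib i).2.symm.trans hb
  exact ⟨c, _, hu.trans (hw.mono (subset_univ _)), rfl, rfl⟩

theorem Fib.bijOn (h : Pt S a x) {i : ι} {κ : Type} {p : κ → ι} {z b c : ℂ} {P : Set ℂ}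
    {w : ι → ℂ → ℂ} (hz : z ∈ (S i).Ω) (hb : (S i).H z = b) (hw : Tr S P b c w) :
    BijOn (fun (e : κ → ℂ) k => w (p k) (e k)) (Fib S a x i p z) (Fib S a x i p (w i z)) := by
  refine ⟨Fib.mapsTo h hb hw, fun e he e' he' hee => funext fun k => ?_, fun e he => ?_⟩
  · exact hw.inj (p k) (Fib.fib h he k).1 ((Fib.fib h he k).2.trans hb) (Fib.fib h he' k).1
      ((Fib.fib h he' k).2.trans hb) (congrFun hee k)
  · obtain ⟨v, hv, h2⟩ := hw.inv
    have hc := (hw.fib i hz hb).2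
    have h3 := Fib.mapsTo (p := p) h hc hv he
    rw [h2 i z hz hb] at h3
    refine ⟨_, h3, funext fun k => ?_⟩
    have f1 := Fib.fib h he k
    rw [hc] at f1
    have f2 := hv.fib (p k) f1.1 f1.2
    have f3 := hw.fib (p k) f2.1 f2.2
    exact hv.inj (p k) f3.1 f3.2 f1.1 f1.2 (h2 (p k) _ f2.1 f2.2)

theorem Fib.enum (h : Pt S a x) {i : ι} {κ : Type} {p : κ → ι} {z b c : ℂ} {P : Set ℂ}
    {w : ι → ℂ → ℂ} (hz : z ∈ (S i).Ω) (hb : (S i).H z = b) (hw : Tr S P b c w) {d : ℕ}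
    {g : Fin d → κ → ℂ} (hg : Function.Injective g) (hr : range g = Fib S a x i p z) :
    Function.Injective (fun l k => w (p k) (g l k)) ∧
      range (fun l k => w (p k) (g l k)) = Fib S a x i p (w i z) := by
  have hB := Fib.bijOn (p := p) h hz hb hw
  refine ⟨fun l l' e => hg (hB.injOn (hr ▸ mem_range_self l) (hr ▸ mem_range_self l') e), ?_⟩
  rw [← hB.image_eq, ← hr, ← range_comp]
  rfl

theorem exists_enum (h : Pt S a x) {i : ι} {κ : Type} [Fintype κ] (p : κ → ι)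
    (hfin : ∀ k, FinOrb S a x i (p k)) :
    ∃ d : ℕ, 0 < d ∧ ∀ z ∈ Rch S a x i, ∃ g : Fin d → κ → ℂ, Function.Injective g ∧
      range g = Fib S a x i p z := by
  have h1 : (Fib S a x i p (x i)).Finite := by
    refine (Finite.pi' hfin).subset ?_
    rintro _ ⟨b, u, hu, e, rfl⟩ k
    exact ⟨b, u, hu, e, rfl⟩
  obtain ⟨d, g, hg, hr⟩ := h1.fin_param
  have h2 : (fun k => x (p k)) ∈ Fib S a x i p (x i) := ⟨a, _, Tr.refl, rfl, rfl⟩
  rw [← hr] at h2
  obtain ⟨l, -⟩ := h2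
  refine ⟨d, l.pos, ?_⟩
  rintro _ ⟨b, u, hu, rfl⟩
  exact ⟨_, Fib.enum h (h.fib i).1 (h.fib i).2 hu hg hr⟩

theorem exists_perm_of_range_eq {α β : Type} {g g' : α → β} (hg : Function.Injective g)
    (hg' : Function.Injective g') (h : range g' = range g) : ∃ σ : Equiv.Perm α, g' = g ∘ σ := by
  refine ⟨(Equiv.ofInjective g' hg').trans
    ((Equiv.setCongr h).trans (Equiv.ofInjective g hg).symm), funext fun l => ?_⟩
  simp [Equiv.apply_ofInjective_symm hg]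

theorem enorm_pi_le {d : ℕ} {κ : Type} [Fintype κ] {F : Fin d → κ → ℂ} {R : ENNReal}
    (h : ∀ l k, ‖F l k‖ₑ ≤ R) : ‖F‖ₑ ≤ R := by
  by_cases hR : R = ⊤
  · simp [hR]
  lift R to NNReal using hR
  exact ENNReal.coe_le_coe.mpr (pi_nnnorm_le_iff.mpr fun l => pi_nnnorm_le_iff.mpr fun k =>
    ENNReal.coe_le_coe.mp (h l k))

theorem le_one_add_of_sq_le {t E : ENNReal} (h : t ^ 2 ≤ E) : t ≤ 1 + E := by
  rcases le_total t 1 with h1 | h1
  · exact le_add_right h1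
  · refine le_add_left (le_trans ?_ h)
    rw [sq]
    exact le_mul_of_one_le_left' h1

open MeasureTheory in
/-- Bounded symmetric functions of the finitely many branches are holomorphic. -/
theorem ext_local [Fintype ι] (h : Pt S a x) {i : ι} {κ : Type} [Fintype κ] (p : κ → ι) {d : ℕ}
    (hd : ∀ z ∈ Rch S a x i, ∃ g : Fin d → κ → ℂ, Function.Injective g ∧
      range g = Fib S a x i p z)
    {Φ : (Fin d → κ → ℂ) → ℂ} (hΦ : ContDiff ℂ 1 Φ)
    (hsym : ∀ (σ : Equiv.Perm (Fin d)) (w : Fin d → κ → ℂ), Φ (w ∘ σ) = Φ w)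
    {v : κ → ℂ → ℂ} {V K : κ → Set ℂ} {B : ℝ} (hV : ∀ k, IsOpen (V k))
    (hK : ∀ k, IsClosed (K k)) (hKV : ∀ k, K k ⊆ V k)
    (hv : ∀ k, DifferentiableOn ℂ (v k) (V k)) (hinj : ∀ k, InjOn (v k) (V k))
    (hB : ∀ k, ∀ y ∈ K k, ‖v k y‖ ≤ B) {z : ℂ} (hz : z ∈ (S i).Reg) {O : Set ℂ} (hO : O ∈ 𝓝 z)
    (hOK : ∀ z' ∈ O, ∀ e ∈ Fib S a x i p z', ∀ k, e k ∈ K k) :
    ∃ N, IsOpen N ∧ z ∈ N ∧ ∃ G, DifferentiableOn ℂ G N ∧ ∀ z' ∈ N, z' ∈ Rch S a x i →
      ∀ g : Fin d → κ → ℂ, Function.Injective g → range g = Fib S a x i p z' →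
        G z' = Φ fun l k => v k (g l k) := by
  have hsym' : ∀ g g' : Fin d → κ → ℂ, Function.Injective g → Function.Injective g' →
      range g' = range g → (Φ fun l k => v k (g' l k)) = Φ fun l k => v k (g l k) := by
    intro g g' hg hg' hr
    obtain ⟨σ, rfl⟩ := exists_perm_of_range_eq hg hg' hr
    exact hsym σ fun l k => v k (g l k)
  have hline : ∀ y ∈ Rch S a x i, Line S ((S i).H y) ((S i).H y) := by
    rintro _ ⟨b, u, hu, rfl⟩
    rw [((h.tr hu).fib i).2]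
    exact (h.tr hu).line
  obtain ⟨ρ, ⟨N', χ, c, hzN, hN'⟩, hρ⟩ := (((S i).exists_chart hz hO).and
    self_mem_nhdsWithin).exists
  let T : ℂ × ℝ × (Fin d → κ → Set ℂ) × (Fin d → κ → ℂ → ℂ) → Prop := fun t =>
    (∀ l k, (S (p k)).Chart (Sq t.1 t.2.1) (t.2.2.1 l k) (t.2.2.2 l k)) ∧
    Sq t.1 t.2.1 ⊆ Sq ((S i).H z) ρ ∧ ∀ b ∈ Sq t.1 t.2.1, Line S b b →
      Function.Injective (fun l k => t.2.2.2 l k b) ∧
        range (fun l k => t.2.2.2 l k b) = Fib S a x i p (χ b)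
  have hTK : ∀ t, T t → ∀ b ∈ Sq t.1 t.2.1, ∀ l k, t.2.2.2 l k b ∈ K k := by
    intro t ht b hb l k
    have h1 := (dense_Grid S).open_subset_closure_inter (isOpen_Sq _ _) hb
    refine (hK k).closure_subset_iff.mpr ?_ (((ht.1 l k).cont.continuousAt
      ((isOpen_Sq _ _).mem_nhds hb)).continuousWithinAt.mem_closure_image h1)
    rintro _ ⟨b', hb', rfl⟩
    exact hOK _ (hN' (c.maps b' (ht.2.1 hb'.1))) _
      ((ht.2.2 b' hb'.1 (Grid.line hb'.2)).2 ▸ mem_range_self l) k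
  have hder : ∀ t, T t → ∀ b ∈ Sq t.1 t.2.1, HasDerivAt (fun b l k => v k (t.2.2.2 l k b))
      (fun l k => deriv (v k) (t.2.2.2 l k b) / deriv (S (p k)).H (t.2.2.2 l k b)) b := by
    intro t ht b hb
    refine hasDerivAt_pi.mpr fun l => hasDerivAt_pi.mpr fun k => ?_
    rw [div_eq_mul_inv]
    exact ((hv k).differentiableAt ((hV k).mem_nhds (hKV k (hTK t ht b hb l k)))).hasDerivAt.comp b
      ((ht.1 l k).hasDerivAt hb)
  have hΦd : Differentiable ℂ Φ := hΦ.differentiable one_ne_zero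
  have hcont : ∀ t, T t →
      ContinuousOn (fun b => Φ fun l k => v k (t.2.2.2 l k b)) (Sq t.1 t.2.1) := fun t ht b hb =>
    (hΦd.continuous.continuousAt.comp (hder t ht b hb).continuousAt).continuousWithinAt
  let U : Set ℂ := {b | ∃ t, T t ∧ b ∈ Sq t.1 t.2.1}
  have hU : ∀ b ∈ U, ∃ y, ∀ t, T t → b ∈ Sq t.1 t.2.1 →
      y = Φ fun l k => v k (t.2.2.2 l k b) := by
    rintro b ⟨t, ht, hbt⟩
    refine ⟨_, fun t' ht' hbt' => eq_of_Grid S ((isOpen_Sq _ _).inter (isOpen_Sq _ _))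
      ((hcont t ht).mono inter_subset_left) ((hcont t' ht').mono inter_subset_right)
      (fun b' hb' hg => ?_) b ⟨hbt, hbt'⟩⟩
    have e := ht.2.2 b' hb'.1 (Grid.line hg)
    have e' := ht'.2.2 b' hb'.2 (Grid.line hg)
    exact hsym' _ _ e'.1 e.1 (e.2.trans e'.2.symm)
  choose! G hG using hU
  have hUo : IsOpen U := isOpen_iff_mem_nhds.mpr fun b ⟨t, ht, hbt⟩ =>
    mem_of_superset ((isOpen_Sq _ _).mem_nhds hbt) fun b' hb' => ⟨t, ht, hb'⟩
  have hUQ : U ⊆ Sq ((S i).H z) ρ := fun b ⟨t, ht, hbt⟩ => ht.2.1 hbt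
  have hball : ∀ t, T t → ∀ b ∈ Sq t.1 t.2.1, (fun l k => v k (t.2.2.2 l k b)) ∈
      Metric.closedBall (0 : Fin d → κ → ℂ) |B| := fun t ht b hb =>
    mem_closedBall_zero_iff.mpr ((pi_norm_le_iff_of_nonneg (abs_nonneg B)).mpr fun l =>
      (pi_norm_le_iff_of_nonneg (abs_nonneg B)).mpr fun k =>
        (hB k _ (hTK t ht b hb l k)).trans (le_abs_self B))
  obtain ⟨M₀, hM₀⟩ := (isCompact_closedBall (0 : Fin d → κ → ℂ) |B|).exists_bound_of_continuousOn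
    hΦd.continuous.continuousOn
  obtain ⟨M₁, hM₁⟩ := (isCompact_closedBall (0 : Fin d → κ → ℂ) |B|).exists_bound_of_continuousOn
    (hΦ.continuous_fderiv one_ne_zero).continuousOn
  have hGd : ∀ t, T t → ∀ b ∈ Sq t.1 t.2.1, HasDerivAt G
      (fderiv ℂ Φ (fun l k => v k (t.2.2.2 l k b)) fun l k =>
        deriv (v k) (t.2.2.2 l k b) / deriv (S (p k)).H (t.2.2.2 l k b)) b := by
    intro t ht b hb
    refine ((hΦd _).hasFDerivAt.comp_hasDerivAt b (hder t ht b hb)).congr_of_eventuallyEq ?_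
    filter_upwards [(isOpen_Sq _ _).mem_nhds hb] with b' hb' using hG b' ⟨t, ht, hb'⟩ t ht hb'
  have hE := fun k => (S (p k)).energy (W := V k ∩ (fun y => ‖v k y‖) ⁻¹' Iio (B + 1))
    ((hv k).continuousOn.norm.isOpen_inter_preimage (hV k) isOpen_Iio)
    ((hv k).mono inter_subset_left) ((hinj k).mono inter_subset_left) (B := B + 1)
    fun y hy => le_of_lt hy.2
  choose E hE1 hE2 hE3 using hE
  have hint : IntegrableOn (deriv G) U := by
    refine ⟨(measurable_deriv G).aestronglyMeasurable, ?_⟩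
    have h1 : ∀ b ∈ U, ‖deriv G b‖ₑ ≤ ENNReal.ofReal M₁ * (1 + ∑ k, E k b) := by
      rintro b ⟨t, ht, hb⟩
      rw [(hGd t ht b hb).deriv]
      refine (ContinuousLinearMap.le_opENorm _ _).trans (mul_le_mul' ?_ (enorm_pi_le fun l k => ?_))
      · rw [← ofReal_norm]
        exact ENNReal.ofReal_le_ofReal (hM₁ _ (hball t ht b hb))
      · have h2 := hTK t ht b hb l k
        have h3 := hE3 k _ ⟨hKV k h2, (hB k _ h2).trans_lt (lt_add_one B)⟩
          ((ht.1 l k).reg ((ht.1 l k).maps b hb))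
        rw [(ht.1 l k).right b hb] at h3
        exact (le_one_add_of_sq_le h3).trans (add_le_add_right
          (Finset.single_le_sum (f := fun k => E k b) (fun _ _ => zero_le) (Finset.mem_univ k)) 1)
    refine lt_of_le_of_lt (setLIntegral_mono' hUo.measurableSet h1) ?_
    rw [lintegral_const_mul' _ _ ENNReal.ofReal_ne_top, lintegral_add_left measurable_const,
      lintegral_finsetSum _ fun k _ => hE1 k]
    refine ENNReal.mul_lt_top ENNReal.ofReal_lt_top (ENNReal.add_lt_top.mpr ⟨?_, ?_⟩)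
    · rw [setLIntegral_one]
      exact (measure_mono (hUQ.trans (Sq_subset_ball _ _))).trans_lt measure_ball_lt_top
    · exact ENNReal.sum_lt_top.mpr fun k _ =>
        (setLIntegral_le_lintegral _ _).trans_lt (lt_top_iff_ne_top.mpr (hE2 k))
  obtain ⟨x₁, hx₁, hx₁'⟩ := (h.dense_Rch i).inter_open_nonempty _ c.oN ⟨z, hzN⟩
  have key : ∀ b ∈ Sq ((S i).H z) ρ, Line S b b → b ∈ U := by
    intro b hbQ hlb
    obtain ⟨u, hu⟩ := exists_Tr (c.left _ hx₁).1 hbQ (hline _ hx₁') hlb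
    have h2 := hu.chart c (convex_Sq _ _) subset_rfl
    rw [(c.left _ hx₁).2] at h2
    have h3 : χ b ∈ Rch S a x i := by
      obtain ⟨b₁, u₁, hu₁, e⟩ := hx₁'
      rw [← e, ((h.tr hu₁).fib i).2] at hu
      exact ⟨b, _, hu₁.trans (hu.mono (subset_univ _)), by simp only [e, h2]⟩
    obtain ⟨g, hg, hr⟩ := hd _ h3
    have h4 : ∀ l k, g l k ∈ (S (p k)).Ω ∧ (S (p k)).H (g l k) = b := fun l k =>
      c.right b hbQ ▸ Fib.fib h (hr ▸ mem_range_self l) k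
    obtain ⟨η, h5, h6, h7⟩ := ((eventually_all.mpr fun l => eventually_all.mpr fun k =>
      (S (p k)).exists_chart (hlb.reg (p k) (h4 l k).1 (h4 l k).2) univ_mem).and
      ((eventually_Sq_subset (c.oQ.mem_nhds hbQ)).and self_mem_nhdsWithin)).exists
    choose N ψ h8 h9 _ using h5
    have h10 : ∀ l k, (S (p k)).Chart (Sq b η) (N l k) (ψ l k) := fun l k =>
      (h4 l k).2 ▸ h8 l k
    refine ⟨(b, η, N, ψ), ⟨h10, h6, fun b' hb' hl' => ?_⟩, mem_Sq_self b h7⟩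
    obtain ⟨w, hw⟩ := exists_Tr (mem_Sq_self b h7) hb' hlb hl'
    have h11 := Fib.enum h (c.reg (c.maps b hbQ)).1 (c.right b hbQ) hw hg hr
    have h12 : (fun l k => w (p k) (g l k)) = fun l k => ψ l k b' := by
      funext l k
      have h13 := ((h10 l k).left _ (h9 l k)).2
      rw [(h4 l k).2] at h13
      rw [← h13, hw.chart (h10 l k) (convex_Sq _ _) subset_rfl]
    rwa [h12, hw.chart c (convex_Sq _ _) h6] at h11
  obtain ⟨N₁, hN₁, hzN₁, G₁, hG₁, hGG⟩ := removable' hUo (u := G) (B := M₀) (c := (S i).H z)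
    (fun b ⟨t, ht, hb⟩ => (hGd t ht b hb).differentiableAt.differentiableWithinAt) hint
    (fun b ⟨t, ht, hb⟩ => (hG b ⟨t, ht, hb⟩ t ht hb).symm ▸ hM₀ _ (hball t ht b hb)) hρ hUQ
    ((ae_Gh S).mono fun t ht b h1 h2 => key b h1 (Or.inl ⟨rfl, h2 ▸ ht⟩))
    ((ae_Gv S).mono fun t ht b h1 h2 => key b h1 (Or.inr ⟨rfl, h2 ▸ ht⟩))
  have hH := (S i).diff.mono fun w hw => (c.reg hw).1
  refine ⟨N' ∩ (S i).H ⁻¹' N₁, hH.continuousOn.isOpen_inter_preimage c.oN hN₁, ⟨hzN, hzN₁⟩,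
    fun y => G₁ ((S i).H y), hG₁.comp (hH.mono inter_subset_left) fun y hy => hy.2,
    fun y hy hy' g hg hr => ?_⟩
  obtain ⟨t, ht, hb⟩ := key _ (c.left y hy.1).1 (hline y hy')
  have e := ht.2.2 _ hb (hline y hy')
  rw [(c.left y hy.1).2] at e
  simp only [hGG _ hy.2 ⟨t, ht, hb⟩, hG _ ⟨t, ht, hb⟩ t ht hb]
  exact hsym' _ _ hg e.1 (e.2.trans hr.symm)

end Pool.Agent.Lib.MP_6db618_an
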