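import Mathlib
import Pool.Agent.Lib.MP_6db618_an.InfExt

set_option autoImplicit false

namespace Pool.Agent.Lib.MP_6db618_an

open Set Filter Topology Complex Polynomial

variable {ι : Type} {S : ι → Sys} {a : ℂ} {x : ι → ℂ}

theorem Pair.fib (h : Pt S a x) {i j : ι} {z : ℂ} (hz : Pair S a x i j z (x j)) :
    z ∈ (S i).Reg ∧ (S i).H z = a := by
  obtain ⟨b, u, hu, rfl, e⟩ := hz
  have h1 := (h.tr hu).fib j
  have hb : b = a := by rw [← h1.2]; simp only [e]; exact (h.fib j).2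
  exact ⟨(h.tr hu).reg i, hb ▸ ((h.tr hu).fib i).2⟩

/-- A partner close to `x j` forces the point to lie on one of finitely many local branches. -/
theorem near_branch [Fintype ι] (h : Pt S a x) {i j : ι}
    (hX : {z | Pair S a x i j z (x j)}.Finite) :
    ∃ φ : ℂ → ℂ → ℂ, (∀ z, Pair S a x i j z (x j) →
      DifferentiableAt ℂ (φ z) (x j) ∧ φ z (x j) = z) ∧
      ∀ᶠ w in 𝓝 (x j), ∀ z', Pair S a x i j z' w →
        ∃ z, Pair S a x i j z (x j) ∧ z' = φ z w := by
  have h1 : ∀ᶠ η in 𝓝[>] (0 : ℝ), ∀ z ∈ {z | Pair S a x i j z (x j)},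
      ∃ N ψ, (S i).Chart (Sq a η) N ψ ∧ z ∈ N := by
    refine (eventually_all_finite hX).mpr fun z hz => ?_
    filter_upwards [(S i).exists_chart (Pair.fib h hz).1 univ_mem] with η ⟨N, ψ, c, hN, _⟩
    exact ⟨N, ψ, (Pair.fib h hz).2 ▸ c, hN⟩
  obtain ⟨η, ⟨h2, N₀, ψ₀, c₀, hN₀, -⟩, hη⟩ :=
    ((h1.and ((S j).exists_chart (h.reg j) univ_mem)).and self_mem_nhdsWithin).exists
  rw [(h.fib j).2] at c₀
  choose! N ψ c hN using h2
  have ha : a ∈ Sq a η := mem_Sq_self a hη
  have hψ : ∀ z, Pair S a x i j z (x j) → ψ z a = z := fun z hz => by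
    have := ((c z hz).left z (hN z hz)).2
    rwa [(Pair.fib h hz).2] at this
  refine ⟨fun z w => ψ z ((S j).H w), fun z hz => ⟨?_, ?_⟩, ?_⟩
  · have h3 : DifferentiableAt ℂ (ψ z) ((S j).H (x j)) := by
      rw [(h.fib j).2]
      exact ((c z hz).hasDerivAt ha).differentiableAt
    exact h3.comp _ ((S j).analyticAt (h.fib j).1).differentiableAt
  · simp only [(h.fib j).2]
    exact hψ z hz
  filter_upwards [c₀.oN.mem_nhds hN₀] with w hw
  rintro z' ⟨b, u, hu, rfl, e⟩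
  have hb : (S j).H w = b := e ▸ ((h.tr hu).fib j).2
  have hbQ : b ∈ Sq a η := hb ▸ (c₀.left w hw).1
  obtain ⟨v, hv⟩ := exists_Tr hbQ ha (hu.line h.line) h.line
  have e1 : v j w = x j := by
    have h4 := hv.chart c₀ (convex_Sq _ _) subset_rfl
    have h5 := (c₀.left _ hN₀).2
    rw [(h.fib j).2] at h5
    rw [← h5, ← h4, ← hb, (c₀.left w hw).2]
  have hz : Pair S a x i j (v i (u i (x i))) (x j) :=
    ⟨a, _, hu.trans (hv.mono (subset_univ _)), rfl, by simp only [e, e1]⟩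
  refine ⟨_, hz, ?_⟩
  have c' := c _ hz
  refine hv.inj i ((h.tr hu).fib i).1 ((h.tr hu).fib i).2 (c'.reg (c'.maps _ (hb ▸ hbQ))).1
    (hb ▸ c'.right _ (hb ▸ hbQ)) ?_
  rw [hb, hv.chart c' (convex_Sq _ _) subset_rfl, hψ _ hz]

theorem exists_norm_eval_le (D : ℂ[X]) :
    ∃ A, 0 ≤ A ∧ ∀ z : ℂ, ‖D.eval z‖ ≤ A * (1 + ‖z‖) ^ D.natDegree := by
  refine ⟨∑ k ∈ Finset.range (D.natDegree + 1), ‖D.coeff k‖, by positivity, fun z => ?_⟩
  rw [eval_eq_sum_range, Finset.sum_mul]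
  refine (norm_sum_le _ _).trans (Finset.sum_le_sum fun k hk => ?_)
  rw [norm_mul, norm_pow]
  refine mul_le_mul_of_nonneg_left ?_ (norm_nonneg _)
  calc ‖z‖ ^ k ≤ (1 + ‖z‖) ^ k := pow_le_pow_left₀ (norm_nonneg _) (by linarith) _
    _ ≤ _ := pow_le_pow_right₀ (by linarith [norm_nonneg z])
      (Nat.lt_succ_iff.mp (Finset.mem_range.mp hk))

/-- A polynomial vanishing exactly at the partners of `x j` is controlled by the distance of a
partner to `x j`. -/
theorem exists_D [Fintype ι] (h : Pt S a x) {i j : ι}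
    (hX : {z | Pair S a x i j z (x j)}.Finite) :
    ∃ (D : ℂ[X]) (L ρ : ℝ), 0 < L ∧ 0 < ρ ∧ (∀ z, ¬ Pair S a x i j z (x j) → D.eval z ≠ 0) ∧
      ∀ z' w, Pair S a x i j z' w → ‖w - x j‖ < ρ → ‖D.eval z'‖ ≤ L * ‖w - x j‖ := by
  classical
  obtain ⟨φ, h1, h2⟩ := near_branch h hX
  set D : ℂ[X] := ∏ z ∈ hX.toFinset, (X - C z) with hD
  have hD0 : ∀ z, D.eval z = 0 ↔ Pair S a x i j z (x j) := fun z => by
    simp [hD, eval_prod, Finset.prod_eq_zero_iff, sub_eq_zero]
  have h3 : ∀ z ∈ {z | Pair S a x i j z (x j)}, ∃ L : ℝ, 0 < L ∧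
      ∀ᶠ w in 𝓝 (x j), ‖D.eval (φ z w)‖ ≤ L * ‖w - x j‖ := fun z hz => by
    have h4 : DifferentiableAt ℂ (fun w => D.eval (φ z w)) (x j) :=
      D.differentiableAt.comp _ (h1 z hz).1
    obtain ⟨L, hL, h5⟩ := h4.isBigO_sub.exists_pos
    refine ⟨L, hL, h5.bound.mono fun w hw => ?_⟩
    rwa [(h1 z hz).2, (hD0 z).mpr hz, sub_zero] at hw
  choose! L hL h4 using h3
  obtain ⟨ρ, hρ, h5⟩ := Metric.eventually_nhds_iff.mp
    (h2.and ((eventually_all_finite hX).mpr h4))
  have hsum : 0 ≤ ∑ z ∈ hX.toFinset, L z :=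
    Finset.sum_nonneg fun z hz => (hL z (hX.mem_toFinset.mp hz)).le
  refine ⟨D, 1 + ∑ z ∈ hX.toFinset, L z, ρ, by linarith, hρ, fun z hz h0 => hz ((hD0 z).mp h0),
    fun z' w hp hw => ?_⟩
  obtain ⟨h6, h7⟩ := h5 (show dist w (x j) < ρ by rwa [dist_eq_norm])
  obtain ⟨z, hz, rfl⟩ := h6 z' hp
  refine (h7 z hz).trans (mul_le_mul_of_nonneg_right ?_ (norm_nonneg _))
  have := Finset.single_le_sum (f := L) (fun z hz => (hL z (hX.mem_toFinset.mp hz)).le)
    (hX.mem_toFinset.mpr hz)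
  linarith

theorem mem_Fib_unit {i j : ι} {z : ℂ} {e : Unit → ℂ} :
    e ∈ Fib S a x i (fun _ : Unit => j) z ↔ Pair S a x i j z (e ()) := by
  constructor
  · rintro ⟨b, u, hu, e1, rfl⟩
    exact ⟨b, u, hu, e1, rfl⟩
  · rintro ⟨b, u, hu, e1, e2⟩
    exact ⟨b, u, hu, e1, funext fun _ => e2.symm⟩

/-- Two branches with finite orbits in both directions are related by a polynomial whose roots are
exactly the partners. -/
theorem exists_alg [Fintype ι] (h : Pt S a x) {i j : ι} (h₁ : FinOrb S a x i j)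
    (h₂ : FinOrb S a x j i) :
    ∃ (R : ℂ[X][X]) (E : Set ℂ) (d : ℕ), E.Finite ∧ 0 < d ∧ R.natDegree ≤ d ∧
      ∀ z ∈ Rch S a x i, z ∉ E → ∃ (c : ℂ) (g : Fin d → ℂ), c ≠ 0 ∧ Function.Injective g ∧
        range g = {w | Pair S a x i j z w} ∧
        R.map (evalRingHom z) = C c * ∏ l, (X - C (g l)) := by
  classical
  have hX : {z | Pair S a x i j z (x j)}.Finite := h₂.subset fun z ⟨b, u, hu, e1, e2⟩ =>
    ⟨b, u, hu, e2, e1⟩
  obtain ⟨d, hd0, hd⟩ := exists_enum h (fun _ : Unit => j) fun _ => h₁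
  obtain ⟨D, L, ρ, hL, hρ, hD, hDL⟩ := exists_D h hX
  obtain ⟨A, hA, hDA⟩ := exists_norm_eval_le D
  have hd' := hd
  choose! g hg1 hg2 using hd'
  have hgp : ∀ z ∈ Rch S a x i, ∀ l, Pair S a x i j z (g z l ()) := fun z hz l =>
    mem_Fib_unit.mp (hg2 z hz ▸ mem_range_self l)
  have hquot : ∀ z w, Pair S a x i j z w →
      ‖D.eval z * (w - x j)⁻¹‖ ≤ (L + A / ρ) * (1 + ‖z‖) ^ D.natDegree := fun z w hp => by
    have h1 : (1 : ℝ) ≤ (1 + ‖z‖) ^ D.natDegree := one_le_pow₀ (by linarith [norm_nonneg z])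
    have h2 : 0 ≤ A / ρ := by positivity
    rw [norm_mul, norm_inv, ← div_eq_mul_inv]
    rcases lt_or_ge ‖w - x j‖ ρ with hw | hw
    · have h3 : ‖D.eval z‖ / ‖w - x j‖ ≤ L := div_le_of_le_mul₀ (norm_nonneg _) hL.le (hDL z w hp hw)
      nlinarith
    · have h3 : ‖D.eval z‖ / ‖w - x j‖ ≤ A * (1 + ‖z‖) ^ D.natDegree / ρ :=
        div_le_div₀ (by positivity) (hDA z) hρ hw
      have h4 : A * (1 + ‖z‖) ^ D.natDegree / ρ = A / ρ * (1 + ‖z‖) ^ D.natDegree := by ring
      nlinarith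
  have hpoly : ∀ t : ℂ, ∃ P : ℂ[X], ∀ z ∈ Rch S a x i \ {z | Pair S a x i j z (x j)},
      D.eval z ^ d * ∏ l, (1 - (t - x j) * (g z l () - x j)⁻¹) = P.eval z := fun t => by
    refine poly_of_local (E := {z | Pair S a x i j z (x j)} ∪ ((S i).Reg)ᶜ)
      (A := (A + ‖t - x j‖ * (L + A / ρ)) ^ d) (n := D.natDegree * d)
      ((h.dense_Rch i).sdiff_finite hX) (fun z => ?_) ?_ (fun z hz => ?_) fun z hz => ?_
    · filter_upwards [(S i).iso z, nhdsNE_le_cofinite z hX.compl_mem_cofinite] with w h1 h2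
      rintro (h3 | h3)
      · exact h2 h3
      · exact h3 h1
    · rintro _ ⟨⟨b, u, hu, rfl⟩, h2⟩ (h3 | h3)
      · exact h2 h3
      · exact h3 ((h.tr hu).reg i)
    · have e : D.eval z ^ d * ∏ l, (1 - (t - x j) * (g z l () - x j)⁻¹) =
          ∏ l, (D.eval z - (t - x j) * (D.eval z * (g z l () - x j)⁻¹)) := by
        rw [← Fin.prod_const d (D.eval z), ← Finset.prod_mul_distrib]
        exact Finset.prod_congr rfl fun l _ => by ring
      rw [e, norm_prod, pow_mul, ← mul_pow, ← Fin.prod_const]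
      refine Finset.prod_le_prod (fun _ _ => norm_nonneg _) fun l _ => ?_
      refine (norm_sub_le _ _).trans ?_
      rw [norm_mul (t - x j), add_mul, mul_assoc]
      exact add_le_add (hDA z)
        (mul_le_mul_of_nonneg_left (hquot z _ (hgp z hz.1 l)) (norm_nonneg _))
    · rw [mem_union, not_or, notMem_compl_iff] at hz
      have hDz : 0 < ‖D.eval z‖ := norm_pos_iff.mpr (hD z hz.1)
      set r : ℝ := min ρ (‖D.eval z‖ / 2 / L) with hr
      have hr0 : 0 < r := lt_min hρ (by positivity)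
      have hO : {z' | ‖D.eval z‖ / 2 < ‖D.eval z'‖} ∈ 𝓝 z :=
        (isOpen_lt continuous_const D.continuous.norm).mem_nhds (half_lt_self hDz)
      obtain ⟨N, hN, hzN, G, hG, hG'⟩ := ext_local h (fun _ : Unit => j) hd
        (Φ := fun w => ∏ l, (1 - (t - x j) * w l ())) (by fun_prop)
        (fun σ w => Equiv.prod_comp σ fun l => 1 - (t - x j) * w l ())
        (v := fun _ y => (y - x j)⁻¹) (V := fun _ => {x j}ᶜ) (K := fun _ => {y | r ≤ ‖y - x j‖})
        (B := r⁻¹) (fun _ => isOpen_compl_singleton)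
        (fun _ => isClosed_le continuous_const (by fun_prop))
        (fun _ y hy e => by
          rw [mem_ofPred_eq, mem_singleton_iff.mp e, sub_self, norm_zero] at hy
          exact absurd hy (not_le.mpr hr0))
        (fun _ => (differentiableOn_id.sub_const _).inv fun y hy => sub_ne_zero.mpr hy)
        (fun _ y _ y' _ e => sub_left_injective (inv_injective e))
        (fun _ y hy => by rw [norm_inv]; exact inv_anti₀ hr0 hy) hz.2 hO
        (fun z' hz' e he _ => by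
          by_contra hlt
          have h1 : ‖e () - x j‖ < r := not_le.mp hlt
          have h2 := hDL z' _ (mem_Fib_unit.mp he) (h1.trans_le (min_le_left _ _))
          have h3 := (lt_div_iff₀ hL).mp (h1.trans_le (min_le_right _ _))
          have h4 : ‖D.eval z‖ / 2 < ‖D.eval z'‖ := hz'
          linarith)
      refine ⟨N, hN, hzN, fun y => D.eval y ^ d * G y,
        (D.differentiable.differentiableOn.pow d).mul hG, fun y hy hy' => ?_⟩
      simp only [hG' y hy hy'.1 (g y) (hg1 y hy'.1) (hg2 y hy'.1)]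
  choose P hP using hpoly
  have hinj : InjOn (fun n : ℕ => (n : ℂ)) (Finset.range (d + 1) : Finset ℕ) :=
    fun m _ n _ e => Nat.cast_injective e
  refine ⟨∑ n ∈ Finset.range (d + 1), C (P n) *
      (Lagrange.basis (Finset.range (d + 1)) (fun n : ℕ => (n : ℂ)) n).map C,
    {z | Pair S a x i j z (x j)}, d, hX, hd0, ?_, fun z hz hzE => ?_⟩
  · refine natDegree_sum_le_of_forall_le _ _ fun n hn => (natDegree_C_mul_le _ _).trans
      (natDegree_map_le.trans ?_)
    rw [Lagrange.natDegree_basis hinj hn]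
    simp
  have hne : ∀ l, g z l () - x j ≠ 0 := fun l e =>
    hzE (show Pair S a x i j z (x j) from sub_eq_zero.mp e ▸ hgp z hz l)
  refine ⟨D.eval z ^ d * ∏ l, -(g z l () - x j)⁻¹, fun l => g z l (),
    mul_ne_zero (pow_ne_zero _ (hD z hzE))
      (Finset.prod_ne_zero_iff.mpr fun l _ => neg_ne_zero.mpr (inv_ne_zero (hne l))),
    fun l l' e => hg1 z hz (funext fun _ => e), ?_, ?_⟩
  · ext w
    constructor
    · rintro ⟨l, rfl⟩
      exact hgp z hz l
    · intro hw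
      have : (fun _ : Unit => w) ∈ range (g z) := hg2 z hz ▸ mem_Fib_unit.mpr hw
      obtain ⟨l, hl⟩ := this
      exact ⟨l, congrFun hl ()⟩
  symm
  have hdeg : (C (D.eval z ^ d * ∏ l, -(g z l () - x j)⁻¹) *
      ∏ l, (X - C (g z l ()))).degree < (Finset.range (d + 1)).card := by
    refine degree_le_natDegree.trans_lt ?_
    rw [Finset.card_range, Nat.cast_lt, Nat.lt_succ_iff]
    refine (natDegree_C_mul_le _ _).trans ?_
    rw [natDegree_finsetProd_X_sub_C_eq_card]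
    simp
  rw [Lagrange.eq_interpolate_of_eval_eq (r := fun n : ℕ => (P n).eval z) hinj hdeg,
    Lagrange.interpolate_apply, Polynomial.map_sum]
  · refine Finset.sum_congr rfl fun n _ => ?_
    rw [Polynomial.map_mul, map_C, Polynomial.map_map]
    have : (evalRingHom z).comp C = RingHom.id ℂ := by ext; simp
    rw [this, Polynomial.map_id]
    rfl
  · intro n _
    rw [← hP n z ⟨hz, hzE⟩, eval_mul, eval_C, eval_prod, mul_assoc, ← Finset.prod_mul_distrib]
    congr 1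
    refine Finset.prod_congr rfl fun l _ => ?_
    have := hne l
    simp only [eval_sub, eval_X, eval_C]
    field_simp
    ring

end Pool.Agent.Lib.MP_6db618_an
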