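import Mathlib
import Pool.Agent.Lib.MP_6db618_an.InfDefs

set_option autoImplicit false

namespace Pool.Agent.Lib.MP_6db618_an

open Set Filter Topology Complex Polynomial

variable {ι : Type} {S : ι → Sys} {a : ℂ} {x : ι → ℂ}

theorem Pt.finOrb_iff (h : Pt S a x) {i j : ι} : FinOrb S a x i j ↔
    {w | ∃ u, Tr S univ a a u ∧ u i (x i) = x i ∧ u j (x j) = w}.Finite := by
  refine iff_of_eq (congrArg Set.Finite (Set.ext fun w => ⟨?_, fun ⟨u, hu⟩ => ⟨a, u, hu⟩⟩))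
  rintro ⟨b, u, hu, e1, e2⟩
  obtain rfl : a = b := by rw [← ((h.tr hu).fib i).2, e1, (h.fib i).2]
  exact ⟨u, hu, e1, e2⟩

theorem Pt.finite_of_fibres (h : Pt S a x) {P : (ι → ℂ → ℂ) → Prop} {j l : ι} {F : Set ℂ}
    (hF : F.Finite) (h₁ : {y | ∃ u, Tr S univ a a u ∧ P u ∧ u j (x j) = y}.Finite)
    (h₂ : ∀ u u' v, Tr S univ a a u → P u → P u' → Tr S univ a a v →
      (∀ i, v i (u' i (x i)) = x i) → v j (u j (x j)) = x j → v l (u l (x l)) ∈ F) :
    {w | ∃ u, Tr S univ a a u ∧ P u ∧ u l (x l) = w}.Finite := by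
  have key : ∀ y ∈ {y | ∃ u, Tr S univ a a u ∧ P u ∧ u j (x j) = y}, ∃ A : Set ℂ, A.Finite ∧
      ∀ u, Tr S univ a a u → P u → u j (x j) = y → u l (x l) ∈ A := by
    rintro _ ⟨u', hu', p', rfl⟩
    obtain ⟨v, hv, e⟩ := hu'.inv
    have e' := fun i => e i _ (h.fib i).1 (h.fib i).2
    refine ⟨{w | (w ∈ (S l).Ω ∧ (S l).H w = a) ∧ v l w ∈ F}, Finite.of_injOn (f := v l)
      (fun w hw => hw.2) (fun w hw w' hw' => hv.inj l hw.1.1 hw.1.2 hw'.1.1 hw'.1.2) hF,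
      fun u hu p e1 => ⟨(h.tr hu).fib l, h₂ u u' v hu p p' hv e' (by rw [e1, e'])⟩⟩
  choose! A hA hA' using key
  refine (h₁.biUnion hA).subset ?_
  rintro _ ⟨u, hu, p, rfl⟩
  exact mem_biUnion ⟨u, hu, p, rfl⟩ (hA' _ ⟨u, hu, p, rfl⟩ u hu p rfl)

theorem FinOrb.trans (h : Pt S a x) {i j l : ι} (h₁ : FinOrb S a x i j) (h₂ : FinOrb S a x j l) :
    FinOrb S a x i l :=
  h.finOrb_iff.mpr (h.finite_of_fibres (h.finOrb_iff.mp h₂) (h.finOrb_iff.mp h₁)
    fun _ _ _ hu _ _ hv _ e => ⟨_, hu.trans hv, e, rfl⟩)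

/-- If the common stabiliser of `x i` and `x j` has a finite orbit on `x l`, so has the stabiliser
of `x i`. -/
theorem FinOrb.of_two (h : Pt S a x) {i j l : ι} (h₁ : FinOrb S a x i j)
    (h₂ : {w | ∃ u, Tr S univ a a u ∧ u i (x i) = x i ∧ u j (x j) = x j ∧ u l (x l) = w}.Finite) :
    FinOrb S a x i l :=
  h.finOrb_iff.mpr (h.finite_of_fibres h₂ (h.finOrb_iff.mp h₁)
    fun u u' v hu p p' hv e' e => ⟨_, hu.trans hv, by
      have := e' i
      rw [p'] at this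
      simp only [p, this], e, rfl⟩)

theorem Pt.neumann (h : Pt S a x) {p r s : ι} {A B : Set ℂ} (hA : A.Finite) (hB : B.Finite)
    (hyp : ∀ u, Tr S univ a a u → u p (x p) = x p → u r (x r) ∈ A ∨ u s (x s) ∈ B) :
    FinOrb S a x p r ∨ FinOrb S a x p s := by
  by_contra hno
  rw [not_or, h.finOrb_iff, h.finOrb_iff] at hno
  by_cases hc : {w | ∃ u, Tr S univ a a u ∧ u p (x p) = x p ∧ u r (x r) = x r ∧
    u s (x s) = w}.Finite
  · refine hno.2 (((h.finite_of_fibres (P := fun u => u p (x p) = x p ∧ u r (x r) ∈ A) (j := r)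
      (l := s) hc (hA.subset ?_) fun u u' v hu q q' hv e' e => ⟨_, hu.trans hv, ?_, e, rfl⟩).union
        hB).subset ?_)
    · rintro _ ⟨u, -, q, rfl⟩
      exact q.2
    · have := e' p
      rw [q'.1] at this
      simp only [q.1, this]
    · rintro _ ⟨u, hu, q, rfl⟩
      exact (hyp u hu q).imp_left fun k => ⟨u, hu, ⟨q, k⟩, rfl⟩
  · obtain ⟨_, ⟨v, hv, q, rfl⟩, k⟩ := (Set.Infinite.sdiff hno.1 hA).nonempty
    refine hc (Finite.of_injOn (f := v s) ?_ ?_ hB)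
    · rintro _ ⟨u, hu, q1, q2, rfl⟩
      exact (hyp _ (hu.trans hv) (by simp only [q1, q])).resolve_left (by simpa only [q2] using k)
    · rintro _ ⟨u, hu, -, -, rfl⟩ _ ⟨u', hu', -, -, rfl⟩
      exact hv.inj s ((h.tr hu).fib s).1 ((h.tr hu).fib s).2 ((h.tr hu').fib s).1
        ((h.tr hu').fib s).2

theorem Sys.not_frequently_eq (T : Sys) {z : ℂ} (hz : z ∈ T.Ω) (c : ℂ) :
    ∀ᶠ w in 𝓝[≠] z, T.H w ≠ c := by
  refine ((T.analyticAt hz).eventually_eq_or_eventually_ne analyticAt_const).resolve_left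
    fun h => ?_
  obtain ⟨w, h1, h2⟩ := ((T.iso z).and
    (mem_nhdsWithin_of_mem_nhds h.eventually_nhds)).exists
  exact h1.2 (by rw [EventuallyEq.deriv_eq h2, deriv_const])

theorem exists_nbh [Finite ι] (S : ι → Sys) (h0 : ∀ i, 0 ∈ (S i).Ω) (h1 : ∀ i, (S i).H 0 = 0)
    (hc : ∀ i r, 0 < r → (∀ z, ‖z‖ = r → z ∈ (S i).Ω ∧ ‖(S i).H z‖ ≤ 1 / 10) →
      Metric.closedBall 0 r ⊆ (S i).Ω) : ∃ η δ C k N, Nbh S η δ C k N := by
  have := Fintype.ofFinite ι
  have key : ∀ i, ∃ (k : ℕ) (C : ℝ), 0 ≤ C ∧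
      ∀ᶠ w in 𝓝 (0 : ℂ), ‖w‖ ^ k ≤ C * ‖(S i).H w‖ := fun i => by
    obtain ⟨k, g, hg, g0, e⟩ :=
      ((S i).analyticAt (h0 i)).exists_eventuallyEq_pow_smul_nonzero_iff.mpr fun h => by
        obtain ⟨w, h2, h3⟩ := (((S i).not_frequently_eq (h0 i) 0).and
          (mem_nhdsWithin_of_mem_nhds h)).exists
        exact h2 h3
    have g1 := norm_pos_iff.mpr g0
    refine ⟨k, 2 / ‖g 0‖, by positivity, ?_⟩
    filter_upwards [e, hg.continuousAt.norm.eventually_const_lt (half_lt_self g1)] with w h2 h3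
    rw [h2, sub_zero, norm_smul, norm_pow, div_mul_eq_mul_div, le_div_iff₀ g1]
    nlinarith [pow_nonneg (norm_nonneg w) k]
  choose k C hC hk using key
  set K := ∑ i, k i + 1 with hK
  set D := ∑ i, C i + 1 with hD
  have hD0 : 0 < D := by
    have := Finset.sum_nonneg fun i (_ : i ∈ Finset.univ) => hC i
    positivity
  obtain ⟨r, hr, hb⟩ := Metric.nhds_basis_closedBall.eventually_iff.mp
    (eventually_all.mpr fun i => show ∀ᶠ w in 𝓝 (0 : ℂ), w ∈ (S i).Ω ∧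
        ‖w‖ ^ K ≤ D * ‖(S i).H w‖ by
      filter_upwards [(S i).isOpen.mem_nhds (h0 i), hk i, Metric.ball_mem_nhds (0 : ℂ) one_pos]
        with w h2 h3 h4
      refine ⟨h2, (pow_le_pow_of_le_one (norm_nonneg w) (mem_ball_zero_iff.mp h4).le ?_).trans
        (h3.trans (mul_le_mul_of_nonneg_right ?_ (norm_nonneg _)))⟩
      · exact (Finset.single_le_sum (f := k) (fun _ _ => Nat.zero_le _)
          (Finset.mem_univ i)).trans (Nat.le_succ _)
      · exact (Finset.single_le_sum (f := C) (fun j _ => hC j) (Finset.mem_univ i)).trans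
          (le_add_of_nonneg_right zero_le_one))
  set η := min (1 / 10) (r ^ K / (2 * D)) with hη
  have hη0 : 0 < η := by positivity
  obtain ⟨δ, hδ, hb'⟩ := Metric.nhds_basis_ball.eventually_iff.mp
    (eventually_all.mpr fun i => show ∀ᶠ w in 𝓝 (0 : ℂ), ‖w‖ < r ∧ (S i).H w ∈ Sq 0 η from
      (continuous_norm.continuousAt.eventually_lt_const (by simpa using hr)).and
        (((S i).continuousAt (h0 i)).preimage_mem_nhds
          ((isOpen_Sq 0 η).mem_nhds (by rw [h1]; exact mem_Sq_self 0 hη0))))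
  refine ⟨η, δ, D, K, fun i => {w | ‖w‖ < r ∧ (S i).H w ∈ Sq 0 η}, hη0, min_le_left _ _, hδ, hD0,
    Nat.succ_ne_zero _, h1, fun i w hw => hb' hw i,
    fun i w hw => (hb (mem_closedBall_zero_iff.mpr hw.1.le) i).2, ?_, fun i b => ?_, hc⟩
  · intro i b hb1 c hc1 z w hl hz
    refine ⟨?_, hl.fib.2.symm ▸ hc1⟩
    obtain ⟨γ, g1, rfl, rfl, g4⟩ := hl
    by_contra hno
    obtain ⟨s, hs, e⟩ := intermediate_value_Icc zero_le_one g1.norm ⟨hz.1.le, not_lt.mp hno⟩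
    have h2 := (hb (mem_closedBall_zero_iff.mpr e.le) i).2
    have h3 : b + s * (c - b) ∈ Sq 0 η := by
      simpa using (convex_Sq 0 η).add_smul_sub_mem hb1 hc1 hs
    have h4 := mem_ball_zero_iff.mp (Sq_subset_ball 0 η h3)
    have h5 : η ≤ r ^ K / (2 * D) := min_le_right _ _
    rw [le_div_iff₀ (by positivity)] at h5
    rw [(g4 s hs).2, show ‖γ s‖ = r from e] at h2
    nlinarith
  · have hcl : IsClosed (Metric.closedBall (0 : ℂ) r ∩ (S i).H ⁻¹' {b}) :=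
      ((S i).diff.continuousOn.mono fun w hw => (hb hw i).1).preimage_isClosed_of_isClosed
        Metric.isClosed_closedBall isClosed_singleton
    refine (((isCompact_closedBall (0 : ℂ) r).of_isClosed_subset hcl inter_subset_left).finite
      ?_).subset fun w hw => ⟨mem_closedBall_zero_iff.mpr hw.1.1.le, hw.2.2⟩
    rw [isDiscrete_iff_nhdsNE]
    intro z hz
    rw [Filter.inf_principal_eq_bot]
    exact ((S i).not_frequently_eq (hb hz.1 i).1 b).mono fun w hw h => hw h.2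

namespace Nbh

variable {η δ C : ℝ} {k : ℕ} {N : ι → Set ℂ} (B : Nbh S η δ C k N)
include B

theorem le_of_notMem {i : ι} {z : ℂ} (h : z ∉ N i) : δ ≤ ‖z‖ :=
  not_lt.mp fun h1 => h (B.ball i (mem_ball_zero_iff.mpr h1))

theorem mem_of_Tr {b : ℂ} {u : ι → ℂ → ℂ} (h : Tr S (Sq 0 η) a b u) {i : ι} {z : ℂ}
    (hz : z ∈ (S i).Ω ∧ (S i).H z = a) (hN : z ∈ N i) : u i z ∈ N i := by
  induction h with
  | refl => exact hN
  | step h hb hc hl ih =>
    exact B.stay i _ hb _ hc _ _ (hl.lift i (h.fib i hz.1 hz.2).1 (h.fib i hz.1 hz.2).2) ih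

theorem mem_iff {b : ℂ} {u : ι → ℂ → ℂ} (h : Tr S (Sq 0 η) a b u) {i : ι} {z : ℂ}
    (hz : z ∈ (S i).Ω ∧ (S i).H z = a) : u i z ∈ N i ↔ z ∈ N i := by
  refine ⟨fun h1 => ?_, B.mem_of_Tr h hz⟩
  obtain ⟨v, hv, h2⟩ := h.inv
  rw [← h2 i z hz.1 hz.2]
  exact B.mem_of_Tr hv (h.fib i hz.1 hz.2) h1

variable [Countable ι]

theorem exists_small (ha : a ∈ Sq 0 η) (hl : Line S a a) {ρ : ℝ} (hρ : 0 < ρ) :
    ∃ b u, ‖b‖ < ρ ∧ Tr S (Sq 0 η) a b u := by
  obtain ⟨b, hb1, hb2⟩ := (dense_Grid S).inter_open_nonempty _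
    ((isOpen_Sq 0 η).inter (Metric.isOpen_ball (x := 0) (ε := ρ)))
    ⟨0, mem_Sq_self 0 B.η_pos, Metric.mem_ball_self hρ⟩
  obtain ⟨u, hu⟩ := exists_Tr_Grid ha hb1.1 hl hb2
  exact ⟨b, u, mem_ball_zero_iff.mp hb1.2, hu⟩

theorem one_base (ha : a ∈ Sq 0 η) (hl : Line S a a)
    (hx : ∀ i, x i ∈ (S i).Ω ∧ (S i).H (x i) = a) {p q r s : ι}
    (h : ∀ b u, Tr S (Sq 0 η) a b u → u p (x p) * u q (x q) = u r (x r) * u s (x s))
    (hp : x p ∈ N p) : x r ∈ N r ∨ x s ∈ N s := by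
  by_contra hno
  rw [not_or] at hno
  have hC := B.C_pos
  have hδ := B.δ_pos
  have hη := B.η_pos
  have hU := isOpen_closure_Reach (S := S) (isOpen_Sq 0 η) (hx q).1 ((hx q).2.symm ▸ hl)
  set R := Reach S (Sq 0 η) q (x q)
  set W := {z | z ∈ (S q).Ω ∧ (S q).H z ∈ Sq 0 η}
  have hR : ∀ y ∈ R, (δ * δ) ^ k / C ≤ ‖y‖ ^ k * ‖(S q).H y‖ := by
    rintro _ ⟨b, u, hu, rfl⟩
    rw [(hx q).2] at hu
    have e := congrArg norm (h b u hu)
    rw [norm_mul, norm_mul] at e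
    have f := fun i => (hu.fib i (hx i).1 (hx i).2).2
    have h1 := B.le p _ ((B.mem_iff hu (hx p)).mpr hp)
    have h2 := B.le_of_notMem (mt (B.mem_iff hu (hx r)).mp hno.1)
    have h3 := B.le_of_notMem (mt (B.mem_iff hu (hx s)).mp hno.2)
    rw [f] at h1
    rw [f, div_le_iff₀ hC]
    have h4 := pow_le_pow_left₀ (by positivity) (mul_le_mul h2 h3 hδ.le (norm_nonneg _)) k
    rw [← e, mul_pow ‖u p (x p)‖] at h4
    nlinarith [mul_le_mul_of_nonneg_right h1 (pow_nonneg (norm_nonneg (u q (x q))) k)]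
  have hlow : ∀ y ∈ closure R ∩ W, (δ * δ) ^ k / C ≤ ‖y‖ ^ k * ‖(S q).H y‖ := fun y hy =>
    ContinuousWithinAt.closure_le hy.1 continuousWithinAt_const
      ((continuousAt_id.norm.pow k).mul ((S q).continuousAt hy.2.1).norm).continuousWithinAt hR
  have key := carleman hU ((S q).diff.mono fun z hz => hz.2.1) (half_pos hη) (by positivity)
    B.k_ne hlow (fun z hz => ?_) (fun r hr => ?_)
  · obtain ⟨b, u, hb, hu⟩ := B.exists_small ha hl (half_pos hη)
    have f := hu.fib q (hx q).1 (hx q).2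
    have := key (u q (x q)) ⟨subset_closure ⟨b, u, (hx q).2.symm ▸ hu, rfl⟩, f.1,
      f.2.symm ▸ hu.mem ha⟩
    rw [f.2] at this
    linarith
  · by_cases h1 : z ∈ closure R
    · by_cases h2 : z ∈ (S q).Ω
      · have h3 : η ≤ ‖(S q).H z‖ := not_lt.mp fun h3 =>
          hz ⟨h1, h2, ball_subset_Sq 0 η (mem_ball_zero_iff.mpr h3)⟩
        exact (((S q).continuousAt h2).norm.eventually_const_le
          (by linarith : η / 2 < _)).mono fun w hw _ => hw
      · filter_upwards [eventually_nhdsWithin_iff.mp (((S q).blow z h2).eventually_ge_atTop (η / 2))]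
          with w hw hwU
        exact hw fun h3 => hz ((show w = z from h3) ▸ hwU)
    · filter_upwards [isClosed_closure.isOpen_compl.mem_nhds h1] with w hw hwU
      exact absurd hwU.1 hw
  · by_contra hno'
    push Not at hno'
    have hΩ := B.circ q r hr fun z hz => ⟨(hno' z hz).1.2.1, by linarith [(hno' z hz).2, B.η_le]⟩
    have hW : Metric.closedBall (0 : ℂ) r ⊆ W := fun z hz => ⟨hΩ hz, ball_subset_Sq 0 η
      (mem_ball_zero_iff.mpr (lt_of_le_of_lt (norm_le_of_forall_mem_frontier_norm_le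
        (U := Metric.ball 0 r) Metric.isBounded_ball (DifferentiableOn.diffContOnCl
          ((S q).diff.mono (by rwa [closure_ball _ hr.ne']))) (fun w hw => (hno' w (by
            simpa [frontier_ball _ hr.ne'] using hw)).2.le)
        (by rwa [closure_ball _ hr.ne'])) (half_lt_self hη)))⟩
    have h0 := Metric.isPreconnected_closedBall.subset_of_closure_inter_subset hU
      ⟨(r : ℂ), by simp [abs_of_pos hr], (hno' r (by simp [hr.le])).1⟩
      (fun z hz => ⟨closure_minimal inter_subset_left isClosed_closure hz.1, hW hz.2⟩)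
      (Metric.mem_closedBall_self hr.le)
    have := hlow 0 h0
    rw [norm_zero, zero_pow B.k_ne, zero_mul] at this
    exact absurd this (not_le.mpr (by positivity))

theorem out (h : Pt S a x) (ha : a ∈ Sq 0 η) (hN : ∀ i, x i ∈ N i) {p q r s : ι}
    (hR : ∀ b u, Tr S univ a b u → u p (x p) * u q (x q) = u r (x r) * u s (x s)) :
    FinOrb S a x p r ∨ FinOrb S a x p s :=
  h.neumann (B.fin r a) (B.fin s a) fun u hu e =>
    (B.one_base (x := fun i => u i (x i)) ha h.line (h.tr hu).fib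
      (fun b _ hv => hR b _ (hu.trans (hv.mono (subset_univ _)))) (e.symm ▸ hN p)).imp
      (fun k => ⟨k, (h.tr hu).fib r⟩) fun k => ⟨k, (h.tr hu).fib s⟩

end Nbh

theorem Nbh.small [Fintype ι] {η δ C : ℝ} {k : ℕ} {N : ι → Set ℂ} (B : Nbh S η δ C k N)
    (h : Pt S a x) (ha : a ∈ Sq 0 η) (hN : ∀ i, x i ∈ N i) {ε : ℝ} (hε : 0 < ε) :
    ∃ b u, Tr S univ a b u ∧ ∀ i, ‖u i (x i)‖ < ε := by
  have hC := B.C_pos
  obtain ⟨b, u, hb, hu⟩ := B.exists_small ha h.line (ρ := ε ^ k / C) (by positivity)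
  refine ⟨b, u, hu.mono (subset_univ _), fun i => lt_of_pow_lt_pow_left₀ k hε.le ?_⟩
  have h1 := B.le i _ (B.mem_of_Tr hu (h.fib i) (hN i))
  rw [((h.tr hu).fib i).2] at h1
  exact h1.trans_lt ((lt_div_iff₀' hC).mp hb)

theorem Pt.third (h : Pt S a x) (hne : ∀ u, Tr S univ a a u → ∀ i, u i (x i) ≠ 0) {p q r s : ι}
    (hR : ∀ b u, Tr S univ a b u → u p (x p) * u q (x q) = u r (x r) * u s (x s)) :
    (FinOrb S a x p r → FinOrb S a x p s → FinOrb S a x p q) ∧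
      (FinOrb S a x p q → FinOrb S a x p r → FinOrb S a x p s) := by
  simp only [h.finOrb_iff]
  refine ⟨fun h1 h2 => (h1.image2 (fun y z => y * z / x p) h2).subset ?_,
    fun h1 h2 => (h1.image2 (fun y z => x p * y / z) h2).subset ?_⟩
  · rintro _ ⟨u, hu, e, rfl⟩
    refine ⟨_, ⟨u, hu, e, rfl⟩, _, ⟨u, hu, e, rfl⟩, ?_⟩
    beta_reduce
    rw [← hR a u hu, e, mul_div_cancel_left₀ _ (hne _ Tr.refl p)]
  · rintro _ ⟨u, hu, e, rfl⟩
    refine ⟨_, ⟨u, hu, e, rfl⟩, _, ⟨u, hu, e, rfl⟩, ?_⟩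
    beta_reduce
    rw [← e, hR a u hu, mul_div_cancel_left₀ _ (hne u hu r)]

theorem Nbh.finOrb_cases {S : Fin 4 → Sys} {x : Fin 4 → ℂ} {η δ C : ℝ} {k : ℕ}
    {N : Fin 4 → Set ℂ} (B : Nbh S η δ C k N) (h : Pt S a x) (ha : a ∈ Sq 0 η)
    (hN : ∀ i, x i ∈ N i)
    (hR : ∀ b u, Tr S univ a b u → u 0 (x 0) * u 1 (x 1) = u 2 (x 2) * u 3 (x 3)) :
    (FinOrb S a x 0 2 ∧ FinOrb S a x 2 0 ∧ FinOrb S a x 1 3 ∧ FinOrb S a x 3 1) ∨
      (FinOrb S a x 0 3 ∧ FinOrb S a x 3 0 ∧ FinOrb S a x 1 2 ∧ FinOrb S a x 2 1) := by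
  have hne : ∀ u, Tr S univ a a u → ∀ i, u i (x i) ≠ 0 := fun u hu i h0 =>
    h.line.ne_zero (by rw [← ((h.tr hu).fib i).2, h0, B.zero])
  have r1 := fun b u hu => (mul_comm _ _).trans (hR b u hu)
  have r2 := fun b u hu => (hR b u hu).symm
  have r3 := fun b u hu => (mul_comm _ _).trans (r2 b u hu)
  have o0 := B.out h ha hN hR
  have o1 := B.out h ha hN r1
  have o2 := B.out h ha hN r2
  have o3 := B.out h ha hN r3
  have t0 := (h.third hne hR).2
  have t0' := (h.third hne fun b u hu => (hR b u hu).trans (mul_comm _ _)).2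
  have t1 := (h.third hne r1).2
  have t1' := (h.third hne fun b u hu => (r1 b u hu).trans (mul_comm _ _)).2
  have t2 := (h.third hne r2).2
  have t2' := (h.third hne fun b u hu => (r2 b u hu).trans (mul_comm _ _)).2
  have t3 := (h.third hne r3).2
  have t3' := (h.third hne fun b u hu => (r3 b u hu).trans (mul_comm _ _)).2
  have tr : ∀ i j l, FinOrb S a x i j → FinOrb S a x j l → FinOrb S a x i l :=
    fun _ _ _ => FinOrb.trans h
  generalize FinOrb S a x = F at *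
  grind

end Pool.Agent.Lib.MP_6db618_an
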