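import Mathlib
import Pool.Agent.Lib.MP_6db618_an.InfNeu
import Pool.Agent.Lib.MP_6db618_an.InfAlg
import Pool.Agent.Lib.MP_6db618_an.EssSwap

set_option autoImplicit false

namespace Pool.Agent.Lib.MP_6db618_an

open Set Filter Topology Complex Polynomial

theorem exists_corr {ι : Type} [Fintype ι] {S : ι → Sys} {a : ℂ} {x : ι → ℂ} (h : Pt S a x)
    {i j : ι} (h₁ : FinOrb S a x i j) (h₂ : FinOrb S a x j i) :
    ∃ R : ℂ[X][X], Corr (S i) (S j) R ∧ ∀ z w, Pair S a x i j z w → R.evalEval z w = 0 := by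
  obtain ⟨R, E, d, hE, hd, hR, hz⟩ := exists_alg h h₁ h₂
  exact corr_of_alg h hE hd hR hz

/-- Polynomial growth on a family of tuples. -/
def PBd (F : ℂ → Set (Fin 4 → ℂ)) (G : (Fin 4 → ℂ) → ℂ) : Prop :=
  ∃ (A : ℝ) (n : ℕ), 0 ≤ A ∧ ∀ z, ∀ e ∈ F z, ‖G e‖ ≤ A * (1 + ‖z‖) ^ n

section PBd

variable {F : ℂ → Set (Fin 4 → ℂ)} {G G' : (Fin 4 → ℂ) → ℂ}

theorem PBd.const (c : ℂ) : PBd F fun _ => c := ⟨‖c‖, 0, norm_nonneg _, fun _ _ _ => by simp⟩

theorem PBd.mul (h : PBd F G) (h' : PBd F G') : PBd F fun e => G e * G' e := by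
  obtain ⟨A, n, hA, h⟩ := h
  obtain ⟨A', n', hA', h'⟩ := h'
  refine ⟨A * A', n + n', mul_nonneg hA hA', fun z e he => ?_⟩
  rw [norm_mul, pow_add, mul_mul_mul_comm]
  exact mul_le_mul (h z e he) (h' z e he) (norm_nonneg _) (by positivity)

theorem PBd.add (h : PBd F G) (h' : PBd F G') : PBd F fun e => G e + G' e := by
  obtain ⟨A, n, hA, h⟩ := h
  obtain ⟨A', n', hA', h'⟩ := h'
  refine ⟨A + A', n + n', add_nonneg hA hA', fun z e he => ?_⟩
  have h1 : 1 ≤ 1 + ‖z‖ := le_add_of_nonneg_right (norm_nonneg z)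
  rw [add_mul]
  refine (norm_add_le _ _).trans (add_le_add ((h z e he).trans ?_) ((h' z e he).trans ?_))
  · exact mul_le_mul_of_nonneg_left (pow_le_pow_right₀ h1 (Nat.le_add_right _ _)) hA
  · exact mul_le_mul_of_nonneg_left (pow_le_pow_right₀ h1 (Nat.le_add_left _ _)) hA'

theorem PBd.sub (h : PBd F G) (h' : PBd F G') : PBd F fun e => G e - G' e := by
  simpa only [neg_one_mul, ← sub_eq_add_neg] using h.add ((PBd.const (-1)).mul h')

theorem PBd.pow (h : PBd F G) (n : ℕ) : PBd F fun e => G e ^ n := by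
  induction n with
  | zero => simpa only [pow_zero] using PBd.const 1
  | succ n ih => simpa only [pow_succ] using ih.mul h

theorem PBd.prod (h : PBd F G) (s : Finset ℂ) : PBd F fun e => ∏ c ∈ s, (G e - c) := by
  classical
  induction s using Finset.induction_on with
  | empty => simpa only [Finset.prod_empty] using PBd.const 1
  | insert c s hc ih => simpa only [Finset.prod_insert hc] using (h.sub (PBd.const c)).mul ih

end PBd

theorem poly_eq_zero {R : Set ℂ} (hR : Dense R) {P : ℂ[X]}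
    (h : ∀ ε : ℝ, 0 < ε → ∃ ρ : ℝ, ∀ z ∈ R, ρ < ‖z‖ → ‖P.eval z‖ ≤ ε) : P = 0 := by
  have hex : ∀ ρ : ℝ, ∃ z ∈ R, ρ < ‖z‖ := fun ρ => by
    obtain ⟨z, h1, h2⟩ := hR.inter_open_nonempty {z | ρ < ‖z‖}
      (isOpen_lt continuous_const continuous_norm) (NormedSpace.exists_lt_norm ℂ ℂ ρ)
    exact ⟨z, h2, h1⟩
  by_cases hd : 0 < P.degree
  · obtain ⟨ρ, hρ⟩ := h 1 one_pos
    have h1 := (P.tendsto_norm_atTop hd (z := id) (l := Bornology.cobounded ℂ)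
      tendsto_norm_cobounded_atTop).eventually_gt_atTop 1
    obtain ⟨r, -, hr⟩ := (hasBasis_cobounded_norm).eventually_iff.mp h1
    obtain ⟨z, h2, h3⟩ := hex (max ρ r)
    exact absurd (hρ z h2 ((le_max_left _ _).trans_lt h3))
      (not_le.mpr (hr ((le_max_right _ _).trans h3.le)))
  · rw [eq_C_of_degree_le_zero (not_lt.mp hd)] at h ⊢
    rw [C_eq_zero, ← norm_le_zero_iff]
    refine le_of_forall_pos_le_add fun ε hε => ?_
    obtain ⟨ρ, hρ⟩ := h ε hε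
    obtain ⟨z, h2, h3⟩ := hex ρ
    simpa using hρ z h2 h3

variable {S : Fin 4 → Sys} {a : ℂ} {x : Fin 4 → ℂ}

theorem sw_const (h : Pt S a x) (hfin : ∀ j, FinOrb S a x 0 j) {R : Fin 4 → ℂ[X][X]}
    (hm : ∀ j, (R j).Monic) (hR : ∀ j z w, Pair S a x 0 j z w → (R j).evalEval z w = 0)
    {G : (Fin 4 → ℂ) → ℂ} (hG₁ : ContDiff ℂ 1 G)
    (hG₂ : (∀ j, PBd (Fib S a x 0 id) fun e => e j) → PBd (Fib S a x 0 id) G) {κ : ℂ}
    (hl : ∀ ε : ℝ, 0 < ε → ∃ ρ : ℝ, ∀ z, ρ < ‖z‖ → ∀ e ∈ Fib S a x 0 id z, ‖G e - κ‖ < ε)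
    {z₀ : ℂ} {e₀ : Fin 4 → ℂ} (he₀ : e₀ ∈ Fib S a x 0 id z₀) : G e₀ = κ := by
  classical
  obtain ⟨d, -, hd⟩ := exists_enum h (i := 0) id hfin
  choose! g hg hg' using id hd
  have hz₀ : z₀ ∈ Rch S a x 0 := by
    obtain ⟨b, u, hu, e, -⟩ := he₀
    exact ⟨b, u, hu, e⟩
  have hco : ∀ j, PBd (Fib S a x 0 id) fun e => e j := fun j => by
    obtain ⟨A, k, hA⟩ := root_bound (hm j)
    refine ⟨|A|, k, abs_nonneg A, ?_⟩
    rintro z _ ⟨b, u, hu, e, rfl⟩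
    exact (hA z _ (hR j z _ ⟨b, u, hu, e, rfl⟩)).trans
      (mul_le_mul_of_nonneg_right (le_abs_self A) (by positivity))
  set s₀ := (Finset.univ.image fun l => G (g z₀ l)).erase (G e₀) with hs₀
  let q : ℂ → ℂ := fun T => (T - κ) * ∏ c ∈ s₀, (T - c)
  have hS := hG₂ hco
  obtain ⟨A, k, hA, hq⟩ : PBd (Fib S a x 0 id) fun e => q (G e) :=
    (hS.sub (PBd.const κ)).mul (hS.prod s₀)
  have hmem : ∀ z ∈ Rch S a x 0, ∀ l, g z l ∈ Fib S a x 0 id z := fun z hz l =>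
    hg' z hz ▸ mem_range_self l
  obtain ⟨P, hP⟩ := poly_of_local (h.dense_Rch 0) (E := (S 0).Regᶜ)
    (f := fun z => ∑ l, q (G (g z l))) (A := d * A) (n := k)
    (fun z => ((S 0).iso z).mono fun w hw => not_not.mpr hw)
    (by
      rintro _ ⟨b, u, hu, rfl⟩
      exact not_not.mpr ((h.tr hu).reg 0))
    (fun z hz => (norm_sum_le _ _).trans ((Finset.sum_le_card_nsmul _ _ _ fun l _ =>
      hq z _ (hmem z hz l)).trans (by simp [mul_assoc])))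
    (fun z hz => by
      choose A' k' hA' hb using hco
      obtain ⟨N, hN, hzN, G', hG, hG'⟩ := ext_local h id hd
        (Φ := fun w => ∑ l, q (G (w l))) (by
          simp only [q]
          fun_prop) (fun σ w => Equiv.sum_comp σ fun l => q (G (w l)))
        (v := fun _ y => y) (V := fun _ => univ)
        (K := fun j => Metric.closedBall 0 (A' j * (1 + (‖z‖ + 1)) ^ k' j))
        (B := ∑ j, A' j * (1 + (‖z‖ + 1)) ^ k' j) (fun _ => isOpen_univ)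
        (fun _ => Metric.isClosed_closedBall) (fun _ => subset_univ _)
        (fun _ => differentiableOn_id) (fun _ => injOn_id _)
        (fun j y hy => (mem_closedBall_zero_iff.mp hy).trans (Finset.single_le_sum
          (f := fun j => A' j * (1 + (‖z‖ + 1)) ^ k' j)
          (fun j _ => mul_nonneg (hA' j) (by positivity)) (Finset.mem_univ j)))
        (not_not.mp hz) (Metric.ball_mem_nhds z one_pos) (fun z' hz' e he j => by
          refine mem_closedBall_zero_iff.mpr ((hb j z' e he).trans ?_)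
          have := norm_lt_of_mem_ball hz'
          have := hA' j
          gcongr)
      exact ⟨N, hN, hzN, G', hG, fun z' h1 h2 => hG' z' h1 h2 _ (hg z' h2) (hg' z' h2)⟩)
  have hP0 : P = 0 := poly_eq_zero (h.dense_Rch 0) fun ε hε => by
    have hc : ContinuousAt q κ := by fun_prop
    obtain ⟨r, hr, h1⟩ := Metric.continuousAt_iff.mp hc (ε / (d + 1)) (by positivity)
    obtain ⟨ρ, hρ⟩ := hl r hr
    refine ⟨ρ, fun z hz hz' => ?_⟩
    rw [← hP z hz]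
    refine (norm_sum_le _ _).trans ((Finset.sum_le_card_nsmul _ _ (ε / (d + 1)) fun l _ => ?_).trans ?_)
    · have := h1 (x := G (g z l)) (by rw [dist_eq_norm]; exact hρ z hz' _ (hmem z hz l))
      simpa [q] using this.le
    · simp only [Finset.card_univ, Fintype.card_fin, nsmul_eq_mul]
      rw [← mul_div_assoc, div_le_iff₀ (by positivity)]
      nlinarith
  have h1 := hP z₀ hz₀
  have h0 : ∑ l with ¬ G (g z₀ l) = G e₀, q (G (g z₀ l)) = 0 :=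
    Finset.sum_eq_zero fun l hl => mul_eq_zero_of_right _ (Finset.prod_eq_zero
      (i := G (g z₀ l)) (Finset.mem_erase.mpr ⟨(Finset.mem_filter.mp hl).2,
        Finset.mem_image_of_mem _ (Finset.mem_univ l)⟩) (sub_self _))
  rw [hP0, eval_zero, ← Finset.sum_filter_add_sum_filter_not _
    (fun l => G (g z₀ l) = G e₀), h0, add_zero,
    Finset.sum_congr rfl fun l hl => congrArg q (Finset.mem_filter.mp hl).2, Finset.sum_const,
    nsmul_eq_mul, mul_eq_zero, Nat.cast_eq_zero, Finset.card_eq_zero] at h1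
  obtain ⟨l, hl'⟩ : e₀ ∈ range (g z₀) := hg' z₀ hz₀ ▸ he₀
  have h2 := h1.resolve_left (Finset.ne_empty_of_mem (a := l)
    (Finset.mem_filter.mpr ⟨Finset.mem_univ l, by rw [hl']⟩))
  exact sub_eq_zero.mp ((mul_eq_zero.mp h2).resolve_right (Finset.prod_ne_zero_iff.mpr
    fun c hc => sub_ne_zero.mpr (Finset.mem_erase.mp hc).1.symm))

theorem sw_algebra {η e : Fin 4 → ℂ} {n : ℕ} (hη : η ≠ 0) (he : ∀ i, e i ≠ 0)
    (h1 : e 0 * e 1 = e 2 * e 3) (h2 : η 0 * η 1 = η 2 * η 3) (h3 : Sw η n e = 0) :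
    ∃ i j, (η i ≠ 0 ∨ η j ≠ 0) ∧ (η j * (e 2 / e 0) ^ n = η i ∨ η j * (e 3 / e 0) ^ n = η i) := by
  have h4 : e 0 ^ n * e 1 ^ n = e 2 ^ n * e 3 ^ n := by rw [← mul_pow, h1, mul_pow]
  have p := fun i => pow_ne_zero n (he i)
  simp only [div_pow, ← mul_div_assoc, div_eq_iff (p 0)]
  rw [Sw] at h3
  have hz : η 0 = 0 → η 1 = 0 → η 2 = 0 → η 3 = 0 → False := fun a0 a1 a2 a3 =>
    hη (funext fun i => by fin_cases i <;> assumption)
  by_cases a1 : η 1 = 0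
  · rcases mul_eq_zero.mp (show η 2 * η 3 = 0 by rw [← h2, a1, mul_zero]) with a2 | a3
    · refine ⟨3, 0, by_contra fun k => ?_, Or.inr (mul_left_cancel₀ (p 2) ?_)⟩
      · push Not at k
        exact hz k.2 a1 a2 k.1
      · rw [a1, a2] at h3
        linear_combination e 0 ^ n * h3 - η 0 * h4
    · refine ⟨2, 0, by_contra fun k => ?_, Or.inl (mul_left_cancel₀ (p 3) ?_)⟩
      · push Not at k
        exact hz k.2 a1 k.1 a3
      · rw [a1, a3] at h3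
        linear_combination e 0 ^ n * h3 - η 0 * h4
  · rcases mul_eq_zero.mp (show (η 3 * e 2 ^ n - η 1 * e 0 ^ n) * (η 2 * e 3 ^ n - η 1 * e 0 ^ n) = 0
      by linear_combination η 1 * e 0 ^ n * h3 - η 0 * η 1 * h4 - e 2 ^ n * e 3 ^ n * h2) with k | k
    · exact ⟨1, 3, Or.inl a1, Or.inl (sub_eq_zero.mp k)⟩
    · exact ⟨1, 2, Or.inl a1, Or.inr (sub_eq_zero.mp k)⟩

theorem finOrb_all (h : Pt S a x) (hne : ∀ i, x i ≠ 0) {r s : Fin 4}
    (hR : ∀ b u, Tr S univ a b u → u 0 (x 0) * u 1 (x 1) = u r (x r) * u s (x s))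
    (h1 : FinOrb S a x 0 r) (h2 : FinOrb S a x r 0) (h3 : FinOrb S a x 1 s)
    (h4 : FinOrb S a x s 1) : Lin (S 0) (S r) ∨ Lin (S 1) (S s) ∨
      (FinOrb S a x 0 1 ∧ FinOrb S a x 1 0 ∧ FinOrb S a x 0 s ∧ FinOrb S a x s 0) := by
  obtain ⟨R, c, hc⟩ := exists_corr h h1 h2
  obtain ⟨R', c', hc'⟩ := exists_corr h h3 h4
  refine (c.lin_or_finite (div_ne_zero (hne 1) (hne s))).imp_right fun f1 =>
    (c'.lin_or_finite (div_ne_zero (hne 0) (hne r))).imp_right fun f2 => ?_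
  have k1 : FinOrb S a x 0 1 := h1.of_two h (f2.subset ?_)
  · have k2 : FinOrb S a x 1 0 := h3.of_two h (f1.subset ?_)
    · exact ⟨k1, k2, k1.trans h h3, h4.trans h k2⟩
    · rintro _ ⟨u, hu, e1, e2, rfl⟩
      refine hc _ _ ⟨a, u, hu, rfl, ?_⟩
      have := hR a u hu
      rw [e1, e2] at this
      rw [div_mul_eq_mul_div, eq_div_iff (hne s), ← this, mul_comm]
  · rintro _ ⟨u, hu, e1, e2, rfl⟩
    refine hc' _ _ ⟨a, u, hu, rfl, ?_⟩
    have := hR a u hu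
    rw [e1, e2] at this
    rw [div_mul_eq_mul_div, eq_div_iff (hne r), this, mul_comm]

theorem main_core (hmon : ∀ j R, Corr (S 0) (S j) R → ∃ R' : ℂ[X][X], R'.Monic ∧
      Corr (S 0) (S j) R' ∧ ∀ z w, R.evalEval z w = 0 → R'.evalEval z w = 0)
    (hsw : ∀ R : Fin 4 → ℂ[X][X], (∀ j, (R j).Monic ∧ Corr (S 0) (S j) (R j)) →
      (∀ ρ : ℝ, ∃ e : Fin 4 → ℂ, ρ < ‖e 0‖ ∧ Quad R e) → Lin (S 0) (S 2) ∨ SwLim R)
    {η δ C : ℝ} {k : ℕ} {N : Fin 4 → Set ℂ} (B : Nbh S η δ C k N) (h : Pt S a x)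
    (ha : a ∈ Sq 0 η) (hN : ∀ i, x i ∈ N i)
    (hR : ∀ b u, Tr S univ a b u → u 0 (x 0) * u 1 (x 1) = u 2 (x 2) * u 3 (x 3)) : Triv S := by
  have hne : ∀ b u, Tr S univ a b u → ∀ i, u i (x i) ≠ 0 := fun b u hu i h0 =>
    (h.tr hu).line.ne_zero (by rw [← ((h.tr hu).fib i).2, h0, B.zero])
  have h00 : FinOrb S a x 0 0 := (finite_singleton (x 0)).subset (by
    rintro _ ⟨b, u, -, e, rfl⟩
    exact e)
  by_contra hT
  simp only [Triv, not_or] at hT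
  have hall : ∀ j, FinOrb S a x 0 j ∧ FinOrb S a x j 0 := by
    rcases B.finOrb_cases h ha hN hR with ⟨k1, k2, k3, k4⟩ | ⟨k1, k2, k3, k4⟩
    · obtain ⟨l1, l2, l3, l4⟩ := ((finOrb_all h (hne a _ Tr.refl) hR k1 k2 k3 k4).resolve_left
        hT.1).resolve_left hT.2.2.2
      intro j
      fin_cases j
      exacts [⟨h00, h00⟩, ⟨l1, l2⟩, ⟨k1, k2⟩, ⟨l3, l4⟩]
    · obtain ⟨l1, l2, l3, l4⟩ := ((finOrb_all h (hne a _ Tr.refl)
        (fun b u hu => (hR b u hu).trans (mul_comm _ _)) k1 k2 k3 k4).resolve_left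
        hT.2.1).resolve_left hT.2.2.1
      intro j
      fin_cases j
      exacts [⟨h00, h00⟩, ⟨l1, l2⟩, ⟨l3, l4⟩, ⟨k1, k2⟩]
  have hc : ∀ j, ∃ R : ℂ[X][X], (R.Monic ∧ Corr (S 0) (S j) R) ∧
      ∀ z w, Pair S a x 0 j z w → R.evalEval z w = 0 := fun j => by
    obtain ⟨R, c, hc⟩ := exists_corr h (hall j).1 (hall j).2
    obtain ⟨R', h1, h2, h3⟩ := hmon j R c
    exact ⟨R', ⟨h1, h2⟩, fun z w hw => h3 z w (hc z w hw)⟩
  choose R hR1 hR2 using hc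
  have hF : ∀ z, ∀ e ∈ Fib S a x 0 id z, e 0 = z ∧ (∀ j, (R j).evalEval (e 0) (e j) = 0) ∧
      e 0 * e 1 = e 2 * e 3 ∧ ∀ i, e i ≠ 0 := by
    rintro z _ ⟨b, u, hu, e, rfl⟩
    exact ⟨e, fun j => hR2 j _ _ ⟨b, u, hu, rfl, rfl⟩, hR b u hu, hne b u hu⟩
  obtain ⟨n, hn, ζ, hζ, F, hF0, hl⟩ := (hsw R hR1 fun ρ => by
    obtain ⟨_, h1, b, u, hu, rfl⟩ := (h.dense_Rch 0).inter_open_nonempty {z | ρ < ‖z‖}
      (isOpen_lt continuous_const continuous_norm) (NormedSpace.exists_lt_norm ℂ ℂ ρ)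
    have := hF _ _ ⟨b, u, hu, rfl, rfl⟩
    exact ⟨fun i => u i (x i), h1, this.2.1, this.2.2.1⟩).resolve_left hT.1
  have hd₁ : ContDiff ℂ 1 (Sw ζ n) := by
    unfold Sw
    fun_prop
  have hd := hd₁.differentiable one_ne_zero
  have hS₀ : ∀ b u, Tr S univ a b u → Sw ζ n (fun i => u i (x i)) ∈ (F : Set ℂ) := by
    intro b u hu
    have := sw_const h (fun j => (hall j).1) (fun j => (hR1 j).1) hR2
      (G := fun e => ∏ c ∈ F, (Sw ζ n e - c)) (κ := 0)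
      (contDiff_prod fun c _ => hd₁.sub contDiff_const)
      (fun hco => PBd.prod (((((PBd.const _).mul ((hco 0).pow n)).add ((PBd.const _).mul
        ((hco 1).pow n))).sub ((PBd.const _).mul ((hco 2).pow n))).sub ((PBd.const _).mul
          ((hco 3).pow n))) F)
      (fun ε hε => (hl ε hε).imp fun ρ hρ z hz e he => by
        simpa only [sub_zero] using
          hρ e ((hF z e he).1 ▸ hz) ⟨(hF z e he).2.1, (hF z e he).2.2.1⟩)
      (e₀ := fun i => u i (x i)) ⟨b, u, hu, rfl, rfl⟩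
    obtain ⟨c, h1, h2⟩ := Finset.prod_eq_zero_iff.mp this
    exact sub_eq_zero.mp h2 ▸ h1
  have hS := const_of_finite h hd F.finite_toSet hS₀
  have hκ : Sw ζ n x = 0 := by
    have hc : Tendsto (Sw ζ n) (𝓝 0) (𝓝 0) := hd.continuous.tendsto' 0 0 (by simp [Sw, hn.ne'])
    refine tendsto_nhds_unique_of_frequently_eq tendsto_const_nhds hc
      (Metric.nhds_basis_ball.frequently_iff.mpr fun ε hε => ?_)
    obtain ⟨b, u, hu, h1⟩ := B.small h ha hN hε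
    exact ⟨_, mem_ball_zero_iff.mpr ((pi_norm_lt_iff hε).mpr h1), (hS b u hu).symm⟩
  have hCs : {c : ℂ | ∃ i j, (ζ i ≠ 0 ∨ ζ j ≠ 0) ∧ ζ j * c ^ n = ζ i}.Finite := by
    simp only [ofPred_exists]
    refine finite_iUnion fun i => finite_iUnion fun j => ?_
    by_cases h1 : ζ i ≠ 0 ∨ ζ j ≠ 0
    · refine (finite_setOfPred_isRoot (p := Polynomial.C (ζ j) * X ^ n - Polynomial.C (ζ i)) fun h0 => ?_).subset
        fun c hc => by simpa [sub_eq_zero] using hc.2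
      have e1 := congrArg (coeff · 0) h0
      have e2 := congrArg (coeff · n) h0
      simp [coeff_C, hn.ne, hn.ne'] at e1 e2
      exact h1.elim (· e1) (· e2)
    · simp [h1]
  have hfr : ∃ᶠ z in 𝓝[≠] (0 : ℂ), z ∈ Rch S a x 0 := by
    rw [← accPt_iff_frequently_nhdsNE, accPt_principal_iff_clusterPt, ← mem_closure_iff_clusterPt]
    exact (h.dense_Rch 0).sdiff_singleton 0 0
  have hL : ∀ j, ¬ Lin (S 0) (S j) → ∀ᶠ z in 𝓝[≠] (0 : ℂ), ∀ c ∈ {c : ℂ | ∃ i j,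
      (ζ i ≠ 0 ∨ ζ j ≠ 0) ∧ ζ j * c ^ n = ζ i}, c ≠ 0 → ¬ (z ∈ (S 0).Ω ∧ c * z ∈ (S j).Ω ∧
        (S j).H (c * z) = (S 0).H z) := fun j hj => (eventually_all_finite hCs).mpr fun c _ => by
    by_cases hc : c = 0
    · simp [hc]
    · simp only [hc, ne_eq, not_false_eq_true, forall_const]
      exact not_frequently.mp fun hf => hj ⟨c, 0, hc, hf⟩
  obtain ⟨_, ⟨b, u, hu, rfl⟩, k2, k3⟩ :=
    (hfr.and_eventually ((hL 2 hT.1).and (hL 3 hT.2.1))).exists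
  have f := (h.tr hu).fib
  have n0 := hne b u hu
  obtain ⟨i, j, h1, h2 | h2⟩ := sw_algebra hζ n0 (hR b u hu)
    (hF0 (((hS b u hu).trans hκ) ▸ hS₀ b u hu)) ((hS b u hu).trans hκ)
  · refine k2 _ ⟨i, j, h1, h2⟩ (div_ne_zero (n0 2) (n0 0)) ?_
    rw [div_mul_cancel₀ _ (n0 0)]
    exact ⟨(f 0).1, (f 2).1, (f 2).2.trans (f 0).2.symm⟩
  · refine k3 _ ⟨i, j, h1, h2⟩ (div_ne_zero (n0 3) (n0 0)) ?_
    rw [div_mul_cancel₀ _ (n0 0)]
    exact ⟨(f 0).1, (f 3).1, (f 3).2.trans (f 0).2.symm⟩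

theorem main_inf {m : Fin 4 → ℂ → ℕ} (hm : ∀ i, Res (S i) (m i))
    (hinf : ((S 0).Ωᶜ).Infinite) (h01 : ∀ z, z ∈ (S 1).Ω ↔ starRingEnd ℂ z ∈ (S 0).Ω)
    (h23 : ∀ z, z ∈ (S 3).Ω ↔ starRingEnd ℂ z ∈ (S 2).Ω) {η δ C : ℝ} {k : ℕ}
    {N : Fin 4 → Set ℂ} (B : Nbh S η δ C k N) (h : Pt S a x)
    (ha : a ∈ Sq 0 η) (hN : ∀ i, x i ∈ N i)
    (hR : ∀ b u, Tr S univ a b u → u 0 (x 0) * u 1 (x 1) = u 2 (x 2) * u 3 (x 3)) : Triv S :=
  main_core (fun _ _ c => c.monic hinf) (fun _ h1 h2 => swap_limit hm hinf h01 h23 h1 h2)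
    B h ha hN hR

theorem main_ess (hE : ∀ i, Ess (S i))
    (h01 : ∀ z, ‖(S 1).H z‖ = ‖(S 0).H (starRingEnd ℂ z)‖)
    (h23 : ∀ z, ‖(S 3).H z‖ = ‖(S 2).H (starRingEnd ℂ z)‖) {η δ C : ℝ} {k : ℕ}
    {N : Fin 4 → Set ℂ} (B : Nbh S η δ C k N) (h : Pt S a x)
    (ha : a ∈ Sq 0 η) (hN : ∀ i, x i ∈ N i)
    (hR : ∀ b u, Tr S univ a b u → u 0 (x 0) * u 1 (x 1) = u 2 (x 2) * u 3 (x 3)) : Triv S :=
  main_core (fun j _ c => c.monic_ess (hE j)) (fun _ h1 h2 => swap_limit_ess hE h01 h23 h1 h2)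
    B h ha hN hR

end Pool.Agent.Lib.MP_6db618_an
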