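import Mathlib
import Pool.Agent.Lib.MP_6db618_an.InfMain
import Pool.Agent.Lib.MP_6db618_an.EssEntA
import Pool.Agent.Lib.MP_6db618_an.Entire3

set_option autoImplicit false

namespace Pool.Agent.Lib.MP_6db618_an

open Set Filter Topology Complex Polynomial MeasureTheory

variable {f g : ℂ → ℂ}

theorem infinite_pair (hf : Differentiable ℂ f) (hg : Differentiable ℂ g) (h0 : f 0 ≠ 0) {ρ : ℝ}
    (hρ : 0 < ρ) (h : ∀ r, 0 < r → r < 2 * ρ → ME f r = ME g r) :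
    {p : ℂ × ℂ | ρ ≤ ‖p.1‖ ∧ ‖p.1‖ ≤ 3 / 2 * ρ ∧ ‖p.1‖ = ‖p.2‖ ∧ LD f p.1 = LD g p.2 ∧
      (starRingEnd ℂ) (LD f p.1) = LD f p.1}.Infinite := by
  set I₀ := Ioo (Real.log ρ) (Real.log (3 / 2 * ρ))
  have hT : {t | t ∈ I₀ ∧ DifferentiableAt ℝ (fun t : ℝ => ME f (Real.exp t)) t}.Infinite := by
    intro hfin
    obtain ⟨t, ht, h1, h2⟩ := (Measure.dense_of_ae ((monotone_ME hf).ae_differentiableAt.and
      (hfin.countable.ae_notMem volume))).inter_open_nonempty I₀ isOpen_Ioo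
      (nonempty_Ioo.mpr (Real.log_lt_log hρ (by linarith)))
    exact h2 ⟨ht, h1⟩
  refine Infinite.of_image (fun p => Real.log ‖p.1‖) (hT.mono ?_)
  rintro t ⟨ht, hd⟩
  have hlt : ∀ s ∈ I₀, ρ < Real.exp s ∧ Real.exp s < 3 / 2 * ρ := fun s hs =>
    ⟨(Real.log_lt_iff_lt_exp hρ).mp hs.1, (Real.lt_log_iff_exp_lt (by linarith)).mp hs.2⟩
  have he : ∀ s ∈ I₀, ME f (Real.exp s) = ME g (Real.exp s) := fun s hs =>
    h _ (Real.exp_pos s) (by linarith [(hlt s hs).2])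
  have hd1 : HasDerivAt (fun t : ℝ => ME f (Real.exp t)) _ t := hd.hasDerivAt
  have hd2 := hd1.congr_of_eventuallyEq (f₁ := fun t : ℝ => ME g (Real.exp t))
    (mem_of_superset (isOpen_Ioo.mem_nhds ht) fun s hs => (he s hs).symm)
  obtain ⟨x, hx, hx'⟩ := exists_ME hf.continuous (Real.exp_pos t).le
  obtain ⟨y, hy, hy'⟩ := exists_ME hg.continuous (Real.exp_pos t).le
  have hM : 0 < ME f (Real.exp t) := (norm_pos_iff.mpr h0).trans_le
    (le_ME_of_norm_le hf (Real.exp_pos t) (by simpa using (Real.exp_pos t).le))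
  have e1 := LD_at_max hf hx hx' (norm_pos_iff.mp (hx' ▸ hM)) hd1
  have e2 := LD_at_max hg hy hy' (norm_pos_iff.mp (hy' ▸ he t ht ▸ hM)) hd2
  refine ⟨(x, y), ⟨hx ▸ (hlt t ht).1.le, hx ▸ (hlt t ht).2.le, hx.trans hy.symm, ?_, ?_⟩, ?_⟩
  · rw [e1, e2, he t ht]
  · rw [e1, conj_ofReal]
  · simp only [hx, Real.log_exp]

/-- A base point for the four systems. -/
theorem exists_pt {S : Fin 4 → Sys} {η δ C : ℝ} {k : ℕ} {N : Fin 4 → Set ℂ}
    (B : Nbh S η δ C k N) (h0 : ∀ i, 0 ∈ (S i).Ω)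
    (c1 : ∀ z, (S 1).H (starRingEnd ℂ z) = starRingEnd ℂ ((S 0).H z))
    (c3 : ∀ z, (S 3).H (starRingEnd ℂ z) = starRingEnd ℂ ((S 2).H z))
    (hp : ∀ᶠ ρ in 𝓝[>] (0 : ℝ), {p : ℂ × ℂ | ρ ≤ ‖p.1‖ ∧ ‖p.1‖ ≤ 3 / 2 * ρ ∧ ‖p.1‖ = ‖p.2‖ ∧
      (S 0).H p.1 = (S 2).H p.2 ∧ (starRingEnd ℂ) ((S 0).H p.1) = (S 0).H p.1}.Infinite) :
    ∃ a x, Pt S a x ∧ a ∈ Sq 0 η ∧ (∀ i, x i ∈ N i) ∧
      ∀ b u, Tr S univ a b u → u 0 (x 0) * u 1 (x 1) = u 2 (x 2) * u 3 (x 3) := by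
  have hev : ∀ᶠ w in 𝓝 (0 : ℂ), ∀ i, (w ≠ 0 → w ∈ (S i).Reg) ∧ w ∈ N i ∧ (S i).H w ∈ Sq 0 η := by
    refine eventually_all.mpr fun i => (eventually_nhdsWithin_iff.mp ((S i).iso 0)).and
      (Eventually.and (mem_of_superset (Metric.ball_mem_nhds 0 B.δ_pos) (B.ball i)) ?_)
    exact ((S i).continuousAt (h0 i)).preimage_mem_nhds
      ((isOpen_Sq 0 η).mem_nhds ((B.zero i).symm ▸ mem_Sq_self 0 B.η_pos))
  obtain ⟨r, hr, hb⟩ := Metric.mem_nhds_iff.mp hev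
  obtain ⟨ρ, hP, hρ, hρr⟩ := (hp.and (Ioo_mem_nhdsGT (half_pos hr))).exists
  have hK : IsCompact {p : ℂ × ℂ | ρ ≤ ‖p.1‖ ∧ ‖p.1‖ ≤ 3 / 2 * ρ ∧ ‖p.1‖ = ‖p.2‖} := by
    refine ((isCompact_closedBall (0 : ℂ) (3 / 2 * ρ)).prod
      (isCompact_closedBall (0 : ℂ) (3 / 2 * ρ))).of_isClosed_subset
      ((isClosed_le continuous_const continuous_fst.norm).inter ((isClosed_le continuous_fst.norm
        continuous_const).inter (isClosed_eq continuous_fst.norm continuous_snd.norm)))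
      fun p hp => ?_
    exact ⟨mem_closedBall_zero_iff.mpr hp.2.1, mem_closedBall_zero_iff.mpr (hp.2.2 ▸ hp.2.1)⟩
  obtain ⟨q, hq, hacc⟩ := hP.exists_accPt_of_subset_isCompact hK fun p hp =>
    ⟨hp.1, hp.2.1, hp.2.2.1⟩
  rw [accPt_iff_frequently] at hacc
  let Xp : ℂ × ℂ → Fin 4 → ℂ := fun p => ![p.1, starRingEnd ℂ p.1, p.2, starRingEnd ℂ p.2]
  have hX : ∀ i, Continuous fun p => Xp p i := fun i => by
    fin_cases i
    · exact continuous_fst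
    · exact continuous_conj.comp continuous_fst
    · exact continuous_snd
    · exact continuous_conj.comp continuous_snd
  have hn : ∀ i, ‖Xp q i‖ = ‖q.1‖ := fun i => by
    fin_cases i <;> simp [Xp, hq.2.2]
  have hg : ∀ i, Xp q i ∈ Metric.ball (0 : ℂ) r ∧ Xp q i ∈ (S i).Reg := fun i => by
    have h1 : Xp q i ∈ Metric.ball (0 : ℂ) r :=
      mem_ball_zero_iff.mpr (by rw [hn]; linarith [hq.2.1])
    exact ⟨h1, (hb h1 i).1 (norm_pos_iff.mp (by rw [hn]; linarith [hq.1]))⟩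
  have hH : ∃ᶠ p in 𝓝 q, p ≠ q ∧ Xp p 0 * Xp p 1 = Xp p 2 * Xp p 3 ∧
      ∀ i, (S i).H (Xp p i) = (S 0).H p.1 := hacc.mono fun p hp => ⟨hp.1, by
        simp [Xp, mul_conj, normSq_eq_norm_sq, hp.2.2.2.1], fun i => by
      fin_cases i
      · rfl
      · exact (c1 _).trans hp.2.2.2.2.2
      · exact hp.2.2.2.2.1.symm
      · exact (c3 _).trans (hp.2.2.2.2.1 ▸ hp.2.2.2.2.2)⟩
  have hc : ∀ i, ContinuousAt (fun p => (S i).H (Xp p i)) q := fun i =>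
    ContinuousAt.comp (f := fun p => Xp p i) ((S i).continuousAt (hg i).2.1) (hX i).continuousAt
  have ha : ∀ i, (S i).H (Xp q i) = (S 0).H q.1 := fun i =>
    tendsto_nhds_unique_of_frequently_eq (hc i) (hc 0) (hH.mono fun p hp => hp.2.2 i)
  obtain ⟨η', h1, h2, h3⟩ := ((eventually_all.mpr fun i => (S i).exists_chart (hg i).2
    (Metric.isOpen_ball.mem_nhds (hg i).1)).and ((eventually_Sq_subset
      ((isOpen_Sq 0 η).mem_nhds (hb (hg 0).1 0).2.2)).and self_mem_nhdsWithin)).exists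
  choose N' ψ c hN' hsub using h1
  simp only [ha] at c
  have hψ : ∀ i p, Xp p i ∈ N' i → (S i).H (Xp p i) = (S 0).H p.1 → ψ i ((S 0).H p.1) = Xp p i :=
    fun i p h4 h5 => h5 ▸ ((c i).left _ h4).2
  have hq' : ∃ᶠ b in 𝓝[≠] ((S 0).H q.1), ψ 0 b * ψ 1 b = ψ 2 b * ψ 3 b := by
    refine frequently_nhdsWithin_iff.mpr ((hc 0).tendsto.frequently ((hH.and_eventually
      (eventually_all.mpr fun i => (hX i).continuousAt.preimage_mem_nhds
        ((c i).oN.mem_nhds (hN' i)))).mono ?_))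
    rintro p ⟨⟨p1, p2, p3⟩, p4⟩
    have e := fun i => hψ i p (p4 i) (p3 i)
    refine ⟨show ψ 0 ((S 0).H p.1) * ψ 1 ((S 0).H p.1) = ψ 2 ((S 0).H p.1) * ψ 3 ((S 0).H p.1) by
      simp only [e, p2], fun h => p1 ?_⟩
    have h5 : (S 0).H p.1 = (S 0).H q.1 := h
    have e' := fun i => (e i).symm.trans (h5 ▸ hψ i q (hN' i) (ha i))
    exact Prod.ext (e' 0) (e' 2)
  have an := fun i => (c i).differentiableOn.analyticOnNhd (isOpen_Sq _ _)
  have hrel := ((an 0).mul (an 1)).eqOn_of_preconnected_of_frequently_eq ((an 2).mul (an 3))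
    (convex_Sq _ _).isPreconnected (mem_Sq_self _ h3) hq'
  obtain ⟨a, a1, a2⟩ := (dense_Grid S).inter_open_nonempty _ (isOpen_Sq ((S 0).H q.1) η')
    ⟨_, mem_Sq_self _ h3⟩
  have hx : ∀ i, ψ i a ∈ (S i).Ω ∧ (S i).H (ψ i a) = a := fun i =>
    ⟨((c i).reg ((c i).maps a a1)).1, (c i).right a a1⟩
  let Ψ : (Fin 4 → ℂ) → ℂ := fun y => y 0 * y 1 - y 2 * y 3
  have hΨ : Differentiable ℂ Ψ := by fun_prop
  have hR : Rel S Ψ fun i => ψ i a := Rel.of_chart c (fun b hb => sub_eq_zero.mpr (hrel hb))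
    fun i => (c i).maps a a1
  exact ⟨a, fun i => ψ i a, ⟨Grid.line a2, hx⟩, h2 a1,
    fun i => (hb (hsub i ((c i).maps a a1)) i).2.1,
    fun b u hu => sub_eq_zero.mp (hu.rel_eq hΨ hx hR)⟩

theorem equiv_core (hf : Differentiable ℂ f) (hg : Differentiable ℂ g) (h0 : f 0 ≠ 0)
    (hyp : {z | f z = 0}.Infinite ∨ ({z | f z = 0}.Finite ∧ {z | g z = 0}.Finite ∧
      ¬ FinOrd f ∧ ¬ FinOrd g)) {r₀ : ℝ} (hr₀ : 0 < r₀)
    (h : ∀ r, 0 < r → r < r₀ → ME f r = ME g r) :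
    ∃ ε η : ℂ, ‖ε‖ = 1 ∧ ‖η‖ = 1 ∧ ((∀ z, g z = ε * f (η * z)) ∨
      ∀ z, g z = ε * starRingEnd ℂ (f (η * starRingEnd ℂ z))) := by
  have hp := frequently_pair hf hg h0 hr₀ h
  have t1 : Tendsto (fun p : ℂ × ℂ => p.1) (𝓝 (0, 0)) (𝓝 0) := continuous_fst.tendsto (0, 0)
  have t2 : Tendsto (fun p : ℂ × ℂ => p.2) (𝓝 (0, 0)) (𝓝 0) := continuous_snd.tendsto (0, 0)
  have e0 : ‖f 0‖ = ‖g 0‖ := tendsto_nhds_unique_of_frequently_eq
    ((hf.continuous.norm.tendsto 0).comp t1) ((hg.continuous.norm.tendsto 0).comp t2)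
    (hp.mono fun p hp => hp.2.2.1)
  have g0 : g 0 ≠ 0 := norm_pos_iff.mp (e0 ▸ norm_pos_iff.mpr h0)
  have h1 : ∃ z, deriv f z ≠ 0 := by
    refine hyp.elim (fun hinf => ?_) fun h => exists_deriv_ne_of_not_finOrd hf h.2.2.1
    by_contra hno
    push Not at hno
    obtain ⟨z, hz⟩ := hinf.nonempty
    exact h0 ((is_const_of_deriv_eq_zero hf hno 0 z).trans hz)
  have g1 : ∃ z, deriv g z ≠ 0 := by
    by_contra hno
    push Not at hno
    obtain ⟨z, -, hz⟩ := exists_ME hg.continuous (half_pos hr₀).le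
    have := lt_ME hf h1 (r := r₀ / 2) (z := 0) (by simpa using hr₀)
    rw [h _ (half_pos hr₀) (half_lt_self hr₀), ← hz, is_const_of_deriv_eq_zero hg hno z 0] at this
    exact this.ne e0
  let cj : (ℂ → ℂ) → ℂ → ℂ := fun u => starRingEnd ℂ ∘ u ∘ starRingEnd ℂ
  have cd : ∀ {u}, Differentiable ℂ u → Differentiable ℂ (cj u) := fun hu z =>
    differentiableAt_conj_conj_iff.mpr (hu _)
  have cL : ∀ u z, LD (cj u) (starRingEnd ℂ z) = starRingEnd ℂ (LD u z) := fun u z => by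
    simp [LD, cj]
  have c1 : ∀ {u : ℂ → ℂ}, (∃ z, deriv u z ≠ 0) → ∃ z, deriv (cj u) z ≠ 0 := fun ⟨z, hz⟩ =>
    ⟨starRingEnd ℂ z, by simpa [cj] using hz⟩
  let F : Fin 4 → ℂ → ℂ := ![f, cj f, g, cj g]
  have hF : ∀ i, Differentiable ℂ (F i) ∧ F i 0 ≠ 0 ∧ ∃ z, deriv (F i) z ≠ 0 := by
    intro i
    fin_cases i
    · exact ⟨hf, h0, h1⟩
    · exact ⟨cd hf, by simpa [F, cj] using h0, c1 h1⟩
    · exact ⟨hg, g0, g1⟩
    · exact ⟨cd hg, by simpa [F, cj] using g0, c1 g1⟩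
  let S : Fin 4 → Sys := fun i => sysInf (F i) (hF i).1 (hF i).2.1 (hF i).2.2
  obtain ⟨η, δ, C, k, N, B⟩ := exists_nbh S (fun i => (hF i).2.1) (fun i => LD_zero _)
    fun i r hr hc z hz => ne_zero_of_circle (hF i).1 hr hc (mem_closedBall_zero_iff.mp hz)
  obtain ⟨a, x, hx, ha, hN, hR⟩ := exists_pt B (fun i => (hF i).2.1) (cL f) (cL g) (by
    filter_upwards [Ioo_mem_nhdsGT (half_pos hr₀)] with ρ hρ
    exact infinite_pair hf hg h0 hρ.1 fun r h2 h3 => h r h2 (by linarith [hρ.2]))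
  choose m hm using fun i => exists_res (hF i).1 (hF i).2.1 (hF i).2.2
  have hT : Triv S := by
    rcases hyp with hinf | ⟨zf, zg, of, og⟩
    · exact main_inf (S := S) hm (hinf.mono fun z hz => not_not.mpr hz)
        (fun z => by simp [S, sysInf, F, cj]) (fun z => by simp [S, sysInf, F, cj]) B hx ha hN hR
    have cz : ∀ {u : ℂ → ℂ}, {z | u z = 0}.Finite → {z | cj u z = 0}.Finite := fun hu =>
      (hu.image (starRingEnd ℂ)).subset fun z hz =>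
        ⟨starRingEnd ℂ z, by simpa [cj] using hz, conj_conj z⟩
    have cn : ∀ u z, ‖LD (cj u) z‖ = ‖LD u (starRingEnd ℂ z)‖ := fun u z => by
      rw [← norm_conj (LD u _), ← cL, conj_conj]
    refine main_ess (S := S) (fun i => ess_sysInf _ _ _ ?_ ?_) (cn f) (cn g) B hx ha hN hR
    · fin_cases i
      exacts [zf, cz zf, zg, cz zg]
    · fin_cases i
      exacts [of, fun h => of h.of_conj, og, fun h => og h.of_conj]
  have key : ∀ i j, ‖F i 0‖ = ‖F j 0‖ → (∀ r, 0 < r → r < r₀ → ME (F i) r = ME (F j) r) →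
      Lin (S i) (S j) → ∃ e c : ℂ, ‖e‖ = 1 ∧ ‖c‖ = 1 ∧ ∀ z, F j z = e * F i (c * z) := by
    intro i j h2 h3 h4
    obtain ⟨e, c, hc, he⟩ := eq_of_Lin (hF i).1 (hF j).1 _ _ _ _ h4
    obtain ⟨h5, h6⟩ := unit_of_ME (hF i).1 (hF j).1 (hF j).2.2 h2 (hF j).2.1 hr₀ h3 hc he
    refine ⟨e⁻¹, c⁻¹, by simp [h5], by simp [h6], fun z => ?_⟩
    rw [he, mul_inv_cancel_left₀ hc, inv_mul_cancel_left₀ (norm_ne_zero_iff.mp (h5 ▸ one_ne_zero))]
  have m1 : ∀ r, ME (cj f) r = ME f r := ME_conj f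
  have m3 : ∀ r, ME (cj g) r = ME g r := ME_conj g
  have n1 : ‖cj f 0‖ = ‖f 0‖ := by simp [cj]
  have n3 : ‖cj g 0‖ = ‖g 0‖ := by simp [cj]
  have ce : ∀ z, g z = starRingEnd ℂ (cj g (starRingEnd ℂ z)) := fun z => by simp [cj]
  rcases hT with hT | hT | hT | hT
  · obtain ⟨e, c, h2, h3, h4⟩ := key 0 2 e0 h hT
    exact ⟨e, c, h2, h3, Or.inl h4⟩
  · obtain ⟨e, c, h2, h3, h4⟩ := key 0 3 (e0.trans n3.symm)
      (fun r a b => (h r a b).trans (m3 r).symm) hT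
    refine ⟨starRingEnd ℂ e, c, by simpa using h2, h3, Or.inr fun z => ?_⟩
    rw [ce, ← map_mul]
    exact congrArg _ (h4 _)
  · obtain ⟨e, c, h2, h3, h4⟩ := key 1 2 (n1.trans e0) (fun r a b => (m1 r).trans (h r a b)) hT
    refine ⟨e, starRingEnd ℂ c, h2, by simpa using h3, Or.inr fun z => (h4 z).trans ?_⟩
    simp [F, cj]
  · obtain ⟨e, c, h2, h3, h4⟩ := key 1 3 (n1.trans (e0.trans n3.symm))
      (fun r a b => (m1 r).trans ((h r a b).trans (m3 r).symm)) hT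
    refine ⟨starRingEnd ℂ e, starRingEnd ℂ c, by simpa using h2, by simpa using h3,
      Or.inl fun z => ?_⟩
    rw [ce]
    refine (congrArg _ (h4 _)).trans ?_
    simp [F, cj]

theorem equiv_of_factor' {v : ℂ → ℂ} (hv : Differentiable ℂ v) (hg : Differentiable ℂ g)
    (v0 : v 0 ≠ 0) (j : ℕ) (e : ∀ z, f z = z ^ j * v z)
    (hyp : {z | f z = 0}.Infinite ∨ ({z | f z = 0}.Finite ∧ {z | g z = 0}.Finite ∧
      ¬ FinOrd f ∧ ¬ FinOrd g)) {r₀ : ℝ} (hr₀ : 0 < r₀)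
    (h : ∀ r, 0 < r → r < r₀ → ME f r = ME g r) :
    ∃ ε η : ℂ, ‖ε‖ = 1 ∧ ‖η‖ = 1 ∧ ((∀ z, g z = ε * f (η * z)) ∨
      ∀ z, g z = ε * starRingEnd ℂ (f (η * starRingEnd ℂ z))) := by
  obtain rfl : f = fun z => z ^ j * v z := funext e
  obtain ⟨u, hu, e, h2⟩ := exists_factor hv hr₀ j g hg h
  obtain ⟨ε, η, h3, h4, h5⟩ := equiv_core hv hu v0 (hyp.imp
    (fun hinf => (hinf.sdiff (finite_singleton 0)).mono fun z hz =>
      (mul_eq_zero.mp hz.1).resolve_left (pow_ne_zero _ hz.2))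
    fun ⟨zf, zg, of, og⟩ => ⟨zf.subset fun z hz => mul_eq_zero_of_right _ hz,
      zg.subset fun z hz => (e z).trans (mul_eq_zero_of_right _ hz),
      fun k => of (k.pow_mul j), fun k => og (funext e ▸ k.pow_mul j)⟩) hr₀ h2
  have h6 : η ≠ 0 := norm_ne_zero_iff.mp (h4 ▸ one_ne_zero)
  rcases h5 with h5 | h5
  · refine ⟨ε / η ^ j, η, by simp [h3, h4], h4, Or.inl fun z => ?_⟩
    beta_reduce
    rw [e, h5, mul_pow]
    field_simp
  · have h7 : starRingEnd ℂ η ≠ 0 := by simpa using h6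
    refine ⟨ε / starRingEnd ℂ η ^ j, η, by simp [h3, h4], h4, Or.inr fun z => ?_⟩
    beta_reduce
    rw [e, h5, mul_pow, map_mul, map_mul, map_pow, map_pow, conj_conj]
    field_simp

theorem equiv_of_infinite (hf : Differentiable ℂ f) (hg : Differentiable ℂ g)
    (hinf : {z | f z = 0}.Infinite) {r₀ : ℝ} (hr₀ : 0 < r₀)
    (h : ∀ r, 0 < r → r < r₀ → ME f r = ME g r) :
    ∃ ε η : ℂ, ‖ε‖ = 1 ∧ ‖η‖ = 1 ∧ ((∀ z, g z = ε * f (η * z)) ∨
      ∀ z, g z = ε * starRingEnd ℂ (f (η * starRingEnd ℂ z))) := by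
  by_cases hz : ∃ z, f z ≠ 0
  swap
  · push Not at hz
    refine ⟨1, 1, norm_one, norm_one, Or.inl fun z => ?_⟩
    rw [hz, mul_zero]
    by_contra h1
    obtain ⟨w, -, hw⟩ := exists_ME hf.continuous (half_pos hr₀).le
    rw [hz, norm_zero, h _ (half_pos hr₀) (half_lt_self hr₀)] at hw
    exact MF_ne_zero hg ⟨z, h1⟩ (half_pos hr₀) hw.symm
  obtain ⟨j, v, hv, v0, e⟩ := exists_factor_zero hf hz 0
  simp only [sub_zero] at e
  exact equiv_of_factor' hv hg v0 j e (Or.inl hinf) hr₀ h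

/-- Blumenthal's conjecture for transcendental entire functions. -/
theorem equiv_of_transcendental (hf : Differentiable ℂ f) (hg : Differentiable ℂ g)
    (hpoly : ¬ ∃ p : ℂ[X], ∀ z, f z = p.eval z) (hM : ∀ r, 0 < r → ME f r = ME g r) :
    ∃ ε η : ℂ, ‖ε‖ = 1 ∧ ‖η‖ = 1 ∧ ((∀ z, g z = ε * f (η * z)) ∨
      ∀ z, g z = ε * starRingEnd ℂ (f (η * starRingEnd ℂ z))) := by
  by_cases zf : {z | f z = 0}.Finite
  swap
  · exact equiv_of_infinite hf hg zf one_pos fun r hr _ => hM r hr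
  by_cases zg : {z | g z = 0}.Finite
  · by_cases of : FinOrd f
    · exact equivE_finite hf hg zf zg of hpoly hM
    obtain ⟨j, v, hv, v0, e⟩ := exists_factor_zero hf
      (by_contra fun h => hpoly ⟨0, fun z => by simpa using not_exists.mp h z⟩) 0
    simp only [sub_zero] at e
    exact equiv_of_factor' hv hg v0 j e (Or.inr ⟨zf, zg, of, fun og => of (og.of_ME hf hg hM)⟩)
      one_pos fun r hr _ => hM r hr
  obtain ⟨ε, η, hε, hη, e⟩ :=
    equiv_of_infinite hg hf zg one_pos fun r hr _ => (hM r hr).symm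
  have η0 : η ≠ 0 := norm_ne_zero_iff.mp (hη.trans_ne one_ne_zero)
  refine absurd ?_ zg
  rcases e with e | e
  · refine (zf.image fun z => η * z).subset fun w hw => ⟨η⁻¹ * w, ?_, ?_⟩
    · show f _ = 0
      rw [e, mul_inv_cancel_left₀ η0, show g w = 0 from hw, mul_zero]
    · exact mul_inv_cancel_left₀ η0 w
  · refine (zf.image fun z => η * starRingEnd ℂ z).subset fun w hw =>
      ⟨starRingEnd ℂ (η⁻¹ * w), ?_, ?_⟩
    · show f _ = 0
      rw [e, conj_conj, mul_inv_cancel_left₀ η0, show g w = 0 from hw, map_zero, mul_zero]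
    · show η * _ = w
      rw [conj_conj, mul_inv_cancel_left₀ η0]

end Pool.Agent.Lib.MP_6db618_an
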