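import Mathlib
import Pool.Agent.Lib.MP_6db618_an.Near

set_option autoImplicit false

namespace Pool.Agent.Lib.MP_6db618_an

variable {K : Type} [Field K] [Algebra ℂ K]

/-- Weighted logarithmic derivative `∑ f w * z / (z - w)`. -/
noncomputable def PhiW (f : ℂ → ℕ) (s : Multiset ℂ) (z : K) : K :=
  (s.map fun w => (f w : K) * (1 + tt w z)).sum

/-- `z * d/dz` of `PhiW`. -/
noncomputable def dPhiW (f : ℂ → ℕ) (s : Multiset ℂ) (z : K) : K :=
  (s.map fun w => (f w : K) * -(tt w z * (1 + tt w z))).sum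

/-- Weighted product `∏ (z - w) ^ f w`. -/
noncomputable def PrW (f : ℂ → ℕ) (s : Multiset ℂ) (z : K) : K :=
  (s.map fun w => (z - algebraMap ℂ K w) ^ f w).prod

/-- Weights depending only on the multiplicity. -/
noncomputable def wt (g : ℕ → ℕ) (s : Multiset ℂ) : ℂ → ℕ := fun w => g (s.count w)

/-- `∑ g (m w) * z / (z - w)`, the sum over the multiset `s`. -/
noncomputable def Phi (g : ℕ → ℕ) (s : Multiset ℂ) (z : K) : K := PhiW (wt g s) s z

/-- `z * d/dz` of `Phi`. -/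
noncomputable def dPhi (g : ℕ → ℕ) (s : Multiset ℂ) (z : K) : K := dPhiW (wt g s) s z

/-- `∏ (z - w) ^ g (m w)`, the product over the multiset `s`. -/
noncomputable def Pr (g : ℕ → ℕ) (s : Multiset ℂ) (z : K) : K := PrW (wt g s) s z

/-- The degree of `Pr g s`. -/
noncomputable def Ng (g : ℕ → ℕ) (s : Multiset ℂ) : ℕ := (s.map (wt g s)).sum

/-- Indicator of one multiplicity. -/
def ind (l : ℕ) : ℕ → ℕ := fun m => if m = l then 1 else 0

theorem PhiW_cons (f : ℂ → ℕ) (w : ℂ) (s : Multiset ℂ) (z : K) :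
    PhiW f (w ::ₘ s) z = (f w : K) * (1 + tt w z) + PhiW f s z := by simp [PhiW]

theorem dPhiW_cons (f : ℂ → ℕ) (w : ℂ) (s : Multiset ℂ) (z : K) :
    dPhiW f (w ::ₘ s) z = (f w : K) * -(tt w z * (1 + tt w z)) + dPhiW f s z := by simp [dPhiW]

theorem PrW_cons (f : ℂ → ℕ) (w : ℂ) (s : Multiset ℂ) (z : K) :
    PrW f (w ::ₘ s) z = (z - algebraMap ℂ K w) ^ f w * PrW f s z := by simp [PrW]

theorem PrW_ne_zero (f : ℂ → ℕ) (s : Multiset ℂ) {z : K} (hz : NC z) : PrW f s z ≠ 0 := by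
  induction s using Multiset.induction_on with
  | empty => simp [PrW]
  | cons w s ih => rw [PrW_cons]; exact mul_ne_zero (pow_ne_zero _ (hz.sub_ne_zero w)) ih

theorem one_add_tt {z : K} {w : ℂ} (h : z - algebraMap ℂ K w ≠ 0) :
    1 + tt w z = z / (z - algebraMap ℂ K w) := by
  rw [tt]; field_simp; ring

theorem deriv_PrW (D : Derivation ℂ K K) (f : ℂ → ℕ) (s : Multiset ℂ) {z : K} (hz : NC z) :
    D (PrW f s z) / PrW f s z = PhiW f s z * (D z / z) := by
  induction s using Multiset.induction_on with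
  | empty => simp [PrW, PhiW]
  | cons w s ih =>
    have h1 := hz.sub_ne_zero w
    have h0 := hz.ne_zero
    rw [PrW_cons, PhiW_cons, deriv_mul_div D (pow_ne_zero _ h1) (PrW_ne_zero f s hz), ih,
      Derivation.leibniz_pow, map_sub, D.map_algebraMap, sub_zero, one_add_tt h1]
    rcases Nat.eq_zero_or_pos (f w) with h | h
    · simp [h]
    · obtain ⟨n, hn⟩ : ∃ n, f w = n + 1 := ⟨f w - 1, by omega⟩
      rw [hn]
      simp only [Nat.add_sub_cancel, smul_eq_mul, nsmul_eq_mul]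
      field_simp
      ring

variable {V : ValuationSubring K}

theorem HasConst.PhiW_mem (hV : HasConst V) (f : ℂ → ℕ) {s : Multiset ℂ} {z : K}
    (h : ∀ w ∈ s, tt w z ∈ V) : PhiW f s z ∈ V :=
  sum_map_mem _ _ fun w hw =>
    V.mul_mem _ _ (hV.natCast_mem _) (V.add_mem _ _ V.one_mem (h w hw))

theorem HasConst.dPhiW_mem (hV : HasConst V) (f : ℂ → ℕ) {s : Multiset ℂ} {z : K}
    (h : ∀ w ∈ s, tt w z ∈ V) : dPhiW f s z ∈ V :=
  sum_map_mem _ _ fun w hw => V.mul_mem _ _ (hV.natCast_mem _)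
    (V.neg_mem _ (V.mul_mem _ _ (h w hw) (V.add_mem _ _ V.one_mem (h w hw))))

theorem HasConst.Phi_mem (hV : HasConst V) (g : ℕ → ℕ) {s : Multiset ℂ} {z : K}
    (h : HH s z ∈ V) : Phi g s z ∈ V :=
  hV.PhiW_mem _ fun _ hw => hV.tt_mem_of_HH_mem h hw

theorem HasConst.dPhi_mem (hV : HasConst V) (g : ℕ → ℕ) {s : Multiset ℂ} {z : K}
    (h : HH s z ∈ V) : dPhi g s z ∈ V :=
  hV.dPhiW_mem _ fun _ hw => hV.tt_mem_of_HH_mem h hw

theorem HasConst.near_one_add_tt_zero (hV : HasConst V) {z : K} (hz : V.valuation z < 1) {w : ℂ}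
    (hw : w ≠ 0) : Near V (1 + tt w z) 0 := by
  have h1 := hV.valuation_sub_const hz hw
  have h2 : z - algebraMap ℂ K w ≠ 0 := by
    intro h0
    rw [h0, map_zero] at h1
    exact zero_ne_one h1
  rw [near_zero_iff, one_add_tt h2, map_div₀, h1, div_one]
  exact hz

theorem HasConst.near_PhiW_zero (hV : HasConst V) (f : ℂ → ℕ) {z : K} (hz : V.valuation z < 1)
    {s : Multiset ℂ} (hs : ∀ w ∈ s, w ≠ 0) : Near V (PhiW f s z) 0 := by
  induction s using Multiset.induction_on with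
  | empty => simp [PhiW, Near]
  | cons w s ih =>
    rw [PhiW_cons]
    exact (((near_natCast (f w)).mul hV (hV.near_one_add_tt_zero hz
      (hs w (Multiset.mem_cons_self _ _)))).add
      (ih fun w' hw' => hs w' (Multiset.mem_cons_of_mem hw'))).congr rfl (by simp)

theorem HasConst.near_dPhiW_zero (hV : HasConst V) (f : ℂ → ℕ) {z : K} (hz : V.valuation z < 1)
    {s : Multiset ℂ} (hs : ∀ w ∈ s, w ≠ 0) : Near V (dPhiW f s z) 0 := by
  induction s using Multiset.induction_on with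
  | empty => simp [dPhiW, Near]
  | cons w s ih =>
    rw [dPhiW_cons]
    have h1 := hV.near_one_add_tt_zero hz (hs w (Multiset.mem_cons_self _ _))
    have h2 : Near V (tt w z) (-1) := (h1.sub near_one).congr (by ring) (by ring)
    exact (((near_natCast (f w)).mul hV (h2.mul hV h1).neg).add
      (ih fun w' hw' => hs w' (Multiset.mem_cons_of_mem hw'))).congr rfl (by simp)

theorem HasConst.near_tt_infty (hV : HasConst V) {z : K} (hz : 1 < V.valuation z) (w : ℂ) :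
    Near V (tt w z) 0 := by
  have h1 := hV.le_one w
  rw [near_zero_iff, tt, map_div₀, Valuation.map_sub_eq_of_lt_left _ (lt_of_le_of_lt h1 hz),
    div_lt_one₀ (lt_trans zero_lt_one hz)]
  exact lt_of_le_of_lt h1 hz

theorem HasConst.near_PhiW_infty (hV : HasConst V) (f : ℂ → ℕ) {z : K} (hz : 1 < V.valuation z)
    (s : Multiset ℂ) : Near V (PhiW f s z) ((s.map f).sum : ℕ) := by
  induction s using Multiset.induction_on with
  | empty => simp [PhiW, Near]
  | cons w s ih =>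
    rw [PhiW_cons]
    exact (((near_natCast (f w)).mul hV (near_one.add (hV.near_tt_infty hz w))).add ih).congr rfl
      (by simp)

theorem val_PrW_eq (f : ℂ → ℕ) {z : K} {θ : V.ValueGroup} {s : Multiset ℂ}
    (h : ∀ w ∈ s, V.valuation (z - algebraMap ℂ K w) = θ) :
    V.valuation (PrW f s z) = θ ^ (s.map f).sum := by
  induction s using Multiset.induction_on with
  | empty => simp [PrW]
  | cons w s ih =>
    rw [PrW_cons, map_mul, map_pow, h w (Multiset.mem_cons_self _ _),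
      ih fun w' hw' => h w' (Multiset.mem_cons_of_mem hw'), Multiset.map_cons, Multiset.sum_cons,
      pow_add]

theorem HasConst.val_sub_of_tt_mem (hV : HasConst V) {z : K} (hz : NC z) {w : ℂ} (hw : w ≠ 0)
    (h : tt w z ∈ V) : V.valuation (z - algebraMap ℂ K w) = max 1 (V.valuation z) := by
  rcases le_or_gt (V.valuation z) 1 with h1 | h1
  · rw [max_eq_left h1]
    refine le_antisymm (Valuation.map_sub_le _ h1 (hV.le_one w)) ?_
    have h2 := (V.valuation_le_one_iff _).mpr h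
    have h3 : 0 < V.valuation (z - algebraMap ℂ K w) :=
      zero_lt_iff.mpr ((Valuation.ne_zero_iff _).mpr (hz.sub_ne_zero w))
    rwa [tt, map_div₀, hV.valuation_const hw, div_le_one₀ h3] at h2
  · rw [max_eq_right h1.le]
    exact Valuation.map_sub_eq_of_lt_left _ (lt_of_le_of_lt (hV.le_one w) h1)

theorem HasConst.val_Pr_of_mem (hV : HasConst V) (g : ℕ → ℕ) {z : K} (hz : NC z)
    {s : Multiset ℂ} (hs : ∀ w ∈ s, w ≠ 0) (h : HH s z ∈ V) :
    V.valuation (Pr g s z) = max 1 (V.valuation z) ^ Ng g s :=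
  val_PrW_eq _ fun w hw => hV.val_sub_of_tt_mem hz (hs w hw) (hV.tt_mem_of_HH_mem h hw)

theorem PhiW_split (f : ℂ → ℕ) (s : Multiset ℂ) (z : K) (w : ℂ) :
    PhiW f s z = (s.count w : K) * ((f w : K) * (1 + tt w z)) + PhiW f (s.filter (· ≠ w)) z :=
  sum_map_split s _ w

theorem dPhiW_split (f : ℂ → ℕ) (s : Multiset ℂ) (z : K) (w : ℂ) :
    dPhiW f s z = (s.count w : K) * ((f w : K) * -(tt w z * (1 + tt w z))) +
      dPhiW f (s.filter (· ≠ w)) z :=
  sum_map_split s _ w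

theorem PrW_split (f : ℂ → ℕ) (s : Multiset ℂ) (z : K) (w : ℂ) :
    PrW f s z = (z - algebraMap ℂ K w) ^ (s.count w * f w) * PrW f (s.filter (· ≠ w)) z := by
  classical
  unfold PrW
  conv_lhs => rw [← Multiset.filter_add_not (· = w) s]
  rw [Multiset.map_add, Multiset.prod_add, Multiset.filter_eq', Multiset.map_replicate,
    Multiset.prod_replicate, ← pow_mul, mul_comm (f w)]

omit [Algebra ℂ K] in
theorem inv_one_sub_mem {y : K} (h : V.valuation y < 1) : 1 - y ≠ 0 ∧ (1 - y)⁻¹ ∈ V := by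
  have h1 : V.valuation (1 - y) = 1 := by
    rw [Valuation.map_sub_eq_of_lt_left _ (by simpa using h), map_one]
  refine ⟨fun h0 => ?_, ?_⟩
  · rw [h0, map_zero] at h1
    exact zero_ne_one h1
  · rw [← V.valuation_le_one_iff, map_inv₀, h1, inv_one]

theorem HasConst.taylor (hV : HasConst V) (f : ℂ → ℕ) {z δ : K} (hz : NC z) {w : ℂ}
    (hδ : V.valuation δ < 1) (hw : algebraMap ℂ K w = z * (1 - δ)) {r : Multiset ℂ}
    (h1 : ∀ w' ∈ r, w' ≠ w) (h2 : ∀ w' ∈ r, tt w' z ∈ V) :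
    ∃ (c : ℂ) (t : K), t ∈ V ∧
      PhiW f r z = algebraMap ℂ K c + δ * dPhiW f r z + δ ^ 2 * t := by
  induction r using Multiset.induction_on with
  | empty => exact ⟨0, 0, V.zero_mem, by simp [PhiW, dPhiW]⟩
  | cons w' r ih =>
    obtain ⟨c, t, ht, e⟩ := ih (fun u hu => h1 u (Multiset.mem_cons_of_mem hu))
      (fun u hu => h2 u (Multiset.mem_cons_of_mem hu))
    have k1 := h1 w' (Multiset.mem_cons_self _ _)
    have k2 := h2 w' (Multiset.mem_cons_self _ _)
    have kT : 1 + tt w' z ∈ V := V.add_mem _ _ V.one_mem k2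
    obtain ⟨u0, uV⟩ := inv_one_sub_mem (V := V) (y := δ * (1 + tt w' z))
      (val_mul_lt hδ ((V.valuation_le_one_iff _).mpr kT))
    refine ⟨f w' * (w / (w - w')) + c, (f w' : K) * (-(tt w' z * (1 + tt w' z)) * (1 + tt w' z) *
      (1 - δ * (1 + tt w' z))⁻¹) + t, ?_, ?_⟩
    · exact V.add_mem _ _ (V.mul_mem _ _ (hV.natCast_mem _) (V.mul_mem _ _ (V.mul_mem _ _
        (V.neg_mem _ (V.mul_mem _ _ k2 kT)) kT) uV)) ht
    · have k3 := hz.sub_ne_zero w'
      have k4 : algebraMap ℂ K w - algebraMap ℂ K w' ≠ 0 := by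
        rw [← map_sub]; exact (_root_.map_ne_zero _).mpr (sub_ne_zero.mpr k1.symm)
      have k5 : algebraMap ℂ K w / (algebraMap ℂ K w - algebraMap ℂ K w') =
          (1 + tt w' z) * (1 - δ) * (1 - δ * (1 + tt w' z))⁻¹ := by
        rw [eq_mul_inv_iff_mul_eq₀ u0, div_mul_eq_mul_div, div_eq_iff k4, one_add_tt k3, hw]
        field_simp
        ring
      rw [PhiW_cons, dPhiW_cons, e, map_add, map_mul, map_div₀, map_sub, map_natCast, k5]
      have k6 : (1 - δ * (1 + tt w' z)) * (1 - δ * (1 + tt w' z))⁻¹ = 1 := mul_inv_cancel₀ u0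
      generalize (1 - δ * (1 + tt w' z))⁻¹ = u at *
      generalize tt w' z = T at *
      linear_combination (-(f w' : K) * ((1 + T) + δ * (T * (1 + T)))) * k6

/-- The local expansions at a place over `a = ∞`. -/
structure LocD (V : ValuationSubring K) (s : Multiset ℂ) (a x : K) (w : ℂ) (m : ℕ) (k : K) :
    Prop where
  mem : w ∈ s
  cnt : s.count w = m
  hk : k ∈ V
  near : Near V x w
  phi : ∀ g : ℕ → ℕ, ∃ j : K, j ∈ V ∧ Phi g s x = (g m : K) * (a - k) + j
  dphi : ∀ l : ℕ, ∃ e : K, e ∈ V ∧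
    (l : K) ^ 2 * dPhi (ind l) s x = -((m : K) * (ind l m : ℕ)) * ((a - k) * (a - k - m)) + e
  dmem : ∀ g : ℕ → ℕ, g m = 0 → dPhi g s x ∈ V
  FF : ∃ t : K, t ∈ V ∧
    a ^ 2 * (Chi s x)⁻¹ = -(m : K) - m * (2 * k + m) * a⁻¹ + a⁻¹ ^ 2 * t
  taylor : ∀ g : ℕ → ℕ, g m = 0 → ∃ (c : ℂ) (t : K), t ∈ V ∧
    Phi g s x = algebraMap ℂ K c + m * a⁻¹ * dPhi g s x + a⁻¹ ^ 2 * t
  prod : ∀ g : ℕ → ℕ, V.valuation (Pr g s x) = V.valuation a⁻¹ ^ (m * g m)

omit [Algebra ℂ K] in
theorem val_inv_lt_one {a : K} (ha : a ∉ V) : V.valuation a⁻¹ < 1 := by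
  have h1 : 1 < V.valuation a := not_le.mp fun h => ha ((V.valuation_le_one_iff _).mp h)
  rw [map_inv₀]
  exact inv_lt_one_of_one_lt₀ h1

theorem HasConst.exists_locD (hV : HasConst V) {s : Multiset ℂ} {a x : K} (hx : NC x)
    (h : HH s x = a) (ha : a ∉ V) : ∃ (w : ℂ) (m : ℕ) (k : K), LocD V s a x w m k := by
  have : CharZero K := charZero_of_injective_algebraMap (algebraMap ℂ K).injective
  have : ∃ w ∈ s, tt w x ∉ V := by
    by_contra hcon
    push Not at hcon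
    exact ha (h ▸ sum_map_mem _ _ fun w hw => V.add_mem _ _ V.one_mem (hcon w hw))
  obtain ⟨w, hws, hw⟩ := this
  have hw0 : w ≠ 0 := by
    rintro rfl
    apply hw
    simp [tt]
  have hr : ∀ w' ∈ s.filter (· ≠ w), tt w' x ∈ V := fun w' hw' =>
    hV.tt_mem hw (Multiset.mem_filter.mp hw').2
  obtain ⟨k, e, hk, he, h1, h2⟩ := hV.decomp hw s
  rw [h] at h1
  obtain ⟨m, hm⟩ : ∃ m, s.count w = m := ⟨_, rfl⟩
  have hm1 : m ≠ 0 := by rw [← hm]; exact Multiset.count_ne_zero.mpr hws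
  have hmK : (m : K) ≠ 0 := Nat.cast_ne_zero.mpr hm1
  have hmV := hV.natCast_mem m
  rw [hm] at h1 h2
  have ha0 : a ≠ 0 := fun h0 => ha (h0 ▸ V.zero_mem)
  have hε := val_inv_lt_one ha
  have hεV : a⁻¹ ∈ V := (V.valuation_le_one_iff _).mp hε.le
  have hxw := hx.sub_ne_zero w
  have hx0 := hx.ne_zero
  obtain ⟨u0, uV⟩ := inv_one_sub_mem (V := V) (y := a⁻¹ * k)
    (val_mul_lt hε ((V.valuation_le_one_iff _).mpr hk))
  have hak : a - k ≠ 0 := by
    intro h0
    apply u0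
    rw [← sub_eq_zero.mp h0, inv_mul_cancel₀ ha0, sub_self]
  -- the local parameter
  obtain ⟨δ, hδ⟩ : ∃ δ : K, δ = m * a⁻¹ * (1 - a⁻¹ * k)⁻¹ := ⟨_, rfl⟩
  have hδ1 : δ * (1 + tt w x) = 1 := by
    have : (1 + tt w x) = (a - k) / m := by rw [h1]; field_simp; ring
    rw [this, hδ]
    field_simp
  have hδv : V.valuation δ = V.valuation a⁻¹ := by
    have k1 : V.valuation (1 - a⁻¹ * k) = 1 := by
      rw [Valuation.map_sub_eq_of_lt_left _ (by
        simpa using val_mul_lt hε ((V.valuation_le_one_iff _).mpr hk)), map_one]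
    have k2 : V.valuation (m : K) = 1 := by
      have := hV.valuation_const (c := (m : ℂ)) (Nat.cast_ne_zero.mpr hm1)
      rwa [map_natCast] at this
    rw [hδ, map_mul, map_mul, map_inv₀ _ (1 - a⁻¹ * k), k1, k2, inv_one, one_mul, mul_one]
  have hwx : algebraMap ℂ K w = x * (1 - δ) := by
    rw [one_add_tt hxw] at hδ1
    field_simp at hδ1
    linear_combination hδ1
  have hxv : V.valuation x = 1 := by
    have k1 : V.valuation (1 - δ) = 1 := by
      rw [Valuation.map_sub_eq_of_lt_left _ (by simpa using hδv ▸ hε), map_one]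
    have := hV.valuation_const hw0
    rwa [hwx, map_mul, k1, mul_one] at this
  have hxwv : V.valuation (x - algebraMap ℂ K w) = V.valuation a⁻¹ := by
    have : x - algebraMap ℂ K w = x * δ := by rw [hwx]; ring
    rw [this, map_mul, hxv, hδv, one_mul]
  have hnear : Near V x w := by unfold Near; rw [hxwv]; exact hε
  have hT : (m : K) * tt w x = a - k - m := by rw [h1]; ring
  have hT' : (m : K) * (1 + tt w x) = a - k := by rw [h1]; ring
  refine ⟨w, m, k, hws, hm, hk, hnear, fun g => ?_, fun l => ?_, fun g hg => ?_, ?_,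
    fun g hg => ?_, fun g => ?_⟩
  · refine ⟨_, hV.PhiW_mem (wt g s) hr, ?_⟩
    rw [Phi, PhiW_split _ _ _ w, wt, hm, ← hT']
    ring
  · refine ⟨(l : K) ^ 2 * dPhiW (wt (ind l) s) (s.filter (· ≠ w)) x,
      V.mul_mem _ _ (pow_mem (hV.natCast_mem l) 2) (hV.dPhiW_mem _ hr), ?_⟩
    rw [dPhi, dPhiW_split _ _ _ w, wt, hm, ← hT, ← hT']
    by_cases hl : m = l
    · subst hl
      ring
    · simp [ind, hl]
  · rw [dPhi, dPhiW_split _ _ _ w, wt, hm, hg]
    simpa using hV.dPhiW_mem (wt g s) hr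
  · obtain ⟨y, hy⟩ : ∃ y : K, y = a⁻¹ * ((2 * k + m) - a⁻¹ * (k * (k + m) - m * e)) := ⟨_, rfl⟩
    have h2V : (2 : K) ∈ V := by exact_mod_cast hV.natCast_mem 2
    have q1 : 2 * k + m ∈ V := V.add_mem _ _ (V.mul_mem _ _ h2V hk) hmV
    have q2 : k * (k + m) - m * e ∈ V :=
      V.toSubring.sub_mem (V.mul_mem _ _ hk (V.add_mem _ _ hk hmV)) (V.mul_mem _ _ hmV he)
    obtain ⟨y0, yV⟩ := inv_one_sub_mem (V := V) (y := y) (hy ▸ val_mul_lt hε
      ((V.valuation_le_one_iff _).mpr (V.toSubring.sub_mem q1 (V.mul_mem _ _ hεV q2))))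
    have hχ : Chi s x = -(a ^ 2 * (1 - y)) / m := by
      rw [eq_div_iff hmK, h2, hy]
      have : (m : K) * -(tt w x * (1 + tt w x)) * m = -((a - k - m) * (a - k)) := by
        rw [← hT, ← hT']; ring
      rw [add_mul, this]
      field_simp
      ring
    refine ⟨-(m : K) * (-(k * (k + m) - m * e) + (2 * k + m) * ((2 * k + m) -
      a⁻¹ * (k * (k + m) - m * e))) * (1 - y)⁻¹, ?_, ?_⟩
    · exact V.mul_mem _ _ (V.mul_mem _ _ (V.neg_mem _ hmV) (V.add_mem _ _ (V.neg_mem _ q2)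
        (V.mul_mem _ _ q1 (V.toSubring.sub_mem q1 (V.mul_mem _ _ hεV q2))))) yV
    · rw [hχ]
      have k1 : a ^ 2 * (-(a ^ 2 * (1 - y)) / m)⁻¹ = -(m : K) * (1 - y)⁻¹ := by
        field_simp
      rw [k1]
      have k2 : (1 - y) * (1 - y)⁻¹ = 1 := mul_inv_cancel₀ y0
      generalize (1 - y)⁻¹ = u at *
      rw [hy] at k2
      linear_combination (-(m : K) * (1 + (2 * k + m) * a⁻¹)) * k2
  · obtain ⟨c, t, ht, e1⟩ := hV.taylor (wt g s) hx (hδv ▸ hε) hwx
      (fun w' hw' => (Multiset.mem_filter.mp hw').2) hr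
    have e2 : Phi g s x = PhiW (wt g s) (s.filter (· ≠ w)) x := by
      rw [Phi, PhiW_split _ _ _ w, wt, hm, hg]; simp
    have e3 : dPhi g s x = dPhiW (wt g s) (s.filter (· ≠ w)) x := by
      rw [dPhi, dPhiW_split _ _ _ w, wt, hm, hg]; simp
    have hd := hV.dPhiW_mem (wt g s) hr
    rw [← e2, ← e3] at e1
    rw [← e3] at hd
    refine ⟨c, m * k * (1 - a⁻¹ * k)⁻¹ * dPhi g s x + (m * (1 - a⁻¹ * k)⁻¹) ^ 2 * t, ?_, ?_⟩
    · exact V.add_mem _ _ (V.mul_mem _ _ (V.mul_mem _ _ (V.mul_mem _ _ hmV hk) uV) hd)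
        (V.mul_mem _ _ (pow_mem (V.mul_mem _ _ hmV uV) 2) ht)
    · rw [e1, hδ]
      have k2 : (1 - a⁻¹ * k) * (1 - a⁻¹ * k)⁻¹ = 1 := mul_inv_cancel₀ u0
      generalize (1 - a⁻¹ * k)⁻¹ = u at *
      linear_combination (m * a⁻¹ * dPhi g s x) * k2
  · rw [Pr, PrW_split _ _ _ w, map_mul, map_pow, hxwv, wt, hm,
      val_PrW_eq (θ := 1) _ fun w' hw' => ?_, one_pow, mul_one]
    exact (hnear.sub (near_const w')).val_eq_one hV
      (sub_ne_zero.mpr (Multiset.mem_filter.mp hw').2.symm)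

end Pool.Agent.Lib.MP_6db618_an
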