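import Mathlib
import Pool.Agent.Lib.MP_6db618_an.MT1

set_option autoImplicit false

namespace Pool.Agent.Lib.MP_6db618_an

variable {K : Type} [Field K] [Algebra ℂ K]

/-- Four branches with `x1 x2 = x3 x4`. -/
structure Quad (s1 s2 s3 s4 : Multiset ℂ) (a x1 x2 x3 x4 : K) : Prop where
  z1 : ∀ w ∈ s1, w ≠ 0
  z2 : ∀ w ∈ s2, w ≠ 0
  z3 : ∀ w ∈ s3, w ≠ 0
  z4 : ∀ w ∈ s4, w ≠ 0
  n1 : NC x1
  n2 : NC x2
  n3 : NC x3
  n4 : NC x4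
  na : NC a
  h1 : HH s1 x1 = a
  h2 : HH s2 x2 = a
  h3 : HH s3 x3 = a
  h4 : HH s4 x4 = a
  rel : x1 * x2 = x3 * x4

/-- A property of the four multiplicities at every place over `a = ∞`. -/
def AllEdges (s1 s2 s3 s4 : Multiset ℂ) (a x1 x2 x3 x4 : K) (P : ℕ → ℕ → ℕ → ℕ → Prop) : Prop :=
  ∀ V : ValuationSubring K, HasConst V → a ∉ V →
    ∀ (w1 w2 w3 w4 : ℂ) (m1 m2 m3 m4 : ℕ) (k1 k2 k3 k4 : K),
      LocD V s1 a x1 w1 m1 k1 → LocD V s2 a x2 w2 m2 k2 → LocD V s3 a x3 w3 m3 k3 →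
      LocD V s4 a x4 w4 m4 k4 → P m1 m2 m3 m4

theorem const_of_forall_mem {z : K} (h : ∀ V : ValuationSubring K, HasConst V → z ∈ V) :
    ∃ c : ℂ, z = algebraMap ℂ K c := by
  by_contra hcon
  push Not at hcon
  obtain ⟨V, hV, hz⟩ := NC.exists_valuationSubring hcon
  exact hz (h V hV)

theorem eq_zero_of_forall_mem {z : K} (h : ∀ V : ValuationSubring K, HasConst V → z ∈ V)
    {W : ValuationSubring K} (hW : HasConst W) (h0 : Near W z 0) : z = 0 := by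
  obtain ⟨c, hc⟩ := const_of_forall_mem h
  have : c = 0 := Near.unique hW (hc ▸ near_const c) h0
  rw [hc, this, map_zero]

theorem HH_eq_PhiW (s : Multiset ℂ) (z : K) : HH s z = PhiW (fun _ => 1) s z := by
  simp [HH, PhiW]

theorem deriv_eq_inv_Chi {D : Derivation ℂ K K} {s : Multiset ℂ} {a x : K} (hx : NC x)
    (h : HH s x = a) (hD : D a = 1) : Chi s x ≠ 0 ∧ D x / x = (Chi s x)⁻¹ := by
  have e1 := deriv_HH D hx s
  rw [h, hD] at e1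
  exact ⟨left_ne_zero_of_mul_eq_one e1.symm, (inv_eq_of_mul_eq_one_right e1.symm).symm⟩

namespace Quad

variable {s1 s2 s3 s4 : Multiset ℂ} {a x1 x2 x3 x4 : K}

theorem swap34 (Q : Quad s1 s2 s3 s4 a x1 x2 x3 x4) : Quad s1 s2 s4 s3 a x1 x2 x4 x3 :=
  ⟨Q.z1, Q.z2, Q.z4, Q.z3, Q.n1, Q.n2, Q.n4, Q.n3, Q.na, Q.h1, Q.h2, Q.h4, Q.h3,
    Q.rel.trans (mul_comm _ _)⟩

theorem swapLR (Q : Quad s1 s2 s3 s4 a x1 x2 x3 x4) : Quad s3 s4 s1 s2 a x3 x4 x1 x2 :=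
  ⟨Q.z3, Q.z4, Q.z1, Q.z2, Q.n3, Q.n4, Q.n1, Q.n2, Q.na, Q.h3, Q.h4, Q.h1, Q.h2, Q.rel.symm⟩

theorem chi_ne (Q : Quad s1 s2 s3 s4 a x1 x2 x3 x4) :
    Chi s1 x1 ≠ 0 ∧ Chi s2 x2 ≠ 0 ∧ Chi s3 x3 ≠ 0 ∧ Chi s4 x4 ≠ 0 := by
  obtain ⟨D, hD⟩ := Q.na.exists_derivation
  exact ⟨(deriv_eq_inv_Chi Q.n1 Q.h1 hD).1, (deriv_eq_inv_Chi Q.n2 Q.h2 hD).1,
    (deriv_eq_inv_Chi Q.n3 Q.h3 hD).1, (deriv_eq_inv_Chi Q.n4 Q.h4 hD).1⟩

theorem Fsum (Q : Quad s1 s2 s3 s4 a x1 x2 x3 x4) :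
    (Chi s1 x1)⁻¹ + (Chi s2 x2)⁻¹ = (Chi s3 x3)⁻¹ + (Chi s4 x4)⁻¹ := by
  obtain ⟨D, hD⟩ := Q.na.exists_derivation
  rw [← (deriv_eq_inv_Chi Q.n1 Q.h1 hD).2, ← (deriv_eq_inv_Chi Q.n2 Q.h2 hD).2,
    ← (deriv_eq_inv_Chi Q.n3 Q.h3 hD).2, ← (deriv_eq_inv_Chi Q.n4 Q.h4 hD).2,
    ← deriv_mul_div D Q.n1.ne_zero Q.n2.ne_zero, ← deriv_mul_div D Q.n3.ne_zero Q.n4.ne_zero, Q.rel]

theorem edge (Q : Quad s1 s2 s3 s4 a x1 x2 x3 x4) {V : ValuationSubring K} (hV : HasConst V)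
    (ha : a ∉ V) {w1 w2 w3 w4 : ℂ} {m1 m2 m3 m4 : ℕ} {k1 k2 k3 k4 : K}
    (L1 : LocD V s1 a x1 w1 m1 k1) (L2 : LocD V s2 a x2 w2 m2 k2) (L3 : LocD V s3 a x3 w3 m3 k3)
    (L4 : LocD V s4 a x4 w4 m4 k4) :
    w1 * w2 = w3 * w4 ∧ m1 + m2 = m3 + m4 ∧
      a * (m1 * (2 * k1 + m1) + m2 * (2 * k2 + m2) - m3 * (2 * k3 + m3) - m4 * (2 * k4 + m4)) ∈ V := by
  have ha0 : a ≠ 0 := Q.na.ne_zero
  have hεV : a⁻¹ ∈ V := (V.mem_or_inv_mem a).resolve_left ha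
  obtain ⟨t1, ht1, e1⟩ := L1.FF
  obtain ⟨t2, ht2, e2⟩ := L2.FF
  obtain ⟨t3, ht3, e3⟩ := L3.FF
  obtain ⟨t4, ht4, e4⟩ := L4.FF
  have hF := Q.Fsum
  have hε : a * a⁻¹ = 1 := mul_inv_cancel₀ ha0
  have hk1 := L1.hk
  have hk2 := L2.hk
  have hk3 := L3.hk
  have hk4 := L4.hk
  have hm1 := hV.natCast_mem m1
  have hm2 := hV.natCast_mem m2
  have hm3 := hV.natCast_mem m3
  have hm4 := hV.natCast_mem m4
  have h2V : (2 : K) ∈ V := by exact_mod_cast hV.natCast_mem 2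
  generalize a⁻¹ = ε at *
  have key : -((m1 : K) + m2 - m3 - m4) - ε * (m1 * (2 * k1 + m1) + m2 * (2 * k2 + m2) -
      m3 * (2 * k3 + m3) - m4 * (2 * k4 + m4)) + ε ^ 2 * (t1 + t2 - t3 - t4) = 0 := by
    linear_combination a ^ 2 * hF - e1 - e2 + e3 + e4
  have hm : ((m1 : ℂ) + m2 - m3 - m4) = 0 := by
    refine hV.const_eq_zero ha (b := -(m1 * (2 * k1 + m1) + m2 * (2 * k2 + m2) -
      m3 * (2 * k3 + m3) - m4 * (2 * k4 + m4)) + ε * (t1 + t2 - t3 - t4)) ?_ ?_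
    · change _ ∈ V.toSubring
      change _ ∈ V.toSubring at hk1 hk2 hk3 hk4 hm1 hm2 hm3 hm4 h2V ht1 ht2 ht3 ht4 hεV
      with_reducible repeat' first
        | assumption
        | apply Subring.sub_mem
        | apply Subring.add_mem
        | apply Subring.mul_mem
        | apply Subring.neg_mem
    · simp only [map_sub, map_add, map_natCast]
      linear_combination (-a) * key + (-(m1 * (2 * k1 + m1) + m2 * (2 * k2 + m2) -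
        m3 * (2 * k3 + m3) - m4 * (2 * k4 + m4)) + ε * (t1 + t2 - t3 - t4)) * hε
  have hm' : m1 + m2 = m3 + m4 := by
    have : ((m1 + m2 : ℕ) : ℂ) = ((m3 + m4 : ℕ) : ℂ) := by push_cast; linear_combination hm
    exact_mod_cast this
  refine ⟨Near.unique hV (L1.near.mul hV L2.near) (Q.rel ▸ L3.near.mul hV L4.near), hm', ?_⟩
  have hmK : (m1 : K) + m2 = m3 + m4 := by exact_mod_cast congrArg (Nat.cast : ℕ → K) hm'
  have : a * (m1 * (2 * k1 + m1) + m2 * (2 * k2 + m2) - m3 * (2 * k3 + m3) - m4 * (2 * k4 + m4)) =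
      t1 + t2 - t3 - t4 := by
    linear_combination (-a ^ 2) * key - a ^ 2 * hmK + ((t1 + t2 - t3 - t4) * (a * ε + 1) -
      a * (m1 * (2 * k1 + m1) + m2 * (2 * k2 + m2) - m3 * (2 * k3 + m3) - m4 * (2 * k4 + m4))) * hε
  rw [this]
  exact V.toSubring.sub_mem (V.toSubring.sub_mem (V.add_mem _ _ ht1 ht2) ht3) ht4

theorem not_lt_of_one_lt {V : ValuationSubring K} (hV : HasConst V) {s t : Multiset ℂ} {x y : K}
    (ha : NC a) (ht : ∀ w ∈ t, w ≠ 0) (hx : HH s x = a) (hy : HH t y = a)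
    (h : 1 < V.valuation x) : 1 ≤ V.valuation y := by
  by_contra hcon
  have k1 := hV.near_PhiW_infty (fun _ => 1) h s
  have k2 := hV.near_PhiW_zero (fun _ => 1) (not_le.mp hcon) ht
  rw [← HH_eq_PhiW, hx] at k1
  rw [← HH_eq_PhiW, hy] at k2
  have k3 := Near.unique hV k1 k2
  have k4 : s = 0 := by simpa using k3
  subst k4
  exact ha.ne_zero (by rw [← hx]; simp [HH])

theorem maxrel (Q : Quad s1 s2 s3 s4 a x1 x2 x3 x4) {V : ValuationSubring K} (hV : HasConst V) :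
    max 1 (V.valuation x1) * max 1 (V.valuation x2) =
      max 1 (V.valuation x3) * max 1 (V.valuation x4) := by
  have key : ∀ {s : Multiset ℂ} {x : K}, HH s x = a → 1 < V.valuation x →
      max 1 (V.valuation x1) * max 1 (V.valuation x2) =
        max 1 (V.valuation x3) * max 1 (V.valuation x4) := by
    intro s x hx h
    rw [max_eq_right (not_lt_of_one_lt hV Q.na Q.z1 hx Q.h1 h),
      max_eq_right (not_lt_of_one_lt hV Q.na Q.z2 hx Q.h2 h),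
      max_eq_right (not_lt_of_one_lt hV Q.na Q.z3 hx Q.h3 h),
      max_eq_right (not_lt_of_one_lt hV Q.na Q.z4 hx Q.h4 h), ← map_mul, ← map_mul, Q.rel]
  rcases le_or_gt (V.valuation x1) 1 with g1 | g1
  swap
  · exact key Q.h1 g1
  rcases le_or_gt (V.valuation x2) 1 with g2 | g2
  swap
  · exact key Q.h2 g2
  rcases le_or_gt (V.valuation x3) 1 with g3 | g3
  swap
  · exact key Q.h3 g3
  rcases le_or_gt (V.valuation x4) 1 with g4 | g4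
  swap
  · exact key Q.h4 g4
  rw [max_eq_left g1, max_eq_left g2, max_eq_left g3, max_eq_left g4]

theorem prod_const (Q : Quad s1 s2 s3 s4 a x1 x2 x3 x4) (g : ℕ → ℕ) (N12 : Ng g s1 = Ng g s2)
    (N34 : Ng g s3 = Ng g s4) (N31 : Ng g s3 ≤ Ng g s1)
    (hE : AllEdges s1 s2 s3 s4 a x1 x2 x3 x4
      fun m1 m2 m3 m4 => m1 * g m1 + m2 * g m2 ≤ m3 * g m3 + m4 * g m4) :
    ∃ c : ℂ, c ≠ 0 ∧ Pr g s3 x3 * Pr g s4 x4 = algebraMap ℂ K c * (Pr g s1 x1 * Pr g s2 x2) := by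
  have p12 : Pr g s1 x1 * Pr g s2 x2 ≠ 0 :=
    mul_ne_zero (PrW_ne_zero _ _ Q.n1) (PrW_ne_zero _ _ Q.n2)
  have p34 : Pr g s3 x3 * Pr g s4 x4 ≠ 0 :=
    mul_ne_zero (PrW_ne_zero _ _ Q.n3) (PrW_ne_zero _ _ Q.n4)
  obtain ⟨c, hc⟩ := const_of_forall_mem
    (z := Pr g s3 x3 * Pr g s4 x4 / (Pr g s1 x1 * Pr g s2 x2)) (by
      intro V hV
      rw [← V.valuation_le_one_iff, map_div₀]
      refine div_le_one_of_le₀ ?_ zero_le
      rw [map_mul, map_mul]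
      by_cases ha : a ∈ V
      · rw [hV.val_Pr_of_mem g Q.n1 Q.z1 (Q.h1 ▸ ha), hV.val_Pr_of_mem g Q.n2 Q.z2 (Q.h2 ▸ ha),
          hV.val_Pr_of_mem g Q.n3 Q.z3 (Q.h3 ▸ ha), hV.val_Pr_of_mem g Q.n4 Q.z4 (Q.h4 ▸ ha),
          ← N12, ← N34, ← mul_pow, ← mul_pow, Q.maxrel hV]
        exact pow_le_pow_right₀ (one_le_mul (le_max_left _ _) (le_max_left _ _)) N31
      · obtain ⟨w1, m1, k1, L1⟩ := hV.exists_locD Q.n1 Q.h1 ha
        obtain ⟨w2, m2, k2, L2⟩ := hV.exists_locD Q.n2 Q.h2 ha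
        obtain ⟨w3, m3, k3, L3⟩ := hV.exists_locD Q.n3 Q.h3 ha
        obtain ⟨w4, m4, k4, L4⟩ := hV.exists_locD Q.n4 Q.h4 ha
        rw [L1.prod, L2.prod, L3.prod, L4.prod, ← pow_add, ← pow_add]
        exact pow_le_pow_of_le_one zero_le (val_inv_lt_one ha).le
          (hE V hV ha _ _ _ _ _ _ _ _ _ _ _ _ L1 L2 L3 L4))
  have hc' : Pr g s3 x3 * Pr g s4 x4 = algebraMap ℂ K c * (Pr g s1 x1 * Pr g s2 x2) := by
    rw [← hc, div_mul_cancel₀ _ p12]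
  refine ⟨c, ?_, hc'⟩
  rintro rfl
  rw [map_zero, zero_mul] at hc'
  exact p34 hc'

theorem relB_of_const (Q : Quad s1 s2 s3 s4 a x1 x2 x3 x4) {g : ℕ → ℕ} {c : ℂ} (hc : c ≠ 0)
    (h : Pr g s3 x3 * Pr g s4 x4 = algebraMap ℂ K c * (Pr g s1 x1 * Pr g s2 x2)) :
    Phi g s1 x1 * (Chi s1 x1)⁻¹ + Phi g s2 x2 * (Chi s2 x2)⁻¹ =
      Phi g s3 x3 * (Chi s3 x3)⁻¹ + Phi g s4 x4 * (Chi s4 x4)⁻¹ := by
  obtain ⟨D, hD⟩ := Q.na.exists_derivation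
  have p1 : Pr g s1 x1 ≠ 0 := PrW_ne_zero _ _ Q.n1
  have p2 : Pr g s2 x2 ≠ 0 := PrW_ne_zero _ _ Q.n2
  have p3 : Pr g s3 x3 ≠ 0 := PrW_ne_zero _ _ Q.n3
  have p4 : Pr g s4 x4 ≠ 0 := PrW_ne_zero _ _ Q.n4
  have e1 := deriv_mul_div D p3 p4
  rw [h, deriv_mul_div D ((_root_.map_ne_zero _).mpr hc) (mul_ne_zero p1 p2), D.map_algebraMap,
    zero_div, zero_add, deriv_mul_div D p1 p2] at e1
  unfold Pr at e1
  rw [deriv_PrW D _ _ Q.n1, deriv_PrW D _ _ Q.n2, deriv_PrW D _ _ Q.n3, deriv_PrW D _ _ Q.n4,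
    (deriv_eq_inv_Chi Q.n1 Q.h1 hD).2, (deriv_eq_inv_Chi Q.n2 Q.h2 hD).2,
    (deriv_eq_inv_Chi Q.n3 Q.h3 hD).2, (deriv_eq_inv_Chi Q.n4 Q.h4 hD).2] at e1
  exact e1

theorem edges_eq_of_const (Q : Quad s1 s2 s3 s4 a x1 x2 x3 x4) {g : ℕ → ℕ} {c : ℂ} (hc : c ≠ 0)
    (h : Pr g s3 x3 * Pr g s4 x4 = algebraMap ℂ K c * (Pr g s1 x1 * Pr g s2 x2)) :
    AllEdges s1 s2 s3 s4 a x1 x2 x3 x4
      fun m1 m2 m3 m4 => m1 * g m1 + m2 * g m2 = m3 * g m3 + m4 * g m4 := by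
  intro V hV ha w1 w2 w3 w4 m1 m2 m3 m4 k1 k2 k3 k4 L1 L2 L3 L4
  have e := congrArg V.valuation h
  rw [map_mul, map_mul, map_mul, hV.valuation_const hc, one_mul, L1.prod, L2.prod, L3.prod,
    L4.prod, ← pow_add, ← pow_add] at e
  exact (val_pow_inj ((Valuation.ne_zero_iff _).mpr (inv_ne_zero Q.na.ne_zero))
    (val_inv_lt_one ha) e).symm

/-- Without nested quadruples in one direction, the multiplicities match at every place. -/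
theorem mt_of_nonNested (Q : Quad s1 s2 s3 s4 a x1 x2 x3 x4) (N12 : Ng id s1 = Ng id s2)
    (N34 : Ng id s3 = Ng id s4) (N31 : Ng id s3 ≤ Ng id s1)
    (hN : ∀ w1 ∈ s1, ∀ w2 ∈ s2, ∀ w3 ∈ s3, ∀ w4 ∈ s4, w1 * w2 = w3 * w4 →
      s1.count w1 + s2.count w2 = s3.count w3 + s4.count w4 →
      min (s3.count w3) (s4.count w4) ≤ min (s1.count w1) (s2.count w2)) :
    AllEdges s1 s2 s3 s4 a x1 x2 x3 x4
      fun m1 m2 m3 m4 => (m1 = m3 ∧ m2 = m4) ∨ (m1 = m4 ∧ m2 = m3) := by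
  obtain ⟨c, hc, h⟩ := Q.prod_const id N12 N34 N31 (by
    intro V hV ha w1 w2 w3 w4 m1 m2 m3 m4 k1 k2 k3 k4 L1 L2 L3 L4
    obtain ⟨e1, e2, -⟩ := Q.edge hV ha L1 L2 L3 L4
    have e3 := hN w1 L1.mem w2 L2.mem w3 L3.mem w4 L4.mem e1
      (by rw [L1.cnt, L2.cnt, L3.cnt, L4.cnt]; exact e2)
    rw [L1.cnt, L2.cnt, L3.cnt, L4.cnt] at e3
    simp only [id]
    rcases le_total m3 m4 with g | g
    · rw [min_eq_left g, le_min_iff] at e3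
      obtain ⟨u, rfl⟩ := Nat.exists_eq_add_of_le e3.1
      obtain ⟨v, rfl⟩ := Nat.exists_eq_add_of_le e3.2
      obtain rfl : m4 = m3 + u + v := by omega
      nlinarith [Nat.zero_le (u * v)]
    · rw [min_eq_right g, le_min_iff] at e3
      obtain ⟨u, rfl⟩ := Nat.exists_eq_add_of_le e3.1
      obtain ⟨v, rfl⟩ := Nat.exists_eq_add_of_le e3.2
      obtain rfl : m3 = m4 + u + v := by omega
      nlinarith [Nat.zero_le (u * v)])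
  intro V hV ha w1 w2 w3 w4 m1 m2 m3 m4 k1 k2 k3 k4 L1 L2 L3 L4
  obtain ⟨-, e2, -⟩ := Q.edge hV ha L1 L2 L3 L4
  have e3 := Q.edges_eq_of_const hc h V hV ha _ _ _ _ _ _ _ _ _ _ _ _ L1 L2 L3 L4
  simp only [id] at e3
  have e4 : ((m1 : ℤ) - m3) * (m1 - m4) = 0 := by
    have f2 : (m1 : ℤ) + m2 = m3 + m4 := by exact_mod_cast e2
    have f3 : (m1 : ℤ) * m1 + m2 * m2 = m3 * m3 + m4 * m4 := by exact_mod_cast e3
    have f4 : (m2 : ℤ) = m3 + m4 - m1 := by linarith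
    rw [f4] at f3
    linarith
  rcases mul_eq_zero.mp e4 with e5 | e5
  · left; omega
  · right; omega

/-- The sum `∑ ± Phi id` has no poles, whatever the multiplicities are. -/
theorem phi_id_const (Q : Quad s1 s2 s3 s4 a x1 x2 x3 x4) :
    ∃ c : ℂ, Phi id s1 x1 + Phi id s2 x2 - Phi id s3 x3 - Phi id s4 x4 = algebraMap ℂ K c := by
  refine const_of_forall_mem fun V hV => ?_
  by_cases ha : a ∈ V
  · exact V.toSubring.sub_mem (V.toSubring.sub_mem (V.add_mem _ _ (hV.Phi_mem _ (Q.h1 ▸ ha))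
      (hV.Phi_mem _ (Q.h2 ▸ ha))) (hV.Phi_mem _ (Q.h3 ▸ ha))) (hV.Phi_mem _ (Q.h4 ▸ ha))
  obtain ⟨w1, m1, k1, L1⟩ := hV.exists_locD Q.n1 Q.h1 ha
  obtain ⟨w2, m2, k2, L2⟩ := hV.exists_locD Q.n2 Q.h2 ha
  obtain ⟨w3, m3, k3, L3⟩ := hV.exists_locD Q.n3 Q.h3 ha
  obtain ⟨w4, m4, k4, L4⟩ := hV.exists_locD Q.n4 Q.h4 ha
  obtain ⟨-, e2, -⟩ := Q.edge hV ha L1 L2 L3 L4
  have hmK : (m1 : K) + m2 = m3 + m4 := by exact_mod_cast congrArg (Nat.cast : ℕ → K) e2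
  obtain ⟨j1, hj1, f1⟩ := L1.phi id
  obtain ⟨j2, hj2, f2⟩ := L2.phi id
  obtain ⟨j3, hj3, f3⟩ := L3.phi id
  obtain ⟨j4, hj4, f4⟩ := L4.phi id
  simp only [id] at f1 f2 f3 f4
  have : Phi id s1 x1 + Phi id s2 x2 - Phi id s3 x3 - Phi id s4 x4 =
      j1 + j2 - j3 - j4 - (m1 * k1 + m2 * k2 - m3 * k3 - m4 * k4) := by
    rw [f1, f2, f3, f4]
    linear_combination a * hmK
  rw [this]
  have hk1 := L1.hk
  have hk2 := L2.hk
  have hk3 := L3.hk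
  have hk4 := L4.hk
  have hm1 := hV.natCast_mem m1
  have hm2 := hV.natCast_mem m2
  have hm3 := hV.natCast_mem m3
  have hm4 := hV.natCast_mem m4
  change _ ∈ V.toSubring
  change _ ∈ V.toSubring at hk1 hk2 hk3 hk4 hm1 hm2 hm3 hm4 hj1 hj2 hj3 hj4
  with_reducible repeat' first
    | assumption
    | apply Subring.sub_mem
    | apply Subring.add_mem
    | apply Subring.mul_mem

end Quad

end Pool.Agent.Lib.MP_6db618_an
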