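import Mathlib
import Pool.Agent.Lib.MP_6db618_an.MT2

set_option autoImplicit false

namespace Pool.Agent.Lib.MP_6db618_an

variable {K : Type} [Field K] [Algebra ℂ K]

/-- Four branches whose multiplicities match at every place, with both ratios non-constant. -/
structure MTD (s1 s2 s3 s4 : Multiset ℂ) (a x1 x2 x3 x4 : K) : Prop where
  Q : Quad s1 s2 s3 s4 a x1 x2 x3 x4
  mt : AllEdges s1 s2 s3 s4 a x1 x2 x3 x4
    fun m1 m2 m3 m4 => (m1 = m3 ∧ m2 = m4) ∨ (m1 = m4 ∧ m2 = m3)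
  relA : ∀ g : ℕ → ℕ, Phi g s1 x1 + Phi g s2 x2 = Phi g s3 x3 + Phi g s4 x4
  relUV : ∀ g : ℕ → ℕ, (Phi g s1 x1 - Phi g s3 x3) * ((Chi s1 x1)⁻¹ - (Chi s4 x4)⁻¹) +
    (Phi g s1 x1 - Phi g s4 x4) * ((Chi s1 x1)⁻¹ - (Chi s3 x3)⁻¹) = 0
  fu : (Chi s1 x1)⁻¹ - (Chi s3 x3)⁻¹ ≠ 0
  fv : (Chi s1 x1)⁻¹ - (Chi s4 x4)⁻¹ ≠ 0

variable {s1 s2 s3 s4 : Multiset ℂ} {a x1 x2 x3 x4 : K}

theorem Quad.relA_of_mt (Q : Quad s1 s2 s3 s4 a x1 x2 x3 x4)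
    (mt : AllEdges s1 s2 s3 s4 a x1 x2 x3 x4
      fun m1 m2 m3 m4 => (m1 = m3 ∧ m2 = m4) ∨ (m1 = m4 ∧ m2 = m3))
    {W : ValuationSubring K} (hW : HasConst W) (v1 : W.valuation x1 < 1) (v2 : W.valuation x2 < 1)
    (v3 : W.valuation x3 < 1) (v4 : W.valuation x4 < 1) (g : ℕ → ℕ) :
    Phi g s1 x1 + Phi g s2 x2 = Phi g s3 x3 + Phi g s4 x4 := by
  have : Phi g s1 x1 + Phi g s2 x2 - Phi g s3 x3 - Phi g s4 x4 = 0 := by
    refine eq_zero_of_forall_mem (fun V hV => ?_) hW ?_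
    · by_cases ha : a ∈ V
      · exact V.toSubring.sub_mem (V.toSubring.sub_mem (V.add_mem _ _ (hV.Phi_mem _ (Q.h1 ▸ ha))
          (hV.Phi_mem _ (Q.h2 ▸ ha))) (hV.Phi_mem _ (Q.h3 ▸ ha))) (hV.Phi_mem _ (Q.h4 ▸ ha))
      obtain ⟨w1, m1, k1, L1⟩ := hV.exists_locD Q.n1 Q.h1 ha
      obtain ⟨w2, m2, k2, L2⟩ := hV.exists_locD Q.n2 Q.h2 ha
      obtain ⟨w3, m3, k3, L3⟩ := hV.exists_locD Q.n3 Q.h3 ha
      obtain ⟨w4, m4, k4, L4⟩ := hV.exists_locD Q.n4 Q.h4 ha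
      have e : (g m1 : K) + g m2 = g m3 + g m4 := by
        rcases mt V hV ha _ _ _ _ _ _ _ _ _ _ _ _ L1 L2 L3 L4 with ⟨rfl, rfl⟩ | ⟨rfl, rfl⟩
        · rfl
        · ring
      obtain ⟨j1, hj1, f1⟩ := L1.phi g
      obtain ⟨j2, hj2, f2⟩ := L2.phi g
      obtain ⟨j3, hj3, f3⟩ := L3.phi g
      obtain ⟨j4, hj4, f4⟩ := L4.phi g
      have : Phi g s1 x1 + Phi g s2 x2 - Phi g s3 x3 - Phi g s4 x4 =
          j1 + j2 - j3 - j4 - (g m1 * k1 + g m2 * k2 - g m3 * k3 - g m4 * k4) := by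
        rw [f1, f2, f3, f4]
        linear_combination a * e
      rw [this]
      have hk1 := L1.hk
      have hk2 := L2.hk
      have hk3 := L3.hk
      have hk4 := L4.hk
      have hm1 := hV.natCast_mem (g m1)
      have hm2 := hV.natCast_mem (g m2)
      have hm3 := hV.natCast_mem (g m3)
      have hm4 := hV.natCast_mem (g m4)
      change _ ∈ V.toSubring
      change _ ∈ V.toSubring at hk1 hk2 hk3 hk4 hm1 hm2 hm3 hm4 hj1 hj2 hj3 hj4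
      with_reducible repeat' first
        | assumption
        | apply Subring.sub_mem
        | apply Subring.add_mem
        | apply Subring.mul_mem
    · exact ((((hW.near_PhiW_zero _ v1 Q.z1).add (hW.near_PhiW_zero _ v2 Q.z2)).sub
        (hW.near_PhiW_zero _ v3 Q.z3)).sub (hW.near_PhiW_zero _ v4 Q.z4)).congr rfl (by simp)
  linear_combination this

theorem Quad.relB_of_mt (Q : Quad s1 s2 s3 s4 a x1 x2 x3 x4)
    (mt : AllEdges s1 s2 s3 s4 a x1 x2 x3 x4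
      fun m1 m2 m3 m4 => (m1 = m3 ∧ m2 = m4) ∨ (m1 = m4 ∧ m2 = m3)) (g : ℕ → ℕ)
    (N12 : Ng g s1 = Ng g s2) (N34 : Ng g s3 = Ng g s4) :
    Phi g s1 x1 * (Chi s1 x1)⁻¹ + Phi g s2 x2 * (Chi s2 x2)⁻¹ =
      Phi g s3 x3 * (Chi s3 x3)⁻¹ + Phi g s4 x4 * (Chi s4 x4)⁻¹ := by
  rcases le_total (Ng g s3) (Ng g s1) with h | h
  · obtain ⟨c, hc, e⟩ := Q.prod_const g N12 N34 h (by
      intro V hV ha w1 w2 w3 w4 m1 m2 m3 m4 k1 k2 k3 k4 L1 L2 L3 L4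
      rcases mt V hV ha _ _ _ _ _ _ _ _ _ _ _ _ L1 L2 L3 L4 with ⟨rfl, rfl⟩ | ⟨rfl, rfl⟩
      · exact le_rfl
      · exact (add_comm _ _).le)
    exact Q.relB_of_const hc e
  · obtain ⟨c, hc, e⟩ := Q.swapLR.prod_const g N34 N12 h (by
      intro V hV ha w3 w4 w1 w2 m3 m4 m1 m2 k3 k4 k1 k2 L3 L4 L1 L2
      rcases mt V hV ha _ _ _ _ _ _ _ _ _ _ _ _ L1 L2 L3 L4 with ⟨rfl, rfl⟩ | ⟨rfl, rfl⟩
      · exact le_rfl
      · exact (add_comm _ _).le)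
    exact (Q.swapLR.relB_of_const hc e).symm

theorem Quad.mtd (Q : Quad s1 s2 s3 s4 a x1 x2 x3 x4)
    (mt : AllEdges s1 s2 s3 s4 a x1 x2 x3 x4
      fun m1 m2 m3 m4 => (m1 = m3 ∧ m2 = m4) ∨ (m1 = m4 ∧ m2 = m3))
    {W : ValuationSubring K} (hW : HasConst W) (v1 : W.valuation x1 < 1) (v2 : W.valuation x2 < 1)
    (v3 : W.valuation x3 < 1) (v4 : W.valuation x4 < 1)
    (N12 : ∀ g, Ng g s1 = Ng g s2) (N34 : ∀ g, Ng g s3 = Ng g s4)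
    (fu : (Chi s1 x1)⁻¹ - (Chi s3 x3)⁻¹ ≠ 0) (fv : (Chi s1 x1)⁻¹ - (Chi s4 x4)⁻¹ ≠ 0) :
    MTD s1 s2 s3 s4 a x1 x2 x3 x4 := by
  refine ⟨Q, mt, Q.relA_of_mt mt hW v1 v2 v3 v4, fun g => ?_, fu, fv⟩
  have eA := Q.relA_of_mt mt hW v1 v2 v3 v4 g
  have eB := Q.relB_of_mt mt g (N12 g) (N34 g)
  have eF := Q.Fsum
  generalize (Chi s1 x1)⁻¹ = F1 at *
  generalize (Chi s2 x2)⁻¹ = F2 at *
  generalize (Chi s3 x3)⁻¹ = F3 at *
  generalize (Chi s4 x4)⁻¹ = F4 at *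
  generalize Phi g s1 x1 = P1 at *
  generalize Phi g s2 x2 = P2 at *
  generalize Phi g s3 x3 = P3 at *
  generalize Phi g s4 x4 = P4 at *
  obtain rfl : F2 = F3 + F4 - F1 := by linear_combination eF
  obtain rfl : P2 = P3 + P4 - P1 := by linear_combination eA
  linear_combination eB

namespace MTD

theorem swap34 (M : MTD s1 s2 s3 s4 a x1 x2 x3 x4) : MTD s1 s2 s4 s3 a x1 x2 x4 x3 := by
  refine ⟨M.Q.swap34, ?_, fun g => (M.relA g).trans (add_comm _ _),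
    fun g => (add_comm _ _).trans (M.relUV g), M.fv, M.fu⟩
  intro V hV ha w1 w2 w4 w3 m1 m2 m4 m3 k1 k2 k4 k3 L1 L2 L4 L3
  exact (M.mt V hV ha _ _ _ _ _ _ _ _ _ _ _ _ L1 L2 L3 L4).symm

theorem sym (M : MTD s1 s2 s3 s4 a x1 x2 x3 x4) (g h : ℕ → ℕ) :
    (Phi g s1 x1 - Phi g s3 x3) * (Phi h s1 x1 - Phi h s4 x4) =
      (Phi g s1 x1 - Phi g s4 x4) * (Phi h s1 x1 - Phi h s3 x3) := by
  refine mul_right_cancel₀ M.fu ?_
  linear_combination (Phi g s1 x1 - Phi g s3 x3) * M.relUV h -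
    (Phi h s1 x1 - Phi h s3 x3) * M.relUV g

theorem loc (M : MTD s1 s2 s3 s4 a x1 x2 x3 x4) {V : ValuationSubring K} (hV : HasConst V)
    (ha : a ∉ V) {w1 w3 w4 : ℂ} {μ ν : ℕ} {k1 k3 k4 : K}
    (L1 : LocD V s1 a x1 w1 μ k1) (L3 : LocD V s3 a x3 w3 μ k3) (L4 : LocD V s4 a x4 w4 ν k4)
    (g : ℕ → ℕ) :
    Phi g s1 x1 - Phi g s3 x3 ∈ V ∧
      (∃ j : K, j ∈ V ∧ Phi g s1 x1 - Phi g s4 x4 = ((g μ : K) - g ν) * a + j) ∧
      ∃ t : K, t ∈ V ∧ ((μ : K) - ν) * (Phi g s1 x1 - Phi g s3 x3) =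
        -(2 * μ * (k1 - k3) * ((g μ : K) - g ν)) + a⁻¹ * t := by
  have ha0 : a ≠ 0 := M.Q.na.ne_zero
  have hεV : a⁻¹ ∈ V := (V.mem_or_inv_mem a).resolve_left ha
  have hε : a * a⁻¹ = 1 := mul_inv_cancel₀ ha0
  obtain ⟨t1, ht1, e1⟩ := L1.FF
  obtain ⟨t3, ht3, e3⟩ := L3.FF
  obtain ⟨t4, ht4, e4⟩ := L4.FF
  obtain ⟨j1, hj1, f1⟩ := L1.phi g
  obtain ⟨j3, hj3, f3⟩ := L3.phi g
  obtain ⟨j4, hj4, f4⟩ := L4.phi g
  have hk1 := L1.hk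
  have hk3 := L3.hk
  have hk4 := L4.hk
  have hm1 := hV.natCast_mem μ
  have hm2 := hV.natCast_mem ν
  have hg1 := hV.natCast_mem (g μ)
  have hg2 := hV.natCast_mem (g ν)
  have h2V : (2 : K) ∈ V := by exact_mod_cast hV.natCast_mem 2
  have hUV := M.relUV g
  generalize a⁻¹ = ε at *
  have hU : Phi g s1 x1 - Phi g s3 x3 ∈ V := by
    have : Phi g s1 x1 - Phi g s3 x3 = j1 - j3 - g μ * (k1 - k3) := by rw [f1, f3]; ring
    rw [this]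
    exact V.toSubring.sub_mem (V.toSubring.sub_mem hj1 hj3)
      (V.mul_mem _ _ hg1 (V.toSubring.sub_mem hk1 hk3))
  obtain ⟨j, hj, fj⟩ : ∃ j : K, j ∈ V ∧ Phi g s1 x1 - Phi g s4 x4 = ((g μ : K) - g ν) * a + j := by
    refine ⟨j1 - j4 - (g μ * k1 - g ν * k4), ?_, by rw [f1, f4]; ring⟩
    exact V.toSubring.sub_mem (V.toSubring.sub_mem hj1 hj4)
      (V.toSubring.sub_mem (V.mul_mem _ _ hg1 hk1) (V.mul_mem _ _ hg2 hk4))
  refine ⟨hU, ⟨j, hj, fj⟩, ?_⟩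
  rw [fj] at hUV
  generalize Phi g s1 x1 - Phi g s3 x3 = U at *
  refine ⟨(-(μ * (2 * k1 + μ)) + ν * (2 * k4 + ν) + ε * (t1 - t4)) * U - 2 * μ * (k1 - k3) * j +
    ((g μ : K) - g ν) * (t1 - t3) + ε * j * (t1 - t3), ?_, ?_⟩
  · change _ ∈ V.toSubring
    change _ ∈ V.toSubring at hk1 hk3 hk4 hm1 hm2 hg1 hg2 h2V ht1 ht3 ht4 hεV hU hj
    with_reducible repeat' first
      | assumption
      | apply Subring.sub_mem
      | apply Subring.add_mem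
      | apply Subring.mul_mem
      | apply Subring.neg_mem
  · linear_combination (-a ^ 2) * hUV + U * (e1 - e4) + (((g μ : K) - g ν) * a + j) * (e1 - e3) +
      (((g μ : K) - g ν) * (-(2 * μ * (k1 - k3)) + ε * (t1 - t3))) * hε

theorem relC_loc (M : MTD s1 s2 s3 s4 a x1 x2 x3 x4) {V : ValuationSubring K} (hV : HasConst V)
    (ha : a ∉ V) {w1 w2 w3 w4 : ℂ} {μ ν : ℕ} {k1 k2 k3 k4 : K}
    (L1 : LocD V s1 a x1 w1 μ k1) (L2 : LocD V s2 a x2 w2 ν k2) (L3 : LocD V s3 a x3 w3 μ k3)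
    (L4 : LocD V s4 a x4 w4 ν k4) (l : ℕ) :
    (l : K) ^ 2 * (dPhi (ind l) s1 x1 + dPhi (ind l) s2 x2 - dPhi (ind l) s3 x3 -
      dPhi (ind l) s4 x4) + (Phi id s1 x1 - Phi id s4 x4) *
        (Phi (ind l) s1 x1 - Phi (ind l) s3 x3) ∈ V := by
  have ha0 : a ≠ 0 := M.Q.na.ne_zero
  have hε : a * a⁻¹ = 1 := mul_inv_cancel₀ ha0
  obtain ⟨-, -, h0⟩ := M.Q.edge hV ha L1 L2 L3 L4
  obtain ⟨hU, -, t, ht, ft⟩ := M.loc hV ha L1 L3 L4 (ind l)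
  obtain ⟨-, ⟨j, hj, fj⟩, -⟩ := M.loc hV ha L1 L3 L4 id
  obtain ⟨e1, he1, f1⟩ := L1.dphi l
  obtain ⟨e2, he2, f2⟩ := L2.dphi l
  obtain ⟨e3, he3, f3⟩ := L3.dphi l
  obtain ⟨e4, he4, f4⟩ := L4.dphi l
  simp only [id] at fj
  rw [fj]
  have hk1 := L1.hk
  have hk2 := L2.hk
  have hk3 := L3.hk
  have hk4 := L4.hk
  have hm1 := hV.natCast_mem μ
  have hm2 := hV.natCast_mem ν
  have hg1 := hV.natCast_mem (ind l μ)
  have hg2 := hV.natCast_mem (ind l ν)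
  generalize a⁻¹ = ε at *
  generalize Phi (ind l) s1 x1 - Phi (ind l) s3 x3 = U at *
  generalize ((ind l μ : ℕ) : K) = gμ at *
  generalize ((ind l ν : ℕ) : K) = gν at *
  obtain ⟨t0, ht0⟩ : ∃ t0 : K, t0 =
    a * (μ * (2 * k1 + μ) + ν * (2 * k2 + ν) - μ * (2 * k3 + μ) - ν * (2 * k4 + ν)) := ⟨_, rfl⟩
  rw [← ht0] at h0
  have : (l : K) ^ 2 * (dPhi (ind l) s1 x1 + dPhi (ind l) s2 x2 - dPhi (ind l) s3 x3 -
      dPhi (ind l) s4 x4) + (((μ : K) - ν) * a + j) * U =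
      gν * t0 - μ * gμ * (k1 - k3) * (k1 + k3 + μ) - ν * gν * (k2 - k4) * (k2 + k4 + ν) +
        (e1 + e2 - e3 - e4) + t + j * U := by
    linear_combination f1 + f2 - f3 - f4 + a * ft + t * hε - gν * ht0
  rw [this]
  change _ ∈ V.toSubring
  change _ ∈ V.toSubring at hk1 hk2 hk3 hk4 hm1 hm2 hg1 hg2 he1 he2 he3 he4 ht hU hj h0
  with_reducible repeat' first
    | assumption
    | apply Subring.sub_mem
    | apply Subring.add_mem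
    | apply Subring.mul_mem

theorem relC (M : MTD s1 s2 s3 s4 a x1 x2 x3 x4) {W : ValuationSubring K} (hW : HasConst W)
    (v1 : W.valuation x1 < 1) (v2 : W.valuation x2 < 1) (v3 : W.valuation x3 < 1)
    (v4 : W.valuation x4 < 1) (l : ℕ) :
    (l : K) ^ 2 * (dPhi (ind l) s1 x1 + dPhi (ind l) s2 x2 - dPhi (ind l) s3 x3 -
      dPhi (ind l) s4 x4) + (Phi id s1 x1 - Phi id s4 x4) *
        (Phi (ind l) s1 x1 - Phi (ind l) s3 x3) = 0 := by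
  have Q := M.Q
  refine eq_zero_of_forall_mem (fun V hV => ?_) hW ?_
  · by_cases ha : a ∈ V
    · refine V.add_mem _ _ (V.mul_mem _ _ (pow_mem (hV.natCast_mem l) 2) ?_) (V.mul_mem _ _
        (V.toSubring.sub_mem (hV.Phi_mem _ (Q.h1 ▸ ha)) (hV.Phi_mem _ (Q.h4 ▸ ha)))
        (V.toSubring.sub_mem (hV.Phi_mem _ (Q.h1 ▸ ha)) (hV.Phi_mem _ (Q.h3 ▸ ha))))
      exact V.toSubring.sub_mem (V.toSubring.sub_mem (V.add_mem _ _ (hV.dPhi_mem _ (Q.h1 ▸ ha))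
        (hV.dPhi_mem _ (Q.h2 ▸ ha))) (hV.dPhi_mem _ (Q.h3 ▸ ha))) (hV.dPhi_mem _ (Q.h4 ▸ ha))
    obtain ⟨w1, m1, k1, L1⟩ := hV.exists_locD Q.n1 Q.h1 ha
    obtain ⟨w2, m2, k2, L2⟩ := hV.exists_locD Q.n2 Q.h2 ha
    obtain ⟨w3, m3, k3, L3⟩ := hV.exists_locD Q.n3 Q.h3 ha
    obtain ⟨w4, m4, k4, L4⟩ := hV.exists_locD Q.n4 Q.h4 ha
    rcases M.mt V hV ha _ _ _ _ _ _ _ _ _ _ _ _ L1 L2 L3 L4 with ⟨rfl, rfl⟩ | ⟨rfl, rfl⟩
    · exact M.relC_loc hV ha L1 L2 L3 L4 l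
    · have := M.swap34.relC_loc hV ha L1 L2 L4 L3 l
      rwa [M.sym, sub_right_comm] at this
  · have d1 := hW.near_dPhiW_zero (wt (ind l) s1) v1 Q.z1
    have d2 := hW.near_dPhiW_zero (wt (ind l) s2) v2 Q.z2
    have d3 := hW.near_dPhiW_zero (wt (ind l) s3) v3 Q.z3
    have d4 := hW.near_dPhiW_zero (wt (ind l) s4) v4 Q.z4
    exact ((((near_natCast l).pow hW 2).mul hW (((d1.add d2).sub d3).sub d4)).add
      (((hW.near_PhiW_zero _ v1 Q.z1).sub (hW.near_PhiW_zero _ v4 Q.z4)).mul hW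
        ((hW.near_PhiW_zero _ v1 Q.z1).sub (hW.near_PhiW_zero _ v3 Q.z3)))).congr rfl (by simp)

theorem loc_one (M : MTD s1 s2 s3 s4 a x1 x2 x3 x4) {V : ValuationSubring K} (hV : HasConst V)
    (ha : a ∉ V) {w1 w3 w4 : ℂ} {μ ν : ℕ} {k1 k3 k4 : K}
    (L1 : LocD V s1 a x1 w1 μ k1) (L3 : LocD V s3 a x3 w3 μ k3) (L4 : LocD V s4 a x4 w4 ν k4)
    (hne : μ ≠ ν) {l : ℕ} (h1 : l ≠ μ) (h2 : l ≠ ν) :
    a * (Phi (ind l) s1 x1 - Phi (ind l) s3 x3) ∈ V := by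
  obtain ⟨-, -, t, ht, ft⟩ := M.loc hV ha L1 L3 L4 (ind l)
  have g1 : ind l μ = 0 := if_neg h1.symm
  have g2 : ind l ν = 0 := if_neg h2.symm
  have hc : ((μ : ℂ) - ν) ≠ 0 := sub_ne_zero.mpr (by exact_mod_cast hne)
  have hcK : algebraMap ℂ K ((μ : ℂ) - ν)⁻¹ * ((μ : K) - ν) = 1 := by
    rw [← map_natCast (algebraMap ℂ K) μ, ← map_natCast (algebraMap ℂ K) ν, ← map_sub, ← map_mul,
      inv_mul_cancel₀ hc, map_one]
  have hε : a * a⁻¹ = 1 := mul_inv_cancel₀ M.Q.na.ne_zero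
  rw [g1, g2] at ft
  have : a * (Phi (ind l) s1 x1 - Phi (ind l) s3 x3) = algebraMap ℂ K ((μ : ℂ) - ν)⁻¹ * t := by
    generalize algebraMap ℂ K ((μ : ℂ) - ν)⁻¹ = c at *
    simp only [Nat.cast_zero] at ft
    linear_combination (c * a) * ft - (a * (Phi (ind l) s1 x1 - Phi (ind l) s3 x3)) * hcK +
      c * t * hε
  rw [this]
  exact V.mul_mem _ _ (hV _) ht

theorem loc_two (M : MTD s1 s2 s3 s4 a x1 x2 x3 x4) {V : ValuationSubring K} (hV : HasConst V)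
    (ha : a ∉ V) {w1 w2 w3 w4 : ℂ} {μ ν : ℕ} {k1 k2 k3 k4 : K}
    (L1 : LocD V s1 a x1 w1 μ k1) (L2 : LocD V s2 a x2 w2 ν k2) (L3 : LocD V s3 a x3 w3 μ k3)
    (L4 : LocD V s4 a x4 w4 ν k4) (hne : μ ≠ ν) {l : ℕ} (h1 : l ≠ μ) (h2 : l ≠ ν)
    (h3 : l * l ≠ μ * ν)
    (hC : (l : K) ^ 2 * (dPhi (ind l) s1 x1 + dPhi (ind l) s2 x2 - dPhi (ind l) s3 x3 -
      dPhi (ind l) s4 x4) + (Phi id s1 x1 - Phi id s4 x4) *
        (Phi (ind l) s1 x1 - Phi (ind l) s3 x3) = 0) :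
    a ^ 2 * (Phi (ind l) s1 x1 - Phi (ind l) s3 x3) ∈ V := by
  have hU := M.loc_one hV ha L1 L3 L4 hne h1 h2
  obtain ⟨-, ⟨j, hj, fj⟩, -⟩ := M.loc hV ha L1 L3 L4 id
  simp only [id] at fj
  rw [fj] at hC
  have g1 : ind l μ = 0 := if_neg h1.symm
  have g2 : ind l ν = 0 := if_neg h2.symm
  obtain ⟨c1, t1, ht1, f1⟩ := L1.taylor _ g1
  obtain ⟨c2, t2, ht2, f2⟩ := L2.taylor _ g2
  obtain ⟨c3, t3, ht3, f3⟩ := L3.taylor _ g1
  obtain ⟨c4, t4, ht4, f4⟩ := L4.taylor _ g2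
  have d1 := L1.dmem _ g1
  have d2 := L2.dmem _ g2
  have d3 := L3.dmem _ g1
  have d4 := L4.dmem _ g2
  have hA := M.relA (ind l)
  have hεV : a⁻¹ ∈ V := (V.mem_or_inv_mem a).resolve_left ha
  have hε : a * a⁻¹ = 1 := mul_inv_cancel₀ M.Q.na.ne_zero
  have hm1 := hV.natCast_mem μ
  have hm2 := hV.natCast_mem ν
  have hl := hV.natCast_mem l
  generalize a⁻¹ = ε at *
  generalize dPhi (ind l) s1 x1 = σ1 at *
  generalize dPhi (ind l) s2 x2 = σ2 at *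
  generalize dPhi (ind l) s3 x3 = σ3 at *
  generalize dPhi (ind l) s4 x4 = σ4 at *
  obtain ⟨U, hUdef⟩ : ∃ U, U = Phi (ind l) s1 x1 - Phi (ind l) s3 x3 := ⟨_, rfl⟩
  rw [← hUdef] at hU hC ⊢
  have u1 : U = algebraMap ℂ K (c1 - c3) + μ * ε * (σ1 - σ3) + ε ^ 2 * (t1 - t3) := by
    rw [hUdef, f1, f3, map_sub]; ring
  have u2 : U = algebraMap ℂ K (c4 - c2) + ν * ε * (σ4 - σ2) + ε ^ 2 * (t4 - t2) := by
    rw [map_sub]
    linear_combination hUdef + hA + f4 - f2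
  have z1 : c1 - c3 = 0 := by
    refine hV.const_eq_zero ha (b := a * U - (μ * (σ1 - σ3) + ε * (t1 - t3))) ?_ ?_
    · exact V.toSubring.sub_mem hU (V.add_mem _ _ (V.mul_mem _ _ hm1 (V.toSubring.sub_mem d1 d3))
        (V.mul_mem _ _ hεV (V.toSubring.sub_mem ht1 ht3)))
    · linear_combination (-a) * u1 - (μ * (σ1 - σ3) + ε * (t1 - t3)) * hε
  have z2 : c4 - c2 = 0 := by
    refine hV.const_eq_zero ha (b := a * U - (ν * (σ4 - σ2) + ε * (t4 - t2))) ?_ ?_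
    · exact V.toSubring.sub_mem hU (V.add_mem _ _ (V.mul_mem _ _ hm2 (V.toSubring.sub_mem d4 d2))
        (V.mul_mem _ _ hεV (V.toSubring.sub_mem ht4 ht2)))
    · linear_combination (-a) * u2 - (ν * (σ4 - σ2) + ε * (t4 - t2)) * hε
  rw [z1, map_zero, zero_add] at u1
  rw [z2, map_zero, zero_add] at u2
  have hc : (((μ : ℂ) - ν) * (μ * ν - l * l)) ≠ 0 :=
    mul_ne_zero (sub_ne_zero.mpr (by exact_mod_cast hne))
      (sub_ne_zero.mpr (by exact_mod_cast h3.symm))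
  have hcK : algebraMap ℂ K (((μ : ℂ) - ν) * (μ * ν - l * l))⁻¹ *
      (((μ : K) - ν) * (μ * ν - l * l)) = 1 := by
    rw [← map_natCast (algebraMap ℂ K) μ, ← map_natCast (algebraMap ℂ K) ν,
      ← map_natCast (algebraMap ℂ K) l, ← map_mul, ← map_mul, ← map_sub, ← map_sub, ← map_mul,
      ← map_mul, inv_mul_cancel₀ hc, map_one]
  have v1 : a * (μ * (σ1 - σ3)) = a ^ 2 * U - (t1 - t3) := by
    linear_combination (-a ^ 2) * u1 - (a * μ * (σ1 - σ3) + (a * ε + 1) * (t1 - t3)) * hε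
  have v2 : a * (ν * (σ4 - σ2)) = a ^ 2 * U - (t4 - t2) := by
    linear_combination (-a ^ 2) * u2 - (a * ν * (σ4 - σ2) + (a * ε + 1) * (t4 - t2)) * hε
  have key : (((μ : K) - ν) * (μ * ν - l * l)) * (a ^ 2 * U) =
      l ^ 2 * ν * (t1 - t3) - l ^ 2 * μ * (t4 - t2) - μ * ν * j * (a * U) := by
    linear_combination (μ * ν * a) * hC - (l ^ 2 * ν) * v1 + (l ^ 2 * μ) * v2
  have : a ^ 2 * U = algebraMap ℂ K (((μ : ℂ) - ν) * (μ * ν - l * l))⁻¹ *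
      (l ^ 2 * ν * (t1 - t3) - l ^ 2 * μ * (t4 - t2) - μ * ν * j * (a * U)) := by
    rw [← key, ← mul_assoc, hcK, one_mul]
  rw [this]
  refine V.mul_mem _ _ (hV _) ?_
  generalize a * U = aU at *
  change _ ∈ V.toSubring
  change _ ∈ V.toSubring at hm1 hm2 hl ht1 ht2 ht3 ht4 hU hj
  with_reducible repeat' first
    | assumption
    | apply Subring.sub_mem
    | apply Subring.add_mem
    | apply Subring.mul_mem
    | apply pow_mem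

end MTD

end Pool.Agent.Lib.MP_6db618_an
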