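import Mathlib
import Pool.Agent.Lib.MP_6db618_an.MT3

set_option autoImplicit false

namespace Pool.Agent.Lib.MP_6db618_an

variable {K : Type} [Field K] [Algebra ℂ K]

omit [Algebra ℂ K] in
theorem sum_ind (N : ℕ) (c : ℕ → K) (f : ℂ → ℕ) (φ : ℂ → K) {r : Multiset ℂ}
    (h : ∀ w ∈ r, f w < N) :
    ∑ l ∈ Finset.range N, c l * (r.map fun w => ((ind l (f w) : ℕ) : K) * φ w).sum =
      (r.map fun w => c (f w) * φ w).sum := by
  induction r using Multiset.induction_on with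
  | empty => simp
  | cons w r ih =>
    simp only [Multiset.map_cons, Multiset.sum_cons, mul_add, Finset.sum_add_distrib]
    rw [ih fun u hu => h u (Multiset.mem_cons_of_mem hu)]
    congr 1
    rw [Finset.sum_eq_single (f w)]
    · simp [ind]
    · intro l _ hl
      simp [ind, hl.symm]
    · intro hl
      exact absurd (Finset.mem_range.mpr (h w (Multiset.mem_cons_self _ _))) hl

theorem sum_Phi_ind {N : ℕ} {s : Multiset ℂ} (h : s.card < N) (z : K) :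
    ∑ l ∈ Finset.range N, Phi (ind l) s z = HH s z := by
  have := sum_ind N (fun _ => (1 : K)) (fun w => s.count w) (fun w => 1 + tt w z) (r := s)
    fun w _ => lt_of_le_of_lt (Multiset.count_le_card _ _) h
  simp only [one_mul] at this
  exact this

theorem sum_mul_Phi_ind {N : ℕ} {s : Multiset ℂ} (h : s.card < N) (z : K) :
    ∑ l ∈ Finset.range N, (l : K) * Phi (ind l) s z = Phi id s z :=
  sum_ind N (fun l => (l : K)) (fun w => s.count w) (fun w => 1 + tt w z) (r := s)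
    fun _ _ => lt_of_le_of_lt (Multiset.count_le_card _ _) h

theorem sum_dPhi_ind {N : ℕ} {s : Multiset ℂ} (h : s.card < N) (z : K) :
    ∑ l ∈ Finset.range N, dPhi (ind l) s z = Chi s z := by
  have := sum_ind N (fun _ => (1 : K)) (fun w => s.count w)
    (fun w => -(tt w z * (1 + tt w z))) (r := s)
    fun w _ => lt_of_le_of_lt (Multiset.count_le_card _ _) h
  simp only [one_mul] at this
  exact this

theorem Phi_ind_zero (s : Multiset ℂ) (z : K) : Phi (ind 0) s z = 0 := by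
  refine Multiset.sum_eq_zero fun u hu => ?_
  obtain ⟨w, hw, rfl⟩ := Multiset.mem_map.mp hu
  simp [wt, ind, hw]

theorem dPhi_ind_zero (s : Multiset ℂ) (z : K) : dPhi (ind 0) s z = 0 := by
  refine Multiset.sum_eq_zero fun u hu => ?_
  obtain ⟨w, hw, rfl⟩ := Multiset.mem_map.mp hu
  simp [wt, ind, hw]

variable {s1 s2 s3 s4 : Multiset ℂ} {a x1 x2 x3 x4 : K}

namespace MTD

theorem three_loc (M : MTD s1 s2 s3 s4 a x1 x2 x3 x4) {V : ValuationSubring K} (hV : HasConst V)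
    (ha : a ∉ V) {w1 w2 w3 w4 : ℂ} {μ ν : ℕ} {k1 k2 k3 k4 : K}
    (L1 : LocD V s1 a x1 w1 μ k1) (L2 : LocD V s2 a x2 w2 ν k2) (L3 : LocD V s3 a x3 w3 μ k3)
    (L4 : LocD V s4 a x4 w4 ν k4)
    (hC : ∀ l : ℕ, (l : K) ^ 2 * (dPhi (ind l) s1 x1 + dPhi (ind l) s2 x2 - dPhi (ind l) s3 x3 -
      dPhi (ind l) s4 x4) + (Phi id s1 x1 - Phi id s4 x4) *
        (Phi (ind l) s1 x1 - Phi (ind l) s3 x3) = 0)
    {α β γ : ℕ} (h1 : α < β) (h2 : β < γ) {G : ℕ → K}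
    (hG : ∀ l, G l = (Phi (ind l) s1 x1 - Phi (ind l) s3 x3) *
      (Phi (ind l) s1 x1 - Phi (ind l) s4 x4)) : G α * G β * G β * G γ ∈ V := by
  have hεV : a⁻¹ ∈ V := (V.mem_or_inv_mem a).resolve_left ha
  have hε : a * a⁻¹ = 1 := mul_inv_cancel₀ M.Q.na.ne_zero
  have fU : ∀ l, Phi (ind l) s1 x1 - Phi (ind l) s3 x3 ∈ V := fun l =>
    (M.loc hV ha L1 L3 L4 (ind l)).1
  have fV : ∀ l, a⁻¹ * (Phi (ind l) s1 x1 - Phi (ind l) s4 x4) ∈ V := by
    intro l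
    obtain ⟨-, ⟨j, hj, fj⟩, -⟩ := M.loc hV ha L1 L3 L4 (ind l)
    have : a⁻¹ * (Phi (ind l) s1 x1 - Phi (ind l) s4 x4) =
        ((ind l μ : ℕ) : K) - (ind l ν : ℕ) + a⁻¹ * j := by
      rw [fj]
      linear_combination (((ind l μ : ℕ) : K) - (ind l ν : ℕ)) * hε
    rw [this]
    exact V.add_mem _ _ (V.toSubring.sub_mem (hV.natCast_mem _) (hV.natCast_mem _))
      (V.mul_mem _ _ hεV hj)
  have fV' : ∀ l, ind l μ = ind l ν → Phi (ind l) s1 x1 - Phi (ind l) s4 x4 ∈ V := by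
    intro l hl
    obtain ⟨-, ⟨j, hj, fj⟩, -⟩ := M.loc hV ha L1 L3 L4 (ind l)
    rw [fj, hl, sub_self, zero_mul, zero_add]
    exact hj
  have g1 : ∀ l, a⁻¹ * G l ∈ V := fun l => by
    rw [hG, mul_left_comm]; exact V.mul_mem _ _ (fU l) (fV l)
  by_cases hne : μ = ν
  · have g0 : ∀ l, G l ∈ V := fun l => by
      rw [hG]; exact V.mul_mem _ _ (fU l) (fV' l (by rw [hne]))
    exact V.mul_mem _ _ (V.mul_mem _ _ (V.mul_mem _ _ (g0 _) (g0 _)) (g0 _)) (g0 _)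
  have g2 : ∀ l, l ≠ μ → l ≠ ν → a * G l ∈ V := fun l e1 e2 => by
    rw [hG, ← mul_assoc]
    exact V.mul_mem _ _ (M.loc_one hV ha L1 L3 L4 hne e1 e2)
      (fV' l ((if_neg e1.symm).trans (if_neg e2.symm).symm))
  have g3 : ∀ l, l ≠ μ → l ≠ ν → l * l ≠ μ * ν → ∀ i j k, G i * G j * G k * G l ∈ V := by
    intro l e1 e2 e3 i j k
    have k1 := M.loc_two hV ha L1 L2 L3 L4 hne e1 e2 e3 (hC l)
    have k2 := M.sym (ind i) (ind l)
    have : G i * G j * G k * G l = (a⁻¹ * (Phi (ind i) s1 x1 - Phi (ind i) s4 x4)) ^ 2 *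
        (a ^ 2 * (Phi (ind l) s1 x1 - Phi (ind l) s3 x3)) ^ 2 * (a⁻¹ * G j) * (a⁻¹ * G k) := by
      have k3 : G i * G l = (Phi (ind i) s1 x1 - Phi (ind i) s4 x4) ^ 2 *
          (Phi (ind l) s1 x1 - Phi (ind l) s3 x3) ^ 2 := by
        rw [hG, hG]
        linear_combination ((Phi (ind i) s1 x1 - Phi (ind i) s4 x4) *
          (Phi (ind l) s1 x1 - Phi (ind l) s3 x3)) * k2
      have k4 : (a * a⁻¹) ^ 4 = 1 := by rw [hε, one_pow]
      linear_combination (G j * G k) * k3 - ((Phi (ind i) s1 x1 - Phi (ind i) s4 x4) ^ 2 *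
          (Phi (ind l) s1 x1 - Phi (ind l) s3 x3) ^ 2 * G j * G k) * k4
    rw [this]
    exact V.mul_mem _ _ (V.mul_mem _ _ (V.mul_mem _ _ (pow_mem (fV i) 2) (pow_mem k1 2)) (g1 j))
      (g1 k)
  have k2 : (a * a⁻¹) ^ 2 = 1 := by rw [hε, one_pow]
  by_cases b : β ≠ μ ∧ β ≠ ν
  · have : G α * G β * G β * G γ = (a⁻¹ * G α) * (a * G β) * (a * G β) * (a⁻¹ * G γ) := by
      linear_combination (-(G α * G β * G β * G γ)) * k2
    rw [this]
    exact V.mul_mem _ _ (V.mul_mem _ _ (V.mul_mem _ _ (g1 _) (g2 _ b.1 b.2)) (g2 _ b.1 b.2)) (g1 _)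
  by_cases b1 : α ≠ μ ∧ α ≠ ν
  · by_cases b3 : γ ≠ μ ∧ γ ≠ ν
    · have : G α * G β * G β * G γ = (a * G α) * (a⁻¹ * G β) * (a⁻¹ * G β) * (a * G γ) := by
        linear_combination (-(G α * G β * G β * G γ)) * k2
      rw [this]
      exact V.mul_mem _ _ (V.mul_mem _ _ (V.mul_mem _ _ (g2 _ b1.1 b1.2) (g1 _)) (g1 _))
        (g2 _ b3.1 b3.2)
    · have e : μ * ν = β * γ := by
        have : (μ = β ∧ ν = γ) ∨ (μ = γ ∧ ν = β) := by omega
        rcases this with ⟨rfl, rfl⟩ | ⟨rfl, rfl⟩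
        · rfl
        · exact mul_comm _ _
      have := g3 α b1.1 b1.2 (by rw [e]; nlinarith) γ β β
      rwa [show G γ * G β * G β * G α = G α * G β * G β * G γ by ring] at this
  · have e : μ * ν = α * β ∧ γ ≠ μ ∧ γ ≠ ν := by
      have : (μ = α ∧ ν = β) ∨ (μ = β ∧ ν = α) := by omega
      rcases this with ⟨rfl, rfl⟩ | ⟨rfl, rfl⟩
      · exact ⟨rfl, by omega, by omega⟩
      · exact ⟨mul_comm _ _, by omega, by omega⟩
    exact g3 γ e.2.1 e.2.2 (by rw [e.1]; nlinarith) α β β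

theorem no_three (M : MTD s1 s2 s3 s4 a x1 x2 x3 x4) {W : ValuationSubring K} (hW : HasConst W)
    (v1 : W.valuation x1 < 1) (v2 : W.valuation x2 < 1) (v3 : W.valuation x3 < 1)
    (v4 : W.valuation x4 < 1) {α β γ : ℕ} (h1 : α < β) (h2 : β < γ)
    (nα : Phi (ind α) s1 x1 - Phi (ind α) s3 x3 ≠ 0)
    (nβ : Phi (ind β) s1 x1 - Phi (ind β) s3 x3 ≠ 0)
    (nγ : Phi (ind γ) s1 x1 - Phi (ind γ) s3 x3 ≠ 0) : False := by
  have Q := M.Q
  obtain ⟨G, hG⟩ : ∃ G : ℕ → K, ∀ l, G l = (Phi (ind l) s1 x1 - Phi (ind l) s3 x3) *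
      (Phi (ind l) s1 x1 - Phi (ind l) s4 x4) := ⟨_, fun _ => rfl⟩
  have hne : ∀ l, Phi (ind l) s1 x1 - Phi (ind l) s3 x3 ≠ 0 → G l ≠ 0 := by
    intro l hl
    rw [hG]
    refine mul_ne_zero hl fun h0 => ?_
    have := M.relUV (ind l)
    rw [h0, zero_mul, add_zero] at this
    exact mul_ne_zero hl M.fv this
  have hz : ∀ l, Near W (G l) 0 := fun l => by
    rw [hG]
    exact (((hW.near_PhiW_zero _ v1 Q.z1).sub (hW.near_PhiW_zero _ v3 Q.z3)).mul hW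
      ((hW.near_PhiW_zero _ v1 Q.z1).sub (hW.near_PhiW_zero _ v4 Q.z4))).congr rfl (by simp)
  refine mul_ne_zero (mul_ne_zero (mul_ne_zero (hne α nα) (hne β nβ)) (hne β nβ)) (hne γ nγ) ?_
  refine eq_zero_of_forall_mem (fun V hV => ?_) hW
    (((((hz α).mul hW (hz β)).mul hW (hz β)).mul hW (hz γ)).congr rfl (by simp))
  by_cases ha : a ∈ V
  · have g0 : ∀ l, G l ∈ V := fun l => by
      rw [hG]
      exact V.mul_mem _ _
        (V.toSubring.sub_mem (hV.Phi_mem _ (Q.h1 ▸ ha)) (hV.Phi_mem _ (Q.h3 ▸ ha)))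
        (V.toSubring.sub_mem (hV.Phi_mem _ (Q.h1 ▸ ha)) (hV.Phi_mem _ (Q.h4 ▸ ha)))
    exact V.mul_mem _ _ (V.mul_mem _ _ (V.mul_mem _ _ (g0 _) (g0 _)) (g0 _)) (g0 _)
  obtain ⟨w1, m1, k1, L1⟩ := hV.exists_locD Q.n1 Q.h1 ha
  obtain ⟨w2, m2, k2, L2⟩ := hV.exists_locD Q.n2 Q.h2 ha
  obtain ⟨w3, m3, k3, L3⟩ := hV.exists_locD Q.n3 Q.h3 ha
  obtain ⟨w4, m4, k4, L4⟩ := hV.exists_locD Q.n4 Q.h4 ha
  rcases M.mt V hV ha _ _ _ _ _ _ _ _ _ _ _ _ L1 L2 L3 L4 with ⟨rfl, rfl⟩ | ⟨rfl, rfl⟩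
  · exact M.three_loc hV ha L1 L2 L3 L4 (M.relC hW v1 v2 v3 v4) h1 h2 hG
  · exact M.swap34.three_loc hV ha L1 L2 L4 L3 (M.swap34.relC hW v1 v2 v4 v3) h1 h2
      fun l => (hG l).trans (mul_comm _ _)

theorem final (M : MTD s1 s2 s3 s4 a x1 x2 x3 x4) {W : ValuationSubring K} (hW : HasConst W)
    (v1 : W.valuation x1 < 1) (v2 : W.valuation x2 < 1) (v3 : W.valuation x3 < 1)
    (v4 : W.valuation x4 < 1) :
    ∃ (c : ℝ) (l : ℕ), 0 ≤ c ∧
      ((Chi s1 x1)⁻¹ - (Chi s3 x3)⁻¹) ^ 2 * (Chi s1 x1 + Chi s2 x2) * (Chi s3 x3 * Chi s4 x4) =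
        -(algebraMap ℂ K c * (Phi (ind l) s1 x1 - Phi (ind l) s3 x3) ^ 2) := by
  classical
  have : CharZero K := charZero_of_injective_algebraMap (algebraMap ℂ K).injective
  have Q := M.Q
  obtain ⟨N, N1, N2, N3, N4⟩ : ∃ N, s1.card < N ∧ s2.card < N ∧ s3.card < N ∧ s4.card < N :=
    ⟨s1.card + s2.card + s3.card + s4.card + 1, by omega, by omega, by omega, by omega⟩
  obtain ⟨θ, hθ⟩ : ∃ θ : ℕ → K, ∀ l, θ l = Phi (ind l) s1 x1 - Phi (ind l) s3 x3 :=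
    ⟨_, fun _ => rfl⟩
  have t0 : θ 0 = 0 := by rw [hθ, Phi_ind_zero, Phi_ind_zero, sub_self]
  have S0 : ∑ l ∈ Finset.range N, θ l = 0 := by
    simp only [hθ, Finset.sum_sub_distrib]
    rw [sum_Phi_ind N1, sum_Phi_ind N3, Q.h1, Q.h3, sub_self]
  have S1 : ∑ l ∈ Finset.range N, (l : K) * θ l = Phi id s1 x1 - Phi id s3 x3 := by
    simp only [hθ, mul_sub, Finset.sum_sub_distrib]
    rw [sum_mul_Phi_ind N1, sum_mul_Phi_ind N3]
  have S2 : Chi s1 x1 + Chi s2 x2 - Chi s3 x3 - Chi s4 x4 =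
      -(Phi id s1 x1 - Phi id s4 x4) * ∑ l ∈ Finset.range N, θ l / (l : K) ^ 2 := by
    rw [← sum_dPhi_ind N1, ← sum_dPhi_ind N2, ← sum_dPhi_ind N3, ← sum_dPhi_ind N4,
      ← Finset.sum_add_distrib, ← Finset.sum_sub_distrib, ← Finset.sum_sub_distrib,
      Finset.mul_sum]
    refine Finset.sum_congr rfl fun l _ => ?_
    rcases Nat.eq_zero_or_pos l with rfl | hl
    · simp [dPhi_ind_zero]
    · have hl' : (l : K) ≠ 0 := Nat.cast_ne_zero.mpr hl.ne'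
      have := M.relC hW v1 v2 v3 v4 l
      rw [← hθ] at this
      field_simp
      linear_combination this
  have key : ((Chi s1 x1)⁻¹ - (Chi s3 x3)⁻¹) ^ 2 * (Chi s1 x1 + Chi s2 x2) *
      (Chi s3 x3 * Chi s4 x4) = (∑ l ∈ Finset.range N, (l : K) * θ l) *
        ∑ l ∈ Finset.range N, θ l / (l : K) ^ 2 := by
    rw [S1]
    refine mul_right_cancel₀ M.fv ?_
    have eF := Q.Fsum
    have eUV := M.relUV id
    obtain ⟨c1, c2, c3, c4⟩ := Q.chi_ne
    have i1 := mul_inv_cancel₀ c1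
    have i2 := mul_inv_cancel₀ c2
    have i3 := mul_inv_cancel₀ c3
    have i4 := mul_inv_cancel₀ c4
    generalize (∑ l ∈ Finset.range N, θ l / (l : K) ^ 2) = S at *
    generalize Phi id s1 x1 - Phi id s3 x3 = U at *
    generalize Phi id s1 x1 - Phi id s4 x4 = T at *
    generalize (Chi s1 x1)⁻¹ = F1 at *
    generalize (Chi s2 x2)⁻¹ = F2 at *
    generalize (Chi s3 x3)⁻¹ = F3 at *
    generalize (Chi s4 x4)⁻¹ = F4 at *
    generalize Chi s1 x1 = A1 at *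
    generalize Chi s2 x2 = A2 at *
    generalize Chi s3 x3 = A3 at *
    generalize Chi s4 x4 = A4 at *
    have e1 : A1 + A2 = (F1 + F2) * (A1 * A2) := by linear_combination (-A1) * i2 - A2 * i1
    have e2 : A3 + A4 = (F3 + F4) * (A3 * A4) := by linear_combination (-A3) * i4 - A4 * i3
    have e3 : (F1 - F3) * (F1 - F4) = F3 * F4 - F1 * F2 := by linear_combination F1 * eF
    have e4 : A1 * A2 * (F1 * F2) = 1 := by linear_combination (A2 * F2) * i1 + i2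
    have e5 : A3 * A4 * (F3 * F4) = 1 := by linear_combination (A4 * F4) * i3 + i4
    have e6 : (F1 - F3) * (F1 - F4) * (A1 + A2) * (A3 * A4) = A1 + A2 - A3 - A4 := by
      rw [e3]
      linear_combination (A1 + A2) * e5 - (F1 * F2 * (A3 * A4)) * e1 -
        ((F1 + F2) * (A3 * A4)) * e4 - (A3 * A4) * eF + e2
    linear_combination (F1 - F3) * e6 + (F1 - F3) * S2 - S * eUV
  rw [key]
  by_cases hall : ∃ l, l < N ∧ θ l ≠ 0
  swap
  · push Not at hall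
    refine ⟨0, 0, le_rfl, ?_⟩
    rw [Finset.sum_eq_zero fun l hl => by rw [hall l (Finset.mem_range.mp hl), mul_zero]]
    simp
  obtain ⟨αN, nα⟩ := Nat.find_spec hall
  have hmin : ∀ l, l < N → θ l ≠ 0 → Nat.find hall ≤ l := fun l h h' => Nat.find_min' hall ⟨h, h'⟩
  generalize Nat.find hall = α at *
  obtain ⟨β, βN, hβ, nβ⟩ : ∃ β, β < N ∧ β ≠ α ∧ θ β ≠ 0 := by
    by_contra hcon
    push Not at hcon
    rw [Finset.sum_eq_single_of_mem α (Finset.mem_range.mpr αN)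
      fun l hl hl' => hcon l (Finset.mem_range.mp hl) hl'] at S0
    exact nα S0
  have hαβ : α < β := lt_of_le_of_ne (hmin β βN nβ) hβ.symm
  have hrest : ∀ l ∈ Finset.range N, l ≠ α ∧ l ≠ β → θ l = 0 := by
    intro l hl hl'
    by_contra nl
    have h1 : α < l := lt_of_le_of_ne (hmin l (Finset.mem_range.mp hl) nl) hl'.1.symm
    rw [hθ] at nα nβ nl
    rcases lt_or_gt_of_ne hl'.2 with h2 | h2
    · exact M.no_three hW v1 v2 v3 v4 h1 h2 nα nl nβ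
    · exact M.no_three hW v1 v2 v3 v4 hαβ h2 nα nβ nl
  have α0 : α ≠ 0 := fun h => nα (h ▸ t0)
  have mα := Finset.mem_range.mpr αN
  have mβ := Finset.mem_range.mpr βN
  rw [Finset.sum_eq_add_of_mem α β mα mβ hβ.symm hrest] at S0
  rw [Finset.sum_eq_add_of_mem α β mα mβ hβ.symm fun l hl hl' => by rw [hrest l hl hl', mul_zero],
    Finset.sum_eq_add_of_mem α β mα mβ hβ.symm fun l hl hl' => by rw [hrest l hl hl', zero_div]]
  refine ⟨((α : ℝ) - β) ^ 2 * (α + β) / (α ^ 2 * β ^ 2), α, by positivity, ?_⟩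
  have e : θ β = -θ α := by linear_combination S0
  have αK : (α : K) ≠ 0 := Nat.cast_ne_zero.mpr α0
  have βK : (β : K) ≠ 0 := Nat.cast_ne_zero.mpr (by omega)
  rw [← hθ, e]
  have ec : ((((α : ℝ) - β) ^ 2 * (α + β) / (α ^ 2 * β ^ 2) : ℝ) : ℂ) =
      ((α : ℂ) - β) ^ 2 * (α + β) / (α ^ 2 * β ^ 2) := by push_cast; rfl
  rw [ec]
  simp only [map_div₀, map_mul, map_pow, map_sub, map_add, map_natCast]
  field_simp
  ring

end MTD

end Pool.Agent.Lib.MP_6db618_an
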