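import Mathlib
import Pool.Agent.Lib.MP_6db618_an.MT1

set_option autoImplicit false

namespace Pool.Agent.Lib.MP_6db618_an

open Polynomial

theorem ntrace_sum {F L : Type} [Field F] [CharZero F] [Field L] [Algebra F L] {b1 b2 b3 b4 : L}
    (i1 : IsAlgebraic F b1) (i2 : IsAlgebraic F b2) (i3 : IsAlgebraic F b3)
    (i4 : IsAlgebraic F b4) {c : F} (h : b1 + b2 - b3 - b4 = algebraMap F L c)
    {T : F[X] → F} (hT : ∀ P, T P = (P.natDegree : F)⁻¹ • -P.nextCoeff) :
    T (minpoly F b1) + T (minpoly F b2) - T (minpoly F b3) - T (minpoly F b4) = c := by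
  have key : ∀ b : algebraicClosure F L,
      T (minpoly F (b : L)) = Algebra.normalizedTrace F (algebraicClosure F L) b := by
    intro b
    rw [hT, Algebra.normalizedTrace_minpoly, IntermediateField.minpoly_eq]
  have e := key ⟨b1, mem_algebraicClosure_iff.mpr i1⟩
  have e2 := key ⟨b2, mem_algebraicClosure_iff.mpr i2⟩
  have e3 := key ⟨b3, mem_algebraicClosure_iff.mpr i3⟩
  have e4 := key ⟨b4, mem_algebraicClosure_iff.mpr i4⟩
  simp only at e e2 e3 e4
  rw [e, e2, e3, e4, ← map_add, ← map_sub, ← map_sub]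
  have : (⟨b1, mem_algebraicClosure_iff.mpr i1⟩ + ⟨b2, mem_algebraicClosure_iff.mpr i2⟩ -
      ⟨b3, mem_algebraicClosure_iff.mpr i3⟩ - ⟨b4, mem_algebraicClosure_iff.mpr i4⟩ :
        algebraicClosure F L) = algebraMap F (algebraicClosure F L) c := Subtype.ext h
  rw [this, Algebra.normalizedTrace_algebraMap_apply, Algebra.normalizedTrace_self_apply]

theorem minpoly_eq_of_iff {F L L' : Type} [Field F] [Field L] [Algebra F L] [Field L']
    [Algebra F L'] {b : L} {b' : L'} (i : IsAlgebraic F b) (i' : IsAlgebraic F b')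
    (h : ∀ P : F[X], aeval b P = 0 ↔ aeval b' P = 0) : minpoly F b = minpoly F b' :=
  eq_of_monic_of_associated (minpoly.monic i.isIntegral) (minpoly.monic i'.isIntegral)
    (associated_of_dvd_dvd (minpoly.dvd _ _ ((h _).mpr (minpoly.aeval _ _)))
      (minpoly.dvd _ _ ((h _).mp (minpoly.aeval _ _))))

section

variable {K : Type} [Field K] [Algebra ℂ K]

/-- Evaluation of rational functions at a non-constant element. -/
noncomputable def ev {z : K} (hz : NC z) : RatFunc ℂ →ₐ[ℂ] K :=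
  RatFunc.liftAlgHom (aeval z) (nonZeroDivisors_le_comap_nonZeroDivisors_of_injective _
    (transcendental_iff_injective.mp hz.transcendental))

theorem ev_algebraMap {z : K} (hz : NC z) (P : ℂ[X]) :
    ev hz (algebraMap ℂ[X] (RatFunc ℂ) P) = aeval z P := by
  have := RatFunc.liftAlgHom_apply_div (aeval z : ℂ[X] →ₐ[ℂ] K)
    (nonZeroDivisors_le_comap_nonZeroDivisors_of_injective _
      (transcendental_iff_injective.mp hz.transcendental)) P 1
  simpa [ev] using this

theorem ev_X {z : K} (hz : NC z) : ev hz RatFunc.X = z := by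
  rw [← RatFunc.algebraMap_X, ev_algebraMap, aeval_X]

theorem map_PhiW {K' : Type} [Field K'] [Algebra ℂ K'] (φ : K →ₐ[ℂ] K') (f : ℂ → ℕ)
    (s : Multiset ℂ) (z : K) : φ (PhiW f s z) = PhiW f s (φ z) := by
  induction s using Multiset.induction_on with
  | empty => simp [PhiW]
  | cons w s ih => simp [PhiW_cons, ih, tt, map_div₀]

theorem map_HH {K' : Type} [Field K'] [Algebra ℂ K'] (φ : K →ₐ[ℂ] K')
    (s : Multiset ℂ) (z : K) : φ (HH s z) = HH s (φ z) := by
  simp [HH, tt, map_multiset_sum, Multiset.map_map, map_div₀]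

theorem NC_of_map {K' : Type} [Field K'] [Algebra ℂ K'] (φ : K →ₐ[ℂ] K') {z : K}
    (h : NC (φ z)) : NC z := fun c hc => h c (by rw [hc, φ.commutes])

theorem NC_HH_X {s : Multiset ℂ} {a x : K} (hx : NC x) (ha : NC a) (h : HH s x = a) :
    NC (HH s (RatFunc.X : RatFunc ℂ)) :=
  NC_of_map (ev hx) (by rw [map_HH, ev_X, h]; exact ha)

theorem ev_comp {s : Multiset ℂ} {a x : K} (hx : NC x) (ha : NC a) (h : HH s x = a)
    (hX : NC (HH s (RatFunc.X : RatFunc ℂ))) :
    (ev hx : RatFunc ℂ →+* K).comp (ev hX : RatFunc ℂ →+* RatFunc ℂ) = (ev ha : RatFunc ℂ →+* K) := by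
  refine IsLocalization.ringHom_ext (nonZeroDivisors ℂ[X]) (RingHom.ext fun P => ?_)
  simp only [RingHom.comp_apply, RingHom.coe_coe, ev_algebraMap]
  rw [← aeval_algHom_apply, map_HH, ev_X, h]

theorem eval₂_Phi_iff {s : Multiset ℂ} {a x : K} (hx : NC x) (ha : NC a) (h : HH s x = a)
    (hX : NC (HH s (RatFunc.X : RatFunc ℂ))) (f : ℂ → ℕ) (P : (RatFunc ℂ)[X]) :
    P.eval₂ (ev ha : RatFunc ℂ →+* K) (PhiW f s x) = 0 ↔
      P.eval₂ (ev hX : RatFunc ℂ →+* RatFunc ℂ) (PhiW f s RatFunc.X) = 0 := by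
  have e : PhiW f s x = (ev hx : RatFunc ℂ →+* K) (PhiW f s RatFunc.X) := by
    rw [RingHom.coe_coe, map_PhiW, ev_X]
  rw [← ev_comp hx ha h hX, e, ← hom_eval₂, _root_.map_eq_zero]

theorem isAlgebraic_PhiW {F : Type} [Field F] [Algebra ℂ F] [Algebra F K]
    (hc : ∀ c : ℂ, algebraMap F K (algebraMap ℂ F c) = algebraMap ℂ K c) {s : Multiset ℂ}
    {a x : K} (hx : NC x) (ha : NC a) (h : HH s x = a) {t : F} (ht : algebraMap F K t = a)
    (f : ℂ → ℕ) (r : Multiset ℂ) : IsAlgebraic F (PhiW f r x) := by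
  have key : ∀ s : Multiset ℂ,
      HH s x * aeval x (s.map fun w => (X - C (algebraMap ℂ F w) : F[X])).prod =
        x * aeval x (derivative (s.map fun w => (X - C (algebraMap ℂ F w) : F[X])).prod) := by
    intro s
    induction s using Multiset.induction_on with
    | empty => simp [HH]
    | cons w s ih =>
      have e1 : HH (w ::ₘ s) x = 1 + tt w x + HH s x := by simp [HH]
      have e2 := hx.sub_ne_zero w
      rw [e1, one_add_tt e2, Multiset.map_cons, Multiset.prod_cons, derivative_mul]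
      simp only [map_mul, map_add, map_sub, aeval_X, aeval_C, hc, derivative_X, derivative_C,
        sub_zero, one_mul]
      generalize aeval x (s.map fun w => (X - C (algebraMap ℂ F w) : F[X])).prod = A at *
      generalize aeval x (derivative
        (s.map fun w => (X - C (algebraMap ℂ F w) : F[X])).prod) = B at *
      have e3 : x / (x - algebraMap ℂ K w) * (x - algebraMap ℂ K w) = x := div_mul_cancel₀ _ e2
      linear_combination A * e3 + (x - algebraMap ℂ K w) * ih
  have hxa : IsAlgebraic F x := by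
    obtain ⟨P, hP⟩ : ∃ P : F[X], P = (s.map fun w => (X - C (algebraMap ℂ F w) : F[X])).prod :=
      ⟨_, rfl⟩
    have hm : P.Monic := hP ▸ monic_multiset_prod_of_monic _ _ fun w _ => monic_X_sub_C _
    refine ⟨X * derivative P - C t * P, fun h0 => ?_, ?_⟩
    · have e1 := congrArg (fun Q : F[X] => Q.coeff P.natDegree) h0
      have e2 : ∀ n : ℕ, (X * derivative P).coeff n = P.coeff n * n := by
        intro n
        cases n with
        | zero => simp
        | succ n => rw [coeff_X_mul, coeff_derivative]; push_cast; rfl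
      simp only [coeff_sub, e2, coeff_C_mul, hm.coeff_natDegree, one_mul, mul_one,
        coeff_zero] at e1
      refine ha (P.natDegree : ℂ) ?_
      rw [← ht, ← sub_eq_zero.mp e1, map_natCast, map_natCast]
    · have := key s
      rw [← hP, h] at this
      simp only [map_sub, map_mul, aeval_X, aeval_C, ht]
      linear_combination -this
  have hxm : x ∈ algebraicClosure F K := mem_algebraicClosure_iff.mpr hxa
  refine mem_algebraicClosure_iff.mp ?_
  induction r using Multiset.induction_on with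
  | empty => simp [PhiW]
  | cons w r ih =>
    have hw : algebraMap ℂ K w ∈ algebraicClosure F K := by
      rw [← hc]; exact IntermediateField.algebraMap_mem _ _
    rw [PhiW_cons]
    exact add_mem (mul_mem (natCast_mem _ _) (add_mem (one_mem _)
      (div_mem hw (sub_mem hxm hw)))) ih

end

/-- The constant value of a signed sum does not depend on the chosen branches. -/
theorem const_univ {K K' : Type} [Field K] [Algebra ℂ K] [Field K'] [Algebra ℂ K']
    {s1 s2 s3 s4 : Multiset ℂ} {f1 f2 f3 f4 : ℂ → ℕ} {a x1 x2 x3 x4 : K} {a' y1 y2 y3 y4 : K'}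
    (ha : NC a) (n1 : NC x1) (n2 : NC x2) (n3 : NC x3) (n4 : NC x4)
    (h1 : HH s1 x1 = a) (h2 : HH s2 x2 = a) (h3 : HH s3 x3 = a) (h4 : HH s4 x4 = a)
    (ha' : NC a') (n1' : NC y1) (n2' : NC y2) (n3' : NC y3) (n4' : NC y4)
    (h1' : HH s1 y1 = a') (h2' : HH s2 y2 = a') (h3' : HH s3 y3 = a') (h4' : HH s4 y4 = a')
    {c c' : ℂ}
    (h : PhiW f1 s1 x1 + PhiW f2 s2 x2 - PhiW f3 s3 x3 - PhiW f4 s4 x4 = algebraMap ℂ K c)
    (h' : PhiW f1 s1 y1 + PhiW f2 s2 y2 - PhiW f3 s3 y3 - PhiW f4 s4 y4 = algebraMap ℂ K' c') :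
    c = c' := by
  let _ : Algebra (RatFunc ℂ) K := (ev ha : RatFunc ℂ →+* K).toAlgebra
  let _ : Algebra (RatFunc ℂ) K' := (ev ha' : RatFunc ℂ →+* K').toAlgebra
  have hc : ∀ c : ℂ, algebraMap (RatFunc ℂ) K (algebraMap ℂ (RatFunc ℂ) c) = algebraMap ℂ K c :=
    fun c => (ev ha).commutes c
  have hc' : ∀ c : ℂ, algebraMap (RatFunc ℂ) K' (algebraMap ℂ (RatFunc ℂ) c) = algebraMap ℂ K' c :=
    fun c => (ev ha').commutes c
  have ht : algebraMap (RatFunc ℂ) K RatFunc.X = a := ev_X ha
  have ht' : algebraMap (RatFunc ℂ) K' RatFunc.X = a' := ev_X ha'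
  have key : ∀ {s : Multiset ℂ} {x : K} {y : K'} (f : ℂ → ℕ), NC x → NC y → HH s x = a →
      HH s y = a' → minpoly (RatFunc ℂ) (PhiW f s x) = minpoly (RatFunc ℂ) (PhiW f s y) := by
    intro s x y f nx ny hx hy
    refine minpoly_eq_of_iff (isAlgebraic_PhiW hc nx ha hx ht f s)
      (isAlgebraic_PhiW hc' ny ha' hy ht' f s) fun P => ?_
    exact (eval₂_Phi_iff nx ha hx (NC_HH_X nx ha hx) f P).trans
      (eval₂_Phi_iff ny ha' hy (NC_HH_X nx ha hx) f P).symm
  have : CharZero (RatFunc ℂ) := charZero_of_injective_algebraMap (algebraMap ℂ _).injective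
  have e := ntrace_sum (isAlgebraic_PhiW hc n1 ha h1 ht f1 s1) (isAlgebraic_PhiW hc n2 ha h2 ht f2 s2)
    (isAlgebraic_PhiW hc n3 ha h3 ht f3 s3) (isAlgebraic_PhiW hc n4 ha h4 ht f4 s4)
    (h.trans (hc c).symm) fun _ => rfl
  have e' := ntrace_sum (isAlgebraic_PhiW hc' n1' ha' h1' ht' f1 s1)
    (isAlgebraic_PhiW hc' n2' ha' h2' ht' f2 s2) (isAlgebraic_PhiW hc' n3' ha' h3' ht' f3 s3)
    (isAlgebraic_PhiW hc' n4' ha' h4' ht' f4 s4) (h'.trans (hc' c').symm) fun _ => rfl
  rw [key f1 n1 n1' h1 h1', key f2 n2 n2' h2 h2', key f3 n3 n3' h3 h3', key f4 n4 n4' h4 h4',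
    e'] at e
  exact ((algebraMap ℂ (RatFunc ℂ)).injective e).symm

end Pool.Agent.Lib.MP_6db618_an
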