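import Mathlib
import Pool.Agent.Lib.MP_6db618_an.MT4
import Pool.Agent.Lib.MP_6db618_an.MT5
import Pool.Agent.Lib.MP_6db618_an.Ends

set_option autoImplicit false

namespace Pool.Agent.Lib.MP_6db618_an

open Polynomial Filter Topology

theorem hasDerivAt_HH_rot {s : Multiset ℂ} {x : ℂ} (hx : ∀ w ∈ s, x - w ≠ 0) :
    HasDerivAt (fun t : ℂ => HH s (x * Complex.exp (Complex.I * t))) (Complex.I * Chi s x) 0 := by
  induction s using Multiset.induction_on with
  | empty => simpa [HH, Chi] using hasDerivAt_const (0 : ℂ) (0 : ℂ)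
  | cons w s ih =>
    have ih' := ih fun u hu => hx u (Multiset.mem_cons_of_mem hu)
    have hw := hx w (Multiset.mem_cons_self _ _)
    have h1 : HasDerivAt (fun t : ℂ => x * Complex.exp (Complex.I * t) - w) (x * Complex.I) 0 := by
      have := ((((hasDerivAt_id (0 : ℂ)).const_mul Complex.I).cexp).const_mul x).sub_const w
      simpa using this
    have h2 := ((hasDerivAt_const (0 : ℂ) w).fun_div h1 (by simpa using hw)).const_add 1
    have h3 := h2.fun_add ih'
    have e1 : (fun t : ℂ => HH (w ::ₘ s) (x * Complex.exp (Complex.I * t))) =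
        fun t : ℂ => 1 + w / (x * Complex.exp (Complex.I * t) - w) +
          HH s (x * Complex.exp (Complex.I * t)) := by
      funext t
      simp [HH, tt]
    have e2 : Chi (w ::ₘ s) x = -(tt w x * (1 + tt w x)) + Chi s x := by simp [Chi]
    rw [e1, e2]
    refine h3.congr_deriv ?_
    simp only [tt, Algebra.algebraMap_self, RingHom.id_apply, mul_zero, Complex.exp_zero, mul_one]
    field_simp
    ring

/-- The second-order condition at a maximum point. -/
theorem GoodPair.re_Chi_nonneg {p q : ℂ[X]} {x y : ℂ} (h : GoodPair p q x y) :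
    0 ≤ (Chi p.roots x).re := by
  by_contra hcon
  have hneg : (Chi p.roots x).re < 0 := not_le.mp hcon
  obtain ⟨f, hf⟩ : ∃ f : ℝ → ℝ, f = fun t : ℝ => ‖p.eval (x * Complex.exp (Complex.I * t))‖ ^ 2 :=
    ⟨_, rfl⟩
  have hmax : IsLocalMax f 0 := by
    refine Filter.Eventually.of_forall fun s => ?_
    simp only [hf, Complex.ofReal_zero, mul_zero, Complex.exp_zero, mul_one]
    rw [h.max_p]
    refine pow_le_pow_left₀ (norm_nonneg _) (le_MM p ?_) 2
    rw [norm_mul, mul_comm Complex.I, Complex.norm_exp_ofReal_mul_I, mul_one]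
  have hder : ∀ s : ℝ, p.eval (x * Complex.exp (Complex.I * s)) ≠ 0 → HasDerivAt f
      (-2 * f s * (HH p.roots (x * Complex.exp (Complex.I * s))).im) s := by
    intro s hs
    have h1 := hasDerivAt_normSq p (x * Complex.exp (Complex.I * s)) Complex.I
    have h2 : HasDerivAt (fun t : ℝ => f (s + t)) (2 * ((starRingEnd ℂ)
        (p.eval (x * Complex.exp (Complex.I * s))) * (Complex.I * (x * Complex.exp (Complex.I * s) *
          p.derivative.eval (x * Complex.exp (Complex.I * s))))).re) 0 := by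
      refine h1.congr_of_eventuallyEq (Filter.Eventually.of_forall fun t => ?_)
      simp only [hf]
      rw [mul_assoc, ← Complex.exp_add]
      push_cast
      rw [mul_add]
    rw [← add_neg_cancel s] at h2
    have h4 := h2.comp_add_const s (-s)
    have h5 : (fun t : ℝ => f (s + (t + -s))) = f := by
      funext t; congr 1; ring
    rw [h5] at h4
    refine h4.congr_deriv ?_
    rw [HH_roots_eq hs, hf]
    generalize x * Complex.exp (Complex.I * s) * p.derivative.eval
      (x * Complex.exp (Complex.I * s)) = N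
    simp only
    generalize p.eval (x * Complex.exp (Complex.I * s)) = P at *
    have : N = P * (N / P) := by field_simp
    generalize N / P = H at *
    subst this
    rw [← Complex.normSq_eq_norm_sq, Complex.normSq_apply]
    simp only [Complex.mul_re, Complex.mul_im, Complex.conj_re, Complex.conj_im, Complex.I_re,
      Complex.I_im]
    ring
  have hx0 : p.eval (x * Complex.exp (Complex.I * (0 : ℝ))) ≠ 0 := by simpa using h.ne_zero
  have hev : ∀ᶠ s : ℝ in 𝓝 0, p.eval (x * Complex.exp (Complex.I * s)) ≠ 0 := by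
    have hc : Continuous fun s : ℝ => p.eval (x * Complex.exp (Complex.I * s)) :=
      p.continuous.comp (by fun_prop)
    exact hc.continuousAt.eventually_ne hx0
  have him : (HH p.roots x).im = 0 := by
    have := congrArg Complex.im h.real
    rw [Complex.conj_im] at this
    linarith
  have hd0 := hder 0 hx0
  simp only [Complex.ofReal_zero, mul_zero, Complex.exp_zero, mul_one, him] at hd0
  have hroot : ∀ w ∈ p.roots, x - w ≠ 0 := by
    intro w hw h0
    exact h.ne_zero (sub_eq_zero.mp h0 ▸ isRoot_of_mem_roots hw)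
  have hH : HasDerivAt (fun s : ℝ => (HH p.roots (x * Complex.exp (Complex.I * s))).im)
      (Chi p.roots x).re 0 := by
    have h1 : HasDerivAt (fun t : ℂ => HH p.roots (x * Complex.exp (Complex.I * t)))
        (Complex.I * Chi p.roots x) ((0 : ℝ) : ℂ) := hasDerivAt_HH_rot hroot
    have h2 := Complex.imCLM.hasFDerivAt.comp_hasDerivAt (0 : ℝ) h1.comp_ofReal
    simpa [Function.comp_def] using h2
  have hdd : deriv (deriv f) 0 = -2 * f 0 * (Chi p.roots x).re := by
    have e : deriv f =ᶠ[𝓝 0]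
        fun s : ℝ => -2 * f s * (HH p.roots (x * Complex.exp (Complex.I * s))).im := by
      filter_upwards [hev] with s hs using (hder s hs).deriv
    rw [e.deriv_eq]
    have := ((hd0.const_mul (-2)).fun_mul hH).deriv
    simpa using this
  have hf0 : 0 < f 0 := by
    simp only [hf]
    exact pow_pos (norm_pos_iff.mpr hx0) 2
  have hpos : deriv (deriv f) 0 > 0 := by rw [hdd]; nlinarith
  have hmin := isLocalMin_of_deriv_deriv_pos hpos hd0.deriv hd0.continuousAt
  have hconst : f =ᶠ[𝓝 0] fun _ => f 0 := by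
    filter_upwards [hmax, hmin] with s h1 h2 using le_antisymm h1 h2
  have := hconst.deriv.deriv_eq
  rw [this] at hpos
  simp at hpos

theorem pointwise_zero {A B φ ψ : ℂ} {c : ℝ} (hc : 0 ≤ c) (hA : 0 ≤ A.re)
    (hF : A⁻¹ + (starRingEnd ℂ A)⁻¹ = B⁻¹ + (starRingEnd ℂ B)⁻¹)
    (hφ : φ + starRingEnd ℂ φ = ψ + starRingEnd ℂ ψ)
    (h : (A⁻¹ - B⁻¹) ^ 2 * (A + starRingEnd ℂ A) * (B * starRingEnd ℂ B) =
      -((c : ℂ) * (φ - ψ) ^ 2)) :
    (A⁻¹ - B⁻¹) ^ 2 * (A + starRingEnd ℂ A) * (B * starRingEnd ℂ B) = 0 := by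
  rw [← map_inv₀, ← map_inv₀, Complex.add_conj, Complex.add_conj] at hF
  rw [Complex.add_conj, Complex.add_conj] at hφ
  have e1 : A⁻¹ - B⁻¹ = ((A⁻¹ - B⁻¹).im : ℂ) * Complex.I := by
    have : (A⁻¹).re = (B⁻¹).re := by
      have := Complex.ofReal_injective hF
      linarith
    apply Complex.ext
    · simp only [Complex.sub_re, this, sub_self, Complex.mul_re, Complex.ofReal_re, Complex.I_re,
        mul_zero, Complex.ofReal_im, zero_mul]
    · simp only [Complex.mul_im, Complex.ofReal_re, Complex.I_im, mul_one, Complex.ofReal_im,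
        zero_mul, add_zero]
  have e2 : φ - ψ = ((φ - ψ).im : ℂ) * Complex.I := by
    have : φ.re = ψ.re := by
      have := Complex.ofReal_injective hφ
      linarith
    apply Complex.ext <;> simp [this]
  rw [e1, Complex.add_conj, Complex.mul_conj] at h ⊢
  rw [e2] at h
  generalize (A⁻¹ - B⁻¹).im = f at *
  generalize (φ - ψ).im = θ at *
  have hB := Complex.normSq_nonneg B
  have e3 : ((f : ℂ) * Complex.I) ^ 2 * ((2 * A.re : ℝ) : ℂ) * (Complex.normSq B : ℂ) =
      ((-(f ^ 2 * (2 * A.re) * Complex.normSq B) : ℝ) : ℂ) := by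
    rw [mul_pow, Complex.I_sq]; push_cast; ring
  have e4 : -((c : ℂ) * ((θ : ℂ) * Complex.I) ^ 2) = ((c * θ ^ 2 : ℝ) : ℂ) := by
    rw [mul_pow, Complex.I_sq]; push_cast; ring
  rw [e3] at h ⊢
  rw [e4] at h
  have e5 := Complex.ofReal_injective h
  have e6 : 0 ≤ f ^ 2 * (2 * A.re) * Complex.normSq B := by positivity
  have e7 : 0 ≤ c * θ ^ 2 := by positivity
  have e8 : -(f ^ 2 * (2 * A.re) * Complex.normSq B) = 0 := by linarith
  rw [e8, Complex.ofReal_zero]

theorem up_PhiW (f : ℂ → ℕ) (s : Multiset ℂ) (x : ℕ → ℂ) :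
    up (fun n => PhiW f s (x n)) = PhiW f s (up x) := by
  induction s using Multiset.induction_on with
  | empty => simp only [PhiW, Multiset.map_zero, Multiset.sum_zero]; exact map_zero up
  | cons w s ih =>
    simp only [PhiW_cons]
    rw [← ih, ← up_tt, ← map_one up, ← map_add, ← map_natCast up, ← map_mul, ← map_add]
    rfl

theorem count_conj (s : Multiset ℂ) (w : ℂ) :
    (s.map (starRingEnd ℂ)).count (starRingEnd ℂ w) = s.count w :=
  Multiset.count_map_eq_count' (starRingEnd ℂ) s (starRingEnd ℂ).injective w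

theorem Phi_conj (g : ℕ → ℕ) (s : Multiset ℂ) (z : ℂ) :
    Phi g (s.map (starRingEnd ℂ)) (starRingEnd ℂ z) = starRingEnd ℂ (Phi g s z) := by
  simp [Phi, PhiW, wt, tt, map_multiset_sum, Multiset.map_map, count_conj]

theorem Chi_conj (s : Multiset ℂ) (z : ℂ) :
    Chi (s.map (starRingEnd ℂ)) (starRingEnd ℂ z) = starRingEnd ℂ (Chi s z) := by
  simp [Chi, tt, map_multiset_sum, Multiset.map_map]

theorem Ng_conj (g : ℕ → ℕ) (s : Multiset ℂ) : Ng g s = Ng g (s.map (starRingEnd ℂ)) := by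
  unfold Ng
  rw [Multiset.map_map]
  congr 1
  refine Multiset.map_congr rfl fun w _ => ?_
  simp only [Function.comp_apply, wt, count_conj]

theorem Chi_nz (s : Multiset ℂ) (z : ℂ) : Chi (nz s) z = Chi s z := by
  have e1 := sum_map_split s (fun w => -(tt w z * (1 + tt w z))) 0
  have ht0 : tt 0 z = 0 := by simp [tt]
  rw [ht0] at e1
  unfold Chi nz
  linear_combination -e1

theorem conj_ne_zero_of_mem {s : Multiset ℂ} (hs : ∀ w ∈ s, w ≠ 0) :
    ∀ w ∈ s.map (starRingEnd ℂ), w ≠ 0 := fun w hw => by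
  obtain ⟨u, hu, rfl⟩ := Multiset.mem_map.mp hw
  simpa using hs u hu

theorem SeqData.quad {p q : ℂ[X]} {x y : ℕ → ℂ} (hd : SeqData p q x y) (nx : NC (up x))
    (nx' : NC (up fun n => starRingEnd ℂ (x n))) (ny : NC (up y))
    (ny' : NC (up fun n => starRingEnd ℂ (y n))) (ha : NC (HH p.roots (up x)))
    (hm : p.roots.count 0 = q.roots.count 0) :
    Quad (nz p.roots) ((nz p.roots).map (starRingEnd ℂ)) (nz q.roots)
      ((nz q.roots).map (starRingEnd ℂ)) (HH p.roots (up x) - (p.roots.count 0 : ℕ)) (up x)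
      (up fun n => starRingEnd ℂ (x n)) (up y) (up fun n => starRingEnd ℂ (y n)) :=
  ⟨nz_ne_zero _, conj_ne_zero_of_mem (nz_ne_zero _), nz_ne_zero _,
    conj_ne_zero_of_mem (nz_ne_zero _), nx, nx', ny, ny', ha.sub_const _, HH_nz _ _,
    by rw [← nz_map_conj, HH_nz, hd.HH_x', count_zero_conj], by rw [HH_nz, hd.HH_y, hm],
    by rw [← nz_map_conj, HH_nz, hd.HH_y', count_zero_conj, hm], hd.rel⟩

theorem Quad.chi_add_ne {K : Type} [Field K] [Algebra ℂ K] {s1 s2 s3 s4 : Multiset ℂ}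
    {a x1 x2 x3 x4 : K} (Q : Quad s1 s2 s3 s4 a x1 x2 x3 x4) (hR : NC (x1 * x2)) :
    Chi s1 x1 + Chi s2 x2 ≠ 0 := by
  intro k
  obtain ⟨D', hD'⟩ := hR.exists_derivation
  have f1 := deriv_HH D' Q.n1 s1
  have f2 := deriv_HH D' Q.n2 s2
  have f3 := deriv_mul_div D' Q.n1.ne_zero Q.n2.ne_zero
  rw [hD'] at f3
  rw [Q.h1] at f1
  rw [Q.h2, f1] at f2
  have f4 : Chi s1 x1 * (D' x1 / x1 + D' x2 / x2) = 0 := by
    linear_combination f2 + (D' x2 / x2) * k
  rw [← f3] at f4
  exact mul_ne_zero Q.chi_ne.1 (one_div_ne_zero hR.ne_zero) f4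

/-- Blumenthal's conjecture for polynomials without nested quadruples of multiplicities in one
direction. -/
theorem equiv_of_nonNested {p q : ℂ[X]} {r0 r1 : ℝ} (hr0 : 0 < r0)
    (h : ∀ r, 0 < r → r < r0 ∨ r1 < r → MM p r = MM q r)
    (hN : ∀ u ∈ nz p.roots, ∀ u' ∈ nz p.roots, ∀ v ∈ nz q.roots, ∀ v' ∈ nz q.roots,
      u * starRingEnd ℂ u' = v * starRingEnd ℂ v' →
      p.roots.count u + p.roots.count u' = q.roots.count v + q.roots.count v' →
      min (q.roots.count v) (q.roots.count v') ≤ min (p.roots.count u) (p.roots.count u')) :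
    Equiv p q := by
  by_cases hp : p = 0
  · subst hp
    exact equiv_zero (half_pos hr0) (h _ (half_pos hr0) (Or.inl (half_lt_self hr0)))
  -- data at small radii
  obtain ⟨x, y, hd, hx, hy⟩ := exists_seqData_zero hp hr0 fun r hr hr' => h r hr (Or.inl hr')
  have hx' := tendsto_conj hx
  have hy' := tendsto_conj hy
  have x0' : ∀ n, starRingEnd ℂ (x n) ≠ 0 := fun n => by simpa using hd.ne_zero n
  have y0' : ∀ n, starRingEnd ℂ (y n) ≠ 0 := fun n => by simpa using hd.y_ne_zero n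
  have nx : NC (up x) := NC_up hd.ne_zero hx
  have ny : NC (up y) := NC_up hd.y_ne_zero hy
  have nx' := NC_up x0' hx'
  have ny' := NC_up y0' hy'
  have vx := valuation_up_lt_one hd.ne_zero hx
  have vy := valuation_up_lt_one hd.y_ne_zero hy
  have vx' := valuation_up_lt_one x0' hx'
  have vy' := valuation_up_lt_one y0' hy'
  by_cases ha : NC (HH p.roots (up x))
  swap
  · unfold NC at ha
    push Not at ha
    obtain ⟨c, hc⟩ := ha
    exact hd.equiv_of_const nx ny hc
  have hm : p.roots.count 0 = q.roots.count 0 := by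
    refine hasConst_V0.natCast_eq
      (lt_of_le_of_lt (hasConst_V0.valuation_HH_le vy (nz_ne_zero q.roots)).1 vy)
      (lt_of_le_of_lt (hasConst_V0.valuation_HH_le vx (nz_ne_zero p.roots)).1 vx) ?_
    rw [HH_nz, HH_nz, hd.HH_y]; ring
  have Q := hd.quad nx nx' ny ny' ha hm
  -- data at large radii
  obtain ⟨z, t, he, hz, ht⟩ := exists_seqData_infty hp (lt_max_of_lt_left one_pos : 0 < max 1 r1)
    fun r hr => h r (lt_trans one_pos (lt_of_le_of_lt (le_max_left _ _) hr))
      (Or.inr (lt_of_le_of_lt (le_max_right _ _) hr))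
  have hz' : Tendsto (fun n => (starRingEnd ℂ (z n))⁻¹) atTop (𝓝 0) := by
    simpa using tendsto_conj hz
  have ht' : Tendsto (fun n => (starRingEnd ℂ (t n))⁻¹) atTop (𝓝 0) := by
    simpa using tendsto_conj ht
  have big : ∀ f : ℕ → ℂ, (∀ n, f n ≠ 0) → Tendsto (fun n => (f n)⁻¹) atTop (𝓝 0) →
      NC (up f) ∧ 1 < V0.valuation (up f) := by
    intro f f0 hf
    have k1 := NC_up (fun n => inv_ne_zero (f0 n)) hf
    have k2 := valuation_up_lt_one (fun n => inv_ne_zero (f0 n)) hf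
    rw [up_inv] at k1 k2
    have k3 : NC (up f) := by simpa using k1.inv
    refine ⟨k3, ?_⟩
    rw [map_inv₀] at k2
    exact (inv_lt_one₀ (zero_lt_iff.mpr ((Valuation.ne_zero_iff _).mpr k3.ne_zero))).mp k2
  obtain ⟨mz, wz⟩ := big z he.ne_zero hz
  obtain ⟨mt, wt'⟩ := big t he.y_ne_zero ht
  obtain ⟨mz', wz'⟩ := big _ (fun n => by simpa using he.ne_zero n) hz'
  obtain ⟨mt', wt''⟩ := big _ (fun n => by simpa using he.y_ne_zero n) ht'
  by_cases hb : NC (HH p.roots (up z))
  swap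
  · unfold NC at hb
    push Not at hb
    obtain ⟨c, hc⟩ := hb
    exact he.equiv_of_const mz mt hc
  have Q' := he.quad mz mz' mt mt' hb hm
  -- the sums of the squared multiplicities agree
  have hS : Ng id (nz q.roots) = Ng id (nz p.roots) := by
    obtain ⟨c, hc⟩ := Q.phi_id_const
    obtain ⟨c', hc'⟩ := Q'.phi_id_const
    have e := const_univ Q.na Q.n1 Q.n2 Q.n3 Q.n4 Q.h1 Q.h2 Q.h3 Q.h4 Q'.na Q'.n1 Q'.n2 Q'.n3 Q'.n4
      Q'.h1 Q'.h2 Q'.h3 Q'.h4 hc hc'
    have e1 := Near.unique hasConst_V0 (hc ▸ near_const c)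
      ((((hasConst_V0.near_PhiW_zero _ vx Q.z1).add (hasConst_V0.near_PhiW_zero _ vx' Q.z2)).sub
        (hasConst_V0.near_PhiW_zero _ vy Q.z3)).sub (hasConst_V0.near_PhiW_zero _ vy' Q.z4))
    have e2 := Near.unique hasConst_V0 (hc' ▸ near_const c')
      ((((hasConst_V0.near_PhiW_infty _ wz _).add (hasConst_V0.near_PhiW_infty _ wz' _)).sub
        (hasConst_V0.near_PhiW_infty _ wt' _)).sub (hasConst_V0.near_PhiW_infty _ wt'' _))
    change c' = (Ng id _ : ℕ) + (Ng id _ : ℕ) - (Ng id _ : ℕ) - (Ng id _ : ℕ) at e2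
    rw [← Ng_conj, ← Ng_conj, ← e, e1] at e2
    have e3 : ((Ng id (nz q.roots) : ℕ) : ℂ) = (Ng id (nz p.roots) : ℕ) := by
      linear_combination (1 / 2 : ℂ) * e2
    exact_mod_cast e3
  have cnz : ∀ (s : Multiset ℂ), ∀ w ∈ nz s, (nz s).count w = s.count w := fun s w hw =>
    Multiset.count_filter_of_pos (nz_ne_zero s w hw)
  have hmt := Q.mt_of_nonNested (Ng_conj _ _) (Ng_conj _ _) hS.le (by
    intro u hu w2 hw2 v hv w4 hw4 e1 e2
    obtain ⟨u', hu', rfl⟩ := Multiset.mem_map.mp hw2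
    obtain ⟨v', hv', rfl⟩ := Multiset.mem_map.mp hw4
    rw [count_conj, count_conj, cnz _ _ hu, cnz _ _ hu', cnz _ _ hv, cnz _ _ hv'] at e2 ⊢
    exact hN u hu u' hu' v hv v' hv' e1 e2)
  by_cases fu : (Chi (nz p.roots) (up x))⁻¹ - (Chi (nz q.roots) (up y))⁻¹ = 0
  · obtain ⟨c, hc⟩ := exists_const_of_Chi_eq nx ny (Q.h1.trans Q.h3.symm)
      (inv_injective (sub_eq_zero.mp fu)) Q.chi_ne.1
    exact hd.equiv_of_u ny hc
  by_cases fv : (Chi (nz p.roots) (up x))⁻¹ -
      (Chi ((nz q.roots).map (starRingEnd ℂ)) (up fun n => starRingEnd ℂ (y n)))⁻¹ = 0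
  · obtain ⟨c, hc⟩ := exists_const_of_Chi_eq nx ny' (Q.h1.trans Q.h4.symm)
      (inv_injective (sub_eq_zero.mp fv)) Q.chi_ne.1
    exact hd.equiv_of_v ny' hc
  exfalso
  have M := Q.mtd hmt hasConst_V0 vx vx' vy vy' (fun _ => Ng_conj _ _) (fun _ => Ng_conj _ _) fu fv
  obtain ⟨c, l, hc, e⟩ := M.final hasConst_V0 vx vx' vy vy'
  have nR : NC (up x * up fun n => starRingEnd ℂ (x n)) :=
    hasConst_V0.NC_of_lt (mul_ne_zero nx.ne_zero nx'.ne_zero) (val_mul_lt vx vx'.le)
  refine mul_ne_zero (mul_ne_zero (pow_ne_zero 2 fu) (Q.chi_add_ne nR))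
    (mul_ne_zero Q.chi_ne.2.2.1 Q.chi_ne.2.2.2) ?_
  have eF := Q.Fsum
  have eA := M.relA (ind l)
  unfold Phi at e eA
  rw [← up_Chi, ← up_Chi, ← up_Chi, ← up_Chi] at e eF ⊢
  rw [← up_PhiW, ← up_PhiW, algebraMap_UP] at e
  rw [← up_PhiW, ← up_PhiW, ← up_PhiW, ← up_PhiW] at eA
  simp only [← up_inv] at e eF ⊢
  simp only [← map_sub, ← map_add, ← map_mul, ← map_pow, ← map_neg] at e eF eA ⊢
  rw [← map_zero up]
  rw [up_eq_iff] at e eF eA ⊢
  filter_upwards [e, eF, eA] with n e eF eA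
  simp only [Pi.mul_apply, Pi.add_apply, Pi.sub_apply, Pi.pow_apply, Pi.neg_apply, Pi.zero_apply,
    Chi_conj] at e eF eA ⊢
  refine pointwise_zero hc ?_ eF ?_ e
  · rw [Chi_nz]
    exact (hd.good n).re_Chi_nonneg
  · rw [← Phi, ← Phi, ← Phi, ← Phi, Phi_conj, Phi_conj] at eA
    exact eA

end Pool.Agent.Lib.MP_6db618_an
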